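import Pool.Agent.Lib.MP_211f72_nt.W.SpecE

/-!
# MP_211f72_nt, third theorem, part E: the amplification (`S_Ampl`)
-/

set_option autoImplicit false

namespace Pool.Agent.MP211W.Ampl

open Polynomial NumberField

/-- the number of prime divisors of a number `n ≤ M` -/
theorem omega_le {n : ℕ} {M : ℝ} (hn : n ≠ 0) (h : (n : ℝ) ≤ M) :
    n.primeFactors.card ≤ Nat.log 2 ⌊M⌋₊ := by
  have h1 : 2 ^ n.primeFactors.card ≤ ∏ p ∈ n.primeFactors, p :=
    Finset.pow_card_le_prod _ _ _ fun p hp => (Nat.prime_of_mem_primeFactors hp).two_le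
  have h2 : ∏ p ∈ n.primeFactors, p ≤ n :=
    Nat.le_of_dvd (Nat.pos_of_ne_zero hn) (Nat.prod_primeFactors_dvd n)
  exact (Nat.le_log_of_pow_le Nat.one_lt_two (h1.trans h2)).trans
    (Nat.log_mono_right (Nat.le_floor h))

/-- real estimate: the two cases of the end of the proof -/
theorem fin_ineq {b a w z l r : ℝ} (hb : 0 ≤ b) (hz : 0 ≤ z) (hw : 0 ≤ w)
    (hl : l = 2 + w) (h1 : b ≤ z) (h2 : b * (a - w) ≤ z) (h3 : z ≤ l * r) :
    b * a ≤ 2 * l ^ 2 * r := by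
  have hl2 : 2 ≤ l := by linarith
  have hkey : b * a ≤ 2 * l * z := by
    by_cases h : a ≤ 2 * l
    · calc b * a ≤ b * (2 * l) := mul_le_mul_of_nonneg_left h hb
        _ = 2 * l * b := by ring
        _ ≤ 2 * l * z := mul_le_mul_of_nonneg_left h1 (by linarith)
    · push Not at h
      have h4 : a / 2 ≤ a - w := by linarith
      have h5 : b * (a / 2) ≤ z := (mul_le_mul_of_nonneg_left h4 hb).trans h2
      nlinarith [h5, mul_nonneg hz (by linarith : (0 : ℝ) ≤ l - 1)]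
  calc b * a ≤ 2 * l * z := hkey
    _ ≤ 2 * l * (l * r) := mul_le_mul_of_nonneg_left h3 (by linarith)
    _ = 2 * l ^ 2 * r := by ring

theorem log_le {d η : ℝ} (hd : 0 < d) (hη : 0 < η) : Real.log d ≤ d ^ η / η :=
  Real.log_le_rpow_div hd.le hη

/-- the numerical end -/
theorem num {d ε η C₁ w k s : ℝ} (hd : 2 ≤ d) (hε : 0 < ε) (hη : η = ε / 6) (hC : 0 < C₁)
    (hw : w ≤ Real.log d) (hw0 : 0 ≤ w) (hk : k ≤ Real.log (2 * Real.sqrt d) + 1) (hk0 : 0 ≤ k)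
    (hs0 : 0 ≤ s) (hs : s ≤ C₁ * (2 * Real.sqrt d) ^ (1 + ε)) :
    2 * (2 + w) ^ 2 * (s * (2 * k + 1)) ≤
      2 * (2 + 1 / η) ^ 2 * (5 + 1 / η) * (C₁ * 2 ^ (1 + ε)) * d ^ (1 / 2 + ε) := by
  have hd0 : 0 < d := by linarith
  have hη0 : 0 < η := by rw [hη]; positivity
  have h1 : (1 : ℝ) ≤ d ^ η := Real.one_le_rpow (by linarith) hη0.le
  have h2 : Real.log d ≤ d ^ η / η := log_le hd0 hη0
  have h3 : 2 + w ≤ (2 + 1 / η) * d ^ η := by
    have : (2 + 1 / η) * d ^ η = 2 * d ^ η + d ^ η / η := by ring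
    linarith
  have h4 : Real.log (2 * Real.sqrt d) = Real.log 2 + Real.log d / 2 := by
    rw [Real.log_mul (by norm_num) (Real.sqrt_ne_zero'.mpr hd0), Real.log_sqrt hd0.le]
  have h5 : Real.log 2 ≤ 1 := by
    have := Real.log_two_lt_d9
    linarith
  have h6 : 2 * k + 1 ≤ (5 + 1 / η) * d ^ η := by
    have : (5 + 1 / η) * d ^ η = 5 * d ^ η + d ^ η / η := by ring
    rw [h4] at hk
    linarith
  have h7 : (2 * Real.sqrt d) ^ (1 + ε) = 2 ^ (1 + ε) * d ^ ((1 + ε) / 2) := by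
    rw [Real.mul_rpow (by norm_num) (Real.sqrt_nonneg d), Real.sqrt_eq_rpow, ← Real.rpow_mul hd0.le]
    congr 2
    ring
  have h8 : (2 + w) ^ 2 ≤ ((2 + 1 / η) * d ^ η) ^ 2 := by
    apply pow_le_pow_left₀ (by linarith) h3
  have h9 : d ^ η * d ^ η * d ^ η * d ^ ((1 + ε) / 2) = d ^ (1 / 2 + ε) := by
    rw [← Real.rpow_add hd0, ← Real.rpow_add hd0, ← Real.rpow_add hd0]
    congr 1
    rw [hη]
    ring
  have h10 : s * (2 * k + 1) ≤ (C₁ * (2 ^ (1 + ε) * d ^ ((1 + ε) / 2))) * ((5 + 1 / η) * d ^ η) := by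
    rw [h7] at hs
    exact mul_le_mul hs h6 (by linarith) (by positivity)
  have h11 : 0 ≤ s * (2 * k + 1) := mul_nonneg hs0 (by linarith)
  calc 2 * (2 + w) ^ 2 * (s * (2 * k + 1))
      ≤ 2 * ((2 + 1 / η) * d ^ η) ^ 2 *
        ((C₁ * (2 ^ (1 + ε) * d ^ ((1 + ε) / 2))) * ((5 + 1 / η) * d ^ η)) :=
        mul_le_mul (by linarith) h10 h11 (by positivity)
    _ = 2 * (2 + 1 / η) ^ 2 * (5 + 1 / η) * (C₁ * 2 ^ (1 + ε)) *
        (d ^ η * d ^ η * d ^ η * d ^ ((1 + ε) / 2)) := by ring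
    _ = _ := by rw [h9]

/-- `log₂ M ≤ log d` for `M < √d` -/
theorem wlog {d M : ℝ} (hM1 : 1 ≤ M) (hMd : M < Real.sqrt d) (hd : 2 ≤ d) :
    ((Nat.log 2 ⌊M⌋₊ : ℕ) : ℝ) ≤ Real.log d := by
  have hd0 : 0 < d := by linarith
  have h1 : (2 : ℝ) ^ (Nat.log 2 ⌊M⌋₊) ≤ M := by
    have h2 : 2 ^ (Nat.log 2 ⌊M⌋₊) ≤ ⌊M⌋₊ :=
      Nat.pow_log_le_self 2 (Nat.pos_iff_ne_zero.mp (Nat.floor_pos.mpr hM1))
    have h3 : ((2 ^ (Nat.log 2 ⌊M⌋₊) : ℕ) : ℝ) ≤ (⌊M⌋₊ : ℝ) := by exact_mod_cast h2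
    have h4 : (⌊M⌋₊ : ℝ) ≤ M := Nat.floor_le (by linarith)
    push_cast at h3
    linarith
  have h5 : (Nat.log 2 ⌊M⌋₊ : ℝ) * Real.log 2 ≤ Real.log M := by
    rw [← Real.log_pow]
    exact Real.log_le_log (by positivity) h1
  have h6 : Real.log M ≤ Real.log d / 2 := by
    rw [← Real.log_sqrt hd0.le]
    exact Real.log_le_log (by linarith) hMd.le
  have h7 : (1 : ℝ) / 2 ≤ Real.log 2 := by
    have := Real.log_two_gt_d9
    linarith
  have h8 : (Nat.log 2 ⌊M⌋₊ : ℝ) * (1 / 2) ≤ (Nat.log 2 ⌊M⌋₊ : ℝ) * Real.log 2 :=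
    mul_le_mul_of_nonneg_left h7 (Nat.cast_nonneg _)
  linarith

end Pool.Agent.MP211W.Ampl

namespace Pool.Agent.MP211W

open Polynomial NumberField

theorem wAmpl (_h1 : S_QFb) (_h2 : S_NmI) (h3 : S_SplitP) (h4 : S_IdCnt) (h5 : S_DatR)
    (h6 : S_Coll) : S_Ampl := by
  classical
  intro m hm ε hε
  obtain ⟨C₁, hC₁, hId⟩ := h4 ε hε
  refine ⟨2 * (2 + 1 / (ε / 6)) ^ 2 * (5 + 1 / (ε / 6)) * (C₁ * 2 ^ (1 + ε)), by positivity, ?_⟩
  intro d K _ _ Q hsq hd M P A B hP hMP hA hB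
  have hdR : (2 : ℝ) ≤ (d : ℝ) := by exact_mod_cast hd
  rcases B.eq_empty_or_nonempty with hBe | ⟨x₀, hx₀⟩
  · rw [hBe]
    simp only [Finset.card_empty, Nat.cast_zero, zero_mul]
    positivity
  have hN1 : ∀ x ∈ B, 1 ≤ Ideal.absNorm x.1 := fun x hx =>
    Nat.one_le_iff_ne_zero.mpr (fun h => (hB x hx).1 (Ideal.absNorm_eq_zero_iff.mp h))
  have hM1 : 1 ≤ M := by
    have h7 : (1 : ℝ) ≤ ((Ideal.absNorm x₀.1 : ℕ) : ℝ) := by exact_mod_cast hN1 x₀ hx₀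
    exact h7.trans (hB x₀ hx₀).2.2.1
  have hMd : M < Real.sqrt d := by
    refine lt_of_le_of_lt ?_ hMP
    have h7 : (1 : ℝ) ≤ P ^ m := one_le_pow₀ hP
    have h8 : (1 : ℝ) ≤ 2 ^ (m + 1) := one_le_pow₀ (by norm_num)
    have h9 : M ≤ M * P ^ m := le_mul_of_one_le_right (by linarith) h7
    have h10 : M * P ^ m ≤ 2 ^ (m + 1) * (M * P ^ m) :=
      le_mul_of_one_le_left (by positivity) h8
    linarith
  have hm0 : (0 : ℝ) < m := by
    have : 0 < m := hm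
    exact_mod_cast this
  -- the ideals of the classes
  choose Ic hIc0 hIc using fun c : ClassGroup (𝓞 K) => clI_surj c
  have hxy : ∀ x : Ideal (𝓞 K) × ClassGroup (𝓞 K), x ∈ B → ∃ u w : 𝓞 K, u ≠ 0 ∧ w ≠ 0 ∧
      Ideal.span {u} * (Ic x.2) ^ m = Ideal.span {w} * x.1 := by
    intro x hx
    obtain ⟨hb0, _, _, hcl⟩ := hB x hx
    have h7 : clI ((Ic x.2) ^ m) = clI x.1 := by
      rw [clI_pow _ (hIc0 x.2), hIc, hcl]
    exact (clI_eq_iff _ _ (pow_ne_zero m (hIc0 x.2)) hb0).mp h7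
  choose! fu fw hu hw huw using hxy
  -- the prime ideals
  have hsp : ∀ p : ℕ, ∃ I : Ideal (𝓞 K), (p ∈ A → I.IsPrime ∧ Ideal.absNorm I = p ∧
      ∀ (b : Ideal (𝓞 K)), b ≠ ⊥ → PrimI b → ¬ p ∣ Ideal.absNorm b → PrimI (b * I ^ m)) ∧
      (p ∉ A → I = 1) := by
    intro p
    by_cases hp : p ∈ A
    · obtain ⟨hp1, hp2, hp3, hp4, hp5⟩ := hA p hp
      obtain ⟨I, hI1, hI2, _, hI4⟩ := h3 d K Q hsq hd p hp1 hp2 hp4 hp5
      exact ⟨I, fun _ => ⟨hI1, hI2, fun b hb hb' hb'' => hI4 b m hb hb' hb''⟩,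
        fun h => absurd hp h⟩
    · exact ⟨1, fun h => absurd h hp, fun _ => rfl⟩
  choose pp hpp1 hpp2 using hsp
  have h1A : (1 : ℕ) ∉ A := fun h => Nat.not_prime_one (hA 1 h).1
  set A' : Finset ℕ := insert 1 A with hA'
  have hcA' : A'.card = A.card + 1 := Finset.card_insert_of_notMem h1A
  have hAor : ∀ p ∈ A', p = 1 ∨ p ∈ A := fun p hp => Finset.mem_insert.mp hp
  have hNp : ∀ p ∈ A', Ideal.absNorm (pp p) = p := by
    intro p hp
    rcases hAor p hp with rfl | h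
    · rw [hpp2 1 h1A]
      exact map_one _
    · exact (hpp1 p h).2.1
  have hp0 : ∀ p ∈ A', pp p ≠ ⊥ := by
    intro p hp h
    have h7 := hNp p hp
    rw [h, Ideal.absNorm_bot] at h7
    rcases hAor p hp with rfl | h'
    · exact absurd h7 (by norm_num)
    · exact (hA p h').1.ne_zero h7.symm
  have hpP : ∀ p ∈ A', ((Ideal.absNorm (pp p) : ℕ) : ℝ) ≤ P := by
    intro p hp
    rw [hNp p hp]
    rcases hAor p hp with rfl | h'
    · exact_mod_cast hP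
    · exact (hA p h').2.2.1
  have hprim : ∀ p ∈ A', ∀ b : Ideal (𝓞 K), b ≠ ⊥ → PrimI b → (p = 1 ∨ ¬ p ∣ Ideal.absNorm b) →
      PrimI (b * pp p ^ m) := by
    intro p hp b hb hb' hpb
    rcases hAor p hp with rfl | h'
    · rw [hpp2 1 h1A, one_pow, mul_one]
      exact hb'
    · rcases hpb with rfl | hpb
      · exact absurd h' h1A
      · exact (hpp1 p h').2.2 b hb hb' hpb
  -- the twists and the short elements
  set t : Ideal (𝓞 K) × ClassGroup (𝓞 K) → ℝ := fun x => (Q.h (fw x) - Q.h (fu x)) / m with ht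
  have hdat : ∀ z : (Ideal (𝓞 K) × ClassGroup (𝓞 K)) × ℕ, z.2 ∈ A' →
      ∃ (α : 𝓞 K) (r : Ideal (𝓞 K)), α ≠ 0 ∧ r ≠ ⊥ ∧ Ideal.span {α} = Ic z.1.2 * pp z.2 * r ∧
        ((Ideal.absNorm r : ℕ) : ℝ) ≤ 2 * Real.sqrt d ∧
        |Q.h α - t z.1| ≤ Real.log (2 * Real.sqrt d) := fun z hz =>
    h5 d K Q hsq hd (Ic z.1.2 * pp z.2) (t z.1) (mul_ne_zero (hIc0 _) (hp0 _ hz))
  choose! fα fr hα0 hr0 hαr hrN hαt using hdat
  set Z : Finset ((Ideal (𝓞 K) × ClassGroup (𝓞 K)) × ℕ) :=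
    (B ×ˢ A').filter (fun z => z.2 = 1 ∨ ¬ z.2 ∣ Ideal.absNorm z.1.1) with hZ
  have hZmem : ∀ z ∈ Z, z.1 ∈ B ∧ z.2 ∈ A' ∧ (z.2 = 1 ∨ ¬ z.2 ∣ Ideal.absNorm z.1.1) := by
    intro z hz
    rw [hZ, Finset.mem_filter, Finset.mem_product] at hz
    exact ⟨hz.1.1, hz.1.2, hz.2⟩
  set Φ : (Ideal (𝓞 K) × ClassGroup (𝓞 K)) × ℕ → Ideal (𝓞 K) × ℤ :=
    fun z => (fr z, ⌊Q.h (fα z) - t z.1⌋) with hΦ
  -- collisions
  have key1 : ∀ z ∈ Z, ∀ z' ∈ Z, Φ z = Φ z' →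
      z.1.1 * pp z.2 ^ m = z'.1.1 * pp z'.2 ^ m := by
    intro z hz z' hz' he
    obtain ⟨hz1, hz2, hz3⟩ := hZmem z hz
    obtain ⟨hz1', hz2', hz3'⟩ := hZmem z' hz'
    have he1 : fr z = fr z' := congrArg Prod.fst he
    have he2 : ⌊Q.h (fα z) - t z.1⌋ = ⌊Q.h (fα z') - t z'.1⌋ := congrArg Prod.snd he
    have h7 : |(Q.h (fα z) - t z.1) - (Q.h (fα z') - t z'.1)| < 1 := Int.abs_sub_lt_one_of_floor_eq_floor he2
    have h8 : ∀ z : (Ideal (𝓞 K) × ClassGroup (𝓞 K)) × ℕ,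
        m * Q.h (fα z) - (Q.h (fw z.1) - Q.h (fu z.1)) = m * (Q.h (fα z) - t z.1) := by
      intro z
      rw [ht]
      field_simp
    have h9 : |(m * Q.h (fα z) - (Q.h (fw z.1) - Q.h (fu z.1))) -
        (m * Q.h (fα z') - (Q.h (fw z'.1) - Q.h (fu z'.1)))| < m := by
      rw [h8, h8, ← mul_sub, abs_mul, abs_of_pos hm0]
      calc (m : ℝ) * |(Q.h (fα z) - t z.1) - (Q.h (fα z') - t z'.1)| < m * 1 :=
            mul_lt_mul_of_pos_left h7 hm0
        _ = m := mul_one _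
    have h10 : Ideal.span {fα z'} = Ic z'.1.2 * pp z'.2 * fr z := by
      rw [he1]
      exact hαr z' hz2'
    exact h6 d K Q hsq hd m M P z.1.1 z'.1.1 (pp z.2) (pp z'.2) (Ic z.1.2) (Ic z'.1.2) (fr z)
      (fu z.1) (fw z.1) (fu z'.1) (fw z'.1) (fα z) (fα z') hm (hB _ hz1).1 (hB _ hz1').1
      (hp0 _ hz2) (hp0 _ hz2') (hIc0 _) (hIc0 _) (hr0 z hz2) (hu _ hz1) (hw _ hz1) (hu _ hz1')
      (hw _ hz1') (hα0 z hz2) (hα0 z' hz2') (hprim _ hz2 _ (hB _ hz1).1 (hB _ hz1).2.1 hz3)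
      (hprim _ hz2' _ (hB _ hz1').1 (hB _ hz1').2.1 hz3') (hB _ hz1).2.2.1 (hB _ hz1').2.2.1
      (hpP _ hz2) (hpP _ hz2') hMP (huw _ hz1) (huw _ hz1') (hαr z hz2) h10 h9
  have key2 : ∀ z ∈ Z, z.1.2 * clI (pp z.2) * clI (fr z) = 1 := by
    intro z hz
    obtain ⟨hz1, hz2, hz3⟩ := hZmem z hz
    have h7 : clI (Ideal.span {fα z}) = 1 := by
      have h8 : clI (1 : Ideal (𝓞 K)) = 1 := by
        have := clI_pow (1 : Ideal (𝓞 K)) one_ne_zero 0
        rwa [pow_zero, pow_zero] at this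
      rw [← h8, clI_eq_iff _ _ (fun h => hα0 z hz2 (Ideal.span_singleton_eq_bot.mp h)) one_ne_zero]
      refine ⟨1, fα z, one_ne_zero, hα0 z hz2, ?_⟩
      rw [Ideal.span_singleton_one, mul_one]
      exact Ideal.top_mul _
    rw [hαr z hz2, clI_mul _ _ (mul_ne_zero (hIc0 _) (hp0 _ hz2)) (hr0 z hz2),
      clI_mul _ _ (hIc0 _) (hp0 _ hz2), hIc] at h7
    exact h7
  -- the fibres
  set W : ℕ := Nat.log 2 ⌊M⌋₊ with hW
  have hfib : ∀ a ∈ Z.image Φ, (Z.filter (fun z => Φ z = a)).card ≤ 2 + W := by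
    intro a ha
    obtain ⟨z₁, hz₁, rfl⟩ := Finset.mem_image.mp ha
    obtain ⟨hz1, hz2, hz3⟩ := hZmem z₁ hz₁
    have hinj : Set.InjOn (fun z : (Ideal (𝓞 K) × ClassGroup (𝓞 K)) × ℕ => z.2)
        (Z.filter (fun z => Φ z = Φ z₁) : Finset _) := by
      intro z hz z' hz' he
      rw [Finset.mem_coe, Finset.mem_filter] at hz hz'
      have he' : z.2 = z'.2 := he
      have h7 := key1 z hz.1 z' hz'.1 (hz.2.trans hz'.2.symm)
      have hpz : pp z'.2 ≠ ⊥ := hp0 _ (hZmem z' hz'.1).2.1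
      rw [he'] at h7
      have h8 : z.1.1 = z'.1.1 := mul_right_cancel₀ (pow_ne_zero m hpz) h7
      have h9 := key2 z hz.1
      have h10 := key2 z' hz'.1
      have h11 : fr z = fr z' := congrArg Prod.fst (hz.2.trans hz'.2.symm)
      rw [he', h11, ← h10] at h9
      have h12 : z.1.2 = z'.1.2 := mul_right_cancel (mul_right_cancel h9)
      exact Prod.ext (Prod.ext h8 h12) he'
    rw [← Finset.card_image_of_injOn hinj]
    have hsub : (Z.filter (fun z => Φ z = Φ z₁)).image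
        (fun z : (Ideal (𝓞 K) × ClassGroup (𝓞 K)) × ℕ => z.2) ⊆
        insert 1 (insert z₁.2 (Ideal.absNorm z₁.1.1).primeFactors) := by
      intro p hp
      obtain ⟨z, hz, rfl⟩ := Finset.mem_image.mp hp
      rw [Finset.mem_filter] at hz
      rw [Finset.mem_insert, Finset.mem_insert]
      by_cases hp1 : z.2 = 1
      · exact Or.inl hp1
      by_cases hp2 : z.2 = z₁.2
      · exact Or.inr (Or.inl hp2)
      refine Or.inr (Or.inr ?_)
      have hzA : z.2 ∈ A := (hAor _ (hZmem z hz.1).2.1).resolve_left hp1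
      have hpr : Prime (pp z.2) :=
        Ideal.prime_of_isPrime (hp0 _ (hZmem z hz.1).2.1) (hpp1 _ hzA).1
      have h7 : pp z.2 ∣ z₁.1.1 * pp z₁.2 ^ m := by
        rw [← key1 z hz.1 z₁ hz₁ hz.2]
        exact Dvd.dvd.mul_left (dvd_pow_self _ (by omega)) _
      have hNz : Ideal.absNorm (pp z.2) = z.2 := hNp _ (hZmem z hz.1).2.1
      rcases hpr.dvd_or_dvd h7 with h8 | h8
      · rw [Nat.mem_primeFactors]
        refine ⟨(hA _ hzA).1, ?_, ?_⟩
        · have h9 := map_dvd (Ideal.absNorm (S := 𝓞 K)) h8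
          rwa [hNz] at h9
        · have := hN1 _ hz1
          omega
      · exfalso
        have h9 := map_dvd (Ideal.absNorm (S := 𝓞 K)) (hpr.dvd_of_dvd_pow h8)
        rw [hNz, hNp _ hz2] at h9
        rcases hAor _ hz2 with h10 | h10
        · rw [h10] at h9
          exact hp1 (Nat.dvd_one.mp h9)
        · exact hp2 ((Nat.prime_dvd_prime_iff_eq (hA _ hzA).1 (hA _ h10).1).mp h9)
    refine (Finset.card_le_card hsub).trans ?_
    refine (Finset.card_insert_le _ _).trans ?_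
    have h7 := Finset.card_insert_le z₁.2 (Ideal.absNorm z₁.1.1).primeFactors
    have h8 := Ampl.omega_le (n := Ideal.absNorm z₁.1.1) (M := M)
      (by have := hN1 _ hz1; omega) (hB _ hz1).2.2.1
    omega
  -- the data
  set k : ℕ := ⌈Real.log (2 * Real.sqrt d)⌉₊ with hk
  have hlog0 : 0 ≤ Real.log (2 * Real.sqrt d) := by
    apply Real.log_nonneg
    have h7 : 1 ≤ Real.sqrt d := by
      rw [Real.one_le_sqrt]
      linarith
    linarith
  set S : Finset (Ideal (𝓞 K)) := Z.image fr with hS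
  have himg : Z.image Φ ⊆ S ×ˢ Finset.Icc (-(k : ℤ)) k := by
    intro a ha
    obtain ⟨z, hz, rfl⟩ := Finset.mem_image.mp ha
    rw [Finset.mem_product]
    refine ⟨Finset.mem_image_of_mem _ hz, ?_⟩
    have h7 := abs_le.mp ((hαt z (hZmem z hz).2.1).trans (Nat.le_ceil _))
    rw [Finset.mem_Icc]
    constructor
    · rw [Int.le_floor]
      push_cast
      exact h7.1
    · have h8 : (⌊Q.h (fα z) - t z.1⌋ : ℝ) ≤ (k : ℝ) := (Int.floor_le _).trans h7.2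
      exact_mod_cast h8
  have hS2 : (S.card : ℝ) ≤ C₁ * (2 * Real.sqrt d) ^ (1 + ε) := by
    refine hId K Q.rank (2 * Real.sqrt d) S ?_ ?_
    · have h7 : 1 ≤ Real.sqrt d := by
        rw [Real.one_le_sqrt]
        linarith
      linarith
    · intro b hb
      obtain ⟨z, hz, rfl⟩ := Finset.mem_image.mp hb
      exact ⟨hr0 z (hZmem z hz).2.1, hrN z (hZmem z hz).2.1⟩
  have hZle : Z.card ≤ (2 + W) * (S.card * (2 * k + 1)) := by
    refine (Finset.card_le_mul_card_image Z (2 + W) hfib).trans ?_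
    refine Nat.mul_le_mul_left _ ?_
    refine (Finset.card_le_card himg).trans ?_
    rw [Finset.card_product, Int.card_Icc]
    refine Nat.mul_le_mul_left _ ?_
    omega
  -- lower bounds for the number of triples
  have hZ1 : B.card ≤ Z.card := by
    rw [← Finset.card_image_of_injective B
      (fun x y h => (Prod.mk.inj h).1 : Function.Injective
        (fun x : Ideal (𝓞 K) × ClassGroup (𝓞 K) => (x, 1)))]
    refine Finset.card_le_card ?_
    intro z hz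
    obtain ⟨x, hx, rfl⟩ := Finset.mem_image.mp hz
    rw [hZ, Finset.mem_filter, Finset.mem_product]
    exact ⟨⟨hx, Finset.mem_insert_self _ _⟩, Or.inl rfl⟩
  have hZ2 : B.card * (A.card + 1) ≤ Z.card + B.card * W := by
    have h7 : (B ×ˢ A').card = Z.card +
        ((B ×ˢ A').filter (fun z => ¬ (z.2 = 1 ∨ ¬ z.2 ∣ Ideal.absNorm z.1.1))).card := by
      rw [hZ]
      exact (Finset.card_filter_add_card_filter_not _).symm
    rw [Finset.card_product, hcA'] at h7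
    rw [h7]
    refine Nat.add_le_add_left ?_ _
    have h8 : (B ×ˢ A').filter (fun z => ¬ (z.2 = 1 ∨ ¬ z.2 ∣ Ideal.absNorm z.1.1)) ⊆
        B.biUnion (fun x => (Ideal.absNorm x.1).primeFactors.image (fun p => (x, p))) := by
      rintro ⟨x, p⟩ hz
      rw [Finset.mem_filter, Finset.mem_product] at hz
      obtain ⟨⟨hx, hp⟩, hn⟩ := hz
      push Not at hn
      rw [Finset.mem_biUnion]
      refine ⟨x, hx, Finset.mem_image.mpr ⟨p, ?_, rfl⟩⟩
      have hpA : p ∈ A := (hAor _ hp).resolve_left hn.1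
      rw [Nat.mem_primeFactors]
      refine ⟨(hA _ hpA).1, hn.2, ?_⟩
      have := hN1 x hx
      omega
    refine (Finset.card_le_card h8).trans (Finset.card_biUnion_le_card_mul _ _ _ ?_)
    intro x hx
    refine Finset.card_image_le.trans (Ampl.omega_le ?_ (hB x hx).2.2.1)
    have := hN1 x hx
    omega
  -- the end
  have e1 : ((B.card : ℕ) : ℝ) ≤ (Z.card : ℝ) := by exact_mod_cast hZ1
  have e2 : (B.card : ℝ) * ((1 + (A.card : ℝ)) - W) ≤ Z.card := by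
    have h7 : (B.card : ℝ) * ((A.card : ℝ) + 1) ≤ Z.card + B.card * W := by exact_mod_cast hZ2
    nlinarith [h7]
  have e3 : (Z.card : ℝ) ≤ (2 + (W : ℝ)) * ((S.card : ℝ) * (2 * k + 1)) := by exact_mod_cast hZle
  have e4 := Ampl.fin_ineq (Nat.cast_nonneg _) (Nat.cast_nonneg _) (Nat.cast_nonneg W) rfl e1 e2 e3
  refine e4.trans ?_
  refine Ampl.num hdR hε rfl hC₁ (Ampl.wlog hM1 hMd hdR) (Nat.cast_nonneg _)
    (Nat.ceil_lt_add_one hlog0).le (Nat.cast_nonneg _) (Nat.cast_nonneg _) hS2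

end Pool.Agent.MP211W
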