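import Pool.Agent.Lib.MP_211f72_nt.W.ThreshL

/-!
# MP_211f72_nt, third theorem: assembly of the extension (statements E as hypotheses)
-/

namespace Pool.Agent.MP211W

open MeasureTheory

/-- from the number of polynomials to the covers of the exceptional sets -/
theorem excL_of_clsB (h : S_QCovP) (n : ℕ) (κ lam : ℝ) (hn : 4 ≤ n) (hκ0 : 0 ≤ κ)
    (hκ : κ ≤ 3 / ((n : ℝ) - 1)) (hC : ClsB n κ) (hlam : 0 < lam)
    (h3 : (3 - κ) * (1 - lam) / ((n : ℝ) - 2) ≤ max (2 / (n : ℝ)) (3 * (1 - lam) / ((n : ℝ) - 1))) :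
    ExcL n lam := by
  intro s C₀ hs hs1 hC₀ hsW
  refine h n κ lam s C₀ hn hκ0 hκ hC hlam hs hs1 hC₀ (lt_of_le_of_lt h3 ?_)
  unfold sW at hsW
  rwa [div_lt_iff₀ (by linarith)] at hsW

/-- the number of polynomials for `4 ∣ n` or `6 ∣ n` -/
theorem clsB_mult (hQ : S_ClassQ) (hQ1 : S_ClassQ1) (h4 : TorsB 4) (h6 : TorsB 6) (n : ℕ)
    (hn : 4 ≤ n) (hd : 4 ∣ n ∨ 6 ∣ n) : ClsB n (3 / ((n : ℝ) - 1)) := by
  have hn' : (4 : ℝ) ≤ n := by exact_mod_cast hn
  have hκ0 : 0 ≤ 3 / ((n : ℝ) - 1) := div_nonneg (by norm_num) (by linarith)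
  have hκ1 : 3 / ((n : ℝ) - 1) ≤ 1 := by
    rw [div_le_one (by linarith)]
    linarith
  rcases hd with ⟨m, rfl⟩ | ⟨m, rfl⟩
  · rcases Nat.lt_or_ge m 2 with hm | hm
    · have hm1 : m = 1 := by omega
      subst hm1
      exact hQ1 _ _ hn hκ0 hκ1 h4
    · have hm' : (2 : ℝ) ≤ m := by exact_mod_cast hm
      refine hQ (4 * m) 4 m _ hn rfl hm hκ0 ?_ h4
      push_cast
      rw [div_le_div_iff₀ (by linarith) (by linarith)]
      linarith
  · rcases Nat.lt_or_ge m 2 with hm | hm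
    · have hm1 : m = 1 := by omega
      subst hm1
      exact hQ1 _ _ hn hκ0 hκ1 h6
    · have hm' : (2 : ℝ) ≤ m := by exact_mod_cast hm
      refine hQ (6 * m) 6 m _ hn rfl hm hκ0 ?_ h6
      push_cast
      rw [div_le_div_iff₀ (by linarith) (by linarith)]
      linarith

/-- `(3 - κ)/(n-2) = 3/(n-1)` for `κ = 3/(n-1)` -/
theorem kap_eq (n : ℕ) (hn : 4 ≤ n) (lam : ℝ) :
    (3 - 3 / ((n : ℝ) - 1)) * (1 - lam) / ((n : ℝ) - 2) = 3 * (1 - lam) / ((n : ℝ) - 1) := by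
  have hn' : (4 : ℝ) ≤ n := by exact_mod_cast hn
  have h1 : (n : ℝ) - 1 ≠ 0 := by linarith
  have h2 : (n : ℝ) - 2 ≠ 0 := by linarith
  field_simp
  ring

/-- the level sets for `4 ∣ n` or `6 ∣ n`, all `lam > (n+8)/(5n+4)` -/
theorem level_mult (hR : S_RedW) (hE : Pool.Agent.MP211V.S_ExpoN) (hY : Pool.Agent.MP211V.S_Yc)
    (hK : S_KidsW) (hP : S_ParEx) (hC : S_QCovP) (hQ : S_ClassQ) (hQ1 : S_ClassQ1)
    (h4 : TorsB 4) (h6 : TorsB 6) (n : ℕ) (hn : 4 ≤ n) (hd : 4 ∣ n ∨ 6 ∣ n) (lam : ℝ)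
    (hlam : ((n : ℝ) + 8) / (5 * n + 4) < lam) :
    dimH {ξ : ℝ | MP_211f72_nt.lambdaExp n ξ = (lam : EReal)} = ENNReal.ofReal (sW n lam) := by
  have hn' : (4 : ℝ) ≤ n := by exact_mod_cast hn
  have h5 : n ≠ 5 := by
    rcases hd with ⟨m, rfl⟩ | ⟨m, rfl⟩ <;> omega
  refine levelL hR hE hY hK n hn _ le_rfl (fun mu hmu => hP n mu hn h5 hmu) ?_ lam hlam
  intro mu hmu
  have hmu0 : 0 < mu := lt_trans (by positivity) hmu
  refine excL_of_clsB hC n (3 / ((n : ℝ) - 1)) mu hn (div_nonneg (by norm_num) (by linarith)) le_rfl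
    (clsB_mult hQ hQ1 h4 h6 n hn hd) hmu0 ?_
  rw [kap_eq n hn mu]
  exact le_max_right _ _

/-- the level sets for `l ∣ n`, `l ≤ 3`, and `lam > (n+4-l)/(3n-l)` -/
theorem level_large (hR : S_RedW) (hE : Pool.Agent.MP211V.S_ExpoN) (hY : Pool.Agent.MP211V.S_Yc)
    (hK : S_KidsW) (hP : S_ParEx) (hC : S_QCovP) (hQ : S_ClassQ) (n l : ℕ) (hn : 5 ≤ n)
    (hl1 : 1 ≤ l) (hl3 : l ≤ 3) (hd : l ∣ n) (hT : TorsB l) (lam : ℝ)
    (hlam : ((n : ℝ) + 4 - l) / (3 * n - l) < lam) :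
    dimH {ξ : ℝ | MP_211f72_nt.lambdaExp n ξ = (lam : EReal)} =
      ENNReal.ofReal (2 / ((n : ℝ) * (1 + lam))) := by
  have hn' : (5 : ℝ) ≤ n := by exact_mod_cast hn
  have hl1' : (1 : ℝ) ≤ l := by exact_mod_cast hl1
  have hl3' : (l : ℝ) ≤ 3 := by exact_mod_cast hl3
  have hden : (0 : ℝ) < 3 * n - l := by linarith
  have hL8 : ((n : ℝ) + 8) / (5 * n + 4) ≤ ((n : ℝ) + 4 - l) / (3 * n - l) := by
    rw [div_le_div_iff₀ (by linarith) hden]
    nlinarith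
  -- for exponents beyond the threshold
  have key : ∀ mu : ℝ, ((n : ℝ) + 4 - l) / (3 * n - l) < mu → (3 * (n : ℝ) - l) * (1 - mu) ≤
      2 * ((n : ℝ) - 2) := by
    intro mu hmu
    rw [div_lt_iff₀ hden] at hmu
    linarith
  have hκ0 : 0 ≤ (l : ℝ) / n := by positivity
  have hκ : (l : ℝ) / n ≤ 3 / ((n : ℝ) - 1) := by
    rw [div_le_div_iff₀ (by linarith) (by linarith)]
    nlinarith
  have hcls : ClsB n ((l : ℝ) / n) := by
    obtain ⟨m, hm⟩ := hd
    have hm2 : 2 ≤ m := by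
      by_contra hcon
      have hm1 : m ≤ 1 := by omega
      have : l * m ≤ 3 * 1 := Nat.mul_le_mul hl3 hm1
      omega
    refine hQ n l m _ (by omega) hm hm2 hκ0 (le_of_eq ?_) hT
    have hm' : (2 : ℝ) ≤ m := by exact_mod_cast hm2
    have e : (n : ℝ) = l * m := by rw [hm]; push_cast; ring
    rw [e]
    field_simp
  have h := levelL hR hE hY hK n (by omega) _ hL8 ?_ ?_ lam hlam
  · rw [h]
    congr 1
    have h3 : 3 * (1 - lam) / ((n : ℝ) - 1) ≤ 2 / (n : ℝ) := by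
      rw [div_le_div_iff₀ (by linarith) (by linarith)]
      have h4 := key lam hlam
      by_cases h1 : lam ≤ 1
      · nlinarith
      · push Not at h1
        nlinarith
    unfold sW
    rw [max_eq_left h3, div_div]
  · intro mu hmu
    by_cases h5 : n = 5
    · subst h5
      have hl : l = 1 := by
        have := (Nat.dvd_prime (by norm_num : Nat.Prime 5)).mp hd
        omega
      subst hl
      refine ThreshL.par5 mu ?_
      norm_num at hmu
      linarith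
    · exact hP n mu (by omega) h5 (lt_of_le_of_lt hL8 hmu)
  · intro mu hmu
    have hmu0 : 0 < mu := lt_trans (by apply div_pos <;> linarith) hmu
    refine excL_of_clsB hC n ((l : ℝ) / n) mu (by omega) hκ0 hκ hcls hmu0 ?_
    refine le_trans ?_ (le_max_left _ _)
    have h4 := key mu hmu
    rw [div_le_div_iff₀ (by linarith) (by linarith)]
    have e : (3 - (l : ℝ) / n) * (1 - mu) * n = (3 * (n : ℝ) - l) * (1 - mu) := by
      field_simp
    rw [e]
    exact h4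

end Pool.Agent.MP211W
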