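import Pool.Agent.Lib.MP_211f72_nt.W.SpecA

/-!
# MP_211f72_nt, third theorem: the integral ideal attached to a point of the lattice
-/

set_option autoImplicit false

namespace Pool.Agent.MP211W

open NumberField

namespace BI

/-- A bound for the powers of a sum of two ideals. -/
theorem mul_add_pow_le {R : Type} [CommRing R] (A B C D : Ideal R) (n : ℕ)
    (h : ∀ m, m ≤ n → C * (A ^ m * B ^ (n - m)) ≤ D) : C * (A + B) ^ n ≤ D := by
  rw [add_pow, Finset.mul_sum]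
  refine Finset.sum_induction _ (fun J : Ideal R => J ≤ D) (fun I J hI hJ => ?_) bot_le ?_
  · rw [Ideal.add_eq_sup]
    exact sup_le hI hJ
  · intro m hm
    rw [Finset.mem_range] at hm
    rw [← mul_assoc]
    exact Ideal.mul_le_left.trans (h m (by omega))

section

variable {K : Type} [Field K]

theorem v_int (k : ℤ) : (((k : ℤ) : 𝓞 K) : K) = (k : K) := by
  simp

theorem v_zero : ((0 : 𝓞 K) : K) = 0 := rfl

theorem v_sub (a b : 𝓞 K) : ((a - b : 𝓞 K) : K) = (a : K) - (b : K) := rfl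

theorem v_mul (a b : 𝓞 K) : ((a * b : 𝓞 K) : K) = (a : K) * (b : K) := rfl

theorem v_pow (a : 𝓞 K) (n : ℕ) : ((a ^ n : 𝓞 K) : K) = (a : K) ^ n :=
  map_pow (algebraMap (𝓞 K) K) a n

end

end BI

open BI

theorem wBI (h1 : S_QFb) (h2 : S_QI) : S_BI := by
  intro d K _ _ Q hd hd2 n q θ x hn hgood hθ hLam hx0
  obtain ⟨-, hq2, -, hq4, -⟩ := h1 d K Q hd hd2
  obtain ⟨hne, hsum, hmul, ⟨I, hI⟩, hall⟩ := h2 d K Q hd hd2 q θ hgood hθ
  obtain ⟨hI0, -, hIN⟩ := hall I hI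
  obtain ⟨w, hw, hIw⟩ := hI
  have ha0 : q.a ≠ 0 := hgood.1
  have haK : (q.a : K) ≠ 0 := by exact_mod_cast ha0
  have haO : ((q.a : ℤ) : 𝓞 K) ≠ 0 := by exact_mod_cast ha0
  -- the conjugate of `w`
  obtain ⟨t, ht⟩ := hq2 w
  have hτw : Q.τ (w : K) = (q.a : K) * Q.τ θ := by
    rw [hw, map_mul, map_intCast]
  have hw' : ((((t : ℤ) : 𝓞 K) - w : 𝓞 K) : K) = (q.a : K) * Q.τ θ := by
    rw [← hτw, v_sub, v_int, ← ht]
    ring
  generalize ((t : ℤ) : 𝓞 K) - w = w' at hw'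
  have hψK : (((((q.a : ℤ) : 𝓞 K) * ((x 1 : ℤ) : 𝓞 K) - w' * ((x 0 : ℤ) : 𝓞 K)) : 𝓞 K) : K) =
      (q.a : K) * ((x 1 : K) - Q.τ θ * (x 0 : K)) := by
    rw [v_sub, v_mul, v_mul, hw', v_int, v_int, v_int]
    ring
  generalize ((q.a : ℤ) : 𝓞 K) * ((x 1 : ℤ) : 𝓞 K) - w' * ((x 0 : ℤ) : 𝓞 K) = ψ at hψK
  have hψ0 : ψ ≠ 0 := by
    intro h0
    rw [h0, v_zero] at hψK
    have e1 : (x 1 : K) - Q.τ θ * (x 0 : K) = 0 := by
      rcases mul_eq_zero.mp hψK.symm with h | h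
      · exact absurd h haK
      · exact h
    have e2 : (x 1 : K) - θ * (x 0 : K) = 0 := by
      have e3 := congrArg Q.τ e1
      rw [map_sub, map_mul, Q.tt, map_zero, map_intCast, map_intCast] at e3
      exact e3
    have hx0K : (x 0 : K) ≠ 0 := by exact_mod_cast hx0
    apply hne
    have e4 : (θ - Q.τ θ) * (x 0 : K) = 0 := by linear_combination e1 - e2
    rcases mul_eq_zero.mp e4 with h | h
    · exact sub_eq_zero.mp h
    · exact absurd h hx0K
  -- the products with the powers of the root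
  have hpow : ∀ i, i + 1 ≤ n → (ψ : K) * θ ^ i =
      (q.a : K) * ((x (i + 1) : K) - Q.τ θ * (x i : K)) := by
    intro i
    induction i with
    | zero =>
      intro _
      rw [pow_zero, mul_one, hψK]
    | succ i ih =>
      intro hi
      have h3 := ih (by omega)
      have h4 : (q.c : K) * x i + q.b * x (i + 1) + q.a * x (i + 2) = 0 := by
        exact_mod_cast hLam i (by omega)
      rw [pow_succ, ← mul_assoc, h3]
      linear_combination -h4 - (x i : K) * hmul + (x (i + 1) : K) * hsum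
  have hint : ∀ i, i ≤ n → ∃ p : 𝓞 K, (p : K) = (ψ : K) * θ ^ i := by
    intro i hi
    rcases Nat.lt_or_ge i n with hlt | hge
    · refine ⟨((q.a : ℤ) : 𝓞 K) * ((x (i + 1) : ℤ) : 𝓞 K) - w' * ((x i : ℤ) : 𝓞 K), ?_⟩
      rw [hpow i hlt, v_sub, v_mul, v_mul, hw', v_int, v_int, v_int]
      ring
    · refine ⟨w * ((x n : ℤ) : 𝓞 K) - ((q.c : ℤ) : 𝓞 K) * ((x (n - 1) : ℤ) : 𝓞 K), ?_⟩
      have hin : i = (n - 1) + 1 := by omega
      have hn1 : n - 1 + 1 = n := by omega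
      rw [hin, pow_succ, ← mul_assoc, hpow (n - 1) (by omega), hn1, v_sub, v_mul, v_mul, hw,
        v_int, v_int, v_int]
      linear_combination (x (n - 1) : K) * hmul
  -- divisibility
  have hle : Ideal.span {ψ} * I ^ n ≤ Ideal.span {((q.a : ℤ) : 𝓞 K)} ^ n := by
    rw [hIw, Ideal.span_insert, ← Ideal.add_eq_sup]
    refine mul_add_pow_le _ _ _ _ n fun m hm => ?_
    rw [Ideal.span_singleton_pow, Ideal.span_singleton_pow, Ideal.span_singleton_pow,
      Ideal.span_singleton_mul_span_singleton, Ideal.span_singleton_mul_span_singleton,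
      Ideal.span_singleton_le_span_singleton]
    obtain ⟨p, hp⟩ := hint (n - m) (by omega)
    refine ⟨p, ?_⟩
    apply RingOfIntegers.ext
    rw [v_mul, v_mul, v_mul, v_pow, v_pow, v_pow, hp, v_int, hw, mul_pow]
    have e1 : (q.a : K) ^ n = (q.a : K) ^ m * (q.a : K) ^ (n - m) := by
      rw [← pow_add]
      congr 1
      omega
    rw [e1]
    ring
  obtain ⟨b, hb⟩ := Ideal.dvd_iff_le.mpr hle
  have hψs : Ideal.span {ψ} ≠ (⊥ : Ideal (𝓞 K)) := by
    rw [Ne, Ideal.span_singleton_eq_bot]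
    exact hψ0
  have hb0 : b ≠ ⊥ := by
    intro h0
    rw [h0, Ideal.mul_bot] at hb
    exact (mul_ne_zero hψs (pow_ne_zero n hI0)) hb
  refine ⟨ψ, I, b, hψK, ⟨hgood, hθ, ⟨w, hw, hIw⟩, hψ0, hb0, hb⟩, ?_, ?_⟩
  · rw [← clI_pow I hI0 n, clI_eq_iff b (I ^ n) hb0 (pow_ne_zero n hI0)]
    refine ⟨((q.a : ℤ) : 𝓞 K) ^ n, ψ, pow_ne_zero n haO, hψ0, ?_⟩
    rw [← Ideal.span_singleton_pow]
    exact hb.symm
  · have e1 := congrArg (fun J : Ideal (𝓞 K) => ((Ideal.absNorm J : ℕ) : ℝ)) hb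
    simp only [map_mul, map_pow, Nat.cast_mul, Nat.cast_pow] at e1
    rw [hq4 ψ, hq4 ((q.a : ℤ) : 𝓞 K), hIN, v_int, map_intCast, map_intCast,
      map_intCast] at e1
    have e2 : ((q.a.natAbs : ℕ) : ℝ) = |(q.a : ℝ)| := by
      rw [Nat.cast_natAbs, Int.cast_abs]
    rw [e2, abs_mul (q.a : ℝ), mul_pow] at e1
    have e3 : |(q.a : ℝ)| ^ n ≠ 0 := by
      apply pow_ne_zero
      rw [Ne, abs_eq_zero]
      exact_mod_cast ha0
    have e4 : |(q.a : ℝ)| ^ n * (((Ideal.absNorm b : ℕ) : ℝ) * |(q.a : ℝ)| ^ n) =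
        |(q.a : ℝ)| ^ n * |Q.σ ψ * Q.σ (Q.τ ψ)| := by
      linear_combination -e1
    exact mul_left_cancel₀ e3 e4

end Pool.Agent.MP211W
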