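import Pool.Agent.Lib.MP_211f72_nt.W.SpecC
import Pool.Agent.Lib.MP_211f72_nt.Deg
import Pool.Agent.Lib.MP_211f72_nt.BadH
import Pool.Agent.Lib.MP_211f72_nt.BadD

/-!
# MP_211f72_nt, third theorem: small values of quadratic polynomials with a small derivative
-/

set_option autoImplicit false

namespace Pool.Agent.MP211W

namespace BadQ

open MeasureTheory Filter Topology
open MP_211f72_nt (badhSet badh_meas badD_lim exists_finset_of_card_le deg_sq_eq_mul)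

theorem union_meas (A r : ℝ) (hA : 0 ≤ A) (hr0 : 0 ≤ r) (hr1 : r ≤ 1) :
    volume (⋃ m ∈ Finset.Icc 1 ⌊A⌋₊, badhSet m r) ≤ ENNReal.ofReal (A * (8 * r)) := by
  calc volume (⋃ m ∈ Finset.Icc 1 ⌊A⌋₊, badhSet m r)
      ≤ ∑ m ∈ Finset.Icc 1 ⌊A⌋₊, volume (badhSet m r) := measure_biUnion_finset_le _ _
    _ ≤ ∑ m ∈ Finset.Icc 1 ⌊A⌋₊, ENNReal.ofReal (8 * r) :=
        Finset.sum_le_sum fun m hm => badh_meas m (Finset.mem_Icc.mp hm).1 r hr0 hr1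
    _ = ENNReal.ofReal (⌊A⌋₊ * (8 * r)) := by
        rw [Finset.sum_const, Nat.card_Icc, Nat.add_sub_cancel, nsmul_eq_mul,
          ENNReal.ofReal_mul (Nat.cast_nonneg _), ENNReal.ofReal_natCast]
    _ ≤ ENNReal.ofReal (A * (8 * r)) :=
        ENNReal.ofReal_le_ofReal (mul_le_mul_of_nonneg_right (Nat.floor_le hA) (by positivity))

/-- a linear form with integer coefficients -/
theorem lin_mem {A r ξ : ℝ} (h0 : 0 ≤ ξ) (h1 : ξ ≤ 1) (m n : ℤ) (hm : m ≠ 0)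
    (hmA : |(m : ℝ)| ≤ A) (h : |(m : ℝ) * ξ + n| ≤ r) :
    ξ ∈ ⋃ m ∈ Finset.Icc 1 ⌊A⌋₊, badhSet m r := by
  simp only [Set.mem_iUnion, Finset.mem_Icc, exists_prop]
  have hcast : ((m.natAbs : ℕ) : ℝ) = |(m : ℝ)| := by
    rw [Nat.cast_natAbs, Int.cast_abs]
  refine ⟨m.natAbs, ⟨Int.natAbs_pos.mpr hm, ?_⟩, h0, h1, ?_⟩
  · apply Nat.le_floor
    rw [hcast]
    exact hmA
  · rcases le_total 0 m with hs | hs
    · have e : |(m : ℝ)| = m := abs_of_nonneg (by exact_mod_cast hs)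
      refine ⟨-n, ?_⟩
      rw [hcast, e]
      push_cast
      rw [sub_neg_eq_add]
      exact h
    · have e : |(m : ℝ)| = -m := abs_of_nonpos (by exact_mod_cast hs)
      refine ⟨n, ?_⟩
      rw [hcast, e, show -(m : ℝ) * ξ - n = -((m : ℝ) * ξ + n) by ring, abs_neg]
      exact h

theorem case1 {H ξ : ℝ} (hH : 1 < H) (h0 : 0 ≤ ξ) (h1 : ξ ≤ 1) (q : Qd)
    (hne : q.a ≠ 0 ∨ q.b ≠ 0 ∨ q.c ≠ 0) (ha : q.a = 0) (hb : |(q.b : ℝ)| ≤ H)
    (hq : |q.ev ξ| ≤ 1 / H ^ 2) : ξ ∈ ⋃ m ∈ Finset.Icc 1 ⌊H⌋₊, badhSet m (1 / H ^ 2) := by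
  have hev : q.ev ξ = (q.b : ℝ) * ξ + q.c := by
    unfold Qd.ev
    rw [ha]
    push_cast
    ring
  rw [hev] at hq
  refine lin_mem h0 h1 q.b q.c ?_ hb hq
  intro hb0
  rw [hb0] at hq
  have h2 : (1 : ℝ) / H ^ 2 < 1 := by
    rw [div_lt_one (by positivity)]
    nlinarith
  have h3 : |(q.c : ℝ)| < 1 := by
    have : ((0 : ℤ) : ℝ) * ξ + q.c = q.c := by push_cast; ring
    rw [this] at hq
    linarith
  have h4 : q.c = 0 := by
    have : |q.c| < 1 := by exact_mod_cast h3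
    exact Int.abs_lt_one_iff.mp this
  rcases hne with h | h | h
  · exact h ha
  · exact h hb0
  · exact h h4

theorem case2 {H ξ : ℝ} (hH : 1 < H) (h0 : 0 ≤ ξ) (h1 : ξ ≤ 1) (q : Qd) (ha0 : q.a ≠ 0)
    (hD : q.disc = 0) (ha : |(q.a : ℝ)| ≤ H) (hq : |q.ev ξ| ≤ 1 / H ^ 2) :
    ξ ∈ ⋃ m ∈ Finset.Icc 1 ⌊√H⌋₊, badhSet m (1 / H) := by
  have hb : q.b ^ 2 = 4 * q.a * q.c := by
    unfold Qd.disc at hD
    linarith
  have h2 : (2 : ℤ) ∣ q.b := by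
    have : (2 : ℤ) ∣ q.b ^ 2 := ⟨2 * q.a * q.c, by rw [hb]; ring⟩
    exact Int.prime_two.dvd_of_dvd_pow this
  obtain ⟨r, hr⟩ := h2
  obtain ⟨κ, m, n, -, hp, hr', hc⟩ := deg_sq_eq_mul q.a q.c r (by
    rw [hr] at hb
    have h3 : 4 * r ^ 2 = 4 * (q.a * q.c) := by linarith [(by ring : (2 * r) ^ 2 = 4 * r ^ 2)]
    linarith)
  have hm : m ≠ 0 := by
    rintro rfl
    exact ha0 (by rw [hp]; ring)
  have hκ : κ ≠ 0 := by
    rintro rfl
    exact ha0 (by rw [hp]; ring)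
  have hκ1 : (1 : ℝ) ≤ |(κ : ℝ)| := by
    have := Int.one_le_abs hκ
    exact_mod_cast this
  have hev : q.ev ξ = (κ : ℝ) * ((m : ℝ) * ξ + n) ^ 2 := by
    unfold Qd.ev
    rw [hp, hr, hr', hc]
    push_cast
    ring
  have hH0 : 0 < H := by linarith
  refine lin_mem h0 h1 m n hm ?_ ?_
  · rw [← Real.sqrt_sq_eq_abs]
    apply Real.sqrt_le_sqrt
    have h3 : (m : ℝ) ^ 2 ≤ |(q.a : ℝ)| := by
      rw [hp]
      push_cast
      rw [abs_mul, abs_of_nonneg (sq_nonneg (m : ℝ))]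
      exact le_mul_of_one_le_left (sq_nonneg _) hκ1
    exact h3.trans ha
  · have h3 : ((m : ℝ) * ξ + n) ^ 2 ≤ (1 / H) ^ 2 := by
      rw [hev, abs_mul, abs_of_nonneg (sq_nonneg ((m : ℝ) * ξ + n))] at hq
      have h4 : ((m : ℝ) * ξ + n) ^ 2 ≤ |(κ : ℝ)| * ((m : ℝ) * ξ + n) ^ 2 :=
        le_mul_of_one_le_left (sq_nonneg _) hκ1
      rw [div_pow, one_pow]
      linarith
    exact abs_le_of_sq_le_sq h3 (by positivity)

/-- the two intervals -/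
theorem near {H ξ : ℝ} (hH : 0 < H) (q : Qd) (ha : q.a ≠ 0) (hD : 1 ≤ q.disc)
    (hq : |q.ev ξ| ≤ 1 / H ^ 2) :
    ξ ∈ Metric.closedBall ((-(q.b : ℝ) + √(q.disc : ℝ)) / (2 * q.a)) (2 / (H ^ 2 * √(q.disc : ℝ))) ∪
      Metric.closedBall ((-(q.b : ℝ) - √(q.disc : ℝ)) / (2 * q.a)) (2 / (H ^ 2 * √(q.disc : ℝ))) := by
  have haR : (q.a : ℝ) ≠ 0 := by exact_mod_cast ha
  have haP : 0 < |(q.a : ℝ)| := abs_pos.mpr haR
  have hD1 : (1 : ℝ) ≤ (q.disc : ℝ) := by exact_mod_cast hD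
  have hs0 : 0 < √(q.disc : ℝ) := Real.sqrt_pos.mpr (by linarith)
  have hs2 : √(q.disc : ℝ) ^ 2 = (q.disc : ℝ) := Real.sq_sqrt (by linarith)
  obtain ⟨s, hs⟩ : ∃ s, s = √(q.disc : ℝ) := ⟨_, rfl⟩
  rw [← hs] at hs0 hs2 ⊢
  have hy : (2 * (q.a : ℝ) * ξ + q.b - s) * (2 * (q.a : ℝ) * ξ + q.b + s) =
      4 * q.a * q.ev ξ := by
    have e1 : (2 * (q.a : ℝ) * ξ + q.b - s) * (2 * (q.a : ℝ) * ξ + q.b + s) =
        (2 * (q.a : ℝ) * ξ + q.b) ^ 2 - s ^ 2 := by ring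
    rw [e1, hs2]
    unfold Qd.disc Qd.ev
    push_cast
    ring
  have hyy : |2 * (q.a : ℝ) * ξ + q.b - s| * |2 * (q.a : ℝ) * ξ + q.b + s| ≤
      4 * |(q.a : ℝ)| * (1 / H ^ 2) := by
    rw [← abs_mul, hy, abs_mul, abs_mul, abs_of_pos (by norm_num : (0 : ℝ) < 4)]
    exact mul_le_mul_of_nonneg_left hq (by positivity)
  have key : ∀ t w : ℝ, t * w ≤ 4 * |(q.a : ℝ)| * (1 / H ^ 2) → 0 ≤ t → s ≤ w →
      t ≤ 2 / (H ^ 2 * s) * (2 * |(q.a : ℝ)|) := by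
    intro t w h1 h2 h3
    have h4 : t * s ≤ 4 * |(q.a : ℝ)| * (1 / H ^ 2) :=
      (mul_le_mul_of_nonneg_left h3 h2).trans h1
    have h5 : 2 / (H ^ 2 * s) * (2 * |(q.a : ℝ)|) = 4 * |(q.a : ℝ)| * (1 / H ^ 2) / s := by
      field_simp
      ring
    rw [h5, le_div_iff₀ hs0]
    exact h4
  rcases le_total 0 (2 * (q.a : ℝ) * ξ + q.b) with h | h
  · left
    rw [Metric.mem_closedBall, Real.dist_eq]
    have e : ξ - (-(q.b : ℝ) + s) / (2 * q.a) = (2 * (q.a : ℝ) * ξ + q.b - s) / (2 * q.a) := by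
      field_simp
      ring
    rw [e, abs_div, abs_mul, abs_of_pos (by norm_num : (0 : ℝ) < 2), div_le_iff₀ (by positivity)]
    refine key _ _ hyy (abs_nonneg _) ?_
    rw [abs_of_nonneg (by linarith)]
    linarith
  · right
    rw [Metric.mem_closedBall, Real.dist_eq]
    have e : ξ - (-(q.b : ℝ) - s) / (2 * q.a) = (2 * (q.a : ℝ) * ξ + q.b + s) / (2 * q.a) := by
      field_simp
      ring
    rw [e, abs_div, abs_mul, abs_of_pos (by norm_num : (0 : ℝ) < 2), div_le_iff₀ (by positivity)]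
    rw [mul_comm] at hyy
    refine key _ _ hyy (abs_nonneg _) ?_
    rw [abs_of_nonpos (by linarith)]
    linarith

theorem near_meas {H : ℝ} (hH : 0 < H) (q : Qd) (ha : q.a ≠ 0) (j : ℕ)
    (hD : (2 : ℤ) ^ j ≤ q.disc) :
    volume {ξ : ℝ | |q.ev ξ| ≤ 1 / H ^ 2} ≤ ENNReal.ofReal (8 / (H ^ 2 * √((2 : ℝ) ^ j))) := by
  have h1 : (1 : ℤ) ≤ q.disc := (one_le_pow₀ (by norm_num)).trans hD
  have hDR : (2 : ℝ) ^ j ≤ (q.disc : ℝ) := by exact_mod_cast hD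
  have hs : √((2 : ℝ) ^ j) ≤ √(q.disc : ℝ) := Real.sqrt_le_sqrt hDR
  have hs0 : 0 < √((2 : ℝ) ^ j) := Real.sqrt_pos.mpr (by positivity)
  have h2 : (0 : ℝ) ≤ 2 / (H ^ 2 * √(q.disc : ℝ)) := by positivity
  calc volume {ξ : ℝ | |q.ev ξ| ≤ 1 / H ^ 2}
      ≤ volume (Metric.closedBall ((-(q.b : ℝ) + √(q.disc : ℝ)) / (2 * q.a))
          (2 / (H ^ 2 * √(q.disc : ℝ))) ∪
        Metric.closedBall ((-(q.b : ℝ) - √(q.disc : ℝ)) / (2 * q.a))
          (2 / (H ^ 2 * √(q.disc : ℝ)))) :=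
        measure_mono fun ξ hξ => near hH q ha h1 hξ
    _ ≤ ENNReal.ofReal (2 * (2 / (H ^ 2 * √(q.disc : ℝ)))) +
        ENNReal.ofReal (2 * (2 / (H ^ 2 * √(q.disc : ℝ)))) := by
        refine (measure_union_le _ _).trans ?_
        rw [Real.volume_closedBall, Real.volume_closedBall]
    _ = ENNReal.ofReal (8 / (H ^ 2 * √(q.disc : ℝ))) := by
        rw [← ENNReal.ofReal_add (by positivity) (by positivity)]
        congr 1
        ring
    _ ≤ _ := by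
        apply ENNReal.ofReal_le_ofReal
        exact div_le_div_of_nonneg_left (by norm_num) (by positivity)
          (mul_le_mul_of_nonneg_left hs (by positivity))

/-- the abbreviation `4 + 2 log H` -/
theorem logs {H : ℝ} (hH : 1 ≤ H) : 1 + Real.log (3 * H) ≤ 4 + 2 * Real.log H ∧
    1 ≤ 4 + 2 * Real.log H ∧ 0 ≤ Real.log H := by
  have h1 : 0 ≤ Real.log H := Real.log_nonneg hH
  have h2 : Real.log 3 ≤ 2 := by
    have := Real.log_le_sub_one_of_pos (by norm_num : (0 : ℝ) < 3)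
    linarith
  rw [Real.log_mul (by norm_num) (by linarith)]
  exact ⟨by linarith, by linarith, h1⟩

theorem block {C ε H : ℝ} (hC : 0 < C) (hH : 1 ≤ H)
    (hcnt : ∀ (H Z : ℝ) (S : Finset Qd), 1 ≤ H → 1 ≤ Z →
      (∀ q ∈ S, q.a ≠ 0 ∧ (q.ht : ℝ) ≤ H ∧ q.disc ≠ 0 ∧ |(q.disc : ℝ)| ≤ Z) →
      (S.card : ℝ) ≤ C * (H ^ 2 + H * Z * (1 + Real.log H)) ∧
        (S.card : ℝ) ≤ C * (H ^ (1 + (1 / 4 : ℝ)) * Z)) (j : ℕ)
    (hj : (2 : ℝ) ^ j ≤ 2 * H ^ (2 - 2 * ε)) :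
    ∃ S : Finset Qd, (∀ q : Qd, q ∈ S ↔ q ∈ {q : Qd | q.a ≠ 0 ∧ (q.ht : ℝ) ≤ 3 * H ∧
      (2 : ℤ) ^ j ≤ q.disc ∧ q.disc ≤ 2 ^ (j + 1)}) ∧
      (S.card : ℝ) * (8 / (H ^ 2 * √((2 : ℝ) ^ j))) ≤
        168 * C * (4 + 2 * Real.log H) * H ^ (-(min (1 / 4) ε)) := by
  have hH0 : 0 < H := by linarith
  obtain ⟨L, hL⟩ : ∃ L, L = 4 + 2 * Real.log H := ⟨_, rfl⟩
  obtain ⟨l1, l2, l3⟩ := logs hH
  rw [← hL] at l1 l2 ⊢
  obtain ⟨s, hs⟩ : ∃ s, s = √((2 : ℝ) ^ j) := ⟨_, rfl⟩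
  have hs0 : 0 < s := by rw [hs]; exact Real.sqrt_pos.mpr (by positivity)
  have hs2 : s ^ 2 = (2 : ℝ) ^ j := by rw [hs]; exact Real.sq_sqrt (by positivity)
  rw [← hs]
  have hall : ∀ S : Finset Qd, (∀ q ∈ S, q ∈ {q : Qd | q.a ≠ 0 ∧ (q.ht : ℝ) ≤ 3 * H ∧
      (2 : ℤ) ^ j ≤ q.disc ∧ q.disc ≤ 2 ^ (j + 1)}) →
      (S.card : ℝ) ≤ C * ((3 * H) ^ 2 + (3 * H) * (2 * s ^ 2) * (1 + Real.log (3 * H))) ∧
      (S.card : ℝ) ≤ C * ((3 * H) ^ (1 + (1 / 4 : ℝ)) * (2 * s ^ 2)) := by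
    intro S hS
    refine hcnt (3 * H) (2 * s ^ 2) S (by linarith) ?_ fun q hq => ?_
    · rw [hs2]
      have : (1 : ℝ) ≤ 2 ^ j := one_le_pow₀ (by norm_num)
      linarith
    · obtain ⟨h1, h2, h3, h4⟩ := hS q hq
      have h5 : (1 : ℤ) ≤ q.disc := (one_le_pow₀ (by norm_num)).trans h3
      refine ⟨h1, h2, by omega, ?_⟩
      rw [abs_of_nonneg (by exact_mod_cast (by omega : (0 : ℤ) ≤ q.disc)), hs2]
      have h6 : (q.disc : ℝ) ≤ (2 : ℝ) ^ (j + 1) := by exact_mod_cast h4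
      rw [pow_succ] at h6
      linarith
  obtain ⟨θ, hθ⟩ : ∃ θ, θ = min (1 / 4) ε := ⟨_, rfl⟩
  rw [← hθ]
  have hθ1 : θ ≤ 1 / 4 := by rw [hθ]; exact min_le_left _ _
  have hθ2 : θ ≤ ε := by rw [hθ]; exact min_le_right _ _
  have hP : 0 < H ^ (-θ) := Real.rpow_pos_of_pos hH0 _
  have m1 : H ^ (-(1 / 4) : ℝ) ≤ H ^ (-θ) := Real.rpow_le_rpow_of_exponent_le hH (by linarith)
  have m2 : H ^ (-(1 / 2) : ℝ) ≤ H ^ (-θ) := Real.rpow_le_rpow_of_exponent_le hH (by linarith)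
  have m3 : H ^ (-ε) ≤ H ^ (-θ) := Real.rpow_le_rpow_of_exponent_le hH (by linarith)
  have hlog3 : 0 ≤ 1 + Real.log (3 * H) := by
    have := Real.log_nonneg (by linarith : (1 : ℝ) ≤ 3 * H)
    linarith
  rcases le_total ((2 : ℝ) ^ j) H with hcase | hcase
  · -- small discriminants
    obtain ⟨S, hS, hcard⟩ := exists_finset_of_card_le _ _ (fun S hS => (hall S hS).2)
    refine ⟨S, hS, ?_⟩
    have hsH : s ≤ H ^ (1 / 2 : ℝ) := by
      rw [hs, ← Real.sqrt_eq_rpow]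
      exact Real.sqrt_le_sqrt hcase
    have h3H : (3 * H) ^ (1 + (1 / 4 : ℝ)) ≤ 9 * H ^ (1 + (1 / 4 : ℝ)) := by
      rw [Real.mul_rpow (by norm_num) hH0.le]
      apply mul_le_mul_of_nonneg_right _ (Real.rpow_nonneg hH0.le _)
      calc (3 : ℝ) ^ (1 + (1 / 4 : ℝ)) ≤ (3 : ℝ) ^ (2 : ℝ) :=
            Real.rpow_le_rpow_of_exponent_le (by norm_num) (by norm_num)
        _ = 9 := by rw [Real.rpow_two]; norm_num
    have hpow : H ^ (1 + (1 / 4 : ℝ)) * H ^ (1 / 2 : ℝ) / H ^ 2 = H ^ (-(1 / 4) : ℝ) := by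
      rw [← Real.rpow_add hH0, ← Real.rpow_two, ← Real.rpow_sub hH0]
      congr 1
      norm_num
    calc (S.card : ℝ) * (8 / (H ^ 2 * s))
        ≤ C * ((3 * H) ^ (1 + (1 / 4 : ℝ)) * (2 * s ^ 2)) * (8 / (H ^ 2 * s)) :=
          mul_le_mul_of_nonneg_right hcard (by positivity)
      _ = 16 * C * ((3 * H) ^ (1 + (1 / 4 : ℝ)) * s / H ^ 2) := by
          field_simp
          ring
      _ ≤ 16 * C * (9 * H ^ (1 + (1 / 4 : ℝ)) * H ^ (1 / 2 : ℝ) / H ^ 2) := by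
          apply mul_le_mul_of_nonneg_left _ (by positivity)
          apply div_le_div_of_nonneg_right _ (by positivity)
          exact mul_le_mul h3H hsH hs0.le (by positivity)
      _ = 144 * C * (H ^ (1 + (1 / 4 : ℝ)) * H ^ (1 / 2 : ℝ) / H ^ 2) := by ring
      _ = 144 * C * H ^ (-(1 / 4) : ℝ) := by rw [hpow]
      _ ≤ 144 * C * H ^ (-θ) := mul_le_mul_of_nonneg_left m1 (by positivity)
      _ ≤ 168 * C * L * H ^ (-θ) := by
          apply mul_le_mul_of_nonneg_right _ hP.le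
          nlinarith
  · -- large discriminants
    obtain ⟨S, hS, hcard⟩ := exists_finset_of_card_le _ _ (fun S hS => (hall S hS).1)
    refine ⟨S, hS, ?_⟩
    have hsH : 1 / s ≤ H ^ (-(1 / 2) : ℝ) := by
      rw [Real.rpow_neg hH0.le, ← Real.sqrt_eq_rpow, one_div]
      apply inv_anti₀ (Real.sqrt_pos.mpr hH0)
      rw [hs]
      exact Real.sqrt_le_sqrt hcase
    have hsX : s ≤ 2 * H ^ (1 - ε) := by
      have h1 : s ^ 2 ≤ (2 * H ^ (1 - ε)) ^ 2 := by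
        have h2 : (2 * H ^ (1 - ε)) ^ 2 = 4 * H ^ (2 - 2 * ε) := by
          rw [mul_pow, ← Real.rpow_natCast (H ^ (1 - ε)), ← Real.rpow_mul hH0.le]
          congr 1
          · norm_num
          · congr 1
            push_cast
            ring
        rw [hs2, h2]
        have h3 : 0 < H ^ (2 - 2 * ε) := Real.rpow_pos_of_pos hH0 _
        linarith
      exact (abs_le_of_sq_le_sq' h1 (by positivity)).2
    have hsX' : s / H ≤ 2 * H ^ (-ε) := by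
      rw [div_le_iff₀ hH0]
      have h1 : 2 * H ^ (-ε) * H = 2 * H ^ (1 - ε) := by
        rw [mul_assoc]
        congr 1
        rw [show (1 - ε) = -ε + 1 by ring, Real.rpow_add hH0, Real.rpow_one]
      rw [h1]
      exact hsX
    calc (S.card : ℝ) * (8 / (H ^ 2 * s))
        ≤ C * ((3 * H) ^ 2 + (3 * H) * (2 * s ^ 2) * (1 + Real.log (3 * H))) *
            (8 / (H ^ 2 * s)) := mul_le_mul_of_nonneg_right hcard (by positivity)
      _ = 8 * C * (9 * (1 / s) + 6 * (s / H) * (1 + Real.log (3 * H))) := by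
          field_simp
          ring
      _ ≤ 8 * C * (9 * H ^ (-θ) + 6 * (2 * H ^ (-θ)) * L) := by
          apply mul_le_mul_of_nonneg_left _ (by positivity)
          apply add_le_add
          · exact mul_le_mul_of_nonneg_left (hsH.trans m2) (by norm_num)
          · apply mul_le_mul _ l1 hlog3 (by positivity)
            apply mul_le_mul_of_nonneg_left _ (by norm_num)
            exact hsX'.trans (mul_le_mul_of_nonneg_left m3 (by norm_num))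
      _ ≤ 168 * C * L * H ^ (-θ) := by
          have h1 : 0 ≤ C * H ^ (-θ) * (L - 1) :=
            mul_nonneg (mul_nonneg hC.le hP.le) (by linarith)
          nlinarith

/-- the parameters of a polynomial in the third case -/
theorem case3 {H ξ ε : ℝ} (hH : 5 ≤ H) (hε1 : ε < 1) (h0 : 0 ≤ ξ) (h1 : ξ ≤ 1) (q : Qd)
    (hD : q.disc ≠ 0) (ha : |(q.a : ℝ)| ≤ H) (hb : |(q.b : ℝ)| ≤ H)
    (hq : |q.ev ξ| ≤ 1 / H ^ 2) (hd : |2 * (q.a : ℝ) * ξ + (q.b : ℝ)| ≤ H ^ (1 - ε)) :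
    (q.ht : ℝ) ≤ 3 * H ∧ ∃ j : ℕ, (2 : ℝ) ^ j ≤ 2 * H ^ (2 - 2 * ε) ∧ (2 : ℤ) ^ j ≤ q.disc ∧
      q.disc ≤ 2 ^ (j + 1) := by
  have hH0 : 0 < H := by linarith
  have hinv : 1 / H ^ 2 ≤ 1 := by
    rw [div_le_one (by positivity)]
    nlinarith
  have haq : 4 * |(q.a : ℝ)| * |q.ev ξ| ≤ 4 / H := by
    calc 4 * |(q.a : ℝ)| * |q.ev ξ| ≤ 4 * H * (1 / H ^ 2) :=
          mul_le_mul (by linarith) hq (abs_nonneg _) (by linarith)
      _ = 4 / H := by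
          field_simp
  have h4H : 4 / H < 1 := by
    rw [div_lt_one hH0]
    linarith
  have hdisc : (q.disc : ℝ) = (2 * (q.a : ℝ) * ξ + q.b) ^ 2 - 4 * q.a * q.ev ξ := by
    unfold Qd.disc Qd.ev
    push_cast
    ring
  have habs : |4 * (q.a : ℝ) * q.ev ξ| < 1 := by
    rw [abs_mul, abs_mul, abs_of_pos (by norm_num : (0 : ℝ) < 4)]
    linarith
  rw [abs_lt] at habs
  have hpos : (-1 : ℝ) < (q.disc : ℝ) := by
    rw [hdisc]
    have := sq_nonneg (2 * (q.a : ℝ) * ξ + q.b)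
    linarith
  have hposZ : (1 : ℤ) ≤ q.disc := by
    have : (-1 : ℤ) < q.disc := by exact_mod_cast hpos
    omega
  have hup : (q.disc : ℝ) ≤ 2 * H ^ (2 - 2 * ε) := by
    have h2 : (2 * (q.a : ℝ) * ξ + q.b) ^ 2 ≤ H ^ (2 - 2 * ε) := by
      have h3 : (H ^ (1 - ε)) ^ 2 = H ^ (2 - 2 * ε) := by
        rw [← Real.rpow_natCast, ← Real.rpow_mul hH0.le]
        congr 1
        push_cast
        ring
      rw [← h3, ← sq_abs]
      exact pow_le_pow_left₀ (abs_nonneg _) hd 2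
    have h5 : 1 ≤ H ^ (2 - 2 * ε) := Real.one_le_rpow (by linarith) (by linarith)
    rw [hdisc]
    linarith
  have hc : |(q.c : ℝ)| ≤ 3 * H := by
    have e : (q.c : ℝ) = q.ev ξ - q.a * ξ ^ 2 - q.b * ξ := by
      unfold Qd.ev
      ring
    have h2 : |(q.a : ℝ) * ξ ^ 2| ≤ H := by
      rw [abs_mul, abs_of_nonneg (sq_nonneg ξ)]
      calc |(q.a : ℝ)| * ξ ^ 2 ≤ H * 1 :=
            mul_le_mul ha (by nlinarith) (sq_nonneg _) hH0.le
        _ = H := mul_one H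
    have h3 : |(q.b : ℝ) * ξ| ≤ H := by
      rw [abs_mul, abs_of_nonneg h0]
      calc |(q.b : ℝ)| * ξ ≤ H * 1 := mul_le_mul hb h1 h0 hH0.le
        _ = H := mul_one H
    rw [e]
    have h4 := abs_sub (q.ev ξ - q.a * ξ ^ 2) (q.b * ξ)
    have h5 := abs_sub (q.ev ξ) (q.a * ξ ^ 2)
    linarith
  refine ⟨?_, Nat.log 2 q.disc.toNat, ?_, ?_, ?_⟩
  · unfold Qd.ht
    push_cast
    exact max_le (by linarith) (max_le (by linarith) hc)
  · have h2 : 2 ^ Nat.log 2 q.disc.toNat ≤ q.disc.toNat :=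
      Nat.pow_log_le_self 2 (by omega)
    have h3 : ((2 ^ Nat.log 2 q.disc.toNat : ℕ) : ℝ) ≤ ((q.disc.toNat : ℕ) : ℝ) := by
      exact_mod_cast h2
    have h4 : ((q.disc.toNat : ℕ) : ℝ) = (q.disc : ℝ) := by
      have : ((q.disc.toNat : ℕ) : ℤ) = q.disc := Int.toNat_of_nonneg (by omega)
      exact_mod_cast this
    rw [h4] at h3
    push_cast at h3
    linarith
  · have h2 : 2 ^ Nat.log 2 q.disc.toNat ≤ q.disc.toNat :=
      Nat.pow_log_le_self 2 (by omega)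
    have h4 : ((q.disc.toNat : ℕ) : ℤ) = q.disc := Int.toNat_of_nonneg (by omega)
    calc (2 : ℤ) ^ Nat.log 2 q.disc.toNat = ((2 ^ Nat.log 2 q.disc.toNat : ℕ) : ℤ) := by push_cast; rfl
      _ ≤ ((q.disc.toNat : ℕ) : ℤ) := by exact_mod_cast h2
      _ = q.disc := h4
  · have h2 : q.disc.toNat < 2 ^ (Nat.log 2 q.disc.toNat + 1) :=
      Nat.lt_pow_succ_log_self (by norm_num) _
    have h4 : ((q.disc.toNat : ℕ) : ℤ) = q.disc := Int.toNat_of_nonneg (by omega)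
    calc q.disc = ((q.disc.toNat : ℕ) : ℤ) := h4.symm
      _ ≤ ((2 ^ (Nat.log 2 q.disc.toNat + 1) : ℕ) : ℤ) := by exact_mod_cast h2.le
      _ = _ := by push_cast; rfl

/-- the number of dyadic blocks -/
theorem nblocks {H ε : ℝ} (hH : 1 ≤ H) (hε0 : 0 < ε) : ∃ J : ℕ, (J : ℝ) ≤ 2 * (4 + 2 * Real.log H) ∧
    ∀ j : ℕ, (2 : ℝ) ^ j ≤ 2 * H ^ (2 - 2 * ε) → j < J := by
  have hH0 : 0 < H := by linarith
  have hl2 := Real.log_two_gt_d9
  have hl2' : 0 < Real.log 2 := by linarith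
  have hlH : 0 ≤ Real.log H := Real.log_nonneg hH
  refine ⟨⌊1 + 2 * Real.log H / Real.log 2⌋₊ + 1, ?_, fun j hj => ?_⟩
  · push_cast
    have h1 : (⌊1 + 2 * Real.log H / Real.log 2⌋₊ : ℝ) ≤ 1 + 2 * Real.log H / Real.log 2 :=
      Nat.floor_le (by positivity)
    have h2 : 2 * Real.log H / Real.log 2 ≤ 3 * Real.log H := by
      rw [div_le_iff₀ hl2']
      nlinarith
    linarith
  · rw [Nat.lt_add_one_iff]
    apply Nat.le_floor
    have h1 : Real.log ((2 : ℝ) ^ j) ≤ Real.log (2 * H ^ (2 - 2 * ε)) :=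
      Real.log_le_log (by positivity) hj
    rw [Real.log_pow, Real.log_mul (by norm_num) (Real.rpow_pos_of_pos hH0 _).ne',
      Real.log_rpow hH0] at h1
    have h2 : (j : ℝ) * Real.log 2 ≤ Real.log 2 + 2 * Real.log H := by nlinarith
    have h3 : 1 + 2 * Real.log H / Real.log 2 = (Real.log 2 + 2 * Real.log H) / Real.log 2 := by
      field_simp
    rw [h3, le_div_iff₀ hl2']
    exact h2

end BadQ

open MeasureTheory Filter Topology BadQ in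
open MP_211f72_nt (badhSet badD_lim) in
theorem wBadQ (h1 : S_CntQ) : S_BadQ := by
  intro ε τ hε0 hε1 hτ
  obtain ⟨C, hC, hcnt⟩ := h1 (1 / 4) (by norm_num)
  have hθ0 : 0 < min (1 / 4) ε := lt_min (by norm_num) hε0
  have hev := (badD_lim (16 + 336 * C) (min (1 / 4) ε) τ hθ0 hτ).and (eventually_ge_atTop (5 : ℝ))
  obtain ⟨H₀, hH₀⟩ := eventually_atTop.mp hev
  refine ⟨H₀, fun H hH => ?_⟩
  obtain ⟨hlim, hH5⟩ := hH₀ H hH
  have hH1 : 1 ≤ H := by linarith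
  have hH0 : 0 < H := by linarith
  obtain ⟨J, hJ1, hJ2⟩ := nblocks hH1 hε0
  obtain ⟨-, hL1, hlH⟩ := logs hH1
  have hT0 : 0 ≤ 168 * C * (4 + 2 * Real.log H) * H ^ (-(min (1 / 4) ε)) := by positivity
  -- the blocks
  have hblk : ∀ j : ℕ, ∃ S : Finset Qd, (∀ q ∈ S, q.a ≠ 0 ∧ (2 : ℤ) ^ j ≤ q.disc) ∧
      ((2 : ℝ) ^ j ≤ 2 * H ^ (2 - 2 * ε) → ∀ q : Qd, q.a ≠ 0 → (q.ht : ℝ) ≤ 3 * H →
        (2 : ℤ) ^ j ≤ q.disc → q.disc ≤ 2 ^ (j + 1) → q ∈ S) ∧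
      (S.card : ℝ) * (8 / (H ^ 2 * √((2 : ℝ) ^ j))) ≤
        168 * C * (4 + 2 * Real.log H) * H ^ (-(min (1 / 4) ε)) := by
    intro j
    by_cases hj : (2 : ℝ) ^ j ≤ 2 * H ^ (2 - 2 * ε)
    · obtain ⟨S, hS, hcard⟩ := block hC hH1 hcnt j hj
      refine ⟨S, fun q hq => ?_, fun _ q a1 a2 a3 a4 => (hS q).mpr ⟨a1, a2, a3, a4⟩, hcard⟩
      have := (hS q).mp hq
      exact ⟨this.1, this.2.2.1⟩
    · exact ⟨∅, fun q hq => absurd hq (Finset.notMem_empty q), fun h => absurd h hj, by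
        rw [Finset.card_empty, Nat.cast_zero, zero_mul]
        exact hT0⟩
  choose S hS1 hS2 hS3 using hblk
  have hsub : {ξ : ℝ | 0 ≤ ξ ∧ ξ ≤ 1 ∧ ∃ q : Qd, (q.a ≠ 0 ∨ q.b ≠ 0 ∨ q.c ≠ 0) ∧
      |(q.a : ℝ)| ≤ H ∧ |(q.b : ℝ)| ≤ H ∧ |q.ev ξ| ≤ 1 / H ^ 2 ∧
      (q.a = 0 ∨ |2 * (q.a : ℝ) * ξ + (q.b : ℝ)| ≤ H ^ (1 - ε))} ⊆
      ((⋃ m ∈ Finset.Icc 1 ⌊H⌋₊, badhSet m (1 / H ^ 2)) ∪
        ⋃ m ∈ Finset.Icc 1 ⌊√H⌋₊, badhSet m (1 / H)) ∪
        ⋃ j ∈ Finset.range J, ⋃ q ∈ S j, {ξ : ℝ | |q.ev ξ| ≤ 1 / H ^ 2} := by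
    rintro ξ ⟨h0, h1, q, hne, ha, hb, hq, hor⟩
    by_cases ha0 : q.a = 0
    · exact Or.inl (Or.inl (case1 (by linarith) h0 h1 q hne ha0 hb hq))
    · by_cases hD : q.disc = 0
      · exact Or.inl (Or.inr (case2 (by linarith) h0 h1 q ha0 hD ha hq))
      · right
        obtain ⟨c1, j, c2, c3, c4⟩ := case3 hH5 hε1 h0 h1 q hD ha hb hq (hor.resolve_left ha0)
        simp only [Set.mem_iUnion, Finset.mem_range, exists_prop]
        exact ⟨j, hJ2 j c2, q, hS2 j c2 q ha0 c1 c3 c4, hq⟩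
  have hθ1 : H ^ (-(1 / 2) : ℝ) ≤ H ^ (-(min (1 / 4) ε)) :=
    Real.rpow_le_rpow_of_exponent_le hH1 (by linarith [min_le_left (1 / 4) ε])
  have hθ2 : H ^ (-1 : ℝ) ≤ H ^ (-(min (1 / 4) ε)) :=
    Real.rpow_le_rpow_of_exponent_le hH1 (by linarith [min_le_left (1 / 4) ε])
  have v1 : volume (⋃ m ∈ Finset.Icc 1 ⌊H⌋₊, badhSet m (1 / H ^ 2)) ≤
      ENNReal.ofReal (8 * H ^ (-(min (1 / 4) ε))) := by
    refine (union_meas H (1 / H ^ 2) hH0.le (by positivity) ?_).trans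
      (ENNReal.ofReal_le_ofReal ?_)
    · rw [div_le_one (by positivity)]
      nlinarith
    · have e : H * (8 * (1 / H ^ 2)) = 8 * H ^ (-1 : ℝ) := by
        rw [Real.rpow_neg_one]
        field_simp
      rw [e]
      linarith
  have v2 : volume (⋃ m ∈ Finset.Icc 1 ⌊√H⌋₊, badhSet m (1 / H)) ≤
      ENNReal.ofReal (8 * H ^ (-(min (1 / 4) ε))) := by
    refine (union_meas (√H) (1 / H) (Real.sqrt_nonneg _) (by positivity) ?_).trans
      (ENNReal.ofReal_le_ofReal ?_)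
    · rw [div_le_one hH0]
      exact hH1
    · have e : √H * (8 * (1 / H)) = 8 * H ^ (-(1 / 2) : ℝ) := by
        have e1 : H ^ (-(1 / 2) : ℝ) = √H / H := by
          rw [Real.sqrt_eq_rpow, ← Real.rpow_sub_one hH0.ne']
          norm_num
        rw [e1]
        ring
      rw [e]
      linarith
  have v3 : volume (⋃ j ∈ Finset.range J, ⋃ q ∈ S j, {ξ : ℝ | |q.ev ξ| ≤ 1 / H ^ 2}) ≤
      ENNReal.ofReal (2 * (4 + 2 * Real.log H) *
        (168 * C * (4 + 2 * Real.log H) * H ^ (-(min (1 / 4) ε)))) := by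
    calc volume (⋃ j ∈ Finset.range J, ⋃ q ∈ S j, {ξ : ℝ | |q.ev ξ| ≤ 1 / H ^ 2})
        ≤ ∑ j ∈ Finset.range J, volume (⋃ q ∈ S j, {ξ : ℝ | |q.ev ξ| ≤ 1 / H ^ 2}) :=
          measure_biUnion_finset_le _ _
      _ ≤ ∑ j ∈ Finset.range J, ENNReal.ofReal
          (168 * C * (4 + 2 * Real.log H) * H ^ (-(min (1 / 4) ε))) := by
          refine Finset.sum_le_sum fun j _ => ?_
          calc volume (⋃ q ∈ S j, {ξ : ℝ | |q.ev ξ| ≤ 1 / H ^ 2})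
              ≤ ∑ q ∈ S j, volume {ξ : ℝ | |q.ev ξ| ≤ 1 / H ^ 2} := measure_biUnion_finset_le _ _
            _ ≤ ∑ q ∈ S j, ENNReal.ofReal (8 / (H ^ 2 * √((2 : ℝ) ^ j))) :=
                Finset.sum_le_sum fun q hq => near_meas hH0 q (hS1 j q hq).1 j (hS1 j q hq).2
            _ = ENNReal.ofReal ((S j).card * (8 / (H ^ 2 * √((2 : ℝ) ^ j)))) := by
                rw [Finset.sum_const, nsmul_eq_mul, ENNReal.ofReal_mul (Nat.cast_nonneg _),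
                  ENNReal.ofReal_natCast]
            _ ≤ _ := ENNReal.ofReal_le_ofReal (hS3 j)
      _ = ENNReal.ofReal (J * (168 * C * (4 + 2 * Real.log H) * H ^ (-(min (1 / 4) ε)))) := by
          rw [Finset.sum_const, Finset.card_range, nsmul_eq_mul,
            ENNReal.ofReal_mul (Nat.cast_nonneg _), ENNReal.ofReal_natCast]
      _ ≤ _ := ENNReal.ofReal_le_ofReal (mul_le_mul_of_nonneg_right hJ1 hT0)
  have hP : 0 < H ^ (-(min (1 / 4) ε)) := Real.rpow_pos_of_pos hH0 _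
  refine (measure_mono hsub).trans ((measure_union_le _ _).trans
    ((add_le_add ((measure_union_le _ _).trans (add_le_add v1 v2)) v3).trans ?_))
  rw [← ENNReal.ofReal_add (by positivity) (by positivity),
    ← ENNReal.ofReal_add (by positivity) (by positivity)]
  refine ENNReal.ofReal_le_ofReal (le_trans ?_ hlim)
  obtain ⟨L, hL⟩ : ∃ L, L = 4 + 2 * Real.log H := ⟨_, rfl⟩
  obtain ⟨P, hPd⟩ : ∃ P, P = H ^ (-(min (1 / 4) ε)) := ⟨_, rfl⟩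
  rw [← hL, ← hPd]
  rw [← hL] at hL1
  rw [← hPd] at hP
  have hLL : L ^ 2 ≤ L ^ 3 := pow_le_pow_right₀ hL1 (by norm_num)
  have hL3 : 1 ≤ L ^ 3 := one_le_pow₀ hL1
  have e1 : 16 * P ≤ 16 * L ^ 3 * P := by nlinarith
  have e2 : 336 * C * L ^ 2 * P ≤ 336 * C * L ^ 3 * P :=
    mul_le_mul_of_nonneg_right (mul_le_mul_of_nonneg_left hLL (by positivity)) hP.le
  have e3 : 8 * P + 8 * P + 2 * L * (168 * C * L * P) = 16 * P + 336 * C * L ^ 2 * P := by ring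
  have e4 : (16 + 336 * C) * L ^ 3 * P = 16 * L ^ 3 * P + 336 * C * L ^ 3 * P := by ring
  rw [e3, e4]
  linarith

end Pool.Agent.MP211W
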