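import Pool.Agent.Lib.MP_211f72_nt.W.SpecE

/-!
# MP_211f72_nt, third theorem: the polynomials of a dyadic block of fields
-/

set_option autoImplicit false

namespace Pool.Agent.MP211W

open NumberField

namespace BlockS

private theorem disc_le (q : Qd) (H : ℝ) (h : (q.ht : ℝ) ≤ H) : (q.disc : ℝ) ≤ 5 * H ^ 2 := by
  have ha : |(q.a : ℝ)| ≤ H := by
    have h1 : |q.a| ≤ q.ht := le_max_left _ _
    have h2 : ((|q.a| : ℤ) : ℝ) ≤ (q.ht : ℝ) := by exact_mod_cast h1
    rw [Int.cast_abs] at h2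
    exact h2.trans h
  have hb : |(q.b : ℝ)| ≤ H := by
    have h1 : |q.b| ≤ q.ht := (le_max_left _ _).trans (le_max_right _ _)
    have h2 : ((|q.b| : ℤ) : ℝ) ≤ (q.ht : ℝ) := by exact_mod_cast h1
    rw [Int.cast_abs] at h2
    exact h2.trans h
  have hc : |(q.c : ℝ)| ≤ H := by
    have h1 : |q.c| ≤ q.ht := (le_max_right _ _).trans (le_max_right _ _)
    have h2 : ((|q.c| : ℤ) : ℝ) ≤ (q.ht : ℝ) := by exact_mod_cast h1
    rw [Int.cast_abs] at h2
    exact h2.trans h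
  have hH : 0 ≤ H := (abs_nonneg _).trans ha
  have e : (q.disc : ℝ) = (q.b : ℝ) ^ 2 - 4 * ((q.a : ℝ) * (q.c : ℝ)) := by
    unfold Qd.disc
    push_cast
    ring
  have h1 : (q.b : ℝ) ^ 2 ≤ H ^ 2 := by
    rw [← sq_abs (q.b : ℝ)]
    exact pow_le_pow_left₀ (abs_nonneg _) hb 2
  have h2 : |(q.a : ℝ) * (q.c : ℝ)| ≤ H * H := by
    rw [abs_mul]
    exact mul_le_mul ha hc (abs_nonneg _) hH
  have h3 := neg_abs_le ((q.a : ℝ) * (q.c : ℝ))
  rw [e]
  nlinarith

private theorem root_bd (m : ℕ) (hm : 2 ≤ m) (CP H w sD P κ : ℝ) (hCP : 1 ≤ CP) (hH : 0 < H)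
    (hw : 0 < w) (hw1 : w ≤ 1) (hs : 0 < sD) (hs4 : sD ≤ 4 * H) (hP : 0 < P)
    (hPm : P ^ m = sD / (2 ^ (m + 2) * (CP * (H * w)))) (hκ : κ ≤ 1 / m) :
    sD / P ≤ 4 * 2 ^ (m + 2) * CP * H * w ^ κ := by
  have hm0 : m ≠ 0 := by omega
  have hmR : (m : ℝ) ≠ 0 := by exact_mod_cast hm0
  obtain ⟨a, ha⟩ : ∃ a : ℝ, a = 2 ^ (m + 2) * CP := ⟨_, rfl⟩
  have h2 : (1 : ℝ) ≤ 2 ^ (m + 2) := one_le_pow₀ (by norm_num)
  have ha1 : 1 ≤ a := by
    rw [ha]
    nlinarith
  have ha0 : 0 < a := by linarith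
  have hwm : 0 < w ^ (1 / (m : ℝ)) := Real.rpow_pos_of_pos hw _
  have e1 : (sD / P) ^ m = sD ^ (m - 1) * (a * (H * w)) := by
    rw [div_pow, hPm, ha]
    obtain ⟨k, rfl⟩ : ∃ k, m = k + 1 := ⟨m - 1, by omega⟩
    rw [Nat.add_sub_cancel]
    have h3 : (2 : ℝ) ^ (k + 1 + 2) ≠ 0 := by positivity
    have h4 : CP ≠ 0 := by linarith
    field_simp
    ring
  have e2 : (4 * a * H * w ^ (1 / (m : ℝ))) ^ m = (4 * H) ^ m * a ^ m * w := by
    rw [mul_pow _ (w ^ (1 / (m : ℝ))), ← Real.rpow_natCast (w ^ (1 / (m : ℝ))) m,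
      ← Real.rpow_mul hw.le, one_div_mul_cancel hmR, Real.rpow_one, ← mul_pow]
    congr 2
    ring
  have e3 : (sD / P) ^ m ≤ (4 * a * H * w ^ (1 / (m : ℝ))) ^ m := by
    rw [e1, e2]
    have h3 : sD ^ (m - 1) ≤ (4 * H) ^ (m - 1) := pow_le_pow_left₀ hs.le hs4 _
    have h4 : a ≤ a ^ m := le_self_pow₀ ha1 hm0
    have h5 : (4 * H) ^ m = (4 * H) ^ (m - 1) * (4 * H) := by
      rw [← pow_succ]
      congr 1
      omega
    rw [h5]
    have h6 : a * (H * w) ≤ a ^ m * ((4 * H) * w) := by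
      have h7 : H * w ≤ (4 * H) * w := by nlinarith [mul_pos hH hw]
      exact mul_le_mul h4 h7 (by positivity) (by positivity)
    calc sD ^ (m - 1) * (a * (H * w)) ≤ (4 * H) ^ (m - 1) * (a ^ m * ((4 * H) * w)) :=
          mul_le_mul h3 h6 (by positivity) (by positivity)
      _ = (4 * H) ^ (m - 1) * (4 * H) * a ^ m * w := by ring
  have e4 : sD / P ≤ 4 * a * H * w ^ (1 / (m : ℝ)) :=
    (pow_le_pow_iff_left₀ (by positivity) (by positivity) hm0).1 e3
  have e5 : w ^ (1 / (m : ℝ)) ≤ w ^ κ := Real.rpow_le_rpow_of_exponent_ge hw hw1 hκ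
  refine e4.trans ?_
  rw [ha]
  have e6 : 4 * (2 ^ (m + 2) * CP) * H * w ^ (1 / (m : ℝ)) ≤
      4 * (2 ^ (m + 2) * CP) * H * w ^ κ :=
    mul_le_mul_of_nonneg_left e5 (by positivity)
  refine e6.trans (le_of_eq ?_)
  ring

/-- the numerical estimate of the two contributions -/
private theorem fin_bd (CS CD CP CT CA η D Y H Δ R : ℝ) (hCS : 0 < CS) (hCD : 0 < CD) (hCP : 0 < CP)
    (hCT : 0 < CT) (hCA : 0 < CA) (hη : 0 < η) (hD : 1 ≤ D) (hDY : 2 * D ≤ 20 * Y ^ 2) (hY : 1 ≤ Y)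
    (hH : 1 ≤ H) (hHY : H ≤ Y) (hR : 0 ≤ R) :
    CS * CD * (D ^ η * H ^ η) * (H * Real.sqrt Δ * R) +
      CP * (1 + Real.log Y) * (CA * CS * (2 * Real.sqrt D * (2 * D) ^ η) * D ^ η) *
        (CT * (2 * D) ^ η) * (H * Real.sqrt Δ * (R / Real.sqrt D)) ≤
    ((CS * CD + 2 * (CP * CT * CA * CS * (1 + 1 / η))) * (20 : ℝ) ^ (3 * η)) * Y ^ (7 * η) *
      (H * Real.sqrt Δ * R) := by
  have hY0 : 0 < Y := by linarith
  have hD0 : 0 < D := by linarith
  have hsD : 0 < Real.sqrt D := Real.sqrt_pos.2 hD0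
  obtain ⟨Z, hZ⟩ : ∃ Z : ℝ, Z = (20 : ℝ) ^ η * Y ^ (2 * η) := ⟨_, rfl⟩
  have h20 : 1 ≤ (20 : ℝ) ^ η := Real.one_le_rpow (by norm_num) hη.le
  have hY2 : 1 ≤ Y ^ (2 * η) := Real.one_le_rpow hY (by linarith)
  have hY1 : 1 ≤ Y ^ η := Real.one_le_rpow hY hη.le
  have hZ1 : 1 ≤ Z := by
    rw [hZ]
    exact one_le_mul_of_one_le_of_one_le h20 hY2
  have hZD : (2 * D) ^ η ≤ Z := by
    rw [hZ]
    refine (Real.rpow_le_rpow (by positivity) hDY hη.le).trans (le_of_eq ?_)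
    rw [Real.mul_rpow (by norm_num) (by positivity), ← Real.rpow_natCast Y 2, ← Real.rpow_mul hY0.le]
    norm_num
  have hZD' : D ^ η ≤ Z := (Real.rpow_le_rpow hD0.le (by linarith) hη.le).trans hZD
  have hHη : H ^ η ≤ Y ^ η := Real.rpow_le_rpow (by linarith) hHY hη.le
  have hlog : 1 + Real.log Y ≤ (1 + 1 / η) * Y ^ η := by
    have h1 := Real.log_le_rpow_div hY0.le hη
    have h2 : Y ^ η / η = 1 / η * Y ^ η := by ring
    rw [h2] at h1
    nlinarith
  have hlog0 : 0 ≤ 1 + Real.log Y := by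
    have := Real.log_nonneg hY
    linarith
  have hZ3 : Z ^ 3 * Y ^ η = (20 : ℝ) ^ (3 * η) * Y ^ (7 * η) := by
    have e1 : (20 : ℝ) ^ (3 * η) = ((20 : ℝ) ^ η) ^ 3 := by
      rw [← Real.rpow_natCast ((20 : ℝ) ^ η) 3, ← Real.rpow_mul (by norm_num)]
      congr 1
      push_cast
      ring
    have e2 : Y ^ (7 * η) = (Y ^ (2 * η)) ^ 3 * Y ^ η := by
      rw [← Real.rpow_natCast (Y ^ (2 * η)) 3, ← Real.rpow_mul hY0.le, ← Real.rpow_add hY0]
      congr 1
      push_cast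
      ring
    rw [e1, e2, hZ]
    ring
  obtain ⟨R', hR'⟩ : ∃ R' : ℝ, R' = H * Real.sqrt Δ * R := ⟨_, rfl⟩
  have hR'0 : 0 ≤ R' := by
    rw [hR']
    positivity
  have t1 : CS * CD * (D ^ η * H ^ η) * (H * Real.sqrt Δ * R) ≤ CS * CD * (Z ^ 3 * Y ^ η) * R' := by
    rw [hR']
    apply mul_le_mul_of_nonneg_right _ (by positivity)
    apply mul_le_mul_of_nonneg_left _ (by positivity)
    have h1 : Z ≤ Z ^ 3 := le_self_pow₀ hZ1 (by norm_num)
    exact mul_le_mul (hZD'.trans h1) hHη (by positivity) (by positivity)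
  have t2 : CP * (1 + Real.log Y) * (CA * CS * (2 * Real.sqrt D * (2 * D) ^ η) * D ^ η) *
        (CT * (2 * D) ^ η) * (H * Real.sqrt Δ * (R / Real.sqrt D)) ≤
      2 * (CP * CT * CA * CS * (1 + 1 / η)) * (Z ^ 3 * Y ^ η) * R' := by
    have e1 : CP * (1 + Real.log Y) * (CA * CS * (2 * Real.sqrt D * (2 * D) ^ η) * D ^ η) *
        (CT * (2 * D) ^ η) * (H * Real.sqrt Δ * (R / Real.sqrt D)) =
        2 * (CP * CT * CA * CS) * ((1 + Real.log Y) * ((2 * D) ^ η * D ^ η * (2 * D) ^ η)) * R' := by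
      rw [hR']
      field_simp
    rw [e1]
    have e2 : 2 * (CP * CT * CA * CS * (1 + 1 / η)) * (Z ^ 3 * Y ^ η) =
        2 * (CP * CT * CA * CS) * (((1 + 1 / η) * Y ^ η) * (Z * Z * Z)) := by ring
    rw [e2]
    apply mul_le_mul_of_nonneg_right _ hR'0
    apply mul_le_mul_of_nonneg_left _ (by positivity)
    refine mul_le_mul hlog ?_ (by positivity) (by positivity)
    exact mul_le_mul (mul_le_mul hZD hZD' (by positivity) (by positivity)) hZD (by positivity)
      (by positivity)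
  refine (add_le_add t1 t2).trans (le_of_eq ?_)
  rw [hZ3, hR']
  ring

private theorem pb_zero (m d : ℕ) (M : ℝ) (hM : M < 1) : PB m d M 0 := by
  intro K _ _ _ B hB
  have hB0 : B = ∅ := by
    rw [Finset.eq_empty_iff_forall_notMem]
    intro x hx
    obtain ⟨e1, _, e2, _⟩ := hB x hx
    have e3 : ((Ideal.absNorm x.1 : ℕ) : ℝ) < 1 := lt_of_le_of_lt e2 hM
    have e4 : Ideal.absNorm x.1 = 0 := by
      have : Ideal.absNorm x.1 < 1 := by exact_mod_cast e3
      omega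
    exact e1 (Ideal.absNorm_eq_zero_iff.1 e4)
  rw [hB0, Finset.card_empty, Nat.cast_zero]

end BlockS

open BlockS in
theorem wBlockS (h1 : S_Near1) (h2 : S_ClassP) (h3 : S_DivC) (h4 : S_Ampl) (h5 : S_SplitAvg) :
    S_BlockS := by
  intro n l m κ hn hnlm hm hκ0 hκ hT ε hε
  obtain ⟨η, hη, hηε⟩ : ∃ η : ℝ, 0 < η ∧ 8 * η = ε := ⟨ε / 8, by linarith, by ring⟩
  obtain ⟨CP, hCP1, hP⟩ := h2 n l m (by omega) hnlm
  obtain ⟨CD, hCD, hDv⟩ := h3 η hη
  obtain ⟨CA, hCA, hAm⟩ := h4 m (by omega) η hη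
  obtain ⟨CS, hCS, hSp⟩ := h5 η hη
  obtain ⟨CT, hCT, hTB⟩ := hT η hη
  have hCP : 0 < CP := by linarith
  refine ⟨CD * 2 ^ (m + 2) * CP + (4 * 2 ^ (m + 2) * CP) *
    ((CS * CD + 2 * (CP * CT * CA * CS * (1 + 1 / η))) * (20 : ℝ) ^ (3 * η)), by positivity, ?_⟩
  intro D Y δ H Δ S hD hY hH hHY hδ hδ1 h100 hYH hS
  have hY0 : 0 < Y := by linarith
  have hH0 : 0 < H := by linarith
  have hm0 : m ≠ 0 := by omega
  have hDR : (1 : ℝ) ≤ D := by exact_mod_cast hD
  have hDR0 : (0 : ℝ) < D := by linarith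
  rcases S.eq_empty_or_nonempty with hSe | hSne
  · rw [hSe, Finset.card_empty, Nat.cast_zero]
    positivity
  obtain ⟨w, hw⟩ : ∃ w : ℝ, w = Y * δ / H ^ (n - 1) := ⟨_, rfl⟩
  have hw0 : 0 < w := by
    rw [hw]
    positivity
  have hw1 : w ≤ 1 := by
    rw [hw]
    exact (div_le_one (by positivity)).2 hYH
  obtain ⟨M, hM⟩ : ∃ M : ℝ, M = CP * (Y * δ / H ^ (n - 2)) := ⟨_, rfl⟩
  have hMw : M = CP * (H * w) := by
    rw [hM, hw]
    have e : H ^ (n - 1) = H ^ (n - 2) * H := by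
      rw [← pow_succ]
      congr 1
      omega
    rw [e]
    field_simp
  have hM0 : 0 < M := by
    rw [hMw]
    positivity
  rw [← hw]
  have hwκ : w ≤ w ^ κ := by
    have hκ1 : κ ≤ 1 := by
      have e1 : (1 : ℝ) ≤ m := by exact_mod_cast (by omega : 1 ≤ m)
      exact hκ.trans ((div_le_one (by linarith)).2 e1)
    have := Real.rpow_le_rpow_of_exponent_ge hw0 hw1 hκ1
    rwa [Real.rpow_one] at this
  have hwκ0 : 0 < w ^ κ := Real.rpow_pos_of_pos hw0 _
  -- positivity of the discriminants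
  have hdisc : ∀ q ∈ S, 0 < q.disc := by
    intro q hq
    obtain ⟨_, ξ, x, hN⟩ := hS q hq
    obtain ⟨hG, hht, _, _, _, h0, h1', hNr, hL⟩ := hN
    exact h1.1 n Y δ H ξ q x (by omega) hδ h100 hG hht h0 h1' hNr hL
  obtain ⟨q0, hq0⟩ := hSne
  have hΔ0 : 0 < Δ := by
    obtain ⟨_, ξ0, x0, hN0⟩ := hS q0 hq0
    have e1 : (0 : ℝ) < (q0.disc : ℝ) := by exact_mod_cast hdisc q0 hq0
    linarith [hN0.2.2.2.2.1]
  have hDle : (D : ℝ) ≤ 10 * H ^ 2 := by
    obtain ⟨⟨d0, f0, hd0s, hd02, hDd0, hd0D, hd0e⟩, ξ0, x0, hN0⟩ := hS q0 hq0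
    have e0 : Δ ≤ 5 * H ^ 2 := hN0.2.2.2.1.trans (disc_le q0 H hN0.2.1)
    have e1 : (d0 : ℤ) ≤ q0.disc := by
      have e2 := hdisc q0 hq0
      rw [hd0e] at e2 ⊢
      have e3 : (0 : ℤ) < (f0 : ℤ) ^ 2 := by
        rcases Nat.eq_zero_or_pos f0 with h | h
        · rw [h] at e2
          simp at e2
        · positivity
      have e4 : (0 : ℤ) ≤ (d0 : ℤ) := by positivity
      nlinarith
    have e2 : ((d0 : ℤ) : ℝ) ≤ (q0.disc : ℝ) := by exact_mod_cast e1
    have e3 : (D : ℝ) ≤ ((d0 : ℤ) : ℝ) := by exact_mod_cast hDd0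
    linarith [hN0.2.2.2.2.1]
  have hsD : 0 < Real.sqrt D := Real.sqrt_pos.2 hDR0
  have hsD4 : Real.sqrt D ≤ 4 * H := by
    rw [Real.sqrt_le_left (by positivity)]
    nlinarith
  have hDY : 2 * (D : ℝ) ≤ 20 * Y ^ 2 := by
    have e2 : H ^ 2 ≤ Y ^ 2 := pow_le_pow_left₀ hH0.le hHY 2
    linarith
  have hDsq : (D : ℝ) = Real.sqrt D * Real.sqrt D := (Real.mul_self_sqrt hDR0.le).symm
  have hsΔD : Real.sqrt (Δ / D) = Real.sqrt Δ / Real.sqrt D := Real.sqrt_div hΔ0.le _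
  have hsΔ : 0 ≤ Real.sqrt Δ := Real.sqrt_nonneg _
  have hHη1 : H ^ (1 + η) = H * H ^ η := by
    rw [Real.rpow_add hH0, Real.rpow_one]
  have hHη : H ^ η ≤ Y ^ η := Real.rpow_le_rpow hH0.le hHY hη.le
  have hYη : Y ^ η ≤ Y ^ ε := Real.rpow_le_rpow_of_exponent_le hY (by linarith)
  have hY7 : Y ^ (7 * η) ≤ Y ^ ε := Real.rpow_le_rpow_of_exponent_le hY (by linarith)
  classical
  let g : Qd → ℕ := fun q => if h : q ∈ S then (hS q h).1.choose else 0
  have hg : ∀ q ∈ S, ∃ f : ℕ, Squarefree (g q) ∧ 2 ≤ g q ∧ D ≤ g q ∧ g q < 2 * D ∧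
      q.disc = (f : ℤ) ^ 2 * (g q : ℤ) := by
    intro q hq
    have e : g q = (hS q hq).1.choose := by
      simp only [g]
      rw [dif_pos hq]
    rw [e]
    exact (hS q hq).1.choose_spec
  have hmaps : ∀ q ∈ S, g q ∈ Finset.Ico D (2 * D) := by
    intro q hq
    obtain ⟨f, _, _, e3, e4, _⟩ := hg q hq
    rw [Finset.mem_Ico]
    exact ⟨e3, e4⟩
  have hcard : (S.card : ℝ) =
      ∑ d ∈ Finset.Ico D (2 * D), ((S.filter fun q => g q = d).card : ℝ) := by
    rw [Finset.card_eq_sum_card_fiberwise hmaps]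
    push_cast
    rfl
  -- the divisor bound
  have hdiv : ∀ d ∈ Finset.Ico D (2 * D), ((S.filter fun q => g q = d).card : ℝ) ≤
      CD * (H ^ (1 + η) * Real.sqrt (Δ / D)) := by
    intro d hd
    rcases (S.filter fun q => g q = d).eq_empty_or_nonempty with he | hne
    · rw [he, Finset.card_empty, Nat.cast_zero]
      positivity
    · obtain ⟨q, hq⟩ := hne
      obtain ⟨hqS, hqd⟩ := Finset.mem_filter.1 hq
      obtain ⟨_, _, e2, _, _, _⟩ := hg q hqS
      rw [hqd] at e2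
      have e3 := hDv d H Δ (S.filter fun q => g q = d) e2 hH (by
        intro q' hq'
        obtain ⟨hq'S, hq'd⟩ := Finset.mem_filter.1 hq'
        obtain ⟨f, _, _, _, _, e3⟩ := hg q' hq'S
        obtain ⟨_, ξ, x, hN⟩ := hS q' hq'S
        rw [hq'd] at e3
        exact ⟨hN.1, hN.2.1, hdisc q' hq'S, hN.2.2.2.2.1, f, e3⟩)
      refine e3.trans ?_
      have e4 : (D : ℝ) ≤ d := by exact_mod_cast (Finset.mem_Ico.1 hd).1
      have e5 : Real.sqrt (Δ / d) ≤ Real.sqrt (Δ / D) :=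
        Real.sqrt_le_sqrt (div_le_div_of_nonneg_left hΔ0.le hDR0 e4)
      exact mul_le_mul_of_nonneg_left (mul_le_mul_of_nonneg_left e5 (by positivity)) hCD.le
  rcases le_or_gt (Real.sqrt D) (2 ^ (m + 2) * M) with hc | hc
  · -- large `M`
    have e1 : (S.card : ℝ) ≤ D * (CD * (H ^ (1 + η) * Real.sqrt (Δ / D))) := by
      rw [hcard]
      refine (Finset.sum_le_card_nsmul _ _ _ hdiv).trans (le_of_eq ?_)
      rw [Nat.card_Ico, nsmul_eq_mul]
      congr 2
      omega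
    have e2 : (D : ℝ) * (CD * (H ^ (1 + η) * Real.sqrt (Δ / D))) =
        CD * (H * H ^ η) * Real.sqrt Δ * Real.sqrt D := by
      rw [hsΔD, hHη1]
      nth_rewrite 1 [hDsq]
      field_simp
    rw [e2] at e1
    have e3 : CD * (H * H ^ η) * Real.sqrt Δ * Real.sqrt D ≤
        CD * (H * Y ^ ε) * Real.sqrt Δ * (2 ^ (m + 2) * (CP * (H * w ^ κ))) := by
      refine mul_le_mul ?_ ?_ hsD.le (by positivity)
      · apply mul_le_mul_of_nonneg_right _ hsΔ
        apply mul_le_mul_of_nonneg_left _ hCD.le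
        exact mul_le_mul_of_nonneg_left (hHη.trans hYη) hH0.le
      · refine hc.trans ?_
        rw [hMw]
        apply mul_le_mul_of_nonneg_left _ (by positivity)
        apply mul_le_mul_of_nonneg_left _ hCP.le
        exact mul_le_mul_of_nonneg_left hwκ hH0.le
    refine (e1.trans e3).trans ?_
    have e4 : CD * (H * Y ^ ε) * Real.sqrt Δ * (2 ^ (m + 2) * (CP * (H * w ^ κ))) =
        (CD * 2 ^ (m + 2) * CP) * Y ^ ε * (H ^ 2 * Real.sqrt Δ * w ^ κ) := by ring
    rw [e4]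
    apply mul_le_mul_of_nonneg_right _ (by positivity)
    apply mul_le_mul_of_nonneg_right _ (by positivity)
    have : 0 ≤ (4 * 2 ^ (m + 2) * CP) *
      ((CS * CD + 2 * (CP * CT * CA * CS * (1 + 1 / η))) * (20 : ℝ) ^ (3 * η)) := by positivity
    linarith
  · obtain ⟨N, hN, hsum⟩ := hTB (2 * D) (by omega)
    rcases lt_or_ge M 1 with hM1 | hM1
    · -- `M < 1`: there are no polynomials
      exfalso
      obtain ⟨_, f, e1, e2, e3, e4, e5⟩ : ∃ _ : Unit, ∃ f : ℕ, Squarefree (g q0) ∧ 2 ≤ g q0 ∧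
          D ≤ g q0 ∧ g q0 < 2 * D ∧ q0.disc = (f : ℤ) ^ 2 * (g q0 : ℤ) := ⟨(), hg q0 hq0⟩
      have e6 := hP (g q0) (N (g q0)) 0 e1 e2 (hN _ e1 e2 (by omega)) Y δ H Δ {q0} hY hH hδ hδ1 h100
        (by
          rw [← hM]
          exact pb_zero m _ M hM1) (by
          intro q hq
          rw [Finset.mem_singleton] at hq
          rw [hq]
          exact ⟨⟨f, e5⟩, (hS q0 hq0).2⟩)
      rw [Finset.card_singleton, Nat.cast_one, mul_zero, zero_mul] at e6
      linarith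
    · -- the main case
      have hu1 : (1 : ℝ) ≤ 2 ^ (m + 2) * M :=
        one_le_mul_of_one_le_of_one_le (one_le_pow₀ (by norm_num)) hM1
      have hu0 : (0 : ℝ) < 2 ^ (m + 2) * M := by linarith
      obtain ⟨P, hPdef⟩ : ∃ P : ℝ, P = (Real.sqrt D / (2 ^ (m + 2) * M)) ^ ((m : ℝ)⁻¹) := ⟨_, rfl⟩
      have hPm : P ^ m = Real.sqrt D / (2 ^ (m + 2) * M) := by
        rw [hPdef]
        exact Real.rpow_inv_natCast_pow (by positivity) hm0
      have hP1 : 1 ≤ P := by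
        rw [hPdef]
        exact Real.one_le_rpow ((one_le_div hu0).2 hc.le) (by positivity)
      have hP0 : 0 < P := by linarith
      have hP3 : P ^ 3 ≤ D := by
        have e1 : P ^ 2 ≤ P ^ m := pow_le_pow_right₀ hP1 hm
        have e2 : P ^ m ≤ Real.sqrt D := by
          rw [hPm]
          exact div_le_self hsD.le hu1
        have e3 : P ^ 2 ≤ Real.sqrt D := e1.trans e2
        have e4 : P ^ 2 * P ^ 2 ≤ Real.sqrt D * Real.sqrt D :=
          mul_le_mul e3 e3 (by positivity) hsD.le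
        rw [← hDsq] at e4
        have e5 : P ^ 3 ≤ P ^ 4 := pow_le_pow_right₀ hP1 (by norm_num)
        have e6 : P ^ 4 = P ^ 2 * P ^ 2 := by ring
        linarith
      obtain ⟨E, hE⟩ : ∃ E : Finset ℕ, E = (Finset.Ico D (2 * D)).filter (fun d => ∀ A : Finset ℕ,
          (∀ p ∈ A, SplN d P p) → CS * (D : ℝ) ^ η * (1 + (A.card : ℝ)) < P) := ⟨_, rfl⟩
      have hEcard : (E.card : ℝ) ≤ CS * ((D : ℝ) ^ (1 + η) / P) := by
        refine hSp D P E hD hP1 hP3 fun d hd => ?_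
        rw [hE, Finset.mem_filter, Finset.mem_Ico] at hd
        exact ⟨hd.1.1, hd.1.2, hd.2⟩
      obtain ⟨T, hT'⟩ : ∃ T : ℝ, T = CA * CS * (2 * Real.sqrt D * (2 * (D : ℝ)) ^ η) *
          (D : ℝ) ^ η / P := ⟨_, rfl⟩
      have hT0 : 0 ≤ T := by
        rw [hT']
        positivity
      have h2D : (2 * (D : ℝ)) ^ (1 / 2 + η) ≤ 2 * Real.sqrt D * (2 * (D : ℝ)) ^ η := by
        rw [Real.rpow_add (by positivity), ← Real.sqrt_eq_rpow]
        apply mul_le_mul_of_nonneg_right _ (by positivity)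
        rw [Real.sqrt_le_left (by positivity), mul_pow, Real.sq_sqrt hDR0.le]
        nlinarith
      have hPB : ∀ d ∈ Finset.Ico D (2 * D), d ∉ E → Squarefree d → 2 ≤ d → PB m d M T := by
        intro d hd hdE hsq hd2
        obtain ⟨hd3, hd4⟩ := Finset.mem_Ico.1 hd
        have hex : ∃ A : Finset ℕ, (∀ p ∈ A, SplN d P p) ∧
            P ≤ CS * (D : ℝ) ^ η * (1 + (A.card : ℝ)) := by
          by_contra hno
          apply hdE
          rw [hE, Finset.mem_filter]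
          refine ⟨hd, fun A hA => ?_⟩
          by_contra hlt
          exact hno ⟨A, hA, not_lt.1 hlt⟩
        obtain ⟨A, hA, hPA⟩ := hex
        intro K _ _ Q B hB
        have hDd : (D : ℝ) ≤ d := by exact_mod_cast hd3
        have hd2D : (d : ℝ) ≤ 2 * D := by exact_mod_cast hd4.le
        have e1 : 2 ^ (m + 1) * (M * P ^ m) < Real.sqrt d := by
          have e2 : 2 ^ (m + 1) * (M * P ^ m) = Real.sqrt D / 2 := by
            rw [hPm, pow_succ 2 (m + 1)]
            field_simp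
          rw [e2]
          have e3 : Real.sqrt D ≤ Real.sqrt d := Real.sqrt_le_sqrt hDd
          linarith
        have e2 := hAm d K Q hsq hd2 M P A B hP1 e1 hA hB
        have e3 : (d : ℝ) ^ (1 / 2 + η) ≤ 2 * Real.sqrt D * (2 * (D : ℝ)) ^ η :=
          (Real.rpow_le_rpow (by positivity) hd2D (by positivity)).trans h2D
        rw [hT', le_div_iff₀ hP0]
        calc (B.card : ℝ) * P ≤ (B.card : ℝ) * (CS * (D : ℝ) ^ η * (1 + (A.card : ℝ))) :=
              mul_le_mul_of_nonneg_left hPA (Nat.cast_nonneg _)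
          _ = CS * (D : ℝ) ^ η * ((B.card : ℝ) * (1 + (A.card : ℝ))) := by ring
          _ ≤ CS * (D : ℝ) ^ η * (CA * (d : ℝ) ^ (1 / 2 + η)) :=
              mul_le_mul_of_nonneg_left e2 (by positivity)
          _ ≤ CS * (D : ℝ) ^ η * (CA * (2 * Real.sqrt D * (2 * (D : ℝ)) ^ η)) := by
              apply mul_le_mul_of_nonneg_left _ (by positivity)
              exact mul_le_mul_of_nonneg_left e3 hCA.le
          _ = CA * CS * (2 * Real.sqrt D * (2 * (D : ℝ)) ^ η) * (D : ℝ) ^ η := by ring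
      have hlog0 : 0 ≤ 1 + Real.log Y := by
        have := Real.log_nonneg hY
        linarith
      obtain ⟨G, hG⟩ : ∃ G : ℝ, G = CP * (1 + Real.log Y) * T * (H * Real.sqrt Δ) := ⟨_, rfl⟩
      have hG0 : 0 ≤ G := by
        rw [hG]
        positivity
      have hterm : ∀ d ∈ Finset.Ico D (2 * D), d ∉ E →
          ((S.filter fun q => g q = d).card : ℝ) ≤ G * ((N d : ℝ) / (d : ℝ)) := by
        intro d hd hdE
        rcases (S.filter fun q => g q = d).eq_empty_or_nonempty with he | hne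
        · rw [he, Finset.card_empty, Nat.cast_zero]
          positivity
        · obtain ⟨q, hq⟩ := hne
          obtain ⟨hqS, hqd⟩ := Finset.mem_filter.1 hq
          obtain ⟨_, e1, e2, _, e3, _⟩ := hg q hqS
          rw [hqd] at e1 e2 e3
          have e4 := hP d (N d) T e1 e2 (hN d e1 e2 e3.le) Y δ H Δ
            (S.filter fun q => g q = d) hY hH hδ hδ1 h100 (by
              rw [← hM]
              exact hPB d hd hdE e1 e2) (by
              intro q' hq'
              obtain ⟨hq'S, hq'd⟩ := Finset.mem_filter.1 hq'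
              obtain ⟨f, _, _, _, _, e5⟩ := hg q' hq'S
              rw [hq'd] at e5
              exact ⟨⟨f, e5⟩, (hS q' hq'S).2⟩)
          refine e4.trans (le_of_eq ?_)
          rw [hG]
          ring
      have hsplit := Finset.sum_filter_add_sum_filter_not (Finset.Ico D (2 * D)) (fun d => d ∈ E)
        (fun d => ((S.filter fun q => g q = d).card : ℝ))
      have hEsub : (Finset.Ico D (2 * D)).filter (fun d => d ∈ E) = E := by
        ext d
        rw [Finset.mem_filter]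
        refine ⟨fun h => h.2, fun h => ⟨?_, h⟩⟩
        rw [hE, Finset.mem_filter] at h
        exact h.1
      have p1 : ∑ d ∈ (Finset.Ico D (2 * D)).filter (fun d => d ∈ E),
          ((S.filter fun q => g q = d).card : ℝ) ≤
          CS * ((D : ℝ) ^ (1 + η) / P) * (CD * (H ^ (1 + η) * Real.sqrt (Δ / D))) := by
        rw [hEsub]
        have e1 : ∀ d ∈ E, ((S.filter fun q => g q = d).card : ℝ) ≤
            CD * (H ^ (1 + η) * Real.sqrt (Δ / D)) := by
          intro d hd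
          rw [← hEsub, Finset.mem_filter] at hd
          exact hdiv d hd.1
        refine (Finset.sum_le_card_nsmul _ _ _ e1).trans ?_
        rw [nsmul_eq_mul]
        exact mul_le_mul_of_nonneg_right hEcard (by positivity)
      have p2 : ∑ d ∈ (Finset.Ico D (2 * D)).filter (fun d => ¬ d ∈ E),
          ((S.filter fun q => g q = d).card : ℝ) ≤ G * (CT * ((2 * D : ℕ) : ℝ) ^ η) := by
        calc ∑ d ∈ (Finset.Ico D (2 * D)).filter (fun d => ¬ d ∈ E),
              ((S.filter fun q => g q = d).card : ℝ)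
            ≤ ∑ d ∈ (Finset.Ico D (2 * D)).filter (fun d => ¬ d ∈ E),
              G * ((N d : ℝ) / (d : ℝ)) := by
              refine Finset.sum_le_sum fun d hd => ?_
              obtain ⟨hd1, hd2⟩ := Finset.mem_filter.1 hd
              exact hterm d hd1 hd2
          _ ≤ ∑ d ∈ Finset.Icc 1 (2 * D), G * ((N d : ℝ) / (d : ℝ)) := by
              refine Finset.sum_le_sum_of_subset_of_nonneg ?_ fun d _ _ => by positivity
              intro d hd
              obtain ⟨hd1, hd2⟩ := Finset.mem_filter.1 hd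
              obtain ⟨hd3, hd4⟩ := Finset.mem_Ico.1 hd1
              rw [Finset.mem_Icc]
              omega
          _ = G * ∑ d ∈ Finset.Icc 1 (2 * D), (N d : ℝ) / (d : ℝ) := by rw [Finset.mul_sum]
          _ ≤ G * (CT * ((2 * D : ℕ) : ℝ) ^ η) := mul_le_mul_of_nonneg_left hsum hG0
      obtain ⟨R, hR⟩ : ∃ R : ℝ, R = Real.sqrt D / P := ⟨_, rfl⟩
      have hR0 : 0 ≤ R := by
        rw [hR]
        positivity
      have q1 : CS * ((D : ℝ) ^ (1 + η) / P) * (CD * (H ^ (1 + η) * Real.sqrt (Δ / D))) =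
          CS * CD * ((D : ℝ) ^ η * H ^ η) * (H * Real.sqrt Δ * R) := by
        rw [hsΔD, hHη1, Real.rpow_add hDR0, Real.rpow_one, hR]
        have e1 : (D : ℝ) * (D : ℝ) ^ η = Real.sqrt D * Real.sqrt D * (D : ℝ) ^ η := by
          rw [← hDsq]
        rw [e1]
        field_simp
      have q2 : G * (CT * ((2 * D : ℕ) : ℝ) ^ η) =
          CP * (1 + Real.log Y) * (CA * CS * (2 * Real.sqrt D * (2 * (D : ℝ)) ^ η) * (D : ℝ) ^ η) *
            (CT * (2 * (D : ℝ)) ^ η) * (H * Real.sqrt Δ * (R / Real.sqrt D)) := by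
        rw [hG, hT', hR]
        push_cast
        field_simp
      have q3 := fin_bd CS CD CP CT CA η D Y H Δ R hCS hCD hCP hCT hCA hη hDR hDY hY hH hHY hR0
      have q4 : (S.card : ℝ) ≤ ((CS * CD + 2 * (CP * CT * CA * CS * (1 + 1 / η))) *
          (20 : ℝ) ^ (3 * η)) * Y ^ (7 * η) * (H * Real.sqrt Δ * R) := by
        rw [hcard, ← hsplit]
        refine (add_le_add p1 p2).trans ?_
        rw [q1, q2]
        exact q3
      have q5 : R ≤ 4 * 2 ^ (m + 2) * CP * H * w ^ κ := by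
        rw [hR]
        refine root_bd m hm CP H w (Real.sqrt D) P κ hCP1 hH0 hw0 hw1 hsD hsD4 hP0 ?_ hκ
        rw [hPm, hMw]
      refine q4.trans ?_
      obtain ⟨K2, hK2⟩ : ∃ K2 : ℝ, K2 = (CS * CD + 2 * (CP * CT * CA * CS * (1 + 1 / η))) *
          (20 : ℝ) ^ (3 * η) := ⟨_, rfl⟩
      have hK20 : 0 ≤ K2 := by
        rw [hK2]
        positivity
      rw [← hK2]
      calc K2 * Y ^ (7 * η) * (H * Real.sqrt Δ * R)
          ≤ K2 * Y ^ ε * (H * Real.sqrt Δ * (4 * 2 ^ (m + 2) * CP * H * w ^ κ)) := by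
            refine mul_le_mul ?_ ?_ (by positivity) (by positivity)
            · exact mul_le_mul_of_nonneg_left hY7 hK20
            · exact mul_le_mul_of_nonneg_left q5 (by positivity)
        _ = (4 * 2 ^ (m + 2) * CP * K2) * Y ^ ε * (H ^ 2 * Real.sqrt Δ * w ^ κ) := by ring
        _ ≤ (CD * 2 ^ (m + 2) * CP + 4 * 2 ^ (m + 2) * CP * K2) * Y ^ ε *
              (H ^ 2 * Real.sqrt Δ * w ^ κ) := by
            apply mul_le_mul_of_nonneg_right _ (by positivity)
            apply mul_le_mul_of_nonneg_right _ (by positivity)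
            have : 0 ≤ CD * 2 ^ (m + 2) * CP := by positivity
            linarith

end Pool.Agent.MP211W
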