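import Pool.Agent.Lib.MP_211f72_nt.W.SpecE

/-!
# MP_211f72_nt, third theorem: second moment of Legendre symbols (`CharS`)
-/

namespace Pool.Agent.MP211W

open Polynomial NumberField

namespace CharS

/-- the Legendre symbol as a real number -/
noncomputable def X (p d : ℕ) : ℝ := ((jacobiSym (d : ℤ) p : ℤ) : ℝ)

theorem X_eq (p d : ℕ) [Fact p.Prime] :
    X p d = ((quadraticChar (ZMod p) (d : ZMod p) : ℤ) : ℝ) := by
  unfold X
  rw [← jacobiSym.legendreSym.to_jacobiSym, legendreSym]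
  simp

theorem X_abs (p d : ℕ) : |X p d| ≤ 1 := by
  unfold X
  rcases jacobiSym.trichotomy (d : ℤ) p with h | h | h <;> rw [h] <;> simp

theorem sum_range_shift (N : ℕ) [NeZero N] (G : ZMod N → ℝ) (c : ℕ) :
    ∑ i ∈ Finset.range N, G ((c + i : ℕ) : ZMod N) = ∑ z : ZMod N, G z := by
  apply Finset.sum_nbij (fun i => ((c + i : ℕ) : ZMod N))
  · intro i _
    exact Finset.mem_univ _
  · intro i hi j hj hij
    simp only [Finset.coe_range, Set.mem_Iio] at hi hj
    simp only at hij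
    rw [ZMod.natCast_eq_natCast_iff] at hij
    have h2 : i ≡ j [MOD N] := Nat.ModEq.add_left_cancel' c hij
    exact Nat.ModEq.eq_of_lt_of_lt h2 hi hj
  · intro z _
    refine ⟨(z - (c : ZMod N)).val, ?_, ?_⟩
    · simp only [Finset.coe_range, Set.mem_Iio]
      exact ZMod.val_lt _
    · simp
  · intro i _
    rfl

theorem period_zero (p q : ℕ) (hp : p.Prime) (hq : q.Prime) (hp2 : p ≠ 2) (hpq : p ≠ q) (c : ℕ) :
    ∑ i ∈ Finset.range (p * q), X p (c + i) * X q (c + i) = 0 := by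
  haveI := Fact.mk hp
  haveI := Fact.mk hq
  haveI : NeZero (p * q) := ⟨mul_ne_zero hp.ne_zero hq.ne_zero⟩
  have hco : Nat.Coprime p q := (Nat.coprime_primes hp hq).mpr hpq
  let e := ZMod.chineseRemainder hco
  have h1 : ∀ i, X p (c + i) * X q (c + i) =
      (fun z : ZMod (p * q) => ((quadraticChar (ZMod p) (e z).1 : ℤ) : ℝ) *
        ((quadraticChar (ZMod q) (e z).2 : ℤ) : ℝ)) ((c + i : ℕ) : ZMod (p * q)) := by
    intro i
    simp only
    rw [X_eq, X_eq, map_natCast e]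
    simp
  have h0 := sum_range_shift (p * q) (fun z : ZMod (p * q) =>
    ((quadraticChar (ZMod p) (e z).1 : ℤ) : ℝ) * ((quadraticChar (ZMod q) (e z).2 : ℤ) : ℝ)) c
  rw [Finset.sum_congr rfl (fun i _ => h1 i)]
  refine h0.trans ?_
  rw [← Equiv.sum_comp e.symm.toEquiv]
  have h2 : ∀ w : ZMod p × ZMod q, (e (e.symm.toEquiv w)) = w := by
    intro w
    exact e.apply_symm_apply w
  simp only [h2]
  rw [Fintype.sum_prod_type]
  have h3 : ∑ a : ZMod p, ((quadraticChar (ZMod p) a : ℤ) : ℝ) = 0 := by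
    have hchar : ringChar (ZMod p) ≠ 2 := by
      rw [ZMod.ringChar_zmod_n]
      exact hp2
    have := quadraticChar_sum_zero hchar
    exact_mod_cast this
  simp only [← Finset.mul_sum, ← Finset.sum_mul]
  rw [h3, zero_mul]

theorem interval_bound (F : ℕ → ℝ) (N : ℕ) (hN : 0 < N) (hF : ∀ i, |F i| ≤ 1)
    (h0 : ∀ c, ∑ i ∈ Finset.range N, F (c + i) = 0) (L : ℕ) :
    ∀ c, |∑ i ∈ Finset.range L, F (c + i)| ≤ N := by
  induction L using Nat.strong_induction_on with
  | _ L ih =>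
    intro c
    rcases lt_or_ge L N with h | h
    · calc |∑ i ∈ Finset.range L, F (c + i)| ≤ ∑ i ∈ Finset.range L, |F (c + i)| :=
            Finset.abs_sum_le_sum_abs _ _
        _ ≤ ∑ _i ∈ Finset.range L, (1 : ℝ) := Finset.sum_le_sum (fun i _ => hF _)
        _ = (L : ℝ) := by simp
        _ ≤ N := by exact_mod_cast h.le
    · obtain ⟨M, rfl⟩ := Nat.exists_eq_add_of_le h
      rw [Finset.sum_range_add, h0 c, zero_add]
      have := ih M (by omega) (c + N)
      simpa [add_assoc] using this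

theorem pair_bound (p q : ℕ) (hp : p.Prime) (hq : q.Prime) (hp2 : p ≠ 2) (hpq : p ≠ q) (D : ℕ) :
    |∑ d ∈ Finset.Ico D (2 * D), X p d * X q d| ≤ (p * q : ℕ) := by
  have h1 : ∑ d ∈ Finset.Ico D (2 * D), X p d * X q d =
      ∑ i ∈ Finset.range D, X p (D + i) * X q (D + i) := by
    rw [Finset.sum_Ico_eq_sum_range]
    congr 2
    omega
  rw [h1]
  apply interval_bound (fun i => X p i * X q i) (p * q) (Nat.mul_pos hp.pos hq.pos) ?_
    (period_zero p q hp hq hp2 hpq)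
  intro i
  rw [abs_mul]
  exact mul_le_one₀ (X_abs p i) (abs_nonneg _) (X_abs q i)

theorem second_moment (D : ℕ) (P : ℝ) (A : Finset ℕ) (hP : 1 ≤ P)
    (hA : ∀ p ∈ A, p.Prime ∧ p ≠ 2 ∧ (p : ℝ) ≤ P) :
    ∑ d ∈ Finset.Ico D (2 * D), (∑ p ∈ A, X p d) ^ 2 ≤
      (A.card : ℝ) * D + (A.card : ℝ) ^ 2 * P ^ 2 := by
  classical
  have h1 : ∀ d, (∑ p ∈ A, X p d) ^ 2 = ∑ p ∈ A, ∑ q ∈ A, X p d * X q d := by
    intro d
    rw [sq, Finset.sum_mul_sum]
  simp only [h1]
  rw [Finset.sum_comm]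
  have h2 : ∀ p ∈ A, ∑ d ∈ Finset.Ico D (2 * D), ∑ q ∈ A, X p d * X q d ≤
      (D : ℝ) + A.card * P ^ 2 := by
    intro p hp
    rw [Finset.sum_comm]
    have h3 : ∀ q ∈ A, ∑ d ∈ Finset.Ico D (2 * D), X p d * X q d ≤
        (if q = p then (D : ℝ) else 0) + P ^ 2 := by
      intro q hq
      obtain ⟨a1, a2, a3⟩ := hA p hp
      obtain ⟨b1, b2, b3⟩ := hA q hq
      by_cases hqp : q = p
      · subst hqp
        rw [if_pos rfl]
        have : ∑ d ∈ Finset.Ico D (2 * D), X q d * X q d ≤ ∑ _d ∈ Finset.Ico D (2 * D), (1 : ℝ) := by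
          apply Finset.sum_le_sum
          intro d _
          have := X_abs q d
          have h5 := abs_le.mp this
          nlinarith
        rw [Finset.sum_const, Nat.card_Ico, nsmul_eq_mul, mul_one] at this
        have h6 : ((2 * D - D : ℕ) : ℝ) = D := by
          congr 1
          omega
        rw [h6] at this
        nlinarith
      · rw [if_neg hqp, zero_add]
        have h7 := pair_bound p q a1 b1 a2 (fun h => hqp h.symm) D
        refine (le_abs_self _).trans (h7.trans ?_)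
        push_cast
        rw [sq]
        exact mul_le_mul a3 b3 (Nat.cast_nonneg _) (by linarith)
    calc ∑ q ∈ A, ∑ d ∈ Finset.Ico D (2 * D), X p d * X q d
        ≤ ∑ q ∈ A, ((if q = p then (D : ℝ) else 0) + P ^ 2) := Finset.sum_le_sum h3
      _ = (D : ℝ) + A.card * P ^ 2 := by
          rw [Finset.sum_add_distrib, Finset.sum_ite_eq' A p, if_pos hp, Finset.sum_const,
            nsmul_eq_mul]
  calc ∑ p ∈ A, ∑ d ∈ Finset.Ico D (2 * D), ∑ q ∈ A, X p d * X q d
      ≤ ∑ _p ∈ A, ((D : ℝ) + A.card * P ^ 2) := Finset.sum_le_sum h2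
    _ = (A.card : ℝ) * D + (A.card : ℝ) ^ 2 * P ^ 2 := by
        rw [Finset.sum_const, nsmul_eq_mul]
        ring

theorem two_pow_le (d : ℕ) (hd : 0 < d) (B : Finset ℕ) (hB : ∀ p ∈ B, p.Prime ∧ p ∣ d) :
    2 ^ B.card ≤ d := by
  have h1 : ∏ p ∈ B, p ∣ d :=
    Finset.prod_primes_dvd d (fun p hp => (hB p hp).1.prime) (fun p hp => (hB p hp).2)
  refine le_trans ?_ (Nat.le_of_dvd hd h1)
  calc 2 ^ B.card = ∏ _p ∈ B, 2 := by simp
    _ ≤ ∏ p ∈ B, p := Finset.prod_le_prod' (fun p hp => (hB p hp).1.two_le)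

theorem f_le (D d : ℕ) (P : ℝ) (A : Finset ℕ) (hD : 1 ≤ D)
    (hA : ∀ p ∈ A, p.Prime ∧ p ≠ 2 ∧ (p : ℝ) ≤ P) (hlog : 4 * Real.logb 2 (2 * D) ≤ A.card)
    (h1 : D ≤ d) (h2 : d < 2 * D)
    (h3 : ∀ A₁ : Finset ℕ, A₁ ⊆ A → (∀ p ∈ A₁, SplN d P p) → 8 * A₁.card ≤ A.card) :
    ∑ p ∈ A, X p d ≤ -((A.card : ℝ) / 2) := by
  classical
  have hX : ∀ p ∈ A, X p d = 2 * (if X p d = 1 then (1 : ℝ) else 0) +
      (if X p d = 0 then (1 : ℝ) else 0) - 1 := by
    intro p _
    unfold X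
    rcases jacobiSym.trichotomy (d : ℤ) p with h | h | h <;> rw [h] <;> norm_num
  rw [Finset.sum_congr rfl hX, Finset.sum_sub_distrib, Finset.sum_add_distrib, ← Finset.mul_sum,
    ← Finset.sum_filter, ← Finset.sum_filter]
  simp only [Finset.sum_const, nsmul_eq_mul, mul_one]
  set Ap := A.filter (fun p => X p d = 1) with hAp
  set A0 := A.filter (fun p => X p d = 0) with hA0
  have c1 : 8 * Ap.card ≤ A.card := by
    apply h3 Ap (Finset.filter_subset _ _)
    intro p hp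
    rw [hAp, Finset.mem_filter] at hp
    obtain ⟨a1, a2, a3⟩ := hA p hp.1
    haveI := Fact.mk a1
    have h4 := hp.2
    rw [X_eq] at h4
    have h5 : quadraticChar (ZMod p) (d : ZMod p) = 1 := by exact_mod_cast h4
    have h6 : (d : ZMod p) ≠ 0 := by
      intro h0
      rw [h0, MulChar.map_zero] at h5
      exact zero_ne_one h5
    refine ⟨a1, a2, a3, ?_, (quadraticChar_one_iff_isSquare h6).mp h5⟩
    intro hdv
    exact h6 ((ZMod.natCast_eq_zero_iff d p).mpr hdv)
  have c2 : ∀ p ∈ A0, p.Prime ∧ p ∣ d := by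
    intro p hp
    rw [hA0, Finset.mem_filter] at hp
    obtain ⟨a1, a2, a3⟩ := hA p hp.1
    haveI := Fact.mk a1
    have h4 := hp.2
    rw [X_eq] at h4
    have h5 : quadraticChar (ZMod p) (d : ZMod p) = 0 := by exact_mod_cast h4
    rw [quadraticChar_eq_zero_iff] at h5
    exact ⟨a1, (ZMod.natCast_eq_zero_iff d p).mp h5⟩
  have c3 : 2 ^ A0.card ≤ d := two_pow_le d (by omega) A0 c2
  have c4 : (A0.card : ℝ) ≤ Real.logb 2 (2 * D) := by
    rw [Real.le_logb_iff_rpow_le (by norm_num) (by positivity), Real.rpow_natCast]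
    have : 2 ^ A0.card ≤ 2 * D := by omega
    exact_mod_cast this
  have c5 : (8 : ℝ) * Ap.card ≤ A.card := by exact_mod_cast c1
  linarith

end CharS

open CharS in
theorem wCharS : S_CharS := by
  classical
  intro D P A S hD hP hA hlog hS
  have h1 := second_moment D P A hP hA
  have h2 : (S.card : ℝ) * ((A.card : ℝ) ^ 2 / 4) ≤
      ∑ d ∈ Finset.Ico D (2 * D), (∑ p ∈ A, X p d) ^ 2 := by
    calc (S.card : ℝ) * ((A.card : ℝ) ^ 2 / 4) = ∑ _d ∈ S, ((A.card : ℝ) ^ 2 / 4) := by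
          rw [Finset.sum_const, nsmul_eq_mul]
      _ ≤ ∑ d ∈ S, (∑ p ∈ A, X p d) ^ 2 := by
          apply Finset.sum_le_sum
          intro d hd
          obtain ⟨a1, a2, a3⟩ := hS d hd
          have h3 := f_le D d P A hD hA hlog a1 a2 a3
          have h4 : (0 : ℝ) ≤ A.card := Nat.cast_nonneg _
          nlinarith
      _ ≤ ∑ d ∈ Finset.Ico D (2 * D), (∑ p ∈ A, X p d) ^ 2 := by
          apply Finset.sum_le_sum_of_subset_of_nonneg
          · intro d hd
            obtain ⟨a1, a2, _⟩ := hS d hd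
            exact Finset.mem_Ico.mpr ⟨a1, a2⟩
          · intro i _ _
            positivity
  linarith

end Pool.Agent.MP211W
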