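import Pool.Agent.Lib.MP_211f72_nt.W.SpecD

/-!
# MP_211f72_nt, third theorem: the 3-torsion of one class group (Cl3)
-/

namespace Pool.Agent.MP211W

open Polynomial NumberField
open MP_211f72_nt (Cub det Nor1 Nor2)

namespace Cl3

section
variable {d : ℕ} {K : Type} [Field K] [NumberField K]

theorem span_eq (Q : QF d K) (rD : 𝓞 K) (I : Ideal (𝓞 K)) (α β : 𝓞 K) (h : IdBas Q rD I α β) :
    I = Ideal.span {α, β} := by
  apply le_antisymm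
  · intro z hz
    obtain ⟨m, n, h1⟩ := (h.1 z).1 hz
    rw [h1]
    exact Ideal.add_mem _ (Ideal.mul_mem_left _ _ (Ideal.subset_span (by simp)))
      (Ideal.mul_mem_left _ _ (Ideal.subset_span (by simp)))
  · rw [Ideal.span_le]
    intro z hz
    rcases hz with hz | hz
    · rw [hz]
      exact (h.1 α).2 ⟨1, 0, by push_cast; ring⟩
    · rw [Set.mem_singleton_iff.1 hz]
      exact (h.1 β).2 ⟨0, 1, by push_cast; ring⟩

theorem norm_ne (I : Ideal (𝓞 K)) (hI : I ≠ ⊥) : ((Ideal.absNorm I : ℕ) : 𝓞 K) ≠ 0 := by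
  rw [Nat.cast_ne_zero]
  intro h
  exact hI (Ideal.absNorm_eq_zero_iff.1 h)

theorem rD_ne (Q : QF d K) (hd : 2 ≤ d) (D : ℕ) (rD : 𝓞 K) (h : IsRD Q D rD) : rD ≠ 0 := by
  intro h0
  have h1 := h.2.1
  rw [h0] at h1
  have h2 : ((D : ℕ) : 𝓞 K) = 0 := by
    rw [← h1]
    ring
  rw [Nat.cast_eq_zero] at h2
  rcases h.1 with h3 | h3 <;> omega

theorem al_ne (Q : QF d K) (hd : 2 ≤ d) (D : ℕ) (rD : 𝓞 K) (hR : IsRD Q D rD) (I : Ideal (𝓞 K))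
    (hI : I ≠ ⊥) (α β : 𝓞 K) (h : IdBas Q rD I α β) : α ≠ 0 := by
  intro h0
  have h1 := h.2
  rw [h0, map_zero, zero_mul, zero_mul, sub_zero] at h1
  exact mul_ne_zero (norm_ne I hI) (rD_ne Q hd D rD hR) h1.symm

theorem princ (I : Ideal (𝓞 K)) (hI : I ≠ ⊥) (h : clI I ^ 3 = 1) :
    ∃ μ : 𝓞 K, I ^ 3 = Ideal.span {μ} := by
  rw [← clI_pow I hI 3] at h
  have h3 : I ^ 3 ≠ ⊥ := pow_ne_zero 3 hI
  unfold clI at h
  rw [dif_neg h3, ClassGroup.mk0_eq_one_iff] at h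
  obtain ⟨μ, hμ⟩ := h.principal
  exact ⟨μ, hμ⟩

/-- the data of a class -/
def Dt (Q : QF d K) (rD : 𝓞 K) (D : ℕ) (c : ClassGroup (𝓞 K)) (f : Cub) (I : Ideal (𝓞 K))
    (α β : 𝓞 K) (e : ℤ) : Prop :=
  (Nor1 f ∨ Nor2 f) ∧ f.D = (D : ℤ) ∧ (e = 1 ∨ e = -1) ∧ I ≠ ⊥ ∧ clI I = c ∧
    IdBas Q rD I α β ∧ ∀ u v : ℤ, ((Ideal.absNorm I : ℕ) : 𝓞 K) * ((f.H (u, v) : ℤ) : 𝓞 K) =
      ((e : ℤ) : 𝓞 K) * ((((u : ℤ) : 𝓞 K) * α + ((v : ℤ) : 𝓞 K) * β) *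
        (((u : ℤ) : 𝓞 K) * Q.tO α + ((v : ℤ) : 𝓞 K) * Q.tO β))

theorem span_mul (x y z : 𝓞 K) : Ideal.span {x} * Ideal.span {y, z} = Ideal.span {x * y, x * z} := by
  rw [Ideal.span_mul_span']
  congr 1
  rw [Set.singleton_mul, Set.image_pair]

/-- two classes with the same form -/
theorem two (Q : QF d K) (hd : 2 ≤ d) (D : ℕ) (rD : 𝓞 K) (hR : IsRD Q D rD)
    (c c₀ : ClassGroup (𝓞 K)) (f : Cub) (I I₀ : Ideal (𝓞 K)) (α β α₀ β₀ : 𝓞 K) (e e₀ : ℤ)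
    (h : Dt Q rD D c f I α β e) (h₀ : Dt Q rD D c₀ f I₀ α₀ β₀ e₀) :
    c = c₀ ∨ c = clI (Q.tI I₀) := by
  obtain ⟨-, -, he, hI, hc, hb, hF⟩ := h
  obtain ⟨-, -, he₀, hI₀, hc₀, hb₀, hF₀⟩ := h₀
  have hN := norm_ne I hI
  have hN₀ := norm_ne I₀ hI₀
  have hα := al_ne Q hd D rD hR I hI α β hb
  have hα₀ := al_ne Q hd D rD hR I₀ hI₀ α₀ β₀ hb₀
  have he' : ((e₀ : ℤ) : 𝓞 K) ≠ 0 := by
    rcases he₀ with h | h <;> rw [h] <;> simp
  have hspan := span_eq Q rD I α β hb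
  have hspan₀ := span_eq Q rD I₀ α₀ β₀ hb₀
  generalize ((Ideal.absNorm I : ℕ) : 𝓞 K) = N at *
  generalize ((Ideal.absNorm I₀ : ℕ) : 𝓞 K) = N₀ at *
  have hall : ∀ u v : ℤ, N₀ * ((e : ℤ) : 𝓞 K) * ((((u : ℤ) : 𝓞 K) * α + ((v : ℤ) : 𝓞 K) * β) *
        (((u : ℤ) : 𝓞 K) * Q.tO α + ((v : ℤ) : 𝓞 K) * Q.tO β)) =
      N * ((e₀ : ℤ) : 𝓞 K) * ((((u : ℤ) : 𝓞 K) * α₀ + ((v : ℤ) : 𝓞 K) * β₀) *
        (((u : ℤ) : 𝓞 K) * Q.tO α₀ + ((v : ℤ) : 𝓞 K) * Q.tO β₀)) := by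
    intro u v
    rw [mul_assoc, ← hF u v, mul_assoc, ← hF₀ u v]
    ring
  have h10 := hall 1 0
  have h01 := hall 0 1
  have h11 := hall 1 1
  simp only [Int.cast_one, Int.cast_zero, one_mul, zero_mul, add_zero, zero_add] at h10 h01 h11
  have hmid : N₀ * ((e : ℤ) : 𝓞 K) * (α * Q.tO β + Q.tO α * β)
      = N * ((e₀ : ℤ) : 𝓞 K) * (α₀ * Q.tO β₀ + Q.tO α₀ * β₀) := by
    linear_combination h11 - h10 - h01
  have hprod : (N * ((e₀ : ℤ) : 𝓞 K)) * ((β * α₀ - β₀ * α) * (β * Q.tO α₀ - Q.tO β₀ * α)) = 0 := by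
    linear_combination (-β ^ 2) * h10 + α * β * hmid - α ^ 2 * h01
  have hne : N * ((e₀ : ℤ) : 𝓞 K) ≠ 0 := mul_ne_zero hN he'
  rcases mul_eq_zero.1 ((mul_eq_zero.1 hprod).resolve_left hne) with h1 | h1
  · left
    rw [← hc, ← hc₀, clI_eq_iff I I₀ hI hI₀]
    refine ⟨α₀, α, hα₀, hα, ?_⟩
    rw [hspan, hspan₀, span_mul, span_mul]
    have e1 : α₀ * α = α * α₀ := mul_comm _ _
    have e2 : α₀ * β = α * β₀ := by linear_combination h1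
    rw [e1, e2]
  · right
    have ht : Q.tI I₀ = Ideal.span {Q.tO α₀, Q.tO β₀} := by
      unfold QF.tI
      rw [hspan₀, Ideal.map_span, Set.image_pair]
    have hα₀' : Q.tO α₀ ≠ 0 := by
      intro h2
      exact hα₀ ((map_eq_zero_iff Q.tO Q.tO.injective).1 h2)
    have hne' : Q.tI I₀ ≠ ⊥ := by
      intro h2
      rw [ht, Ideal.span_eq_bot] at h2
      exact hα₀' (h2 _ (by simp))
    rw [← hc, clI_eq_iff I _ hI hne']
    refine ⟨Q.tO α₀, α, hα₀', hα, ?_⟩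
    rw [hspan, ht, span_mul, span_mul]
    have e1 : Q.tO α₀ * α = α * Q.tO α₀ := mul_comm _ _
    have e2 : Q.tO α₀ * β = α * Q.tO β₀ := by linear_combination h1
    rw [e1, e2]

theorem ex (hC : S_CubI) (Q : QF d K) (hsq : Squarefree d) (hd : 2 ≤ d) (D : ℕ) (rD : 𝓞 K)
    (hR : IsRD Q D rD) (hb : ∀ I : Ideal (𝓞 K), I ≠ ⊥ → ∃ α β : 𝓞 K, IdBas Q rD I α β)
    (c : ClassGroup (𝓞 K)) (hc : c ^ 3 = 1) : ∃ (f : Cub) (I : Ideal (𝓞 K)) (α β : 𝓞 K) (e : ℤ),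
      Dt Q rD D c f I α β e := by
  obtain ⟨I, hI, hcI⟩ := clI_surj c
  obtain ⟨μ, hμ⟩ := princ I hI (by rw [hcI]; exact hc)
  obtain ⟨α, β, hαβ⟩ := hb I hI
  obtain ⟨f, α₁, β₁, e, h1, h2, h3, h4, h5⟩ := hC d K Q hsq hd D rD hR I α β μ hI hαβ hμ
  exact ⟨f, I, α₁, β₁, e, h1, h2, h3, hI, hcI, h4, h5⟩

end

end Cl3

theorem wCl3 (h1 : S_IdB) (h2 : S_CubI) : S_Cl3 := by
  classical
  intro d K _ _ Q hsq hd S hS
  obtain ⟨D, rD, hR, hb⟩ := h1 d K Q hsq hd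
  choose f I α β e hdt using fun c : {c : ClassGroup (𝓞 K) // c ^ 3 = 1} =>
    Cl3.ex h2 Q hsq hd D rD hR hb c.1 c.2
  rw [Nat.card_eq_fintype_card, ← Finset.card_univ]
  apply Finset.card_le_mul_card_image_of_maps_to (f := f)
  · intro c _
    apply hS
    · exact (hdt c).1
    · rw [(hdt c).2.1]
      rcases hR.1 with h | h
      · left
        rw [h]
      · right
        rw [h]
        push_cast
        rfl
  · intro g _
    by_cases hne : (Finset.univ.filter fun c => f c = g).Nonempty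
    · obtain ⟨c₀, hc₀⟩ := hne
      have hc₀' : f c₀ = g := (Finset.mem_filter.1 hc₀).2
      have hsub : (Finset.univ.filter fun c => f c = g).image Subtype.val ⊆
          ({c₀.1, clI (Q.tI (I c₀))} : Finset (ClassGroup (𝓞 K))) := by
        intro x hx
        obtain ⟨c, hc, rfl⟩ := Finset.mem_image.1 hx
        have hc' : f c = g := (Finset.mem_filter.1 hc).2
        have ha := hdt c
        have hb' := hdt c₀
        rw [hc'] at ha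
        rw [hc₀'] at hb'
        rcases Cl3.two Q hd D rD hR _ _ _ _ _ _ _ _ _ _ _ ha hb' with h | h
        · rw [h]
          simp
        · rw [h]
          simp
      rw [← Finset.card_image_of_injective _ Subtype.val_injective]
      exact (Finset.card_le_card hsub).trans Finset.card_le_two
    · rw [Finset.not_nonempty_iff_eq_empty.1 hne]
      simp

end Pool.Agent.MP211W
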