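import Pool.Agent.Lib.MP_211f72_nt.W.SpecA

/-!
# MP_211f72_nt, third theorem: all quadratic polynomials
-/

set_option autoImplicit false

namespace Pool.Agent.MP211W

namespace ClassA

private theorem disc_le (q : Qd) (H : ℝ) (h : (q.ht : ℝ) ≤ H) : (q.disc : ℝ) ≤ 5 * H ^ 2 := by
  have ha : |(q.a : ℝ)| ≤ H := by
    have h1 : |q.a| ≤ q.ht := le_max_left _ _
    have h2 : ((|q.a| : ℤ) : ℝ) ≤ (q.ht : ℝ) := by exact_mod_cast h1
    rw [Int.cast_abs] at h2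
    exact h2.trans h
  have hb : |(q.b : ℝ)| ≤ H := by
    have h1 : |q.b| ≤ q.ht := (le_max_left _ _).trans (le_max_right _ _)
    have h2 : ((|q.b| : ℤ) : ℝ) ≤ (q.ht : ℝ) := by exact_mod_cast h1
    rw [Int.cast_abs] at h2
    exact h2.trans h
  have hc : |(q.c : ℝ)| ≤ H := by
    have h1 : |q.c| ≤ q.ht := (le_max_right _ _).trans (le_max_right _ _)
    have h2 : ((|q.c| : ℤ) : ℝ) ≤ (q.ht : ℝ) := by exact_mod_cast h1
    rw [Int.cast_abs] at h2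
    exact h2.trans h
  have hH : 0 ≤ H := (abs_nonneg _).trans ha
  have e : (q.disc : ℝ) = (q.b : ℝ) ^ 2 - 4 * ((q.a : ℝ) * (q.c : ℝ)) := by
    unfold Qd.disc
    push_cast
    ring
  have h1 : (q.b : ℝ) ^ 2 ≤ H ^ 2 := by
    rw [← sq_abs (q.b : ℝ)]
    exact pow_le_pow_left₀ (abs_nonneg _) hb 2
  have h2 : |(q.a : ℝ) * (q.c : ℝ)| ≤ H * H := by
    rw [abs_mul]
    exact mul_le_mul ha hc (abs_nonneg _) hH
  have h3 := neg_abs_le ((q.a : ℝ) * (q.c : ℝ))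
  rw [e]
  nlinarith

private theorem sqf (D : ℤ) (h0 : 0 < D) (hs : ¬ IsSquare D) :
    ∃ d f : ℕ, Squarefree d ∧ 2 ≤ d ∧ (d : ℤ) ≤ D ∧ D = (f : ℤ) ^ 2 * (d : ℤ) := by
  obtain ⟨m, rfl⟩ : ∃ m : ℕ, D = (m : ℤ) := ⟨D.toNat, by omega⟩
  obtain ⟨d, f, hfd, hd⟩ := Nat.sq_mul_squarefree m
  have hm : m ≠ 0 := by
    rintro rfl
    simp at h0
  have hd0 : d ≠ 0 := by
    rintro rfl
    exact hm (by rw [← hfd, mul_zero])
  have hf0 : f ≠ 0 := by
    rintro rfl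
    exact hm (by rw [← hfd]; simp)
  have hd1 : d ≠ 1 := by
    rintro rfl
    refine hs ⟨(f : ℤ), ?_⟩
    rw [← hfd]
    push_cast
    ring
  refine ⟨d, f, hd, by omega, ?_, ?_⟩
  · have : d ≤ m := by
      rw [← hfd]
      exact Nat.le_mul_of_pos_left d (by positivity)
    exact_mod_cast this
  · rw [← hfd]
    push_cast
    ring

end ClassA

open ClassA in
theorem wClassA (h1 : S_Near1) (h2 : S_ClassD) : S_ClassA := by
  intro n hn hT ε hε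
  obtain ⟨C1, hC1, hD⟩ := h2 n hn (ε / 2) (by linarith)
  obtain ⟨C2, hC2, hTB⟩ := hT (ε / 4) (by linarith)
  have h10 : (0 : ℝ) < (10 : ℝ) ^ (ε / 4) := by positivity
  refine ⟨C1 * C2 * (10 : ℝ) ^ (ε / 4), by positivity, ?_⟩
  intro Y δ H Δ S hY hH hHY hδ hδ1 h100 hS
  have hY0 : 0 < Y := by linarith
  have hH0 : 0 < H := by linarith
  rcases S.eq_empty_or_nonempty with hSe | hSne
  · rw [hSe, Finset.card_empty, Nat.cast_zero]
    positivity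
  -- every `q` has a squarefree part
  have key : ∀ q ∈ S, ∃ d f : ℕ, Squarefree d ∧ 2 ≤ d ∧ (d : ℤ) ≤ q.disc ∧
      q.disc = (f : ℤ) ^ 2 * (d : ℤ) := by
    intro q hq
    obtain ⟨ξ, x, hN⟩ := hS q hq
    obtain ⟨hG, hht, _, _, _, h0, h1', hNr, hL⟩ := hN
    exact sqf q.disc (h1.1 n Y δ H ξ q x hn hδ h100 hG hht h0 h1' hNr hL) hG.2.2
  obtain ⟨q0, hq0⟩ := hSne
  obtain ⟨d0, f0, hd0s, hd02, hd0le, hd0e⟩ := key q0 hq0
  obtain ⟨ξ0, x0, hN0⟩ := hS q0 hq0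
  have hΔ1 : Δ ≤ 5 * H ^ 2 := hN0.2.2.2.1.trans (disc_le q0 H hN0.2.1)
  have h2Δ : (2 : ℝ) ≤ 2 * Δ := by
    have e1 : ((d0 : ℤ) : ℝ) ≤ (q0.disc : ℝ) := by exact_mod_cast hd0le
    have e2 : (2 : ℝ) ≤ ((d0 : ℤ) : ℝ) := by exact_mod_cast hd02
    linarith [hN0.2.2.2.2.1]
  set X : ℕ := ⌊2 * Δ⌋₊ with hX
  have hX1 : 1 ≤ X := by
    rw [hX]
    exact Nat.le_floor (by push_cast; linarith)
  have hXle : (X : ℝ) ≤ 10 * Y ^ 2 := by
    have e1 : (X : ℝ) ≤ 2 * Δ := Nat.floor_le (by linarith)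
    have e2 : H ^ 2 ≤ Y ^ 2 := pow_le_pow_left₀ hH0.le hHY 2
    linarith
  obtain ⟨N, hN, hsum⟩ := hTB X hX1
  classical
  let g : Qd → ℕ := fun q => if h : q ∈ S then (key q h).choose else 0
  have hg : ∀ q ∈ S, ∃ f : ℕ, Squarefree (g q) ∧ 2 ≤ g q ∧ (g q : ℤ) ≤ q.disc ∧
      q.disc = (f : ℤ) ^ 2 * (g q : ℤ) := by
    intro q hq
    have e : g q = (key q hq).choose := by
      simp only [g]
      rw [dif_pos hq]
    rw [e]
    exact (key q hq).choose_spec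
  have hmaps : ∀ q ∈ S, g q ∈ Finset.Icc 1 X := by
    intro q hq
    obtain ⟨f, _, e2, e3, _⟩ := hg q hq
    rw [Finset.mem_Icc]
    refine ⟨by omega, ?_⟩
    rw [hX]
    apply Nat.le_floor
    obtain ⟨ξ, x, hNq⟩ := hS q hq
    have e4 : ((g q : ℤ) : ℝ) ≤ (q.disc : ℝ) := by exact_mod_cast e3
    have e5 := hNq.2.2.2.2.1
    push_cast at e4 ⊢
    linarith
  have hcard : (S.card : ℝ) = ∑ d ∈ Finset.Icc 1 X, ((S.filter fun q => g q = d).card : ℝ) := by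
    rw [Finset.card_eq_sum_card_fiberwise hmaps]
    push_cast
    rfl
  set B : ℝ := C1 * Y ^ (ε / 2) * (Y * δ / H ^ (n - 2)) * (H * Real.sqrt Δ) with hB
  have hB0 : 0 ≤ B := by positivity
  have hterm : ∀ d ∈ Finset.Icc 1 X, ((S.filter fun q => g q = d).card : ℝ) ≤
      B * ((N d : ℝ) / (d : ℝ)) := by
    intro d hd
    rcases (S.filter fun q => g q = d).eq_empty_or_nonempty with he | hne
    · rw [he, Finset.card_empty, Nat.cast_zero]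
      positivity
    · obtain ⟨q, hq⟩ := hne
      obtain ⟨hqS, hqd⟩ := Finset.mem_filter.1 hq
      obtain ⟨_, e1, e2, _, _⟩ := hg q hqS
      rw [hqd] at e1 e2
      have := hD d (N d) e1 e2 (hN d e1 e2 (Finset.mem_Icc.1 hd).2) Y δ H Δ
        (S.filter fun q => g q = d) hY hH hδ hδ1 h100 (by
          intro q' hq'
          obtain ⟨hq'S, hq'd⟩ := Finset.mem_filter.1 hq'
          obtain ⟨f, _, _, _, e3⟩ := hg q' hq'S
          rw [hq'd] at e3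
          exact ⟨⟨f, e3⟩, hS q' hq'S⟩)
      refine this.trans (le_of_eq ?_)
      rw [hB]
      ring
  have hXp : (X : ℝ) ^ (ε / 4) ≤ (10 : ℝ) ^ (ε / 4) * Y ^ (ε / 2) := by
    have e1 : (X : ℝ) ^ (ε / 4) ≤ (10 * Y ^ 2) ^ (ε / 4) :=
      Real.rpow_le_rpow (Nat.cast_nonneg _) hXle (by linarith)
    refine e1.trans (le_of_eq ?_)
    rw [Real.mul_rpow (by norm_num) (by positivity), ← Real.rpow_natCast Y 2, ← Real.rpow_mul hY0.le]
    congr 2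
    push_cast
    ring
  calc (S.card : ℝ) = ∑ d ∈ Finset.Icc 1 X, ((S.filter fun q => g q = d).card : ℝ) := hcard
    _ ≤ ∑ d ∈ Finset.Icc 1 X, B * ((N d : ℝ) / (d : ℝ)) := Finset.sum_le_sum hterm
    _ = B * ∑ d ∈ Finset.Icc 1 X, (N d : ℝ) / (d : ℝ) := by rw [Finset.mul_sum]
    _ ≤ B * (C2 * (X : ℝ) ^ (ε / 4)) := mul_le_mul_of_nonneg_left hsum hB0
    _ ≤ B * (C2 * ((10 : ℝ) ^ (ε / 4) * Y ^ (ε / 2))) := by
        apply mul_le_mul_of_nonneg_left _ hB0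
        exact mul_le_mul_of_nonneg_left hXp hC2.le
    _ = C1 * C2 * (10 : ℝ) ^ (ε / 4) * Y ^ ε * (Y * δ / H ^ (n - 2)) * (H * Real.sqrt Δ) := by
        have e : Y ^ ε = Y ^ (ε / 2) * Y ^ (ε / 2) := by
          rw [← Real.rpow_add hY0]
          congr 1
          ring
        rw [hB, e]
        ring

end Pool.Agent.MP211W
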