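import Pool.Agent.Lib.MP_211f72_nt.W.SpecA
import Pool.Agent.Lib.MP_640417_ag.All.Divisor

/-!
# MP_211f72_nt, third theorem: the statement `S_ClassD` (the polynomials of one field)
-/

namespace Pool.Agent.MP211W

open Polynomial NumberField

/-- the pairs (ideal of bounded norm, `n`-th root of its class) -/
private theorem ClassD_T (h5 : S_DivI) (h6 : S_TorG) {d : ℕ} {K : Type} [Field K] [NumberField K]
    (Q : QF d K) (n N : ℕ) (hN : TB n d N) (M : ℝ) :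
    ∃ T : Finset (Ideal (𝓞 K) × ClassGroup (𝓞 K)),
      (∀ (b : Ideal (𝓞 K)) (c : ClassGroup (𝓞 K)), b ≠ ⊥ → ((Ideal.absNorm b : ℕ) : ℝ) ≤ M →
        clI b = c ^ n → (b, c) ∈ T) ∧
      (T.card : ℝ) ≤ N * ∑ m ∈ Finset.Icc 1 ⌊M⌋₊, (m.divisors.card : ℝ) ^ 2 := by
  classical
  have hD : ∀ m : ℕ, ∃ D : Finset (Ideal (𝓞 K)), 1 ≤ m →
      (∀ b : Ideal (𝓞 K), b ∣ Ideal.span {((m : ℕ) : 𝓞 K)} → b ∈ D) ∧
      D.card ≤ m.divisors.card ^ 2 := by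
    intro m
    by_cases hm : 1 ≤ m
    · obtain ⟨hf, hc⟩ := h5 K Q.rank m hm
      refine ⟨hf.toFinset, fun _ => ⟨fun b hb => hf.mem_toFinset.2 hb, ?_⟩⟩
      rw [← Set.ncard_eq_toFinset_card _ hf]
      exact hc
    · exact ⟨∅, fun h => absurd h hm⟩
  choose D hD using hD
  have hC : ∀ b : Ideal (𝓞 K),
      (Finset.univ.filter fun c : ClassGroup (𝓞 K) => clI b = c ^ n).card ≤ N := by
    intro b
    have e1 := (h6 (ClassGroup (𝓞 K))).2 n (clI b)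
    have e2 := hN K Q
    rw [Nat.card_eq_fintype_card, Fintype.card_subtype] at e1
    have e3 : (Finset.univ.filter fun c : ClassGroup (𝓞 K) => clI b = c ^ n) =
        Finset.univ.filter fun c : ClassGroup (𝓞 K) => c ^ n = clI b := by
      refine Finset.filter_congr fun c _ => ?_
      exact eq_comm
    rw [e3]
    exact e1.trans e2
  refine ⟨(Finset.Icc 1 ⌊M⌋₊).biUnion fun m => (D m).biUnion fun b =>
    (Finset.univ.filter fun c : ClassGroup (𝓞 K) => clI b = c ^ n).image fun c => (b, c), ?_, ?_⟩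
  · intro b c hb hM hc
    have hn0 : Ideal.absNorm b ≠ 0 := fun h => hb (Ideal.absNorm_eq_zero_iff.1 h)
    have h1 : 1 ≤ Ideal.absNorm b := Nat.one_le_iff_ne_zero.2 hn0
    rw [Finset.mem_biUnion]
    refine ⟨Ideal.absNorm b, Finset.mem_Icc.2 ⟨h1, Nat.le_floor hM⟩, ?_⟩
    rw [Finset.mem_biUnion]
    refine ⟨b, (hD _ h1).1 b ?_, ?_⟩
    · rw [Ideal.dvd_iff_le, Ideal.span_singleton_le_iff_mem]
      exact Ideal.absNorm_mem b
    · exact Finset.mem_image.2 ⟨c, Finset.mem_filter.2 ⟨Finset.mem_univ _, hc⟩, rfl⟩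
  · have hle : ((Finset.Icc 1 ⌊M⌋₊).biUnion fun m => (D m).biUnion fun b =>
        (Finset.univ.filter fun c : ClassGroup (𝓞 K) => clI b = c ^ n).image
          fun c => (b, c)).card ≤ ∑ m ∈ Finset.Icc 1 ⌊M⌋₊, m.divisors.card ^ 2 * N := by
      refine Finset.card_biUnion_le.trans (Finset.sum_le_sum fun m hm => ?_)
      have hm1 : 1 ≤ m := (Finset.mem_Icc.1 hm).1
      refine Finset.card_biUnion_le.trans ?_
      have : ∀ b ∈ D m, ((Finset.univ.filter fun c : ClassGroup (𝓞 K) => clI b = c ^ n).image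
          fun c => (b, c)).card ≤ N := fun b _ => Finset.card_image_le.trans (hC b)
      refine (Finset.sum_le_sum this).trans ?_
      rw [Finset.sum_const, smul_eq_mul]
      exact Nat.mul_le_mul_right N (hD m hm1).2
    have hle' : (((Finset.Icc 1 ⌊M⌋₊).biUnion fun m => (D m).biUnion fun b =>
        (Finset.univ.filter fun c : ClassGroup (𝓞 K) => clI b = c ^ n).image
          fun c => (b, c)).card : ℝ) ≤
        ((∑ m ∈ Finset.Icc 1 ⌊M⌋₊, m.divisors.card ^ 2 * N : ℕ) : ℝ) := by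
      exact_mod_cast hle
    refine hle'.trans (le_of_eq ?_)
    push_cast
    rw [Finset.mul_sum]
    exact Finset.sum_congr rfl fun m _ => mul_comm _ _

/-- the sum of the squares of the numbers of divisors -/
private theorem ClassD_sum {ε Cη M B : ℝ} (hε : 0 < ε) (hM : 0 ≤ M) (hMB : M ≤ B)
    (hη : ∀ m : ℕ, 0 < m → (m.divisors.card : ℝ) ≤ Cη * (m : ℝ) ^ (ε / 2)) :
    ∑ m ∈ Finset.Icc 1 ⌊M⌋₊, (m.divisors.card : ℝ) ^ 2 ≤ M * (Cη ^ 2 * B ^ ε) := by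
  have h1 : ∀ m ∈ Finset.Icc 1 ⌊M⌋₊, (m.divisors.card : ℝ) ^ 2 ≤ Cη ^ 2 * B ^ ε := by
    intro m hm
    rw [Finset.mem_Icc] at hm
    have hm0 : (0 : ℝ) ≤ m := Nat.cast_nonneg m
    have hmM : (m : ℝ) ≤ M := by
      have : (m : ℝ) ≤ (⌊M⌋₊ : ℝ) := by exact_mod_cast hm.2
      exact this.trans (Nat.floor_le hM)
    have h2 := pow_le_pow_left₀ (Nat.cast_nonneg _) (hη m (by omega)) 2
    refine h2.trans ?_
    rw [mul_pow]
    refine mul_le_mul_of_nonneg_left ?_ (sq_nonneg _)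
    have h3 : ((m : ℝ) ^ (ε / 2)) ^ 2 = (m : ℝ) ^ ε := by
      rw [← Real.rpow_natCast, ← Real.rpow_mul hm0]
      congr 1
      push_cast
      ring
    rw [h3]
    exact Real.rpow_le_rpow hm0 (hmM.trans hMB) hε.le
  refine (Finset.sum_le_sum h1).trans ?_
  rw [Finset.sum_const, Nat.card_Icc, Nat.add_sub_cancel, nsmul_eq_mul]
  have hB : 0 ≤ B := hM.trans hMB
  exact mul_le_mul_of_nonneg_right (Nat.floor_le hM) (by positivity)

theorem wClassD (h1 : S_ExQ) (h2 : S_Near1) (h3 : S_DataQ) (h4 : S_Fiber) (h5 : S_DivI)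
    (h6 : S_TorG) : S_ClassD := by
  classical
  intro n hn ε hε
  obtain ⟨C₁, hC₁, hFib⟩ := h4 n (by omega)
  obtain ⟨C₂, hC₂, hDat⟩ := h3 n hn
  obtain ⟨Cη, hCη, hη⟩ := Pool.Agent.Lib.MP_640417_ag.All.divisor_bound (ε / 2) (by linarith)
  refine ⟨C₁ * C₂ * (Cη ^ 2 * C₂ ^ ε), by positivity, ?_⟩
  intro d N hd hd2 hTB Y δ H Δ S hY hH hδ hδ1 hYH hS
  have hY0 : 0 < Y := by linarith
  have hH0 : 0 < H := by linarith
  rcases S.eq_empty_or_nonempty with rfl | ⟨q₀, hq₀⟩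
  · rw [Finset.card_empty, Nat.cast_zero]
    positivity
  -- all discriminants are positive
  have hdisc : ∀ q ∈ S, 0 < q.disc ∧ (q.disc : ℝ) ≤ 2 * Δ ∧ (q.ht : ℝ) ≤ H := by
    intro q hq
    obtain ⟨-, ξ, x, hx⟩ := hS q hq
    obtain ⟨a1, a2, a3, a4, a5, a6, a7, a8, a9⟩ := hx
    exact ⟨h2.1 n Y δ H ξ q x hn hδ hYH a1 a2 a6 a7 a8 a9, a5, a2⟩
  have hΔ : 0 < Δ := by
    obtain ⟨b1, b2, -⟩ := hdisc q₀ hq₀
    have : (0 : ℝ) < (q₀.disc : ℝ) := by exact_mod_cast b1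
    linarith
  obtain ⟨K, _, _, ⟨Q⟩⟩ := h1 d hd hd2
  have hdata : ∀ q : Qd, ∃ (θ : K) (ψ : 𝓞 K) (I b : Ideal (𝓞 K)), q ∈ S →
      Dat n q θ ψ I b ∧ clI b = clI I ^ n ∧ |Q.σ θ| ≤ 2 ∧
      Real.sqrt Δ * Y / 8 ≤ |Q.σ ψ| ∧ |Q.σ ψ| ≤ 5 * (Real.sqrt Δ * Y) ∧
      ((Ideal.absNorm b : ℕ) : ℝ) * H ^ (n - 2) ≤ C₂ * (Y * δ) := by
    intro q
    by_cases hq : q ∈ S
    · obtain ⟨⟨f, hf⟩, ξ, x, hx⟩ := hS q hq
      obtain ⟨θ, ψ, I, b, h⟩ := hDat d K Q hd hd2 Y δ H Δ ξ q x f hδ hYH hx hf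
      exact ⟨θ, ψ, I, b, fun _ => h⟩
    · exact ⟨0, 0, ⊥, ⊥, fun h => absurd h hq⟩
  choose θ ψ I b hdata using hdata
  obtain ⟨M, hM⟩ : ∃ M, M = C₂ * (Y * δ) / H ^ (n - 2) := ⟨_, rfl⟩
  have hHn : 1 ≤ H ^ (n - 2) := one_le_pow₀ hH
  have hM0 : 0 ≤ M := by
    rw [hM]
    positivity
  have hMB : M ≤ C₂ * Y := by
    rw [hM, div_le_iff₀ (by linarith)]
    have e1 : C₂ * (Y * δ) ≤ C₂ * Y := by
      refine mul_le_mul_of_nonneg_left ?_ hC₂.le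
      nlinarith
    have e2 : C₂ * Y * 1 ≤ C₂ * Y * H ^ (n - 2) :=
      mul_le_mul_of_nonneg_left hHn (by positivity)
    linarith
  obtain ⟨T, hT, hTc⟩ := ClassD_T h5 h6 Q n N hTB M
  have hmaps : ∀ q ∈ S, (b q, clI (I q)) ∈ T := by
    intro q hq
    obtain ⟨e1, e2, -, -, -, e6⟩ := hdata q hq
    refine hT _ _ e1.2.2.2.2.1 ?_ e2
    rw [hM, le_div_iff₀ (by linarith)]
    exact e6
  have hfib : ∀ p ∈ T, (S.filter fun q => (b q, clI (I q)) = p).card ≤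
      ⌊C₁ * (H * Real.sqrt Δ / d)⌋₊ := by
    rintro ⟨b₀, c₀⟩ -
    refine Nat.le_floor ?_
    refine hFib d K Q hd hd2 b₀ c₀ H Δ (Real.sqrt Δ * Y / 8) _ hH0 hΔ
      (by have := Real.sqrt_pos.2 hΔ; positivity) ?_
    intro q hq
    rw [Finset.mem_filter] at hq
    obtain ⟨hqS, hqp⟩ := hq
    obtain ⟨e1, -, e3, e4, e5, -⟩ := hdata q hqS
    obtain ⟨g1, g2, g3⟩ := hdisc q hqS
    have hb0 : b q = b₀ := congrArg Prod.fst hqp
    have hc0 : clI (I q) = c₀ := congrArg Prod.snd hqp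
    refine ⟨g3, g1, g2, θ q, ψ q, I q, ?_, hc0, e3, e4, ?_⟩
    · rw [← hb0]
      exact e1
    · refine e5.trans (le_of_eq ?_)
      ring
  have hcard := Finset.card_le_mul_card_image_of_maps_to hmaps _ hfib
  have hcard' : (S.card : ℝ) ≤ (⌊C₁ * (H * Real.sqrt Δ / d)⌋₊ : ℝ) * (T.card : ℝ) := by
    exact_mod_cast hcard
  have hfl : (⌊C₁ * (H * Real.sqrt Δ / d)⌋₊ : ℝ) ≤ C₁ * (H * Real.sqrt Δ / d) :=
    Nat.floor_le (by positivity)
  have hTc' : (T.card : ℝ) ≤ N * (M * (Cη ^ 2 * (C₂ * Y) ^ ε)) :=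
    hTc.trans (mul_le_mul_of_nonneg_left (ClassD_sum hε hM0 hMB hη) (Nat.cast_nonneg N))
  have hfin : (S.card : ℝ) ≤
      C₁ * (H * Real.sqrt Δ / d) * (N * (M * (Cη ^ 2 * (C₂ * Y) ^ ε))) :=
    hcard'.trans (mul_le_mul hfl hTc' (Nat.cast_nonneg _) (by positivity))
  refine hfin.trans (le_of_eq ?_)
  rw [hM, Real.mul_rpow hC₂.le hY0.le]
  ring

end Pool.Agent.MP211W
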