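import Pool.Agent.Lib.MP_211f72_nt.W.SpecE

/-!
# MP_211f72_nt, third theorem, amplification: the statement `S_ClassP` (the polynomials of one field)
-/

namespace Pool.Agent.MP211W.ClassP

open Polynomial NumberField

/-- an ideal and its product with a nonzero integer are in the same class -/
private theorem clI_nat {K : Type} [Field K] [NumberField K] (e : ℕ) (he : 1 ≤ e) (b : Ideal (𝓞 K))
    (hb : b ≠ ⊥) : clI (Ideal.span {((e : ℕ) : 𝓞 K)} * b) = clI b := by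
  have he0 : ((e : ℕ) : 𝓞 K) ≠ 0 := by
    have : e ≠ 0 := by omega
    exact_mod_cast this
  have hs : Ideal.span {((e : ℕ) : 𝓞 K)} ≠ ⊥ := by
    rw [Ne, Ideal.span_singleton_eq_bot]
    exact he0
  rw [clI_eq_iff _ _ (mul_ne_zero hs hb) hb]
  exact ⟨1, ((e : ℕ) : 𝓞 K), one_ne_zero, he0, by rw [Ideal.span_singleton_one, Ideal.top_mul]⟩

/-- the triples (exponent, primitive ideal, class) -/
private theorem triples (h6 : S_TorG) {d : ℕ} {K : Type} [Field K] [NumberField K] (Q : QF d K)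
    (l N J : ℕ) (hN : TB l d N) (B : Finset (Ideal (𝓞 K) × ClassGroup (𝓞 K))) :
    ∃ T : Finset (ℕ × (Ideal (𝓞 K) × ClassGroup (𝓞 K))),
      (∀ (j : ℕ) (b : Ideal (𝓞 K)) (c : ClassGroup (𝓞 K)), j < J → (b, c ^ l) ∈ B →
        (j, (b, c)) ∈ T) ∧
      T.card ≤ J * (B.card * N) := by
  classical
  have hC : ∀ g : ClassGroup (𝓞 K),
      (Finset.univ.filter fun c : ClassGroup (𝓞 K) => c ^ l = g).card ≤ N := by
    intro g
    have e1 := (h6 (ClassGroup (𝓞 K))).2 l g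
    have e2 := hN K Q
    rw [Nat.card_eq_fintype_card, Fintype.card_subtype] at e1
    exact e1.trans e2
  refine ⟨Finset.range J ×ˢ (B.biUnion fun x =>
    (Finset.univ.filter fun c : ClassGroup (𝓞 K) => c ^ l = x.2).image fun c => (x.1, c)), ?_, ?_⟩
  · intro j b c hj hb
    rw [Finset.mem_product]
    refine ⟨Finset.mem_range.2 hj, ?_⟩
    rw [Finset.mem_biUnion]
    refine ⟨(b, c ^ l), hb, ?_⟩
    exact Finset.mem_image.2 ⟨c, Finset.mem_filter.2 ⟨Finset.mem_univ _, rfl⟩, rfl⟩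
  · rw [Finset.card_product, Finset.card_range]
    refine Nat.mul_le_mul_left J ?_
    refine Finset.card_biUnion_le.trans ?_
    have : ∀ x ∈ B, ((Finset.univ.filter fun c : ClassGroup (𝓞 K) => c ^ l = x.2).image
        fun c => (x.1, c)).card ≤ N := fun x _ => Finset.card_image_le.trans (hC x.2)
    refine (Finset.sum_le_sum this).trans ?_
    rw [Finset.sum_const, smul_eq_mul]

/-- the number of exponents -/
private theorem logs {C₂ Y : ℝ} (hC₂ : 0 < C₂) (hY : 1 ≤ Y) :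
    ((⌊Real.log (1 + C₂ * Y) / Real.log 2⌋₊ + 1 : ℕ) : ℝ) ≤
      (1 + (Real.log (1 + C₂) + 1) / Real.log 2) * (1 + Real.log Y) := by
  have hl2 : 0 < Real.log 2 := Real.log_pos (by norm_num)
  have hlY : 0 ≤ Real.log Y := Real.log_nonneg hY
  have hlC : 0 ≤ Real.log (1 + C₂) := Real.log_nonneg (by linarith)
  have hY0 : 0 < Y := by linarith
  have h0 : 0 ≤ Real.log (1 + C₂ * Y) / Real.log 2 := by
    refine div_nonneg (Real.log_nonneg ?_) hl2.le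
    have : 0 < C₂ * Y := by positivity
    linarith
  have h1 : Real.log (1 + C₂ * Y) ≤ Real.log (1 + C₂) + Real.log Y := by
    rw [← Real.log_mul (by linarith) (by linarith)]
    refine Real.log_le_log (by positivity) ?_
    nlinarith
  have h2 : Real.log (1 + C₂ * Y) / Real.log 2 ≤
      (Real.log (1 + C₂) + Real.log Y) / Real.log 2 :=
    div_le_div_of_nonneg_right h1 hl2.le
  have h3 : (Real.log (1 + C₂) + Real.log Y) / Real.log 2 ≤
      (Real.log (1 + C₂) + 1) / Real.log 2 * (1 + Real.log Y) := by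
    rw [div_mul_eq_mul_div]
    refine div_le_div_of_nonneg_right ?_ hl2.le
    nlinarith
  have h4 := Nat.floor_le h0
  push_cast
  nlinarith

/-- the exponent of an integer -/
private theorem expo {C₂ Y : ℝ} (e : ℕ) (he : 1 ≤ e)
    (heM : (e : ℝ) ≤ C₂ * Y) : Nat.log 2 e < ⌊Real.log (1 + C₂ * Y) / Real.log 2⌋₊ + 1 := by
  have hl2 : 0 < Real.log 2 := Real.log_pos (by norm_num)
  refine Nat.lt_succ_of_le (Nat.le_floor ?_)
  rw [le_div_iff₀ hl2]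
  have h1 : 2 ^ Nat.log 2 e ≤ e := Nat.pow_log_le_self 2 (by omega)
  have h2 : (2 : ℝ) ^ Nat.log 2 e ≤ e := by exact_mod_cast h1
  have h3 : Real.log ((2 : ℝ) ^ Nat.log 2 e) ≤ Real.log (1 + C₂ * Y) :=
    Real.log_le_log (by positivity) (by linarith)
  rwa [Real.log_pow] at h3

end Pool.Agent.MP211W.ClassP

namespace Pool.Agent.MP211W

open Polynomial NumberField

theorem wClassP (h1 : S_ExQ) (h2 : S_Near1) (h3 : S_DataQ) (h4 : S_FiberP) (h5 : S_PrimD)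
    (h6 : S_TorG) : S_ClassP := by
  classical
  intro n l m hn hnlm
  obtain ⟨C₁, hC₁, hFib⟩ := h4 n (by omega)
  obtain ⟨C₂, hC₂, hDat⟩ := h3 n hn
  have hl2 : 0 < Real.log 2 := Real.log_pos (by norm_num)
  have hlC : 0 ≤ Real.log (1 + C₂) := Real.log_nonneg (by linarith)
  obtain ⟨C₃, hC₃⟩ : ∃ C₃, C₃ = 1 + (Real.log (1 + C₂) + 1) / Real.log 2 := ⟨_, rfl⟩
  have hC₃0 : 0 < C₃ := by
    rw [hC₃]
    positivity
  refine ⟨1 + C₂ + C₃ * C₁, by nlinarith [mul_pos hC₃0 hC₁], ?_⟩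
  intro d N T hd hd2 hTB Y δ H Δ S hY hH hδ hδ1 hYH hPB hS
  have hY0 : 0 < Y := by linarith
  have hH0 : 0 < H := by linarith
  have hlY : 0 ≤ Real.log Y := Real.log_nonneg hY
  obtain ⟨K, _, _, ⟨Q⟩⟩ := h1 d hd hd2
  have hT0 : 0 ≤ T := by
    have := hPB K Q ∅ (fun x hx => absurd hx (Finset.notMem_empty x))
    rwa [Finset.card_empty, Nat.cast_zero] at this
  rcases S.eq_empty_or_nonempty with rfl | ⟨q₀, hq₀⟩
  · rw [Finset.card_empty, Nat.cast_zero]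
    have : 0 ≤ 1 + C₂ + C₃ * C₁ := by positivity
    positivity
  have hdisc : ∀ q ∈ S, 0 < q.disc ∧ (q.disc : ℝ) ≤ 2 * Δ ∧ (q.ht : ℝ) ≤ H := by
    intro q hq
    obtain ⟨-, ξ, x, hx⟩ := hS q hq
    obtain ⟨a1, a2, a3, a4, a5, a6, a7, a8, a9⟩ := hx
    exact ⟨h2.1 n Y δ H ξ q x hn hδ hYH a1 a2 a6 a7 a8 a9, a5, a2⟩
  have hΔ : 0 < Δ := by
    obtain ⟨b1, b2, -⟩ := hdisc q₀ hq₀
    have : (0 : ℝ) < (q₀.disc : ℝ) := by exact_mod_cast b1
    linarith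
  have hdata : ∀ q : Qd, ∃ (θ : K) (ψ : 𝓞 K) (I b₀ : Ideal (𝓞 K)) (e : ℕ), q ∈ S →
      Dat n q θ ψ I (Ideal.span {((e : ℕ) : 𝓞 K)} * b₀) ∧ 1 ≤ e ∧ b₀ ≠ ⊥ ∧ PrimI b₀ ∧
      clI b₀ = clI I ^ n ∧ |Q.σ θ| ≤ 2 ∧
      Real.sqrt Δ * Y / 8 ≤ |Q.σ ψ| ∧ |Q.σ ψ| ≤ 5 * (Real.sqrt Δ * Y) ∧
      ((e ^ 2 * Ideal.absNorm b₀ : ℕ) : ℝ) * H ^ (n - 2) ≤ C₂ * (Y * δ) := by
    intro q
    by_cases hq : q ∈ S
    · obtain ⟨⟨f, hf⟩, ξ, x, hx⟩ := hS q hq
      obtain ⟨θ, ψ, I, b, g1, g2, g3, g4, g5, g6⟩ := hDat d K Q hd hd2 Y δ H Δ ξ q x f hδ hYH hx hf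
      obtain ⟨e, b₀, k1, k2, k3, k4, k5⟩ := h5 K Q.rank b g1.2.2.2.2.1
      refine ⟨θ, ψ, I, b₀, e, fun _ => ⟨?_, k1, k2, k3, ?_, g3, g4, g5, ?_⟩⟩
      · rw [← k4]
        exact g1
      · rw [← g2, k4]
        exact (ClassP.clI_nat e k1 b₀ k2).symm
      · rw [← k5]
        exact g6
    · exact ⟨0, 0, ⊥, ⊥, 0, fun h => absurd h hq⟩
  choose θ ψ I b₀ e hdata using hdata
  have hHn : 1 ≤ H ^ (n - 2) := one_le_pow₀ hH
  have hnorm : ∀ q ∈ S, ((Ideal.absNorm (b₀ q) : ℕ) : ℝ) ≤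
      (1 + C₂ + C₃ * C₁) * (Y * δ / H ^ (n - 2)) ∧ ((e q : ℕ) : ℝ) ≤ C₂ * Y := by
    intro q hq
    obtain ⟨-, k1, k2, -, -, -, -, -, k9⟩ := hdata q hq
    have hb1 : 1 ≤ Ideal.absNorm (b₀ q) :=
      Nat.one_le_iff_ne_zero.2 fun h => k2 (Ideal.absNorm_eq_zero_iff.1 h)
    have hle1 : Ideal.absNorm (b₀ q) ≤ e q ^ 2 * Ideal.absNorm (b₀ q) :=
      Nat.le_mul_of_pos_left _ (by positivity)
    have hle2 : e q ≤ e q ^ 2 * Ideal.absNorm (b₀ q) := by nlinarith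
    have hle1' : ((Ideal.absNorm (b₀ q) : ℕ) : ℝ) ≤ ((e q ^ 2 * Ideal.absNorm (b₀ q) : ℕ) : ℝ) := by
      exact_mod_cast hle1
    have hle2' : ((e q : ℕ) : ℝ) ≤ ((e q ^ 2 * Ideal.absNorm (b₀ q) : ℕ) : ℝ) := by
      exact_mod_cast hle2
    have hMM : ((e q ^ 2 * Ideal.absNorm (b₀ q) : ℕ) : ℝ) ≤ C₂ * (Y * δ / H ^ (n - 2)) := by
      rw [← mul_div_assoc, le_div_iff₀ (by linarith)]
      exact k9
    have hw0 : 0 ≤ Y * δ / H ^ (n - 2) := by positivity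
    have hwY : Y * δ / H ^ (n - 2) ≤ Y := by
      rw [div_le_iff₀ (by linarith)]
      nlinarith
    refine ⟨(hle1'.trans hMM).trans ?_, (hle2'.trans hMM).trans ?_⟩
    · refine mul_le_mul_of_nonneg_right ?_ hw0
      nlinarith [mul_pos hC₃0 hC₁]
    · exact mul_le_mul_of_nonneg_left hwY hC₂.le
  obtain ⟨B, hB⟩ : ∃ B : Finset (Ideal (𝓞 K) × ClassGroup (𝓞 K)),
      B = S.image fun q => (b₀ q, clI (I q) ^ l) := ⟨_, rfl⟩
  have hBT : (B.card : ℝ) ≤ T := by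
    refine hPB K Q B fun x hx => ?_
    rw [hB, Finset.mem_image] at hx
    obtain ⟨q, hq, rfl⟩ := hx
    obtain ⟨-, -, k3, k4, k5, -, -, -, -⟩ := hdata q hq
    refine ⟨k3, k4, (hnorm q hq).1, ?_⟩
    change clI (b₀ q) = (clI (I q) ^ l) ^ m
    rw [k5, ← pow_mul, hnlm]
  obtain ⟨R, hR, hRc⟩ := ClassP.triples h6 Q l N (⌊Real.log (1 + C₂ * Y) / Real.log 2⌋₊ + 1) hTB B
  have hmaps : ∀ q ∈ S, (Nat.log 2 (e q), (b₀ q, clI (I q))) ∈ R := by
    intro q hq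
    refine hR _ _ _ (ClassP.expo _ (hdata q hq).2.1 (hnorm q hq).2) ?_
    rw [hB]
    exact Finset.mem_image.2 ⟨q, hq, rfl⟩
  have hfib : ∀ p ∈ R, (S.filter fun q => (Nat.log 2 (e q), (b₀ q, clI (I q))) = p).card ≤
      ⌊C₁ * (H * Real.sqrt Δ / d)⌋₊ := by
    rintro ⟨j, b', c'⟩ -
    refine Nat.le_floor ?_
    refine hFib d K Q hd hd2 b' c' H Δ (Real.sqrt Δ * Y / 8) (2 ^ j) _ hH0 hΔ
      (by have := Real.sqrt_pos.2 hΔ; positivity) Nat.one_le_two_pow ?_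
    intro q hq
    rw [Finset.mem_filter] at hq
    obtain ⟨hqS, hqp⟩ := hq
    obtain ⟨k1, k2, k3, k4, k5, k6, k7, k8, k9⟩ := hdata q hqS
    obtain ⟨g1, g2, g3⟩ := hdisc q hqS
    have hj : Nat.log 2 (e q) = j := congrArg Prod.fst hqp
    have hbc : (b₀ q, clI (I q)) = (b', c') := congrArg Prod.snd hqp
    have hb' : b₀ q = b' := congrArg Prod.fst hbc
    have hc' : clI (I q) = c' := congrArg Prod.snd hbc
    refine ⟨g3, g1, g2, θ q, ψ q, I q, e q, ?_, ?_, ?_, hc', k6, k7, ?_⟩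
    · rw [← hj]
      exact Nat.pow_log_le_self 2 (by omega)
    · rw [← hj]
      have := Nat.lt_pow_succ_log_self (b := 2) (by norm_num) (e q)
      rw [pow_succ] at this
      omega
    · rw [← hb']
      exact k1
    · refine k8.trans (le_of_eq ?_)
      ring
  have hcard := Finset.card_le_mul_card_image_of_maps_to hmaps _ hfib
  have hcard' : (S.card : ℝ) ≤ (⌊C₁ * (H * Real.sqrt Δ / d)⌋₊ : ℝ) * (R.card : ℝ) := by
    exact_mod_cast hcard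
  have hfl : (⌊C₁ * (H * Real.sqrt Δ / d)⌋₊ : ℝ) ≤ C₁ * (H * Real.sqrt Δ / d) :=
    Nat.floor_le (by positivity)
  have hRc' : (R.card : ℝ) ≤ (C₃ * (1 + Real.log Y)) * (T * N) := by
    have e1 : (R.card : ℝ) ≤
        (((⌊Real.log (1 + C₂ * Y) / Real.log 2⌋₊ + 1) * (B.card * N) : ℕ) : ℝ) := by
      exact_mod_cast hRc
    refine e1.trans ?_
    rw [Nat.cast_mul, Nat.cast_mul]
    have e2 := ClassP.logs hC₂ hY
    rw [← hC₃] at e2
    exact mul_le_mul e2 (mul_le_mul_of_nonneg_right hBT (Nat.cast_nonneg _)) (by positivity)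
      (by positivity)
  have hfin : (S.card : ℝ) ≤
      C₁ * (H * Real.sqrt Δ / d) * ((C₃ * (1 + Real.log Y)) * (T * N)) :=
    hcard'.trans (mul_le_mul hfl hRc' (Nat.cast_nonneg _) (by positivity))
  refine hfin.trans ?_
  have e3 : C₁ * (H * Real.sqrt Δ / d) * ((C₃ * (1 + Real.log Y)) * (T * N)) =
      C₃ * C₁ * ((1 + Real.log Y) * N * T * (H * Real.sqrt Δ / d)) := by ring
  have e4 : (1 + C₂ + C₃ * C₁) * (1 + Real.log Y) * N * T * (H * Real.sqrt Δ / d) =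
      (1 + C₂ + C₃ * C₁) * ((1 + Real.log Y) * N * T * (H * Real.sqrt Δ / d)) := by ring
  rw [e3, e4]
  refine mul_le_mul_of_nonneg_right (by linarith) ?_
  positivity

end Pool.Agent.MP211W
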