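import Pool.Agent.Lib.MP_211f72_nt.W.SpecE

/-!
# MP_211f72_nt, third theorem, part E4: all quadratic polynomials
-/

set_option autoImplicit false

namespace Pool.Agent.MP211W

namespace ClassQ

private theorem disc_le (q : Qd) (H : ℝ) (h : (q.ht : ℝ) ≤ H) : (q.disc : ℝ) ≤ 5 * H ^ 2 := by
  have ha : |(q.a : ℝ)| ≤ H := by
    have h1 : |q.a| ≤ q.ht := le_max_left _ _
    have h2 : ((|q.a| : ℤ) : ℝ) ≤ (q.ht : ℝ) := by exact_mod_cast h1
    rw [Int.cast_abs] at h2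
    exact h2.trans h
  have hb : |(q.b : ℝ)| ≤ H := by
    have h1 : |q.b| ≤ q.ht := (le_max_left _ _).trans (le_max_right _ _)
    have h2 : ((|q.b| : ℤ) : ℝ) ≤ (q.ht : ℝ) := by exact_mod_cast h1
    rw [Int.cast_abs] at h2
    exact h2.trans h
  have hc : |(q.c : ℝ)| ≤ H := by
    have h1 : |q.c| ≤ q.ht := (le_max_right _ _).trans (le_max_right _ _)
    have h2 : ((|q.c| : ℤ) : ℝ) ≤ (q.ht : ℝ) := by exact_mod_cast h1
    rw [Int.cast_abs] at h2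
    exact h2.trans h
  have hH : 0 ≤ H := (abs_nonneg _).trans ha
  have e : (q.disc : ℝ) = (q.b : ℝ) ^ 2 - 4 * ((q.a : ℝ) * (q.c : ℝ)) := by
    unfold Qd.disc
    push_cast
    ring
  have h1 : (q.b : ℝ) ^ 2 ≤ H ^ 2 := by
    rw [← sq_abs (q.b : ℝ)]
    exact pow_le_pow_left₀ (abs_nonneg _) hb 2
  have h2 : |(q.a : ℝ) * (q.c : ℝ)| ≤ H * H := by
    rw [abs_mul]
    exact mul_le_mul ha hc (abs_nonneg _) hH
  have h3 := neg_abs_le ((q.a : ℝ) * (q.c : ℝ))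
  rw [e]
  nlinarith

private theorem sqf (D : ℤ) (h0 : 0 < D) (hs : ¬ IsSquare D) :
    ∃ d f : ℕ, Squarefree d ∧ 2 ≤ d ∧ (d : ℤ) ≤ D ∧ D = (f : ℤ) ^ 2 * (d : ℤ) := by
  obtain ⟨m, rfl⟩ : ∃ m : ℕ, D = (m : ℤ) := ⟨D.toNat, by omega⟩
  obtain ⟨d, f, hfd, hd⟩ := Nat.sq_mul_squarefree m
  have hm : m ≠ 0 := by
    rintro rfl
    simp at h0
  have hd0 : d ≠ 0 := by
    rintro rfl
    exact hm (by rw [← hfd, mul_zero])
  have hf0 : f ≠ 0 := by
    rintro rfl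
    exact hm (by rw [← hfd]; simp)
  have hd1 : d ≠ 1 := by
    rintro rfl
    refine hs ⟨(f : ℤ), ?_⟩
    rw [← hfd]
    push_cast
    ring
  refine ⟨d, f, hd, by omega, ?_, ?_⟩
  · have : d ≤ m := by
      rw [← hfd]
      exact Nat.le_mul_of_pos_left d (by positivity)
    exact_mod_cast this
  · rw [← hfd]
    push_cast
    ring

/-- the number of dyadic blocks -/
private theorem blocks (L : ℕ) (Y ε : ℝ) (hY : 1 ≤ Y) (hε : 0 < ε)
    (h : ((2 : ℝ) ^ L) ≤ 10 * Y ^ 2) : (L : ℝ) + 1 ≤ (21 + 8 / ε) * Y ^ (ε / 2) := by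
  have hY0 : 0 < Y := by linarith
  have h1 : (L : ℝ) * Real.log 2 ≤ Real.log 10 + 2 * Real.log Y := by
    have h2 := Real.log_le_log (by positivity) h
    rw [Real.log_pow, Real.log_mul (by norm_num) (by positivity), Real.log_pow] at h2
    exact_mod_cast h2
  have h2 : (1 : ℝ) / 2 ≤ Real.log 2 := by
    have := Real.log_two_gt_d9
    linarith
  have h3 : Real.log 10 ≤ 9 := by
    have := Real.log_le_sub_one_of_pos (show (0 : ℝ) < 10 by norm_num)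
    linarith
  have h4 : Real.log Y ≤ Y ^ (ε / 2) / (ε / 2) := Real.log_le_rpow_div hY0.le (by linarith)
  have h5 : (L : ℝ) * (1 / 2) ≤ (L : ℝ) * Real.log 2 :=
    mul_le_mul_of_nonneg_left h2 (Nat.cast_nonneg L)
  have h6 : 1 ≤ Y ^ (ε / 2) := Real.one_le_rpow hY (by linarith)
  have h7 : Y ^ (ε / 2) / (ε / 2) = 2 / ε * Y ^ (ε / 2) := by
    field_simp
  rw [h7] at h4
  have h8 : (L : ℝ) ≤ 2 * (9 + 2 * (2 / ε * Y ^ (ε / 2))) := by linarith
  have h9 : (21 + 8 / ε) * Y ^ (ε / 2) = 21 * Y ^ (ε / 2) + 4 * (2 / ε * Y ^ (ε / 2)) := by ring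
  rw [h9]
  linarith

end ClassQ

open ClassQ in
theorem wClassQ (h1 : S_Near1) (h2 : S_BlockS) : S_ClassQ := by
  classical
  intro n l m κ hn hnlm hm hκ hκm hT ε hε
  obtain ⟨C1, hC1, hB⟩ := h2 n l m κ hn hnlm hm hκ hκm hT (ε / 2) (by linarith)
  refine ⟨C1 * (21 + 8 / ε), by positivity, ?_⟩
  intro Y δ H Δ S hY hH hHY hδ hδ1 h100 hYH hS
  have hY0 : 0 < Y := by linarith
  have hH0 : 0 < H := by linarith
  -- every `q` has a squarefree part
  have key : ∀ q ∈ S, ∃ d f : ℕ, Squarefree d ∧ 2 ≤ d ∧ (d : ℤ) ≤ q.disc ∧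
      q.disc = (f : ℤ) ^ 2 * (d : ℤ) := by
    intro q hq
    obtain ⟨ξ, x, hN⟩ := hS q hq
    obtain ⟨hG, hht, _, _, _, h0, h1', hNr, hL⟩ := hN
    exact sqf q.disc (h1.1 n Y δ H ξ q x (by omega) hδ h100 hG hht h0 h1' hNr hL) hG.2.2
  set X : ℕ := ⌊10 * Y ^ 2⌋₊ with hX
  have hX1 : 1 ≤ X := by
    rw [hX]
    apply Nat.le_floor
    push_cast
    nlinarith
  let g : Qd → ℕ := fun q => if h : q ∈ S then (key q h).choose else 0
  have hg : ∀ q ∈ S, ∃ f : ℕ, Squarefree (g q) ∧ 2 ≤ g q ∧ (g q : ℤ) ≤ q.disc ∧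
      q.disc = (f : ℤ) ^ 2 * (g q : ℤ) := by
    intro q hq
    have e : g q = (key q hq).choose := by
      simp only [g]
      rw [dif_pos hq]
    rw [e]
    exact (key q hq).choose_spec
  have hgX : ∀ q ∈ S, g q ≤ X := by
    intro q hq
    obtain ⟨f, _, e2, e3, _⟩ := hg q hq
    rw [hX]
    apply Nat.le_floor
    obtain ⟨ξ, x, hNq⟩ := hS q hq
    have e4 : ((g q : ℤ) : ℝ) ≤ (q.disc : ℝ) := by exact_mod_cast e3
    have e5 := disc_le q H hNq.2.1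
    have e6 : H ^ 2 ≤ Y ^ 2 := pow_le_pow_left₀ hH0.le hHY 2
    push_cast at e4
    nlinarith
  have hmaps : ∀ q ∈ S, Nat.log 2 (g q) ∈ Finset.range (Nat.log 2 X + 1) := by
    intro q hq
    rw [Finset.mem_range, Nat.lt_succ_iff]
    exact Nat.log_mono_right (hgX q hq)
  have hcard : (S.card : ℝ) = ∑ i ∈ Finset.range (Nat.log 2 X + 1),
      ((S.filter fun q => Nat.log 2 (g q) = i).card : ℝ) := by
    rw [Finset.card_eq_sum_card_fiberwise hmaps]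
    push_cast
    rfl
  set B : ℝ := H ^ 2 * Real.sqrt Δ * (Y * δ / H ^ (n - 1)) ^ κ with hBdef
  have hB0 : 0 ≤ B := by positivity
  have hterm : ∀ i ∈ Finset.range (Nat.log 2 X + 1),
      ((S.filter fun q => Nat.log 2 (g q) = i).card : ℝ) ≤ C1 * Y ^ (ε / 2) * B := by
    intro i _
    refine hB (2 ^ i) Y δ H Δ _ Nat.one_le_two_pow hY hH hHY hδ hδ1 h100 hYH fun q hq => ?_
    obtain ⟨hqS, hqi⟩ := Finset.mem_filter.1 hq
    obtain ⟨f, e1, e2, _, e4⟩ := hg q hqS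
    refine ⟨⟨g q, f, e1, e2, ?_, ?_, e4⟩, hS q hqS⟩
    · rw [← hqi]
      exact Nat.pow_log_le_self 2 (by omega)
    · rw [← hqi, ← pow_succ']
      exact Nat.lt_pow_succ_log_self (by norm_num) _
  have hL : ((Nat.log 2 X : ℕ) : ℝ) + 1 ≤ (21 + 8 / ε) * Y ^ (ε / 2) := by
    refine blocks _ Y ε hY hε ?_
    have e1 : 2 ^ Nat.log 2 X ≤ X := Nat.pow_log_le_self 2 (by omega)
    have e2 : ((2 : ℝ) ^ Nat.log 2 X) ≤ (X : ℝ) := by exact_mod_cast e1
    exact e2.trans (Nat.floor_le (by positivity))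
  calc (S.card : ℝ) = ∑ i ∈ Finset.range (Nat.log 2 X + 1),
        ((S.filter fun q => Nat.log 2 (g q) = i).card : ℝ) := hcard
    _ ≤ ∑ i ∈ Finset.range (Nat.log 2 X + 1), C1 * Y ^ (ε / 2) * B := Finset.sum_le_sum hterm
    _ = (((Nat.log 2 X : ℕ) : ℝ) + 1) * (C1 * Y ^ (ε / 2) * B) := by
        rw [Finset.sum_const, Finset.card_range, nsmul_eq_mul]
        push_cast
        ring
    _ ≤ ((21 + 8 / ε) * Y ^ (ε / 2)) * (C1 * Y ^ (ε / 2) * B) :=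
        mul_le_mul_of_nonneg_right hL (by positivity)
    _ = C1 * (21 + 8 / ε) * Y ^ ε * B := by
        have e : Y ^ ε = Y ^ (ε / 2) * Y ^ (ε / 2) := by
          rw [← Real.rpow_add hY0]
          congr 1
          ring
        rw [e]
        ring

theorem wClassQ1 (h1 : S_ClassA) : S_ClassQ1 := by
  intro n κ hn hκ hκ1 hT ε hε
  obtain ⟨C, hC, hA⟩ := h1 n (by omega) hT ε hε
  refine ⟨C, hC, ?_⟩
  intro Y δ H Δ S hY hH hHY hδ hδ1 h100 hYH hS
  have hY0 : 0 < Y := by linarith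
  have hH0 : 0 < H := by linarith
  have hw0 : 0 < Y * δ / H ^ (n - 1) := by positivity
  have hw1 : Y * δ / H ^ (n - 1) ≤ 1 := by
    rw [div_le_one (by positivity)]
    exact hYH
  have hw : Y * δ / H ^ (n - 1) ≤ (Y * δ / H ^ (n - 1)) ^ κ := by
    have := Real.rpow_le_rpow_of_exponent_ge hw0 hw1 hκ1
    rwa [Real.rpow_one] at this
  have e1 : Y * δ / H ^ (n - 2) = Y * δ / H ^ (n - 1) * H := by
    have e2 : H ^ (n - 1) = H ^ (n - 2) * H := by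
      rw [← pow_succ]
      congr 1
      omega
    rw [e2]
    field_simp
  refine (hA Y δ H Δ S hY hH hHY hδ hδ1 h100 hS).trans ?_
  rw [e1]
  have e3 : C * Y ^ ε * (Y * δ / H ^ (n - 1) * H) * (H * Real.sqrt Δ) =
      C * Y ^ ε * (H ^ 2 * Real.sqrt Δ * (Y * δ / H ^ (n - 1))) := by ring
  rw [e3]
  gcongr

end Pool.Agent.MP211W
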