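import Pool.Agent.Lib.MP_211f72_nt.W.SpecC
import Pool.Agent.Lib.MP_640417_ag.All.Divisor

/-!
# MP_211f72_nt, third theorem: CntQ, counting quadratic polynomials by their discriminant
-/

set_option autoImplicit false

namespace Pool.Agent.MP211W

namespace CntQ

open Finset

theorem card_near (T : Finset ℤ) (u L : ℝ) (hL : 0 ≤ L) (hT : ∀ t ∈ T, |(t : ℝ) - u| ≤ L) :
    (T.card : ℝ) ≤ 2 * L + 1 := by
  have hsub : T ⊆ Finset.Icc ⌈u - L⌉ ⌊u + L⌋ := by
    intro t ht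
    have := abs_le.1 (hT t ht)
    rw [Finset.mem_Icc]
    exact ⟨Int.ceil_le.2 (by linarith), Int.le_floor.2 (by linarith)⟩
  have h1 := Finset.card_le_card hsub
  rw [Int.card_Icc] at h1
  by_cases hle : ⌈u - L⌉ ≤ ⌊u + L⌋ + 1
  · have h2 : ((⌊u + L⌋ + 1 - ⌈u - L⌉).toNat : ℝ) = (⌊u + L⌋ : ℝ) + 1 - ⌈u - L⌉ := by
      have : ((⌊u + L⌋ + 1 - ⌈u - L⌉).toNat : ℤ) = ⌊u + L⌋ + 1 - ⌈u - L⌉ :=
        Int.toNat_of_nonneg (by omega)
      exact_mod_cast this
    have h3 := Int.floor_le (u + L)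
    have h4 := Int.le_ceil (u - L)
    have h5 : (T.card : ℝ) ≤ ((⌊u + L⌋ + 1 - ⌈u - L⌉).toNat : ℝ) := by exact_mod_cast h1
    linarith
  · have h2 : (⌊u + L⌋ + 1 - ⌈u - L⌉).toNat = 0 := Int.toNat_of_nonpos (by omega)
    have h3 : T.card = 0 := by omega
    rw [h3]
    push_cast
    linarith

theorem fib1 (S : Finset Qd) (a b : ℤ) (Z : ℝ) (ha : a ≠ 0) (hZ : 0 ≤ Z)
    (hS : ∀ q ∈ S, q.a = a ∧ q.b = b ∧ |(q.disc : ℝ)| ≤ Z) :
    (S.card : ℝ) ≤ Z / (2 * |(a : ℝ)|) + 1 := by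
  classical
  have haR : (a : ℝ) ≠ 0 := Int.cast_ne_zero.2 ha
  have ha0 : 0 < |(a : ℝ)| := abs_pos.2 haR
  have hinj : Set.InjOn Qd.c (S : Set Qd) := fun q hq q' hq' h =>
    Qd.ext ((hS q hq).1.trans (hS q' hq').1.symm) ((hS q hq).2.1.trans (hS q' hq').2.1.symm) h
  rw [← card_image_of_injOn hinj]
  have h1 := card_near (S.image Qd.c) ((b : ℝ) ^ 2 / (4 * a)) (Z / (4 * |(a : ℝ)|))
    (by positivity) (by
      intro t ht
      obtain ⟨q, hq, rfl⟩ := mem_image.1 ht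
      obtain ⟨h1, h2, h3⟩ := hS q hq
      have e : (q.c : ℝ) - (b : ℝ) ^ 2 / (4 * a) = -(q.disc : ℝ) / (4 * a) := by
        unfold Qd.disc
        rw [h1, h2]
        push_cast
        field_simp
        ring
      rw [e, abs_div, abs_neg, abs_mul, abs_of_pos (by norm_num : (0 : ℝ) < 4)]
      exact div_le_div_of_nonneg_right h3 (by positivity))
  have e : 2 * (Z / (4 * |(a : ℝ)|)) + 1 = Z / (2 * |(a : ℝ)|) + 1 := by
    field_simp
    ring
  rw [e] at h1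
  exact h1

theorem fib1' (S : Finset Qd) (k : ℕ) (b : ℤ) (Z : ℝ) (hk : 1 ≤ k) (hZ : 0 ≤ Z)
    (hS : ∀ q ∈ S, q.a.natAbs = k ∧ q.b = b ∧ |(q.disc : ℝ)| ≤ Z) :
    (S.card : ℝ) ≤ Z * (k : ℝ)⁻¹ + 2 := by
  classical
  have h1 := fib1 (S.filter (fun q => q.a = (k : ℤ))) k b Z (by omega) hZ (by
    intro q hq
    rw [mem_filter] at hq
    exact ⟨hq.2, (hS q hq.1).2⟩)
  have h2 := fib1 (S.filter (fun q => ¬ q.a = (k : ℤ))) (-k) b Z (by omega) hZ (by
    intro q hq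
    rw [mem_filter] at hq
    have := (hS q hq.1).1
    exact ⟨by omega, (hS q hq.1).2⟩)
  have h3 := card_filter_add_card_filter_not (s := S) (fun q => q.a = (k : ℤ))
  have hk0 : (0 : ℝ) < k := by exact_mod_cast hk
  have e1 : Z / (2 * |((k : ℤ) : ℝ)|) = Z * (k : ℝ)⁻¹ / 2 := by
    rw [Int.cast_natCast, abs_of_pos hk0]
    field_simp
  have e2 : Z / (2 * |((-(k : ℤ) : ℤ) : ℝ)|) = Z * (k : ℝ)⁻¹ / 2 := by
    rw [Int.cast_neg, Int.cast_natCast, abs_neg, abs_of_pos hk0]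
    field_simp
  rw [e1] at h1
  rw [e2] at h2
  have h4 : ((S.filter (fun q => q.a = (k : ℤ))).card : ℝ) +
      ((S.filter (fun q => ¬ q.a = (k : ℤ))).card : ℝ) = (S.card : ℝ) := by exact_mod_cast h3
  linarith

theorem bounds {q : Qd} {H : ℝ} (h : (q.ht : ℝ) ≤ H) :
    q.a.natAbs ≤ ⌊H⌋₊ ∧ q.b.natAbs ≤ ⌊H⌋₊ ∧ q.c.natAbs ≤ ⌊H⌋₊ := by
  have key : ∀ t : ℤ, |t| ≤ q.ht → t.natAbs ≤ ⌊H⌋₊ := by
    intro t ht
    apply Nat.le_floor
    rw [Nat.cast_natAbs]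
    exact le_trans (by exact_mod_cast ht) h
  exact ⟨key _ (le_max_left _ _), key _ ((le_max_left _ _).trans (le_max_right _ _)),
    key _ ((le_max_right _ _).trans (le_max_right _ _))⟩

theorem part1 (H Z : ℝ) (S : Finset Qd) (hH : 1 ≤ H) (hZ : 1 ≤ Z)
    (hS : ∀ q ∈ S, q.a ≠ 0 ∧ (q.ht : ℝ) ≤ H ∧ |(q.disc : ℝ)| ≤ Z) :
    (S.card : ℝ) ≤ 6 * (H ^ 2 + H * Z * (1 + Real.log H)) := by
  classical
  set h := ⌊H⌋₊ with hh
  have hhH : (h : ℝ) ≤ H := Nat.floor_le (by linarith)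
  have hmap : (S : Set Qd).MapsTo (fun q => (q.a.natAbs, q.b))
      ((Icc 1 h ×ˢ Icc (-(h : ℤ)) h : Finset (ℕ × ℤ)) : Set (ℕ × ℤ)) := by
    intro q hq
    obtain ⟨h1, h2, -⟩ := hS q hq
    obtain ⟨ka, kb, -⟩ := bounds h2
    rw [← hh] at ka kb
    simp only [coe_product, Set.mem_prod, mem_coe, mem_Icc]
    omega
  rw [card_eq_sum_card_fiberwise hmap]
  push_cast
  have hharm : ∑ k ∈ Icc 1 h, ((k : ℝ))⁻¹ ≤ 1 + Real.log H := by
    have h1 := harmonic_floor_le_one_add_log H hH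
    rw [harmonic_eq_sum_Icc] at h1
    push_cast at h1
    exact h1
  have hsum : ∑ p ∈ Icc 1 h ×ˢ Icc (-(h : ℤ)) h, (Z * ((p.1 : ℝ))⁻¹ + 2) =
      (2 * (h : ℝ) + 1) * (Z * ∑ k ∈ Icc 1 h, ((k : ℝ))⁻¹ + 2 * h) := by
    rw [sum_product]
    simp only [sum_const, Int.card_Icc, nsmul_eq_mul]
    have e : ((((h : ℤ) + 1 - -(h : ℤ)).toNat : ℕ) : ℝ) = 2 * (h : ℝ) + 1 := by
      have : ((h : ℤ) + 1 - -(h : ℤ)).toNat = 2 * h + 1 := by omega
      rw [this]
      push_cast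
      ring
    rw [e, ← mul_sum, sum_add_distrib, ← mul_sum, sum_const, Nat.card_Icc, nsmul_eq_mul]
    have e' : ((h + 1 - 1 : ℕ) : ℝ) = h := by simp
    rw [e']
    ring
  refine (sum_le_sum (g := fun p : ℕ × ℤ => Z * ((p.1 : ℝ))⁻¹ + 2) ?_).trans ?_
  · rintro ⟨k, b⟩ hp
    rw [mem_product, mem_Icc] at hp
    refine fib1' _ k b Z hp.1.1 (by linarith) ?_
    intro q hq
    rw [mem_filter] at hq
    have h1 := hS q hq.1
    exact ⟨congrArg Prod.fst hq.2, congrArg Prod.snd hq.2, h1.2.2⟩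
  · rw [hsum]
    have hlog : 0 ≤ Real.log H := Real.log_nonneg hH
    have h1 : Z * ∑ k ∈ Icc 1 h, ((k : ℝ))⁻¹ ≤ Z * (1 + Real.log H) :=
      mul_le_mul_of_nonneg_left hharm (by linarith)
    have h0 : 0 ≤ Z * (1 + Real.log H) := mul_nonneg (by linarith) (by linarith)
    calc (2 * (h : ℝ) + 1) * (Z * ∑ k ∈ Icc 1 h, ((k : ℝ))⁻¹ + 2 * h)
        ≤ (3 * H) * (Z * (1 + Real.log H) + 2 * H) := by
          apply mul_le_mul (by linarith) (by linarith) _ (by linarith)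
          have : 0 ≤ ∑ k ∈ Icc 1 h, ((k : ℝ))⁻¹ := sum_nonneg fun _ _ => by positivity
          positivity
      _ ≤ 6 * (H ^ 2 + H * Z * (1 + Real.log H)) := by
          have : 0 ≤ H * (Z * (1 + Real.log H)) := mul_nonneg (by linarith) h0
          nlinarith

theorem same {q q' : Qd} {b D : ℤ} (h : q.a ≠ 0) (h1 : q.b = b) (h2 : q.disc = D)
    (h1' : q'.b = b) (h2' : q'.disc = D) (ha : q.a = q'.a) : q = q' := by
  have e : 4 * q.a * q.c = 4 * q.a * q'.c := by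
    unfold Qd.disc at h2 h2'
    rw [h1] at h2
    rw [h1', ← ha] at h2'
    linarith
  have hc : q.c = q'.c := mul_left_cancel₀ (mul_ne_zero (by norm_num) h) e
  exact Qd.ext ha (h1.trans h1'.symm) hc

theorem fib2h (S : Finset Qd) (b D : ℤ) (hD : b ^ 2 ≠ D)
    (hS : ∀ q ∈ S, q.a ≠ 0 ∧ q.b = b ∧ q.disc = D)
    (hs : ∀ q ∈ S, ∀ q' ∈ S, q.a.natAbs = q'.a.natAbs → q.a = q'.a) :
    S.card ≤ (b ^ 2 - D).natAbs.divisors.card := by
  refine card_le_card_of_injOn (fun q => q.a.natAbs) ?_ ?_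
  · intro q hq
    obtain ⟨-, h2, h3⟩ := hS q hq
    rw [mem_coe, Nat.mem_divisors]
    refine ⟨Int.natAbs_dvd_natAbs.2 ⟨4 * q.c, ?_⟩, ?_⟩
    · unfold Qd.disc at h3
      rw [h2] at h3
      rw [← h3]
      ring
    · rw [Int.natAbs_ne_zero]
      exact sub_ne_zero.2 hD
  · intro q hq q' hq' h
    exact same (hS q hq).1 (hS q hq).2.1 (hS q hq).2.2 (hS q' hq').2.1 (hS q' hq').2.2
      (hs q hq q' hq' h)

theorem fib2 (S : Finset Qd) (b D : ℤ) (hD : b ^ 2 ≠ D)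
    (hS : ∀ q ∈ S, q.a ≠ 0 ∧ q.b = b ∧ q.disc = D) :
    S.card ≤ 2 * (b ^ 2 - D).natAbs.divisors.card := by
  classical
  have h1 := fib2h (S.filter (fun q => 0 < q.a)) b D hD
    (fun q hq => hS q (mem_filter.1 hq).1) (fun q hq q' hq' h => by
      have := (mem_filter.1 hq).2
      have := (mem_filter.1 hq').2
      omega)
  have h2 := fib2h (S.filter (fun q => ¬ 0 < q.a)) b D hD
    (fun q hq => hS q (mem_filter.1 hq).1) (fun q hq q' hq' h => by
      have := (mem_filter.1 hq).2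
      have := (mem_filter.1 hq').2
      omega)
  have h3 := card_filter_add_card_filter_not (s := S) (fun q => 0 < q.a)
  omega

theorem part2 (ε C₀ : ℝ) (hε : 0 < ε) (hC₀ : 0 < C₀)
    (hdiv : ∀ m : ℕ, 0 < m → (m.divisors.card : ℝ) ≤ C₀ * (m : ℝ) ^ (ε / 2))
    (H Z : ℝ) (S : Finset Qd) (hH : 1 ≤ H) (hZ : 1 ≤ Z)
    (hS : ∀ q ∈ S, q.a ≠ 0 ∧ (q.ht : ℝ) ≤ H ∧ |(q.disc : ℝ)| ≤ Z) :
    (S.card : ℝ) ≤ (18 * C₀ * (4 : ℝ) ^ (ε / 2) + 9) * (H ^ (1 + ε) * Z) := by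
  classical
  set h := ⌊H⌋₊ with hh
  set z := ⌊Z⌋₊ with hz
  have hhH : (h : ℝ) ≤ H := Nat.floor_le (by linarith)
  have hzZ : (z : ℝ) ≤ Z := Nat.floor_le (by linarith)
  have hH0 : 0 < H := by linarith
  have hcardI : ∀ k : ℕ, (((Icc (-(k : ℤ)) k).card : ℕ) : ℝ) = 2 * (k : ℝ) + 1 := by
    intro k
    rw [Int.card_Icc]
    have : ((k : ℤ) + 1 - -(k : ℤ)).toNat = 2 * k + 1 := by omega
    rw [this]
    push_cast
    ring
  set M : ℝ := 2 * (C₀ * (4 * H ^ 2) ^ (ε / 2)) with hM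
  have hM0 : 0 ≤ M := by positivity
  have hmap : (S : Set Qd).MapsTo (fun q => (q.b, q.disc))
      ((Icc (-(h : ℤ)) h ×ˢ Icc (-(z : ℤ)) z : Finset (ℤ × ℤ)) : Set (ℤ × ℤ)) := by
    intro q hq
    obtain ⟨h1, h2, h3⟩ := hS q hq
    obtain ⟨ka, kb, -⟩ := bounds h2
    have kd : q.disc.natAbs ≤ ⌊Z⌋₊ := by
      apply Nat.le_floor
      rw [Nat.cast_natAbs, Int.cast_abs]
      exact h3
    rw [← hh] at kb
    rw [← hz] at kd
    simp only [coe_product, Set.mem_prod, mem_coe, mem_Icc]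
    omega
  rw [card_eq_sum_card_fiberwise hmap]
  push_cast
  refine (sum_le_sum (g := fun p : ℤ × ℤ => M + if p.1 ^ 2 = p.2 then 3 * H else 0) ?_).trans ?_
  · rintro ⟨b, D⟩ hp
    have hfib : ∀ q ∈ S.filter (fun q => (q.b, q.disc) = (b, D)),
        q ∈ S ∧ q.a ≠ 0 ∧ q.b = b ∧ q.disc = D := by
      intro q hq
      rw [mem_filter] at hq
      exact ⟨hq.1, (hS q hq.1).1, congrArg Prod.fst hq.2, congrArg Prod.snd hq.2⟩
    by_cases hD : b ^ 2 = D
    · simp only [hD, if_true]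
      have h1 : ((S.filter (fun q => (q.b, q.disc) = (b, D))).card : ℝ) ≤ 2 * (h : ℝ) + 1 := by
        rw [← hcardI h]
        norm_cast
        refine card_le_card_of_injOn Qd.a ?_ ?_
        · intro q hq
          obtain ⟨h1, -⟩ := hfib q hq
          obtain ⟨ka, -⟩ := bounds (hS q h1).2.1
          rw [← hh] at ka
          rw [mem_coe, mem_Icc]
          omega
        · intro q hq q' hq' h
          obtain ⟨-, k1, k2, k3⟩ := hfib q hq
          obtain ⟨-, -, k2', k3'⟩ := hfib q' hq'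
          exact same k1 k2 k3 k2' k3' h
      linarith
    · simp only [hD, if_false, add_zero]
      rcases (S.filter (fun q => (q.b, q.disc) = (b, D))).eq_empty_or_nonempty with he | ⟨q, hq⟩
      · rw [he]
        simpa using hM0
      · have h1 := fib2 _ b D hD (fun q hq => (hfib q hq).2)
        obtain ⟨k0, k1, k2, k3⟩ := hfib q hq
        obtain ⟨ka, -, kc⟩ := bounds (hS q k0).2.1
        have hpos : 0 < (b ^ 2 - D).natAbs := Int.natAbs_pos.2 (sub_ne_zero.2 hD)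
        have hle : (((b ^ 2 - D).natAbs : ℕ) : ℝ) ≤ 4 * H ^ 2 := by
          have e : b ^ 2 - D = 4 * (q.a * q.c) := by
            unfold Qd.disc at k3
            rw [k2] at k3
            rw [← k3]
            ring
          have e1 : (b ^ 2 - D).natAbs = 4 * (q.a.natAbs * q.c.natAbs) := by
            rw [e, Int.natAbs_mul, Int.natAbs_mul]
            rfl
          have e2 : (b ^ 2 - D).natAbs ≤ 4 * (h * h) := by
            rw [e1]
            exact Nat.mul_le_mul_left 4 (Nat.mul_le_mul ka kc)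
          have e3 : (((b ^ 2 - D).natAbs : ℕ) : ℝ) ≤ 4 * ((h : ℝ) * h) := by exact_mod_cast e2
          have e4 : (h : ℝ) * h ≤ H * H := mul_le_mul hhH hhH (by positivity) (by linarith)
          nlinarith
        have h2 := hdiv _ hpos
        have h3 : (((b ^ 2 - D).natAbs : ℕ) : ℝ) ^ (ε / 2) ≤ (4 * H ^ 2) ^ (ε / 2) :=
          Real.rpow_le_rpow (by positivity) hle (by positivity)
        have h4 : ((S.filter (fun q => (q.b, q.disc) = (b, D))).card : ℝ) ≤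
            2 * ((b ^ 2 - D).natAbs.divisors.card : ℝ) := by exact_mod_cast h1
        have h5 : C₀ * (((b ^ 2 - D).natAbs : ℕ) : ℝ) ^ (ε / 2) ≤ C₀ * (4 * H ^ 2) ^ (ε / 2) :=
          mul_le_mul_of_nonneg_left h3 hC₀.le
        rw [hM]
        linarith
  · rw [sum_add_distrib, sum_const, card_product, nsmul_eq_mul]
    push_cast
    rw [hcardI, hcardI, sum_product]
    have hdiag : ∑ b ∈ Icc (-(h : ℤ)) h, ∑ D ∈ Icc (-(z : ℤ)) z,
        (if b ^ 2 = D then 3 * H else 0) ≤ (2 * (z : ℝ) + 1) * (3 * H) := by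
      have e1 : ∀ b : ℤ, ∑ D ∈ Icc (-(z : ℤ)) z, (if b ^ 2 = D then 3 * H else 0) =
          if b ^ 2 ∈ Icc (-(z : ℤ)) z then 3 * H else 0 := by
        intro b
        rw [sum_ite_eq]
      simp only [e1]
      rw [← sum_filter, sum_const, nsmul_eq_mul, ← hcardI z]
      refine mul_le_mul_of_nonneg_right ?_ (by linarith)
      norm_cast
      apply card_le_card
      intro b hb
      rw [mem_filter, mem_Icc, mem_Icc] at hb
      rw [mem_Icc]
      have h1 := hb.2.2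
      constructor
      · nlinarith
      · nlinarith
    have hpow : (4 * H ^ 2) ^ (ε / 2) = (4 : ℝ) ^ (ε / 2) * H ^ ε := by
      rw [Real.mul_rpow (by norm_num) (by positivity), ← Real.rpow_natCast, ← Real.rpow_mul hH0.le]
      congr 2
      push_cast
      ring
    have hHe : H ^ (1 + ε) = H * H ^ ε := by
      rw [Real.rpow_add hH0, Real.rpow_one]
    have hHe1 : 1 ≤ H ^ ε := Real.one_le_rpow hH hε.le
    have h1 : (2 * (h : ℝ) + 1) * (2 * (z : ℝ) + 1) * M ≤ (3 * H) * (3 * Z) * M := by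
      apply mul_le_mul_of_nonneg_right _ hM0
      exact mul_le_mul (by linarith) (by linarith) (by positivity) (by linarith)
    have h2 : (2 * (z : ℝ) + 1) * (3 * H) ≤ (3 * Z) * (3 * H) :=
      mul_le_mul_of_nonneg_right (by linarith) (by linarith)
    have h3 : (3 * Z) * (3 * H) ≤ 9 * (H ^ (1 + ε) * Z) := by
      rw [hHe]
      have : 0 ≤ H * Z * (H ^ ε - 1) := by
        apply mul_nonneg (by positivity) (by linarith)
      nlinarith
    have h4 : (3 * H) * (3 * Z) * M = 18 * C₀ * (4 : ℝ) ^ (ε / 2) * (H ^ (1 + ε) * Z) := by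
      rw [hM, hpow, hHe]
      ring
    linarith

end CntQ

open CntQ in
theorem wCntQ : S_CntQ := by
  intro ε hε
  obtain ⟨C₀, hC₀, hdiv⟩ := Pool.Agent.Lib.MP_640417_ag.All.divisor_bound (ε / 2) (by positivity)
  refine ⟨6 + (18 * C₀ * (4 : ℝ) ^ (ε / 2) + 9), by positivity, ?_⟩
  intro H Z S hH hZ hS
  have hS' : ∀ q ∈ S, q.a ≠ 0 ∧ (q.ht : ℝ) ≤ H ∧ |(q.disc : ℝ)| ≤ Z := fun q hq =>
    ⟨(hS q hq).1, (hS q hq).2.1, (hS q hq).2.2.2⟩
  have h1 := part1 H Z S hH hZ hS'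
  have h2 := part2 ε C₀ hε hC₀ hdiv H Z S hH hZ hS'
  have hlog : 0 ≤ Real.log H := Real.log_nonneg hH
  have hH0 : 0 < H := by linarith
  have hZ0 : 0 < Z := by linarith
  have p1 : 0 ≤ H ^ 2 + H * Z * (1 + Real.log H) := by positivity
  have p2 : 0 ≤ H ^ (1 + ε) * Z := by positivity
  have p3 : 0 ≤ 18 * C₀ * (4 : ℝ) ^ (ε / 2) + 9 := by positivity
  constructor
  · have := mul_nonneg p3 p1
    linarith
  · linarith

end Pool.Agent.MP211W
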