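import Pool.Agent.Lib.MP_211f72_nt.W.SpecB
import Pool.Agent.Lib.MP_211f72_nt.V.Count

set_option autoImplicit false

namespace Pool.Agent.MP211W

open Polynomial
open Pool.Agent.MP211V (rp tc Hb Sl Mx)

namespace CntT

theorem card_int (A : Finset ℤ) (D : ℝ) (hD : 0 ≤ D)
    (h : ∀ a ∈ A, ∀ b ∈ A, |(a : ℝ) - b| ≤ D) : (A.card : ℝ) ≤ 1 + D := by
  rcases A.eq_empty_or_nonempty with rfl | hne
  · simp only [Finset.card_empty, Nat.cast_zero]
    linarith
  · have hsub : A ⊆ Finset.Icc (A.min' hne) (A.min' hne + ⌊D⌋) := by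
      intro a ha
      rw [Finset.mem_Icc]
      refine ⟨A.min'_le a ha, ?_⟩
      have h1 := h a ha (A.min' hne) (A.min'_mem hne)
      have h2 : a - A.min' hne ≤ ⌊D⌋ := by
        rw [Int.le_floor]
        push_cast
        exact (le_abs_self _).trans h1
      omega
    have hc := Finset.card_le_card hsub
    rw [Int.card_Icc] at hc
    have h3 : 0 ≤ ⌊D⌋ := Int.floor_nonneg.mpr hD
    have h4 : ((A.card : ℤ)) ≤ ⌊D⌋ + 1 := by omega
    have h5 : (A.card : ℝ) ≤ ⌊D⌋ + 1 := by exact_mod_cast h4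
    linarith [Int.floor_le D]

theorem card_box {n : ℕ} (A : Finset (Fin n → ℤ)) {h : ℝ} (hh : 1 ≤ h)
    (hA : ∀ a ∈ A, ∀ i, |(a i : ℝ)| ≤ h) : (A.card : ℝ) ≤ (3 * h) ^ n := by
  have h4 : A ⊆ Fintype.piFinset (fun _ : Fin n => Finset.Icc (-⌊h⌋) ⌊h⌋) := by
    intro a ha
    rw [Fintype.mem_piFinset]
    intro i
    exact Pool.Agent.MP211V.Count.abs_floor (hA a ha i)
  have h5 := Finset.card_le_card h4
  rw [Fintype.card_piFinset_const, Int.card_Icc] at h5
  have hfl : (1 : ℤ) ≤ ⌊h⌋ := Int.le_floor.mpr (by push_cast; exact hh)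
  have h6 : (((⌊h⌋ + 1 - -⌊h⌋).toNat : ℕ) : ℝ) ≤ 3 * h := by
    have h7 : (((⌊h⌋ + 1 - -⌊h⌋).toNat : ℤ)) = ⌊h⌋ + 1 - -⌊h⌋ := Int.toNat_of_nonneg (by omega)
    have h8 : (((⌊h⌋ + 1 - -⌊h⌋).toNat : ℕ) : ℝ) = (⌊h⌋ : ℝ) + 1 + ⌊h⌋ := by
      have h9 : ((((⌊h⌋ + 1 - -⌊h⌋).toNat : ℕ) : ℤ) : ℝ) = ((⌊h⌋ + 1 - -⌊h⌋ : ℤ) : ℝ) := by
        rw [h7]
      rw [Int.cast_natCast] at h9
      rw [h9]
      push_cast
      ring
    rw [h8]
    have h10 := Int.floor_le h
    linarith
  have h12 : (A.card : ℝ) ≤ (((⌊h⌋ + 1 - -⌊h⌋).toNat : ℕ) : ℝ) ^ n := by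
    exact_mod_cast h5
  exact h12.trans (pow_le_pow_left₀ (Nat.cast_nonneg _) h6 _)

theorem rp_derivative (F : ℤ[X]) : rp (derivative F) = derivative (rp F) := by
  unfold Pool.Agent.MP211V.rp
  exact (Polynomial.derivative_map F _).symm

/-- mean value inequality -/
theorem mvt (P : ℝ[X]) {M a b x y : ℝ} (hP : Sl (derivative P) M a b) (hax : a ≤ x) (hxb : x ≤ b)
    (hay : a ≤ y) (hyb : y ≤ b) : |P.eval y - P.eval x| ≤ M * |y - x| := by
  have h1 := Convex.norm_image_sub_le_of_norm_deriv_le (𝕜 := ℝ) (f := fun z => P.eval z) (C := M)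
    (s := Set.Icc a b) (x := x) (y := y) (fun z _ => P.differentiableAt) (by
      intro z hz
      rw [Polynomial.deriv]
      exact hP z hz.1 hz.2) (convex_Icc a b) ⟨hax, hxb⟩ ⟨hay, hyb⟩
  rw [Real.norm_eq_abs, Real.norm_eq_abs] at h1
  exact h1

/-- the counting -/
theorem count (h4 : Pool.Agent.MP211V.S_MxCard) {d : ℕ} (hd : 2 ≤ d) {h c e e' D : ℝ} (hh : 1 ≤ h)
    (hD0 : 0 ≤ D) (he' : 0 ≤ e')
    (S : Finset (ℝ × ℝ)) (P : ℝ × ℝ → ℤ[X]) (J : ℝ × ℝ → ℝ × ℝ)
    (hdeg : ∀ p ∈ S, (P p).natDegree = d) (hb : ∀ p ∈ S, Hb (P p) h)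
    (hmx : ∀ p ∈ S, Mx (rp (P p)) c p.1 p.2) (hval : ∀ p ∈ S, |(rp (P p)).eval p.1| ≤ e)
    (hJ : ∀ p ∈ S, Mx (rp (derivative (P p))) e' (J p).1 (J p).2)
    (hJ1 : ∀ p ∈ S, (J p).1 ≤ p.1) (hJ2 : ∀ p ∈ S, p.1 ≤ (J p).2)
    (hD : ∀ p ∈ S, 2 * e + e' * ((J p).2 - (J p).1) ≤ D) :
    (S.card : ℝ) ≤ (2 * (d - 1 : ℕ) * (2 * d)) * (1 + D) * (3 * h) ^ d := by
  classical
  -- fibres with the same upper coefficients and the same interval
  have key0 : ∀ T : Finset (ℝ × ℝ), T ⊆ S →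
      (∀ p ∈ T, ∀ q ∈ T, ∀ i : ℕ, 1 ≤ i → (P p).coeff i = (P q).coeff i) →
      (∀ p ∈ T, ∀ q ∈ T, J p = J q) → (T.card : ℝ) ≤ 2 * d * (1 + D) := by
    intro T hT hco hJJ
    have h5 : T.card ≤ 2 * d * (T.image (fun p => (P p).coeff 0)).card := by
      refine Finset.card_le_mul_card_image T (2 * d) ?_
      intro a _
      refine Pool.Agent.MP211V.Count.card_fib h4 (by omega) (c := c) _ P ?_ ?_ ?_
      · intro p hp
        exact hdeg p (hT (Finset.mem_filter.mp hp).1)
      · intro p hp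
        exact hmx p (hT (Finset.mem_filter.mp hp).1)
      · intro p hp q hq
        left
        obtain ⟨hp1, hp2⟩ := Finset.mem_filter.mp hp
        obtain ⟨hq1, hq2⟩ := Finset.mem_filter.mp hq
        ext n
        rcases Nat.eq_zero_or_pos n with rfl | hn
        · rw [hp2, hq2]
        · exact hco p hp1 q hq1 n hn
    have h6 : ((T.image (fun p => (P p).coeff 0)).card : ℝ) ≤ 1 + D := by
      apply card_int _ D hD0
      intro a ha b hb'
      obtain ⟨p, hp, rfl⟩ := Finset.mem_image.mp ha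
      obtain ⟨q, hq, rfl⟩ := Finset.mem_image.mp hb'
      have hpS := hT hp
      have hqS := hT hq
      have hsub : P p = P q + C ((P p).coeff 0 - (P q).coeff 0) := by
        ext n
        rw [coeff_add, coeff_C]
        rcases Nat.eq_zero_or_pos n with rfl | hn
        · rw [if_pos rfl]
          ring
        · rw [if_neg (by omega), add_zero]
          exact hco p hp q hq n hn
      have hev : ((((P p).coeff 0 : ℤ) : ℝ) - (((P q).coeff 0 : ℤ) : ℝ)) =
          (rp (P p)).eval q.1 - (rp (P q)).eval q.1 := by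
        have h7 : rp (P p) = rp (P q) + C ((((P p).coeff 0 : ℤ) : ℝ) - (((P q).coeff 0 : ℤ) : ℝ)) := by
          have h8 := congrArg rp hsub
          rw [h8]
          unfold Pool.Agent.MP211V.rp
          rw [Polynomial.map_add, Polynomial.map_C]
          congr 2
          rw [eq_intCast]
          push_cast
          ring
        rw [h7, eval_add, eval_C]
        ring
      rw [hev]
      have hJe := hJJ p hp q hq
      have h7 := mvt (rp (P p)) (M := e') (a := (J p).1) (b := (J p).2) (x := p.1) (y := q.1) (by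
        rw [← rp_derivative]
        exact (hJ p hpS).2.1) (hJ1 p hpS) (hJ2 p hpS) (by rw [hJe]; exact hJ1 q hqS)
        (by rw [hJe]; exact hJ2 q hqS)
      have h8 : |q.1 - p.1| ≤ (J p).2 - (J p).1 := by
        have h9 := hJ1 p hpS
        have h10 := hJ2 p hpS
        have h11 := hJ1 q hqS
        have h12 := hJ2 q hqS
        rw [← hJe] at h11 h12
        rw [abs_le]
        constructor <;> linarith
      have h9 := mul_le_mul_of_nonneg_left h8 he'
      have h10 := hval p hpS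
      have h11 := hval q hqS
      have h12 := hD p hpS
      calc |(rp (P p)).eval q.1 - (rp (P q)).eval q.1|
          = |((rp (P p)).eval q.1 - (rp (P p)).eval p.1) + (rp (P p)).eval p.1
              - (rp (P q)).eval q.1| := by
            congr 1
            ring
        _ ≤ |((rp (P p)).eval q.1 - (rp (P p)).eval p.1) + (rp (P p)).eval p.1|
              + |(rp (P q)).eval q.1| := abs_sub _ _
        _ ≤ |((rp (P p)).eval q.1 - (rp (P p)).eval p.1)| + |(rp (P p)).eval p.1|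
              + |(rp (P q)).eval q.1| := by
            have := abs_add_le ((rp (P p)).eval q.1 - (rp (P p)).eval p.1) ((rp (P p)).eval p.1)
            linarith
        _ ≤ D := by linarith
    calc (T.card : ℝ) ≤ 2 * d * ((T.image (fun p => (P p).coeff 0)).card : ℝ) := by
          exact_mod_cast h5
      _ ≤ 2 * d * (1 + D) := mul_le_mul_of_nonneg_left h6 (by positivity)
  have key1 : ∀ T : Finset (ℝ × ℝ), T ⊆ S →
      (∀ p ∈ T, ∀ q ∈ T, ∀ i : ℕ, 1 ≤ i → (P p).coeff i = (P q).coeff i) →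
      (T.card : ℝ) ≤ 2 * (d - 1 : ℕ) * (2 * d * (1 + D)) := by
    intro T hT hco
    obtain ⟨N, hN⟩ : ∃ N : ℕ, N = ⌊2 * (d : ℝ) * (1 + D)⌋₊ := ⟨_, rfl⟩
    have hND : (N : ℝ) ≤ 2 * d * (1 + D) := by
      rw [hN]
      exact Nat.floor_le (by positivity)
    have h5 : T.card ≤ N * (T.image J).card := by
      refine Finset.card_le_mul_card_image T N ?_
      intro a _
      rw [hN]
      apply Nat.le_floor
      apply key0 _ ((Finset.filter_subset _ _).trans hT)
      · intro p hp q hq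
        exact hco p (Finset.mem_filter.mp hp).1 q (Finset.mem_filter.mp hq).1
      · intro p hp q hq
        rw [(Finset.mem_filter.mp hp).2, (Finset.mem_filter.mp hq).2]
    have h6 : (T.image J).card ≤ 2 * (d - 1) := by
      rcases T.eq_empty_or_nonempty with rfl | ⟨p₀, hp₀⟩
      · simp
      · have hdg : (rp (derivative (P p₀))).natDegree = d - 1 := by
          rw [Pool.Agent.MP211V.Count.natDegree_rp, natDegree_derivative, hdeg p₀ (hT hp₀)]
        have h7 := h4 (rp (derivative (P p₀))) e' (T.image J) (by omega) (by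
          intro a ha
          obtain ⟨p, hp, rfl⟩ := Finset.mem_image.mp ha
          have h8 : derivative (P p₀) = derivative (P p) := by
            ext n
            rw [coeff_derivative, coeff_derivative, hco p₀ hp₀ p hp (n + 1) (by omega)]
          rw [h8]
          exact hJ p (hT hp))
        rwa [hdg] at h7
    have h7 : T.card ≤ N * (2 * (d - 1)) := h5.trans (Nat.mul_le_mul_left _ h6)
    calc (T.card : ℝ) ≤ N * (2 * (d - 1 : ℕ)) := by exact_mod_cast h7
      _ ≤ (2 * d * (1 + D)) * (2 * (d - 1 : ℕ)) := mul_le_mul_of_nonneg_right hND (by positivity)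
      _ = 2 * (d - 1 : ℕ) * (2 * d * (1 + D)) := by ring
  -- the upper coefficients
  set f : ℝ × ℝ → (Fin d → ℤ) := fun p i => (P p).coeff (i + 1) with hf
  obtain ⟨N, hN⟩ : ∃ N : ℕ, N = ⌊2 * (d - 1 : ℕ) * (2 * d * (1 + D))⌋₊ := ⟨_, rfl⟩
  have hND : (N : ℝ) ≤ 2 * (d - 1 : ℕ) * (2 * d * (1 + D)) := by
    rw [hN]
    exact Nat.floor_le (by positivity)
  have h5 : S.card ≤ N * (S.image f).card := by
    refine Finset.card_le_mul_card_image S N ?_
    intro a _
    rw [hN]
    apply Nat.le_floor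
    apply key1 _ (Finset.filter_subset _ _)
    intro p hp q hq i hi
    obtain ⟨hp1, hp2⟩ := Finset.mem_filter.mp hp
    obtain ⟨hq1, hq2⟩ := Finset.mem_filter.mp hq
    rcases Nat.lt_or_ge i (d + 1) with hn | hn
    · obtain ⟨j, rfl⟩ : ∃ j, i = j + 1 := ⟨i - 1, by omega⟩
      have h6 : f p ⟨j, by omega⟩ = f q ⟨j, by omega⟩ := by rw [hp2, hq2]
      exact h6
    · rw [Polynomial.coeff_eq_zero_of_natDegree_lt (by rw [hdeg p hp1]; omega),
        Polynomial.coeff_eq_zero_of_natDegree_lt (by rw [hdeg q hq1]; omega)]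
  have h6 : ((S.image f).card : ℝ) ≤ (3 * h) ^ d := by
    apply card_box _ hh
    intro a ha i
    obtain ⟨p, hp, rfl⟩ := Finset.mem_image.mp ha
    exact hb p hp _
  calc (S.card : ℝ) ≤ N * ((S.image f).card : ℝ) := by exact_mod_cast h5
    _ ≤ (2 * (d - 1 : ℕ) * (2 * d * (1 + D))) * (3 * h) ^ d :=
        mul_le_mul hND h6 (Nat.cast_nonneg _) (by positivity)
    _ = (2 * (d - 1 : ℕ) * (2 * d)) * (1 + D) * (3 * h) ^ d := by ring

/-- length of the intervals of the derivative -/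
theorem lenJ {d : ℕ} {C₁ : ℝ}
    (hInt : ∀ (P : ℤ[X]) (c a b t : ℝ), P.natDegree = d - 1 → P ≠ 0 →
      0 < t → t ≤ 1 → t ≤ b - a → |a| ≤ 3 → Sl (rp P) c a b →
      (∀ i : ℕ, |((P.coeff i : ℤ) : ℝ)| * t ^ (d - 1) ≤ C₁ * c))
    {h κ x a b : ℝ} (hh : 0 < h) (G : ℤ[X]) (hG : G.natDegree = d - 1)
    (hj : ∃ j : ℕ, h ≤ 2 ^ (d + 3) * |((G.coeff j : ℤ) : ℝ)|)
    (hx : |x| ≤ 2) (hab : a < b) (hax : a ≤ x) (hxb : x ≤ b) (hSl : Sl (rp G) (2 * κ * h) a b)
    (hκ : 2 ^ (d + 4) * C₁ * κ < 1) : (b - a) ^ (d - 1) ≤ 2 ^ (d + 4) * C₁ * κ := by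
  obtain ⟨j, hj⟩ := hj
  have hG0 : G ≠ 0 := by
    rintro rfl
    rw [coeff_zero, Int.cast_zero, abs_zero, mul_zero] at hj
    linarith
  have hx' := abs_le.mp hx
  have key : ∀ a' τ : ℝ, a ≤ a' → a' + τ ≤ b → 0 < τ → τ ≤ 1 → |a'| ≤ 3 →
      τ ^ (d - 1) ≤ 2 ^ (d + 4) * C₁ * κ := by
    intro a' τ h1 h2 h3 h4 h5
    have h6 := hInt G (2 * κ * h) a' (a' + τ) τ hG hG0 h3 h4 (by linarith) h5
      (fun z hz1 hz2 => hSl z (by linarith) (by linarith)) j
    have h7 : h * τ ^ (d - 1) ≤ h * (2 ^ (d + 4) * C₁ * κ) := by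
      calc h * τ ^ (d - 1) ≤ (2 ^ (d + 3) * |((G.coeff j : ℤ) : ℝ)|) * τ ^ (d - 1) :=
            mul_le_mul_of_nonneg_right hj (by positivity)
        _ = 2 ^ (d + 3) * (|((G.coeff j : ℤ) : ℝ)| * τ ^ (d - 1)) := by ring
        _ ≤ 2 ^ (d + 3) * (C₁ * (2 * κ * h)) := mul_le_mul_of_nonneg_left h6 (by positivity)
        _ = h * (2 ^ (d + 4) * C₁ * κ) := by ring
    exact le_of_mul_le_mul_left h7 hh
  rcases le_or_gt (b - a) 1 with hle | hgt
  · refine key a (b - a) le_rfl (by linarith) (by linarith) hle ?_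
    rw [abs_le]
    constructor <;> linarith
  · exfalso
    have h1 := key (max a (x - 1)) 1 (le_max_left _ _) (by
      rcases le_total a (x - 1) with h | h
      · rw [max_eq_right h]
        linarith
      · rw [max_eq_left h]
        linarith) one_pos le_rfl (by
      rw [abs_le]
      constructor
      · exact le_trans (by linarith) (le_max_right _ _)
      · exact max_le (by linarith) (by linarith))
    rw [one_pow] at h1
    linarith

/-- a large coefficient of the derivative -/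
theorem deriv_coeff {d : ℕ} {h x : ℝ} (F : ℤ[X]) (hF : F.natDegree = d) (hx : |x| ≤ 2) (hh : 0 < h)
    (hj : ∃ j : ℕ, h ≤ 2 * |((F.coeff j : ℤ) : ℝ)|) (hv : |(rp F).eval x| ≤ h / 8) :
    ∃ j : ℕ, h ≤ 2 ^ (d + 3) * |(((derivative F).coeff j : ℤ) : ℝ)| := by
  by_contra hcon
  push Not at hcon
  have hco : ∀ j : ℕ, 2 ^ (d + 3) * |((F.coeff (j + 1) : ℤ) : ℝ)| < h := by
    intro j
    refine lt_of_le_of_lt ?_ (hcon j)
    apply mul_le_mul_of_nonneg_left _ (by positivity)
    rw [coeff_derivative]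
    push_cast
    rw [abs_mul]
    have h1 : (1 : ℝ) ≤ |(j : ℝ) + 1| := by
      rw [abs_of_nonneg (by positivity)]
      have : (0 : ℝ) ≤ j := Nat.cast_nonneg j
      linarith
    nlinarith [abs_nonneg ((F.coeff (j + 1) : ℤ) : ℝ)]
  obtain ⟨j, hj⟩ := hj
  have h8 : (8 : ℝ) ≤ 2 ^ (d + 3) := by
    have : (1 : ℝ) ≤ 2 ^ d := one_le_pow₀ (by norm_num)
    rw [pow_add]
    linarith
  rcases Nat.eq_zero_or_pos j with rfl | hj0
  · have hsum : (rp F).eval x = ((F.coeff 0 : ℤ) : ℝ) +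
        ∑ i ∈ Finset.range d, ((F.coeff (i + 1) : ℤ) : ℝ) * x ^ (i + 1) := by
      have h1 : (rp F).natDegree < d + 1 := by
        rw [Pool.Agent.MP211V.Count.natDegree_rp, hF]
        exact Nat.lt_succ_self d
      rw [eval_eq_sum_range' h1, Finset.sum_range_succ', add_comm]
      unfold Pool.Agent.MP211V.rp
      simp only [coeff_map, eq_intCast, pow_zero, mul_one]
    have h2 : |∑ i ∈ Finset.range d, ((F.coeff (i + 1) : ℤ) : ℝ) * x ^ (i + 1)| ≤ h / 4 := by
      calc |∑ i ∈ Finset.range d, ((F.coeff (i + 1) : ℤ) : ℝ) * x ^ (i + 1)|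
          ≤ ∑ i ∈ Finset.range d, |((F.coeff (i + 1) : ℤ) : ℝ) * x ^ (i + 1)| :=
            Finset.abs_sum_le_sum_abs _ _
        _ ≤ ∑ i ∈ Finset.range d, (h / 2 ^ (d + 3)) * 2 ^ (i + 1) := by
            refine Finset.sum_le_sum fun i _ => ?_
            rw [abs_mul, abs_pow]
            apply mul_le_mul _ (pow_le_pow_left₀ (abs_nonneg _) hx _) (by positivity)
              (by positivity)
            rw [le_div_iff₀ (by positivity), mul_comm]
            exact (hco i).le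
        _ = (h / 2 ^ (d + 3)) * (2 * (2 ^ d - 1)) := by
            rw [← Finset.mul_sum]
            congr 1
            have h3 : ∀ n : ℕ, ∑ i ∈ Finset.range n, (2 : ℝ) ^ (i + 1) = 2 * (2 ^ n - 1) := by
              intro n
              induction n with
              | zero => simp
              | succ n ih =>
                rw [Finset.sum_range_succ, ih]
                ring
            exact h3 d
        _ ≤ (h / 2 ^ (d + 3)) * (2 * 2 ^ d) := by
            apply mul_le_mul_of_nonneg_left _ (by positivity)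
            linarith
        _ = h / 4 := by
            rw [pow_add]
            field_simp
            norm_num
    have h3 : |((F.coeff 0 : ℤ) : ℝ)| ≤ h / 8 + h / 4 := by
      have h4 : ((F.coeff 0 : ℤ) : ℝ) = (rp F).eval x -
          ∑ i ∈ Finset.range d, ((F.coeff (i + 1) : ℤ) : ℝ) * x ^ (i + 1) := by
        rw [hsum]
        ring
      rw [h4]
      refine (abs_sub _ _).trans ?_
      linarith
    linarith
  · obtain ⟨i, rfl⟩ : ∃ i, j = i + 1 := ⟨j - 1, by omega⟩
    have h1 := hco i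
    nlinarith [abs_nonneg ((F.coeff (i + 1) : ℤ) : ℝ)]

/-- the interval around a point at which the derivative is small -/
theorem exJ (h3 : Pool.Agent.MP211V.S_MxEx) (P : ℝ[X]) (hP : 0 < P.natDegree) {c x : ℝ}
    (hx : |P.eval x| < c) : ∃ a b : ℝ, a ≤ x ∧ x ≤ b ∧ Mx P c a b := by
  have hcont : Continuous fun z => |P.eval z| := P.continuous.abs
  have hopen : IsOpen {z : ℝ | |P.eval z| < c} := isOpen_lt hcont continuous_const
  obtain ⟨ε, hε, hsub⟩ := Metric.isOpen_iff.mp hopen x hx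
  obtain ⟨a, b, ha, hb, hM⟩ := h3 P c (x - ε / 2) (x + ε / 2) hP (by linarith) (by
    intro z hz1 hz2
    have h4 : z ∈ Metric.ball x ε := by
      rw [Metric.mem_ball, Real.dist_eq, abs_lt]
      constructor <;> linarith
    exact (hsub h4).le)
  exact ⟨a, b, by linarith, by linarith, hM⟩

end CntT

open CntT in
theorem wCntT (h1 : Pool.Agent.MP211V.S_Mar) (h2 : Pool.Agent.MP211V.S_Int)
    (h3 : Pool.Agent.MP211V.S_MxEx) (h4 : Pool.Agent.MP211V.S_MxCard) : S_CntT := by
  intro d hd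
  obtain ⟨C₀, hC₀, hMar⟩ := h1 d
  obtain ⟨C₁, hC₁, hInt1⟩ := h2 (d - 1)
  obtain ⟨C₂, hC₂, hInt2⟩ := h2 d
  have hd' : (2 : ℝ) ≤ d := by exact_mod_cast hd
  set A : ℝ := 2 ^ (d + 4) * C₁ with hA
  have hA0 : 0 < A := by positivity
  set c : ℝ := 1 / (8 * C₀ + 2 * A * C₀ + 1) with hc
  have hden : 0 < 8 * C₀ + 2 * A * C₀ + 1 := by positivity
  have hc0 : 0 < c := by positivity
  have hc1 : c ≤ 1 := by
    rw [hc, div_le_one hden]
    have : 0 < 8 * C₀ + 2 * A * C₀ := by positivity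
    linarith
  have hcden : c * (8 * C₀ + 2 * A * C₀ + 1) = 1 := by
    rw [hc]
    field_simp
  have hcC : 8 * (C₀ * c) ≤ 1 := by
    have : 0 ≤ c * (2 * A * C₀ + 1) := by positivity
    nlinarith
  have hcA : 2 * (A * (C₀ * c)) ≤ 1 := by
    have : 0 ≤ c * (8 * C₀ + 1) := by positivity
    nlinarith
  set K : ℝ := 1 + A * C₀ ^ d with hK
  have hK1 : 1 ≤ K := by
    have : 0 ≤ A * C₀ ^ d := by positivity
    linarith
  set M : ℝ := 4 * C₀ * C₂ + 2 * K with hM
  have hM0 : 0 < M := by positivity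
  refine ⟨2 * d * 3 ^ (d + 1) / c ^ 2 + (2 * (d - 1 : ℕ) * (2 * d)) * 3 ^ d * (1 + M) + 1, ?_, ?_⟩
  · have e1 : 0 ≤ 2 * (d : ℝ) * 3 ^ (d + 1) / c ^ 2 := by positivity
    have e2 : (0 : ℝ) ≤ (2 * (d - 1 : ℕ) * (2 * d)) * 3 ^ d * (1 + M) := by positivity
    linarith
  intro h ω t S hh hω ht ht1 hS
  have hh0 : 0 < h := by linarith
  have hex : ∀ p : ℝ × ℝ, ∃ F : ℤ[X], p ∈ S → F.natDegree = d ∧ Hb F h ∧
      (∃ j : ℕ, h ≤ 2 * |((F.coeff j : ℤ) : ℝ)|) ∧ Mx (rp F) (h * ω) p.1 p.2 := by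
    intro p
    by_cases hp : p ∈ S
    · obtain ⟨F, hF⟩ := (hS p hp).2.2
      exact ⟨F, fun _ => hF⟩
    · exact ⟨0, fun h' => absurd h' hp⟩
  choose P hP using hex
  set x : ℝ := ω / t with hx
  have hx0 : 0 < x := by positivity
  set y : ℝ := x ^ ((d : ℝ) / ((d : ℝ) - 1)) with hy
  have hy0 : 0 < y := Real.rpow_pos_of_pos hx0 _
  have hyd : y ^ (d - 1) = x ^ d := by
    rw [hy, ← Real.rpow_natCast (x ^ _), ← Real.rpow_mul hx0.le, ← Real.rpow_natCast x]
    congr 1
    rw [Nat.cast_sub (by omega), Nat.cast_one]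
    have : (d : ℝ) - 1 ≠ 0 := by linarith
    field_simp
  have hωx : ω ≤ x := by
    rw [hx, le_div_iff₀ ht]
    nlinarith
  have hT1 : (0 : ℝ) ≤ (2 * (d - 1 : ℕ) * (2 * d)) * 3 ^ d * (1 + M) := by positivity
  have hT2 : (0 : ℝ) ≤ 2 * d * 3 ^ (d + 1) / c ^ 2 := by positivity
  have hR : 0 ≤ h ^ d + h ^ (d + 1) * y := by positivity
  rcases le_or_gt c x with hcx | hcx
  · -- the trivial count
    have h5 := Pool.Agent.MP211V.Count.part1 h4 (d := d) (by omega) hh S P
      (fun p hp => (hP p hp).1) (fun p hp => (hP p hp).2.2.2) (fun p hp => (hP p hp).2.1)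
    have h6 : c ^ 2 ≤ y := by
      have e1 : c ^ ((d : ℝ) / ((d : ℝ) - 1)) ≤ y :=
        Real.rpow_le_rpow hc0.le hcx (by
          apply div_nonneg (by positivity)
          linarith)
      have e2 : c ^ (2 : ℝ) ≤ c ^ ((d : ℝ) / ((d : ℝ) - 1)) := by
        apply Real.rpow_le_rpow_of_exponent_ge hc0 hc1
        rw [div_le_iff₀ (by linarith)]
        linarith
      rw [Real.rpow_two] at e2
      exact e2.trans e1
    calc (S.card : ℝ) ≤ (2 * d * 3 ^ (d + 1)) * h ^ (d + 1) := h5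
      _ ≤ (2 * d * 3 ^ (d + 1)) * h ^ (d + 1) * (y / c ^ 2) := by
          apply le_mul_of_one_le_right (by positivity)
          rw [one_le_div (by positivity)]
          exact h6
      _ = (2 * d * 3 ^ (d + 1) / c ^ 2) * (h ^ (d + 1) * y) := by ring
      _ ≤ (2 * d * 3 ^ (d + 1) / c ^ 2) * (h ^ d + h ^ (d + 1) * y) := by
          apply mul_le_mul_of_nonneg_left _ hT2
          have : 0 ≤ h ^ d := by positivity
          linarith
      _ ≤ _ := by
          apply mul_le_mul_of_nonneg_right _ hR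
          linarith
  · -- the main case
    set κ : ℝ := C₀ * x with hκ
    have hκ0 : 0 < κ := by positivity
    have hAκ : A * κ < 1 := by
      have : A * κ ≤ A * (C₀ * c) := by
        apply mul_le_mul_of_nonneg_left _ hA0.le
        exact mul_le_mul_of_nonneg_left hcx.le hC₀.le
      linarith [mul_pos hA0 (mul_pos hC₀ hc0)]
    have hC₀ω : C₀ * (h * ω) ≤ h / 8 := by
      have e1 : C₀ * ω ≤ C₀ * c := mul_le_mul_of_nonneg_left (by linarith) hC₀.le
      nlinarith
    have hval : ∀ p ∈ S, |(rp (P p)).eval p.1| ≤ C₀ * (h * ω) := by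
      intro p hp
      obtain ⟨hp1, hp2, -⟩ := hS p hp
      obtain ⟨hP1, hP2, hP3, hP4⟩ := hP p hp
      have e1 := hMar (rp (P p)) (h * ω) p.1 p.2 t p.1
        (by rw [Pool.Agent.MP211V.Count.natDegree_rp, hP1]) ht hp2 hP4.2.1 le_rfl hP4.1.le 0
      rw [pow_zero, mul_one, Pool.Agent.MP211V.tc, taylor_coeff_zero] at e1
      exact e1
    have hder : ∀ p ∈ S, |(rp (derivative (P p))).eval p.1| < 2 * κ * h := by
      intro p hp
      obtain ⟨hp1, hp2, -⟩ := hS p hp
      obtain ⟨hP1, hP2, hP3, hP4⟩ := hP p hp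
      have e1 := hMar (rp (P p)) (h * ω) p.1 p.2 t p.1
        (by rw [Pool.Agent.MP211V.Count.natDegree_rp, hP1]) ht hp2 hP4.2.1 le_rfl hP4.1.le 1
      rw [pow_one, Pool.Agent.MP211V.tc, taylor_coeff_one, ← rp_derivative] at e1
      have e2 : |(rp (derivative (P p))).eval p.1| ≤ κ * h := by
        rw [hκ, hx]
        have e3 : C₀ * (ω / t) * h = C₀ * (h * ω) / t := by ring
        rw [e3, le_div_iff₀ ht]
        exact e1
      have e3 : 0 < κ * h := by positivity
      linarith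
    have hJex : ∀ p : ℝ × ℝ, ∃ J : ℝ × ℝ, p ∈ S → J.1 ≤ p.1 ∧ p.1 ≤ J.2 ∧
        Mx (rp (derivative (P p))) (2 * κ * h) J.1 J.2 := by
      intro p
      by_cases hp : p ∈ S
      · obtain ⟨a, b, e1, e2, e3⟩ := exJ h3 (rp (derivative (P p))) (by
          rw [Pool.Agent.MP211V.Count.natDegree_rp, natDegree_derivative, (hP p hp).1]
          omega) (hder p hp)
        exact ⟨(a, b), fun _ => ⟨e1, e2, e3⟩⟩
      · exact ⟨0, fun h' => absurd h' hp⟩
    choose J hJ using hJex
    have hlen : ∀ p ∈ S, κ * ((J p).2 - (J p).1) ≤ K * y := by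
      intro p hp
      obtain ⟨hp1, hp2, -⟩ := hS p hp
      obtain ⟨hP1, hP2, hP3, hP4⟩ := hP p hp
      obtain ⟨hJ1, hJ2, hJ3⟩ := hJ p hp
      have e1 := lenJ (fun P c a b t g1 g2 g3 g4 g5 g6 g7 =>
        (hInt1 P c a b t g1 g2 g3 g4 g5 g6 g7).1) hh0 (derivative (P p))
        (by rw [natDegree_derivative, hP1])
        (deriv_coeff (P p) hP1 hp1 hh0 hP3 ((hval p hp).trans hC₀ω)) hp1 hJ3.1 hJ1 hJ2 hJ3.2.1
        (by rw [← hA]; exact hAκ)
      rw [← hA] at e1
      have hL0 : 0 < (J p).2 - (J p).1 := by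
        have := hJ3.1
        linarith
      have hd1 : d - 1 ≠ 0 := by omega
      apply le_of_pow_le_pow_left₀ hd1 (by positivity)
      calc (κ * ((J p).2 - (J p).1)) ^ (d - 1) = κ ^ (d - 1) * ((J p).2 - (J p).1) ^ (d - 1) :=
            mul_pow _ _ _
        _ ≤ κ ^ (d - 1) * (A * κ) := mul_le_mul_of_nonneg_left e1 (by positivity)
        _ = A * κ ^ d := by
            have : κ ^ d = κ ^ (d - 1) * κ := by
              rw [← pow_succ]
              congr 1
              omega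
            rw [this]
            ring
        _ = (A * C₀ ^ d) * y ^ (d - 1) := by
            rw [hyd, hκ, mul_pow]
            ring
        _ ≤ K ^ (d - 1) * y ^ (d - 1) := by
            apply mul_le_mul_of_nonneg_right _ (by positivity)
            have e2 : K ≤ K ^ (d - 1) := le_self_pow₀ hK1 hd1
            linarith
        _ = (K * y) ^ (d - 1) := (mul_pow _ _ _).symm
    rcases S.eq_empty_or_nonempty with hSe | ⟨p₀, hp₀⟩
    · rw [hSe, Finset.card_empty, Nat.cast_zero]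
      positivity
    have hωy : ω ≤ 2 * C₂ * y := by
      obtain ⟨hp1, hp2, -⟩ := hS p₀ hp₀
      obtain ⟨hP1, hP2, ⟨j, hj⟩, hP4⟩ := hP p₀ hp₀
      have hne : P p₀ ≠ 0 := by
        intro h0
        rw [h0, natDegree_zero] at hP1
        omega
      have e1 := (hInt2 (P p₀) (h * ω) p₀.1 p₀.2 t hP1 hne ht ht1 hp2 (by linarith) hP4.2.1).1 j
      have e2 : t ^ d ≤ 2 * C₂ * ω := by
        have e3 : h * t ^ d ≤ h * (2 * C₂ * ω) := by
          calc h * t ^ d ≤ (2 * |(((P p₀).coeff j : ℤ) : ℝ)|) * t ^ d :=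
                mul_le_mul_of_nonneg_right hj (by positivity)
            _ = 2 * (|(((P p₀).coeff j : ℤ) : ℝ)| * t ^ d) := by ring
            _ ≤ 2 * (C₂ * (h * ω)) := mul_le_mul_of_nonneg_left e1 (by norm_num)
            _ = h * (2 * C₂ * ω) := by ring
        exact le_of_mul_le_mul_left e3 hh0
      have hd1 : d - 1 ≠ 0 := by omega
      have hC22 : 1 ≤ 2 * C₂ := by linarith
      apply le_of_pow_le_pow_left₀ hd1 (by positivity)
      rw [mul_pow, hyd, hx, div_pow, ← mul_div_assoc, le_div_iff₀ (by positivity)]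
      calc ω ^ (d - 1) * t ^ d ≤ ω ^ (d - 1) * (2 * C₂ * ω) :=
            mul_le_mul_of_nonneg_left e2 (by positivity)
        _ = (2 * C₂) * ω ^ d := by
            have : ω ^ d = ω ^ (d - 1) * ω := by
              rw [← pow_succ]
              congr 1
              omega
            rw [this]
            ring
        _ ≤ (2 * C₂) ^ (d - 1) * ω ^ d :=
            mul_le_mul_of_nonneg_right (le_self_pow₀ hC22 hd1) (by positivity)
    have h5 := count h4 hd (h := h) (c := h * ω) (e := C₀ * (h * ω)) (e' := 2 * κ * h)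
      (D := M * h * y) hh (by positivity) (by positivity) S P J (fun p hp => (hP p hp).1)
      (fun p hp => (hP p hp).2.1) (fun p hp => (hP p hp).2.2.2) hval
      (fun p hp => (hJ p hp).2.2) (fun p hp => (hJ p hp).1) (fun p hp => (hJ p hp).2.1) (by
        intro p hp
        have e1 := hlen p hp
        have e2 : C₀ * ω ≤ C₀ * (2 * C₂ * y) := mul_le_mul_of_nonneg_left hωy hC₀.le
        have e3 : h * (2 * (C₀ * ω) + 2 * (κ * ((J p).2 - (J p).1))) ≤
            h * (2 * (C₀ * (2 * C₂ * y)) + 2 * (K * y)) :=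
          mul_le_mul_of_nonneg_left (by linarith) hh0.le
        calc 2 * (C₀ * (h * ω)) + 2 * κ * h * ((J p).2 - (J p).1) =
            h * (2 * (C₀ * ω) + 2 * (κ * ((J p).2 - (J p).1))) := by ring
          _ ≤ h * (2 * (C₀ * (2 * C₂ * y)) + 2 * (K * y)) := e3
          _ = M * h * y := by
              rw [hM]
              ring)
    calc (S.card : ℝ) ≤ (2 * (d - 1 : ℕ) * (2 * d)) * (1 + M * h * y) * (3 * h) ^ d := h5
      _ = (2 * (d - 1 : ℕ) * (2 * d)) * 3 ^ d * (h ^ d + M * (h ^ (d + 1) * y)) := by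
          rw [mul_pow]
          ring
      _ ≤ (2 * (d - 1 : ℕ) * (2 * d)) * 3 ^ d * ((1 + M) * (h ^ d + h ^ (d + 1) * y)) := by
          apply mul_le_mul_of_nonneg_left _ (by positivity)
          have e1 : 0 ≤ M * h ^ d := by positivity
          have e2 : 0 ≤ h ^ (d + 1) * y := by positivity
          nlinarith
      _ = (2 * (d - 1 : ℕ) * (2 * d)) * 3 ^ d * (1 + M) * (h ^ d + h ^ (d + 1) * y) := by ring
      _ ≤ _ := by
          apply mul_le_mul_of_nonneg_right _ hR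
          linarith

end Pool.Agent.MP211W
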