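import Pool.Agent.Lib.MP_211f72_nt.W.SpecE

/-!
# MP_211f72_nt, third theorem: two triples with the same data are equal (`Coll`)
-/

namespace Pool.Agent.MP211W

open Polynomial NumberField

namespace Coll

variable {d : ℕ} {K : Type} [Field K] [NumberField K]

theorem coe_ne {z : 𝓞 K} (hz : z ≠ 0) : (z : K) ≠ 0 := by
  intro h
  exact hz (RingOfIntegers.ext (by rw [h]; simp))

theorem s_ne (Q : QF d K) {z : 𝓞 K} (hz : z ≠ 0) : Q.σ (z : K) ≠ 0 :=
  (map_ne_zero Q.σ).mpr (coe_ne hz)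

theorem st_ne (Q : QF d K) {z : 𝓞 K} (hz : z ≠ 0) : Q.σ (Q.τ (z : K)) ≠ 0 :=
  (map_ne_zero Q.σ).mpr ((map_ne_zero Q.τ).mpr (coe_ne hz))

theorem h_mul (Q : QF d K) {a b : 𝓞 K} (ha : a ≠ 0) (hb : b ≠ 0) :
    Q.h (a * b) = Q.h a + Q.h b := by
  unfold QF.h
  have e : ((a * b : 𝓞 K) : K) = (a : K) * (b : K) := map_mul _ _ _
  rw [e, map_mul, map_mul, map_mul, abs_mul, abs_mul,
    Real.log_mul (abs_ne_zero.mpr (s_ne Q ha)) (abs_ne_zero.mpr (s_ne Q hb)),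
    Real.log_mul (abs_ne_zero.mpr (st_ne Q ha)) (abs_ne_zero.mpr (st_ne Q hb))]
  ring

theorem h_pow (Q : QF d K) {a : 𝓞 K} (ha : a ≠ 0) (m : ℕ) : Q.h (a ^ m) = m * Q.h a := by
  induction m with
  | zero =>
    unfold QF.h
    simp
  | succ m ih =>
    rw [pow_succ, h_mul Q (pow_ne_zero m ha) ha, ih]
    push_cast
    ring

theorem h_nat (Q : QF d K) (k : ℕ) : Q.h ((k : ℕ) : 𝓞 K) = 0 := by
  unfold QF.h
  have e : (((k : ℕ) : 𝓞 K) : K) = (k : K) := map_natCast _ _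
  rw [e, map_natCast Q.τ, sub_self]

theorem prim_eq {B B₁ : Ideal (𝓞 K)} (hB : PrimI B) (hB₁ : PrimI B₁) {a k : ℕ}
    (ha : a ≠ 0) (hk : k ≠ 0)
    (h : Ideal.span {((a : ℕ) : 𝓞 K)} * B₁ = Ideal.span {((k : ℕ) : 𝓞 K)} * B) : B = B₁ := by
  have key : ∀ (C C₁ : Ideal (𝓞 K)) (a' k' : ℕ), PrimI C → Nat.Coprime a' k' →
      Ideal.span {((a' : ℕ) : 𝓞 K)} * C₁ = Ideal.span {((k' : ℕ) : 𝓞 K)} * C → a' = 1 := by
    intro C C₁ a' k' hC hco he
    by_contra h1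
    obtain ⟨q, hq, hqa⟩ := Nat.exists_prime_and_dvd h1
    apply hC q hq
    have hqk : Nat.Coprime q k' := Nat.Coprime.coprime_dvd_left hqa hco
    have hcop : IsCoprime (Ideal.span {((q : ℕ) : 𝓞 K)}) (Ideal.span {((k' : ℕ) : 𝓞 K)}) := by
      rw [Ideal.isCoprime_span_singleton_iff]
      exact Nat.Coprime.cast hqk
    have hdv : Ideal.span {((q : ℕ) : 𝓞 K)} ∣ Ideal.span {((k' : ℕ) : 𝓞 K)} * C := by
      rw [← he]
      apply Dvd.dvd.mul_right
      obtain ⟨r, rfl⟩ := hqa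
      refine ⟨Ideal.span {((r : ℕ) : 𝓞 K)}, ?_⟩
      rw [Ideal.span_singleton_mul_span_singleton, Nat.cast_mul]
    exact hcop.dvd_of_dvd_mul_left hdv
  obtain ⟨g, a', k', hg, hco, hga, hgk⟩ := Nat.exists_coprime' (m := a) (n := k)
    (Nat.gcd_pos_of_pos_left _ (Nat.pos_of_ne_zero ha))
  have hg0 : Ideal.span {((g : ℕ) : 𝓞 K)} ≠ ⊥ := by
    rw [Ne, Ideal.span_singleton_eq_bot]
    exact_mod_cast (Nat.pos_iff_ne_zero.mp hg)
  have he : Ideal.span {((a' : ℕ) : 𝓞 K)} * B₁ = Ideal.span {((k' : ℕ) : 𝓞 K)} * B := by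
    apply mul_left_cancel₀ hg0
    rw [← mul_assoc, ← mul_assoc, Ideal.span_singleton_mul_span_singleton,
      Ideal.span_singleton_mul_span_singleton, ← Nat.cast_mul, ← Nat.cast_mul, mul_comm g a',
      mul_comm g k', ← hga, ← hgk]
    exact h
  have h1 := key B B₁ a' k' hB hco he
  have h2 := key B₁ B k' a' hB₁ hco.symm he.symm
  rw [h1, h2, Nat.cast_one] at he
  simp only [Ideal.span_singleton_one] at he
  rw [Ideal.top_mul, Ideal.top_mul] at he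
  exact he.symm

theorem span_pow (z : 𝓞 K) (m : ℕ) :
    Ideal.span {z ^ m} = (Ideal.span {z}) ^ m := (Ideal.span_singleton_pow z m).symm

theorem integral_rat (z : 𝓞 K) (r : ℚ) (h : (z : K) = (r : K)) : ∃ j : ℤ, z = (j : 𝓞 K) := by
  have h1 : IsIntegral ℤ (z : K) := NumberField.RingOfIntegers.isIntegral_coe z
  rw [h] at h1
  have h2 : IsIntegral ℤ r := by
    rw [show ((r : ℚ) : K) = algebraMap ℚ K r from (eq_ratCast _ r).symm] at h1
    exact (isIntegral_algebraMap_iff (algebraMap ℚ K).injective).mp h1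
  obtain ⟨j, hj⟩ := IsIntegrallyClosed.isIntegral_iff.mp h2
  refine ⟨j, RingOfIntegers.ext ?_⟩
  rw [h, ← hj]
  simp

end Coll

open Coll in
theorem wColl (h1 : S_QFb) (h2 : S_NmI) : S_Coll := by
  intro d K _ _ Q hd hd2 m M P b b₁ p p₁ I I₁ r x y x₁ y₁ α α₁ hm hb hb₁ hp hp₁ hI hI₁ hr hx hy
    hx₁ hy₁ hα hα₁ hpr hpr₁ hbM hbM₁ hpP hpP₁ hlt e e₁ f f₁ hh
  obtain ⟨_, _, q3, q4, _⟩ := h1 d K Q hd hd2
  have hP0 : 0 ≤ P := le_trans (Nat.cast_nonneg _) hpP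
  have hM0 : 0 ≤ M := le_trans (Nat.cast_nonneg _) hbM
  have hBne : b * p ^ m ≠ ⊥ := mul_ne_zero hb (pow_ne_zero m hp)
  have hBne₁ : b₁ * p₁ ^ m ≠ ⊥ := mul_ne_zero hb₁ (pow_ne_zero m hp₁)
  have s1 : Ideal.span {x * α ^ m} = Ideal.span {y} * (b * p ^ m) * r ^ m := by
    rw [← Ideal.span_singleton_mul_span_singleton, span_pow, f]
    calc Ideal.span {x} * (I * p * r) ^ m = (Ideal.span {x} * I ^ m) * (p ^ m * r ^ m) := by
          rw [mul_pow, mul_pow]; ring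
      _ = Ideal.span {y} * (b * p ^ m) * r ^ m := by rw [e]; ring
  have s2 : Ideal.span {x₁ * α₁ ^ m} = Ideal.span {y₁} * (b₁ * p₁ ^ m) * r ^ m := by
    rw [← Ideal.span_singleton_mul_span_singleton, span_pow, f₁]
    calc Ideal.span {x₁} * (I₁ * p₁ * r) ^ m = (Ideal.span {x₁} * I₁ ^ m) * (p₁ ^ m * r ^ m) := by
          rw [mul_pow, mul_pow]; ring
      _ = Ideal.span {y₁} * (b₁ * p₁ ^ m) * r ^ m := by rw [e₁]; ring
  set B := b * p ^ m with hB
  set B₁ := b₁ * p₁ ^ m with hB₁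
  set u : 𝓞 K := x * α ^ m * y₁ with hu
  set v : 𝓞 K := x₁ * α₁ ^ m * y with hv
  have hrm : r ^ m ≠ ⊥ := pow_ne_zero m hr
  have s3 : Ideal.span {u} * B₁ = Ideal.span {v} * B := by
    apply mul_right_cancel₀ hrm
    have w1 : Ideal.span {u} = Ideal.span {x * α ^ m} * Ideal.span {y₁} := by
      rw [hu, Ideal.span_singleton_mul_span_singleton]
    have w2 : Ideal.span {v} = Ideal.span {x₁ * α₁ ^ m} * Ideal.span {y} := by
      rw [hv, Ideal.span_singleton_mul_span_singleton]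
    rw [w1, w2, s1, s2]
    ring
  have hu0 : u ≠ 0 := mul_ne_zero (mul_ne_zero hx (pow_ne_zero m hα)) hy₁
  have hv0 : v ≠ 0 := mul_ne_zero (mul_ne_zero hx₁ (pow_ne_zero m hα₁)) hy
  obtain ⟨n1, n2⟩ := h2 d K Q hd hd2 B₁
  have n2 := n2 hBne₁
  set k : ℕ := Ideal.absNorm B₁ with hk
  have hk0 : k ≠ 0 := by
    rw [hk, Ne, Ideal.absNorm_eq_zero_iff]
    exact hBne₁
  have s4 : Ideal.span {u * (k : 𝓞 K)} = Ideal.span {v} * (B * Q.tI B₁) := by
    rw [← Ideal.span_singleton_mul_span_singleton, ← n2, ← mul_assoc, s3]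
    ring
  have hvd : v ∣ u * (k : 𝓞 K) := by
    rw [← Ideal.mem_span_singleton]
    have : Ideal.span {u * (k : 𝓞 K)} ≤ Ideal.span {v} := by
      rw [s4]
      exact Ideal.mul_le_right.trans' (le_of_eq (mul_comm _ _))
    exact this (Ideal.mem_span_singleton_self _)
  obtain ⟨g, hg⟩ := hvd
  have hkO : ((k : ℕ) : 𝓞 K) ≠ 0 := by exact_mod_cast hk0
  have hg0 : g ≠ 0 := by
    rintro rfl
    rw [mul_zero] at hg
    exact mul_ne_zero hu0 hkO hg
  have hvb : Ideal.span {v} ≠ ⊥ := by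
    rw [Ne, Ideal.span_singleton_eq_bot]
    exact hv0
  have s5 : Ideal.span {g} = B * Q.tI B₁ := by
    apply mul_left_cancel₀ hvb
    rw [Ideal.span_singleton_mul_span_singleton, ← hg, s4]
  -- sizes
  set R : ℝ := M * P ^ m with hR
  have hR0 : 0 ≤ R := mul_nonneg hM0 (pow_nonneg hP0 m)
  have hNB : ((Ideal.absNorm B : ℕ) : ℝ) ≤ R := by
    rw [hB, map_mul, map_pow]
    push_cast
    exact mul_le_mul hbM (pow_le_pow_left₀ (Nat.cast_nonneg _) hpP m) (by positivity) hM0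
  have hNB₁ : ((Ideal.absNorm B₁ : ℕ) : ℝ) ≤ R := by
    rw [hB₁, map_mul, map_pow]
    push_cast
    exact mul_le_mul hbM₁ (pow_le_pow_left₀ (Nat.cast_nonneg _) hpP₁ m) (by positivity) hM0
  have hprod : |Q.σ (g : K)| * |Q.σ (Q.τ (g : K))| ≤ R * R := by
    rw [← abs_mul, ← q4 g, s5, map_mul, n1]
    push_cast
    exact mul_le_mul hNB hNB₁ (Nat.cast_nonneg _) hR0
  have hhg : Q.h g = (m * Q.h α - (Q.h y - Q.h x)) - (m * Q.h α₁ - (Q.h y₁ - Q.h x₁)) := by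
    have t1 : Q.h (u * (k : 𝓞 K)) = Q.h u := by
      rw [h_mul Q hu0 hkO, h_nat, add_zero]
    have t2 : Q.h (v * g) = Q.h v + Q.h g := h_mul Q hv0 hg0
    have t3 : Q.h u = Q.h x + m * Q.h α + Q.h y₁ := by
      rw [hu, h_mul Q (mul_ne_zero hx (pow_ne_zero m hα)) hy₁, h_mul Q hx (pow_ne_zero m hα),
        h_pow Q hα]
    have t4 : Q.h v = Q.h x₁ + m * Q.h α₁ + Q.h y := by
      rw [hv, h_mul Q (mul_ne_zero hx₁ (pow_ne_zero m hα₁)) hy, h_mul Q hx₁ (pow_ne_zero m hα₁),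
        h_pow Q hα₁]
    rw [hg, t2, t4, t3] at t1
    linarith
  rw [← hhg] at hh
  have hA : 0 < |Q.σ (g : K)| := abs_pos.mpr (s_ne Q hg0)
  have hA' : 0 < |Q.σ (Q.τ (g : K))| := abs_pos.mpr (st_ne Q hg0)
  have hem : Real.exp (m : ℝ) ≤ (2 ^ m) ^ 2 := by
    have : Real.exp (m : ℝ) = Real.exp 1 ^ m := by
      rw [← Real.exp_nat_mul, mul_one]
    rw [this, ← pow_mul, mul_comm m 2, pow_mul]
    apply pow_le_pow_left₀ (Real.exp_pos _).le
    have := Real.exp_one_lt_d9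
    norm_num at this ⊢
    linarith
  have hbound : ∀ A A' : ℝ, 0 < A → 0 < A' → A * A' ≤ R * R → Real.log A - Real.log A' < m →
      A ≤ 2 ^ m * R := by
    intro A A' a1 a2 a3 a4
    have b1 : A < Real.exp m * A' := by
      have : Real.log A < Real.log (Real.exp m * A') := by
        rw [Real.log_mul (Real.exp_pos _).ne' a2.ne', Real.log_exp]
        linarith
      exact (Real.log_lt_log_iff a1 (by positivity)).mp this
    have b2 : A * A ≤ (2 ^ m * R) * (2 ^ m * R) := by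
      calc A * A ≤ A * (Real.exp m * A') := mul_le_mul_of_nonneg_left b1.le a1.le
        _ = Real.exp m * (A * A') := by ring
        _ ≤ (2 ^ m) ^ 2 * (R * R) := mul_le_mul hem a3 (by positivity) (by positivity)
        _ = (2 ^ m * R) * (2 ^ m * R) := by ring
    exact abs_le_of_sq_le_sq' (by nlinarith) (by positivity) |>.2
  have hlt' := abs_lt.mp hh
  unfold QF.h at hlt'
  have bA := hbound _ _ hA hA' hprod hlt'.2
  have bA' := hbound _ _ hA' hA (by linarith [mul_comm |Q.σ (g : K)| |Q.σ (Q.τ (g : K))|])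
    (by linarith [hlt'.1])
  -- g is rational
  obtain ⟨k₁, hk₁⟩ := q3 g
  have hk₁0 : k₁ = 0 := by
    have c1 : |Q.σ (g : K) - Q.σ (Q.τ (g : K))| = |(k₁ : ℝ)| * Real.sqrt d := by
      rw [← map_sub, hk₁, map_mul, Q.pos, abs_mul, abs_of_nonneg (Real.sqrt_nonneg _)]
      simp
    have c2 : |Q.σ (g : K) - Q.σ (Q.τ (g : K))| ≤ |Q.σ (g : K)| + |Q.σ (Q.τ (g : K))| :=
      abs_sub _ _
    have c3 : |(k₁ : ℝ)| * Real.sqrt d < 1 * Real.sqrt d := by
      rw [← c1, one_mul]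
      refine lt_of_le_of_lt (c2.trans (add_le_add bA bA')) ?_
      refine lt_of_le_of_lt (le_of_eq ?_) hlt
      rw [pow_succ]
      ring
    have c4 : 0 < Real.sqrt d := Real.sqrt_pos.mpr (by exact_mod_cast (by omega : 0 < d))
    have c5 : |(k₁ : ℝ)| < 1 := lt_of_mul_lt_mul_right c3 c4.le
    have c6 : |k₁| < 1 := by exact_mod_cast c5
    exact Int.abs_lt_one_iff.mp c6
  rw [hk₁0, Int.cast_zero, zero_mul, sub_eq_zero] at hk₁
  obtain ⟨q, hq⟩ := Q.fix (g : K) hk₁.symm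
  obtain ⟨j, hj⟩ := integral_rat g q hq
  have hj0 : j ≠ 0 := by
    rintro rfl
    rw [Int.cast_zero] at hj
    exact hg0 hj
  have s6 : Ideal.span {g} = Ideal.span {((j.natAbs : ℕ) : 𝓞 K)} := by
    rw [hj, Ideal.span_singleton_eq_span_singleton]
    rcases Int.natAbs_eq j with h | h
    · have : ((j : ℤ) : 𝓞 K) = ((j.natAbs : ℕ) : 𝓞 K) := by
        conv_lhs => rw [h]
        simp
      rw [this]
    · have : ((j : ℤ) : 𝓞 K) = -((j.natAbs : ℕ) : 𝓞 K) := by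
        conv_lhs => rw [h]
        simp
      rw [this]
      exact (Associated.refl _).neg_left
  apply prim_eq hpr hpr₁ (a := j.natAbs) (k := k) (Int.natAbs_ne_zero.mpr hj0) hk0
  rw [← s6, s5, ← n2]
  ring

end Pool.Agent.MP211W
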