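import Pool.Agent.Lib.MP_211f72_nt.W.SpecB
import Pool.Agent.Lib.MP_211f72_nt.V.Count

set_option autoImplicit false

namespace Pool.Agent.MP211W

open Polynomial
open Pool.Agent.MP211V (rp tc Hb Sl Mx)

namespace Cost

theorem triv {s B : ℝ} (d : ℕ) (h ω : ℝ) (hB : 1 ≤ B) : CovW s B (SmallP d h ω) := by
  refine ⟨{(1 / 2, 1)}, ?_, ?_, ?_⟩
  · intro p hp
    rw [Finset.mem_singleton.mp hp]
    exact zero_le_one
  · rw [Finset.sum_singleton, Real.one_rpow]
    exact hB
  · rintro ξ ⟨h0, h1, -⟩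
    refine ⟨_, Finset.mem_singleton_self _, ?_⟩
    rw [abs_le]
    constructor <;> simp only <;> linarith

theorem cov_range {s B : ℝ} (N : ℕ) (E : ℕ → Set ℝ) (hE : ∀ l < N, CovW s B (E l)) :
    CovW s (N * B) {ξ | ∃ l < N, ξ ∈ E l} := by
  induction N with
  | zero =>
    refine ⟨∅, fun p hp => absurd hp (Finset.notMem_empty p), ?_, ?_⟩
    · simp
    · rintro ξ ⟨l, hl, -⟩
      exact absurd hl (Nat.not_lt_zero l)
  | succ N ih =>
    have h1 := (ih (fun l hl => hE l (by omega))).union (hE N (by omega))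
    refine h1.mono ?_ ?_
    · push_cast
      linarith
    · rintro ξ ⟨l, hl, hξ⟩
      rcases Nat.lt_or_ge l N with h2 | h2
      · exact Or.inl ⟨l, h2, hξ⟩
      · obtain rfl : l = N := by omega
        exact Or.inr hξ

/-- degree one -/
theorem deg_one {s : ℝ} (hs : 0 < s) (hs1 : s ≤ 1) {h ω : ℝ} (hh : 1 ≤ h) (hω : 0 < ω)
    (hω8 : ω < 1 / 8) : CovW s (27 * (h ^ 2 * ω ^ s)) (SmallP 1 h ω) := by
  classical
  set I : Finset ℤ := Finset.Icc (-⌊h⌋) ⌊h⌋ with hI
  have hIc : (I.card : ℝ) ≤ 3 * h := by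
    have hfl : (1 : ℤ) ≤ ⌊h⌋ := Int.le_floor.mpr (by push_cast; exact hh)
    have h1 : (I.card : ℤ) = 2 * ⌊h⌋ + 1 := by
      rw [hI, Int.card_Icc]
      omega
    have h2 : (I.card : ℝ) = 2 * (⌊h⌋ : ℝ) + 1 := by exact_mod_cast h1
    rw [h2]
    have := Int.floor_le h
    linarith
  refine ⟨(I ×ˢ I).image (fun z => (-(z.2 : ℝ) / z.1, 3 * ω)), ?_, ?_, ?_⟩
  · intro p hp
    obtain ⟨z, -, rfl⟩ := Finset.mem_image.mp hp
    simp only
    linarith
  · have h1 : ∑ p ∈ (I ×ˢ I).image (fun z : ℤ × ℤ => (-(z.2 : ℝ) / z.1, 3 * ω)), p.2 ^ s =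
        (((I ×ˢ I).image (fun z : ℤ × ℤ => (-(z.2 : ℝ) / z.1, 3 * ω))).card : ℝ) * (3 * ω) ^ s := by
      rw [← nsmul_eq_mul, ← Finset.sum_const]
      apply Finset.sum_congr rfl
      intro p hp
      obtain ⟨z, -, rfl⟩ := Finset.mem_image.mp hp
      rfl
    have h2 : (((I ×ˢ I).image (fun z : ℤ × ℤ => (-(z.2 : ℝ) / z.1, 3 * ω))).card : ℝ) ≤
        (3 * h) ^ 2 := by
      have h3 : ((I ×ˢ I).image (fun z : ℤ × ℤ => (-(z.2 : ℝ) / z.1, 3 * ω))).card ≤
          I.card * I.card := by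
        rw [← Finset.card_product]
        exact Finset.card_image_le
      calc (((I ×ˢ I).image (fun z : ℤ × ℤ => (-(z.2 : ℝ) / z.1, 3 * ω))).card : ℝ)
          ≤ (I.card : ℝ) * I.card := by exact_mod_cast h3
        _ ≤ (3 * h) * (3 * h) := mul_le_mul hIc hIc (Nat.cast_nonneg _) (by linarith)
        _ = (3 * h) ^ 2 := by ring
    have h3 : (3 * ω) ^ s ≤ 3 * ω ^ s := by
      rw [Real.mul_rpow (by norm_num) hω.le]
      apply mul_le_mul_of_nonneg_right _ (Real.rpow_nonneg hω.le s)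
      calc (3 : ℝ) ^ s ≤ 3 ^ (1 : ℝ) := Real.rpow_le_rpow_of_exponent_le (by norm_num) hs1
        _ = 3 := Real.rpow_one 3
    rw [h1]
    calc _ ≤ (3 * h) ^ 2 * (3 * ω ^ s) :=
          mul_le_mul h2 h3 (Real.rpow_nonneg (by linarith) s) (by positivity)
      _ = 27 * (h ^ 2 * ω ^ s) := by ring
  · rintro ξ ⟨h0, h1, F, hirr, hdeg, hHb, ⟨j, hj⟩, hval⟩
    have hF : F = C (F.coeff 1) * X + C (F.coeff 0) := by
      apply Polynomial.eq_X_add_C_of_natDegree_le_one
      rw [hdeg]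
    set a : ℤ := F.coeff 1 with ha
    set b : ℤ := F.coeff 0 with hb
    have hev : (rp F).eval ξ = (a : ℝ) * ξ + b := by
      rw [hF]
      simp [Pool.Agent.MP211V.rp]
    rw [hev] at hval
    have hωh : h * ω ≤ h / 8 := by nlinarith
    have ha3 : 3 * h / 8 ≤ |(a : ℝ)| := by
      rcases Nat.lt_or_ge j 2 with hj2 | hj2
      · have hcases : j = 0 ∨ j = 1 := by omega
        rcases hcases with rfl | rfl
        · rw [← hb] at hj
          have e1 : |(b : ℝ)| ≤ |(a : ℝ) * ξ + b| + |(a : ℝ) * ξ| := by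
            have e2 : (b : ℝ) = ((a : ℝ) * ξ + b) - (a : ℝ) * ξ := by ring
            calc |(b : ℝ)| = |((a : ℝ) * ξ + b) - (a : ℝ) * ξ| := by rw [← e2]
              _ ≤ _ := abs_sub _ _
          have e3 : |(a : ℝ) * ξ| ≤ |(a : ℝ)| := by
            rw [abs_mul, abs_of_nonneg h0]
            exact mul_le_of_le_one_right (abs_nonneg _) h1
          linarith
        · rw [← ha] at hj
          linarith
      · exfalso
        rw [coeff_eq_zero_of_natDegree_lt (by rw [hdeg]; omega), Int.cast_zero, abs_zero] at hj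
        linarith
    have ha0 : (0 : ℝ) < |(a : ℝ)| := by linarith
    have ha0' : (a : ℝ) ≠ 0 := abs_pos.mp ha0
    refine ⟨(-(b : ℝ) / a, 3 * ω), ?_, ?_⟩
    · rw [Finset.mem_image]
      refine ⟨(a, b), ?_, rfl⟩
      rw [Finset.mem_product]
      exact ⟨Pool.Agent.MP211V.Count.abs_floor (hHb 1), Pool.Agent.MP211V.Count.abs_floor (hHb 0)⟩
    · simp only
      have e1 : ξ - -(b : ℝ) / a = ((a : ℝ) * ξ + b) / a := by
        field_simp
        ring
      rw [e1, abs_div, div_le_iff₀ ha0]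
      have e2 : 3 * ω * (3 * h / 8) ≤ 3 * ω * |(a : ℝ)| := mul_le_mul_of_nonneg_left ha3 (by linarith)
      nlinarith

/-- the basic inequality for the exponents -/
theorem pow_s {s D : ℝ} {d : ℕ} (hs : 0 < s) (hs1 : s ≤ 1) (hsd : s * ((d : ℝ) - 1 / 2) ≤ 1)
    (hD : 1 ≤ D) {h ω : ℝ} (hh : 1 ≤ h) (hω : 0 < ω) :
    (D * (h ^ ((d : ℝ) - 1 / 2) * ω)) ^ s ≤ D * (h * ω ^ s) := by
  have hh0 : 0 < h := by linarith
  rw [Real.mul_rpow (by linarith) (by positivity), Real.mul_rpow (by positivity) hω.le,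
    ← Real.rpow_mul hh0.le]
  have e1 : D ^ s ≤ D := by
    calc D ^ s ≤ D ^ (1 : ℝ) := Real.rpow_le_rpow_of_exponent_le hD hs1
      _ = D := Real.rpow_one D
  have e2 : h ^ (((d : ℝ) - 1 / 2) * s) ≤ h := by
    calc h ^ (((d : ℝ) - 1 / 2) * s) ≤ h ^ (1 : ℝ) :=
          Real.rpow_le_rpow_of_exponent_le hh (by rw [mul_comm]; exact hsd)
      _ = h := Real.rpow_one h
  have e3 : 0 ≤ ω ^ s := Real.rpow_nonneg hω.le s
  exact mul_le_mul e1 (mul_le_mul_of_nonneg_right e2 e3) (by positivity) (by linarith)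

/-- the intervals of one size -/
theorem size_cov {d : ℕ} (hd : 2 ≤ d) {s : ℝ} (hs : 0 < s) (hs1 : s ≤ 1)
    (hsd : s * ((d : ℝ) - 1 / 2) ≤ 1) {C₂ : ℝ} (hC₂ : 1 ≤ C₂)
    (hDisc : ∀ (h ω a b t : ℝ) (F : ℤ[X]), 1 ≤ h →
      0 < ω → 0 < t → t ≤ 1 → t ≤ b - a → |a| ≤ 3 → Irreducible F → F.natDegree = d → Hb F h →
      Sl (rp F) (h * ω) a b → t ≤ C₂ * (h ^ ((d : ℝ) - 1 / 2) * ω))
    {C₃ : ℝ} (hC₃ : 1 ≤ C₃)
    (hCnt : ∀ (h ω t : ℝ) (S : Finset (ℝ × ℝ)), 1 ≤ h → 0 < ω → 0 < t → t ≤ 1 →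
      (∀ p ∈ S, |p.1| ≤ 2 ∧ t ≤ p.2 - p.1 ∧ ∃ F : ℤ[X], F.natDegree = d ∧ Hb F h ∧
        (∃ j : ℕ, h ≤ 2 * |((F.coeff j : ℤ) : ℝ)|) ∧ Mx (rp F) (h * ω) p.1 p.2) →
      (S.card : ℝ) ≤ C₃ * (h ^ d + h ^ (d + 1) * (ω / t) ^ ((d : ℝ) / ((d : ℝ) - 1))))
    {C₁ : ℝ} (hC₁ : 1 ≤ C₁) {h ω t : ℝ} (hh : 1 ≤ h) (hω : 0 < ω) (ht : 0 < t) (ht1 : t ≤ 1)
    (htω : 2 * ω ≤ C₁ * t) :
    CovW s ((2 * C₂ * C₃ + 2 * C₃ * C₁ ^ 2) * (h ^ (d + 1) * ω ^ s))
      {ξ | ∃ p : ℝ × ℝ, (|p.1| ≤ 2 ∧ t ≤ p.2 - p.1 ∧ p.2 - p.1 < 2 * t ∧ ∃ F : ℤ[X],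
        Irreducible F ∧ F.natDegree = d ∧ Hb F h ∧
        (∃ j : ℕ, h ≤ 2 * |((F.coeff j : ℤ) : ℝ)|) ∧ Mx (rp F) (h * (2 * ω)) p.1 p.2) ∧
        p.1 ≤ ξ ∧ ξ ≤ p.2} := by
  classical
  have hd' : (2 : ℝ) ≤ d := by exact_mod_cast hd
  have hh0 : 0 < h := by linarith
  set e : ℝ := (d : ℝ) / ((d : ℝ) - 1) with he
  have he1 : 1 ≤ e := by
    rw [he, le_div_iff₀ (by linarith)]
    linarith
  have he2 : e ≤ 2 := by
    rw [he, div_le_iff₀ (by linarith)]
    linarith
  set Q : ℝ × ℝ → Prop := fun p => |p.1| ≤ 2 ∧ t ≤ p.2 - p.1 ∧ p.2 - p.1 < 2 * t ∧ ∃ F : ℤ[X],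
        Irreducible F ∧ F.natDegree = d ∧ Hb F h ∧
        (∃ j : ℕ, h ≤ 2 * |((F.coeff j : ℤ) : ℝ)|) ∧ Mx (rp F) (h * (2 * ω)) p.1 p.2 with hQ
  have hcard : ∀ S : Finset (ℝ × ℝ), (∀ p ∈ S, Q p) →
      (S.card : ℝ) ≤ C₃ * (h ^ d + h ^ (d + 1) * (2 * ω / t) ^ e) := by
    intro S hS
    apply hCnt h (2 * ω) t S hh (by linarith) ht ht1
    intro p hp
    obtain ⟨h1, h2, -, F, -, h4, h5, h6, h7⟩ := hS p hp
    exact ⟨h1, h2, F, h4, h5, h6, h7⟩
  have hfin : {p : ℝ × ℝ | Q p}.Finite := by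
    by_contra hinf
    obtain ⟨S, hS, hc⟩ :=
      Set.Infinite.exists_subset_card_eq hinf
        (⌊C₃ * (h ^ d + h ^ (d + 1) * (2 * ω / t) ^ e)⌋₊ + 1)
    have h5 := hcard S (fun p hp => hS hp)
    rw [hc] at h5
    push_cast at h5
    have h6 := Nat.lt_floor_add_one (C₃ * (h ^ d + h ^ (d + 1) * (2 * ω / t) ^ e))
    linarith
  set S : Finset (ℝ × ℝ) := hfin.toFinset with hS
  have hSQ : ∀ p, p ∈ S ↔ Q p := fun p => by simp [hS]
  refine ⟨S.image (fun p => ((p.1 + p.2) / 2, (p.2 - p.1) / 2)), ?_, ?_, ?_⟩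
  · intro p hp
    obtain ⟨z, hz, rfl⟩ := Finset.mem_image.mp hp
    have := ((hSQ z).mp hz).2.1
    simp only
    linarith
  · rcases S.eq_empty_or_nonempty with hSe | ⟨p₀, hp₀⟩
    · rw [hSe, Finset.image_empty, Finset.sum_empty]
      positivity
    have hts : t ^ s ≤ 2 * C₂ * (h * ω ^ s) := by
      obtain ⟨g1, g2, -, F, g3, g4, g5, g6, g7⟩ := (hSQ p₀).mp hp₀
      have g8 := hDisc h (2 * ω) p₀.1 p₀.2 t F hh (by linarith) ht ht1 g2 (by linarith) g3 g4 g5
        g7.2.1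
      calc t ^ s ≤ (2 * C₂ * (h ^ ((d : ℝ) - 1 / 2) * ω)) ^ s := by
            apply Real.rpow_le_rpow ht.le _ hs.le
            linarith [g8, show C₂ * (h ^ ((d : ℝ) - 1 / 2) * (2 * ω)) =
              2 * C₂ * (h ^ ((d : ℝ) - 1 / 2) * ω) by ring]
        _ ≤ 2 * C₂ * (h * ω ^ s) := pow_s hs hs1 hsd (by linarith) hh hω
    have h1 : ∑ p ∈ S.image (fun p => ((p.1 + p.2) / 2, (p.2 - p.1) / 2)), p.2 ^ s ≤
        (S.card : ℝ) * t ^ s := by
      calc ∑ p ∈ S.image (fun p => ((p.1 + p.2) / 2, (p.2 - p.1) / 2)), p.2 ^ s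
          ≤ ∑ p ∈ S.image (fun p : ℝ × ℝ => ((p.1 + p.2) / 2, (p.2 - p.1) / 2)), t ^ s := by
            refine Finset.sum_le_sum fun p hp => ?_
            obtain ⟨z, hz, rfl⟩ := Finset.mem_image.mp hp
            have h2 := ((hSQ z).mp hz).2.1
            have h3 := ((hSQ z).mp hz).2.2.1
            simp only
            apply Real.rpow_le_rpow (by linarith) (by linarith) hs.le
        _ = ((S.image (fun p : ℝ × ℝ => ((p.1 + p.2) / 2, (p.2 - p.1) / 2))).card : ℝ) *
            t ^ s := by rw [Finset.sum_const, nsmul_eq_mul]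
        _ ≤ (S.card : ℝ) * t ^ s := by
            apply mul_le_mul_of_nonneg_right _ (Real.rpow_nonneg ht.le s)
            exact_mod_cast Finset.card_image_le
    have h2 := hcard S (fun p hp => (hSQ p).mp hp)
    have hts0 : 0 ≤ t ^ s := Real.rpow_nonneg ht.le s
    have h3 : (2 * ω / t) ^ e * t ^ s ≤ 2 * C₁ ^ 2 * ω ^ s := by
      have hx0 : 0 < 2 * ω / t := by positivity
      have hxC : 2 * ω / t ≤ C₁ := by
        rw [div_le_iff₀ ht]
        exact htω
      have g1 : (2 * ω / t) ^ e = (2 * ω / t) ^ (e - s) * (2 * ω / t) ^ s := by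
        rw [← Real.rpow_add hx0]
        congr 1
        ring
      have g2 : (2 * ω / t) ^ s * t ^ s = (2 * ω) ^ s := by
        rw [← Real.mul_rpow hx0.le ht.le]
        congr 1
        field_simp
      have g3 : (2 * ω / t) ^ (e - s) ≤ C₁ ^ 2 := by
        calc (2 * ω / t) ^ (e - s) ≤ C₁ ^ (e - s) := Real.rpow_le_rpow hx0.le hxC (by linarith)
          _ ≤ C₁ ^ (2 : ℝ) := Real.rpow_le_rpow_of_exponent_le hC₁ (by linarith)
          _ = C₁ ^ 2 := Real.rpow_two C₁
      have g4 : (2 * ω) ^ s ≤ 2 * ω ^ s := by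
        rw [Real.mul_rpow (by norm_num) hω.le]
        apply mul_le_mul_of_nonneg_right _ (Real.rpow_nonneg hω.le s)
        calc (2 : ℝ) ^ s ≤ 2 ^ (1 : ℝ) := Real.rpow_le_rpow_of_exponent_le (by norm_num) hs1
          _ = 2 := Real.rpow_one 2
      rw [g1, mul_assoc, g2]
      calc (2 * ω / t) ^ (e - s) * (2 * ω) ^ s ≤ C₁ ^ 2 * (2 * ω ^ s) :=
            mul_le_mul g3 g4 (Real.rpow_nonneg (by linarith) s) (by positivity)
        _ = 2 * C₁ ^ 2 * ω ^ s := by ring
    calc ∑ p ∈ S.image (fun p => ((p.1 + p.2) / 2, (p.2 - p.1) / 2)), p.2 ^ s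
        ≤ (S.card : ℝ) * t ^ s := h1
      _ ≤ C₃ * (h ^ d + h ^ (d + 1) * (2 * ω / t) ^ e) * t ^ s :=
          mul_le_mul_of_nonneg_right h2 hts0
      _ = C₃ * h ^ d * t ^ s + C₃ * h ^ (d + 1) * ((2 * ω / t) ^ e * t ^ s) := by ring
      _ ≤ C₃ * h ^ d * (2 * C₂ * (h * ω ^ s)) + C₃ * h ^ (d + 1) * (2 * C₁ ^ 2 * ω ^ s) := by
          apply add_le_add
          · exact mul_le_mul_of_nonneg_left hts (by positivity)
          · exact mul_le_mul_of_nonneg_left h3 (by positivity)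
      _ = (2 * C₂ * C₃ + 2 * C₃ * C₁ ^ 2) * (h ^ (d + 1) * ω ^ s) := by ring
  · rintro ξ ⟨p, hp, h1, h2⟩
    refine ⟨_, Finset.mem_image_of_mem _ ((hSQ p).mpr hp), ?_⟩
    simp only
    rw [abs_le]
    constructor <;> linarith

/-- bound for the derivative -/
theorem deriv_bound {d : ℕ} {h : ℝ} (F : ℤ[X]) (hF : F.natDegree = d) (hb : Hb F h) (hh : 0 ≤ h)
    {x : ℝ} (hx : |x| ≤ 2) : |(derivative (rp F)).eval x| ≤ (d * (d * 2 ^ d)) * h := by
  have h1 : (derivative (rp F)).natDegree < d + 1 := by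
    rw [natDegree_derivative, Pool.Agent.MP211V.Count.natDegree_rp, hF]
    omega
  rcases Nat.eq_zero_or_pos d with hd0 | hd0
  · have h2 : (rp F).natDegree = 0 := by
      rw [Pool.Agent.MP211V.Count.natDegree_rp, hF, hd0]
    rw [derivative_of_natDegree_zero h2, eval_zero, abs_zero]
    positivity
  have h1' : (derivative (rp F)).natDegree < d := by
    rw [natDegree_derivative, Pool.Agent.MP211V.Count.natDegree_rp, hF]
    omega
  rw [eval_eq_sum_range' h1']
  calc |∑ i ∈ Finset.range d, (derivative (rp F)).coeff i * x ^ i|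
      ≤ ∑ i ∈ Finset.range d, |(derivative (rp F)).coeff i * x ^ i| :=
        Finset.abs_sum_le_sum_abs _ _
    _ ≤ ∑ _i ∈ Finset.range d, (d * 2 ^ d) * h := by
        refine Finset.sum_le_sum fun i hi => ?_
        rw [Finset.mem_range] at hi
        rw [abs_mul, coeff_derivative, abs_mul, abs_pow]
        have e1 : |(rp F).coeff (i + 1)| ≤ h := by
          unfold Pool.Agent.MP211V.rp
          rw [coeff_map, eq_intCast]
          exact hb (i + 1)
        have e2 : |((i : ℝ) + 1)| ≤ d := by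
          rw [abs_of_nonneg (by positivity)]
          exact_mod_cast hi
        have e3 : |x| ^ i ≤ 2 ^ d := by
          calc |x| ^ i ≤ 2 ^ i := pow_le_pow_left₀ (abs_nonneg _) hx i
            _ ≤ 2 ^ d := pow_le_pow_right₀ (by norm_num) (by omega)
        calc |(rp F).coeff (i + 1)| * |((i : ℝ) + 1)| * |x| ^ i ≤ h * d * 2 ^ d := by
              apply mul_le_mul (mul_le_mul e1 e2 (abs_nonneg _) hh) e3 (by positivity)
                (by positivity)
          _ = (d * 2 ^ d) * h := by ring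
    _ = (d * (d * 2 ^ d)) * h := by
        rw [Finset.sum_const, Finset.card_range, nsmul_eq_mul]
        ring

end Cost

open Cost in
theorem wCost (h1 : S_DiscT) (h2 : S_CntT) (h3 : Pool.Agent.MP211V.S_MxEx) : S_Cost := by
  intro d s hd hs hs1 hsd
  rcases Nat.lt_or_ge d 2 with hd2 | hd2
  · -- degree one
    obtain rfl : d = 1 := by omega
    refine ⟨27, by norm_num, fun h ω hh hω => ?_⟩
    have hlog1 : 0 ≤ Real.log h := Real.log_nonneg hh
    have hlog2 : 0 ≤ Real.log (1 + 1 / ω) := by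
      apply Real.log_nonneg
      have : 0 < 1 / ω := by positivity
      linarith
    have hX0 : 0 ≤ h ^ (1 + 1) * ω ^ s := by positivity
    have hX : 27 * (h ^ (1 + 1) * ω ^ s) ≤
        27 * (1 + Real.log h + Real.log (1 + 1 / ω)) * (h ^ (1 + 1) * ω ^ s) := by
      apply mul_le_mul_of_nonneg_right _ hX0
      linarith
    rcases lt_or_ge ω (1 / 8) with hω8 | hω8
    · exact (deg_one hs hs1 hh hω hω8).mono hX (Set.Subset.refl _)
    · apply (triv (s := s) (B := 27 * (h ^ (1 + 1) * ω ^ s)) 1 h ω _).mono hX (Set.Subset.refl _)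
      have e1 : (1 / 8 : ℝ) ≤ ω ^ s := by
        calc (1 / 8 : ℝ) = (1 / 8) ^ (1 : ℝ) := (Real.rpow_one _).symm
          _ ≤ (1 / 8) ^ s := Real.rpow_le_rpow_of_exponent_ge (by norm_num) (by norm_num) hs1
          _ ≤ ω ^ s := Real.rpow_le_rpow (by norm_num) hω8 hs.le
      have e2 : 1 ≤ h ^ (1 + 1) := one_le_pow₀ hh
      nlinarith
  · obtain ⟨C₂, hC₂, hDisc⟩ := h1 d hd2
    obtain ⟨C₃, hC₃, hCnt⟩ := h2 d hd2
    have hd' : (2 : ℝ) ≤ d := by exact_mod_cast hd2
    set C₁ : ℝ := d * (d * 2 ^ d) with hC₁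
    have hC₁1 : 1 ≤ C₁ := by
      have e1 : (1 : ℝ) ≤ 2 ^ d := one_le_pow₀ (by norm_num)
      have e2 : (1 : ℝ) ≤ d * 2 ^ d := by nlinarith
      nlinarith
    have hlogC₁ : 0 ≤ Real.log C₁ := Real.log_nonneg hC₁1
    set Z : ℝ := 2 * C₂ * C₃ + 2 * C₃ * C₁ ^ 2 with hZ
    have hZ0 : 0 < Z := by positivity
    refine ⟨2 * C₂ + (2 * Real.log C₁ + 2) * Z, by nlinarith, fun h ω hh hω => ?_⟩
    have hh0 : 0 < h := by linarith
    have hlog1 : 0 ≤ Real.log h := Real.log_nonneg hh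
    have hlog2 : 0 ≤ Real.log (1 + 1 / ω) := by
      apply Real.log_nonneg
      have : 0 < 1 / ω := by positivity
      linarith
    have hX0 : 0 < h ^ (d + 1) * ω ^ s := mul_pos (by positivity) (Real.rpow_pos_of_pos hω s)
    have hhd : h ≤ h ^ (d + 1) := le_self_pow₀ hh (by omega)
    -- a bound for the cost of the trivial cover
    have htriv : 1 ≤ 2 * C₂ * (h ^ (d + 1) * ω ^ s) →
        CovW s ((2 * C₂ + (2 * Real.log C₁ + 2) * Z) *
          (1 + Real.log h + Real.log (1 + 1 / ω)) * (h ^ (d + 1) * ω ^ s)) (SmallP d h ω) := by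
      intro hB
      apply triv
      refine hB.trans ?_
      apply mul_le_mul_of_nonneg_right _ hX0.le
      have e1 : 0 ≤ (2 * Real.log C₁ + 2) * Z := by positivity
      have e2 : 0 ≤ (2 * C₂ + (2 * Real.log C₁ + 2) * Z) * (Real.log h + Real.log (1 + 1 / ω)) := by
        positivity
      nlinarith
    rcases le_or_gt 1 ω with hω1 | hω1
    · apply htriv
      have e1 : 1 ≤ ω ^ s := Real.one_le_rpow hω1 hs.le
      have e2 : 1 ≤ h ^ (d + 1) := one_le_pow₀ hh
      have e3 : 1 ≤ h ^ (d + 1) * ω ^ s := by nlinarith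
      nlinarith
    by_cases hα : 1 ≤ 2 * C₂ * (h ^ ((d : ℝ) - 1 / 2) * ω)
    · apply htriv
      calc (1 : ℝ) = 1 ^ s := (Real.one_rpow s).symm
        _ ≤ (2 * C₂ * (h ^ ((d : ℝ) - 1 / 2) * ω)) ^ s :=
            Real.rpow_le_rpow zero_le_one hα hs.le
        _ ≤ 2 * C₂ * (h * ω ^ s) := pow_s hs hs1 hsd (by linarith) hh hω
        _ ≤ 2 * C₂ * (h ^ (d + 1) * ω ^ s) := by
            apply mul_le_mul_of_nonneg_left _ (by linarith)
            exact mul_le_mul_of_nonneg_right hhd (Real.rpow_nonneg hω.le s)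
    -- all intervals are short
    set t₀ : ℝ := 2 * ω / C₁ with ht₀
    have ht₀0 : 0 < t₀ := by positivity
    obtain ⟨N, hN⟩ : ∃ N : ℕ, N = ⌊2 * (Real.log C₁ + Real.log (1 + 1 / ω))⌋₊ + 1 := ⟨_, rfl⟩
    have hNle : (N : ℝ) ≤ (2 * Real.log C₁ + 2) * (1 + Real.log (1 + 1 / ω)) := by
      rw [hN]
      push_cast
      have e1 := Nat.floor_le (show 0 ≤ 2 * (Real.log C₁ + Real.log (1 + 1 / ω)) by linarith)
      nlinarith
    have hlN : ∀ l : ℕ, t₀ * 2 ^ l < 1 → l < N := by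
      intro l hl
      have e1 : (2 : ℝ) ^ l < C₁ * (1 + 1 / ω) := by
        have e2 : t₀ * 2 ^ l * (C₁ / (2 * ω)) = 2 ^ l := by
          rw [ht₀]
          field_simp
        have e3 : 0 < C₁ / (2 * ω) := by positivity
        calc (2 : ℝ) ^ l = t₀ * 2 ^ l * (C₁ / (2 * ω)) := e2.symm
          _ < 1 * (C₁ / (2 * ω)) := mul_lt_mul_of_pos_right hl e3
          _ = C₁ * (1 / (2 * ω)) := by ring
          _ ≤ C₁ * (1 + 1 / ω) := by
              apply mul_le_mul_of_nonneg_left _ (by linarith)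
              have e4 : 1 / (2 * ω) ≤ 1 / ω := by
                apply one_div_le_one_div_of_le hω
                linarith
              linarith
      have e2 : (l : ℝ) * Real.log 2 < Real.log C₁ + Real.log (1 + 1 / ω) := by
        rw [← Real.log_pow, ← Real.log_mul (by positivity) (by positivity)]
        exact Real.log_lt_log (by positivity) e1
      have e3 : (1 : ℝ) / 2 < Real.log 2 := by
        have := Real.log_two_gt_d9
        linarith
      have e4 : (l : ℝ) ≤ 2 * (Real.log C₁ + Real.log (1 + 1 / ω)) := by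
        have : (0 : ℝ) ≤ l := Nat.cast_nonneg l
        nlinarith
      rw [hN]
      exact Nat.lt_succ_of_le (Nat.le_floor e4)
    set E : ℕ → Set ℝ := fun l => {ξ | t₀ * 2 ^ l < 1 ∧ ∃ p : ℝ × ℝ, (|p.1| ≤ 2 ∧
      t₀ * 2 ^ l ≤ p.2 - p.1 ∧ p.2 - p.1 < 2 * (t₀ * 2 ^ l) ∧ ∃ F : ℤ[X],
        Irreducible F ∧ F.natDegree = d ∧ Hb F h ∧
        (∃ j : ℕ, h ≤ 2 * |((F.coeff j : ℤ) : ℝ)|) ∧ Mx (rp F) (h * (2 * ω)) p.1 p.2) ∧
        p.1 ≤ ξ ∧ ξ ≤ p.2} with hE
    have hcov := cov_range (s := s) (B := Z * (h ^ (d + 1) * ω ^ s)) N E (by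
      intro l _
      by_cases hl : t₀ * 2 ^ l < 1
      · have h2l : (1 : ℝ) ≤ 2 ^ l := one_le_pow₀ (by norm_num)
        refine (size_cov hd2 hs hs1 hsd hC₂ hDisc hC₃ hCnt hC₁1 hh hω (t := t₀ * 2 ^ l)
          (by positivity) hl.le ?_).mono le_rfl ?_
        · have e1 : C₁ * t₀ = 2 * ω := by
            rw [ht₀]
            field_simp
          calc 2 * ω = C₁ * t₀ * 1 := by rw [e1, mul_one]
            _ ≤ C₁ * t₀ * 2 ^ l := mul_le_mul_of_nonneg_left h2l (by positivity)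
            _ = C₁ * (t₀ * 2 ^ l) := by ring
        · rintro ξ ⟨-, hξ⟩
          exact hξ
      · refine ⟨∅, fun p hp => absurd hp (Finset.notMem_empty p), ?_, ?_⟩
        · rw [Finset.sum_empty]
          positivity
        · rintro ξ ⟨hl', -⟩
          exact absurd hl' hl)
    refine hcov.mono ?_ ?_
    · calc (N : ℝ) * (Z * (h ^ (d + 1) * ω ^ s)) ≤
            ((2 * Real.log C₁ + 2) * (1 + Real.log (1 + 1 / ω))) * (Z * (h ^ (d + 1) * ω ^ s)) :=
          mul_le_mul_of_nonneg_right hNle (by positivity)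
        _ = ((2 * Real.log C₁ + 2) * Z) * (1 + Real.log (1 + 1 / ω)) * (h ^ (d + 1) * ω ^ s) := by
            ring
        _ ≤ (2 * C₂ + (2 * Real.log C₁ + 2) * Z) *
            (1 + Real.log h + Real.log (1 + 1 / ω)) * (h ^ (d + 1) * ω ^ s) := by
            apply mul_le_mul_of_nonneg_right _ hX0.le
            apply mul_le_mul _ (by linarith) (by positivity) (by positivity)
            linarith
    · rintro ξ ⟨hξ0, hξ1, F, hirr, hdeg, hHb, hj, hval⟩
      set η : ℝ := ω / C₁ with hη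
      have hη0 : 0 < η := by positivity
      have hη1 : η ≤ 1 := by
        rw [hη, div_le_one (by linarith)]
        linarith
      have hC₁η : C₁ * η = ω := by
        rw [hη]
        field_simp
      have hmv : Sl (rp F) (h * (2 * ω)) (ξ - η) (ξ + η) := by
        intro z hz1 hz2
        have e1 := Convex.norm_image_sub_le_of_norm_deriv_le (𝕜 := ℝ)
          (f := fun z => (rp F).eval z) (C := C₁ * h) (s := Set.Icc (-1) 2) (x := ξ) (y := z)
          (fun z _ => (rp F).differentiableAt) (by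
            intro w hw
            rw [Polynomial.deriv, Real.norm_eq_abs]
            apply deriv_bound F hdeg hHb hh0.le
            rw [abs_le]
            constructor
            · linarith [hw.1]
            · exact hw.2) (convex_Icc _ _) ⟨by linarith, by linarith⟩
          ⟨by linarith, by linarith⟩
        rw [Real.norm_eq_abs, Real.norm_eq_abs] at e1
        have e2 : |z - ξ| ≤ η := by
          rw [abs_le]
          constructor <;> linarith
        have e3 : C₁ * h * |z - ξ| ≤ h * ω := by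
          calc C₁ * h * |z - ξ| ≤ C₁ * h * η := mul_le_mul_of_nonneg_left e2 (by positivity)
            _ = h * (C₁ * η) := by ring
            _ = h * ω := by rw [hC₁η]
        calc |(rp F).eval z| = |((rp F).eval z - (rp F).eval ξ) + (rp F).eval ξ| := by
              congr 1
              ring
          _ ≤ |(rp F).eval z - (rp F).eval ξ| + |(rp F).eval ξ| := abs_add_le _ _
          _ ≤ h * (2 * ω) := by
              have e4 : |(rp F).eval z - (rp F).eval ξ| ≤ h * ω := e1.trans e3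
              linarith
      obtain ⟨a, b, ha, hb, hMx⟩ := h3 (rp F) (h * (2 * ω)) (ξ - η) (ξ + η)
        (by rw [Pool.Agent.MP211V.Count.natDegree_rp, hdeg]; omega) (by linarith) hmv
      have hlen1 : b - a < 1 := by
        by_contra hcon
        push Not at hcon
        apply hα
        have e1 := hDisc h (2 * ω) (max a (ξ - 1)) (max a (ξ - 1) + 1) 1 F hh (by linarith)
          one_pos le_rfl (by linarith) (by
            rw [abs_le]
            constructor
            · exact le_trans (by linarith) (le_max_right _ _)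
            · exact max_le (by linarith) (by linarith)) hirr hdeg hHb (by
            intro z hz1 hz2
            apply hMx.2.1 z
            · exact (le_max_left _ _).trans hz1
            · refine hz2.trans ?_
              rcases le_total a (ξ - 1) with h | h
              · rw [max_eq_right h]
                linarith
              · rw [max_eq_left h]
                linarith)
        calc (1 : ℝ) ≤ C₂ * (h ^ ((d : ℝ) - 1 / 2) * (2 * ω)) := e1
          _ = 2 * C₂ * (h ^ ((d : ℝ) - 1 / 2) * ω) := by ring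
      have hlen0 : t₀ ≤ b - a := by
        have e1 : t₀ = 2 * η := by
          rw [ht₀, hη]
          ring
        rw [e1]
        linarith
      obtain ⟨l, hl1, hl2⟩ := exists_nat_pow_near (x := (b - a) / t₀) (y := (2 : ℝ))
        (by rw [le_div_iff₀ ht₀0]; linarith) (by norm_num)
      rw [le_div_iff₀ ht₀0] at hl1
      rw [div_lt_iff₀ ht₀0, pow_succ] at hl2
      have hl3 : t₀ * 2 ^ l < 1 := by linarith
      refine ⟨l, hlN l hl3, hl3, (a, b), ⟨?_, by simp only; linarith, by simp only; linarith, F,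
        hirr, hdeg, hHb, hj, hMx⟩, by simp only; linarith, by simp only; linarith⟩
      simp only
      rw [abs_le]
      constructor <;> linarith

end Pool.Agent.MP211W
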