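import Pool.Agent.Lib.MP_211f72_nt.W.SpecD

/-!
# MP_211f72_nt, third theorem: the cubic form of a class of order 3
-/

namespace Pool.Agent.MP211W

open Polynomial NumberField
open MP_211f72_nt (Cub det Nor1 Nor2)

namespace CubI

section Alg

variable {R : Type} [CommRing R] [IsDomain R]

/-- the common computation: `A = αβ' - α'β` -/
private theorem cancel {N rD ε h P G : R} (hN0 : N ≠ 0) (hr0 : rD ≠ 0) (hε : ε ^ 2 = 1)
    (h1 : ε * N ^ 3 * (rD ^ 2 * h) = -(P * (N * rD) ^ 2)) (hG : G = N * h) : G = -(ε * P) := by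
  subst hG
  have h2 : N ^ 2 * rD ^ 2 ≠ 0 := mul_ne_zero (pow_ne_zero _ hN0) (pow_ne_zero _ hr0)
  apply mul_left_cancel₀ h2
  linear_combination ε * h1 - N ^ 3 * rD ^ 2 * h * hε

private theorem alg {α α' β β' μ μ' z0 z0' z1 z1' z2 z2' z3 z3' rD N ε F0 F1 F2 F3 : R}
    (h0 : α ^ 3 = μ * z0) (h0' : α' ^ 3 = μ' * z0') (h1 : α ^ 2 * β = μ * z1)
    (h1' : α' ^ 2 * β' = μ' * z1') (h2 : α * β ^ 2 = μ * z2) (h2' : α' * β' ^ 2 = μ' * z2')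
    (h3 : β ^ 3 = μ * z3) (h3' : β' ^ 3 = μ' * z3') (f0 : z0 - z0' = F0 * rD)
    (f1 : z1 - z1' = F1 * rD) (f2 : z2 - z2' = F2 * rD) (f3 : z3 - z3' = F3 * rD)
    (hμ : μ * μ' = ε * N ^ 3) (hN : α * β' - α' * β = N * rD) (hμ0 : μ ≠ 0) (hμ0' : μ' ≠ 0)
    (hN0 : N ≠ 0) (hr0 : rD ≠ 0) (hε : ε ^ 2 = 1) :
    N * (F0 * F2 - F1 ^ 2) = -(ε * (α * α')) ∧
    N * (F0 * F3 - F1 * F2) = -(ε * (α * β' + α' * β)) ∧
    N * (F1 * F3 - F2 ^ 2) = -(ε * (β * β')) := by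
  have c : ∀ {m a b c d : R}, m ≠ 0 → (m * a) * (m * b) = (m * c) * (m * d) → a * b = c * d := by
    intro m a b c d hm h
    apply mul_left_cancel₀ (pow_ne_zero 2 hm)
    linear_combination h
  have k1 : z0 * z2 = z1 * z1 := c hμ0 (by rw [← h0, ← h2, ← h1]; ring)
  have k1' : z0' * z2' = z1' * z1' := c hμ0' (by rw [← h0', ← h2', ← h1']; ring)
  have k2 : z0 * z3 = z1 * z2 := c hμ0 (by rw [← h0, ← h3, ← h1, ← h2]; ring)
  have k2' : z0' * z3' = z1' * z2' := c hμ0' (by rw [← h0', ← h3', ← h1', ← h2']; ring)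
  have k3 : z1 * z3 = z2 * z2 := c hμ0 (by rw [← h1, ← h3, ← h2]; ring)
  have k3' : z1' * z3' = z2' * z2' := c hμ0' (by rw [← h1', ← h3', ← h2']; ring)
  refine ⟨cancel hN0 hr0 hε ?_ rfl, cancel hN0 hr0 hε ?_ rfl, cancel hN0 hr0 hε ?_ rfl⟩
  · rw [← hμ, ← hN]
    have e1 : rD ^ 2 * (F0 * F2 - F1 ^ 2) = (F0 * rD) * (F2 * rD) - (F1 * rD) * (F1 * rD) := by
      ring
    rw [e1, ← f0, ← f1, ← f2]
    have e2 : μ * μ' * ((z0 - z0') * (z2 - z2') - (z1 - z1') * (z1 - z1')) =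
        μ * μ' * (z0 * z2 - z1 * z1) + μ * μ' * (z0' * z2' - z1' * z1') -
          (μ * z0) * (μ' * z2') - (μ' * z0') * (μ * z2) + 2 * ((μ * z1) * (μ' * z1')) := by ring
    rw [e2, k1, k1', ← h0, ← h1, ← h2, ← h0', ← h1', ← h2']
    ring
  · rw [← hμ, ← hN]
    have e1 : rD ^ 2 * (F0 * F3 - F1 * F2) = (F0 * rD) * (F3 * rD) - (F1 * rD) * (F2 * rD) := by
      ring
    rw [e1, ← f0, ← f1, ← f2, ← f3]
    have e2 : μ * μ' * ((z0 - z0') * (z3 - z3') - (z1 - z1') * (z2 - z2')) =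
        μ * μ' * (z0 * z3 - z1 * z2) + μ * μ' * (z0' * z3' - z1' * z2') -
          (μ * z0) * (μ' * z3') - (μ' * z0') * (μ * z3) + (μ * z1) * (μ' * z2') +
          (μ' * z1') * (μ * z2) := by ring
    rw [e2, k2, k2', ← h0, ← h1, ← h2, ← h3, ← h0', ← h1', ← h2', ← h3']
    ring
  · rw [← hμ, ← hN]
    have e1 : rD ^ 2 * (F1 * F3 - F2 ^ 2) = (F1 * rD) * (F3 * rD) - (F2 * rD) * (F2 * rD) := by
      ring
    rw [e1, ← f1, ← f2, ← f3]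
    have e2 : μ * μ' * ((z1 - z1') * (z3 - z3') - (z2 - z2') * (z2 - z2')) =
        μ * μ' * (z1 * z3 - z2 * z2) + μ * μ' * (z1' * z3' - z2' * z2') -
          (μ * z1) * (μ' * z3') - (μ' * z1') * (μ * z3) + 2 * ((μ * z2) * (μ' * z2')) := by ring
    rw [e2, k3, k3', ← h1, ← h2, ← h3, ← h1', ← h2', ← h3']
    ring

omit [IsDomain R] in
/-- the Hessian in the new basis -/
private theorem hess {α α' β β' N ε : R} {x : Cub} {p r : ℤ × ℤ} (hdet : det p r = 1)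
    (g0 : N * ((x.h0 : ℤ) : R) = -(ε * (α * α')))
    (g1 : N * ((x.h1 : ℤ) : R) = -(ε * (α * β' + α' * β)))
    (g2 : N * ((x.h2 : ℤ) : R) = -(ε * (β * β'))) (u v : ℤ) :
    N * (((x.sub p r).H (u, v) : ℤ) : R) =
      -ε * (((u : R) * ((p.1 : R) * α + (p.2 : R) * β) + (v : R) * ((r.1 : R) * α + (r.2 : R) * β)) *
        ((u : R) * ((p.1 : R) * α' + (p.2 : R) * β') +
          (v : R) * ((r.1 : R) * α' + (r.2 : R) * β'))) := by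
  have e : (x.sub p r).H (u, v) = x.h0 * (u * p.1 + v * r.1) ^ 2 +
      x.h1 * ((u * p.1 + v * r.1) * (u * p.2 + v * r.2)) + x.h2 * (u * p.2 + v * r.2) ^ 2 := by
    unfold Cub.H
    rw [Cub.sub_h0, Cub.sub_h1, Cub.sub_h2, hdet]
    unfold Cub.H Cub.polar
    ring
  rw [e]
  push_cast
  linear_combination ((u : R) * p.1 + v * r.1) ^ 2 * g0 +
    ((u : R) * p.1 + v * r.1) * ((u : R) * p.2 + v * r.2) * g1 + ((u : R) * p.2 + v * r.2) ^ 2 * g2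

end Alg

end CubI

open CubI

/-- **CubI** -/
theorem wCubI (h1 : S_QFb) (h2 : MP_211f72_nt.ExistsNormal) : S_CubI := by
  intro d K _ _ Q hd hd2 D rD hrD I α β μ hI hB hμI
  obtain ⟨hDd, hrD2, hrDc, hrDz⟩ := hrD
  obtain ⟨hBm, hBd⟩ := hB
  have hα : α ∈ I := (hBm α).2 ⟨1, 0, by push_cast; ring⟩
  have hβ : β ∈ I := (hBm β).2 ⟨0, 1, by push_cast; ring⟩
  have hI3 : I ^ 3 = I ^ 2 * I := pow_succ I 2
  have hI2 : I ^ 2 = I * I := pow_two I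
  have m0 : α ^ 3 ∈ I ^ 3 := Ideal.pow_mem_pow hα 3
  have m3 : β ^ 3 ∈ I ^ 3 := Ideal.pow_mem_pow hβ 3
  have m1 : α ^ 2 * β ∈ I ^ 3 := by
    rw [hI3]
    exact Ideal.mul_mem_mul (Ideal.pow_mem_pow hα 2) hβ
  have m2 : α * β ^ 2 ∈ I ^ 3 := by
    rw [hI3, mul_comm]
    exact Ideal.mul_mem_mul hα (Ideal.pow_mem_pow hβ 2)
  rw [hμI, Ideal.mem_span_singleton] at m0 m1 m2 m3
  obtain ⟨z0, k0⟩ := m0
  obtain ⟨z1, k1⟩ := m1
  obtain ⟨z2, k2⟩ := m2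
  obtain ⟨z3, k3⟩ := m3
  obtain ⟨F0, f0⟩ := hrDz z0
  obtain ⟨F1, f1⟩ := hrDz z1
  obtain ⟨F2, f2⟩ := hrDz z2
  obtain ⟨F3, f3⟩ := hrDz z3
  have hμ0 : μ ≠ 0 := by
    rintro rfl
    rw [Ideal.span_singleton_eq_bot.2 rfl] at hμI
    exact (pow_ne_zero 3 hI) hμI
  have hμ0' : Q.tO μ ≠ 0 := (map_ne_zero_iff _ Q.tO.injective).2 hμ0
  set N : 𝓞 K := ((Ideal.absNorm I : ℕ) : 𝓞 K) with hN
  have hNn : Ideal.absNorm I ≠ 0 := Ideal.absNorm_ne_zero_iff_mem_nonZeroDivisors.2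
    (mem_nonZeroDivisors_of_ne_zero hI)
  have hN0 : N ≠ 0 := by
    rw [hN]
    exact_mod_cast hNn
  have hD0 : D ≠ 0 := by
    rcases hDd with h | h <;> omega
  have hr0 : rD ≠ 0 := by
    rintro rfl
    rw [zero_pow two_ne_zero] at hrD2
    have : ((D : ℕ) : 𝓞 K) ≠ 0 := by exact_mod_cast hD0
    exact this hrD2.symm
  -- the norm of `μ`
  obtain ⟨ε, hε, hμε⟩ : ∃ ε : ℤ, (ε = 1 ∨ ε = -1) ∧ μ * Q.tO μ = ((ε : ℤ) : 𝓞 K) * N ^ 3 := by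
    have e1 : μ * Q.tO μ = ((Algebra.norm ℤ μ : ℤ) : 𝓞 K) := by
      apply RingOfIntegers.ext
      have := (h1 d K Q hd hd2).2.2.2.2 μ
      rw [show ((μ * Q.tO μ : 𝓞 K) : K) = (μ : K) * Q.τ (μ : K) from rfl, this]
      simp
    have e2 : (Algebra.norm ℤ μ).natAbs = (Ideal.absNorm I) ^ 3 := by
      rw [← Ideal.absNorm_span_singleton, ← hμI, map_pow]
    rcases Int.natAbs_eq (Algebra.norm ℤ μ) with h | h
    · refine ⟨1, Or.inl rfl, ?_⟩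
      rw [e1, h, e2, hN]
      push_cast
      ring
    · refine ⟨-1, Or.inr rfl, ?_⟩
      rw [e1, h, e2, hN]
      push_cast
      ring
  have hε2 : ((ε : ℤ) : 𝓞 K) ^ 2 = 1 := by
    rcases hε with h | h <;> rw [h] <;> norm_num
  obtain ⟨g0, g1, g2⟩ := alg (α := α) (α' := Q.tO α) (β := β) (β' := Q.tO β) (μ := μ)
    (μ' := Q.tO μ) (z0' := Q.tO z0) (z1' := Q.tO z1) (z2' := Q.tO z2) (z3' := Q.tO z3)
    k0 (by rw [← map_pow, k0, map_mul]) k1 (by rw [← map_pow, ← map_mul, k1, map_mul])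
    k2 (by rw [← map_pow, ← map_mul, k2, map_mul]) k3 (by rw [← map_pow, k3, map_mul])
    f0 f1 f2 f3 hμε hBd hμ0 hμ0' hN0 hr0 hε2
  set x : Cub := ⟨F0, F1, F2, F3⟩ with hx
  have g0' : N * ((x.h0 : ℤ) : 𝓞 K) = -(((ε : ℤ) : 𝓞 K) * (α * Q.tO α)) := by
    rw [← g0]
    simp only [hx, Cub.h0]
    push_cast
    ring
  have g1' : N * ((x.h1 : ℤ) : 𝓞 K) = -(((ε : ℤ) : 𝓞 K) * (α * Q.tO β + Q.tO α * β)) := by
    rw [← g1]
    simp only [hx, Cub.h1]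
    push_cast
    ring
  have g2' : N * ((x.h2 : ℤ) : 𝓞 K) = -(((ε : ℤ) : 𝓞 K) * (β * Q.tO β)) := by
    rw [← g2]
    simp only [hx, Cub.h2]
    push_cast
    ring
  have hxD : x.D = (D : ℤ) := by
    have e1 : N ^ 2 * ((x.D : ℤ) : 𝓞 K) = N ^ 2 * (((D : ℕ) : ℤ) : 𝓞 K) := by
      have e2 : ((x.D : ℤ) : 𝓞 K) = ((x.h1 : ℤ) : 𝓞 K) ^ 2 -
          4 * ((x.h0 : ℤ) : 𝓞 K) * ((x.h2 : ℤ) : 𝓞 K) := by
        unfold Cub.D
        push_cast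
        ring
      have e3 : N ^ 2 * (((D : ℕ) : ℤ) : 𝓞 K) = (α * Q.tO β - Q.tO α * β) ^ 2 := by
        rw [hBd, mul_pow, hrD2]
        push_cast
        ring
      rw [e3, e2]
      have e4 : N ^ 2 * (((x.h1 : ℤ) : 𝓞 K) ^ 2 - 4 * ((x.h0 : ℤ) : 𝓞 K) * ((x.h2 : ℤ) : 𝓞 K)) =
          (N * ((x.h1 : ℤ) : 𝓞 K)) ^ 2 - 4 * (N * ((x.h0 : ℤ) : 𝓞 K)) *
            (N * ((x.h2 : ℤ) : 𝓞 K)) := by ring
      rw [e4, g0', g1', g2']
      linear_combination ((α * Q.tO β + Q.tO α * β) ^ 2 - 4 * (α * Q.tO α) * (β * Q.tO β)) * hε2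
    have e5 := mul_left_cancel₀ (pow_ne_zero 2 hN0) e1
    exact_mod_cast e5
  obtain ⟨f, w, z, hdet, hxf, hnor⟩ := h2 x (by rw [hxD]; exact_mod_cast hD0)
  have hf : x.sub (z.2, -w.2) (-z.1, w.1) = f := by
    rw [hxf]
    exact Cub.sub_sub_inv f w z hdet
  have hdet' : det (z.2, -w.2) (-z.1, w.1) = 1 := by
    rw [← hdet]
    simp only [det]
    ring
  have hfD : f.D = (D : ℤ) := by
    rw [← hf, Cub.sub_D, hdet', hxD]
    ring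
  have hdetR : ((z.2 : ℤ) : 𝓞 K) * ((w.1 : ℤ) : 𝓞 K) - ((w.2 : ℤ) : 𝓞 K) * ((z.1 : ℤ) : 𝓞 K) = 1 := by
    have : z.2 * w.1 - w.2 * z.1 = 1 := by
      rw [← hdet]
      simp only [det]
      ring
    exact_mod_cast congrArg (fun t : ℤ => (t : 𝓞 K)) this
  refine ⟨f, ((z.2 : ℤ) : 𝓞 K) * α + (((-w.2 : ℤ)) : 𝓞 K) * β,
    (((-z.1 : ℤ)) : 𝓞 K) * α + ((w.1 : ℤ) : 𝓞 K) * β, -ε, hnor, hfD, ?_, ⟨?_, ?_⟩, ?_⟩
  · rcases hε with h | h
    · right; rw [h]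
    · left; rw [h]; norm_num
  · intro y
    rw [hBm]
    constructor
    · rintro ⟨m, n, rfl⟩
      refine ⟨w.1 * m + z.1 * n, w.2 * m + z.2 * n, ?_⟩
      push_cast
      linear_combination -((m : 𝓞 K) * α + (n : 𝓞 K) * β) * hdetR
    · rintro ⟨m, n, rfl⟩
      refine ⟨m * z.2 - n * z.1, -(m * w.2) + n * w.1, ?_⟩
      push_cast
      ring
  · simp only [map_add, map_mul, map_intCast]
    push_cast
    linear_combination hBd + (α * Q.tO β - Q.tO α * β) * hdetR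
  · intro u v
    have h5 := hess hdet' g0' g1' g2' u v
    rw [hf] at h5
    simp only [map_add, map_mul, map_intCast]
    rw [h5]
    push_cast
    ring

end Pool.Agent.MP211W
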