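import Pool.Agent.Lib.MP_211f72_nt.W.SpecE

/-!
# MP_211f72_nt, third theorem, part E: a short element of an ideal in a twisted box (`DatR`)
-/

namespace Pool.Agent.MP211W

open Polynomial NumberField

namespace DatR

variable {d : ℕ} {K : Type} [Field K] [NumberField K]

/-- the real embedding of the integers -/
private noncomputable def f (Q : QF d K) : 𝓞 K →+* ℝ := Q.σ.comp (algebraMap (𝓞 K) K)

/-- the conjugate real embedding of the integers -/
private noncomputable def g (Q : QF d K) : 𝓞 K →+* ℝ :=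
  (Q.σ.comp (Q.τ : K →+* K)).comp (algebraMap (𝓞 K) K)

private theorem f_eq (Q : QF d K) (z : 𝓞 K) : f Q z = Q.σ (z : K) := rfl

private theorem g_eq (Q : QF d K) (z : 𝓞 K) : g Q z = Q.σ (Q.τ (z : K)) := rfl

private theorem f_tO (Q : QF d K) (z : 𝓞 K) : f Q (Q.tO z) = g Q z := rfl

/-- the real inequality for the logarithms -/
private theorem logs {p q A B N W t L : ℝ} (hp : 0 < p) (hq : 0 < q) (hN : 0 < N)
    (hpA : p ≤ A) (hqB : q ≤ B) (hpq : N ≤ p * q)
    (hlA : Real.log A = t / 2 + L) (hlB : Real.log B = -(t / 2) + L)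
    (hL : 2 * L = Real.log N + Real.log W) :
    |Real.log p - Real.log q - t| ≤ Real.log W := by
  have h1 : Real.log p ≤ t / 2 + L := by
    rw [← hlA]
    exact Real.log_le_log hp hpA
  have h2 : Real.log q ≤ -(t / 2) + L := by
    rw [← hlB]
    exact Real.log_le_log hq hqB
  have h3 : Real.log N ≤ Real.log p + Real.log q := by
    rw [← Real.log_mul hp.ne' hq.ne']
    exact Real.log_le_log hN hpq
  rw [abs_le]
  constructor <;> linarith

end DatR

open DatR in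
/-- **DatR.** -/
theorem wDatR (h1 : S_QFb) (h2 : S_IdB) (h3 : S_MinkG) : S_DatR := by
  intro d K _ _ Q hsq hd J t hJ
  obtain ⟨D, rD, hRD, hbas⟩ := h2 d K Q hsq hd
  obtain ⟨hD, hrD2, hrDt, -⟩ := hRD
  obtain ⟨α, β, hmem, hdet⟩ := hbas J hJ
  obtain ⟨-, -, -, hnorm, -⟩ := h1 d K Q hsq hd
  have hd0 : (0 : ℝ) < d := by
    have : (2 : ℝ) ≤ d := by exact_mod_cast hd
    linarith
  have hsd : 0 < Real.sqrt d := Real.sqrt_pos.mpr hd0
  have hW : 0 < 2 * Real.sqrt d := by positivity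
  have hNn : Ideal.absNorm J ≠ 0 := by
    rw [Ne, Ideal.absNorm_eq_zero_iff]
    exact hJ
  have hN : (0 : ℝ) < ((Ideal.absNorm J : ℕ) : ℝ) := by
    exact_mod_cast Nat.pos_of_ne_zero hNn
  -- the determinant
  have hfr : f Q rD ^ 2 = (D : ℝ) := by
    have h := congrArg (f Q) hrD2
    rw [map_pow, map_natCast] at h
    exact h
  have hdetR : f Q α * g Q β - g Q α * f Q β = ((Ideal.absNorm J : ℕ) : ℝ) * f Q rD := by
    have h := congrArg (f Q) hdet
    rw [map_sub, map_mul, map_mul, map_mul, map_natCast, f_tO, f_tO] at h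
    exact h
  have hDpos : (0 : ℝ) < D ∧ (D : ℝ) ≤ 4 * d := by
    rcases hD with rfl | rfl
    · exact ⟨hd0, by linarith⟩
    · push_cast
      exact ⟨by linarith, le_rfl⟩
  have hfr0 : f Q rD ≠ 0 := by
    intro h
    rw [h] at hfr
    have := hDpos.1
    norm_num at hfr
    linarith
  have hfrW : |f Q rD| ≤ 2 * Real.sqrt d := by
    apply abs_le_of_sq_le_sq _ hW.le
    rw [hfr, mul_pow, Real.sq_sqrt hd0.le]
    linarith [hDpos.2]
  have hdetB : (!![f Q α, f Q β; g Q α, g Q β] : Matrix (Fin 2) (Fin 2) ℝ).det =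
      ((Ideal.absNorm J : ℕ) : ℝ) * f Q rD := by
    rw [Matrix.det_fin_two_of, ← hdetR]
    ring
  -- the box
  have hs : 0 < Real.sqrt (((Ideal.absNorm J : ℕ) : ℝ) * (2 * Real.sqrt d)) :=
    Real.sqrt_pos.mpr (by positivity)
  have hss : Real.sqrt (((Ideal.absNorm J : ℕ) : ℝ) * (2 * Real.sqrt d)) *
      Real.sqrt (((Ideal.absNorm J : ℕ) : ℝ) * (2 * Real.sqrt d)) =
      ((Ideal.absNorm J : ℕ) : ℝ) * (2 * Real.sqrt d) := Real.mul_self_sqrt (by positivity)
  have hA₁ : 0 < Real.exp (t / 2) * Real.sqrt (((Ideal.absNorm J : ℕ) : ℝ) * (2 * Real.sqrt d)) := by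
    positivity
  have hA₂ : 0 < Real.exp (-(t / 2)) *
      Real.sqrt (((Ideal.absNorm J : ℕ) : ℝ) * (2 * Real.sqrt d)) := by
    positivity
  have hA : Real.exp (t / 2) * Real.sqrt (((Ideal.absNorm J : ℕ) : ℝ) * (2 * Real.sqrt d)) *
      (Real.exp (-(t / 2)) * Real.sqrt (((Ideal.absNorm J : ℕ) : ℝ) * (2 * Real.sqrt d))) =
      ((Ideal.absNorm J : ℕ) : ℝ) * (2 * Real.sqrt d) := by
    have e : Real.exp (t / 2) * Real.exp (-(t / 2)) = 1 := by
      rw [← Real.exp_add]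
      norm_num
    calc _ = (Real.exp (t / 2) * Real.exp (-(t / 2))) *
        (Real.sqrt (((Ideal.absNorm J : ℕ) : ℝ) * (2 * Real.sqrt d)) *
          Real.sqrt (((Ideal.absNorm J : ℕ) : ℝ) * (2 * Real.sqrt d))) := by ring
      _ = _ := by rw [e, hss, one_mul]
  obtain ⟨x, hx0, hx⟩ := h3 2 !![f Q α, f Q β; g Q α, g Q β]
    ![Real.exp (t / 2) * Real.sqrt (((Ideal.absNorm J : ℕ) : ℝ) * (2 * Real.sqrt d)),
      Real.exp (-(t / 2)) * Real.sqrt (((Ideal.absNorm J : ℕ) : ℝ) * (2 * Real.sqrt d))]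
    (by norm_num)
    (by
      intro i
      fin_cases i
      · exact hA₁
      · exact hA₂)
    (by
      rw [hdetB]
      exact mul_ne_zero hN.ne' hfr0)
    (by
      rw [hdetB, Fin.prod_univ_two]
      show _ ≤ Real.exp (t / 2) * Real.sqrt (((Ideal.absNorm J : ℕ) : ℝ) * (2 * Real.sqrt d)) *
        (Real.exp (-(t / 2)) * Real.sqrt (((Ideal.absNorm J : ℕ) : ℝ) * (2 * Real.sqrt d)))
      rw [hA, abs_mul, abs_of_pos hN]
      exact mul_le_mul_of_nonneg_left hfrW hN.le)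
  have hx1 : |f Q α * (x 0 : ℝ) + f Q β * (x 1 : ℝ)| ≤
      Real.exp (t / 2) * Real.sqrt (((Ideal.absNorm J : ℕ) : ℝ) * (2 * Real.sqrt d)) := by
    have h := hx 0
    rw [Fin.sum_univ_two] at h
    exact h
  have hx2 : |g Q α * (x 0 : ℝ) + g Q β * (x 1 : ℝ)| ≤
      Real.exp (-(t / 2)) * Real.sqrt (((Ideal.absNorm J : ℕ) : ℝ) * (2 * Real.sqrt d)) := by
    have h := hx 1
    rw [Fin.sum_univ_two] at h
    exact h
  -- the element
  set z : 𝓞 K := ((x 0 : ℤ) : 𝓞 K) * α + ((x 1 : ℤ) : 𝓞 K) * β with hz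
  have hzJ : z ∈ J := (hmem z).2 ⟨x 0, x 1, rfl⟩
  have hfz : f Q z = f Q α * (x 0 : ℝ) + f Q β * (x 1 : ℝ) := by
    rw [hz, map_add, map_mul, map_mul, map_intCast, map_intCast]
    ring
  have hgz : g Q z = g Q α * (x 0 : ℝ) + g Q β * (x 1 : ℝ) := by
    rw [hz, map_add, map_mul, map_mul, map_intCast, map_intCast]
    ring
  rw [← hfz] at hx1
  rw [← hgz] at hx2
  have hz0 : z ≠ 0 := by
    intro h0
    rw [h0, map_zero] at hfz hgz
    have hne : ((Ideal.absNorm J : ℕ) : ℝ) * f Q rD ≠ 0 := mul_ne_zero hN.ne' hfr0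
    have e0 : ((x 0 : ℤ) : ℝ) * (((Ideal.absNorm J : ℕ) : ℝ) * f Q rD) = 0 := by
      rw [← hdetR]
      linear_combination (-(g Q β)) * hfz + f Q β * hgz
    have e1 : ((x 1 : ℤ) : ℝ) * (((Ideal.absNorm J : ℕ) : ℝ) * f Q rD) = 0 := by
      rw [← hdetR]
      linear_combination (g Q α) * hfz - f Q α * hgz
    have e0' : x 0 = 0 := by exact_mod_cast (mul_eq_zero.mp e0).resolve_right hne
    have e1' : x 1 = 0 := by exact_mod_cast (mul_eq_zero.mp e1).resolve_right hne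
    apply hx0
    funext i
    fin_cases i
    · exact e0'
    · exact e1'
  have hdvd : J ∣ Ideal.span {z} := by
    rw [Ideal.dvd_iff_le, Ideal.span_singleton_le_iff_mem]
    exact hzJ
  obtain ⟨r, hr⟩ := hdvd
  have hr0 : r ≠ ⊥ := by
    rintro rfl
    rw [Ideal.mul_bot, Ideal.span_singleton_eq_bot] at hr
    exact hz0 hr
  have hrn : (1 : ℝ) ≤ ((Ideal.absNorm r : ℕ) : ℝ) := by
    have : Ideal.absNorm r ≠ 0 := by
      rw [Ne, Ideal.absNorm_eq_zero_iff]
      exact hr0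
    exact_mod_cast Nat.one_le_iff_ne_zero.mpr this
  have hprod : ((Ideal.absNorm J : ℕ) : ℝ) * ((Ideal.absNorm r : ℕ) : ℝ) = |f Q z| * |g Q z| := by
    rw [← abs_mul, f_eq, g_eq, ← hnorm z, hr, map_mul]
    push_cast
    rfl
  have hp0 : 0 < |f Q z| * |g Q z| := by
    rw [← hprod]
    positivity
  have hpf : 0 < |f Q z| := by
    by_contra h
    have : |f Q z| = 0 := le_antisymm (not_lt.mp h) (abs_nonneg _)
    rw [this, zero_mul] at hp0
    exact lt_irrefl _ hp0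
  have hpg : 0 < |g Q z| := by
    by_contra h
    have : |g Q z| = 0 := le_antisymm (not_lt.mp h) (abs_nonneg _)
    rw [this, mul_zero] at hp0
    exact lt_irrefl _ hp0
  refine ⟨z, r, hz0, hr0, hr, ?_, ?_⟩
  · have h4 : ((Ideal.absNorm J : ℕ) : ℝ) * ((Ideal.absNorm r : ℕ) : ℝ) ≤
        ((Ideal.absNorm J : ℕ) : ℝ) * (2 * Real.sqrt d) := by
      rw [hprod, ← hA]
      exact mul_le_mul hx1 hx2 (abs_nonneg _) hA₁.le
    exact le_of_mul_le_mul_left h4 hN
  · have hL : 2 * Real.log (Real.sqrt (((Ideal.absNorm J : ℕ) : ℝ) * (2 * Real.sqrt d))) =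
        Real.log ((Ideal.absNorm J : ℕ) : ℝ) + Real.log (2 * Real.sqrt d) := by
      rw [← Real.log_mul hN.ne' hW.ne', ← hss, Real.log_mul hs.ne' hs.ne', hss]
      ring
    refine logs hpf hpg hN hx1 hx2 ?_ ?_ ?_ hL
    · have h5 : ((Ideal.absNorm J : ℕ) : ℝ) ≤ |f Q z| * |g Q z| := by
        rw [← hprod]
        nlinarith
      exact h5
    · rw [Real.log_mul (Real.exp_pos _).ne' hs.ne', Real.log_exp]
    · rw [Real.log_mul (Real.exp_pos _).ne' hs.ne', Real.log_exp]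

end Pool.Agent.MP211W
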