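import Pool.Agent.Lib.MP_211f72_nt.W.SpecA

/-!
# MP_211f72_nt, third theorem, module DataQ: the data of a quadratic polynomial with a near point
-/

set_option autoImplicit false

namespace Pool.Agent.MP211W

open Polynomial NumberField

namespace DataQ

/-- a real root of `q` comes from the field -/
theorem exists_root {d : ℕ} {K : Type} [Field K] [NumberField K] (Q : QF d K) {q : Qd} {f : ℕ}
    (ha : q.a ≠ 0) (hf : q.disc = (f : ℤ) ^ 2 * (d : ℤ)) {t : ℝ} (ht : q.ev t = 0) :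
    ∃ θ : K, Q.σ θ = t ∧ (q.a : K) * θ ^ 2 + (q.b : K) * θ + (q.c : K) = 0 := by
  have haR : (q.a : ℝ) ≠ 0 := by exact_mod_cast ha
  have hd : Real.sqrt d * Real.sqrt d = (d : ℝ) := Real.mul_self_sqrt (Nat.cast_nonneg d)
  have ht' : (q.a : ℝ) * t ^ 2 + (q.b : ℝ) * t + (q.c : ℝ) = 0 := ht
  have hfR : (q.b : ℝ) ^ 2 - 4 * (q.a : ℝ) * (q.c : ℝ) = (f : ℝ) ^ 2 * (d : ℝ) := by
    unfold Qd.disc at hf
    exact_mod_cast hf
  have h1 : (2 * (q.a : ℝ) * t + (q.b : ℝ) - (f : ℝ) * Real.sqrt d) *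
      (2 * (q.a : ℝ) * t + (q.b : ℝ) + (f : ℝ) * Real.sqrt d) = 0 := by
    linear_combination 4 * (q.a : ℝ) * ht' + hfR - (f : ℝ) ^ 2 * hd
  have key : ∀ ε : ℤ, 2 * (q.a : ℝ) * t + (q.b : ℝ) = (ε : ℝ) * ((f : ℝ) * Real.sqrt d) →
      ∃ θ : K, Q.σ θ = t ∧ (q.a : K) * θ ^ 2 + (q.b : K) * θ + (q.c : K) = 0 := by
    intro ε hε
    have h2 : Q.σ ((-(q.b : K) + (ε : K) * ((f : K) * Q.sd)) / (2 * (q.a : K))) = t := by
      rw [map_div₀, map_add, map_neg, map_mul, map_mul, map_mul, map_intCast, map_intCast,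
        map_intCast, map_natCast, map_ofNat, Q.pos, div_eq_iff (by positivity)]
      linear_combination -hε
    refine ⟨_, h2, ?_⟩
    apply Q.σ.injective
    rw [map_add, map_add, map_mul, map_mul, map_pow, h2, map_intCast, map_intCast, map_intCast,
      map_zero]
    exact ht'
  rcases mul_eq_zero.mp h1 with h | h
  · exact key 1 (by push_cast; linarith)
  · exact key (-1) (by push_cast; linarith)

end DataQ

open _root_.Pool.Agent.MP211W.DataQ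

theorem wDataQ (h1 : S_Near1) (h2 : S_Near2) (h3 : S_QI) (h4 : S_BI) : S_DataQ := by
  intro n hn
  obtain ⟨C, hC, hN⟩ := h2 n hn
  refine ⟨C, hC, ?_⟩
  intro d K _ _ Q hd hd2 Y δ H Δ ξ q x f hδ h100 hNQ hf
  obtain ⟨hgood, hht, hht2, hΔ1, hΔ2, hξ0, hξ1, hNr, hLam⟩ := hNQ
  have hdisc := h1.1 n Y δ H ξ q x hn hδ h100 hgood hht hξ0 hξ1 hNr hLam
  have hNQ : NQ n Y δ H Δ q ξ x := ⟨hgood, hht, hht2, hΔ1, hΔ2, hξ0, hξ1, hNr, hLam⟩
  obtain ⟨θ₁, θ₂, hev, hdif, hξθ, hθ₁, hl1, hl2⟩ := h1.2 n Y δ H Δ ξ q x hn hδ h100 hNQ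
  have hNn := hN Y δ H Δ ξ θ₁ θ₂ q x hδ h100 hNQ hdisc hev hξθ hθ₁ hl2
  have haR : (q.a : ℝ) ≠ 0 := by
    have := hgood.1
    exact_mod_cast this
  have hq1 : (1 : ℝ) ≤ (q.ht : ℝ) := by
    have : 1 ≤ q.ht := (Int.one_le_abs hgood.1).trans (le_max_left _ _)
    exact_mod_cast this
  have hH : 1 ≤ H := hq1.trans hht
  have hY : 0 < Y := by
    have : 0 < 100 * (H ^ 2 * δ) := by positivity
    linarith
  have hx0 : x 0 ≠ 0 := by
    intro h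
    have h5 := hNr.1
    rw [h, Int.cast_zero, abs_zero] at h5
    linarith
  -- the coefficients
  have hc : (q.c : ℝ) = (q.a : ℝ) * (θ₁ * θ₂) := by
    have h5 := hev 0
    unfold Qd.ev at h5
    linear_combination h5
  have hb : (q.a : ℝ) * (θ₁ + θ₂) = -(q.b : ℝ) := by
    have h5 := hev 1
    unfold Qd.ev at h5
    linear_combination h5 - hc
  obtain ⟨θ, hσθ, hroot⟩ := exists_root Q hgood.1 hf (t := θ₁) (by
    rw [hev θ₁, sub_self, mul_zero, zero_mul])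
  obtain ⟨_, t1, _, _, _⟩ := h3 d K Q hd hd2 q θ hgood hroot
  have hσθ' : Q.σ (Q.τ θ) = θ₂ := by
    have h5 := congrArg Q.σ t1
    rw [map_mul, map_add, map_neg, map_intCast, map_intCast, hσθ, ← hb] at h5
    have h6 := mul_left_cancel₀ haR h5
    linarith
  obtain ⟨ψ, I, b, hψ, D, hcl, hnorm⟩ := h4 d K Q hd hd2 n q θ x hn hgood hroot hLam hx0
  have s1 : Q.σ ψ = (q.a : ℝ) * ((x 1 : ℝ) - θ₂ * (x 0 : ℝ)) := by
    rw [hψ, map_mul, map_sub, map_mul, map_intCast, map_intCast, map_intCast, hσθ']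
  have s2 : Q.σ (Q.τ ψ) = (q.a : ℝ) * ((x 1 : ℝ) - θ₁ * (x 0 : ℝ)) := by
    rw [hψ, map_mul Q.τ, map_sub Q.τ, map_mul Q.τ, map_intCast, map_intCast, map_intCast, Q.tt,
      map_mul, map_sub, map_mul, map_intCast, map_intCast, map_intCast, hσθ]
  refine ⟨θ, ψ, I, b, D, hcl, by rw [hσθ]; exact hθ₁, by rw [s1]; exact hl1,
    by rw [s1]; exact hl2, ?_⟩
  rw [← s1, ← s2, ← abs_mul, ← hnorm] at hNn
  have haP : 0 < |(q.a : ℝ)| ^ n := by positivity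
  obtain ⟨m, rfl⟩ : ∃ m, n = m + 2 := ⟨n - 2, by omega⟩
  have h7 : ((Ideal.absNorm b : ℕ) : ℝ) * H ^ m * (H ^ 2 * |(q.a : ℝ)| ^ (m + 2)) ≤
      C * (Y * δ) * (H ^ 2 * |(q.a : ℝ)| ^ (m + 2)) := by
    calc ((Ideal.absNorm b : ℕ) : ℝ) * H ^ m * (H ^ 2 * |(q.a : ℝ)| ^ (m + 2))
        = ((Ideal.absNorm b : ℕ) : ℝ) * |(q.a : ℝ)| ^ (m + 2) * H ^ (m + 2) := by ring
      _ ≤ C * ((Y * δ) * H ^ 2 * |(q.a : ℝ)| ^ (m + 2)) := hNn
      _ = _ := by ring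
  exact le_of_mul_le_mul_right h7 (by positivity)

end Pool.Agent.MP211W
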