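import Mathlib
import Pool.Agent.Lib.MP_211f72_nt.V.Spec

/-!
# MP_211f72_nt, third theorem (powers of two): definitions

THEOREM.  For `n = 2^k ≥ 4` and every real `λ > (n+8)/(5n+4)`:
`dim_H {ξ : λ_n(ξ) = λ} = max(2/n, 3(1-λ)/(n-1)) / (1+λ)`.

The exponent itself (`MP_211f72_nt.lambdaExp`) and the tools on polynomials (`rp`, `tc`, `Hb`, `Sl`, `Mx`)
are those of the first two theorems.
-/

namespace Pool.Agent.MP211W

open Polynomial NumberField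
open Pool.Agent.MP211V (rp tc Hb Sl Mx)

/-- the dimension: `max(2/n, 3(1-λ)/(n-1))/(1+λ)` -/
noncomputable def sW (n : ℕ) (lam : ℝ) : ℝ :=
  max (2 / (n : ℝ)) (3 * (1 - lam) / ((n : ℝ) - 1)) / (1 + lam)

/-- `E` is covered by finitely many intervals (centre, radius) with `∑ radius^s ≤ B` -/
def CovW (s B : ℝ) (E : Set ℝ) : Prop :=
  ∃ T : Finset (ℝ × ℝ), (∀ p ∈ T, 0 ≤ p.2) ∧ ∑ p ∈ T, p.2 ^ s ≤ B ∧
    ∀ ξ ∈ E, ∃ p ∈ T, |ξ - p.1| ≤ p.2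

theorem CovW.mono {s B B' : ℝ} {E E' : Set ℝ} (h : CovW s B E) (hB : B ≤ B') (hE : E' ⊆ E) :
    CovW s B' E' := by
  obtain ⟨T, h1, h2, h3⟩ := h
  exact ⟨T, h1, h2.trans hB, fun ξ hξ => h3 ξ (hE hξ)⟩

theorem CovW.union {s B B' : ℝ} {E E' : Set ℝ} (h : CovW s B E) (h' : CovW s B' E') :
    CovW s (B + B') (E ∪ E') := by
  classical
  obtain ⟨T, h1, h2, h3⟩ := h
  obtain ⟨T', h1', h2', h3'⟩ := h'
  refine ⟨T ∪ T', ?_, ?_, ?_⟩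
  · intro p hp
    rcases Finset.mem_union.mp hp with hp | hp
    · exact h1 p hp
    · exact h1' p hp
  · have h4 : ∑ p ∈ T ∪ T', p.2 ^ s ≤ ∑ p ∈ T, p.2 ^ s + ∑ p ∈ T', p.2 ^ s := by
      have e := Finset.sum_union_inter (s₁ := T) (s₂ := T') (f := fun p : ℝ × ℝ => p.2 ^ s)
      have h5 : 0 ≤ ∑ p ∈ T ∩ T', p.2 ^ s := by
        refine Finset.sum_nonneg fun p hp => ?_
        exact Real.rpow_nonneg (h1 p (Finset.mem_inter.mp hp).1) s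
      linarith
    linarith
  · intro ξ hξ
    rcases hξ with hξ | hξ
    · obtain ⟨p, hp, h⟩ := h3 ξ hξ
      exact ⟨p, Finset.mem_union_left _ hp, h⟩
    · obtain ⟨p, hp, h⟩ := h3' ξ hξ
      exact ⟨p, Finset.mem_union_right _ hp, h⟩

/-! ### Points near the curve -/

/-- the integer point `x_0, ..., x_n` has `|x_0|` of size `Y` and errors at most `δ` at `ξ` -/
def NrW (n : ℕ) (Y δ ξ : ℝ) (x : ℕ → ℤ) : Prop :=
  Y / 2 ≤ |(x 0 : ℝ)| ∧ |(x 0 : ℝ)| ≤ Y ∧ ∀ j : ℕ, j ≤ n → |(x 0 : ℝ) * ξ ^ j - (x j : ℝ)| ≤ δ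

/-- `q` has degree at most `r` and `∑_j q_j x_(i+j) = 0` for all `i ≤ n - r` (used with `r ≤ n`) -/
def Ann (n r : ℕ) (x : ℕ → ℤ) (q : ℤ[X]) : Prop :=
  q.natDegree ≤ r ∧ ∀ i : ℕ, i + r ≤ n → ∑ j ∈ Finset.range (r + 1), q.coeff j * x (i + j) = 0

/-- the numbers `ξ ∈ [0,1]` at which some irreducible integer polynomial `F` of degree `d`, of height
between `h/2` and `h`, has `|F(ξ)| ≤ h ω` -/
def SmallP (d : ℕ) (h ω : ℝ) : Set ℝ :=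
  {ξ | 0 ≤ ξ ∧ ξ ≤ 1 ∧ ∃ F : ℤ[X], Irreducible F ∧ F.natDegree = d ∧ Hb F h ∧
    (∃ j : ℕ, h ≤ 2 * |((F.coeff j : ℤ) : ℝ)|) ∧ |(rp F).eval ξ| ≤ h * ω}

/-! ### Integer quadratic polynomials `a X² + b X + c` -/

/-- the polynomial `a X² + b X + c` -/
@[ext] structure Qd where
  /-- leading coefficient -/
  a : ℤ
  /-- middle coefficient -/
  b : ℤ
  /-- constant coefficient -/
  c : ℤ
deriving DecidableEq

namespace Qd

/-- the discriminant `b² - 4ac` -/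
def disc (q : Qd) : ℤ := q.b ^ 2 - 4 * q.a * q.c

/-- the height `max(|a|, |b|, |c|)` -/
def ht (q : Qd) : ℤ := max |q.a| (max |q.b| |q.c|)

/-- primitive and irreducible of degree 2 -/
def Good (q : Qd) : Prop :=
  q.a ≠ 0 ∧ (∀ g : ℤ, g ∣ q.a → g ∣ q.b → g ∣ q.c → IsUnit g) ∧ ¬ IsSquare q.disc

/-- the value at the real number `t` -/
noncomputable def ev (q : Qd) (t : ℝ) : ℝ := q.a * t ^ 2 + q.b * t + q.c

end Qd

/-- the point `x` belongs to the lattice of `q` -/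
def LamQ (n : ℕ) (q : Qd) (x : ℕ → ℤ) : Prop :=
  ∀ i : ℕ, i + 2 ≤ n → q.c * x i + q.b * x (i + 1) + q.a * x (i + 2) = 0

/-- `q` is primitive and irreducible of height about `H` and discriminant about `Δ`, and the point `x` of
its lattice is near the curve at `ξ ∈ [0,1]` -/
def NQ (n : ℕ) (Y δ H Δ : ℝ) (q : Qd) (ξ : ℝ) (x : ℕ → ℤ) : Prop :=
  q.Good ∧ (q.ht : ℝ) ≤ H ∧ H ≤ 2 * (q.ht : ℝ) ∧ Δ ≤ (q.disc : ℝ) ∧ (q.disc : ℝ) ≤ 2 * Δ ∧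
    0 ≤ ξ ∧ ξ ≤ 1 ∧ NrW n Y δ ξ x ∧ LamQ n q x

/-- the exceptional set: numbers with a near point in the lattice of a primitive irreducible quadratic
polynomial `q` whose height `H` satisfies `Yδ ≤ H^(n-1)` and `H^(n-2) ≤ C Yδ` -/
def Exc (n : ℕ) (Y δ C : ℝ) : Set ℝ :=
  {ξ | 0 ≤ ξ ∧ ξ ≤ 1 ∧ ∃ (q : Qd) (x : ℕ → ℤ), q.Good ∧ NrW n Y δ ξ x ∧ LamQ n q x ∧
    Y * δ ≤ (q.ht : ℝ) ^ (n - 1) ∧ (q.ht : ℝ) ^ (n - 2) ≤ C * (Y * δ)}

/-- the parameters for which the trivial count is sufficient, except for the set `Exc` -/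
def Par (n R : ℕ) (lam s : ℝ) : Prop :=
  4 ≤ n ∧ 1 ≤ R ∧ 2 * R ≤ n ∧ 0 < lam ∧ 1 < R * lam ∧ 0 < s ∧ s ≤ 1 ∧ s * ((R : ℝ) - 1 / 2) ≤ 1 ∧
  2 / (n : ℝ) < s * (1 + lam) ∧
  2 * (1 - lam) / ((n : ℝ) - 2) < s * (1 + lam) ∧ 3 * (1 - lam) / ((n : ℝ) - 1) < s * (1 + lam) ∧
  ∀ r : ℕ, 3 ≤ r → r ≤ R →
    ((r : ℝ) + 1) * (1 - ((r : ℝ) - 1) * lam) / ((n : ℝ) - 2 * r + 2) < s * (1 + lam)

/-! ### The real quadratic field `ℚ(√d)` -/

/-- `K` is the field `ℚ(√d)`: `sd = √d`, real embedding `σ` with `σ(√d) > 0`, conjugation `τ` -/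
structure QF (d : ℕ) (K : Type) [Field K] [NumberField K] where
  /-- the element `√d` -/
  sd : K
  /-- the real embedding -/
  σ : K →+* ℝ
  /-- the conjugation -/
  τ : K ≃+* K
  sq : sd ^ 2 = (d : K)
  pos : σ sd = Real.sqrt d
  ts : τ sd = -sd
  tt : ∀ z : K, τ (τ z) = z
  fix : ∀ z : K, τ z = z → ∃ r : ℚ, z = (r : K)
  rank : Module.finrank ℚ K = 2

section
variable {d : ℕ} {K : Type} [Field K] [NumberField K]

/-- the conjugation on the integers -/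
noncomputable def QF.tO (Q : QF d K) : 𝓞 K ≃+* 𝓞 K := NumberField.RingOfIntegers.mapRingEquiv Q.τ

/-- the conjugate ideal -/
noncomputable def QF.tI (Q : QF d K) (I : Ideal (𝓞 K)) : Ideal (𝓞 K) := I.map Q.tO

open Classical in
/-- the class of an integral ideal (1 for the zero ideal) -/
noncomputable def clI (I : Ideal (𝓞 K)) : ClassGroup (𝓞 K) :=
  if h : I = ⊥ then 1 else ClassGroup.mk0 ⟨I, mem_nonZeroDivisors_of_ne_zero h⟩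

theorem clI_mul (I J : Ideal (𝓞 K)) (hI : I ≠ ⊥) (hJ : J ≠ ⊥) : clI (I * J) = clI I * clI J := by
  have hIJ : I * J ≠ ⊥ := mul_ne_zero hI hJ
  unfold clI
  rw [dif_neg hI, dif_neg hJ, dif_neg hIJ, ← map_mul]
  rfl

theorem clI_pow (I : Ideal (𝓞 K)) (hI : I ≠ ⊥) (n : ℕ) : clI (I ^ n) = clI I ^ n := by
  induction n with
  | zero =>
    rw [pow_zero, pow_zero]
    unfold clI
    have h : (1 : Ideal (𝓞 K)) ≠ ⊥ := one_ne_zero
    rw [dif_neg h]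
    exact map_one _
  | succ n ih => rw [pow_succ, pow_succ, clI_mul _ _ (pow_ne_zero n hI) hI, ih]

theorem clI_eq_iff (I J : Ideal (𝓞 K)) (hI : I ≠ ⊥) (hJ : J ≠ ⊥) : clI I = clI J ↔
    ∃ x y : 𝓞 K, x ≠ 0 ∧ y ≠ 0 ∧ Ideal.span {x} * I = Ideal.span {y} * J := by
  unfold clI
  rw [dif_neg hI, dif_neg hJ, ClassGroup.mk0_eq_mk0_iff]
  constructor
  · rintro ⟨x, y, hx, hy, h⟩
    exact ⟨x, y, hx, hy, h⟩
  · rintro ⟨x, y, hx, hy, h⟩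
    exact ⟨x, y, hx, hy, h⟩

theorem clI_surj (c : ClassGroup (𝓞 K)) : ∃ I : Ideal (𝓞 K), I ≠ ⊥ ∧ clI I = c := by
  obtain ⟨I, hI⟩ := ClassGroup.mk0_surjective c
  have h : (I : Ideal (𝓞 K)) ≠ ⊥ := nonZeroDivisors.coe_ne_zero I
  refine ⟨I, h, ?_⟩
  unfold clI
  rw [dif_neg h, ← hI]

/-- `I` is the ideal `(a, aθ)` of the quadratic polynomial `q` with root `θ` -/
def IsQI (q : Qd) (θ : K) (I : Ideal (𝓞 K)) : Prop :=
  ∃ w : 𝓞 K, (w : K) = (q.a : K) * θ ∧ I = Ideal.span {((q.a : ℤ) : 𝓞 K), w}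

/-- the data attached to `q`: root `θ`, ideal `I = (a, aθ)`, `ψ ≠ 0` and an integral ideal `b` with
`(ψ) I^n = (a)^n b` -/
def Dat (n : ℕ) (q : Qd) (θ : K) (ψ : 𝓞 K) (I b : Ideal (𝓞 K)) : Prop :=
  q.Good ∧ (q.a : K) * θ ^ 2 + (q.b : K) * θ + (q.c : K) = 0 ∧ IsQI q θ I ∧ ψ ≠ 0 ∧ b ≠ ⊥ ∧
    Ideal.span {ψ} * I ^ n = Ideal.span {((q.a : ℤ) : 𝓞 K)} ^ n * b

end

/-- the `n`-torsion of the class group of `ℚ(√d)` has at most `N` elements -/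
def TB (n d N : ℕ) : Prop := ∀ (K : Type) [Field K] [NumberField K], ∀ _Q : QF d K,
  Nat.card {c : ClassGroup (𝓞 K) // c ^ n = 1} ≤ N

/-- average bound for the `n`-torsion of the class groups of the real quadratic fields -/
def TorsB (n : ℕ) : Prop := ∀ ε : ℝ, 0 < ε → ∃ C : ℝ, 0 < C ∧ ∀ X : ℕ, 1 ≤ X → ∃ N : ℕ → ℕ,
  (∀ d : ℕ, Squarefree d → 2 ≤ d → d ≤ X → TB n d (N d)) ∧
  ∑ d ∈ Finset.Icc 1 X, (N d : ℝ) / (d : ℝ) ≤ C * (X : ℝ) ^ ε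

/-- the determinant of two vectors of the plane -/
def det2 (u v : ℝ × ℝ) : ℝ := u.1 * v.2 - u.2 * v.1

/-- any two vectors of the group `L` have determinant 0 or at least `V` in absolute value -/
def SepL (L : AddSubgroup (ℝ × ℝ)) (V : ℝ) : Prop :=
  ∀ u ∈ L, ∀ v ∈ L, det2 u v ≠ 0 → V ≤ |det2 u v|

end Pool.Agent.MP211W
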