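import Pool.Agent.Lib.MP_211f72_nt.W.SpecB

/-!
# MP_211f72_nt, third theorem: intervals on which an irreducible polynomial is small
-/

set_option autoImplicit false

namespace Pool.Agent.MP211W

open Polynomial
open Pool.Agent.MP211V (rp tc Hb Sl Mx)

namespace DiscT

theorem rp_natDegree (P : ℤ[X]) : (rp P).natDegree = P.natDegree :=
  natDegree_map_eq_of_injective Int.cast_injective P

/-- The resultant of an irreducible integer polynomial and its derivative. -/
theorem one_le_res (d : ℕ) (hd : 2 ≤ d) (F : ℤ[X]) (hF : Irreducible F) (hFd : F.natDegree = d) :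
    1 ≤ |resultant (rp F) (derivative (rp F)) d (d - 1)| := by
  have hFn : F.natDegree ≠ 0 := by omega
  have hFp : F.IsPrimitive := hF.isPrimitive hFn
  have hFi : Irreducible (F.map (Int.castRingHom ℚ)) :=
    (IsPrimitive.Int.irreducible_iff_irreducible_map_cast hFp).mp hF
  have hco : IsCoprime (F.map (Int.castRingHom ℚ)) (derivative (F.map (Int.castRingHom ℚ))) :=
    hFi.separable
  have hinj : Function.Injective (Int.castRingHom ℚ) := Int.cast_injective
  have hres := resultant_ne_zero _ _ hco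
  rw [derivative_map] at hres
  rw [natDegree_map_eq_of_injective hinj, natDegree_map_eq_of_injective hinj,
    natDegree_derivative, hFd, resultant_map_map] at hres
  have hz : resultant F (derivative F) d (d - 1) ≠ 0 := by
    intro h
    apply hres
    rw [h]
    simp
  have hr : resultant (rp F) (derivative (rp F)) d (d - 1) =
      ((resultant F (derivative F) d (d - 1) : ℤ) : ℝ) := by
    unfold rp
    rw [derivative_map, resultant_map_map]
    simp
  rw [hr, ← Int.cast_abs]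
  exact_mod_cast Int.one_le_abs hz

theorem taylor_derivative (P : ℝ[X]) (a : ℝ) :
    taylor a (derivative P) = derivative (taylor a P) := by
  rw [taylor_apply, taylor_apply, derivative_comp, derivative_add, derivative_X, derivative_C,
    add_zero, one_mul]

end DiscT

open DiscT

theorem wDiscT (h1 : S_R2) (h2 : Pool.Agent.MP211V.S_Mar) (h3 : Pool.Agent.MP211V.S_Shift) :
    S_DiscT := by
  intro d hd
  obtain ⟨C₀, hC₀, hMar⟩ := h2 d
  obtain ⟨C₁, hC₁, hSh⟩ := h3 d
  obtain ⟨C₂, hC₂, hR⟩ := h1 d hd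
  set K : ℝ := ((d : ℝ) + 1) * (C₁ * (((d : ℝ) + 1) * 3 ^ d)) with hK
  have hK0 : 0 < K := by positivity
  set C₃ : ℝ := C₂ * (K ^ (2 * d - 3) * (2 * C₀ ^ 2)) with hC₃
  have hC₃0 : 0 < C₃ := by positivity
  refine ⟨1 + C₃, by linarith, ?_⟩
  intro h ω a b t F hh hω ht ht1 htb ha hF hFd hHb hSl
  have hh0 : 0 < h := by linarith
  have hPd : (rp F).natDegree = d := by rw [rp_natDegree, hFd]
  -- the coefficients of the translated polynomial
  have hfc : ∀ i, |tc (rp F) a i| ≤ C₁ * (((d : ℝ) + 1) * 3 ^ d) * h := by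
    intro i
    refine (hSh (rp F) 0 a i hPd.le).trans ?_
    have h4 : ∑ j ∈ Finset.Icc i d, |tc (rp F) 0 j| * |a - 0| ^ (j - i) ≤
        ∑ _j ∈ Finset.Icc i d, (3 ^ d * h) := by
      refine Finset.sum_le_sum fun j hj => ?_
      rw [Finset.mem_Icc] at hj
      have h5 : |tc (rp F) 0 j| ≤ h := by
        unfold tc
        rw [taylor_zero, rp, coeff_map]
        exact hHb j
      have h6 : |a - 0| ^ (j - i) ≤ 3 ^ d := by
        rw [sub_zero]
        calc |a| ^ (j - i) ≤ 3 ^ (j - i) := by gcongr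
          _ ≤ 3 ^ d := pow_le_pow_right₀ (by norm_num) (by omega)
      calc |tc (rp F) 0 j| * |a - 0| ^ (j - i) ≤ h * 3 ^ d := by gcongr
        _ = 3 ^ d * h := by ring
    have h7 : ∑ _j ∈ Finset.Icc i d, ((3 : ℝ) ^ d * h) ≤ ((d : ℝ) + 1) * (3 ^ d * h) := by
      rw [Finset.sum_const, nsmul_eq_mul, Nat.card_Icc]
      have h8 : ((d + 1 - i : ℕ) : ℝ) ≤ (d : ℝ) + 1 := by
        have : d + 1 - i ≤ d + 1 := Nat.sub_le _ _
        exact_mod_cast this
      gcongr
    calc C₁ * ∑ j ∈ Finset.Icc i d, |tc (rp F) 0 j| * |a - 0| ^ (j - i)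
        ≤ C₁ * (((d : ℝ) + 1) * (3 ^ d * h)) := by
          gcongr
          exact h4.trans h7
      _ = C₁ * (((d : ℝ) + 1) * 3 ^ d) * h := by ring
  have hfK : ∀ i, |(taylor a (rp F)).coeff i| ≤ K * h := by
    intro i
    refine (hfc i).trans ?_
    have h4 : K * h = ((d : ℝ) + 1) * (C₁ * (((d : ℝ) + 1) * 3 ^ d) * h) := by
      rw [hK]
      ring
    have h5 : (0 : ℝ) ≤ d := Nat.cast_nonneg d
    rw [h4]
    exact le_mul_of_one_le_left (by positivity) (by linarith)
  have hgK : ∀ i, |(derivative (taylor a (rp F))).coeff i| ≤ K * h := by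
    intro i
    rw [coeff_derivative, abs_mul]
    by_cases hi : i + 1 ≤ d
    · have h4 : |((i : ℝ) + 1)| ≤ (d : ℝ) + 1 := by
        rw [abs_of_nonneg (by positivity)]
        have : (i : ℝ) ≤ (d : ℝ) := by exact_mod_cast (by omega : i ≤ d)
        linarith
      calc |(taylor a (rp F)).coeff (i + 1)| * |((i : ℝ) + 1)|
          ≤ (C₁ * (((d : ℝ) + 1) * 3 ^ d) * h) * ((d : ℝ) + 1) := by
            gcongr
            exact hfc (i + 1)
        _ = K * h := by rw [hK]; ring
    · have h4 : (taylor a (rp F)).coeff (i + 1) = 0 := by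
        apply coeff_eq_zero_of_natDegree_lt
        rw [natDegree_taylor, hPd]
        omega
      rw [h4, abs_zero, zero_mul]
      positivity
  have hM := fun j => hMar (rp F) (h * ω) a b t a hPd.le ht htb hSl le_rfl (by linarith) j
  have hf0 : |(taylor a (rp F)).coeff 0| ≤ C₀ * (h * ω) := by
    have := hM 0
    rw [pow_zero, mul_one] at this
    exact this
  have hf1 : |(taylor a (rp F)).coeff 1| ≤ C₀ * (h * ω) / t := by
    have := hM 1
    rw [pow_one] at this
    rw [le_div_iff₀ ht]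
    exact this
  have hf2 : |(taylor a (rp F)).coeff 2| ≤ C₀ * (h * ω) / t ^ 2 := by
    have := hM 2
    rw [le_div_iff₀ (by positivity)]
    exact this
  have hg0 : |(derivative (taylor a (rp F))).coeff 0| ≤ C₀ * (h * ω) / t := by
    rw [coeff_derivative]
    simpa using hf1
  have hg1 : |(derivative (taylor a (rp F))).coeff 1| ≤ 2 * (C₀ * (h * ω) / t ^ 2) := by
    rw [coeff_derivative, abs_mul]
    have h4 : |((1 : ℕ) : ℝ) + 1| = 2 := by
      norm_num
    rw [h4]
    have h5 : |(taylor a (rp F)).coeff (1 + 1)| ≤ C₀ * (h * ω) / t ^ 2 := hf2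
    linarith
  have hA : 0 < C₀ * (h * ω) := by positivity
  have he1 : C₀ * (h * ω) ≤ C₀ * (h * ω) / t := by
    rw [le_div_iff₀ ht]
    exact mul_le_of_le_one_right hA.le ht1
  have he2 : C₀ * (h * ω) / t ≤ 2 * (C₀ * (h * ω) / t ^ 2) := by
    rw [pow_two, ← div_div]
    have h4 : C₀ * (h * ω) / t ≤ C₀ * (h * ω) / t / t := by
      rw [le_div_iff₀ ht]
      have h6 : 0 < C₀ * (h * ω) / t := by positivity
      exact mul_le_of_le_one_right h6.le ht1
    have h5 : 0 < C₀ * (h * ω) / t / t := by positivity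
    linarith
  have hres := hR (taylor a (rp F)) (derivative (taylor a (rp F))) (C₀ * (h * ω))
    (C₀ * (h * ω) / t) (2 * (C₀ * (h * ω) / t ^ 2)) (K * h) hA.le he1 he2 (by positivity)
    (fun i => ⟨hfK i, hgK i⟩) hf0 hf1 hg0 hg1
  have hrt : resultant (taylor a (rp F)) (derivative (taylor a (rp F))) d (d - 1) =
      resultant (rp F) (derivative (rp F)) d (d - 1) := by
    have := resultant_taylor (rp F) (derivative (rp F)) a
    rw [natDegree_taylor, natDegree_taylor, natDegree_derivative, hPd, taylor_derivative] at this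
    exact this
  rw [hrt] at hres
  have h4 := (one_le_res d hd F hF hFd).trans hres
  have hmax : max (C₀ * (h * ω) * (2 * (C₀ * (h * ω) / t ^ 2))) ((C₀ * (h * ω) / t) ^ 2) ≤
      2 * C₀ ^ 2 * h ^ 2 * ω ^ 2 / t ^ 2 := by
    have e1 : C₀ * (h * ω) * (2 * (C₀ * (h * ω) / t ^ 2)) = 2 * C₀ ^ 2 * h ^ 2 * ω ^ 2 / t ^ 2 := by
      field_simp
    have e2 : (C₀ * (h * ω) / t) ^ 2 = C₀ ^ 2 * h ^ 2 * ω ^ 2 / t ^ 2 := by
      field_simp
    rw [e1, e2]
    apply max_le le_rfl
    gcongr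
    have : 0 < C₀ ^ 2 := by positivity
    linarith
  have h5 : 1 ≤ C₃ * (h ^ (2 * d - 1) * ω ^ 2) / t ^ 2 := by
    calc (1 : ℝ) ≤ C₂ * ((K * h) ^ (2 * d - 3) *
          max (C₀ * (h * ω) * (2 * (C₀ * (h * ω) / t ^ 2))) ((C₀ * (h * ω) / t) ^ 2)) := h4
      _ ≤ C₂ * ((K * h) ^ (2 * d - 3) * (2 * C₀ ^ 2 * h ^ 2 * ω ^ 2 / t ^ 2)) := by gcongr
      _ = C₃ * ((h ^ (2 * d - 3) * h ^ 2) * ω ^ 2) / t ^ 2 := by
        rw [hC₃, mul_pow]
        ring
      _ = C₃ * (h ^ (2 * d - 1) * ω ^ 2) / t ^ 2 := by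
        rw [← pow_add]
        congr 5
        omega
  rw [le_div_iff₀ (by positivity), one_mul] at h5
  have e3 : (h ^ ((d : ℝ) - 1 / 2)) ^ 2 = h ^ (2 * d - 1) := by
    rw [← Real.rpow_natCast, ← Real.rpow_mul hh0.le, ← Real.rpow_natCast]
    congr 1
    rw [Nat.cast_sub (by omega)]
    push_cast
    ring
  have h6 : t ^ 2 ≤ ((1 + C₃) * (h ^ ((d : ℝ) - 1 / 2) * ω)) ^ 2 := by
    have e4 : ((1 + C₃) * (h ^ ((d : ℝ) - 1 / 2) * ω)) ^ 2 =
        (1 + C₃) ^ 2 * (h ^ (2 * d - 1) * ω ^ 2) := by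
      rw [mul_pow, mul_pow, e3]
    have e5 : C₃ ≤ (1 + C₃) ^ 2 := by
      have e6 : (1 + C₃) ^ 2 = 1 + 2 * C₃ + C₃ ^ 2 := by ring
      rw [e6]
      linarith [sq_nonneg C₃]
    rw [e4]
    refine h5.trans ?_
    gcongr
  exact (abs_le_of_sq_le_sq' h6 (by positivity)).2

end Pool.Agent.MP211W
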