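import Pool.Agent.Lib.MP_211f72_nt.W.SpecE
import Pool.Agent.Lib.MP_640417_ag.All.Divisor

/-!
# MP_211f72_nt, W/DivC : the divisor bound for the number of polynomials of one field
-/

set_option autoImplicit false

namespace Pool.Agent.MP211W

namespace DivC

/-- the integers dividing a nonzero integer -/
theorem card_div (k : ℤ) (hk : k ≠ 0) (A : Finset ℤ) (hA : ∀ a ∈ A, a ∣ k) :
    A.card ≤ 2 * k.natAbs.divisors.card := by
  classical
  have h1 : A ⊆ (k.natAbs.divisors.image fun m : ℕ => (m : ℤ)) ∪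
      (k.natAbs.divisors.image fun m : ℕ => -(m : ℤ)) := by
    intro a ha
    have h2 : a.natAbs ∣ k.natAbs := Int.natAbs_dvd_natAbs.2 (hA a ha)
    have h3 : a.natAbs ∈ k.natAbs.divisors := Nat.mem_divisors.2 ⟨h2, by omega⟩
    rw [Finset.mem_union, Finset.mem_image, Finset.mem_image]
    rcases Int.natAbs_eq a with h | h
    · exact Or.inl ⟨_, h3, h.symm⟩
    · exact Or.inr ⟨_, h3, h.symm⟩
  refine (Finset.card_le_card h1).trans ((Finset.card_union_le _ _).trans ?_)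
  have h4 := Finset.card_image_le (s := k.natAbs.divisors) (f := fun m : ℕ => (m : ℤ))
  have h5 := Finset.card_image_le (s := k.natAbs.divisors) (f := fun m : ℕ => -(m : ℤ))
  omega

theorem fiber (d : ℕ) (H C₀ ε : ℝ) (hH : 1 ≤ H) (hC : 0 < C₀) (hε : 0 < ε)
    (hdiv : ∀ m : ℕ, 0 < m → (m.divisors.card : ℝ) ≤ C₀ * (m : ℝ) ^ (ε / 2))
    (S : Finset Qd) (f : ℕ) (b : ℤ)
    (hS : ∀ q ∈ S, q.Good ∧ (q.ht : ℝ) ≤ H ∧ q.disc = (f : ℤ) ^ 2 * (d : ℤ) ∧ q.b = b) :
    (S.card : ℝ) ≤ 2 * C₀ * H ^ ε := by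
  classical
  rcases S.eq_empty_or_nonempty with h0 | ⟨q₀, hq₀⟩
  · rw [h0, Finset.card_empty, Nat.cast_zero]
    positivity
  obtain ⟨g1, g2, g3, g4⟩ := hS q₀ hq₀
  set k : ℤ := q₀.a * q₀.c with hk
  have hk0 : k ≠ 0 := by
    intro h
    apply g1.2.2
    refine ⟨q₀.b, ?_⟩
    have h1 : q₀.disc = q₀.b ^ 2 - 4 * (q₀.a * q₀.c) := by
      unfold Qd.disc
      ring
    rw [h1, ← hk, h]
    ring
  have hall : ∀ q ∈ S, q.a * q.c = k := by
    intro q hq
    obtain ⟨e1, e2, e3, e4⟩ := hS q hq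
    have h1 : q.disc = q₀.disc := by rw [e3, g3]
    unfold Qd.disc at h1
    rw [e4, g4] at h1
    have h2 : 4 * (q.a * q.c) = 4 * (q₀.a * q₀.c) := by linarith
    rw [hk]
    omega
  have hinj : Set.InjOn (fun q : Qd => q.a) S := by
    intro q hq q' hq' h
    have h : q.a = q'.a := h
    obtain ⟨e1, e2, e3, e4⟩ := hS q hq
    obtain ⟨e1', e2', e3', e4'⟩ := hS q' hq'
    have h1 := hall q hq
    have h2 := hall q' hq'
    have h3 : q.a * q.c = q.a * q'.c := by rw [h1, h, h2]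
    have h4 : q.c = q'.c := mul_left_cancel₀ e1.1 h3
    ext
    · exact h
    · rw [e4, e4']
    · exact h4
  have h1 : (S.image fun q : Qd => q.a).card = S.card := Finset.card_image_of_injOn hinj
  have h2 := card_div k hk0 (S.image fun q : Qd => q.a) (by
    intro a ha
    obtain ⟨q, hq, rfl⟩ := Finset.mem_image.1 ha
    exact ⟨q.c, (hall q hq).symm⟩)
  rw [h1] at h2
  have hpos : 0 < k.natAbs := Int.natAbs_pos.2 hk0
  have h3 := hdiv k.natAbs hpos
  have h4 : (k.natAbs : ℝ) ≤ H ^ 2 := by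
    have h6 : (k.natAbs : ℝ) = |(q₀.a : ℝ)| * |(q₀.c : ℝ)| := by
      rw [← abs_mul, Nat.cast_natAbs, Int.cast_abs, hk, Int.cast_mul]
    have h7 : |(q₀.a : ℝ)| ≤ H := by
      refine le_trans ?_ g2
      have : |q₀.a| ≤ q₀.ht := le_max_left _ _
      exact_mod_cast this
    have h8 : |(q₀.c : ℝ)| ≤ H := by
      refine le_trans ?_ g2
      have : |q₀.c| ≤ q₀.ht := (le_max_right _ _).trans (le_max_right _ _)
      exact_mod_cast this
    rw [h6, sq]
    exact mul_le_mul h7 h8 (abs_nonneg _) (by linarith)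
  have h5 : (k.natAbs : ℝ) ^ (ε / 2) ≤ H ^ ε := by
    have h6 : (k.natAbs : ℝ) ^ (ε / 2) ≤ (H ^ 2) ^ (ε / 2) :=
      Real.rpow_le_rpow (by positivity) h4 (by positivity)
    refine h6.trans (le_of_eq ?_)
    rw [← Real.rpow_natCast, ← Real.rpow_mul (by linarith)]
    congr 1
    push_cast
    ring
  have h6 : (S.card : ℝ) ≤ 2 * (k.natAbs.divisors.card : ℝ) := by exact_mod_cast h2
  have h7 : C₀ * (k.natAbs : ℝ) ^ (ε / 2) ≤ C₀ * H ^ ε := mul_le_mul_of_nonneg_left h5 hC.le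
  nlinarith

end DivC

open DivC in
theorem wDivC : S_DivC := by
  classical
  intro ε hε
  obtain ⟨C₀, hC₀, hdiv⟩ := Pool.Agent.Lib.MP_640417_ag.All.divisor_bound (ε / 2) (by positivity)
  refine ⟨12 * C₀, by positivity, ?_⟩
  intro d H Δ S hd hH hS
  have hd0 : (0 : ℝ) < d := by
    have : 0 < d := by omega
    exact_mod_cast this
  rcases S.eq_empty_or_nonempty with h0 | ⟨q₀, hq₀⟩
  · rw [h0, Finset.card_empty, Nat.cast_zero]
    positivity
  have hΔ : 0 < Δ := by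
    obtain ⟨-, -, h1, h2, -⟩ := hS q₀ hq₀
    have h3 : (0 : ℝ) < (q₀.disc : ℝ) := by exact_mod_cast h1
    linarith
  have hex : ∀ q : Qd, ∃ f : ℕ, q ∈ S → q.disc = (f : ℤ) ^ 2 * (d : ℤ) := by
    intro q
    by_cases hq : q ∈ S
    · obtain ⟨f, hf⟩ := (hS q hq).2.2.2.2
      exact ⟨f, fun _ => hf⟩
    · exact ⟨0, fun h => absurd h hq⟩
  choose fn hfn using hex
  set R : ℝ := Real.sqrt (2 * Δ / d) with hR
  set F : ℕ := ⌊R⌋₊ with hF
  set B : ℕ := ⌊H⌋₊ with hB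
  set N : ℕ := ⌊2 * C₀ * H ^ ε⌋₊ with hN
  have hcard := Finset.card_le_mul_card_image (f := fun q : Qd => (fn q, q.b)) S N (by
    intro p hp
    have h1 := fiber d H C₀ ε hH hC₀ hε hdiv (S.filter fun q : Qd => (fn q, q.b) = p) p.1 p.2 (by
      intro q hq
      obtain ⟨hq1, hq2⟩ := Finset.mem_filter.1 hq
      obtain ⟨e1, e2, e3, e4, -⟩ := hS q hq1
      refine ⟨e1, e2, ?_, ?_⟩
      · rw [← hq2]
        exact hfn q hq1
      · rw [← hq2])
    exact Nat.le_floor h1)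
  have himg : (S.image fun q : Qd => (fn q, q.b)) ⊆
      (Finset.Icc 1 F) ×ˢ (Finset.Icc (-(B : ℤ)) (B : ℤ)) := by
    intro p hp
    obtain ⟨q, hq, rfl⟩ := Finset.mem_image.1 hp
    obtain ⟨e1, e2, e3, e4, -⟩ := hS q hq
    have e5 := hfn q hq
    rw [Finset.mem_product, Finset.mem_Icc, Finset.mem_Icc]
    refine ⟨⟨?_, ?_⟩, ?_⟩
    · change 1 ≤ fn q
      by_contra h
      have h1 : fn q = 0 := by omega
      rw [h1] at e5
      rw [e5] at e3
      simp at e3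
    · change fn q ≤ F
      refine Nat.le_floor ?_
      refine Real.le_sqrt_of_sq_le ?_
      rw [le_div_iff₀ hd0]
      rw [e5] at e4
      push_cast at e4
      exact e4
    · change -(B : ℤ) ≤ q.b ∧ q.b ≤ (B : ℤ)
      rw [← abs_le]
      have h1 : |q.b| ≤ q.ht := (le_max_left _ _).trans (le_max_right _ _)
      have h2 : ((|q.b| : ℤ) : ℝ) ≤ H := le_trans (by exact_mod_cast h1) e2
      have h3 : (q.b.natAbs : ℝ) ≤ H := by
        rw [Nat.cast_natAbs]
        exact h2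
      have h5 : q.b.natAbs ≤ B := Nat.le_floor h3
      rw [← Int.natCast_natAbs]
      exact_mod_cast h5
  have h1 := Finset.card_le_card himg
  rw [Finset.card_product, Nat.card_Icc, Int.card_Icc] at h1
  have h2 : (F + 1 - 1) * ((B : ℤ) + 1 - -(B : ℤ)).toNat = F * (2 * B + 1) := by
    have : ((B : ℤ) + 1 - -(B : ℤ)).toNat = 2 * B + 1 := by omega
    rw [this, Nat.add_sub_cancel]
  rw [h2] at h1
  have h3 : (S.card : ℝ) ≤ N * (F * (2 * B + 1)) := by
    have h4 : S.card ≤ N * (F * (2 * B + 1)) := hcard.trans (Nat.mul_le_mul_left _ h1)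
    exact_mod_cast h4
  have hHε : (0 : ℝ) ≤ H ^ ε := Real.rpow_nonneg (by linarith) _
  have hN1 : (N : ℝ) ≤ 2 * C₀ * H ^ ε := Nat.floor_le (by positivity)
  have hF1 : (F : ℝ) ≤ R := Nat.floor_le (Real.sqrt_nonneg _)
  have hB1 : (B : ℝ) ≤ H := Nat.floor_le (by linarith)
  have hR1 : R ≤ 2 * Real.sqrt (Δ / d) := by
    have h5 : (2 : ℝ) * Real.sqrt (Δ / d) = Real.sqrt (4 * (Δ / d)) := by
      rw [Real.sqrt_mul (by norm_num)]
      congr 1
      rw [show (4 : ℝ) = 2 ^ 2 by norm_num]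
      exact (Real.sqrt_sq (by norm_num)).symm
    rw [h5, hR]
    refine Real.sqrt_le_sqrt ?_
    rw [mul_div_assoc]
    have : 0 ≤ Δ / (d : ℝ) := by positivity
    linarith
  have hs0 : 0 ≤ Real.sqrt (Δ / d) := Real.sqrt_nonneg _
  have h4 : (F : ℝ) * (2 * B + 1) ≤ (2 * Real.sqrt (Δ / d)) * (3 * H) :=
    mul_le_mul (hF1.trans hR1) (by linarith) (by positivity) (by positivity)
  have h5 : (N : ℝ) * (F * (2 * B + 1)) ≤
      (2 * C₀ * H ^ ε) * ((2 * Real.sqrt (Δ / d)) * (3 * H)) :=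
    mul_le_mul hN1 h4 (by positivity) (by positivity)
  refine (h3.trans h5).trans (le_of_eq ?_)
  rw [Real.rpow_add (by linarith), Real.rpow_one]
  ring

end Pool.Agent.MP211W
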