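import Pool.Agent.Lib.MP_211f72_nt.W.SpecA

/-!
# MP_211f72_nt, third theorem: ideal divisors of `(m)` (`DivI`)
-/

namespace Pool.Agent.MP211W

open Polynomial NumberField

namespace DivI

variable {K : Type} [Field K] [NumberField K]

theorem fin (J : Ideal (𝓞 K)) (hJ : J ≠ ⊥) : {b : Ideal (𝓞 K) | b ∣ J}.Finite := by
  have h1 : Fintype {x : Ideal (𝓞 K) // x ∣ J} := UniqueFactorizationMonoid.fintypeSubtypeDvd J hJ
  have h2 : Finite {x : Ideal (𝓞 K) // x ∣ J} := Finite.of_fintype _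
  exact Set.finite_coe_iff.mp h2

theorem mul_le (I J : Ideal (𝓞 K)) (hI : I ≠ ⊥) (hJ : J ≠ ⊥) :
    {b : Ideal (𝓞 K) | b ∣ I * J}.ncard ≤
      {b : Ideal (𝓞 K) | b ∣ I}.ncard * {b : Ideal (𝓞 K) | b ∣ J}.ncard := by
  have h1 : {b : Ideal (𝓞 K) | b ∣ I * J} ⊆
      (fun p : Ideal (𝓞 K) × Ideal (𝓞 K) => p.1 * p.2) ''
        ({b : Ideal (𝓞 K) | b ∣ I} ×ˢ {b : Ideal (𝓞 K) | b ∣ J}) := by
    intro b hb
    obtain ⟨b1, b2, h1, h2, h3⟩ := exists_dvd_and_dvd_of_dvd_mul hb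
    exact ⟨(b1, b2), ⟨h1, h2⟩, h3.symm⟩
  have hf := (fin I hI).prod (fin J hJ)
  calc _ ≤ _ := Set.ncard_le_ncard h1 (hf.image _)
    _ ≤ _ := Set.ncard_image_le hf
    _ = _ := Set.ncard_prod

theorem prime_pow (P : Ideal (𝓞 K)) (hP : Prime P) (k : ℕ) :
    {b : Ideal (𝓞 K) | b ∣ P ^ k}.ncard ≤ k + 1 := by
  classical
  have h1 : {b : Ideal (𝓞 K) | b ∣ P ^ k} ⊆
      ((Finset.range (k + 1)).image (fun i => P ^ i) : Finset (Ideal (𝓞 K))) := by
    intro b hb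
    obtain ⟨i, hi, h2⟩ := (dvd_prime_pow hP k).mp hb
    rw [associated_iff_eq] at h2
    rw [Finset.mem_coe, Finset.mem_image]
    exact ⟨i, Finset.mem_range.mpr (by omega), h2.symm⟩
  calc _ ≤ _ := Set.ncard_le_ncard h1 (Finset.finite_toSet _)
    _ ≤ _ := by rw [Set.ncard_coe_finset]
    _ ≤ (Finset.range (k + 1)).card := Finset.card_image_le
    _ = k + 1 := Finset.card_range _

theorem absNorm_nat (h2 : Module.finrank ℚ K = 2) (m : ℕ) :
    Ideal.absNorm (Ideal.span {((m : ℕ) : 𝓞 K)}) = m ^ 2 := by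
  rw [Ideal.absNorm_span_singleton]
  have h : ((m : ℕ) : 𝓞 K) = algebraMap ℤ (𝓞 K) (m : ℤ) := by simp
  rw [h, Algebra.norm_algebraMap, NumberField.RingOfIntegers.rank, h2, Int.natAbs_pow,
    Int.natAbs_natCast]

theorem prime_case (h2 : Module.finrank ℚ K = 2) (p k : ℕ) (hp : p.Prime) :
    {b : Ideal (𝓞 K) | b ∣ Ideal.span {((p ^ k : ℕ) : 𝓞 K)}}.ncard ≤ (k + 1) ^ 2 := by
  have hp0 : ((p : ℕ) : 𝓞 K) ≠ 0 := Nat.cast_ne_zero.mpr hp.ne_zero
  have hps : Ideal.span {((p : ℕ) : 𝓞 K)} ≠ ⊥ := by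
    rw [Ne, Ideal.span_singleton_eq_bot]; exact hp0
  have hpt : ¬ IsUnit (Ideal.span {((p : ℕ) : 𝓞 K)}) := by
    rw [Ideal.isUnit_iff, ← Ideal.absNorm_eq_one_iff, absNorm_nat h2]
    have := hp.two_le
    intro h
    nlinarith
  have hpk : Ideal.span {((p ^ k : ℕ) : 𝓞 K)} = Ideal.span {((p : ℕ) : 𝓞 K)} ^ k := by
    rw [Ideal.span_singleton_pow]
    push_cast
    rfl
  rw [hpk]
  obtain ⟨P, hP, J, hJ⟩ := WfDvdMonoid.exists_irreducible_factor hpt hps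
  have hPp : Prime P := hP.prime
  have hP0 : P ≠ ⊥ := hPp.ne_zero
  have hmul : p ^ 2 = Ideal.absNorm P * Ideal.absNorm J := by
    rw [← absNorm_nat h2 p, hJ, map_mul]
  obtain ⟨j, hj2, hj⟩ := (Nat.dvd_prime_pow hp).mp (⟨_, hmul⟩ : Ideal.absNorm P ∣ p ^ 2)
  have hj0 : j ≠ 0 := by
    rintro rfl
    rw [pow_zero] at hj
    apply hPp.not_isUnit
    rw [Ideal.isUnit_iff, ← Ideal.absNorm_eq_one_iff]
    exact hj
  have hp2 : 0 < p ^ 2 := pow_pos hp.pos 2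
  rcases Nat.lt_or_ge j 2 with hj3 | hj3
  · have hj1 : j = 1 := by omega
    subst hj1
    rw [pow_one] at hj
    have hN' : Ideal.absNorm J = p := by
      rw [hj, sq] at hmul
      exact (Nat.eq_of_mul_eq_mul_left hp.pos hmul).symm
    have hJ0 : J ≠ ⊥ := by
      rintro rfl
      rw [Ideal.absNorm_bot] at hN'
      exact hp.ne_zero hN'.symm
    have hJp : Prime J := Ideal.prime_of_isPrime hJ0
      (Ideal.isPrime_of_irreducible_absNorm (by rw [hN']; exact hp))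
    rw [hJ, mul_pow, sq]
    calc _ ≤ _ := mul_le _ _ (pow_ne_zero k hP0) (pow_ne_zero k hJ0)
      _ ≤ _ := Nat.mul_le_mul (prime_pow P hPp k) (prime_pow J hJp k)
  · have hj4 : j = 2 := by omega
    subst hj4
    have h5 : Ideal.absNorm J = 1 := by
      have : p ^ 2 * Ideal.absNorm J = p ^ 2 * 1 := by rw [mul_one, ← hj, ← hmul, hj]
      exact Nat.eq_of_mul_eq_mul_left hp2 this
    rw [Ideal.absNorm_eq_one_iff] at h5
    rw [h5, ← Ideal.one_eq_top, mul_one] at hJ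
    rw [hJ]
    calc _ ≤ k + 1 := prime_pow P hPp k
      _ ≤ (k + 1) ^ 2 := by nlinarith

end DivI

/-- **DivI.** -/
theorem wDivI : S_DivI := by
  intro K _ _ h2 m hm
  have hms : ∀ m : ℕ, 1 ≤ m → Ideal.span {((m : ℕ) : 𝓞 K)} ≠ ⊥ := by
    intro m hm
    rw [Ne, Ideal.span_singleton_eq_bot]
    exact Nat.cast_ne_zero.mpr (by omega)
  refine ⟨DivI.fin _ (hms m hm), ?_⟩
  induction m using Nat.recOnPosPrimePosCoprime with
  | prime_pow p k hp hk =>
    have h3 := DivI.prime_case h2 p k hp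
    rw [Nat.divisors_prime_pow hp, Finset.card_map, Finset.card_range]
    exact h3
  | zero => omega
  | one =>
    have h3 : {b : Ideal (𝓞 K) | b ∣ Ideal.span {((1 : ℕ) : 𝓞 K)}} = {1} := by
      ext b
      rw [Set.mem_ofPred_eq, Set.mem_singleton_iff, Nat.cast_one, Ideal.span_singleton_one,
        ← Ideal.one_eq_top, ← isUnit_iff_dvd_one, isUnit_iff_eq_one]
    rw [h3]
    simp
  | coprime a b ha hb hab iha ihb =>
    have ha1 : 1 ≤ a := by omega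
    have hb1 : 1 ≤ b := by omega
    have h3 : Ideal.span {((a * b : ℕ) : 𝓞 K)} =
        Ideal.span {((a : ℕ) : 𝓞 K)} * Ideal.span {((b : ℕ) : 𝓞 K)} := by
      rw [Ideal.span_singleton_mul_span_singleton]
      push_cast
      rfl
    rw [h3, hab.card_divisors_mul, mul_pow]
    calc _ ≤ _ := DivI.mul_le _ _ (hms a ha1) (hms b hb1)
      _ ≤ _ := Nat.mul_le_mul (iha ha1) (ihb hb1)

end Pool.Agent.MP211W
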