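import Pool.Agent.Lib.MP_211f72_nt.W.SpecA

/-!
# MP_211f72_nt, third theorem: existence of the real quadratic fields (`ExQ`)
-/

namespace Pool.Agent.MP211W

open Polynomial NumberField QuadraticAlgebra

namespace ExQ

variable (d : ℕ) [Fact (∀ r : ℚ, r ^ 2 ≠ (d : ℚ) + 0 * r)]

/-- the root `√d` -/
noncomputable def u : {u : ℝ // u * u = (d : ℚ) • (1 : ℝ) + (0 : ℚ) • u} :=
  ⟨Real.sqrt d, by
    rw [Real.mul_self_sqrt (Nat.cast_nonneg d), zero_smul, add_zero, Rat.smul_def]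
    simp⟩

theorem tau (z : QuadraticAlgebra ℚ (d : ℚ) 0) :
    (starRingAut : QuadraticAlgebra ℚ (d : ℚ) 0 ≃+* QuadraticAlgebra ℚ (d : ℚ) 0) z =
      ⟨z.re, -z.im⟩ := by
  change star z = _
  ext
  · simp
  · simp

theorem mk [NumberField (QuadraticAlgebra ℚ (d : ℚ) 0)] :
    Nonempty (QF d (QuadraticAlgebra ℚ (d : ℚ) 0)) := by
  refine ⟨⟨⟨0, 1⟩, (QuadraticAlgebra.lift (u d)).toRingHom, starRingAut, ?_, ?_, ?_, ?_, ?_, ?_⟩⟩
  · rw [sq]
    ext
    · simp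
    · simp
  · change (QuadraticAlgebra.lift (u d)) ⟨0, 1⟩ = _
    simp [QuadraticAlgebra.lift, u]
  · rw [tau]
    ext
    · simp
    · simp
  · intro z
    rw [tau, tau]
    ext
    · simp
    · simp
  · intro z hz
    rw [tau] at hz
    have h5 := congrArg QuadraticAlgebra.im hz
    simp only at h5
    have h6 : z.im = 0 := by linarith
    refine ⟨z.re, ?_⟩
    ext
    · simp
    · simp [h6]
  · exact QuadraticAlgebra.finrank_eq_two (R := ℚ) (d : ℚ) 0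

end ExQ

/-- **ExQ.** -/
theorem wExQ : S_ExQ := by
  intro d hd h2
  have hns : ∀ r : ℚ, r ^ 2 ≠ (d : ℚ) + 0 * r := by
    intro r hr
    rw [zero_mul, add_zero] at hr
    have h3 : IsSquare ((d : ℕ) : ℚ) := ⟨r, by rw [← hr, sq]⟩
    have h4 : IsSquare d := Rat.isSquare_natCast_iff.mp h3
    obtain ⟨m, hm⟩ := h4
    have h5 := hd m (by rw [← hm])
    have h6 := Nat.isUnit_iff.mp h5
    subst h6
    omega
  have hF : Fact (∀ r : ℚ, r ^ 2 ≠ (d : ℚ) + 0 * r) := ⟨hns⟩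
  have hfin : FiniteDimensional ℚ (QuadraticAlgebra ℚ (d : ℚ) 0) := inferInstance
  have hNF : NumberField (QuadraticAlgebra ℚ (d : ℚ) 0) := ⟨⟩
  exact ⟨QuadraticAlgebra ℚ (d : ℚ) 0, inferInstance, hNF, ExQ.mk d⟩

end Pool.Agent.MP211W
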