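import Pool.Agent.Lib.MP_211f72_nt.W.SpecB

/-!
# MP_211f72_nt, third theorem: the factors of a primitive polynomial
-/

namespace Pool.Agent.MP211W

open Polynomial NumberField
open Pool.Agent.MP211V (rp tc Hb Sl Mx)

namespace FacW

private theorem exU (P : ℤ[X]) (hP : P ≠ 0) : ∃ u : ℕ, Hb P (2 ^ u) ∧
    ∃ j : ℕ, (2 : ℝ) ^ u ≤ 2 * |((P.coeff j : ℤ) : ℝ)| := by
  classical
  have hex : ∃ u : ℕ, Hb P (2 ^ u) := by
    refine ⟨∑ i ∈ Finset.range (P.natDegree + 1), (P.coeff i).natAbs, fun i => ?_⟩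
    have h1 : |((P.coeff i : ℤ) : ℝ)| = (((P.coeff i).natAbs : ℕ) : ℝ) := by
      rw [← Int.cast_abs, Int.abs_eq_natAbs]
      simp
    rw [h1]
    have h2 : (P.coeff i).natAbs ≤ ∑ i ∈ Finset.range (P.natDegree + 1), (P.coeff i).natAbs := by
      by_cases hi : i < P.natDegree + 1
      · exact Finset.single_le_sum (f := fun i => (P.coeff i).natAbs)
          (fun i _ => Nat.zero_le _) (Finset.mem_range.2 hi)
      · rw [Polynomial.coeff_eq_zero_of_natDegree_lt (by omega)]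
        simp
    have h3 := Nat.lt_two_pow_self
      (n := ∑ i ∈ Finset.range (P.natDegree + 1), (P.coeff i).natAbs)
    exact_mod_cast h2.trans h3.le
  obtain ⟨u, hu, hmin⟩ : ∃ u : ℕ, Hb P (2 ^ u) ∧ ∀ v < u, ¬ Hb P (2 ^ v) :=
    ⟨Nat.find hex, Nat.find_spec hex, fun v hv => Nat.find_min hex hv⟩
  refine ⟨u, hu, ?_⟩
  rcases Nat.eq_zero_or_pos u with h0 | h0
  · refine ⟨P.natDegree, ?_⟩
    have h1 : P.coeff P.natDegree ≠ 0 := by
      rw [Polynomial.coeff_natDegree]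
      exact Polynomial.leadingCoeff_ne_zero.2 hP
    have h2 : (1 : ℝ) ≤ |((P.coeff P.natDegree : ℤ) : ℝ)| := by
      have := Int.one_le_abs h1
      rw [← Int.cast_abs]
      exact_mod_cast this
    rw [h0, pow_zero]
    linarith
  · obtain ⟨v, rfl⟩ : ∃ v, u = v + 1 := ⟨u - 1, by omega⟩
    have h1 := hmin v (by omega)
    unfold Hb at h1
    push Not at h1
    obtain ⟨j, hj⟩ := h1
    refine ⟨j, ?_⟩
    rw [pow_succ]
    linarith

end FacW

/-- **FacW** -/
theorem wFacW (h1 : S_GelP) (h2 : Pool.Agent.MP211V.S_Fact) : S_FacW := by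
  intro R hR
  obtain ⟨C₀, hC₀, hG⟩ := h1 R
  have h2R : (1 : ℝ) ≤ 2 ^ R := one_le_pow₀ (by norm_num)
  refine ⟨2 ^ R * C₀, by nlinarith, ?_⟩
  intro q H hq hd hdR hHb hj
  have hH0 : 0 ≤ H := by
    obtain ⟨j, hj⟩ := hj
    rw [← hj]
    exact abs_nonneg _
  have hq0 : q ≠ 0 := hq.ne_zero
  obtain ⟨k, m, F, hk, hqF, hirr, hdeg, hsum⟩ := h2 q hq0
  have hku : IsUnit k := hq k ⟨∏ i, F i, hqF⟩
  have hpm : q = ∏ i, F i ∨ q = -∏ i, F i := by
    rcases Int.isUnit_iff.1 hku with rfl | rfl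
    · left
      rw [hqF]
      simp
    · right
      rw [hqF]
      simp
  have hm : m ≤ R := by
    have : ∑ i : Fin m, 1 ≤ ∑ i, (F i).natDegree := Finset.sum_le_sum fun i _ => hdeg i
    simp only [Finset.sum_const, Finset.card_univ, Fintype.card_fin, smul_eq_mul, mul_one] at this
    omega
  have hm1 : 1 ≤ m := by
    rcases Nat.eq_zero_or_pos m with h0 | h0
    · subst h0
      simp at hsum
      omega
    · exact h0
  choose u hu1 hu2 using fun i => FacW.exU (F i) (hirr i).ne_zero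
  have hHF : Hb (∏ i, F i) H := by
    intro i
    rcases hpm with h | h
    · rw [← h]; exact hHb i
    · have := hHb i
      rw [h] at this
      simpa using this
  refine ⟨m, F, u, hm1, hm, hpm, fun i => ⟨hirr i, hdeg i, hu1 i, hu2 i⟩, hsum, ?_, ?_⟩
  · have h3 := (hG m F (fun i => 2 ^ u i / 2) H hdeg (hsum.trans_le hdR)
      (fun i => by positivity)).1 (fun i => by
        obtain ⟨j, hj⟩ := hu2 i
        exact ⟨j, by linarith⟩) hHF
    rw [Finset.prod_div_distrib] at h3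
    simp only [Finset.prod_const, Finset.card_univ, Fintype.card_fin] at h3
    rw [div_le_iff₀ (by positivity)] at h3
    have h4 : (2 : ℝ) ^ m ≤ 2 ^ R := pow_le_pow_right₀ (by norm_num) hm
    have h5 : 0 ≤ C₀ * H := by positivity
    calc ∏ i, (2 : ℝ) ^ u i ≤ C₀ * H * 2 ^ m := h3
      _ ≤ C₀ * H * 2 ^ R := mul_le_mul_of_nonneg_left h4 h5
      _ = 2 ^ R * C₀ * H := by ring
  · have h3 := (hG m F (fun i => 2 ^ u i) H hdeg (hsum.trans_le hdR)
      (fun i => by positivity)).2 (fun i => hu1 i)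
    obtain ⟨j, hj⟩ := hj
    have h4 := h3 j
    have h5 : |(((∏ i, F i).coeff j : ℤ) : ℝ)| = H := by
      rcases hpm with h | h
      · rw [← h]; exact hj
      · rw [h] at hj
        simpa using hj
    rw [h5] at h4
    have h6 : 0 ≤ ∏ i, (2 : ℝ) ^ u i := Finset.prod_nonneg fun i _ => by positivity
    have h7 : C₀ * ∏ i, (2 : ℝ) ^ u i ≤ 2 ^ R * C₀ * ∏ i, (2 : ℝ) ^ u i := by
      apply mul_le_mul_of_nonneg_right _ h6
      nlinarith
    linarith

end Pool.Agent.MP211W
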