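import Pool.Agent.Lib.MP_211f72_nt.W.SpecA

/-!
# MP_211f72_nt, third theorem, module Fiber

The number of quadratic polynomials with given field, ideal `b` and class of `I`.
-/

set_option autoImplicit false
set_option linter.unusedSectionVars false

namespace Pool.Agent.MP211W

open Polynomial NumberField

namespace Fiber

/-- the opposite polynomial -/
def ngQ (q : Qd) : Qd := ⟨-q.a, -q.b, -q.c⟩

theorem dvd_of (a₁ b₁ c₁ a₂ b₂ c₂ : ℤ) (h : ∀ g : ℤ, g ∣ a₁ → g ∣ b₁ → g ∣ c₁ → IsUnit g)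
    (hb : a₁ * b₂ = a₂ * b₁) (hc : a₁ * c₂ = a₂ * c₁) : a₁ ∣ a₂ := by
  have e1 := Int.gcd_eq_gcd_ab b₁ c₁
  have e2 := Int.gcd_eq_gcd_ab a₁ (Int.gcd b₁ c₁)
  have hu : IsUnit ((Int.gcd a₁ (Int.gcd b₁ c₁) : ℕ) : ℤ) :=
    h _ (Int.gcd_dvd_left ..) ((Int.gcd_dvd_right ..).trans (Int.gcd_dvd_left ..))
      ((Int.gcd_dvd_right ..).trans (Int.gcd_dvd_right ..))
  have h1 : ((Int.gcd a₁ (Int.gcd b₁ c₁) : ℕ) : ℤ) = 1 := by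
    rcases Int.isUnit_iff.mp hu with h | h
    · exact h
    · have := Int.natCast_nonneg (Int.gcd a₁ (Int.gcd b₁ c₁))
      omega
  rw [h1] at e2
  obtain ⟨p, hp⟩ : ∃ p, p = Int.gcdA a₁ (Int.gcd b₁ c₁) := ⟨_, rfl⟩
  obtain ⟨r, hr⟩ : ∃ r, r = Int.gcdB a₁ (Int.gcd b₁ c₁) := ⟨_, rfl⟩
  obtain ⟨s, hs⟩ : ∃ s, s = Int.gcdA b₁ c₁ := ⟨_, rfl⟩
  obtain ⟨t, ht⟩ : ∃ t, t = Int.gcdB b₁ c₁ := ⟨_, rfl⟩
  rw [← hp, ← hr] at e2
  rw [← hs, ← ht] at e1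
  refine ⟨a₂ * p + b₂ * s * r + c₂ * t * r, ?_⟩
  linear_combination a₂ * e2 + a₂ * r * e1 - s * r * hb - t * r * hc

/-- two good polynomials with the same irrational root are equal or opposite -/
theorem same_root {K : Type} [Field K] [NumberField K] {q₁ q₂ : Qd} (g1 : q₁.Good) (g2 : q₂.Good)
    {T N : K} (h1 : (q₁.a : K) * T = -(q₁.b : K)) (h2 : (q₂.a : K) * T = -(q₂.b : K))
    (k1 : (q₁.a : K) * N = (q₁.c : K)) (k2 : (q₂.a : K) * N = (q₂.c : K)) :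
    q₂ = q₁ ∨ q₂ = ngQ q₁ := by
  have hb : q₁.a * q₂.b = q₂.a * q₁.b := by
    have : (q₁.a : K) * (q₂.b : K) = (q₂.a : K) * (q₁.b : K) := by
      linear_combination (q₁.a : K) * h2 - (q₂.a : K) * h1
    exact_mod_cast this
  have hc : q₁.a * q₂.c = q₂.a * q₁.c := by
    have : (q₁.a : K) * (q₂.c : K) = (q₂.a : K) * (q₁.c : K) := by
      linear_combination (q₂.a : K) * k1 - (q₁.a : K) * k2
    exact_mod_cast this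
  have d1 : q₁.a ∣ q₂.a := dvd_of _ _ _ _ _ _ g1.2.1 hb hc
  have d2 : q₂.a ∣ q₁.a := dvd_of _ _ _ _ _ _ g2.2.1 hb.symm hc.symm
  have ha : q₂.a = q₁.a ∨ q₂.a = -q₁.a := by
    have := Int.natAbs_eq_natAbs_iff.mp (Nat.dvd_antisymm (Int.natAbs_dvd_natAbs.mpr d2)
      (Int.natAbs_dvd_natAbs.mpr d1))
    exact this
  rcases ha with ha | ha
  · left
    rw [ha] at hb hc
    exact Qd.ext ha (mul_left_cancel₀ g1.1 hb) (mul_left_cancel₀ g1.1 hc)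
  · right
    rw [ha] at hb hc
    refine Qd.ext ha (mul_left_cancel₀ g1.1 ?_) (mul_left_cancel₀ g1.1 ?_)
    · change q₁.a * q₂.b = q₁.a * -q₁.b
      linarith
    · change q₁.a * q₂.c = q₁.a * -q₁.c
      linarith

section

variable {d : ℕ} {K : Type} [Field K] [NumberField K]

theorem tO_coe (Q : QF d K) (z : 𝓞 K) : ((Q.tO z : 𝓞 K) : K) = Q.τ (z : K) := rfl

theorem co_add (x y : 𝓞 K) : ((x + y : 𝓞 K) : K) = (x : K) + (y : K) :=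
  map_add (algebraMap (𝓞 K) K) x y

theorem co_neg (x : 𝓞 K) : ((-x : 𝓞 K) : K) = -(x : K) := map_neg (algebraMap (𝓞 K) K) x

theorem co_mul (x y : 𝓞 K) : ((x * y : 𝓞 K) : K) = (x : K) * (y : K) :=
  map_mul (algebraMap (𝓞 K) K) x y

theorem co_pow (x : 𝓞 K) (n : ℕ) : ((x ^ n : 𝓞 K) : K) = (x : K) ^ n :=
  map_pow (algebraMap (𝓞 K) K) x n

/-- the group of the pairs of conjugates -/
def Lg (Q : QF d K) (I₀ : Ideal (𝓞 K)) (a₀ : ℤ) : AddSubgroup (ℝ × ℝ) where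
  carrier := {p | ∃ v : K, (∃ z ∈ I₀, (z : K) = (a₀ : K) * v) ∧ p = (Q.σ v, Q.σ (Q.τ v))}
  zero_mem' := ⟨0, ⟨0, I₀.zero_mem, by simp⟩, by simp [Prod.ext_iff]⟩
  add_mem' := by
    rintro _ _ ⟨v, ⟨z, hz, hzv⟩, rfl⟩ ⟨v', ⟨z', hz', hzv'⟩, rfl⟩
    refine ⟨v + v', ⟨z + z', I₀.add_mem hz hz', ?_⟩, ?_⟩
    · rw [co_add, hzv, hzv']
      ring
    · rw [map_add, map_add, map_add, Prod.mk_add_mk]
  neg_mem' := by
    rintro _ ⟨v, ⟨z, hz, hzv⟩, rfl⟩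
    refine ⟨-v, ⟨-z, I₀.neg_mem hz, ?_⟩, ?_⟩
    · rw [co_neg, hzv]
      ring
    · rw [map_neg, map_neg, map_neg, Prod.neg_mk]

theorem mem_Lg {Q : QF d K} {I₀ : Ideal (𝓞 K)} {a₀ : ℤ} {v : K}
    (h : ∃ z ∈ I₀, (z : K) = (a₀ : K) * v) : (Q.σ v, Q.σ (Q.τ v)) ∈ Lg Q I₀ a₀ := ⟨v, h, rfl⟩

theorem sepL (h1 : S_QFb) (Q : QF d K) (hd : Squarefree d) (hd2 : 2 ≤ d) {I₀ : Ideal (𝓞 K)}
    {a₀ : ℤ} (ha : a₀ ≠ 0) (hI : I₀ * Q.tI I₀ = Ideal.span {((a₀ : ℤ) : 𝓞 K)}) :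
    SepL (Lg Q I₀ a₀) (Real.sqrt d / |(a₀ : ℝ)|) := by
  rintro _ ⟨v₁, ⟨z₁, hz₁, e1⟩, rfl⟩ _ ⟨v₂, ⟨z₂, hz₂, e2⟩, rfl⟩ hne
  have hmem : z₁ * Q.tO z₂ ∈ I₀ * Q.tI I₀ := Ideal.mul_mem_mul hz₁ (Ideal.mem_map_of_mem _ hz₂)
  rw [hI, Ideal.mem_span_singleton'] at hmem
  obtain ⟨y, hy⟩ := hmem
  have haK : (a₀ : K) ≠ 0 := by exact_mod_cast ha
  have haR : (a₀ : ℝ) ≠ 0 := by exact_mod_cast ha
  have hyK : (y : K) = (a₀ : K) * (v₁ * Q.τ v₂) := by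
    have h3 : ((y * ((a₀ : ℤ) : 𝓞 K) : 𝓞 K) : K) = ((z₁ * Q.tO z₂ : 𝓞 K) : K) := by rw [hy]
    have h4 : (((a₀ : ℤ) : 𝓞 K) : K) = (a₀ : K) := by simp
    rw [co_mul, co_mul, tO_coe, h4, e1, e2, map_mul, map_intCast] at h3
    have h5 : (a₀ : K) * (y : K) = (a₀ : K) * ((a₀ : K) * (v₁ * Q.τ v₂)) := by
      linear_combination h3
    exact mul_left_cancel₀ haK h5
  obtain ⟨_, _, q3, _, _⟩ := h1 d K Q hd hd2
  obtain ⟨k, hk⟩ := q3 y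
  rw [hyK, map_mul, map_mul, map_intCast, Q.tt] at hk
  have hk2 := congrArg Q.σ hk
  rw [map_sub, map_mul, map_mul, map_mul, map_mul, map_mul, map_intCast, map_intCast,
    Q.pos] at hk2
  have hdet : (a₀ : ℝ) * det2 (Q.σ v₁, Q.σ (Q.τ v₁)) (Q.σ v₂, Q.σ (Q.τ v₂)) =
      (k : ℝ) * Real.sqrt d := by
    unfold det2
    linear_combination hk2
  have hk0 : k ≠ 0 := by
    rintro rfl
    rw [Int.cast_zero, zero_mul] at hdet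
    rcases mul_eq_zero.mp hdet with h | h
    · exact haR h
    · exact hne h
  have hk1 : (1 : ℝ) ≤ |(k : ℝ)| := by
    have : 1 ≤ |k| := Int.one_le_abs hk0
    exact_mod_cast this
  rw [div_le_iff₀ (abs_pos.mpr haR)]
  have h6 := congrArg abs hdet
  rw [abs_mul, abs_mul, abs_of_nonneg (Real.sqrt_nonneg _)] at h6
  have h7 : Real.sqrt d ≤ |(k : ℝ)| * Real.sqrt d :=
    le_mul_of_one_le_left (Real.sqrt_nonneg _) hk1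
  linarith

/-- the data of one polynomial -/
structure Gd (Q : QF d K) (n : ℕ) (lo : ℝ) (I₀ : Ideal (𝓞 K)) (a₀ : ℤ) (ψ₀ : 𝓞 K) (q : Qd)
    (u : (𝓞 K)ˣ) (β θ : K) : Prop where
  good : q.Good
  root : (q.a : K) * θ ^ 2 + (q.b : K) * θ + (q.c : K) = 0
  th : |Q.σ θ| ≤ 2
  b0 : β ≠ 0
  m1 : ∃ z ∈ I₀, (z : K) = (a₀ : K) * β
  m2 : ∃ z ∈ I₀, (z : K) = (a₀ : K) * (β * θ)
  nm : |Q.σ β * Q.σ (Q.τ β)| * |(a₀ : ℝ)| = |(q.a : ℝ)|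
  lo1 : lo ≤ |Q.σ ((u : 𝓞 K) : K) * Q.σ (ψ₀ : K)| * |Q.σ β| ^ n
  lo2 : |Q.σ ((u : 𝓞 K) : K) * Q.σ (ψ₀ : K)| * |Q.σ β| ^ n ≤ 40 * lo

theorem unit_norm (h1 : S_QFb) (Q : QF d K) (hd : Squarefree d) (hd2 : 2 ≤ d) (w : (𝓞 K)ˣ) :
    |Q.σ ((w : 𝓞 K) : K) * Q.σ (Q.τ ((w : 𝓞 K) : K))| = 1 := by
  obtain ⟨_, _, _, q4, _⟩ := h1 d K Q hd hd2
  rw [← q4 (w : 𝓞 K), Ideal.span_singleton_eq_top.mpr w.isUnit, Ideal.absNorm_top, Nat.cast_one]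

/-- existence of the data -/
theorem exists_Gd (h1 : S_QFb) (h3 : S_RelI) (Q : QF d K) (hd : Squarefree d)
    (hd2 : 2 ≤ d) {n : ℕ} (hn : 1 ≤ n) {U : Finset (𝓞 K)ˣ}
    (hU : ∀ u : (𝓞 K)ˣ, ∃ u₀ ∈ U, ∃ w : (𝓞 K)ˣ, u = u₀ * w ^ n) {b : Ideal (𝓞 K)}
    {c : ClassGroup (𝓞 K)} {lo : ℝ} {q₀ : Qd} {θ₀ : K} {ψ₀ : 𝓞 K} {I₀ : Ideal (𝓞 K)}
    (D₀ : Dat n q₀ θ₀ ψ₀ I₀ b) (c₀ : clI I₀ = c) {q : Qd} {θ : K} {ψ : 𝓞 K} {I : Ideal (𝓞 K)}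
    (D : Dat n q θ ψ I b) (hc : clI I = c) (hθ : |Q.σ θ| ≤ 2) (hlo1 : lo ≤ |Q.σ ψ|)
    (hlo2 : |Q.σ ψ| ≤ 40 * lo) :
    ∃ (u : (𝓞 K)ˣ) (β θ' : K), u ∈ U ∧ Gd Q n lo I₀ q₀.a ψ₀ q u β θ' := by
  obtain ⟨β', u, hβ0, hψ, ⟨z₁, hz₁, e1⟩, ⟨z₂, hz₂, e2⟩, hnm⟩ :=
    h3 d K Q hd hd2 n q q₀ θ θ₀ ψ ψ₀ I I₀ b hn D D₀ (hc.trans c₀.symm)
  obtain ⟨u₀, hu₀, w, rfl⟩ := hU u
  have hw0 : ((w : 𝓞 K) : K) ≠ 0 := by
    intro h
    have h5 : (w : 𝓞 K) = 0 := by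
      apply RingOfIntegers.ext
      rw [h]
      simp
    exact w.ne_zero h5
  have hψ2 : (ψ : K) = ((u₀ : 𝓞 K) : K) * (ψ₀ : K) * (((w : 𝓞 K) : K) * β') ^ n := by
    rw [hψ, Units.val_mul, Units.val_pow_eq_pow_val, co_mul, co_pow]
    ring
  have habs : |Q.σ ψ| = |Q.σ ((u₀ : 𝓞 K) : K) * Q.σ (ψ₀ : K)| *
      |Q.σ (((w : 𝓞 K) : K) * β')| ^ n := by
    rw [hψ2, map_mul, map_mul, map_pow, abs_mul, abs_pow]
  refine ⟨u₀, ((w : 𝓞 K) : K) * β', θ, hu₀, D.1, D.2.1, hθ, mul_ne_zero hw0 hβ0, ?_, ?_, ?_, ?_,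
    ?_⟩
  · refine ⟨(w : 𝓞 K) * z₁, I₀.mul_mem_left _ hz₁, ?_⟩
    rw [co_mul, e1]
    ring
  · refine ⟨(w : 𝓞 K) * z₂, I₀.mul_mem_left _ hz₂, ?_⟩
    rw [co_mul, e2]
    ring
  · rw [map_mul, map_mul, map_mul, ← hnm]
    have h6 := unit_norm h1 Q hd hd2 w
    have h7 : Q.σ ((w : 𝓞 K) : K) * Q.σ β' * (Q.σ (Q.τ ((w : 𝓞 K) : K)) * Q.σ (Q.τ β')) =
        (Q.σ ((w : 𝓞 K) : K) * Q.σ (Q.τ ((w : 𝓞 K) : K))) * (Q.σ β' * Q.σ (Q.τ β')) := by ring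
    rw [h7, abs_mul, h6, one_mul]
  · rw [← habs]
    exact hlo1
  · rw [← habs]
    exact hlo2

/-- the geometry of the pair of one polynomial -/
theorem geom (h2 : S_QI) (Q : QF d K) (hd : Squarefree d) (hd2 : 2 ≤ d) {n : ℕ} {lo : ℝ}
    {I₀ : Ideal (𝓞 K)} {a₀ : ℤ} (ha : a₀ ≠ 0) {ψ₀ : 𝓞 K} {q : Qd} {u : (𝓞 K)ˣ} {β θ : K}
    (G : Gd Q n lo I₀ a₀ ψ₀ q u β θ) {H Δ : ℝ} (hH : (q.ht : ℝ) ≤ H) (hpos : 0 < q.disc)
    (hΔ : (q.disc : ℝ) ≤ 2 * Δ) :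
    Q.σ β ≠ 0 ∧ |Q.σ (β * θ)| ≤ 2 * |Q.σ β| ∧ |Q.σ β * Q.σ (Q.τ β)| ≤ 3 * H / |(a₀ : ℝ)| ∧
      |Q.σ β * Q.σ (Q.τ (β * θ))| ≤ 3 * H / |(a₀ : ℝ)| ∧
      det2 (Q.σ β, Q.σ (Q.τ β)) (Q.σ (β * θ), Q.σ (Q.τ (β * θ))) ≠ 0 ∧
      |det2 (Q.σ β, Q.σ (Q.τ β)) (Q.σ (β * θ), Q.σ (Q.τ (β * θ)))| ≤
        Real.sqrt (2 * Δ) / |(a₀ : ℝ)| := by
  obtain ⟨_, t1, t2, _, _⟩ := h2 d K Q hd hd2 q θ G.good G.root
  have haR : (a₀ : ℝ) ≠ 0 := by exact_mod_cast ha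
  have haP : 0 < |(a₀ : ℝ)| := abs_pos.mpr haR
  have hβ : Q.σ β ≠ 0 := by
    rw [Ne, map_eq_zero]
    exact G.b0
  have hqa : |(q.a : ℝ)| ≤ H := by
    refine le_trans ?_ hH
    have : |q.a| ≤ q.ht := le_max_left _ _
    exact_mod_cast this
  have hqb : |(q.b : ℝ)| ≤ H := by
    refine le_trans ?_ hH
    have : |q.b| ≤ q.ht := (le_max_left _ _).trans (le_max_right _ _)
    exact_mod_cast this
  have hHn : 0 ≤ H := (abs_nonneg _).trans hqa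
  have t1' : (q.a : ℝ) * (Q.σ θ + Q.σ (Q.τ θ)) = -(q.b : ℝ) := by
    have := congrArg Q.σ t1
    rwa [map_mul, map_add, map_neg, map_intCast, map_intCast] at this
  have r' : (q.a : ℝ) * Q.σ θ ^ 2 + (q.b : ℝ) * Q.σ θ + (q.c : ℝ) = 0 := by
    have := congrArg Q.σ G.root
    rwa [map_add, map_add, map_mul, map_mul, map_pow, map_intCast, map_intCast, map_intCast,
      map_zero] at this
  have hdisc : ((q.a : ℝ) * (Q.σ (Q.τ θ) - Q.σ θ)) ^ 2 = (q.disc : ℝ) := by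
    have e1 : (q.a : ℝ) * (Q.σ (Q.τ θ) - Q.σ θ) = -(2 * (q.a : ℝ) * Q.σ θ + (q.b : ℝ)) := by
      linear_combination t1'
    rw [e1]
    unfold Qd.disc
    push_cast
    linear_combination 4 * (q.a : ℝ) * r'
  have habs : |(q.a : ℝ) * (Q.σ (Q.τ θ) - Q.σ θ)| = Real.sqrt q.disc := by
    rw [← hdisc, Real.sqrt_sq_eq_abs]
  have hdposR : (0 : ℝ) < (q.disc : ℝ) := by exact_mod_cast hpos
  have nm := G.nm
  have hNN : |Q.σ β * Q.σ (Q.τ β)| = |(q.a : ℝ)| / |(a₀ : ℝ)| := by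
    rw [eq_div_iff haP.ne']
    exact nm
  have hdet : det2 (Q.σ β, Q.σ (Q.τ β)) (Q.σ (β * θ), Q.σ (Q.τ (β * θ))) =
      (Q.σ β * Q.σ (Q.τ β)) * (Q.σ (Q.τ θ) - Q.σ θ) := by
    unfold det2
    simp only [map_mul]
    ring
  have hdet2 : |det2 (Q.σ β, Q.σ (Q.τ β)) (Q.σ (β * θ), Q.σ (Q.τ (β * θ)))| =
      Real.sqrt q.disc / |(a₀ : ℝ)| := by
    rw [hdet, abs_mul, hNN, ← habs, abs_mul]
    ring
  refine ⟨hβ, ?_, ?_, ?_, ?_, ?_⟩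
  · rw [map_mul, abs_mul]
    have := mul_le_mul_of_nonneg_left G.th (abs_nonneg (Q.σ β))
    linarith
  · rw [hNN]
    apply div_le_div_of_nonneg_right _ haP.le
    linarith
  · have e1 : Q.σ β * Q.σ (Q.τ (β * θ)) = (Q.σ β * Q.σ (Q.τ β)) * Q.σ (Q.τ θ) := by
      rw [map_mul Q.τ, map_mul Q.σ]
      ring
    rw [e1, abs_mul, hNN, div_mul_eq_mul_div]
    apply div_le_div_of_nonneg_right _ haP.le
    rw [← abs_mul]
    have e2 : (q.a : ℝ) * Q.σ (Q.τ θ) = -((q.b : ℝ) + (q.a : ℝ) * Q.σ θ) := by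
      linear_combination t1'
    rw [e2, abs_neg]
    refine (abs_add_le _ _).trans ?_
    rw [abs_mul]
    have h3 : |(q.a : ℝ)| * |Q.σ θ| ≤ H * 2 := mul_le_mul hqa G.th (abs_nonneg _) hHn
    linarith
  · intro h0
    rw [h0, abs_zero] at hdet2
    have : 0 < Real.sqrt q.disc / |(a₀ : ℝ)| := div_pos (Real.sqrt_pos.mpr hdposR) haP
    linarith
  · rw [hdet2]
    apply div_le_div_of_nonneg_right _ haP.le
    exact Real.sqrt_le_sqrt hΔ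

/-- two data with the same unit have comparable `σ β` -/
theorem comp40 {Q : QF d K} {n : ℕ} (hn : 1 ≤ n) {lo : ℝ} (hlo : 0 < lo)
    {I₀ : Ideal (𝓞 K)} {a₀ : ℤ} {ψ₀ : 𝓞 K} {q q' : Qd} {u : (𝓞 K)ˣ} {β θ β' θ' : K}
    (G : Gd Q n lo I₀ a₀ ψ₀ q u β θ) (G' : Gd Q n lo I₀ a₀ ψ₀ q' u β' θ') :
    |Q.σ β| ≤ 40 * |Q.σ β'| := by
  obtain ⟨w, hw⟩ : ∃ w, w = |Q.σ ((u : 𝓞 K) : K) * Q.σ (ψ₀ : K)| := ⟨_, rfl⟩
  have g1 := G.lo2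
  have g2 := G'.lo1
  rw [← hw] at g1 g2
  have hw0 : 0 ≤ w := by
    rw [hw]
    exact abs_nonneg _
  have hwp : 0 < w := by
    rcases hw0.eq_or_lt with h | h
    · rw [← h, zero_mul] at g2
      linarith
    · exact h
  have h1 : w * |Q.σ β| ^ n ≤ w * (40 * |Q.σ β'| ^ n) := by linarith
  have h2 : |Q.σ β| ^ n ≤ 40 * |Q.σ β'| ^ n := le_of_mul_le_mul_left h1 hwp
  have h3 : (40 : ℝ) * |Q.σ β'| ^ n ≤ (40 * |Q.σ β'|) ^ n := by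
    rw [mul_pow]
    apply mul_le_mul_of_nonneg_right _ (by positivity)
    calc (40 : ℝ) = 40 ^ 1 := (pow_one _).symm
      _ ≤ 40 ^ n := pow_le_pow_right₀ (by norm_num) hn
  exact le_of_pow_le_pow_left₀ (by omega) (by positivity) (h2.trans h3)

end

end Fiber

open _root_.Pool.Agent.MP211W.Fiber

theorem wFiber (h1 : S_QFb) (h2 : S_QI) (h3 : S_RelI) (h4 : S_UnitN) (h5 : S_PairC) :
    S_Fiber := by
  classical
  intro n hn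
  obtain ⟨C₁, hC₁, hP⟩ := h5 40 (by norm_num)
  have hnR : (0 : ℝ) < n := by
    have : 0 < n := by omega
    exact_mod_cast this
  refine ⟨4 * n * C₁ * (3 * Real.sqrt 2), by positivity, ?_⟩
  intro d K _ _ Q hd hd2 b c H Δ lo S hH hΔ hlo hS
  have hdR : (0 : ℝ) < d := by
    have : 0 < d := by omega
    exact_mod_cast this
  have hsd : 0 < Real.sqrt d := Real.sqrt_pos.mpr hdR
  rcases S.eq_empty_or_nonempty with rfl | ⟨q₀, hq₀⟩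
  · rw [Finset.card_empty, Nat.cast_zero]
    positivity
  obtain ⟨_, _, _, θ₀, ψ₀, I₀, D₀, c₀, _, _, _⟩ := hS q₀ hq₀
  obtain ⟨U, hUc, hU⟩ := h4 d K Q hd hd2 n hn
  have ha₀ : q₀.a ≠ 0 := D₀.1.1
  have haR : (q₀.a : ℝ) ≠ 0 := by exact_mod_cast ha₀
  have haP : 0 < |(q₀.a : ℝ)| := abs_pos.mpr haR
  obtain ⟨_, hII, _⟩ := (h2 d K Q hd hd2 q₀ θ₀ D₀.1 D₀.2.1).2.2.2.2 I₀ D₀.2.2.1
  have hsep := sepL h1 Q hd hd2 ha₀ hII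
  have hex : ∀ q ∈ S, ∃ (u : (𝓞 K)ˣ) (β θ : K), u ∈ U ∧ Gd Q n lo I₀ q₀.a ψ₀ q u β θ := by
    intro q hq
    obtain ⟨_, _, _, θ, ψ, I, D, hc, hθ, l1, l2⟩ := hS q hq
    exact exists_Gd h1 h3 Q hd hd2 hn hU D₀ c₀ D hc hθ l1 l2
  choose! uf βf θf hf using hex
  let Φ : Qd → (ℝ × ℝ) × (ℝ × ℝ) := fun q =>
    ((Q.σ (βf q), Q.σ (Q.τ (βf q))), (Q.σ (βf q * θf q), Q.σ (Q.τ (βf q * θf q))))
  have hσ : Function.Injective Q.σ := Q.σ.injective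
  obtain ⟨B, hB⟩ : ∃ B : ℝ, B = C₁ * (3 * H / |(q₀.a : ℝ)| / (Real.sqrt d / |(q₀.a : ℝ)|)) *
    (Real.sqrt (2 * Δ) / |(q₀.a : ℝ)| / (Real.sqrt d / |(q₀.a : ℝ)|)) := ⟨_, rfl⟩
  have hfib : ∀ u ∈ U, ((S.filter fun q => uf q = u).card : ℝ) ≤ 2 * B := by
    intro u _
    obtain ⟨Su, hSu⟩ : ∃ Su, Su = S.filter fun q => uf q = u := ⟨_, rfl⟩
    rw [← hSu]
    have hSu' : ∀ q ∈ Su, q ∈ S ∧ Gd Q n lo I₀ q₀.a ψ₀ q u (βf q) (θf q) := by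
      intro q hq
      rw [hSu, Finset.mem_filter] at hq
      have := (hf q hq.1).2
      rw [hq.2] at this
      exact ⟨hq.1, this⟩
    have c1 : Su.card ≤ 2 * (Su.image Φ).card := by
      apply Finset.card_le_mul_card_image
      intro p hp
      obtain ⟨q₁, hq₁, rfl⟩ := Finset.mem_image.mp hp
      have hsub : (Su.filter fun q => Φ q = Φ q₁) ⊆ {q₁, ngQ q₁} := by
        intro q hq
        rw [Finset.mem_filter] at hq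
        obtain ⟨hq, he⟩ := hq
        have G := (hSu' q hq).2
        have G₁ := (hSu' q₁ hq₁).2
        have e1 : Q.σ (βf q) = Q.σ (βf q₁) := congrArg (fun p => p.1.1) he
        have e2 : Q.σ (βf q * θf q) = Q.σ (βf q₁ * θf q₁) := congrArg (fun p => p.2.1) he
        have e3 := hσ e1
        have e4 := hσ e2
        rw [e3] at e4
        have e5 : θf q = θf q₁ := mul_left_cancel₀ G₁.b0 e4
        have Gr := G.root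
        rw [e5] at Gr
        obtain ⟨_, t1, t2, _, _⟩ := h2 d K Q hd hd2 q (θf q₁) G.good Gr
        obtain ⟨_, s1, s2, _, _⟩ := h2 d K Q hd hd2 q₁ (θf q₁) G₁.good G₁.root
        rw [Finset.mem_insert, Finset.mem_singleton]
        exact same_root G₁.good G.good s1 t1 s2 t2
      exact (Finset.card_le_card hsub).trans Finset.card_le_two
    have c2 : ((Su.image Φ).card : ℝ) ≤ B := by
      rw [hB]
      apply hP (Lg Q I₀ q₀.a) (Real.sqrt d / |(q₀.a : ℝ)|) (3 * H / |(q₀.a : ℝ)|)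
        (Real.sqrt (2 * Δ) / |(q₀.a : ℝ)|) (Su.image Φ) (by positivity) (by positivity)
        (by positivity) hsep
      · intro p hp
        obtain ⟨q, hq, rfl⟩ := Finset.mem_image.mp hp
        obtain ⟨hqS, G⟩ := hSu' q hq
        obtain ⟨l1, l2, l3, _⟩ := hS q hqS
        obtain ⟨g1, g2, g3, g4, g5, g6⟩ := geom h2 Q hd hd2 ha₀ G l1 l2 l3
        exact ⟨mem_Lg G.m1, mem_Lg G.m2, g1, g2, g3, g4, g5, g6⟩
      · intro p hp p' hp'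
        obtain ⟨q, hq, rfl⟩ := Finset.mem_image.mp hp
        obtain ⟨q', hq', rfl⟩ := Finset.mem_image.mp hp'
        exact comp40 hn hlo (hSu' q hq).2 (hSu' q' hq').2
    have c3 : (Su.card : ℝ) ≤ 2 * ((Su.image Φ).card : ℝ) := by exact_mod_cast c1
    linarith
  have hcard : S.card = ∑ u ∈ U, (S.filter fun q => uf q = u).card :=
    Finset.card_eq_sum_card_fiberwise fun q hq => (hf q hq).1
  have hB0 : 0 ≤ B := by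
    rw [hB]
    positivity
  have hsum : (S.card : ℝ) ≤ (2 * n) * (2 * B) := by
    rw [hcard]
    push_cast
    refine (Finset.sum_le_sum hfib).trans ?_
    rw [Finset.sum_const, nsmul_eq_mul]
    apply mul_le_mul_of_nonneg_right _ (by positivity)
    exact_mod_cast hUc
  refine hsum.trans (le_of_eq ?_)
  rw [hB, Real.sqrt_mul (by norm_num : (0 : ℝ) ≤ 2)]
  have hdd : (d : ℝ) = Real.sqrt d * Real.sqrt d := (Real.mul_self_sqrt hdR.le).symm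
  have e1 : 3 * H / |(q₀.a : ℝ)| / (Real.sqrt d / |(q₀.a : ℝ)|) = 3 * H / Real.sqrt d := by
    field_simp
  have e2 : Real.sqrt 2 * Real.sqrt Δ / |(q₀.a : ℝ)| / (Real.sqrt d / |(q₀.a : ℝ)|) =
      Real.sqrt 2 * Real.sqrt Δ / Real.sqrt d := by
    field_simp
  have e3 : H * Real.sqrt Δ / (d : ℝ) = H * Real.sqrt Δ / (Real.sqrt d * Real.sqrt d) := by
    rw [← hdd]
  rw [e1, e2, e3]
  field_simp
  ring

end Pool.Agent.MP211W
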