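import Pool.Agent.Lib.MP_211f72_nt.W.SpecE

/-!
# MP_211f72_nt, W: fibre with primitive ideal (helper18)
-/

set_option autoImplicit false

namespace Pool.Agent.MP211W

open Polynomial NumberField

namespace FiberP

/-- multiplication of the data by a positive integer -/
private theorem dat_mul {K : Type} [Field K] [NumberField K] {n : ℕ} {q : Qd} {θ : K} {ψ : 𝓞 K}
    {I b₀ : Ideal (𝓞 K)} {e f L : ℕ} (hL : L = f * e) (hL0 : L ≠ 0)
    (h : Dat n q θ ψ I (Ideal.span {((e : ℕ) : 𝓞 K)} * b₀)) :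
    Dat n q θ (((f : ℕ) : 𝓞 K) * ψ) I (Ideal.span {((L : ℕ) : 𝓞 K)} * b₀) := by
  obtain ⟨h1, h2, h3, h4, h5, h6⟩ := h
  have hf : f ≠ 0 := by
    rintro rfl
    rw [zero_mul] at hL
    exact hL0 hL
  have hfK : ((f : ℕ) : 𝓞 K) ≠ 0 := Nat.cast_ne_zero.2 hf
  have hLK : ((L : ℕ) : 𝓞 K) ≠ 0 := Nat.cast_ne_zero.2 hL0
  have hb₀ : b₀ ≠ ⊥ := by
    rintro rfl
    exact h5 (Ideal.mul_bot _)
  refine ⟨h1, h2, h3, mul_ne_zero hfK h4, ?_, ?_⟩
  · exact mul_ne_zero (fun h => hLK (Ideal.span_singleton_eq_bot.1 h)) hb₀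
  · have e1 : Ideal.span {((f : ℕ) : 𝓞 K) * ψ} = Ideal.span {((f : ℕ) : 𝓞 K)} * Ideal.span {ψ} :=
      (Ideal.span_singleton_mul_span_singleton _ _).symm
    have e2 : Ideal.span {((L : ℕ) : 𝓞 K)} =
        Ideal.span {((f : ℕ) : 𝓞 K)} * Ideal.span {((e : ℕ) : 𝓞 K)} := by
      rw [Ideal.span_singleton_mul_span_singleton, hL]
      push_cast
      rfl
    rw [e1, e2, mul_assoc, h6]
    ring

end FiberP

open FiberP

theorem wFiberP (h1 : S_Fiber) : S_FiberP := by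
  classical
  intro n hn
  obtain ⟨C, hC, hF⟩ := h1 n hn
  refine ⟨2 * C, by positivity, ?_⟩
  intro d K _ _ Q hd h2 b₀ c H Δ lo E S hH hΔ hlo hE hS
  set L : ℕ := (2 * E).factorial with hLdef
  have hL0 : L ≠ 0 := Nat.factorial_ne_zero _
  have hLr : (0 : ℝ) < L := by exact_mod_cast Nat.pos_of_ne_zero hL0
  have hEr : (0 : ℝ) < E := by exact_mod_cast hE
  set lo1 : ℝ := lo * L / (2 * E) with hlo1
  have hlo1p : 0 < lo1 := by positivity
  let P : ℝ → Qd → Prop := fun t q => ∃ (θ : K) (ψ : 𝓞 K) (I : Ideal (𝓞 K)),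
    Dat n q θ ψ I (Ideal.span {((L : ℕ) : 𝓞 K)} * b₀) ∧ clI I = c ∧ |Q.σ θ| ≤ 2 ∧
      t ≤ |Q.σ ψ| ∧ |Q.σ ψ| ≤ 40 * t
  have hP : ∀ q ∈ S, P lo1 q ∨ P (2 * lo1) q := by
    intro q hq
    obtain ⟨-, -, -, θ, ψ, I, e, he1, he2, hD, hc, hθ, hψ1, hψ2⟩ := hS q hq
    have he0 : 0 < e := by omega
    have her : (0 : ℝ) < e := by exact_mod_cast he0
    obtain ⟨f, hf⟩ : e ∣ L := Nat.dvd_factorial he0 he2
    have hfL : L = f * e := by rw [hf, mul_comm]
    have hfr : (f : ℝ) = L / e := by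
      rw [eq_div_iff her.ne', hfL]
      push_cast
      rfl
    have hD' := dat_mul hfL hL0 hD
    have hσ : |Q.σ ((((f : ℕ) : 𝓞 K) * ψ : 𝓞 K) : K)| = L / e * |Q.σ ψ| := by
      have e1 : ((((f : ℕ) : 𝓞 K) * ψ : 𝓞 K) : K) = (f : K) * (ψ : K) := by
        push_cast
        rfl
      rw [e1, map_mul, map_natCast, abs_mul, Nat.abs_cast, hfr]
    have he1r : (E : ℝ) ≤ e := by exact_mod_cast he1
    have he2r : (e : ℝ) ≤ 2 * E := by exact_mod_cast he2
    have hlow : lo1 ≤ L / e * |Q.σ ψ| := by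
      rw [hlo1]
      calc lo * L / (2 * E) = L / (2 * E) * lo := by ring
        _ ≤ L / e * |Q.σ ψ| := mul_le_mul (div_le_div_of_nonneg_left hLr.le her he2r) hψ1 hlo.le
            (by positivity)
    have hupp : L / e * |Q.σ ψ| ≤ 80 * lo1 := by
      rw [hlo1]
      calc L / e * |Q.σ ψ| ≤ L / E * (40 * lo) :=
            mul_le_mul (div_le_div_of_nonneg_left hLr.le hEr he1r) hψ2 (abs_nonneg _)
              (by positivity)
        _ = 80 * (lo * L / (2 * E)) := by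
            field_simp
            ring
    by_cases hle : L / e * |Q.σ ψ| ≤ 40 * lo1
    · left
      exact ⟨θ, _, I, hD', hc, hθ, by rw [hσ]; exact hlow, by rw [hσ]; exact hle⟩
    · right
      rw [not_le] at hle
      exact ⟨θ, _, I, hD', hc, hθ, by rw [hσ]; linarith, by rw [hσ]; linarith⟩
  have hcard : ∀ t : ℝ, 0 < t → ((S.filter (P t)).card : ℝ) ≤ C * (H * Real.sqrt Δ / d) := by
    intro t ht
    refine hF d K Q hd h2 (Ideal.span {((L : ℕ) : 𝓞 K)} * b₀) c H Δ t (S.filter (P t)) hH hΔ ht ?_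
    intro q hq
    obtain ⟨hqS, hqP⟩ := Finset.mem_filter.1 hq
    obtain ⟨k1, k2, k3, -⟩ := hS q hqS
    exact ⟨k1, k2, k3, hqP⟩
  have hsub : S ⊆ S.filter (P lo1) ∪ S.filter (P (2 * lo1)) := by
    intro q hq
    rcases hP q hq with h | h
    · exact Finset.mem_union_left _ (Finset.mem_filter.2 ⟨hq, h⟩)
    · exact Finset.mem_union_right _ (Finset.mem_filter.2 ⟨hq, h⟩)
  have h3 : (S.card : ℝ) ≤ (S.filter (P lo1)).card + (S.filter (P (2 * lo1))).card := by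
    exact_mod_cast (Finset.card_le_card hsub).trans (Finset.card_union_le _ _)
  have h4 := hcard lo1 hlo1p
  have h5 := hcard (2 * lo1) (by positivity)
  linarith

end Pool.Agent.MP211W
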