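import Pool.Agent.Lib.MP_211f72_nt.W.SpecB
import Pool.Agent.Lib.MP_211f72_nt.V.Gel

/-!
# MP_211f72_nt, third theorem: Gelfond's inequality for two factors (`GelH`)
-/

namespace Pool.Agent.MP211W

open Polynomial
open Pool.Agent.MP211V (rp tc Hb Sl Mx)

namespace GelH

private theorem rp_coeff (f : ℤ[X]) (i : ℕ) : (rp f).coeff i = ((f.coeff i : ℤ) : ℝ) := by
  unfold Pool.Agent.MP211V.rp
  rw [coeff_map]
  rfl

private theorem coef (n : ℕ) (f : ℤ[X]) (hf : f.natDegree ≤ n) (i : ℕ) :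
    |((f.coeff i : ℤ) : ℝ)| ≤ 2 ^ n * Pool.Agent.MP211V.Gel.mm (rp f) := by
  have h1 := Pool.Agent.MP211V.Gel.coeff_le (rp f) i
  rw [rp_coeff] at h1
  have h2 : (rp f).natDegree ≤ n := (natDegree_map_le).trans hf
  have h3 : (((rp f).natDegree.choose i : ℕ) : ℝ) ≤ 2 ^ n := by
    have h4 : (rp f).natDegree.choose i ≤ 2 ^ n :=
      (Nat.choose_le_two_pow _ _).trans (Nat.pow_le_pow_right (by norm_num) h2)
    exact_mod_cast h4
  exact h1.trans (mul_le_mul_of_nonneg_right h3 (Pool.Agent.MP211V.Gel.mm_nonneg _))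

end GelH

open GelH in
/-- **GelH.** -/
theorem wGelH : S_GelH := by
  intro n
  refine ⟨4 ^ n * (2 * n + 1), ?_, ?_⟩
  · have h1 : (1 : ℝ) ≤ 4 ^ n := one_le_pow₀ (by norm_num)
    have h2 : (0 : ℝ) ≤ n := Nat.cast_nonneg n
    nlinarith
  intro f g B hf hg hB i j
  have h1 := coef n f hf i
  have h2 := coef n g hg j
  have hm : Pool.Agent.MP211V.Gel.mm (rp f) * Pool.Agent.MP211V.Gel.mm (rp g) =
      Pool.Agent.MP211V.Gel.mm (rp (f * g)) := by
    unfold Pool.Agent.MP211V.Gel.mm Pool.Agent.MP211V.rp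
    rw [Polynomial.map_mul, Polynomial.map_mul, mahlerMeasure_mul]
  have hd : (rp (f * g)).natDegree ≤ 2 * n := by
    refine natDegree_map_le.trans (natDegree_mul_le.trans ?_)
    omega
  have h3 : Pool.Agent.MP211V.Gel.mm (rp (f * g)) ≤ (2 * n + 1) * B := by
    refine (Pool.Agent.MP211V.Gel.mm_le _ (2 * n) hd).trans ?_
    calc ∑ k ∈ Finset.range (2 * n + 1), |(rp (f * g)).coeff k|
        ≤ ∑ _k ∈ Finset.range (2 * n + 1), B := by
          refine Finset.sum_le_sum fun k _ => ?_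
          rw [rp_coeff]
          exact hB k
      _ = (2 * n + 1) * B := by
          rw [Finset.sum_const, Finset.card_range, nsmul_eq_mul]
          push_cast
          ring
  have h4 : (4 : ℝ) ^ n = 2 ^ n * 2 ^ n := by
    rw [← mul_pow]
    norm_num
  calc |((f.coeff i : ℤ) : ℝ)| * |((g.coeff j : ℤ) : ℝ)|
      ≤ (2 ^ n * Pool.Agent.MP211V.Gel.mm (rp f)) * (2 ^ n * Pool.Agent.MP211V.Gel.mm (rp g)) :=
        mul_le_mul h1 h2 (abs_nonneg _)
          (mul_nonneg (by positivity) (Pool.Agent.MP211V.Gel.mm_nonneg _))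
    _ = 4 ^ n * Pool.Agent.MP211V.Gel.mm (rp (f * g)) := by
        rw [← hm, h4]
        ring
    _ ≤ 4 ^ n * ((2 * n + 1) * B) := mul_le_mul_of_nonneg_left h3 (by positivity)
    _ = 4 ^ n * (2 * n + 1) * B := by ring

end Pool.Agent.MP211W
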