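import Pool.Agent.Lib.MP_211f72_nt.W.SpecB
import Pool.Agent.Lib.MP_211f72_nt.V.Gel

/-!
# MP_211f72_nt, third theorem: Gelfond's inequality for several factors (`GelP`)
-/

namespace Pool.Agent.MP211W

open Polynomial
open Pool.Agent.MP211V (rp tc Hb Sl Mx)

namespace GelP

private theorem rp_coeff (f : ℤ[X]) (i : ℕ) : (rp f).coeff i = ((f.coeff i : ℤ) : ℝ) := by
  unfold Pool.Agent.MP211V.rp
  rw [coeff_map]
  rfl

private theorem coef (f : ℤ[X]) (i : ℕ) :
    |((f.coeff i : ℤ) : ℝ)| ≤ 2 ^ f.natDegree * Pool.Agent.MP211V.Gel.mm (rp f) := by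
  have h1 := Pool.Agent.MP211V.Gel.coeff_le (rp f) i
  rw [rp_coeff] at h1
  have h2 : (rp f).natDegree ≤ f.natDegree := natDegree_map_le
  have h3 : (((rp f).natDegree.choose i : ℕ) : ℝ) ≤ 2 ^ f.natDegree := by
    have h4 : (rp f).natDegree.choose i ≤ 2 ^ f.natDegree :=
      (Nat.choose_le_two_pow _ _).trans (Nat.pow_le_pow_right (by norm_num) h2)
    exact_mod_cast h4
  exact h1.trans (mul_le_mul_of_nonneg_right h3 (Pool.Agent.MP211V.Gel.mm_nonneg _))

private theorem mm_rp_prod {m : ℕ} (F : Fin m → ℤ[X]) :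
    Pool.Agent.MP211V.Gel.mm (rp (∏ i, F i)) = ∏ i, Pool.Agent.MP211V.Gel.mm (rp (F i)) := by
  rw [← Pool.Agent.MP211V.Gel.mm_prod]
  unfold Pool.Agent.MP211V.rp
  rw [Polynomial.map_prod]

private theorem mm_bnd (f : ℤ[X]) (n : ℕ) (hf : f.natDegree ≤ n) (B : ℝ) (hB : Hb f B) :
    Pool.Agent.MP211V.Gel.mm (rp f) ≤ (n + 1) * B := by
  refine (Pool.Agent.MP211V.Gel.mm_le _ n (natDegree_map_le.trans hf)).trans ?_
  calc ∑ k ∈ Finset.range (n + 1), |(rp f).coeff k|
      ≤ ∑ _k ∈ Finset.range (n + 1), B := by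
        refine Finset.sum_le_sum fun k _ => ?_
        rw [rp_coeff]
        exact hB k
    _ = (n + 1) * B := by
        rw [Finset.sum_const, Finset.card_range, nsmul_eq_mul]
        push_cast
        ring

end GelP

open GelP in
/-- **GelP.** -/
theorem wGelP : S_GelP := by
  intro n
  have h4 : (4 : ℝ) ^ n = 2 ^ n * 2 ^ n := by
    rw [← mul_pow]
    norm_num
  have h2n : (1 : ℝ) ≤ 2 ^ n := one_le_pow₀ (by norm_num)
  refine ⟨4 ^ n * (n + 1), ?_, ?_⟩
  · have h1 : (1 : ℝ) ≤ 4 ^ n := one_le_pow₀ (by norm_num)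
    have h2 : (0 : ℝ) ≤ n := Nat.cast_nonneg n
    nlinarith
  intro m F h B hF hs hh
  have hPd : (∏ i, F i).natDegree ≤ n := (natDegree_prod_le _ _).trans hs
  have h2s : (2 : ℝ) ^ (∑ i, (F i).natDegree) ≤ 2 ^ n := pow_le_pow_right₀ one_le_two hs
  constructor
  · intro hex hB
    have hB0 : 0 ≤ B := (abs_nonneg _).trans (hB 0)
    calc ∏ i, h i ≤ ∏ i, (2 ^ (F i).natDegree * Pool.Agent.MP211V.Gel.mm (rp (F i))) := by
          refine Finset.prod_le_prod (fun i _ => hh i) ?_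
          intro i _
          obtain ⟨j, hj⟩ := hex i
          exact hj.trans (coef (F i) j)
      _ = 2 ^ (∑ i, (F i).natDegree) * Pool.Agent.MP211V.Gel.mm (rp (∏ i, F i)) := by
          rw [Finset.prod_mul_distrib, Finset.prod_pow_eq_pow_sum, mm_rp_prod]
      _ ≤ 2 ^ n * ((n + 1) * B) :=
          mul_le_mul h2s (mm_bnd _ n hPd B hB) (Pool.Agent.MP211V.Gel.mm_nonneg _) (by positivity)
      _ ≤ 4 ^ n * (n + 1) * B := by
          rw [h4]
          have h5 : 0 ≤ 2 ^ n * (((n : ℝ) + 1) * B) := by positivity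
          nlinarith
  · intro hHb k
    have h1 : ∏ i, Pool.Agent.MP211V.Gel.mm (rp (F i)) ≤ 2 ^ n * ∏ i, h i := by
      calc ∏ i, Pool.Agent.MP211V.Gel.mm (rp (F i)) ≤ ∏ i, (2 ^ (F i).natDegree * h i) := by
            refine Finset.prod_le_prod (fun i _ => Pool.Agent.MP211V.Gel.mm_nonneg _) ?_
            intro i _
            refine (mm_bnd (F i) _ le_rfl (h i) (hHb i)).trans
              (mul_le_mul_of_nonneg_right ?_ (hh i))
            have h5 : (F i).natDegree + 1 ≤ 2 ^ (F i).natDegree := Nat.lt_two_pow_self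
            exact_mod_cast h5
        _ = 2 ^ (∑ i, (F i).natDegree) * ∏ i, h i := by
            rw [Finset.prod_mul_distrib, Finset.prod_pow_eq_pow_sum]
        _ ≤ 2 ^ n * ∏ i, h i :=
            mul_le_mul_of_nonneg_right h2s (Finset.prod_nonneg fun i _ => hh i)
    have h0 : 0 ≤ ∏ i, h i := Finset.prod_nonneg fun i _ => hh i
    calc |(((∏ i, F i).coeff k : ℤ) : ℝ)|
        ≤ 2 ^ (∏ i, F i).natDegree * Pool.Agent.MP211V.Gel.mm (rp (∏ i, F i)) := coef _ k
      _ ≤ 2 ^ n * (2 ^ n * ∏ i, h i) := by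
          rw [mm_rp_prod]
          refine mul_le_mul (pow_le_pow_right₀ one_le_two hPd) h1
            (Finset.prod_nonneg fun i _ => Pool.Agent.MP211V.Gel.mm_nonneg _) (by positivity)
      _ = 4 ^ n * (1 * ∏ i, h i) := by
          rw [h4]
          ring
      _ ≤ 4 ^ n * ((n + 1) * ∏ i, h i) := by
          refine mul_le_mul_of_nonneg_left (mul_le_mul_of_nonneg_right ?_ h0) (by positivity)
          have : (0 : ℝ) ≤ n := Nat.cast_nonneg n
          linarith
      _ = 4 ^ n * (n + 1) * ∏ i, h i := by ring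

end Pool.Agent.MP211W
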