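import Pool.Agent.Lib.MP_211f72_nt.W.SpecA

/-!
# MP_211f72_nt, third theorem: bound for the 2-torsion of the class group (`Genus`)
-/

namespace Pool.Agent.MP211W

open Polynomial NumberField

namespace Genus

variable {d : ℕ} {K : Type} [Field K] [NumberField K]

theorem tO_coe (Q : QF d K) (z : 𝓞 K) : ((Q.tO z : 𝓞 K) : K) = Q.τ z := rfl

theorem tO_tO (Q : QF d K) (z : 𝓞 K) : Q.tO (Q.tO z) = z := by
  apply NumberField.RingOfIntegers.ext
  rw [tO_coe, tO_coe, Q.tt]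

theorem tI_mul (Q : QF d K) (I J : Ideal (𝓞 K)) : Q.tI (I * J) = Q.tI I * Q.tI J :=
  Ideal.map_mul _ _ _

theorem tI_span (Q : QF d K) (z : 𝓞 K) : Q.tI (Ideal.span {z}) = Ideal.span {Q.tO z} := by
  unfold QF.tI
  rw [Ideal.map_span, Set.image_singleton]

theorem mem_tI (Q : QF d K) (I : Ideal (𝓞 K)) (z : 𝓞 K) (h : z ∈ I) : Q.tO z ∈ Q.tI I :=
  Ideal.mem_map_of_mem _ h

theorem tI_tI (Q : QF d K) (I : Ideal (𝓞 K)) : Q.tI (Q.tI I) = I := by
  ext z
  unfold QF.tI
  rw [Ideal.mem_map_of_equiv]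
  constructor
  · rintro ⟨x, hx, rfl⟩
    rw [Ideal.mem_map_of_equiv] at hx
    obtain ⟨y, hy, rfl⟩ := hx
    rw [tO_tO]
    exact hy
  · intro hz
    refine ⟨Q.tO z, ?_, tO_tO Q z⟩
    rw [Ideal.mem_map_of_equiv]
    exact ⟨z, hz, rfl⟩

theorem coe_mul' (x y : 𝓞 K) : ((x * y : 𝓞 K) : K) = (x : K) * (y : K) := rfl

theorem clI_span (z : 𝓞 K) (hz : z ≠ 0) : clI (Ideal.span {z}) = 1 := by
  have h : Ideal.span {z} ≠ ⊥ := by
    rw [Ne, Ideal.span_singleton_eq_bot]; exact hz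
  unfold clI
  rw [dif_neg h, ClassGroup.mk0_eq_one_iff]
  exact ⟨⟨z, rfl⟩⟩

/-- the positive classes -/
def Pos (Q : QF d K) (c : ClassGroup (𝓞 K)) : Prop :=
  ∃ (I : Ideal (𝓞 K)) (μ : 𝓞 K), I ≠ ⊥ ∧ clI I = c ∧ μ ≠ 0 ∧ I ^ 2 = Ideal.span {μ} ∧
    μ * Q.tO μ = ((Ideal.absNorm I : ℕ) : 𝓞 K) ^ 2

/-- every class of order two is positive or negative -/
theorem sign (Q : QF d K) (hd : Squarefree d) (h2 : 2 ≤ d) (h1 : S_QFb) (c : ClassGroup (𝓞 K))
    (hc : c ^ 2 = 1) : ∃ (I : Ideal (𝓞 K)) (μ : 𝓞 K), I ≠ ⊥ ∧ clI I = c ∧ μ ≠ 0 ∧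
      I ^ 2 = Ideal.span {μ} ∧ (μ * Q.tO μ = ((Ideal.absNorm I : ℕ) : 𝓞 K) ^ 2 ∨
        μ * Q.tO μ = -((Ideal.absNorm I : ℕ) : 𝓞 K) ^ 2) := by
  obtain ⟨I, hI, hcI⟩ := clI_surj c
  have hI2 : I ^ 2 ≠ ⊥ := pow_ne_zero 2 hI
  have h3 : clI (I ^ 2) = 1 := by rw [clI_pow I hI, hcI, hc]
  unfold clI at h3
  rw [dif_neg hI2, ClassGroup.mk0_eq_one_iff] at h3
  obtain ⟨μ, hμ⟩ := h3
  have hμ' : I ^ 2 = Ideal.span {μ} := hμ
  have hμ0 : μ ≠ 0 := by
    rintro rfl
    apply hI2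
    rw [hμ', Ideal.span_singleton_eq_bot]
  refine ⟨I, μ, hI, hcI, hμ0, hμ', ?_⟩
  have h5 := (h1 d K Q hd h2).2.2.2.2 μ
  have h6 : Ideal.absNorm (Ideal.span {μ}) = (Algebra.norm ℤ μ).natAbs :=
    Ideal.absNorm_span_singleton μ
  rw [← hμ', map_pow] at h6
  have h7 : (Algebra.norm ℤ μ) = (Ideal.absNorm I : ℤ) ^ 2 ∨
      (Algebra.norm ℤ μ) = -(Ideal.absNorm I : ℤ) ^ 2 := by
    rcases Int.natAbs_eq (Algebra.norm ℤ μ) with h | h
    · left; rw [h, ← h6]; push_cast; rfl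
    · right; rw [h, ← h6]; push_cast; rfl
  rcases h7 with h | h
  · left
    apply NumberField.RingOfIntegers.ext
    rw [coe_mul', tO_coe, h5, h]
    push_cast
    simp
  · right
    apply NumberField.RingOfIntegers.ext
    rw [coe_mul', tO_coe, h5, h]
    push_cast
    simp

theorem tO_natCast (Q : QF d K) (m : ℕ) : Q.tO (m : 𝓞 K) = m := map_natCast _ m

/-- an invariant ideal in a positive class -/
theorem inv (Q : QF d K) (hd : Squarefree d) (h2 : 2 ≤ d) (h3 : S_NmI) (c : ClassGroup (𝓞 K))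
    (hc : Pos Q c) : ∃ J : Ideal (𝓞 K), J ≠ ⊥ ∧ clI J = c ∧ Q.tI J = J := by
  obtain ⟨I, μ, hI, hcI, hμ0, hμ, hN⟩ := hc
  have hIτ := (h3 d K Q hd h2 I).2 hI
  set r : 𝓞 K := ((Ideal.absNorm I : ℕ) : 𝓞 K) with hr
  have hr0 : r ≠ 0 := by
    rw [hr]
    exact Nat.cast_ne_zero.mpr (Ideal.absNorm_ne_zero_iff_mem_nonZeroDivisors.mpr
      (mem_nonZeroDivisors_of_ne_zero hI))
  have hrs : Ideal.span {r} ≠ (0 : Ideal (𝓞 K)) := by
    rw [Ne, Ideal.zero_eq_bot, Ideal.span_singleton_eq_bot]; exact hr0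
  have htr : Q.tO r = r := tO_natCast Q _
  have e1 : Ideal.span {μ} * Q.tI I = Ideal.span {r} * I := by
    rw [← hμ, ← hIτ]; ring
  have e2 : Ideal.span {r} * Q.tI I = Ideal.span {Q.tO μ} * I := by
    have h4 : Ideal.span {r} * (Ideal.span {r} * Q.tI I) =
        Ideal.span {r} * (Ideal.span {Q.tO μ} * I) := by
      calc Ideal.span {r} * (Ideal.span {r} * Q.tI I)
          = Ideal.span {r ^ 2} * Q.tI I := by
            rw [← mul_assoc, Ideal.span_singleton_mul_span_singleton, sq]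
        _ = Ideal.span {Q.tO μ} * (Ideal.span {μ} * Q.tI I) := by
            rw [← hN, ← mul_assoc, Ideal.span_singleton_mul_span_singleton, mul_comm μ]
        _ = Ideal.span {r} * (Ideal.span {Q.tO μ} * I) := by rw [e1]; ring
    exact mul_left_cancel₀ hrs h4
  by_cases hκ : r + Q.tO μ = 0
  · refine ⟨I, hI, hcI, ?_⟩
    have h5 : Q.tO μ = -r := by linear_combination hκ
    rw [h5, Ideal.span_singleton_neg] at e2
    exact mul_left_cancel₀ hrs e2
  · have hks : Ideal.span {r + Q.tO μ} ≠ ⊥ := by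
      rw [Ne, Ideal.span_singleton_eq_bot]; exact hκ
    refine ⟨Ideal.span {r + Q.tO μ} * I, mul_ne_zero hks hI, ?_, ?_⟩
    · rw [clI_mul _ _ hks hI, clI_span _ hκ, one_mul, hcI]
    · have h6 : Q.tO (r + Q.tO μ) = r + μ := by rw [map_add, htr, tO_tO]
      apply mul_left_cancel₀ hrs
      rw [tI_mul, tI_span, h6]
      calc Ideal.span {r} * (Ideal.span {r + μ} * Q.tI I)
          = Ideal.span {r + μ} * (Ideal.span {r} * Q.tI I) := by ring
        _ = Ideal.span {(r + μ) * Q.tO μ} * I := by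
            rw [e2, ← mul_assoc, Ideal.span_singleton_mul_span_singleton]
        _ = Ideal.span {r * (r + Q.tO μ)} * I := by
            congr 3
            linear_combination hN
        _ = Ideal.span {r} * (Ideal.span {r + Q.tO μ} * I) := by
            rw [← mul_assoc, Ideal.span_singleton_mul_span_singleton]

/-- the element `sd` as an integer -/
theorem exists_sd (Q : QF d K) : ∃ s : 𝓞 K, (s : K) = Q.sd ∧ s * s = ((d : ℕ) : 𝓞 K) ∧
    Q.tO s = -s := by
  have h : IsIntegral ℤ Q.sd := by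
    apply IsIntegral.of_pow (n := 2) (by norm_num)
    rw [Q.sq]
    exact isIntegral_algebraMap (R := ℤ) (x := (d : ℤ)) |> fun h => by simpa using h
  obtain ⟨s, hs⟩ : ∃ s : 𝓞 K, (s : K) = Q.sd := ⟨⟨Q.sd, h⟩, rfl⟩
  refine ⟨s, hs, ?_, ?_⟩
  · apply NumberField.RingOfIntegers.ext
    rw [coe_mul', hs, ← sq, Q.sq]
    simp
  · apply NumberField.RingOfIntegers.ext
    rw [tO_coe, hs, Q.ts]
    have : ((-s : 𝓞 K) : K) = -(s : K) := rfl
    rw [this, hs]

/-- a prime ideal containing a natural number contains a prime number -/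
theorem exists_prime_mem (P : Ideal (𝓞 K)) (hP : P.IsPrime) (m : ℕ) (hm : m ≠ 0)
    (h : ((m : ℕ) : 𝓞 K) ∈ P) : ∃ p : ℕ, p.Prime ∧ ((p : ℕ) : 𝓞 K) ∈ P := by
  induction m using Nat.strong_induction_on with
  | _ m ih =>
    have h1 : m ≠ 1 := by
      rintro rfl
      rw [Nat.cast_one] at h
      exact hP.ne_top ((Ideal.eq_top_iff_one _).mpr h)
    have h2 : m.minFac.Prime := Nat.minFac_prime h1
    obtain ⟨k, hk⟩ := Nat.minFac_dvd m
    have h3 : ((m.minFac : ℕ) : 𝓞 K) * ((k : ℕ) : 𝓞 K) ∈ P := by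
      rw [← Nat.cast_mul, ← hk]; exact h
    rcases hP.mem_or_mem h3 with h4 | h4
    · exact ⟨_, h2, h4⟩
    · have hk0 : k ≠ 0 := by
        rintro rfl
        rw [mul_zero] at hk
        exact hm hk
      refine ih k ?_ hk0 h4
      have h5 := h2.two_le
      calc k < 2 * k := by omega
        _ ≤ m.minFac * k := Nat.mul_le_mul_right k h5
        _ = m := hk.symm

/-- a positive class contains an ideal dividing `4d` -/
theorem key (Q : QF d K) (hd : Squarefree d) (h2 : 2 ≤ d) (h1 : S_QFb) (h3 : S_NmI)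
    (c : ClassGroup (𝓞 K)) (hc : Pos Q c) :
    ∃ B : Ideal (𝓞 K), clI B = c ∧ B ∣ Ideal.span {((4 * d : ℕ) : 𝓞 K)} := by
  classical
  obtain ⟨J, hJ, hJc, hJτ⟩ := inv Q hd h2 h3 c hc
  let S : Set ℕ := {m | ∃ J : Ideal (𝓞 K), J ≠ ⊥ ∧ clI J = c ∧ Q.tI J = J ∧ Ideal.absNorm J = m}
  have hS : S.Nonempty := ⟨_, J, hJ, hJc, hJτ, rfl⟩
  obtain ⟨B, hB, hBc, hBτ, hBn⟩ := Nat.sInf_mem hS
  have hmin : ∀ J : Ideal (𝓞 K), J ≠ ⊥ → clI J = c → Q.tI J = J →
      Ideal.absNorm B ≤ Ideal.absNorm J := by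
    intro J h4 h5 h6
    rw [hBn]
    exact Nat.sInf_le ⟨J, h4, h5, h6, rfl⟩
  -- no rational prime divides B
  have hnorm : ∀ m : ℕ, Ideal.absNorm (Ideal.span {((m : ℕ) : 𝓞 K)}) = m ^ 2 := by
    intro m
    have h4 := (h1 d K Q hd h2).2.2.2.1 ((m : ℕ) : 𝓞 K)
    have h5 : (((m : ℕ) : 𝓞 K) : K) = (m : K) := by simp
    rw [h5, map_natCast, map_natCast, map_natCast] at h4
    have h6 : ((Ideal.absNorm (Ideal.span {((m : ℕ) : 𝓞 K)}) : ℕ) : ℝ) = ((m ^ 2 : ℕ) : ℝ) := by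
      rw [h4, abs_of_nonneg (by positivity)]
      push_cast
      ring
    exact_mod_cast h6
  have hB0 : 0 < Ideal.absNorm B := Nat.pos_of_ne_zero
    (Ideal.absNorm_ne_zero_iff_mem_nonZeroDivisors.mpr (mem_nonZeroDivisors_of_ne_zero hB))
  have hnp : ∀ m : ℕ, 2 ≤ m → ¬ Ideal.span {((m : ℕ) : 𝓞 K)} ∣ B := by
    rintro m hm ⟨B1, hB1⟩
    have hm0 : ((m : ℕ) : 𝓞 K) ≠ 0 := Nat.cast_ne_zero.mpr (by omega)
    have hms : Ideal.span {((m : ℕ) : 𝓞 K)} ≠ (0 : Ideal (𝓞 K)) := by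
      rw [Ne, Ideal.zero_eq_bot, Ideal.span_singleton_eq_bot]; exact hm0
    have hB10 : B1 ≠ ⊥ := by
      rintro rfl
      apply hB
      rw [hB1]
      exact mul_zero _
    have h4 : Q.tI B1 = B1 := by
      apply mul_left_cancel₀ hms
      rw [← hB1]
      conv_rhs => rw [← hBτ]
      conv_rhs => rw [hB1]
      rw [tI_mul, tI_span, tO_natCast]
    have h5 : clI B1 = c := by
      rw [← hBc, hB1, clI_mul _ _ hms hB10, clI_span _ hm0, one_mul]
    have h6 := hmin B1 hB10 h5 h4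
    have h7 : Ideal.absNorm B = m ^ 2 * Ideal.absNorm B1 := by
      conv_lhs => rw [hB1]
      rw [map_mul, hnorm]
    have h8 : 0 < Ideal.absNorm B1 := by
      rcases Nat.eq_zero_or_pos (Ideal.absNorm B1) with h | h
      · rw [h7, h] at hB0; simp at hB0
      · exact h
    have h9 : 4 ≤ m ^ 2 := by nlinarith
    nlinarith
  obtain ⟨s, hsK, hss, hst⟩ := exists_sd Q
  -- prime divisors of B
  have hpr : ∀ P : Ideal (𝓞 K), Prime P → P ∣ B → ¬ P * P ∣ B ∧ P ∣ Ideal.span {2 * s} := by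
    intro P hP hPB
    have hP0 : P ≠ ⊥ := hP.ne_zero
    have hPp : P.IsPrime := Ideal.isPrime_of_prime hP
    have hPm : P.IsMaximal := hPp.isMaximal hP0
    have hPN := (h3 d K Q hd h2 P).2 hP0
    have hN1 : Ideal.absNorm P ≠ 1 := by
      rw [Ne, Ideal.absNorm_eq_one_iff]
      exact hPp.ne_top
    have hN0 : Ideal.absNorm P ≠ 0 := Ideal.absNorm_ne_zero_iff_mem_nonZeroDivisors.mpr
      (mem_nonZeroDivisors_of_ne_zero hP0)
    have hN2 : 2 ≤ Ideal.absNorm P := by omega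
    have hτP : Q.tI P = P := by
      by_contra hne
      have hτp : (Q.tI P).IsPrime := Ideal.map_isPrime_of_equiv Q.tO
      have hτ0 : Q.tI P ≠ ⊥ := by
        intro h
        apply hP0
        rw [← tI_tI Q P, h]
        exact Ideal.map_bot
      have hτP : Prime (Q.tI P) := Ideal.prime_of_isPrime hτ0 hτp
      obtain ⟨B', hB'⟩ := hPB
      have h4 : Q.tI P ∣ P * B' := by
        rw [← hB', ← hBτ]
        refine ⟨Q.tI B', ?_⟩
        rw [← tI_mul, ← hB']
      rcases hτP.dvd_or_dvd h4 with h5 | h5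
      · have h6 : P ≤ Q.tI P := Ideal.le_of_dvd h5
        exact hne (hPm.eq_of_le hτp.ne_top h6).symm
      · obtain ⟨B2, hB2⟩ := h5
        apply hnp _ hN2
        refine ⟨B2, ?_⟩
        rw [← hPN, hB', hB2]
        ring
    rw [hτP] at hPN
    refine ⟨?_, ?_⟩
    · intro h4
      apply hnp _ hN2
      rw [← hPN]
      exact h4
    · -- residue field
      obtain ⟨p, hp, hpP⟩ := exists_prime_mem P hPp _ hN0 (Ideal.absNorm_mem P)
      have hpd : P ∣ Ideal.span {((p : ℕ) : 𝓞 K)} := Ideal.dvd_span_singleton.mpr hpP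
      have hdvd : Ideal.absNorm P ∣ p ^ 2 := by
        rw [← hnorm p]
        exact Ideal.absNorm_dvd_absNorm_of_le (Ideal.le_of_dvd hpd)
      obtain ⟨k, hk2, hk⟩ := (Nat.dvd_prime_pow hp).mp hdvd
      have hk0 : k ≠ 0 := by
        rintro rfl
        rw [pow_zero] at hk
        exact hN1 hk
      have hk1 : k = 1 := by
        by_contra hk1
        have hk3 : k = 2 := by omega
        subst hk3
        obtain ⟨P', hP'⟩ := hpd
        have h4 := hnorm p
        rw [hP', map_mul, hk] at h4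
        have hp2 : 0 < p ^ 2 := pow_pos hp.pos 2
        have h5 : Ideal.absNorm P' = 1 := by
          have : p ^ 2 * Ideal.absNorm P' = p ^ 2 * 1 := by rw [h4, mul_one]
          exact Nat.eq_of_mul_eq_mul_left hp2 this
        rw [Ideal.absNorm_eq_one_iff] at h5
        rw [h5, ← Ideal.one_eq_top, mul_one] at hP'
        apply hnp p hp.two_le
        rw [hP']
        exact hPB
      subst hk1
      rw [pow_one] at hk
      have hcard : Nat.card (𝓞 K ⧸ P) = p := by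
        rw [← hk, Ideal.absNorm_apply, Submodule.cardQuot_apply]
      have : Fact p.Prime := ⟨hp⟩
      have hone : (1 : 𝓞 K ⧸ P) ≠ 0 := by
        intro h
        apply hPp.ne_top
        rw [Ideal.eq_top_iff_one, ← Ideal.Quotient.eq_zero_iff_mem]
        exact h
      have h4 := mem_zmultiples_of_prime_card hcard (g := (1 : 𝓞 K ⧸ P))
        (g' := Ideal.Quotient.mk P s) hone
      obtain ⟨j, hj⟩ := h4
      have h5 : s - ((j : ℤ) : 𝓞 K) ∈ P := by
        rw [← Ideal.Quotient.eq_zero_iff_mem, map_sub, ← hj]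
        simp
      have h6 := mem_tI Q P _ h5
      rw [hτP, map_sub, hst, map_intCast] at h6
      have h7 := P.sub_mem h5 h6
      rw [Ideal.dvd_span_singleton]
      have h8 : s - ((j : ℤ) : 𝓞 K) - (-s - ((j : ℤ) : 𝓞 K)) = 2 * s := by ring
      rw [h8] at h7
      exact h7
  -- B is squarefree
  have hsq : Squarefree B := by
    intro x hx
    by_contra hxu
    have hx0 : x ≠ 0 := by
      rintro rfl
      rw [mul_zero, zero_dvd_iff] at hx
      exact hB hx
    obtain ⟨P, hP, hPx⟩ := WfDvdMonoid.exists_irreducible_factor hxu hx0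
    have h4 : P * P ∣ B := (mul_dvd_mul hPx hPx).trans hx
    exact (hpr P hP.prime ((dvd_mul_right P P).trans h4)).1 h4
  refine ⟨B, hBc, ?_⟩
  have h5 : B ∣ Ideal.span {2 * s} := by
    have h6 : (UniqueFactorizationMonoid.normalizedFactors B).Nodup :=
      (UniqueFactorizationMonoid.squarefree_iff_nodup_normalizedFactors hB).mp hsq
    have h7 : ∏ P ∈ (UniqueFactorizationMonoid.normalizedFactors B).toFinset, P = B := by
      have e : (UniqueFactorizationMonoid.normalizedFactors B).toFinset.val =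
          UniqueFactorizationMonoid.normalizedFactors B := by
        rw [Multiset.toFinset_val, Multiset.dedup_eq_self.mpr h6]
      calc ∏ P ∈ (UniqueFactorizationMonoid.normalizedFactors B).toFinset, P
          = ((UniqueFactorizationMonoid.normalizedFactors B).toFinset.val.map fun P => P).prod := rfl
        _ = (UniqueFactorizationMonoid.normalizedFactors B).prod := by rw [e, Multiset.map_id']
        _ = B := Ideal.prod_normalizedFactors_eq_self hB
    rw [← h7]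
    apply Finset.prod_primes_dvd
    · intro P hP
      exact UniqueFactorizationMonoid.prime_of_normalized_factor P (Multiset.mem_toFinset.mp hP)
    · intro P hP
      have h8 := Multiset.mem_toFinset.mp hP
      exact (hpr P (UniqueFactorizationMonoid.prime_of_normalized_factor P h8)
        (UniqueFactorizationMonoid.dvd_of_mem_normalizedFactors h8)).2
  refine h5.trans ?_
  refine ⟨Ideal.span {2 * s}, ?_⟩
  rw [Ideal.span_singleton_mul_span_singleton]
  congr 2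
  push_cast
  rw [← hss]
  ring

end Genus

/-- **Genus.** -/
theorem wGenus (h1 : S_QFb) (h2 : S_NmI) (h3 : S_DivI) : S_Genus := by
  intro d K _ _ Q hd hd2
  classical
  have : Finite (ClassGroup (𝓞 K)) := inferInstance
  have hdiv := h3 K Q.rank (4 * d) (by omega)
  set D : Set (Ideal (𝓞 K)) := {b : Ideal (𝓞 K) | b ∣ Ideal.span {((4 * d : ℕ) : 𝓞 K)}} with hD
  set A : Set (ClassGroup (𝓞 K)) := {c | c ^ 2 = 1 ∧ Genus.Pos Q c} with hA
  set A' : Set (ClassGroup (𝓞 K)) := {c | c ^ 2 = 1 ∧ ¬ Genus.Pos Q c} with hA'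
  have hAD : A.ncard ≤ D.ncard := by
    have h4 : ∀ c ∈ A, ∃ B : Ideal (𝓞 K), clI B = c ∧ B ∣ Ideal.span {((4 * d : ℕ) : 𝓞 K)} :=
      fun c hc => Genus.key Q hd hd2 h1 h2 c hc.2
    choose! f hf using h4
    refine Set.ncard_le_ncard_of_injOn f (fun c hc => (hf c hc).2) ?_ hdiv.1
    intro c hc c' hc' h
    rw [← (hf c hc).1, ← (hf c' hc').1, h]
  have hAA : A'.ncard ≤ A.ncard := by
    rcases Set.eq_empty_or_nonempty A' with h | ⟨c₁, hc₁⟩
    · rw [h]; simp
    · refine Set.ncard_le_ncard_of_injOn (fun c => c₁ * c) ?_ ?_ (Set.toFinite _)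
      · intro c hc
        refine ⟨by rw [mul_pow, hc₁.1, hc.1, one_mul], ?_⟩
        obtain ⟨I, μ, hI, hcI, hμ0, hμ, hN⟩ := Genus.sign Q hd hd2 h1 c hc.1
        obtain ⟨I₁, μ₁, hI₁, hcI₁, hμ0₁, hμ₁, hN₁⟩ := Genus.sign Q hd hd2 h1 c₁ hc₁.1
        have e : μ * Q.tO μ = -((Ideal.absNorm I : ℕ) : 𝓞 K) ^ 2 := by
          rcases hN with h | h
          · exact absurd ⟨I, μ, hI, hcI, hμ0, hμ, h⟩ hc.2
          · exact h
        have e₁ : μ₁ * Q.tO μ₁ = -((Ideal.absNorm I₁ : ℕ) : 𝓞 K) ^ 2 := by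
          rcases hN₁ with h | h
          · exact absurd ⟨I₁, μ₁, hI₁, hcI₁, hμ0₁, hμ₁, h⟩ hc₁.2
          · exact h
        refine ⟨I₁ * I, μ₁ * μ, mul_ne_zero hI₁ hI, ?_, mul_ne_zero hμ0₁ hμ0, ?_, ?_⟩
        · rw [clI_mul _ _ hI₁ hI, hcI, hcI₁]
        · rw [mul_pow, hμ, hμ₁, Ideal.span_singleton_mul_span_singleton]
        · rw [map_mul, map_mul]
          push_cast
          linear_combination (-((Ideal.absNorm I₁ : ℕ) : 𝓞 K) ^ 2) * e + (μ * Q.tO μ) * e₁
      · intro c _ c' _ h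
        exact mul_left_cancel h
  have hcard : Nat.card {c : ClassGroup (𝓞 K) // c ^ 2 = 1} = (A ∪ A').ncard := by
    rw [← Nat.card_coe_set_eq]
    apply Nat.card_congr
    apply Equiv.subtypeEquivRight
    intro c
    rw [Set.mem_union]
    constructor
    · intro h
      by_cases hp : Genus.Pos Q c
      · exact Or.inl ⟨h, hp⟩
      · exact Or.inr ⟨h, hp⟩
    · rintro (h | h)
      · exact h.1
      · exact h.1
  rw [hcard]
  calc (A ∪ A').ncard ≤ A.ncard + A'.ncard := Set.ncard_union_le _ _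
    _ ≤ 2 * D.ncard := by omega
    _ ≤ 2 * (4 * d).divisors.card ^ 2 := Nat.mul_le_mul_left 2 hdiv.2

end Pool.Agent.MP211W
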