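import Pool.Agent.Lib.MP_211f72_nt.W.SpecB

/-!
# MP_211f72_nt, third theorem: the height of the minimal recurrence (`HB`)
-/

namespace Pool.Agent.MP211W

open Polynomial
open Pool.Agent.MP211V (rp tc Hb Sl Mx)

namespace HB

private theorem bnd0 {n : ℕ} {Y δ ξ : ℝ} {x : ℕ → ℤ} (hY : 1 ≤ Y) (hd1 : δ ≤ 1) (h0 : 0 ≤ ξ)
    (h1 : ξ ≤ 1) (h : NrW n Y δ ξ x) (j : ℕ) (hj : j ≤ n) : |(x j : ℝ)| ≤ 2 * Y := by
  have h2 := abs_le.mp (h.2.2 j hj)
  have h3 : |(x 0 : ℝ) * ξ ^ j| ≤ Y := by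
    rw [abs_mul, abs_of_nonneg (pow_nonneg h0 j)]
    calc |(x 0 : ℝ)| * ξ ^ j ≤ Y * 1 :=
          mul_le_mul h.2.1 (pow_le_one₀ h0 h1) (pow_nonneg h0 j) (by linarith)
      _ = Y := mul_one Y
  have h4 := abs_le.mp h3
  rw [abs_le]
  constructor <;> linarith [h2.1, h2.2, h4.1, h4.2]

private theorem bnd1 {n : ℕ} {Y δ ξ : ℝ} {x : ℕ → ℤ} (h0 : 0 ≤ ξ)
    (h1 : ξ ≤ 1) (h : NrW n Y δ ξ x) (i l : ℕ) (hj : i + l ≤ n) :
    |(x (l + i) : ℝ) - ξ ^ l * (x i : ℝ)| ≤ 2 * δ := by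
  have h2 := abs_le.mp (h.2.2 (i + l) hj)
  have h3 : |ξ ^ l * ((x 0 : ℝ) * ξ ^ i - (x i : ℝ))| ≤ δ := by
    rw [abs_mul, abs_of_nonneg (pow_nonneg h0 l)]
    calc ξ ^ l * |(x 0 : ℝ) * ξ ^ i - (x i : ℝ)| ≤ 1 * δ :=
          mul_le_mul (pow_le_one₀ h0 h1) (h.2.2 i (by omega)) (abs_nonneg _) zero_le_one
      _ = δ := one_mul δ
  have h4 := abs_le.mp h3
  have h5 : (x (l + i) : ℝ) - ξ ^ l * (x i : ℝ) =
      ξ ^ l * ((x 0 : ℝ) * ξ ^ i - (x i : ℝ)) - ((x 0 : ℝ) * ξ ^ (i + l) - (x (i + l) : ℝ)) := by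
    rw [pow_add, add_comm l i]
    ring
  rw [h5, abs_le]
  constructor <;> linarith [h2.1, h2.2, h4.1, h4.2]

/-- the polynomial with given coefficients -/
private noncomputable def pol {N : ℕ} (p : Fin N → ℤ) : ℤ[X] :=
  ∑ j ∈ Finset.range N, monomial j (if h : j < N then p ⟨j, h⟩ else 0)

private theorem pol_coeff {N : ℕ} (p : Fin N → ℤ) (k : ℕ) :
    (pol p).coeff k = if h : k < N then p ⟨k, h⟩ else 0 := by
  unfold pol
  rw [finsetSum_coeff]
  simp only [coeff_monomial]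
  rw [Finset.sum_ite_eq']
  by_cases hk : k < N
  · rw [if_pos (Finset.mem_range.mpr hk)]
  · rw [if_neg (fun h => hk (Finset.mem_range.mp h)), dif_neg hk]

private theorem pol_natDegree {N : ℕ} (p : Fin N → ℤ) : (pol p).natDegree ≤ N - 1 := by
  rw [natDegree_le_iff_coeff_eq_zero]
  intro k hk
  rw [pol_coeff, dif_neg (by omega)]

private theorem pol_sum {N : ℕ} (p : Fin N → ℤ) (y : ℕ → ℤ) :
    ∑ j ∈ Finset.range N, (pol p).coeff j * y j = ∑ j : Fin N, p j * y (j : ℕ) := by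
  rw [Finset.sum_range]
  refine Finset.sum_congr rfl fun j _ => ?_
  rw [pol_coeff, dif_pos j.isLt]

/-- number of integers in an interval -/
private theorem card_Icc_le (c e : ℝ) (he : 0 ≤ e) :
    ((Finset.Icc ⌈c - e⌉ ⌊c + e⌋).card : ℝ) ≤ 2 * e + 1 := by
  rw [Int.card_Icc]
  have h1 : (⌊c + e⌋ : ℝ) ≤ c + e := Int.floor_le _
  have h2 : c - e ≤ (⌈c - e⌉ : ℝ) := Int.le_ceil _
  by_cases h : 0 ≤ ⌊c + e⌋ + 1 - ⌈c - e⌉
  · have h3 : (((⌊c + e⌋ + 1 - ⌈c - e⌉).toNat : ℕ) : ℝ) = ((⌊c + e⌋ + 1 - ⌈c - e⌉ : ℤ) : ℝ) := by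
      have := Int.toNat_of_nonneg h
      exact_mod_cast this
    rw [h3]
    push_cast
    linarith
  · rw [Int.toNat_of_nonpos (by omega)]
    push_cast
    linarith

private theorem mem_Icc_of {c e : ℝ} {z : ℤ} (h : |(z : ℝ) - c| ≤ e) :
    z ∈ Finset.Icc ⌈c - e⌉ ⌊c + e⌋ := by
  have h1 := abs_le.mp h
  rw [Finset.mem_Icc]
  exact ⟨Int.ceil_le.mpr (by linarith [h1.1]), Int.le_floor.mpr (by linarith [h1.2])⟩

/-- the linear forms -/
private def zz (x : ℕ → ℤ) (N r : ℕ) (p : Fin N → ℤ) : Fin r → ℤ :=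
  fun i => ∑ j : Fin N, p j * x ((i : ℕ) + (j : ℕ))

private noncomputable def box (N P : ℕ) : Finset (Fin N → ℤ) :=
  Fintype.piFinset fun _ : Fin N => Finset.Icc (0 : ℤ) (P : ℤ)

private theorem box_card (N P : ℕ) : ((box N P).card : ℝ) = ((P : ℝ) + 1) ^ N := by
  unfold box
  rw [Fintype.card_piFinset, Finset.prod_const, Finset.card_univ, Fintype.card_fin, Int.card_Icc]
  have : ((P : ℤ) + 1 - 0).toNat = P + 1 := by omega
  rw [this]
  push_cast
  rfl

private theorem box_abs {N P : ℕ} {p : Fin N → ℤ} (hp : p ∈ box N P) (j : Fin N) :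
    0 ≤ p j ∧ p j ≤ P := by
  unfold box at hp
  have := Fintype.mem_piFinset.mp hp j
  rw [Finset.mem_Icc] at this
  exact this

private theorem im_card {n s : ℕ} {Y δ ξ : ℝ} {x : ℕ → ℤ} (hrn : 2 * (s + 1) ≤ n)
    (hY : 1 ≤ Y) (hd0 : 0 < δ) (hd1 : δ ≤ 1) (h0 : 0 ≤ ξ) (h1 : ξ ≤ 1) (h : NrW n Y δ ξ x) (P N : ℕ)
    (hN : N = n - (s + 1) + 2) :
    (((box N P).image (zz x N (s + 1))).card : ℝ) ≤
      (2 * (N * P * (2 * Y)) + 1) * (2 * (N * P * (2 * δ)) + 1) ^ s := by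
  classical
  have hP0 : (0 : ℝ) ≤ P := Nat.cast_nonneg P
  have hN0 : (0 : ℝ) ≤ N := Nat.cast_nonneg N
  have hsub : (box N P).image (zz x N (s + 1)) ⊆
      (Finset.Icc ⌈(0 : ℝ) - N * P * (2 * Y)⌉ ⌊(0 : ℝ) + N * P * (2 * Y)⌋).biUnion fun z₀ =>
        Fintype.piFinset fun i : Fin (s + 1) => if i = 0 then {z₀} else
          Finset.Icc ⌈ξ ^ (i : ℕ) * (z₀ : ℝ) - N * P * (2 * δ)⌉
            ⌊ξ ^ (i : ℕ) * (z₀ : ℝ) + N * P * (2 * δ)⌋ := by
    intro z hz
    obtain ⟨p, hp, rfl⟩ := Finset.mem_image.mp hz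
    rw [Finset.mem_biUnion]
    refine ⟨zz x N (s + 1) p 0, ?_, ?_⟩
    · apply mem_Icc_of
      rw [sub_zero]
      unfold zz
      push_cast
      refine (Finset.abs_sum_le_sum_abs _ _).trans ?_
      calc ∑ j : Fin N, |(p j : ℝ) * (x (((0 : Fin (s + 1)) : ℕ) + (j : ℕ)) : ℝ)|
          ≤ ∑ _j : Fin N, (P : ℝ) * (2 * Y) := by
            refine Finset.sum_le_sum fun j _ => ?_
            rw [abs_mul]
            have hb := box_abs hp j
            have hb1 : |(p j : ℝ)| ≤ P := by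
              rw [abs_of_nonneg (by exact_mod_cast hb.1)]
              exact_mod_cast hb.2
            refine mul_le_mul hb1 (bnd0 hY hd1 h0 h1 h _ ?_) (abs_nonneg _) hP0
            have := j.isLt
            simp only [Fin.val_zero]
            omega
        _ = N * P * (2 * Y) := by
            rw [Finset.sum_const, Finset.card_univ, Fintype.card_fin, nsmul_eq_mul]
            ring
    · rw [Fintype.mem_piFinset]
      intro i
      by_cases hi : i = 0
      · rw [if_pos hi, hi, Finset.mem_singleton]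
      · rw [if_neg hi]
        apply mem_Icc_of
        have e : ((zz x N (s + 1) p i : ℤ) : ℝ) - ξ ^ (i : ℕ) * ((zz x N (s + 1) p 0 : ℤ) : ℝ) =
            ∑ j : Fin N, (p j : ℝ) * ((x ((i : ℕ) + (j : ℕ)) : ℝ) -
              ξ ^ (i : ℕ) * (x (j : ℕ) : ℝ)) := by
          unfold zz
          push_cast
          rw [Finset.mul_sum, ← Finset.sum_sub_distrib]
          refine Finset.sum_congr rfl fun j _ => ?_
          rw [Fin.val_zero, zero_add]
          ring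
        rw [e]
        refine (Finset.abs_sum_le_sum_abs _ _).trans ?_
        calc ∑ j : Fin N, |(p j : ℝ) * ((x ((i : ℕ) + (j : ℕ)) : ℝ) -
              ξ ^ (i : ℕ) * (x (j : ℕ) : ℝ))|
            ≤ ∑ _j : Fin N, (P : ℝ) * (2 * δ) := by
              refine Finset.sum_le_sum fun j _ => ?_
              rw [abs_mul]
              have hb := box_abs hp j
              have hb1 : |(p j : ℝ)| ≤ P := by
                rw [abs_of_nonneg (by exact_mod_cast hb.1)]
                exact_mod_cast hb.2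
              refine mul_le_mul hb1 (bnd1 h0 h1 h _ _ ?_) (abs_nonneg _) hP0
              have h2 := j.isLt
              have h3 := i.isLt
              omega
          _ = N * P * (2 * δ) := by
              rw [Finset.sum_const, Finset.card_univ, Fintype.card_fin, nsmul_eq_mul]
              ring
  have hA0 : 0 ≤ (N : ℝ) * P * (2 * Y) := by positivity
  have hB0 : 0 ≤ (N : ℝ) * P * (2 * δ) := by positivity
  have hfib : ∀ z₀ : ℤ, ((Fintype.piFinset fun i : Fin (s + 1) => if i = 0 then {z₀} else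
          Finset.Icc ⌈ξ ^ (i : ℕ) * (z₀ : ℝ) - N * P * (2 * δ)⌉
            ⌊ξ ^ (i : ℕ) * (z₀ : ℝ) + N * P * (2 * δ)⌋).card : ℝ) ≤
      (2 * (N * P * (2 * δ)) + 1) ^ s := by
    intro z₀
    rw [Fintype.card_piFinset, Fin.prod_univ_succ, if_pos rfl, Finset.card_singleton, one_mul]
    push_cast
    calc ∏ i : Fin s, (((if i.succ = 0 then ({z₀} : Finset ℤ) else
            Finset.Icc ⌈ξ ^ ((i : ℕ) + 1) * (z₀ : ℝ) - N * P * (2 * δ)⌉
              ⌊ξ ^ ((i : ℕ) + 1) * (z₀ : ℝ) + N * P * (2 * δ)⌋).card : ℕ) : ℝ)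
        ≤ ∏ _i : Fin s, (2 * (N * P * (2 * δ)) + 1) := by
          refine Finset.prod_le_prod (fun _ _ => Nat.cast_nonneg _) fun i _ => ?_
          rw [if_neg (Fin.succ_ne_zero i)]
          exact card_Icc_le _ _ hB0
      _ = (2 * (N * P * (2 * δ)) + 1) ^ s := by
          rw [Finset.prod_const, Finset.card_univ, Fintype.card_fin]
  have h2 := (Finset.card_le_card hsub).trans Finset.card_biUnion_le
  calc (((box N P).image (zz x N (s + 1))).card : ℝ)
      ≤ ((∑ z₀ ∈ Finset.Icc ⌈(0 : ℝ) - N * P * (2 * Y)⌉ ⌊(0 : ℝ) + N * P * (2 * Y)⌋,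
        (Fintype.piFinset fun i : Fin (s + 1) => if i = 0 then {z₀} else
          Finset.Icc ⌈ξ ^ (i : ℕ) * (z₀ : ℝ) - N * P * (2 * δ)⌉
            ⌊ξ ^ (i : ℕ) * (z₀ : ℝ) + N * P * (2 * δ)⌋).card : ℕ) : ℝ) := by
        exact_mod_cast h2
    _ ≤ ∑ _z₀ ∈ Finset.Icc ⌈(0 : ℝ) - N * P * (2 * Y)⌉ ⌊(0 : ℝ) + N * P * (2 * Y)⌋,
        (2 * (N * P * (2 * δ)) + 1) ^ s := by
        push_cast
        exact Finset.sum_le_sum fun z₀ _ => hfib z₀
    _ ≤ (2 * (N * P * (2 * Y)) + 1) * (2 * (N * P * (2 * δ)) + 1) ^ s := by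
        rw [Finset.sum_const, nsmul_eq_mul]
        exact mul_le_mul_of_nonneg_right (card_Icc_le _ _ hA0) (by positivity)

/-- the fibres -/
private theorem fib_card (hk : S_HBk) {n r : ℕ} {C₁ : ℝ} {x : ℕ → ℤ} {q : ℤ[X]} (hr : 1 ≤ r)
    (hrn : 2 * r ≤ n)
    (hG : ∀ (f g : ℤ[X]) (B : ℝ), f.natDegree ≤ n → g.natDegree ≤ n → Hb (f * g) B →
      ∀ i j : ℕ, |((f.coeff i : ℤ) : ℝ)| * |((g.coeff j : ℤ) : ℝ)| ≤ C₁ * B)
    (hqp : q.IsPrimitive) (hq : Ann n r x q) (hmin : ∀ p : ℤ[X], p ≠ 0 → ¬ Ann n (r - 1) x p)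
    (j : ℕ) (hj : 0 < |((q.coeff j : ℤ) : ℝ)|) (P N K : ℕ) (hN : N = n - r + 2)
    (hK : K = n - 2 * r + 2) (hC : 0 ≤ C₁) (v : Fin r → ℤ) :
    (((box N P).filter fun p => zz x N r p = v).card : ℝ) ≤
      (2 * (C₁ * P / |((q.coeff j : ℤ) : ℝ)|) + 1) ^ K := by
  classical
  set a : ℝ := |((q.coeff j : ℤ) : ℝ)| with ha
  have he0 : 0 ≤ C₁ * P / a := by positivity
  rcases ((box N P).filter fun p => zz x N r p = v).eq_empty_or_nonempty with he | ⟨p₀, hp₀⟩
  · rw [he, Finset.card_empty, Nat.cast_zero]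
    positivity
  have hp₀b := (Finset.mem_filter.mp hp₀).1
  have hp₀v := (Finset.mem_filter.mp hp₀).2
  have hex : ∀ p : Fin N → ℤ, ∃ g : ℤ[X], p ∈ (box N P).filter (fun p => zz x N r p = v) →
      pol (fun i => p i - p₀ i) = q * g ∧ g.natDegree ≤ n - 2 * r + 1 := by
    intro p
    by_cases hp : p ∈ (box N P).filter (fun p => zz x N r p = v)
    · have hpv := (Finset.mem_filter.mp hp).2
      have hann : Ann n (n - r + 1) x (pol (fun i => p i - p₀ i)) := by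
        refine ⟨(pol_natDegree _).trans (by omega), ?_⟩
        intro i hi
        have e : n - r + 1 + 1 = N := by omega
        rw [e, pol_sum (fun i => p i - p₀ i) (fun j => x (i + j))]
        have hir : i < r := by omega
        have e1 := congrFun hpv ⟨i, hir⟩
        have e2 := congrFun hp₀v ⟨i, hir⟩
        unfold zz at e1 e2
        simp only [sub_mul, Finset.sum_sub_distrib]
        simp only at e1 e2
        rw [e1, e2, sub_self]
      obtain ⟨g, hg⟩ := hk n r x q hr hrn hqp hq hmin _ hann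
      exact ⟨g, fun _ => hg⟩
    · exact ⟨0, fun h => absurd h hp⟩
  choose G hGp using hex
  have hcard : (((box N P).filter fun p => zz x N r p = v).card) ≤
      (Fintype.piFinset fun _ : Fin K => Finset.Icc ⌈(0 : ℝ) - C₁ * P / a⌉
        ⌊(0 : ℝ) + C₁ * P / a⌋).card := by
    refine Finset.card_le_card_of_injOn (fun p => fun l : Fin K => (G p).coeff (l : ℕ)) ?_ ?_
    · intro p hp
      rw [Finset.mem_coe] at hp ⊢
      rw [Fintype.mem_piFinset]
      intro l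
      apply mem_Icc_of
      rw [sub_zero]
      have h1 := hGp p hp
      have hHb : Hb (q * G p) P := by
        intro k
        rw [← h1.1, pol_coeff]
        split_ifs with hkN
        · have hb := box_abs (Finset.mem_filter.mp hp).1 ⟨k, hkN⟩
          have hb0 := box_abs hp₀b ⟨k, hkN⟩
          have : |p ⟨k, hkN⟩ - p₀ ⟨k, hkN⟩| ≤ (P : ℤ) := by
            rw [abs_le]
            constructor <;> linarith [hb.1, hb.2, hb0.1, hb0.2]
          exact_mod_cast this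
        · simp
      have h2 := hG q (G p) P (hq.1.trans (by omega)) (h1.2.trans (by omega)) hHb j (l : ℕ)
      rw [← ha] at h2
      rw [le_div_iff₀ hj, mul_comm]
      exact h2
    · intro p hp p' hp' hpp
      rw [Finset.mem_coe] at hp hp'
      have h1 := hGp p hp
      have h1' := hGp p' hp'
      have hGG : G p = G p' := by
        ext k
        by_cases hkK : k < K
        · exact congrFun hpp ⟨k, hkK⟩
        · rw [coeff_eq_zero_of_natDegree_lt (by omega), coeff_eq_zero_of_natDegree_lt (by omega)]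
      have h3 : pol (fun i => p i - p₀ i) = pol (fun i => p' i - p₀ i) := by
        rw [h1.1, h1'.1, hGG]
      funext i
      have h4 := congrArg (fun P : ℤ[X] => P.coeff (i : ℕ)) h3
      simp only [pol_coeff, dif_pos i.isLt] at h4
      have h5 : p i - p₀ i = p' i - p₀ i := h4
      linarith
  calc (((box N P).filter fun p => zz x N r p = v).card : ℝ)
      ≤ ((Fintype.piFinset fun _ : Fin K => Finset.Icc ⌈(0 : ℝ) - C₁ * P / a⌉
        ⌊(0 : ℝ) + C₁ * P / a⌋).card : ℝ) := by exact_mod_cast hcard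
    _ ≤ (2 * (C₁ * P / a) + 1) ^ K := by
        rw [Fintype.card_piFinset, Finset.prod_const, Finset.card_univ, Fintype.card_fin]
        push_cast
        exact pow_le_pow_left₀ (Nat.cast_nonneg _) (card_Icc_le _ _ he0) K

end HB

open HB in
/-- **HB.** -/
theorem wHB (h1 : S_GelH) (h2 : S_HBk) : S_HB := by
  classical
  intro n r hr hrn
  obtain ⟨C₁, hC₁, hG⟩ := h1 n
  obtain ⟨s, rfl⟩ : ∃ s, r = s + 1 := ⟨r - 1, by omega⟩
  obtain ⟨N, hN⟩ : ∃ N, N = n - (s + 1) + 2 := ⟨_, rfl⟩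
  obtain ⟨K, hK⟩ : ∃ K, K = n - 2 * (s + 1) + 2 := ⟨_, rfl⟩
  have hNK : N = (s + 1) + K := by omega
  have hN1 : (1 : ℝ) ≤ N := by
    have : 1 ≤ N := by omega
    exact_mod_cast this
  refine ⟨(5 * N) ^ (s + 1) * (3 * C₁) ^ K, ?_, ?_⟩
  · have h3 : (1 : ℝ) ≤ (5 * N) ^ (s + 1) := one_le_pow₀ (by linarith)
    have h4 : (1 : ℝ) ≤ (3 * C₁) ^ K := one_le_pow₀ (by linarith)
    nlinarith
  intro Y δ ξ x q hY hd0 hd1 h0 h1' hnr hqp hq hmin j
  rw [← hK, Nat.add_sub_cancel]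
  have hY0 : 0 < Y := by linarith
  rcases (abs_nonneg ((q.coeff j : ℤ) : ℝ)).eq_or_lt with ha | ha
  · rw [← ha, zero_pow (by omega)]
    positivity
  set a : ℝ := |((q.coeff j : ℤ) : ℝ)| with hadef
  obtain ⟨P, hP⟩ := exists_nat_ge (max a (1 / δ))
  have hPa : a ≤ P := (le_max_left _ _).trans hP
  have hPd : 1 / δ ≤ P := (le_max_right _ _).trans hP
  have hPδ : 1 ≤ (P : ℝ) * δ := by
    rwa [div_le_iff₀ hd0] at hPd
  have hP0 : (0 : ℝ) < P := lt_of_lt_of_le ha hPa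
  have hP1 : (1 : ℝ) ≤ P := by
    have : 0 < P := by exact_mod_cast hP0
    exact_mod_cast this
  have hNPd : 1 ≤ (N : ℝ) * P * δ := by
    calc (1 : ℝ) = 1 * 1 := (one_mul 1).symm
      _ ≤ N * (P * δ) := mul_le_mul hN1 hPδ zero_le_one (by linarith)
      _ = N * P * δ := by ring
  have hNPY : 1 ≤ (N : ℝ) * P * Y := by
    calc (1 : ℝ) = 1 * (1 * 1) := by norm_num
      _ ≤ N * (P * Y) := mul_le_mul hN1 (mul_le_mul hP1 hY zero_le_one hP0.le)
          (by norm_num) (by linarith)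
      _ = N * P * Y := by ring
  have him := im_card hrn hY hd0 hd1 h0 h1' hnr P N hN
  have hfib := fun v => fib_card h2 hr hrn hG hqp hq hmin j ha P N K hN hK
    (by linarith) v
  rw [← hadef] at hfib
  have hcard : ((P : ℝ) + 1) ^ N ≤ ((2 * (N * P * (2 * Y)) + 1) * (2 * (N * P * (2 * δ)) + 1) ^ s) *
      (2 * (C₁ * P / a) + 1) ^ K := by
    rw [← box_card, Finset.card_eq_sum_card_image (zz x N (s + 1)) (box N P)]
    push_cast
    calc ∑ v ∈ (box N P).image (zz x N (s + 1)),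
          (((box N P).filter fun p => zz x N (s + 1) p = v).card : ℝ)
        ≤ ∑ _v ∈ (box N P).image (zz x N (s + 1)), (2 * (C₁ * P / a) + 1) ^ K :=
          Finset.sum_le_sum fun v _ => hfib v
      _ = (((box N P).image (zz x N (s + 1))).card : ℝ) * (2 * (C₁ * P / a) + 1) ^ K := by
          rw [Finset.sum_const, nsmul_eq_mul]
      _ ≤ _ := mul_le_mul_of_nonneg_right him (by positivity)
  have hb1 : 2 * (N * P * (2 * Y)) + 1 ≤ 5 * N * P * Y := by nlinarith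
  have hb2 : 2 * (N * P * (2 * δ)) + 1 ≤ 5 * N * P * δ := by nlinarith
  have hCa : 1 ≤ C₁ * P / a := by
    rw [le_div_iff₀ ha, one_mul]
    nlinarith
  have hb3 : 2 * (C₁ * P / a) + 1 ≤ 3 * (C₁ * P / a) := by linarith
  have hmain : (P : ℝ) ^ N ≤ ((5 * N * P * Y) * (5 * N * P * δ) ^ s) * (3 * (C₁ * P / a)) ^ K := by
    calc (P : ℝ) ^ N ≤ ((P : ℝ) + 1) ^ N := pow_le_pow_left₀ hP0.le (by linarith) N
      _ ≤ _ := hcard
      _ ≤ _ := by
        refine mul_le_mul (mul_le_mul hb1 (pow_le_pow_left₀ (by positivity) hb2 s)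
          (by positivity) (by positivity)) (pow_le_pow_left₀ (by positivity) hb3 K)
          (by positivity) (by positivity)
  have heq : ((5 * N * P * Y) * (5 * N * P * δ) ^ s) * (3 * (C₁ * P / a)) ^ K =
      (P : ℝ) ^ N * ((5 * N) ^ (s + 1) * (3 * C₁) ^ K * (Y * δ ^ s)) / a ^ K := by
    have e1 : 3 * (C₁ * P / a) = (3 * C₁) * P / a := by ring
    rw [e1, div_pow, mul_pow (3 * C₁) (P : ℝ) K]
    have e2 : (P : ℝ) ^ N = P ^ (s + 1) * P ^ K := by rw [hNK, pow_add]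
    have e3 : (5 * (N : ℝ) * P * δ) ^ s = (5 * N) ^ s * P ^ s * δ ^ s := by
      rw [mul_pow, mul_pow (5 * (N : ℝ)) (P : ℝ) s]
    rw [e2, e3, pow_succ (P : ℝ) s, pow_succ (5 * (N : ℝ)) s]
    field_simp
  rw [heq, le_div_iff₀ (by positivity)] at hmain
  have hPN : (0 : ℝ) < (P : ℝ) ^ N := by positivity
  exact le_of_mul_le_mul_left hmain hPN

end Pool.Agent.MP211W

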