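import Pool.Agent.Lib.MP_211f72_nt.W.SpecB

/-!
# MP_211f72_nt, third theorem: the kernel of the transposed Hankel matrix (`HBk`)
-/

namespace Pool.Agent.MP211W

open Polynomial

namespace HBk

/-- the functional `X^k ↦ x_k` -/
private noncomputable def L (x : ℕ → ℤ) : ℚ[X] →ₗ[ℚ] ℚ :=
  Polynomial.lsum fun k => ((x k : ℤ) : ℚ) • (LinearMap.id : ℚ →ₗ[ℚ] ℚ)

private theorem L_eq (x : ℕ → ℤ) (p : ℚ[X]) (N : ℕ) (h : p.natDegree < N) :
    L x p = ∑ j ∈ Finset.range N, p.coeff j * ((x j : ℤ) : ℚ) := by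
  unfold L
  rw [lsum_apply, sum_over_range' p _ N h]
  · refine Finset.sum_congr rfl fun j _ => ?_
    rw [LinearMap.smul_apply, LinearMap.id_apply, smul_eq_mul, mul_comm]
  · intro k
    exact map_zero _

private theorem L_shift (x : ℕ → ℤ) (p : ℚ[X]) (N i : ℕ) (h : p.natDegree < N) :
    ∑ j ∈ Finset.range N, p.coeff j * ((x (i + j) : ℤ) : ℚ) = L x (p * X ^ i) := by
  have h1 : (p * X ^ i).natDegree < i + N := by
    have := natDegree_mul_le (p := p) (q := (X : ℚ[X]) ^ i)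
    rw [natDegree_X_pow] at this
    omega
  rw [L_eq x _ (i + N) h1, Finset.sum_range_add]
  have h2 : ∑ k ∈ Finset.range i, (p * X ^ i).coeff k * ((x k : ℤ) : ℚ) = 0 := by
    refine Finset.sum_eq_zero fun k hk => ?_
    have := Finset.mem_range.mp hk
    rw [coeff_mul_X_pow', if_neg (by omega), zero_mul]
  rw [h2, zero_add]
  refine Finset.sum_congr rfl fun j _ => ?_
  rw [add_comm i j, coeff_mul_X_pow]

private noncomputable def M (x : ℕ → ℤ) (N r : ℕ) : ℚ[X] →ₗ[ℚ] (Fin r → ℚ) :=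
  LinearMap.pi fun i => ∑ j ∈ Finset.range N, ((x ((i : ℕ) + j) : ℤ) : ℚ) • lcoeff ℚ j

private theorem M_apply (x : ℕ → ℤ) (N r : ℕ) (p : ℚ[X]) (i : Fin r) :
    M x N r p i = ∑ j ∈ Finset.range N, p.coeff j * ((x ((i : ℕ) + j) : ℤ) : ℚ) := by
  unfold M
  rw [LinearMap.pi_apply, LinearMap.sum_apply]
  refine Finset.sum_congr rfl fun j _ => ?_
  rw [LinearMap.smul_apply, lcoeff_apply, smul_eq_mul, mul_comm]

private theorem mem_lt {p : ℚ[X]} {N : ℕ} (h : p.natDegree < N) : p ∈ degreeLT ℚ N := by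
  rw [mem_degreeLT]
  exact degree_le_natDegree.trans_lt (by exact_mod_cast h)

private theorem lt_mem {p : ℚ[X]} {N : ℕ} (hN : 0 < N) (h : p ∈ degreeLT ℚ N) :
    p.natDegree < N := by
  rw [mem_degreeLT] at h
  by_cases hp : p = 0
  · rw [hp, natDegree_zero]
    exact hN
  · exact (natDegree_lt_iff_degree_lt hp).mpr h

private theorem fin_lt (m : ℕ) : Module.Finite ℚ (degreeLT ℚ m) :=
  Module.Finite.equiv (degreeLTEquiv ℚ m).symm

private theorem fr (m : ℕ) : Module.finrank ℚ (degreeLT ℚ m) = m := by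
  rw [(degreeLTEquiv ℚ m).finrank_eq, Module.finrank_fintype_fun_eq_card, Fintype.card_fin]

private theorem surj {n r : ℕ} {x : ℕ → ℤ} (hr : 1 ≤ r) (hrn : 2 * r ≤ n)
    (h : ∀ p : ℤ[X], p ≠ 0 → ¬ Ann n (r - 1) x p) :
    LinearMap.range ((M x (n - r + 2) r).domRestrict (degreeLT ℚ (n - r + 2))) = ⊤ := by
  by_contra hne
  obtain ⟨f, hf0, hf⟩ := Submodule.exists_le_ker_of_lt_top _ (lt_top_iff_ne_top.mpr hne)
  set c : Fin r → ℚ := fun i => f fun j => if i = j then 1 else 0 with hc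
  have hfc : ∀ v : Fin r → ℚ, f v = ∑ i, c i * v i := by
    intro v
    rw [LinearMap.pi_apply_eq_sum_univ f v]
    refine Finset.sum_congr rfl fun i _ => ?_
    rw [smul_eq_mul, mul_comm]
  have hc0 : ∃ i, c i ≠ 0 := by
    by_contra hcon
    push Not at hcon
    apply hf0
    refine LinearMap.ext fun v => ?_
    rw [hfc, LinearMap.zero_apply]
    exact Finset.sum_eq_zero fun i _ => by rw [hcon i, zero_mul]
  have hcx : ∀ j : ℕ, j < n - r + 2 → ∑ i : Fin r, c i * ((x ((i : ℕ) + j) : ℤ) : ℚ) = 0 := by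
    intro j hj
    have hX : (X ^ j : ℚ[X]) ∈ degreeLT ℚ (n - r + 2) :=
      mem_lt (by rw [natDegree_X_pow]; exact hj)
    have h1 : f ((M x (n - r + 2) r).domRestrict (degreeLT ℚ (n - r + 2)) ⟨X ^ j, hX⟩) = 0 :=
      hf (LinearMap.mem_range_self _ _)
    rw [hfc] at h1
    rw [← h1]
    refine Finset.sum_congr rfl fun i _ => ?_
    rw [LinearMap.domRestrict_apply, M_apply, Finset.sum_eq_single j]
    · rw [coeff_X_pow_self, one_mul]
    · intro k _ hk
      rw [coeff_X_pow, if_neg hk, zero_mul]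
    · intro hk
      exact absurd (Finset.mem_range.mpr hj) hk
  obtain ⟨b, hb⟩ := IsLocalization.exist_integer_multiples_of_finite (nonZeroDivisors ℤ) c
  have hb0 : ((b : ℤ) : ℚ) ≠ 0 := by
    exact_mod_cast nonZeroDivisors.coe_ne_zero b
  choose z hz using hb
  have hz' : ∀ i, ((z i : ℤ) : ℚ) = ((b : ℤ) : ℚ) * c i := by
    intro i
    have := hz i
    rw [zsmul_eq_mul] at this
    exact this
  set z' : ℕ → ℤ := fun j => if hj : j < r then z ⟨j, hj⟩ else 0 with hz'def
  set P : ℤ[X] := ∑ j ∈ Finset.range r, monomial j (z' j) with hP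
  have hcoef : ∀ j, P.coeff j = z' j := by
    intro j
    rw [hP, finsetSum_coeff]
    simp only [coeff_monomial]
    rw [Finset.sum_ite_eq']
    split_ifs with hj
    · rfl
    · rw [Finset.mem_range] at hj
      simp only [hz'def, dif_neg hj]
  have hz'z : ∀ i : Fin r, z' (i : ℕ) = z i := by
    intro i
    simp only [hz'def, dif_pos i.isLt]
  refine h P ?_ ⟨?_, ?_⟩
  · intro hP0
    obtain ⟨i, hi⟩ := hc0
    apply hi
    have h1 := hcoef (i : ℕ)
    rw [hP0, coeff_zero, hz'z] at h1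
    have h2 := hz' i
    rw [← h1, Int.cast_zero] at h2
    exact (mul_eq_zero.mp h2.symm).resolve_left hb0
  · rw [natDegree_le_iff_coeff_eq_zero]
    intro N hN
    rw [hcoef]
    simp only [hz'def]
    rw [dif_neg (by omega)]
  · intro i hi
    have e : r - 1 + 1 = r := by omega
    rw [e, Finset.sum_range]
    have h1 : ((∑ j : Fin r, P.coeff (j : ℕ) * x (i + (j : ℕ)) : ℤ) : ℚ) = 0 := by
      push_cast
      have h2 : ∀ j : Fin r, ((P.coeff (j : ℕ) : ℤ) : ℚ) * ((x (i + (j : ℕ)) : ℤ) : ℚ) =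
          ((b : ℤ) : ℚ) * (c j * ((x ((j : ℕ) + i) : ℤ) : ℚ)) := by
        intro j
        rw [hcoef, hz'z, hz', add_comm i (j : ℕ)]
        ring
      rw [Finset.sum_congr rfl fun j _ => h2 j, ← Finset.mul_sum, hcx i (by omega), mul_zero]
    exact_mod_cast h1

/-- multiplication by `q` -/
private noncomputable def mu (q : ℚ[X]) (a b : ℕ) (h : ∀ g ∈ degreeLT ℚ a, q * g ∈ degreeLT ℚ b) :
    degreeLT ℚ a →ₗ[ℚ] degreeLT ℚ b :=
  LinearMap.codRestrict (degreeLT ℚ b) ((LinearMap.mulLeft ℚ q).domRestrict (degreeLT ℚ a))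
    (fun g => h g.1 g.2)

end HBk

open HBk in
/-- **HBk.** -/
theorem wHBk : S_HBk := by
  intro n r x q hr hrn hqp hq hmin p hp
  set Q : ℚ[X] := q.map (Int.castRingHom ℚ) with hQ
  have hinj : Function.Injective (Int.castRingHom ℚ) := Int.cast_injective
  have hq0 : q ≠ 0 := hqp.ne_zero
  have hQ0 : Q ≠ 0 := (Polynomial.map_ne_zero_iff hinj).mpr hq0
  have hQd : Q.natDegree ≤ r := natDegree_map_le.trans hq.1
  have hmem : ∀ g ∈ degreeLT ℚ (n - 2 * r + 2), Q * g ∈ degreeLT ℚ (n - r + 2) := by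
    intro g hg
    have h1 := lt_mem (by omega) hg
    have h2 := natDegree_mul_le (p := Q) (q := g)
    exact mem_lt (by omega)
  have hker : ∀ (g : ℚ[X]), g ∈ degreeLT ℚ (n - 2 * r + 2) → M x (n - r + 2) r (Q * g) = 0 := by
    intro g hg
    have h1 := lt_mem (by omega) hg
    funext i
    rw [M_apply, L_shift x (Q * g) (n - r + 2) (i : ℕ) (lt_mem (by omega) (hmem g hg))]
    have h2 : Q * g * X ^ (i : ℕ) =
        ∑ l ∈ Finset.range (n - 2 * r + 2), g.coeff l • (Q * X ^ ((i : ℕ) + l)) := by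
      conv_lhs => rw [g.as_sum_range_C_mul_X_pow' h1]
      rw [Finset.mul_sum, Finset.sum_mul]
      refine Finset.sum_congr rfl fun l _ => ?_
      rw [smul_eq_C_mul, pow_add]
      ring
    rw [h2, map_sum, Pi.zero_apply]
    refine Finset.sum_eq_zero fun l hl => ?_
    have hl' := Finset.mem_range.mp hl
    have hi := i.isLt
    rw [map_smul, ← L_shift x Q (r + 1) ((i : ℕ) + l) (by omega)]
    have h3 := hq.2 ((i : ℕ) + l) (by omega)
    have h4 : ∑ j ∈ Finset.range (r + 1), Q.coeff j * ((x ((i : ℕ) + l + j) : ℤ) : ℚ) = 0 := by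
      have h5 : ((∑ j ∈ Finset.range (r + 1), q.coeff j * x ((i : ℕ) + l + j) : ℤ) : ℚ) = 0 := by
        rw [h3, Int.cast_zero]
      rw [← h5]
      push_cast
      refine Finset.sum_congr rfl fun j _ => ?_
      rw [hQ, coeff_map]
      rfl
    rw [h4, smul_zero]
  set V := degreeLT ℚ (n - r + 2) with hV
  set M' := (M x (n - r + 2) r).domRestrict V with hM'
  set μ := mu Q (n - 2 * r + 2) (n - r + 2) hmem with hμ
  have hf1 := fin_lt (n - r + 2)
  have hf2 := fin_lt (n - 2 * r + 2)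
  have hle : LinearMap.range μ ≤ LinearMap.ker M' := by
    rintro _ ⟨g, rfl⟩
    rw [LinearMap.mem_ker]
    exact hker g.1 g.2
  have hμinj : Function.Injective μ := by
    intro g g' hgg
    have h1 : Q * g.1 = Q * g'.1 := congrArg Subtype.val hgg
    exact Subtype.ext (mul_left_cancel₀ hQ0 h1)
  have hd1 : Module.finrank ℚ (LinearMap.range μ) = n - 2 * r + 2 := by
    rw [LinearMap.finrank_range_of_inj hμinj, fr]
  have hd2 : Module.finrank ℚ (LinearMap.ker M') = n - 2 * r + 2 := by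
    have h1 := LinearMap.finrank_range_add_finrank_ker M'
    have h2 : LinearMap.range M' = ⊤ := surj hr hrn hmin
    have h3 : Module.finrank ℚ V = n - r + 2 := fr _
    rw [h2, finrank_top, Module.finrank_fintype_fun_eq_card, Fintype.card_fin, h3] at h1
    omega
  have heq : LinearMap.range μ = LinearMap.ker M' :=
    Submodule.eq_of_le_of_finrank_eq hle (by rw [hd1, hd2])
  -- the polynomial p
  set Pq : ℚ[X] := p.map (Int.castRingHom ℚ) with hPq
  have hPmem : Pq ∈ V := mem_lt (by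
    have h1 : Pq.natDegree ≤ p.natDegree := natDegree_map_le
    have h2 := hp.1
    omega)
  have hPker : (⟨Pq, hPmem⟩ : V) ∈ LinearMap.ker M' := by
    rw [LinearMap.mem_ker]
    funext i
    have hi := i.isLt
    rw [hM', LinearMap.domRestrict_apply, M_apply, Pi.zero_apply]
    have h3 := hp.2 (i : ℕ) (by omega)
    have e : n - r + 1 + 1 = n - r + 2 := by omega
    rw [e] at h3
    have h5 : ((∑ j ∈ Finset.range (n - r + 2), p.coeff j * x ((i : ℕ) + j) : ℤ) : ℚ) = 0 := by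
      rw [h3, Int.cast_zero]
    rw [← h5]
    push_cast
    refine Finset.sum_congr rfl fun j _ => ?_
    rw [hPq, coeff_map]
    rfl
  rw [← heq] at hPker
  obtain ⟨g, hg⟩ := hPker
  have hg1 : Q * g.1 = Pq := congrArg Subtype.val hg
  have hdvd : q ∣ p := (IsPrimitive.Int.dvd_iff_map_cast_dvd_map_cast q p hqp).mpr
    ⟨g.1, hg1.symm⟩
  obtain ⟨g', hg'⟩ := hdvd
  refine ⟨g', hg', ?_⟩
  have h6 : Q * g'.map (Int.castRingHom ℚ) = Q * g.1 := by
    rw [hg1, hQ, ← Polynomial.map_mul, ← hg']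
  have h7 : g'.map (Int.castRingHom ℚ) = g.1 := mul_left_cancel₀ hQ0 h6
  have h8 := lt_mem (by omega) g.2
  rw [← h7, natDegree_map_eq_of_injective hinj] at h8
  omega

end Pool.Agent.MP211W
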