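import Pool.Agent.Lib.MP_211f72_nt.W.SpecB

/-!
# MP_211f72_nt, third theorem: the recurrence of a near point
-/

set_option autoImplicit false

namespace Pool.Agent.MP211W

namespace Hank

open Matrix

/-- If all maximal minors of an integer matrix vanish, then its kernel is not trivial. -/
theorem ker_of_minors {N r : ℕ} (A : Matrix (Fin N) (Fin r) ℤ)
    (h : ∀ s : Fin r → Fin N, (Matrix.of fun k l : Fin r => A (s k) l).det = 0) :
    ∃ v : Fin r → ℤ, v ≠ 0 ∧ A *ᵥ v = 0 := by
  have hdet : (Aᵀ * A).det = 0 := by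
    have e1 : (Aᵀ * A).det =
        (Matrix.detRowAlternating (n := Fin r) (R := ℤ)).toMultilinearMap
          (fun k => ∑ i : Fin N, A i k • A i) := by
      change Matrix.detRowAlternating (fun k => (Aᵀ * A) k) = Matrix.detRowAlternating _
      congr 1
      funext k l
      rw [Matrix.mul_apply, Finset.sum_apply]
      rfl
    rw [e1, MultilinearMap.map_sum]
    refine Finset.sum_eq_zero fun s _ => ?_
    rw [MultilinearMap.map_smul_univ]
    have e2 : (Matrix.detRowAlternating (n := Fin r) (R := ℤ)).toMultilinearMap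
        (fun k => A (s k)) = 0 := h s
    rw [e2, smul_zero]
  obtain ⟨v, hv, h1⟩ := Matrix.exists_mulVec_eq_zero_iff.mpr hdet
  refine ⟨v, hv, ?_⟩
  have h2 : (A *ᵥ v) ⬝ᵥ (A *ᵥ v) = 0 := by
    rw [← Matrix.mulVec_mulVec] at h1
    have h3 : v ⬝ᵥ (Aᵀ *ᵥ (A *ᵥ v)) = 0 := by
      rw [h1, dotProduct_zero]
    rw [Matrix.dotProduct_mulVec, Matrix.vecMul_transpose] at h3
    exact h3
  exact dotProduct_self_eq_zero.mp h2

end Hank

open Hank Matrix Polynomial in
theorem wHank (h1 : S_MinB) : S_Hank := by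
  intro r
  obtain ⟨C, hC, hM⟩ := h1 r
  refine ⟨C, hC, ?_⟩
  intro n Y δ ξ x hr hY hδ hδ1 hξ hξ1 hx hlt
  have hker := ker_of_minors (N := n - r + 1) (r := r + 1)
    (Matrix.of fun (i : Fin (n - r + 1)) (l : Fin (r + 1)) => x ((i : ℕ) + (l : ℕ))) (by
      intro s
      have h2 := hM n Y δ ξ x (fun k => ((s k : Fin (n - r + 1)) : ℕ)) hY hδ hδ1 hξ hξ1 hx
        (fun k => by have := (s k).2; omega)
      have h3 := h2.trans_lt hlt
      have e1 : (Matrix.of fun k l : Fin (r + 1) =>
          ((x (((s k : Fin (n - r + 1)) : ℕ) + (l : ℕ)) : ℤ) : ℝ)).det =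
          (((Matrix.of fun k l : Fin (r + 1) =>
            x (((s k : Fin (n - r + 1)) : ℕ) + (l : ℕ))).det : ℤ) : ℝ) := by
        rw [Int.cast_det]
        rfl
      rw [e1] at h3
      have h4 : |(Matrix.of fun k l : Fin (r + 1) =>
            x (((s k : Fin (n - r + 1)) : ℕ) + (l : ℕ))).det| < 1 := by exact_mod_cast h3
      exact Int.abs_lt_one_iff.mp h4)
  obtain ⟨v, hv, hAv⟩ := hker
  refine ⟨Polynomial.ofFn (r + 1) v, ?_, ?_, ?_⟩
  · intro h0
    apply hv
    funext l
    have h2 := Polynomial.ofFn_coeff_eq_val_of_lt v l.2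
    rw [h0, Polynomial.coeff_zero] at h2
    exact h2.symm
  · exact Nat.lt_succ_iff.mp (Polynomial.ofFn_natDegree_lt (by omega) v)
  · intro i hi
    have h2 := congrFun hAv (⟨i, by omega⟩ : Fin (n - r + 1))
    rw [Finset.sum_range]
    have h3 : ∀ l : Fin (r + 1), (Polynomial.ofFn (r + 1) v).coeff (l : ℕ) = v l := fun l =>
      Polynomial.ofFn_coeff_eq_val_of_lt v l.2
    simp only [h3]
    rw [Matrix.mulVec, dotProduct] at h2
    refine Eq.trans ?_ h2
    exact Finset.sum_congr rfl fun l _ => mul_comm _ _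

end Pool.Agent.MP211W
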