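import Pool.Agent.Lib.MP_211f72_nt.W.SpecD

/-!
# MP_211f72_nt, third theorem: integral bases of real quadratic fields (`IdB`)
-/

set_option autoImplicit false

namespace Pool.Agent.MP211W

open Polynomial NumberField

namespace IdB

variable {d : ℕ} {K : Type} [Field K] [NumberField K]

theorem tO_coe (Q : QF d K) (z : 𝓞 K) : ((Q.tO z : 𝓞 K) : K) = Q.τ z := rfl

/-- the trace, the difference and the norm -/
theorem tkN (Q : QF d K) (hd : Squarefree d) (h2 : 2 ≤ d) (h1 : S_QFb) (z : 𝓞 K) :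
    ∃ t k N : ℤ, t ^ 2 - k ^ 2 * d = 4 * N ∧ 2 * (z : K) = (t : K) + (k : K) * Q.sd := by
  obtain ⟨t, ht⟩ := (h1 d K Q hd h2).2.1 z
  obtain ⟨k, hk⟩ := (h1 d K Q hd h2).2.2.1 z
  have hN := (h1 d K Q hd h2).2.2.2.2 z
  refine ⟨t, k, Algebra.norm ℤ z, ?_, ?_⟩
  · have h3 : ((t ^ 2 - k ^ 2 * d : ℤ) : K) = ((4 * Algebra.norm ℤ z : ℤ) : K) := by
      push_cast
      rw [← hN, ← ht, ← Q.sq]
      linear_combination ((z : K) - Q.τ z + (k : K) * Q.sd) * hk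
    exact_mod_cast h3
  · linear_combination ht + hk

omit [NumberField K] in
theorem exists_O (x : K) (h : IsIntegral ℤ x) : ∃ ω : 𝓞 K, (ω : K) = x := ⟨⟨x, h⟩, rfl⟩

omit [NumberField K] in
theorem coe_nat (D : ℕ) : (((D : ℕ) : 𝓞 K) : K) = (D : K) := by
  rw [NumberField.RingOfIntegers.coe_eq_algebraMap, map_natCast]

omit [NumberField K] in
theorem coe_lin (m k : ℤ) (ω : 𝓞 K) :
    ((((m : ℤ) : 𝓞 K) + ((k : ℤ) : 𝓞 K) * ω : 𝓞 K) : K) = (m : K) + (k : K) * ω := by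
  rw [NumberField.RingOfIntegers.coe_eq_algebraMap, map_add, map_mul, map_intCast, map_intCast]

theorem coe_sq (Q : QF d K) (ω : 𝓞 K) :
    (((ω - Q.tO ω) ^ 2 : 𝓞 K) : K) = ((ω : K) - Q.τ ω) ^ 2 := by
  rw [NumberField.RingOfIntegers.coe_eq_algebraMap, map_pow, map_sub]
  rfl

theorem omega1 (Q : QF d K) (c : ℕ) (hc : d = 4 * c + 1) :
    ∃ ω : 𝓞 K, 2 * (ω : K) = 1 + Q.sd := by
  have h1 : IsIntegral ℤ ((1 + Q.sd) / 2) := by
    refine ⟨X ^ 2 - X - C (c : ℤ), by monicity!, ?_⟩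
    have h3 := Q.sq
    have hd' : (d : K) = 4 * (c : K) + 1 := by exact_mod_cast hc
    rw [hd'] at h3
    simp only [eval₂_sub, eval₂_pow, eval₂_X, eval₂_C]
    rw [eq_intCast, Int.cast_natCast]
    have h2 : (2 : K) ≠ 0 := two_ne_zero
    field_simp
    linear_combination h3
  obtain ⟨ω, hω⟩ := exists_O _ h1
  refine ⟨ω, ?_⟩
  rw [hω]
  have h2 : (2 : K) ≠ 0 := two_ne_zero
  field_simp

theorem omega2 (Q : QF d K) : ∃ ω : 𝓞 K, (ω : K) = Q.sd := by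
  have h1 : IsIntegral ℤ Q.sd := by
    refine IsIntegral.of_pow (n := 2) (by norm_num) ?_
    rw [Q.sq]
    exact isIntegral_natCast d
  exact exists_O _ h1

theorem dec2 : ∀ t k : ZMod 4, t ^ 2 = k ^ 2 * 2 → 2 * t = 0 ∧ 2 * k = 0 := by decide

theorem dec3 : ∀ t k : ZMod 4, t ^ 2 = k ^ 2 * 3 → 2 * t = 0 ∧ 2 * k = 0 := by decide

theorem half {t : ℤ} (h : 2 * (t : ZMod 4) = 0) : ∃ m : ℤ, t = 2 * m := by
  have h1 : ((2 * t : ℤ) : ZMod 4) = 0 := by
    push_cast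
    exact h
  rw [ZMod.intCast_zmod_eq_zero_iff_dvd] at h1
  obtain ⟨m, hm⟩ := h1
  exact ⟨m, by push_cast at hm; omega⟩

/-- the integral basis -/
theorem exists_omega (Q : QF d K) (hd : Squarefree d) (h2 : 2 ≤ d) (h1 : S_QFb) :
    ∃ (D : ℕ) (ω : 𝓞 K), (D = d ∨ D = 4 * d) ∧ (ω - Q.tO ω) ^ 2 = ((D : ℕ) : 𝓞 K) ∧
      ∀ z : 𝓞 K, ∃ m n : ℤ, z = ((m : ℤ) : 𝓞 K) + ((n : ℤ) : 𝓞 K) * ω := by
  have two : (2 : K) ≠ 0 := two_ne_zero
  have h4 : d % 4 ≠ 0 := by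
    intro h
    have h5 : 2 * 2 ∣ d := by omega
    have h6 := hd 2 h5
    rw [Nat.isUnit_iff] at h6
    omega
  by_cases hm : d % 4 = 1
  · obtain ⟨ω, hω⟩ := omega1 Q (d / 4) (by omega)
    refine ⟨d, ω, Or.inl rfl, ?_, fun z => ?_⟩
    · apply NumberField.RingOfIntegers.ext
      have h6 : 2 * Q.τ (ω : K) = 1 - Q.sd := by
        have h7 := congrArg Q.τ hω
        rw [map_mul, map_add, map_one, Q.ts, map_ofNat] at h7
        rw [h7]
        ring
      rw [coe_sq, coe_nat, ← Q.sq]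
      have h8 : (ω : K) - Q.τ ω = Q.sd := by
        have h9 : 2 * ((ω : K) - Q.τ ω) = 2 * Q.sd := by linear_combination hω - h6
        exact mul_left_cancel₀ two h9
      rw [h8]
    · obtain ⟨t, k, N, e1, e2⟩ := tkN Q hd h2 h1 z
      have e3 : Even (t - k) := by
        have h5 : Even ((t - k) * (t + k)) := by
          have h6 : (d : ℤ) = 4 * ((d / 4 : ℕ) : ℤ) + 1 := by omega
          have h7 : (t - k) * (t + k) = 2 * (2 * (N + k ^ 2 * ((d / 4 : ℕ) : ℤ))) := by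
            rw [h6] at e1
            linear_combination e1
          rw [h7]
          exact even_two_mul _
        rcases Int.even_mul.1 h5 with h6 | h6
        · exact h6
        · have h7 : t - k = (t + k) - 2 * k := by ring
          rw [h7]
          exact h6.sub (even_two_mul k)
      obtain ⟨m, hm'⟩ := e3
      refine ⟨m, k, ?_⟩
      apply NumberField.RingOfIntegers.ext
      rw [coe_lin]
      have h6 : t = k + 2 * m := by linarith
      have h7 : 2 * (z : K) = 2 * ((m : K) + (k : K) * ω) := by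
        rw [e2, h6]
        push_cast
        linear_combination (-(k : K)) * hω
      exact mul_left_cancel₀ two h7
  · obtain ⟨ω, hω⟩ := omega2 Q
    refine ⟨4 * d, ω, Or.inr rfl, ?_, fun z => ?_⟩
    · apply NumberField.RingOfIntegers.ext
      rw [coe_sq, coe_nat, hω, Q.ts]
      push_cast
      rw [← Q.sq]
      ring
    · obtain ⟨t, k, N, e1, e2⟩ := tkN Q hd h2 h1 z
      have e3 : (t : ZMod 4) ^ 2 = (k : ZMod 4) ^ 2 * ((d : ℕ) : ZMod 4) := by
        have h5 : ((t ^ 2 - k ^ 2 * d : ℤ) : ZMod 4) = ((4 * N : ℤ) : ZMod 4) := by rw [e1]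
        push_cast at h5
        have h6 : (4 : ZMod 4) = 0 := by decide
        rw [h6, zero_mul] at h5
        exact sub_eq_zero.1 h5
      have e4 : 2 * (t : ZMod 4) = 0 ∧ 2 * (k : ZMod 4) = 0 := by
        have h5 : ((d : ℕ) : ZMod 4) = ((d % 4 : ℕ) : ZMod 4) := (ZMod.natCast_mod d 4).symm
        rw [h5] at e3
        have h6 : d % 4 = 2 ∨ d % 4 = 3 := by omega
        rcases h6 with h6 | h6
        · rw [h6] at e3
          exact dec2 _ _ e3
        · rw [h6] at e3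
          exact dec3 _ _ e3
      obtain ⟨m, rfl⟩ := half e4.1
      obtain ⟨n, rfl⟩ := half e4.2
      refine ⟨m, n, ?_⟩
      apply NumberField.RingOfIntegers.ext
      rw [coe_lin, hω]
      have h7 : 2 * (z : K) = 2 * ((m : K) + (n : K) * Q.sd) := by
        rw [e2]
        push_cast
        ring
      exact mul_left_cancel₀ two h7

end IdB

open IdB in
theorem wIdB (h1 : S_QFb) : S_IdB := by
  intro d K _ _ Q hd h2
  obtain ⟨D, ω, hD, hsq, hz⟩ := exists_omega Q hd h2 h1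
  have htt : Q.tO (Q.tO ω) = ω := by
    apply NumberField.RingOfIntegers.ext
    rw [tO_coe, tO_coe, Q.tt]
  have hD0 : D ≠ 0 := by omega
  have hrD : ω - Q.tO ω ≠ 0 := by
    intro h
    rw [h] at hsq
    have h3 : ((D : ℕ) : 𝓞 K) = 0 := by rw [← hsq]; ring
    exact hD0 (by exact_mod_cast h3)
  have htz : ∀ m n : ℤ, Q.tO (((m : ℤ) : 𝓞 K) + ((n : ℤ) : 𝓞 K) * ω) =
      ((m : ℤ) : 𝓞 K) + ((n : ℤ) : 𝓞 K) * Q.tO ω := by
    intro m n
    rw [map_add, map_mul, map_intCast, map_intCast]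
  refine ⟨D, ω - Q.tO ω, ⟨hD, hsq, ?_, fun z => ?_⟩, fun I hI => ?_⟩
  · rw [map_sub, htt]
    ring
  · obtain ⟨m, n, rfl⟩ := hz z
    exact ⟨n, by rw [htz]; ring⟩
  · -- the basis
    have hind : LinearIndependent ℤ (![1, ω] : Fin 2 → 𝓞 K) := by
      rw [LinearIndependent.pair_iff]
      intro m n h
      rw [zsmul_eq_mul, zsmul_eq_mul, mul_one] at h
      have h3 : ((n : ℤ) : 𝓞 K) * (ω - Q.tO ω) = 0 := by
        have h4 := congrArg Q.tO h
        rw [htz, map_zero] at h4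
        linear_combination h - h4
      have h5 : n = 0 := by
        rcases mul_eq_zero.1 h3 with h6 | h6
        · exact_mod_cast h6
        · exact absurd h6 hrD
      subst h5
      rw [Int.cast_zero, zero_mul, add_zero] at h
      exact ⟨by exact_mod_cast h, rfl⟩
    have hspan : ⊤ ≤ Submodule.span ℤ (Set.range (![1, ω] : Fin 2 → 𝓞 K)) := by
      intro z _
      obtain ⟨m, n, rfl⟩ := hz z
      have h3 : ((m : ℤ) : 𝓞 K) + ((n : ℤ) : 𝓞 K) * ω = m • (1 : 𝓞 K) + n • ω := by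
        rw [zsmul_eq_mul, zsmul_eq_mul, mul_one]
      rw [h3]
      refine Submodule.add_mem _ (Submodule.smul_mem _ _ ?_) (Submodule.smul_mem _ _ ?_)
      · exact Submodule.subset_span ⟨0, rfl⟩
      · exact Submodule.subset_span ⟨1, rfl⟩
    let b : Module.Basis (Fin 2) ℤ (𝓞 K) := Module.Basis.mk hind hspan
    have hb : ∀ z : 𝓞 K, z = ((b.repr z 0 : ℤ) : 𝓞 K) + ((b.repr z 1 : ℤ) : 𝓞 K) * ω := by
      intro z
      have h3 := b.sum_repr z
      rw [Fin.sum_univ_two] at h3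
      have h4 : b 0 = 1 := by simp [b]
      have h5 : b 1 = ω := by simp [b]
      rw [h4, h5, zsmul_eq_mul, zsmul_eq_mul, mul_one] at h3
      exact h3.symm
    let bI := Ideal.selfBasis b I hI
    have hdet := Ideal.natAbs_det_basis_change b I bI
    rw [Module.Basis.det_apply, Matrix.det_fin_two] at hdet
    simp only [Module.Basis.toMatrix_apply, Function.comp_apply] at hdet
    have hmem : ∀ z : 𝓞 K, z ∈ I ↔ ∃ m n : ℤ, z = ((m : ℤ) : 𝓞 K) * (bI 0 : 𝓞 K) +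
        ((n : ℤ) : 𝓞 K) * (bI 1 : 𝓞 K) := by
      intro z
      constructor
      · intro hz
        have h3 := bI.sum_repr ⟨z, hz⟩
        rw [Fin.sum_univ_two] at h3
        have h4 := congrArg Subtype.val h3
        refine ⟨bI.repr ⟨z, hz⟩ 0, bI.repr ⟨z, hz⟩ 1, ?_⟩
        rw [← zsmul_eq_mul, ← zsmul_eq_mul]
        exact h4.symm
      · rintro ⟨m, n, rfl⟩
        exact I.add_mem (I.mul_mem_left _ (bI 0).2) (I.mul_mem_left _ (bI 1).2)
    set a1 := b.repr (bI 0 : 𝓞 K) 0 with ha1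
    set a2 := b.repr (bI 0 : 𝓞 K) 1 with ha2
    set b1 := b.repr (bI 1 : 𝓞 K) 0 with hb1
    set b2 := b.repr (bI 1 : 𝓞 K) 1 with hb2
    have hα : (bI 0 : 𝓞 K) = ((a1 : ℤ) : 𝓞 K) + ((a2 : ℤ) : 𝓞 K) * ω := hb _
    have hβ : (bI 1 : 𝓞 K) = ((b1 : ℤ) : 𝓞 K) + ((b2 : ℤ) : 𝓞 K) * ω := hb _
    have hα' : Q.tO (bI 0 : 𝓞 K) = ((a1 : ℤ) : 𝓞 K) + ((a2 : ℤ) : 𝓞 K) * Q.tO ω := by
      conv_lhs => rw [hα]
      exact htz _ _
    have hβ' : Q.tO (bI 1 : 𝓞 K) = ((b1 : ℤ) : 𝓞 K) + ((b2 : ℤ) : 𝓞 K) * Q.tO ω := by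
      conv_lhs => rw [hβ]
      exact htz _ _
    have key : (bI 0 : 𝓞 K) * Q.tO (bI 1 : 𝓞 K) - Q.tO (bI 0 : 𝓞 K) * (bI 1 : 𝓞 K) =
        ((-(a1 * b2 - b1 * a2) : ℤ) : 𝓞 K) * (ω - Q.tO ω) := by
      rw [hα', hβ']
      conv_lhs => rw [hα, hβ]
      push_cast
      ring
    rcases Int.natAbs_eq (a1 * b2 - b1 * a2) with h3 | h3
    · refine ⟨(bI 1 : 𝓞 K), (bI 0 : 𝓞 K), fun z => ?_, ?_⟩
      · rw [hmem]
        constructor
        · rintro ⟨m, n, h⟩
          exact ⟨n, m, by rw [h, add_comm]⟩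
        · rintro ⟨m, n, h⟩
          exact ⟨n, m, by rw [h, add_comm]⟩
      · have h4 : ((Ideal.absNorm I : ℕ) : 𝓞 K) = ((a1 * b2 - b1 * a2 : ℤ) : 𝓞 K) := by
          rw [h3, ← hdet, Int.cast_natCast]
        rw [h4]
        have h5 : (bI 1 : 𝓞 K) * Q.tO (bI 0 : 𝓞 K) - Q.tO (bI 1 : 𝓞 K) * (bI 0 : 𝓞 K) =
            -((bI 0 : 𝓞 K) * Q.tO (bI 1 : 𝓞 K) - Q.tO (bI 0 : 𝓞 K) * (bI 1 : 𝓞 K)) := by ring
        rw [h5, key]
        push_cast
        ring
    · refine ⟨(bI 0 : 𝓞 K), (bI 1 : 𝓞 K), hmem, ?_⟩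
      have h4 : ((Ideal.absNorm I : ℕ) : 𝓞 K) = ((-(a1 * b2 - b1 * a2) : ℤ) : 𝓞 K) := by
        rw [h3, neg_neg, ← hdet, Int.cast_natCast]
      rw [h4, key]

end Pool.Agent.MP211W
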