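import Pool.Agent.Lib.MP_211f72_nt.W.SpecE
import Pool.Agent.Lib.MP_640417_ag.All.Divisor

/-!
# MP_211f72_nt, W: number of ideals of bounded norm (helper18)
-/

set_option autoImplicit false

namespace Pool.Agent.MP211W

open Polynomial NumberField

namespace IdCnt

/-- the sum of the squares of the numbers of divisors -/
private theorem sum_div {ε Cη M : ℝ} (hε : 0 < ε) (hM : 0 ≤ M)
    (hη : ∀ m : ℕ, 0 < m → (m.divisors.card : ℝ) ≤ Cη * (m : ℝ) ^ (ε / 2)) :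
    ∑ m ∈ Finset.Icc 1 ⌊M⌋₊, (m.divisors.card : ℝ) ^ 2 ≤ M * (Cη ^ 2 * M ^ ε) := by
  have h1 : ∀ m ∈ Finset.Icc 1 ⌊M⌋₊, (m.divisors.card : ℝ) ^ 2 ≤ Cη ^ 2 * M ^ ε := by
    intro m hm
    rw [Finset.mem_Icc] at hm
    have hm0 : (0 : ℝ) ≤ m := Nat.cast_nonneg m
    have hmM : (m : ℝ) ≤ M := by
      have : (m : ℝ) ≤ (⌊M⌋₊ : ℝ) := by exact_mod_cast hm.2
      exact this.trans (Nat.floor_le hM)
    have h2 := pow_le_pow_left₀ (Nat.cast_nonneg _) (hη m (by omega)) 2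
    refine h2.trans ?_
    rw [mul_pow]
    refine mul_le_mul_of_nonneg_left ?_ (sq_nonneg _)
    have h3 : ((m : ℝ) ^ (ε / 2)) ^ 2 = (m : ℝ) ^ ε := by
      rw [← Real.rpow_natCast, ← Real.rpow_mul hm0]
      congr 1
      push_cast
      ring
    rw [h3]
    exact Real.rpow_le_rpow hm0 hmM hε.le
  calc ∑ m ∈ Finset.Icc 1 ⌊M⌋₊, (m.divisors.card : ℝ) ^ 2
      ≤ ∑ _m ∈ Finset.Icc 1 ⌊M⌋₊, Cη ^ 2 * M ^ ε := Finset.sum_le_sum h1
    _ = (⌊M⌋₊ : ℝ) * (Cη ^ 2 * M ^ ε) := by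
        rw [Finset.sum_const, Nat.card_Icc, nsmul_eq_mul]
        congr 2
    _ ≤ M * (Cη ^ 2 * M ^ ε) := mul_le_mul_of_nonneg_right (Nat.floor_le hM)
        (mul_nonneg (sq_nonneg _) (Real.rpow_nonneg hM _))

end IdCnt

theorem wIdCnt (h1 : S_DivI) : S_IdCnt := by
  classical
  intro ε hε
  obtain ⟨Cη, hCη, hη⟩ := Pool.Agent.Lib.MP_640417_ag.All.divisor_bound (ε / 2) (by linarith)
  refine ⟨Cη ^ 2, by positivity, ?_⟩
  intro K _ _ hK Z S hZ hS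
  have hZ0 : 0 < Z := by linarith
  have hD : ∀ m : ℕ, ∃ D : Finset (Ideal (𝓞 K)), 1 ≤ m →
      (∀ b : Ideal (𝓞 K), b ∣ Ideal.span {((m : ℕ) : 𝓞 K)} → b ∈ D) ∧
      D.card ≤ m.divisors.card ^ 2 := by
    intro m
    by_cases hm : 1 ≤ m
    · obtain ⟨hf, hc⟩ := h1 K hK m hm
      refine ⟨hf.toFinset, fun _ => ⟨fun b hb => hf.mem_toFinset.2 hb, ?_⟩⟩
      rw [← Set.ncard_eq_toFinset_card _ hf]
      exact hc
    · exact ⟨∅, fun h => absurd h hm⟩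
  choose D hD using hD
  have hsub : S ⊆ (Finset.Icc 1 ⌊Z⌋₊).biUnion D := by
    intro b hb
    obtain ⟨hb0, hbZ⟩ := hS b hb
    have hn0 : Ideal.absNorm b ≠ 0 := fun h => hb0 (Ideal.absNorm_eq_zero_iff.1 h)
    have hn1 : 1 ≤ Ideal.absNorm b := Nat.pos_of_ne_zero hn0
    refine Finset.mem_biUnion.2 ⟨Ideal.absNorm b, Finset.mem_Icc.2 ⟨hn1, Nat.le_floor hbZ⟩, ?_⟩
    refine (hD _ hn1).1 b ?_
    rw [Ideal.dvd_iff_le, Ideal.span_singleton_le_iff_mem]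
    exact Ideal.absNorm_mem b
  have hcard : S.card ≤ ∑ m ∈ Finset.Icc 1 ⌊Z⌋₊, m.divisors.card ^ 2 :=
    (Finset.card_le_card hsub).trans (Finset.card_biUnion_le.trans
      (Finset.sum_le_sum fun m hm => (hD m (Finset.mem_Icc.1 hm).1).2))
  have hcard' : (S.card : ℝ) ≤ ∑ m ∈ Finset.Icc 1 ⌊Z⌋₊, (m.divisors.card : ℝ) ^ 2 := by
    exact_mod_cast hcard
  refine hcard'.trans ((IdCnt.sum_div hε hZ0.le hη).trans (le_of_eq ?_))
  rw [Real.rpow_add hZ0, Real.rpow_one]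
  ring

end Pool.Agent.MP211W
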