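import Pool.Agent.Lib.MP_211f72_nt.W.SpecC
import Pool.Agent.Lib.MP_211f72_nt.V.KidsN

/-!
# MP_211f72_nt, third theorem: children around quadratic numbers (`KidsQ`)
-/

namespace Pool.Agent.MP211W

open MeasureTheory

namespace KidsQ

/-- the quadratic polynomial that is small at `ξ` -/
theorem exists_q (h1 : S_MinkG) (ξ H : ℝ) (hH : 1 ≤ H) :
    ∃ q : Qd, (q.a ≠ 0 ∨ q.b ≠ 0 ∨ q.c ≠ 0) ∧ |(q.a : ℝ)| ≤ H ∧ |(q.b : ℝ)| ≤ H ∧
      |q.ev ξ| ≤ 1 / H ^ 2 := by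
  have hH0 : 0 < H := by linarith
  obtain ⟨x, hx, hb⟩ := h1 3 !![ξ ^ 2, ξ, 1; 1, 0, 0; 0, 1, 0] ![1 / H ^ 2, H, H] (by norm_num)
    (by
      intro i
      fin_cases i
      · simp only [Fin.zero_eta, Matrix.cons_val_zero]
        positivity
      · simpa using hH0
      · simpa using hH0)
    (by
      rw [Matrix.det_fin_three]
      simp)
    (by
      rw [Matrix.det_fin_three, Fin.prod_univ_three]
      simp
      have : (H ^ 2)⁻¹ * H * H = 1 := by field_simp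
      rw [this])
  refine ⟨⟨x 0, x 1, x 2⟩, ?_, ?_, ?_, ?_⟩
  · by_contra hcon
    push Not at hcon
    obtain ⟨e1, e2, e3⟩ := hcon
    apply hx
    funext i
    fin_cases i
    · exact e1
    · exact e2
    · exact e3
  · have := hb 1
    simpa [Fin.sum_univ_three] using this
  · have := hb 2
    simpa [Fin.sum_univ_three] using this
  · have := hb 0
    simp [Fin.sum_univ_three] at this
    unfold Qd.ev
    simp only
    rw [one_div]
    refine le_trans (le_of_eq ?_) this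
    congr 1
    ring

/-- the roots -/
theorem roots (q : Qd) (ξ : ℝ) (ha : q.a ≠ 0)
    (hD : 4 * |(q.a : ℝ)| * |q.ev ξ| < |2 * (q.a : ℝ) * ξ + (q.b : ℝ)| ^ 2) :
    ∃ θ₁ θ₂ : ℝ, (∀ t : ℝ, q.ev t = q.a * (t - θ₁) * (t - θ₂)) ∧
      |ξ - θ₁| * |2 * (q.a : ℝ) * ξ + (q.b : ℝ)| ≤ 2 * |q.ev ξ| := by
  have haR : (q.a : ℝ) ≠ 0 := by exact_mod_cast ha
  set D1 : ℝ := 2 * (q.a : ℝ) * ξ + (q.b : ℝ) with hD1
  set d : ℝ := (q.b : ℝ) ^ 2 - 4 * q.a * q.c with hd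
  have hdd : D1 ^ 2 = d + 4 * q.a * q.ev ξ := by
    rw [hD1, hd, Qd.ev]
    ring
  have hd0 : 0 < d := by
    have h3 : 4 * (q.a : ℝ) * q.ev ξ ≤ 4 * |(q.a : ℝ)| * |q.ev ξ| := by
      have := le_abs_self ((q.a : ℝ) * q.ev ξ)
      rw [abs_mul] at this
      linarith
    rw [sq_abs] at hD
    linarith
  obtain ⟨σ, hσ1, hσ2⟩ : ∃ σ : ℝ, σ ^ 2 = d ∧ |D1| ≤ |D1 + σ| := by
    rcases le_total 0 D1 with h | h
    · refine ⟨Real.sqrt d, Real.sq_sqrt hd0.le, ?_⟩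
      rw [abs_of_nonneg h, abs_of_nonneg (by positivity)]
      linarith [Real.sqrt_nonneg d]
    · refine ⟨-Real.sqrt d, by rw [neg_sq]; exact Real.sq_sqrt hd0.le, ?_⟩
      have h4 := Real.sqrt_nonneg d
      rw [abs_of_nonpos h, abs_of_nonpos (by linarith)]
      linarith
  refine ⟨(-q.b + σ) / (2 * q.a), (-q.b - σ) / (2 * q.a), ?_, ?_⟩
  · intro t
    have h5 : (q.a : ℝ) * (t - (-q.b + σ) / (2 * q.a)) * (t - (-q.b - σ) / (2 * q.a)) =
        (4 * (q.a : ℝ) ^ 2 * t ^ 2 + 4 * q.a * q.b * t + (q.b ^ 2 - σ ^ 2)) / (4 * q.a) := by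
      field_simp
      ring
    rw [h5, hσ1, hd, Qd.ev]
    field_simp
    ring
  · have h6 : (ξ - (-q.b + σ) / (2 * q.a)) * (D1 + σ) = 2 * q.ev ξ := by
      have h7 : ξ - (-q.b + σ) / (2 * q.a) = (D1 - σ) / (2 * q.a) := by
        rw [hD1]
        field_simp
        ring
      have h8 : (D1 - σ) / (2 * q.a) * (D1 + σ) = (D1 ^ 2 - σ ^ 2) / (2 * q.a) := by ring
      rw [h7, h8, hσ1, hdd]
      field_simp
      ring
    calc |ξ - (-q.b + σ) / (2 * q.a)| * |D1| ≤ |ξ - (-q.b + σ) / (2 * q.a)| * |D1 + σ| := by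
          gcongr
      _ = 2 * |q.ev ξ| := by
          rw [← abs_mul, h6, abs_mul, abs_of_pos (by norm_num : (0 : ℝ) < 2)]

/-- difference of powers -/
theorem pow_diff (x y : ℝ) (hx0 : 0 ≤ x) (hx : x ≤ 1) (hy0 : 0 ≤ y) (hy : y ≤ 1) (j : ℕ) :
    |x ^ j - y ^ j| ≤ j * |x - y| := by
  induction j with
  | zero => simp
  | succ j ih =>
    have e : x ^ (j + 1) - y ^ (j + 1) = x ^ j * (x - y) + (x ^ j - y ^ j) * y := by ring
    rw [e]
    calc |x ^ j * (x - y) + (x ^ j - y ^ j) * y| ≤ |x ^ j * (x - y)| + |(x ^ j - y ^ j) * y| :=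
          abs_add_le _ _
      _ ≤ 1 * |x - y| + (j * |x - y|) * 1 := by
          rw [abs_mul, abs_mul]
          have h1 : |x ^ j| ≤ 1 := by
            rw [abs_of_nonneg (by positivity)]
            exact pow_le_one₀ hx0 hx
          have h2 : |y| ≤ 1 := by rw [abs_of_nonneg hy0]; exact hy
          gcongr
      _ = ((j + 1 : ℕ) : ℝ) * |x - y| := by push_cast; ring

/-- the point near a good `ξ` -/
theorem point (h1 : S_MinkG) (h2 : S_PtQ) (n : ℕ) (lam H ε Y δ w ρ κ : ℝ) (M : ℕ) (ξ : ℝ)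
    (hn : 5 ≤ n) (hH : 3 ≤ H) (hε2 : ε ≤ 1 / 2) (hY : 1 ≤ Y) (hδ : 0 < δ)
    (hlam : 0 < lam) (hw : w = 2 * H ^ (-3 + ε)) (hYδ : (12 * H) ^ (n - 1) ≤ Y * δ)
    (hnδ : n * δ < 1) (hκ : δ + M * w < κ) (hρ : Y * ρ ≤ δ)
    (hfin : 2 * n * δ ≤ Y ^ (-lam)) (h0 : w ≤ ξ) (h1' : ξ ≤ 1 - w)
    (hE : ξ ∉ {ξ : ℝ | 0 ≤ ξ ∧ ξ ≤ 1 ∧ ∃ q : Qd, (q.a ≠ 0 ∨ q.b ≠ 0 ∨ q.c ≠ 0) ∧
      |(q.a : ℝ)| ≤ H ∧ |(q.b : ℝ)| ≤ H ∧ |q.ev ξ| ≤ 1 / H ^ 2 ∧
      (q.a = 0 ∨ |2 * (q.a : ℝ) * ξ + (q.b : ℝ)| ≤ H ^ (1 - ε))})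
    (hE2 : ∀ m p : ℤ, m ≠ 0 → |(m : ℝ)| < M → κ < |(m : ℝ) * ξ - p|) :
    ∃ ζ, |ξ - ζ| ≤ w ∧ ∀ ξ', |ξ' - ζ| ≤ ρ → 0 ≤ ξ' → ξ' ≤ 1 →
      Pool.Agent.MP211V.GdN n lam M ξ' := by
  have hH0 : 0 < H := by linarith
  have hw0 : 0 < w := by rw [hw]; positivity
  have hY0 : 0 < Y := by linarith
  obtain ⟨q, hq0, hqa, hqb, hqe⟩ := exists_q h1 ξ H (by linarith)
  have hgood : ¬ (q.a = 0 ∨ |2 * (q.a : ℝ) * ξ + (q.b : ℝ)| ≤ H ^ (1 - ε)) := by
    intro hcon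
    exact hE ⟨by linarith, by linarith, q, hq0, hqa, hqb, hqe, hcon⟩
  push Not at hgood
  obtain ⟨ha, hder⟩ := hgood
  set D1 : ℝ := |2 * (q.a : ℝ) * ξ + (q.b : ℝ)| with hD1
  have hHe : 0 < H ^ (1 - ε) := Real.rpow_pos_of_pos hH0 _
  have hD1p : 0 < D1 := hHe.trans hder
  -- the discriminant is positive
  have hsq : H < D1 ^ 2 := by
    calc H = H ^ (1 : ℝ) := (Real.rpow_one H).symm
      _ ≤ H ^ ((1 - ε) * 2) := Real.rpow_le_rpow_of_exponent_le (by linarith) (by linarith)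
      _ = (H ^ (1 - ε)) ^ 2 := by
          rw [Real.rpow_mul hH0.le]
          norm_num
      _ < D1 ^ 2 := by gcongr
  have hae : 4 * |(q.a : ℝ)| * |q.ev ξ| < D1 ^ 2 := by
    calc 4 * |(q.a : ℝ)| * |q.ev ξ| ≤ 4 * H * (1 / H ^ 2) := by gcongr
      _ = 4 / H := by field_simp
      _ < H := by
          rw [div_lt_iff₀ hH0]
          nlinarith
      _ < D1 ^ 2 := hsq
  obtain ⟨θ₁, θ₂, hfac, hroot⟩ := roots q ξ ha hae
  rw [← hD1] at hroot
  have hθw : |ξ - θ₁| ≤ w := by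
    have h5 : w * H ^ (1 - ε) = 2 * (1 / H ^ 2) := by
      rw [hw, mul_assoc, ← Real.rpow_add hH0]
      have : -3 + ε + (1 - ε) = -(2 : ℕ) := by push_cast; ring
      rw [this, Real.rpow_neg hH0.le, Real.rpow_natCast, one_div]
    have h6 : |ξ - θ₁| * H ^ (1 - ε) ≤ w * H ^ (1 - ε) := by
      calc |ξ - θ₁| * H ^ (1 - ε) ≤ |ξ - θ₁| * D1 := by gcongr
        _ ≤ 2 * |q.ev ξ| := hroot
        _ ≤ 2 * (1 / H ^ 2) := by gcongr
        _ = w * H ^ (1 - ε) := h5.symm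
    exact le_of_mul_le_mul_right h6 hHe
  have hθw' := abs_le.mp hθw
  have hθ0 : 0 ≤ θ₁ := by linarith
  have hθ1 : θ₁ ≤ 1 := by linarith
  -- the height
  have hc : |(q.c : ℝ)| ≤ 3 * H := by
    have e : (q.c : ℝ) = q.ev ξ - q.a * ξ ^ 2 - q.b * ξ := by rw [Qd.ev]; ring
    have hξ0 : 0 ≤ ξ := by linarith
    have hξ1 : ξ ≤ 1 := by linarith
    have hξ2 : ξ ^ 2 ≤ 1 := pow_le_one₀ hξ0 hξ1
    have e1 : |(q.a : ℝ) * ξ ^ 2| ≤ H := by
      rw [abs_mul, abs_of_nonneg (by positivity : 0 ≤ ξ ^ 2)]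
      calc |(q.a : ℝ)| * ξ ^ 2 ≤ H * 1 := by gcongr
        _ = H := mul_one _
    have e2 : |(q.b : ℝ) * ξ| ≤ H := by
      rw [abs_mul, abs_of_nonneg hξ0]
      calc |(q.b : ℝ)| * ξ ≤ H * 1 := by gcongr
        _ = H := mul_one _
    have e3 : |q.ev ξ| ≤ H := by
      refine hqe.trans ?_
      rw [div_le_iff₀ (by positivity)]
      nlinarith [sq_nonneg H, mul_pos hH0 hH0]
    rw [e]
    calc |q.ev ξ - q.a * ξ ^ 2 - q.b * ξ| ≤ |q.ev ξ - q.a * ξ ^ 2| + |q.b * ξ| := abs_sub _ _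
      _ ≤ (|q.ev ξ| + |q.a * ξ ^ 2|) + |q.b * ξ| := by
          gcongr
          exact abs_sub _ _
      _ ≤ 3 * H := by linarith
  have hht : (q.ht : ℝ) ≤ 3 * H := by
    unfold Qd.ht
    push_cast
    refine max_le ?_ (max_le ?_ hc)
    · linarith
    · linarith
  have hht0 : (0 : ℝ) ≤ q.ht := by
    unfold Qd.ht
    push_cast
    exact le_max_of_le_left (abs_nonneg _)
  have hhY : (4 * (q.ht : ℝ)) ^ (n - 1) ≤ Y * δ := by
    refine le_trans ?_ hYδ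
    have : 4 * (q.ht : ℝ) ≤ 12 * H := by linarith
    gcongr
  obtain ⟨x, hx0, hxY, hx1, hxj⟩ := h2 n q θ₁ θ₂ Y δ (by omega) ha hfac
    (by rw [abs_of_nonneg hθ0]; exact hθ1) hY0 hδ hnδ hhY
  have hxp : 0 < |(x 0 : ℝ)| := abs_pos.mpr (by exact_mod_cast hx0)
  have hMx : (M : ℝ) ≤ |(x 0 : ℝ)| := by
    by_contra hcon
    rw [not_le] at hcon
    have h5 := hE2 (x 0) (x 1) hx0 hcon
    have h6 : (x 0 : ℝ) * ξ - x 1 = (x 0 : ℝ) * (ξ - θ₁) - ((x 1 : ℝ) - θ₁ * x 0) := by ring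
    have h7 : |(x 0 : ℝ) * (ξ - θ₁)| ≤ M * w := by
      rw [abs_mul]
      gcongr
    have h8 : |(x 0 : ℝ) * ξ - x 1| ≤ M * w + δ := by
      rw [h6]
      exact (abs_sub _ _).trans (add_le_add h7 hx1)
    linarith
  refine ⟨θ₁, hθw, ?_⟩
  intro ξ' hξ' h0' h1''
  refine ⟨fun j => x (j : ℕ), hMx, hx0, ?_⟩
  intro j _
  have hjn : (j : ℕ) ≤ n := Nat.lt_succ_iff.mp j.2
  have h5 := hxj (j : ℕ) hjn
  have h6 : |(x 0 : ℝ) * (ξ' ^ (j : ℕ) - θ₁ ^ (j : ℕ))| ≤ n * δ := by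
    rw [abs_mul]
    calc |(x 0 : ℝ)| * |ξ' ^ (j : ℕ) - θ₁ ^ (j : ℕ)| ≤ Y * ((j : ℕ) * |ξ' - θ₁|) := by
          have := pow_diff ξ' θ₁ h0' h1'' hθ0 hθ1 (j : ℕ)
          gcongr
      _ ≤ Y * (n * ρ) := by
          have : ((j : ℕ) : ℝ) ≤ n := by exact_mod_cast hjn
          gcongr
      _ = n * (Y * ρ) := by ring
      _ ≤ n * δ := by gcongr
  have h7 : (x 0 : ℝ) * ξ' ^ (j : ℕ) - x (j : ℕ) =
      (x 0 : ℝ) * (ξ' ^ (j : ℕ) - θ₁ ^ (j : ℕ)) + ((x 0 : ℝ) * θ₁ ^ (j : ℕ) - x (j : ℕ)) := by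
    ring
  have h8 : Y ^ (-lam) ≤ |(x 0 : ℝ)| ^ (-lam) :=
    Real.rpow_le_rpow_of_nonpos hxp hxY (by linarith)
  calc |(x 0 : ℝ) * ξ' ^ (j : ℕ) - x (j : ℕ)| ≤ n * δ + n * δ := by
        rw [h7]
        exact (abs_add_le _ _).trans (add_le_add h6 h5)
    _ = 2 * n * δ := by ring
    _ ≤ Y ^ (-lam) := hfin
    _ ≤ |(x 0 : ℝ)| ^ (-lam) := h8

/-- the numbers close to rational numbers of small denominator -/
def Sm (M : ℕ) (κ : ℝ) : Set ℝ :=
  ⋃ m ∈ Finset.Ico 1 M, ⋃ p ∈ Finset.Icc (-(M : ℤ)) (M : ℤ),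
    Set.Icc ((p : ℝ) / (m : ℝ) - κ) ((p : ℝ) / (m : ℝ) + κ)

theorem sm_vol (M : ℕ) (κ : ℝ) :
    volume (Sm M κ) ≤ ENNReal.ofReal ((M : ℝ) * ((2 * M + 1) * (2 * κ))) := by
  have h2 : ∀ m : ℕ, volume (⋃ p ∈ Finset.Icc (-(M : ℤ)) (M : ℤ),
      Set.Icc ((p : ℝ) / (m : ℝ) - κ) ((p : ℝ) / (m : ℝ) + κ)) ≤
      ENNReal.ofReal ((2 * M + 1) * (2 * κ)) := by
    intro m
    refine (measure_biUnion_finset_le _ _).trans ?_
    simp only [Real.volume_Icc]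
    rw [Finset.sum_congr rfl (fun p _ => by
      rw [show (p : ℝ) / (m : ℝ) + κ - ((p : ℝ) / (m : ℝ) - κ) = 2 * κ by ring])]
    rw [Finset.sum_const, Int.card_Icc, nsmul_eq_mul]
    have : ((M : ℤ) + 1 - -(M : ℤ)).toNat = 2 * M + 1 := by omega
    rw [this, ENNReal.ofReal_mul (p := 2 * (M : ℝ) + 1) (by positivity)]
    refine le_of_eq ?_
    congr 1
    rw [← ENNReal.ofReal_natCast]
    push_cast
    rfl
  unfold Sm
  refine (measure_biUnion_finset_le _ _).trans ?_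
  refine (Finset.sum_le_sum (fun m _ => h2 m)).trans ?_
  rw [Finset.sum_const, Nat.card_Ico, nsmul_eq_mul, ENNReal.ofReal_mul (p := (M : ℝ)) (by positivity),
    ENNReal.ofReal_natCast]
  gcongr
  exact Nat.sub_le M 1

theorem sm_avoid (M : ℕ) (κ ξ : ℝ) (hκ1 : κ ≤ 1) (h0 : 0 ≤ ξ) (h1 : ξ ≤ 1)
    (h : ξ ∉ Sm M κ) : ∀ m p : ℤ, m ≠ 0 → |(m : ℝ)| < M → κ < |(m : ℝ) * ξ - p| := by
  -- positive `m` first
  have key : ∀ m : ℕ, ∀ p : ℤ, 1 ≤ m → m < M → κ < |(m : ℝ) * ξ - p| := by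
    intro m p hm hmM
    by_contra hcon
    rw [not_lt] at hcon
    apply h
    unfold Sm
    simp only [Set.mem_iUnion]
    have hm0 : (0 : ℝ) < m := by exact_mod_cast hm
    have hm1 : (1 : ℝ) ≤ m := by exact_mod_cast hm
    have hmM' : (m : ℝ) + 1 ≤ M := by exact_mod_cast hmM
    have hc := abs_le.mp hcon
    have hmξ : (m : ℝ) * ξ ≤ m := by
      calc (m : ℝ) * ξ ≤ m * 1 := by gcongr
        _ = m := mul_one _
    have hmξ0 : 0 ≤ (m : ℝ) * ξ := by positivity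
    refine ⟨m, Finset.mem_Ico.mpr ⟨hm, hmM⟩, p, ?_, ?_⟩
    · rw [Finset.mem_Icc]
      constructor
      · have : -(M : ℝ) ≤ p := by linarith
        exact_mod_cast this
      · have : (p : ℝ) ≤ M := by linarith
        exact_mod_cast this
    · have e : |ξ - (p : ℝ) / m| ≤ κ := by
        have e1 : ξ - (p : ℝ) / m = ((m : ℝ) * ξ - p) / m := by field_simp
        rw [e1, abs_div, abs_of_pos hm0, div_le_iff₀ hm0]
        nlinarith
      have e2 := abs_le.mp e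
      constructor <;> linarith
  intro m p hm hmM
  rcases lt_or_gt_of_ne hm with hneg | hpos
  · have h3 := key m.natAbs (-p) (by omega) (by
      have : ((m.natAbs : ℕ) : ℝ) < M := by
        rw [Nat.cast_natAbs]
        push_cast
        exact hmM
      exact_mod_cast this)
    have h4 : ((m.natAbs : ℕ) : ℝ) = -(m : ℝ) := by
      rw [Nat.cast_natAbs]
      push_cast
      exact abs_of_neg (by exact_mod_cast hneg)
    rw [h4] at h3
    have h5 : -(m : ℝ) * ξ - ((-p : ℤ) : ℝ) = -((m : ℝ) * ξ - p) := by push_cast; ring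
    rw [h5, abs_neg] at h3
    exact h3
  · have h3 := key m.natAbs p (by omega) (by
      have : ((m.natAbs : ℕ) : ℝ) < M := by
        rw [Nat.cast_natAbs]
        push_cast
        exact hmM
      exact_mod_cast this)
    have h4 : ((m.natAbs : ℕ) : ℝ) = (m : ℝ) := by
      rw [Nat.cast_natAbs]
      push_cast
      exact abs_of_pos (by exact_mod_cast hpos)
    rw [h4] at h3
    exact h3

end KidsQ

open KidsQ in
/-- **KidsQ.** -/
theorem wKidsQ (h1 : S_MinkG) (h2 : S_PtQ) (h3 : S_BadQ) : S_KidsQ := by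
  intro n lam hn hl0 hl1
  refine ⟨16, by norm_num, ?_⟩
  intro u v t L M hu huv hv ht hts
  have hnr : (5 : ℝ) ≤ n := by exact_mod_cast hn
  set A : ℝ := (n : ℝ) - 1 with hA
  have hA4 : 4 ≤ A := by linarith
  have hA0 : 0 < A := by linarith
  have h1l : (0 : ℝ) < 1 + lam := by linarith
  rw [lt_div_iff₀ (by positivity)] at hts
  -- the parameters
  set f : ℝ := 3 * (1 - lam) - t * (A * (1 + lam)) with hf
  have hf0 : 0 < f := by linarith
  set κ' : ℝ := min ((1 - lam) / 2) (f / (2 * (A * t + 3))) with hκ'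
  have hκ0' : 0 < κ' := lt_min (by linarith) (by positivity)
  have hκ1' : κ' ≤ (1 - lam) / 2 := min_le_left _ _
  have hκ2' : κ' * (2 * (A * t + 3)) ≤ f := by
    have : κ' ≤ f / (2 * (A * t + 3)) := min_le_right _ _
    rwa [le_div_iff₀ (by positivity)] at this
  set lam1 : ℝ := lam + κ' with hlam1
  have hl2 : lam < lam1 := by linarith
  have hl3 : lam1 < 1 := by linarith
  have hl10 : 0 < lam1 := by linarith
  have hf1 : f / 2 ≤ 3 * (1 - lam1) - t * (A * (1 + lam1)) := by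
    have : 3 * (1 - lam1) - t * (A * (1 + lam1)) = f - κ' * (A * t + 3) := by
      rw [hlam1, hf]; ring
    rw [this]
    linarith
  set ε : ℝ := min (1 / 2) (f / 4) with hε
  have hε0 : 0 < ε := lt_min (by norm_num) (by positivity)
  have hεh : ε ≤ 1 / 2 := min_le_left _ _
  have hε2 : ε ≤ f / 4 := min_le_right _ _
  have hf2 : t * (A * (1 + lam1)) < (3 - ε) * (1 - lam1) := by
    have : ε * (1 - lam1) ≤ ε * 1 := by gcongr; linarith
    linarith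
  set α : ℝ := A / (1 - lam1) with hα
  have h1l1 : 0 < 1 - lam1 := by linarith
  have hαe : α * (1 - lam1) = A := by rw [hα]; field_simp
  have hα0 : 0 < α := by positivity
  have hα4 : 4 ≤ α := by
    have : α * (1 - lam1) ≤ α * 1 := by gcongr; linarith
    linarith
  set β : ℝ := α * (1 + lam1) * t with hβ
  have hβ0 : 0 < β := by positivity
  have hβ3 : β < 3 - ε := by
    have : β * (1 - lam1) < (3 - ε) * (1 - lam1) := by
      calc β * (1 - lam1) = t * (α * (1 - lam1) * (1 + lam1)) := by rw [hβ]; ring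
        _ = t * (A * (1 + lam1)) := by rw [hαe]
        _ < _ := hf2
    exact lt_of_mul_lt_mul_right this h1l1.le
  have hvu : 0 < v - u := by linarith
  set κ : ℝ := min 1 ((v - u) / 256 / ((M : ℝ) * (2 * M + 1) * 2 + 1)) with hκ
  have hden : (0 : ℝ) < (M : ℝ) * (2 * M + 1) * 2 + 1 := by positivity
  have hκ0 : 0 < κ := lt_min one_pos (by positivity)
  have hκ1 : κ ≤ 1 := min_le_left _ _
  have hκ2 : (M : ℝ) * ((2 * M + 1) * (2 * κ)) ≤ (v - u) / 256 := by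
    have h4 : κ ≤ (v - u) / 256 / ((M : ℝ) * (2 * M + 1) * 2 + 1) := min_le_right _ _
    rw [le_div_iff₀ hden] at h4
    linarith
  -- the bad set
  obtain ⟨H₀, hH₀⟩ := h3 ε ((v - u) / 256) hε0 (by linarith) (by positivity)
  -- large `H`
  have TY : Filter.Tendsto (fun H : ℝ => (12 * H) ^ α) Filter.atTop Filter.atTop :=
    (tendsto_rpow_atTop hα0).comp (Filter.tendsto_id.const_mul_atTop (by norm_num : (0 : ℝ) < 12))
  have Tw : Filter.Tendsto (fun H : ℝ => H ^ (-3 + ε)) Filter.atTop (nhds 0) := by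
    have h := tendsto_rpow_neg_atTop (y := -(-3 + ε)) (by linarith)
    rwa [neg_neg] at h
  have E1 : ∀ᶠ H : ℝ in Filter.atTop, 256 * H ^ (-3 + ε) < v - u := by
    have h4 := Tw.const_mul 256
    rw [mul_zero] at h4
    exact h4.eventually_lt_const hvu
  have E3 : ∀ᶠ H : ℝ in Filter.atTop, 2 * (n : ℝ) < ((12 * H) ^ α) ^ (lam1 - lam) :=
    ((tendsto_rpow_atTop (by linarith)).comp TY).eventually_gt_atTop _
  have E5 : ∀ᶠ H : ℝ in Filter.atTop,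
      ((12 * H) ^ α) ^ (-lam1) + M * (2 * H ^ (-3 + ε)) < κ := by
    have h4 := ((tendsto_rpow_neg_atTop hl10).comp TY).add
      ((Tw.const_mul 2).const_mul (M : ℝ))
    rw [mul_zero, mul_zero, add_zero] at h4
    exact h4.eventually_lt_const hκ0
  have E7 : ∀ᶠ H : ℝ in Filter.atTop, max L 1 * (32 * 12 ^ 3 / (v - u)) < H ^ (3 - ε - β) :=
    (tendsto_rpow_atTop (by linarith)).eventually_gt_atTop _
  obtain ⟨H, e1, e3, e5, e7, eB, eH⟩ := (E1.and (E3.and (E5.and (E7.and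
    ((Filter.eventually_ge_atTop H₀).and (Filter.eventually_ge_atTop 3)))))).exists
  have hH0 : 0 < H := by linarith
  have hG : (1 : ℝ) ≤ 12 * H := by linarith
  have hG0 : (0 : ℝ) < 12 * H := by linarith
  set Y : ℝ := (12 * H) ^ α with hYd
  have hY : 1 ≤ Y := Real.one_le_rpow hG hα0.le
  have hY0 : 0 < Y := by linarith
  set δ : ℝ := Y ^ (-lam1) with hδd
  have hδ : 0 < δ := Real.rpow_pos_of_pos hY0 _
  set w : ℝ := 2 * H ^ (-3 + ε) with hwd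
  have hw : 0 < w := by positivity
  set ρ : ℝ := Y ^ (-1 - lam1) with hρd
  have hρ : 0 < ρ := Real.rpow_pos_of_pos hY0 _
  have hYρ : Y * ρ = δ := by
    rw [hρd, hδd]
    conv_lhs => rw [← Real.rpow_one Y, ← Real.rpow_mul hY0.le, ← Real.rpow_add hY0]
    congr 1
    ring
  have hYδ : Y * δ = (12 * H) ^ (n - 1) := by
    have h4 : Y * δ = Y ^ (1 - lam1) := by
      rw [hδd]
      conv_lhs => rw [← Real.rpow_one Y, ← Real.rpow_mul hY0.le, ← Real.rpow_add hY0]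
      congr 1
      ring
    rw [h4, hYd, ← Real.rpow_mul hG0.le, hαe, ← Real.rpow_natCast, Nat.cast_sub (by omega)]
    rw [hA]
    norm_num
  have hfin : 2 * n * δ ≤ Y ^ (-lam) := by
    have h4 : Y ^ (-lam) = Y ^ (lam1 - lam) * δ := by
      rw [hδd, ← Real.rpow_add hY0]
      congr 1
      ring
    rw [h4]
    gcongr
  have hnδ : n * δ < 1 := by
    have h4 : Y ^ (-lam) ≤ 1 := Real.rpow_le_one_of_one_le_of_nonpos hY (by linarith)
    have h5 : 0 < n * δ := by positivity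
    linarith
  have hρw : 4 * ρ < w := by
    have h4 : ρ ≤ H ^ (-(4 : ℝ)) := by
      calc ρ = (12 * H) ^ (α * (-1 - lam1)) := by rw [hρd, hYd, ← Real.rpow_mul hG0.le]
        _ ≤ (12 * H) ^ (-(4 : ℝ)) := by
            refine Real.rpow_le_rpow_of_exponent_le hG ?_
            have : 0 ≤ α * lam1 := by positivity
            linarith
        _ ≤ H ^ (-(4 : ℝ)) := Real.rpow_le_rpow_of_nonpos hH0 (by linarith) (by norm_num)
    have h5 : H ^ (-3 + ε) = H ^ (1 + ε) * H ^ (-(4 : ℝ)) := by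
      rw [← Real.rpow_add hH0]
      congr 1
      ring
    have h6 : 2 < H ^ (1 + ε) := by
      calc (2 : ℝ) < H := by linarith
        _ = H ^ (1 : ℝ) := (Real.rpow_one H).symm
        _ ≤ H ^ (1 + ε) := Real.rpow_le_rpow_of_exponent_le (by linarith) (by linarith)
    have h7 : 0 < H ^ (-(4 : ℝ)) := Real.rpow_pos_of_pos hH0 _
    calc 4 * ρ ≤ 2 * (2 * H ^ (-(4 : ℝ))) := by linarith
      _ < 2 * (H ^ (1 + ε) * H ^ (-(4 : ℝ))) := by gcongr
      _ = w := by rw [hwd, h5]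
  have huv' : v - (v - u) / 4 - (u + (v - u) / 4) = (v - u) / 2 := by ring
  set E : Set ℝ := {ξ : ℝ | 0 ≤ ξ ∧ ξ ≤ 1 ∧ ∃ q : Qd, (q.a ≠ 0 ∨ q.b ≠ 0 ∨ q.c ≠ 0) ∧
    |(q.a : ℝ)| ≤ H ∧ |(q.b : ℝ)| ≤ H ∧ |q.ev ξ| ≤ 1 / H ^ 2 ∧
    (q.a = 0 ∨ |2 * (q.a : ℝ) * ξ + (q.b : ℝ)| ≤ H ^ (1 - ε))} with hE
  have hEv : volume (E ∪ Sm M κ) ≤
      ENNReal.ofReal ((v - (v - u) / 4 - (u + (v - u) / 4)) / 64) := by
    rw [huv']
    refine (measure_union_le _ _).trans ?_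
    refine (add_le_add (hH₀ H eB) ((sm_vol M κ).trans (ENNReal.ofReal_le_ofReal hκ2))).trans ?_
    rw [← ENNReal.ofReal_add (by positivity) (by positivity)]
    refine ENNReal.ofReal_le_ofReal ?_
    linarith
  have h64 : 64 * w ≤ (v - u) / 2 := by rw [hwd]; linarith
  obtain ⟨Z, hZ1, hZ2, hZ3⟩ := MP_211f72_nt.kidsMink_grid (u + (v - u) / 4) (v - (v - u) / 4)
    w hw (by rw [huv']; exact h64) (E ∪ Sm M κ) hEv
    (fun ζ => ∀ ξ', |ξ' - ζ| ≤ ρ → 0 ≤ ξ' → ξ' ≤ 1 → Pool.Agent.MP211V.GdN n lam M ξ') (by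
      intro ξ hξ1 hξ2 hξE
      exact point h1 h2 n lam H ε Y δ w ρ κ M ξ hn eH hεh hY hδ hl0 hwd hYδ.ge hnδ e5 hYρ.le hfin
        (by linarith) (by linarith) (fun h => hξE (Or.inl h))
        (sm_avoid M κ ξ hκ1 (by linarith) (by linarith) (fun h => hξE (Or.inr h))))
  have hkey : max L 1 ≤ (v - (v - u) / 4 - (u + (v - u) / 4)) / (8 * w) * (2 * ρ) ^ t := by
    rw [huv']
    have h4 : (12 : ℝ) ^ (-(3 : ℝ)) * H ^ (-β) ≤ (2 * ρ) ^ t := by
      calc (12 : ℝ) ^ (-(3 : ℝ)) * H ^ (-β) ≤ (12 : ℝ) ^ (-β) * H ^ (-β) := by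
            have : (12 : ℝ) ^ (-(3 : ℝ)) ≤ (12 : ℝ) ^ (-β) :=
              Real.rpow_le_rpow_of_exponent_le (by norm_num) (by linarith)
            gcongr
        _ = (12 * H) ^ (-β) := by rw [Real.mul_rpow (by norm_num) hH0.le]
        _ = ρ ^ t := by
            rw [hρd, hYd, ← Real.rpow_mul hG0.le, ← Real.rpow_mul hG0.le, hβ]
            congr 1
            ring
        _ ≤ (2 * ρ) ^ t := Real.rpow_le_rpow hρ.le (by linarith) ht.le
    have h5 : (12 : ℝ) ^ (-(3 : ℝ)) = 1 / 12 ^ 3 := by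
      rw [Real.rpow_neg (by norm_num)]
      norm_num
    have h6 : H ^ (3 - ε - β) = (H ^ (-3 + ε))⁻¹ * H ^ (-β) := by
      rw [← Real.rpow_neg hH0.le, ← Real.rpow_add hH0]
      congr 1
      ring
    have h7 : max L 1 = (v - u) / (32 * 12 ^ 3) * (max L 1 * (32 * 12 ^ 3 / (v - u))) := by
      field_simp
    calc max L 1 = (v - u) / (32 * 12 ^ 3) * (max L 1 * (32 * 12 ^ 3 / (v - u))) := h7
      _ ≤ (v - u) / (32 * 12 ^ 3) * H ^ (3 - ε - β) := by gcongr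
      _ = (v - u) / 2 / (8 * w) * (1 / 12 ^ 3 * H ^ (-β)) := by
          rw [h6, hwd]
          field_simp
          norm_num
      _ ≤ (v - u) / 2 / (8 * w) * (2 * ρ) ^ t := by
          rw [h5] at h4
          gcongr
  refine Pool.Agent.MP211V.kidsN_half (Pool.Agent.MP211V.GdN n lam M) u v t L huv ?_
  refine MP_211f72_nt.kidsMink_build (Pool.Agent.MP211V.GdN n lam M) (u + (v - u) / 4)
    (v - (v - u) / 4) t L w ρ (by linarith) ht hw hρ hρw Z ?_ hZ2 hZ3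
    ((le_max_left _ _).trans hkey) ((le_max_right _ _).trans hkey)
  intro ζ hζ
  obtain ⟨h4, h5, h6⟩ := hZ1 ζ hζ
  refine ⟨h4, h5, fun ξ hξ => h6 ξ hξ ?_ ?_⟩
  · rw [abs_le] at hξ
    linarith
  · rw [abs_le] at hξ
    linarith

end Pool.Agent.MP211W
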