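import Pool.Agent.Lib.MP_211f72_nt.W.SpecC
import Pool.Agent.Lib.MP_211f72_nt.Farey

/-!
# MP_211f72_nt, third theorem: children around the rational points `(a^n, a^(n-1) b, ..., b^n)`
-/

set_option autoImplicit false

namespace Pool.Agent.MP211W

open Filter
open Pool.Agent.MP211V (GdN)

namespace KidsR

theorem frac_sep {a b a' b' : ℤ} {N : ℕ} (ha : 0 < a) (ha' : 0 < a')
    (haN : (a : ℝ) ≤ N) (haN' : (a' : ℝ) ≤ N) (hco : IsCoprime a b) (hco' : IsCoprime a' b')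
    (hne : (a, b) ≠ (a', b')) : 1 / (N : ℝ) ^ 2 ≤ |(b : ℝ) / a - b' / a'| := by
  have haR : (0 : ℝ) < a := by exact_mod_cast ha
  have haR' : (0 : ℝ) < a' := by exact_mod_cast ha'
  have hdet : b * a' - b' * a ≠ 0 := by
    intro h0
    have h1 : b * a' = b' * a := by linarith
    -- a ∣ b * a' so a ∣ a'
    have h2 : a ∣ a' := by
      apply hco.dvd_of_dvd_mul_left
      rw [h1]
      exact Dvd.intro_left b' rfl
    have h3 : a' ∣ a := by
      apply hco'.dvd_of_dvd_mul_left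
      rw [← h1]
      exact Dvd.intro_left b rfl
    have h4 : a = a' := Int.dvd_antisymm ha.le ha'.le h2 h3
    apply hne
    subst h4
    have h5 : b = b' := mul_right_cancel₀ ha.ne' h1
    rw [h5]
  have h1 : (1 : ℝ) ≤ |(b : ℝ) * a' - b' * a| := by
    have := Int.one_le_abs hdet
    exact_mod_cast this
  have h2 : (b : ℝ) / a - b' / a' = ((b : ℝ) * a' - b' * a) / (a * a') := by
    field_simp
  rw [h2, abs_div, abs_of_pos (mul_pos haR haR')]
  have h3 : (a : ℝ) * a' ≤ (N : ℝ) ^ 2 := by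
    rw [sq]
    exact mul_le_mul haN haN' haR'.le (haR.le.trans haN)
  calc 1 / (N : ℝ) ^ 2 ≤ 1 / (a * a') := one_div_le_one_div_of_le (mul_pos haR haR') h3
    _ ≤ |(b : ℝ) * a' - b' * a| / (a * a') :=
        div_le_div_of_nonneg_right h1 (mul_pos haR haR').le


theorem pow_diff {x y : ℝ} (hx0 : 0 ≤ x) (hx1 : x ≤ 1) (hy0 : 0 ≤ y) (hy1 : y ≤ 1) (j : ℕ) :
    |x ^ j - y ^ j| ≤ j * |x - y| := by
  induction j with
  | zero => simp
  | succ j ih =>
    have h1 : x ^ (j + 1) - y ^ (j + 1) = x ^ j * (x - y) + y * (x ^ j - y ^ j) := by ring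
    rw [h1]
    refine (abs_add_le _ _).trans ?_
    rw [abs_mul, abs_mul]
    have h2 : |x ^ j| ≤ 1 := by
      rw [abs_of_nonneg (pow_nonneg hx0 j)]
      exact pow_le_one₀ hx0 hx1
    have h3 : |y| ≤ 1 := by rwa [abs_of_nonneg hy0]
    have h4 : |x ^ j| * |x - y| ≤ 1 * |x - y| := mul_le_mul_of_nonneg_right h2 (abs_nonneg _)
    have h5 : |y| * |x ^ j - y ^ j| ≤ 1 * (j * |x - y|) :=
      mul_le_mul h3 ih (abs_nonneg _) zero_le_one
    push_cast
    linarith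

theorem near {n : ℕ} (hn : 2 ≤ n) {a b : ℤ} {N : ℕ} {lam ξ : ℝ} (hlam : 0 < lam) (ha : 0 < a)
    (haN : (a : ℝ) ≤ N) (hξ0 : 0 ≤ ξ) (hξ1 : ξ ≤ 1) (hq0 : 0 ≤ (b : ℝ) / a)
    (hq1 : (b : ℝ) / a ≤ 1) (hd : |ξ - b / a| ≤ (N : ℝ) ^ (-((n : ℝ) * (1 + lam))) / n)
    (j : ℕ) (hj : j ≤ n) :
    |((a ^ n : ℤ) : ℝ) * ξ ^ j - ((a ^ (n - j) * b ^ j : ℤ) : ℝ)| ≤
      |((a ^ n : ℤ) : ℝ)| ^ (-lam) := by
  have haR : (0 : ℝ) < a := by exact_mod_cast ha
  have hNR : (0 : ℝ) < N := haR.trans_le haN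
  have hnR : (0 : ℝ) < n := by
    have : 0 < n := by omega
    exact_mod_cast this
  set q : ℝ := (b : ℝ) / a with hq
  have hb : (b : ℝ) = a * q := by rw [hq]; field_simp
  set ρ : ℝ := (N : ℝ) ^ (-((n : ℝ) * (1 + lam))) / n with hρ
  have hρ0 : 0 ≤ ρ := by positivity
  have hmain : (a : ℝ) ^ n * (n * ρ) ≤ |((a ^ n : ℤ) : ℝ)| ^ (-lam) := by
    have h1 : (n : ℝ) * ρ = (N : ℝ) ^ (-((n : ℝ) * (1 + lam))) := by
      rw [hρ]
      field_simp
    have h2 : |((a ^ n : ℤ) : ℝ)| = (a : ℝ) ^ (n : ℝ) := by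
      rw [Real.rpow_natCast, abs_of_pos (by positivity)]
      push_cast
      rfl
    rw [h1, h2, ← Real.rpow_mul haR.le]
    have h3 : (a : ℝ) ^ n ≤ (N : ℝ) ^ (n : ℝ) := by
      rw [Real.rpow_natCast]
      exact pow_le_pow_left₀ haR.le haN n
    calc (a : ℝ) ^ n * (N : ℝ) ^ (-((n : ℝ) * (1 + lam)))
        ≤ (N : ℝ) ^ (n : ℝ) * (N : ℝ) ^ (-((n : ℝ) * (1 + lam))) :=
          mul_le_mul_of_nonneg_right h3 (by positivity)
      _ = (N : ℝ) ^ ((n : ℝ) * -lam) := by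
          rw [← Real.rpow_add hNR]
          congr 1
          ring
      _ ≤ (a : ℝ) ^ ((n : ℝ) * -lam) :=
          Real.rpow_le_rpow_of_nonpos haR haN (by nlinarith)
  have hpn : (0 : ℝ) ≤ (a : ℝ) ^ n := by positivity
  have e : ((a ^ n : ℤ) : ℝ) * ξ ^ j - ((a ^ (n - j) * b ^ j : ℤ) : ℝ) =
      (a : ℝ) ^ n * (ξ ^ j - q ^ j) := by
    push_cast
    rw [hb, mul_pow]
    have h4 : (a : ℝ) ^ n = (a : ℝ) ^ (n - j) * (a : ℝ) ^ j := by
      rw [← pow_add, Nat.sub_add_cancel hj]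
    rw [mul_sub, h4]
    ring
  rw [e, abs_mul, abs_of_nonneg hpn]
  refine le_trans (mul_le_mul_of_nonneg_left ?_ hpn) hmain
  refine (pow_diff hξ0 hξ1 hq0 hq1 j).trans ?_
  have hjn : (j : ℝ) ≤ n := by exact_mod_cast hj
  exact mul_le_mul hjn hd (abs_nonneg _) hnR.le

end KidsR

open MP_211f72_nt in
theorem wKidsR : S_KidsR := by
  obtain ⟨η, c, hη, hη1, hc, hF⟩ := MP_211f72_nt.farey
  intro n lam hn hlamn
  refine ⟨2 / c, by positivity, ?_⟩
  intro u v t L M hu huv hv ht hts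
  have hn2R : (2 : ℝ) ≤ n := by exact_mod_cast hn
  have hn0R : (0 : ℝ) < n := by linarith
  have hlam : 0 < lam := lt_trans (by positivity) hlamn
  set κ : ℝ := (n : ℝ) * (1 + lam) with hκ
  have hκ4 : 3 < κ := by
    have h1 : 1 < lam * n := by
      rw [div_lt_iff₀ hn0R] at hlamn
      exact hlamn
    rw [hκ]
    nlinarith
  have hκt : 0 < 2 - κ * t := by
    have h1 : t * κ < 2 := by
      have := (lt_div_iff₀ (by linarith : (0 : ℝ) < κ)).1 hts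
      exact this
    linarith [mul_comm t κ]
  have hvu : 0 < v - u := by linarith
  set u' : ℝ := u + (v - u) / 4 with hu'
  set v' : ℝ := v - (v - u) / 4 with hv'
  have huv' : u' < v' := by rw [hu', hv']; linarith
  have hvu' : v' - u' = (v - u) / 2 := by rw [hu', hv']; ring
  obtain ⟨N₀, hN₀⟩ := hF u' v' huv'
  -- choice of N
  have hev : ∀ᶠ N : ℕ in atTop, N₀ ≤ N ∧ 5 ≤ N ∧ 4 / (v - u) ≤ (N : ℝ) ∧
      (M : ℝ) + 1 ≤ η * N ∧
      max L 1 ≤ c * ((v - u) / 2) * ((2 / n : ℝ) ^ t) * (N : ℝ) ^ (2 - κ * t) := by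
    refine (eventually_ge_atTop N₀).and ((eventually_ge_atTop 5).and
      ((tendsto_natCast_atTop_atTop.eventually_ge_atTop _).and (Eventually.and ?_ ?_)))
    · exact (tendsto_natCast_atTop_atTop.const_mul_atTop hη).eventually_ge_atTop _
    · have h1 : Tendsto (fun N : ℕ => c * ((v - u) / 2) * ((2 / n : ℝ) ^ t) *
          (N : ℝ) ^ (2 - κ * t)) atTop atTop :=
        Tendsto.const_mul_atTop (by positivity)
          ((tendsto_rpow_atTop hκt).comp tendsto_natCast_atTop_atTop)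
      exact h1.eventually_ge_atTop _
  obtain ⟨N, hNN₀, hN2, hN4, hNM, hNL⟩ := hev.exists
  obtain ⟨P, hP, hPc⟩ := hN₀ N hNN₀
  have hN2R : (5 : ℝ) ≤ N := by exact_mod_cast hN2
  have hNR : (0 : ℝ) < N := by linarith
  set ρ : ℝ := (N : ℝ) ^ (-κ) / n with hρ
  have hρ0 : 0 < ρ := by positivity
  have hNκ : (N : ℝ) ^ (-κ) ≤ 1 / (N : ℝ) ^ 3 := by
    rw [Real.rpow_neg hNR.le, ← one_div]
    apply one_div_le_one_div_of_le (by positivity)
    rw [← Real.rpow_natCast (N : ℝ) 3]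
    exact Real.rpow_le_rpow_of_exponent_le (by linarith) (by push_cast; linarith)
  have hρN : ρ ≤ (v - u) / 4 := by
    have h1 : 1 / (N : ℝ) ^ 3 ≤ 1 / N := by
      apply one_div_le_one_div_of_le hNR
      exact le_self_pow₀ (by linarith) (by norm_num)
    have h2 : 1 / (N : ℝ) ≤ (v - u) / 4 := by
      rw [div_le_div_iff₀ hNR (by norm_num)]
      have := (div_le_iff₀ hvu).1 hN4
      linarith
    rw [hρ, div_le_iff₀ hn0R]
    have h3 := hNκ.trans (h1.trans h2)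
    nlinarith
  set f : ℤ × ℤ → ℝ := fun p => (p.2 : ℝ) / p.1 - ρ with hf
  have hsep : ∀ p ∈ P, ∀ p' ∈ P, p ≠ p' → 1 / (N : ℝ) ^ 2 ≤ |f p - f p'| := by
    intro p hp p' hp' hne
    obtain ⟨_, h2, h3, h4, _, _⟩ := hP p hp
    obtain ⟨_, h2', h3', h4', _, _⟩ := hP p' hp'
    have h5 := KidsR.frac_sep (N := N) h3 h3' (by exact_mod_cast h2) (by exact_mod_cast h2') h4 h4'
      (by intro he; apply hne; exact Prod.ext (congrArg Prod.fst he) (congrArg Prod.snd he))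
    have h6 : f p - f p' = (p.2 : ℝ) / p.1 - p'.2 / p'.1 := by simp only [hf]; ring
    rw [h6]
    exact h5
  have hinj : Set.InjOn f (P : Set (ℤ × ℤ)) := by
    intro p hp p' hp' he
    by_contra hne
    have h1 := hsep p hp p' hp' hne
    rw [he, sub_self, abs_zero] at h1
    have : 0 < 1 / (N : ℝ) ^ 2 := by positivity
    linarith
  set C : Finset ℝ := P.image f with hC
  have hCcard : C.card = P.card := Finset.card_image_of_injOn hinj
  have hCc : c * ((v - u) / 2) * (N : ℝ) ^ 2 ≤ C.card := by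
    rw [hCcard, ← hvu']
    exact hPc
  have hCpos : (0 : ℝ) < C.card := lt_of_lt_of_le (by positivity) hCc
  have hfrac : ∀ p ∈ P, u' ≤ (p.2 : ℝ) / p.1 ∧ (p.2 : ℝ) / p.1 ≤ v' := by
    intro p hp
    obtain ⟨_, _, h3, _, h5, h6⟩ := hP p hp
    have h3R : (0 : ℝ) < p.1 := by exact_mod_cast h3
    exact ⟨(le_div_iff₀ h3R).2 h5, (div_le_iff₀ h3R).2 h6⟩
  have hl : (2 * ρ) ^ t = (2 / n : ℝ) ^ t * (N : ℝ) ^ (-(κ * t)) := by
    have e : 2 * ρ = (2 / n : ℝ) * (N : ℝ) ^ (-κ) := by rw [hρ]; ring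
    rw [e, Real.mul_rpow (by positivity) (by positivity), ← Real.rpow_mul hNR.le]
    congr 2
    ring
  have hLL : max L 1 ≤ C.card * (2 * ρ) ^ t := by
    calc max L 1 ≤ c * ((v - u) / 2) * ((2 / n : ℝ) ^ t) * (N : ℝ) ^ (2 - κ * t) := hNL
      _ = (c * ((v - u) / 2) * (N : ℝ) ^ 2) * (2 * ρ) ^ t := by
          have e1 : (N : ℝ) ^ (2 - κ * t) = (N : ℝ) ^ (2 : ℝ) * (N : ℝ) ^ (-(κ * t)) := by
            rw [← Real.rpow_add hNR, sub_eq_add_neg]
          have e2 : (N : ℝ) ^ (2 : ℝ) = (N : ℝ) ^ 2 := by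
            rw [← Real.rpow_natCast]
            norm_num
          rw [hl, e1, e2]
          ring
      _ ≤ C.card * (2 * ρ) ^ t := mul_le_mul_of_nonneg_right hCc (by positivity)
  refine ⟨2 * ρ, C, by positivity, ?_, ?_, ?_, (le_max_left _ _).trans hLL, ?_⟩
  · intro x hx
    obtain ⟨p, hp, rfl⟩ := Finset.mem_image.1 hx
    obtain ⟨h1, h2⟩ := hfrac p hp
    simp only [hf]
    constructor
    · rw [hu'] at h1; linarith
    · rw [hv'] at h2; linarith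
  · intro x hx ξ hξ
    obtain ⟨p, hp, rfl⟩ := Finset.mem_image.1 hx
    obtain ⟨h1, h2⟩ := hfrac p hp
    obtain ⟨g1, g2, g3, g4, g5, g6⟩ := hP p hp
    simp only [hf, Set.mem_Icc] at hξ
    have g3R : (0 : ℝ) < p.1 := by exact_mod_cast g3
    have hq0 : 0 ≤ (p.2 : ℝ) / p.1 := by rw [hu'] at h1; linarith
    have hq1 : (p.2 : ℝ) / p.1 ≤ 1 := by rw [hv'] at h2; linarith
    have hξ0 : 0 ≤ ξ := by rw [hu'] at h1; linarith [hξ.1]
    have hξ1 : ξ ≤ 1 := by rw [hv'] at h2; linarith [hξ.2]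
    have hd : |ξ - (p.2 : ℝ) / p.1| ≤ (N : ℝ) ^ (-((n : ℝ) * (1 + lam))) / n := by
      rw [← hκ, ← hρ, abs_le]
      constructor <;> linarith [hξ.1, hξ.2]
    have hnear := KidsR.near hn (N := N) hlam g3 (by exact_mod_cast g2) hξ0 hξ1 hq0 hq1 hd
    have hx0 : p.1 ^ (n - ((0 : Fin (n + 1)) : ℕ)) * p.2 ^ ((0 : Fin (n + 1)) : ℕ) = p.1 ^ n := by
      simp
    refine ⟨fun j => p.1 ^ (n - (j : ℕ)) * p.2 ^ (j : ℕ), ?_, ?_, fun j _ => ?_⟩
    · show (M : ℝ) ≤ |((p.1 ^ (n - ((0 : Fin (n + 1)) : ℕ)) *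
        p.2 ^ ((0 : Fin (n + 1)) : ℕ) : ℤ) : ℝ)|
      rw [hx0]
      have h7 : (M : ℝ) ≤ ((p.1 ^ n : ℤ) : ℝ) := by
        push_cast
        have h8 : (M : ℝ) + 1 ≤ p.1 := hNM.trans g1.le
        have h9 : (1 : ℝ) ≤ p.1 := by
          have : (0 : ℝ) ≤ M := Nat.cast_nonneg M
          linarith
        have h11 : (p.1 : ℝ) ≤ (p.1 : ℝ) ^ n := le_self_pow₀ h9 (by omega)
        linarith
      exact h7.trans (le_abs_self _)
    · show p.1 ^ (n - ((0 : Fin (n + 1)) : ℕ)) * p.2 ^ ((0 : Fin (n + 1)) : ℕ) ≠ 0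
      rw [hx0]
      exact pow_ne_zero n g3.ne'
    · show |((p.1 ^ (n - ((0 : Fin (n + 1)) : ℕ)) * p.2 ^ ((0 : Fin (n + 1)) : ℕ) : ℤ) : ℝ) *
          ξ ^ (j : ℕ) - ((p.1 ^ (n - (j : ℕ)) * p.2 ^ (j : ℕ) : ℤ) : ℝ)| ≤
        |((p.1 ^ (n - ((0 : Fin (n + 1)) : ℕ)) * p.2 ^ ((0 : Fin (n + 1)) : ℕ) : ℤ) : ℝ)| ^ (-lam)
      rw [hx0]
      exact hnear j (Nat.lt_succ_iff.mp j.2)
  · intro x hx x' hx' hne
    obtain ⟨p, hp, rfl⟩ := Finset.mem_image.1 hx
    obtain ⟨p', hp', rfl⟩ := Finset.mem_image.1 hx'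
    have h1 := hsep p hp p' hp' (fun he => hne (by rw [he]))
    refine lt_of_lt_of_le ?_ h1
    have h2 : 2 * (2 * ρ) ≤ 2 * (1 / (N : ℝ) ^ 3) := by
      have h7 : ρ ≤ (1 / (N : ℝ) ^ 3) / 2 := by
        rw [hρ, div_le_iff₀ hn0R]
        have h8 : 0 < 1 / (N : ℝ) ^ 3 := by positivity
        nlinarith
      linarith
    refine lt_of_le_of_lt h2 ?_
    have h3 : (2 : ℝ) * (1 / (N : ℝ) ^ 3) = 2 / (N : ℝ) * (1 / (N : ℝ) ^ 2) := by
      field_simp
    rw [h3]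
    have h4 : (2 : ℝ) / (N : ℝ) < 1 := by
      rw [div_lt_one hNR]
      linarith
    have h5 : (0 : ℝ) < 1 / (N : ℝ) ^ 2 := by positivity
    exact mul_lt_of_lt_one_left h5 h4
  · intro p r hr
    have hr0 : 0 < r := lt_of_lt_of_le (by positivity) hr
    have h1 := sep_card_le (C.filter fun c => p ≤ c ∧ c ≤ p + r) (1 / (N : ℝ) ^ 2) p r
      (by positivity) hr0.le ?_ ?_
    · have h2 : r / (1 / (N : ℝ) ^ 2) = r * (N : ℝ) ^ 2 := by field_simp
      rw [h2] at h1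
      refine h1.trans ?_
      rw [add_mul]
      refine add_le_add ?_ ?_
      · have h3 : (N : ℝ) ^ 2 ≤ 2 / c / (v - u) * C.card := by
          have h4 : 2 / c / (v - u) * (c * ((v - u) / 2) * (N : ℝ) ^ 2) = (N : ℝ) ^ 2 := by
            field_simp
          calc (N : ℝ) ^ 2 = 2 / c / (v - u) * (c * ((v - u) / 2) * (N : ℝ) ^ 2) := h4.symm
            _ ≤ _ := mul_le_mul_of_nonneg_left hCc (by positivity)
        calc r * (N : ℝ) ^ 2 ≤ r * (2 / c / (v - u) * C.card) := mul_le_mul_of_nonneg_left h3 hr0.le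
          _ = 2 / c * r / (v - u) * C.card := by ring
      · have h5 : (1 : ℝ) ≤ C.card * (2 * ρ) ^ t := (le_max_right _ _).trans hLL
        have h6 : (2 * ρ) ^ t ≤ r ^ t := Real.rpow_le_rpow (by positivity) hr ht.le
        calc (1 : ℝ) ≤ C.card * (2 * ρ) ^ t := h5
          _ ≤ C.card * r ^ t := mul_le_mul_of_nonneg_left h6 hCpos.le
          _ = r ^ t * C.card := mul_comm _ _
    · intro x hx y hy hxy
      obtain ⟨p1, hp1, rfl⟩ := Finset.mem_image.1 (Finset.mem_filter.1 hx).1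
      obtain ⟨p2, hp2, rfl⟩ := Finset.mem_image.1 (Finset.mem_filter.1 hy).1
      exact hsep p1 hp1 p2 hp2 (fun he => hxy (by rw [he]))
    · intro x hx
      exact (Finset.mem_filter.1 hx).2

end Pool.Agent.MP211W
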