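import Pool.Agent.Lib.MP_211f72_nt.W.SpecC

/-!
# MP_211f72_nt, third theorem: children, assembly
-/

namespace Pool.Agent.MP211W

/-- **KidsW** -/
theorem wKidsW (h1 : S_KidsR) (h2 : S_KidsQ) : S_KidsW := by
  intro n lam hn hlam
  have hn' : (4 : ℝ) ≤ (n : ℝ) := by exact_mod_cast hn
  have hlam1 : 1 / (n : ℝ) < lam := by
    refine lt_trans ?_ hlam
    rw [div_lt_div_iff₀ (by linarith) (by linarith)]
    nlinarith
  have hlam0 : 0 < lam := lt_trans (by positivity) hlam1
  by_cases hc : 3 * (1 - lam) / ((n : ℝ) - 1) ≤ 2 / (n : ℝ)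
  · have h3 := h1 n lam (by omega) hlam1
    have e : sW n lam = 2 / ((n : ℝ) * (1 + lam)) := by
      unfold sW
      rw [max_eq_left hc, div_div]
    rw [e]
    exact h3
  · push Not at hc
    have hn1 : (0 : ℝ) < (n : ℝ) - 1 := by linarith
    have hlt : lam < 1 := by
      by_contra hcon
      push Not at hcon
      have h3 : 3 * (1 - lam) / ((n : ℝ) - 1) ≤ 0 :=
        div_nonpos_of_nonpos_of_nonneg (by linarith) hn1.le
      have h4 : 0 < 2 / (n : ℝ) := by positivity
      linarith
    have hn5 : 5 ≤ n := by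
      by_contra hcon
      have h4 : n = 4 := by omega
      subst h4
      norm_num at hc hlam
      linarith
    have h3 := h2 n lam hn5 hlam0 hlt
    have e : sW n lam = 3 * (1 - lam) / (((n : ℝ) - 1) * (1 + lam)) := by
      unfold sW
      rw [max_eq_right hc.le, div_div]
    rw [e]
    exact h3

end Pool.Agent.MP211W
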