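import Pool.Agent.Lib.MP_211f72_nt.W.SpecA

/-!
# MP_211f72_nt, third theorem: points of a group of vectors in a box
-/

namespace Pool.Agent.MP211W

namespace Lat2

/-- a finite set of reals in an interval with separated elements -/
theorem sep (T : Finset ℝ) (a b δ : ℝ) (hδ : 0 < δ) (hab : a ≤ b) (h : ∀ t ∈ T, a ≤ t ∧ t ≤ b)
    (hs : ∀ t ∈ T, ∀ t' ∈ T, t ≠ t' → δ ≤ |t - t'|) : (T.card : ℝ) ≤ (b - a) / δ + 1 := by
  have h1 : T.card ≤ (Finset.range (⌊(b - a) / δ⌋₊ + 1)).card := by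
    refine Finset.card_le_card_of_injOn (fun t => ⌊(t - a) / δ⌋₊) ?_ ?_
    · intro t ht
      rw [Finset.coe_range, Set.mem_Iio, Nat.lt_succ_iff]
      refine Nat.floor_le_floor ?_
      have := (h t ht).2
      gcongr
    · intro t ht t' ht' htt
      by_contra hne
      have h2 := hs t ht t' ht' hne
      have h3 : 0 ≤ (t - a) / δ := div_nonneg (by linarith [(h t ht).1]) hδ.le
      have h4 : 0 ≤ (t' - a) / δ := div_nonneg (by linarith [(h t' ht').1]) hδ.le
      have h5 := Nat.floor_le h3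
      have h6 := Nat.lt_floor_add_one ((t - a) / δ)
      have h7 := Nat.floor_le h4
      have h8 := Nat.lt_floor_add_one ((t' - a) / δ)
      have htt' : ⌊(t - a) / δ⌋₊ = ⌊(t' - a) / δ⌋₊ := htt
      rw [htt'] at h5 h6
      have h9 : |(t - a) / δ - (t' - a) / δ| < 1 := by
        rw [abs_lt]
        constructor <;> linarith
      rw [← sub_div, abs_div, abs_of_pos hδ, div_lt_one hδ] at h9
      have h10 : t - a - (t' - a) = t - t' := by ring
      rw [h10] at h9
      linarith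
  rw [Finset.card_range] at h1
  have h2 : ((⌊(b - a) / δ⌋₊ : ℕ) : ℝ) ≤ (b - a) / δ :=
    Nat.floor_le (div_nonneg (by linarith) hδ.le)
  have h3 : (T.card : ℝ) ≤ ((⌊(b - a) / δ⌋₊ + 1 : ℕ) : ℝ) := by exact_mod_cast h1
  push_cast at h3
  linarith

theorem det2_sub (v u u' : ℝ × ℝ) : det2 v (u - u') = det2 v u - det2 v u' := by
  simp only [det2, Prod.fst_sub, Prod.snd_sub]
  ring

theorem det2_id (v u u' : ℝ × ℝ) : v.1 * det2 u u' = u.1 * det2 v u' - u'.1 * det2 v u := by
  simp only [det2]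
  ring

theorem det2_id' (v u u' : ℝ × ℝ) : v.2 * det2 u u' = u.2 * det2 v u' - u'.2 * det2 v u := by
  simp only [det2]
  ring

/-- vectors parallel to `v ≠ 0` -/
theorem par {v u : ℝ × ℝ} (hv : v ≠ 0) (h : det2 v u = 0) : ∃ t : ℝ, u = (t * v.1, t * v.2) := by
  simp only [det2] at h
  by_cases h1 : v.1 = 0
  · have h2 : v.2 ≠ 0 := fun h2 => hv (Prod.ext h1 h2)
    refine ⟨u.2 / v.2, Prod.ext ?_ ?_⟩
    · rw [h1, zero_mul, zero_sub, neg_eq_zero] at h
      have := (mul_eq_zero.mp h).resolve_left h2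
      rw [this, h1, mul_zero]
    · field_simp
  · refine ⟨u.1 / v.1, Prod.ext ?_ ?_⟩
    · field_simp
    · field_simp
      linarith

/-- the normalised norm -/
noncomputable def nm (A B : ℝ) (u : ℝ × ℝ) : ℝ := max (|u.1| / A) (|u.2| / B)

variable {A B : ℝ}

theorem nm_nonneg (hA : 0 < A) (u : ℝ × ℝ) : 0 ≤ nm A B u :=
  (div_nonneg (abs_nonneg _) hA.le).trans (le_max_left _ _)

theorem le_nm1 (hA : 0 < A) (u : ℝ × ℝ) : |u.1| ≤ A * nm A B u := by
  have h : |u.1| / A ≤ nm A B u := le_max_left _ _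
  rwa [div_le_iff₀' hA] at h

theorem le_nm2 (hB : 0 < B) (u : ℝ × ℝ) : |u.2| ≤ B * nm A B u := by
  have h : |u.2| / B ≤ nm A B u := le_max_right _ _
  rwa [div_le_iff₀' hB] at h

theorem nm_pos (hA : 0 < A) (hB : 0 < B) {u : ℝ × ℝ} (hu : u ≠ 0) : 0 < nm A B u := by
  rcases (nm_nonneg (B := B) hA u).lt_or_eq with h | h
  · exact h
  · exfalso
    have h1 := le_nm1 (B := B) hA u
    have h2 := le_nm2 (A := A) hB u
    rw [← h, mul_zero] at h1 h2
    exact hu (Prod.ext (abs_nonpos_iff.mp h1) (abs_nonpos_iff.mp h2))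

theorem det_le (hA : 0 < A) (hB : 0 < B) (u v : ℝ × ℝ) :
    |det2 u v| ≤ 2 * (A * B) * nm A B u * nm A B v := by
  have h1 := le_nm1 (B := B) hA u
  have h2 := le_nm2 (A := A) hB u
  have h3 := le_nm1 (B := B) hA v
  have h4 := le_nm2 (A := A) hB v
  have hu := nm_nonneg (B := B) hA u
  have hv := nm_nonneg (B := B) hA v
  unfold det2
  calc |u.1 * v.2 - u.2 * v.1| ≤ |u.1 * v.2| + |u.2 * v.1| := abs_sub _ _
    _ = |u.1| * |v.2| + |u.2| * |v.1| := by rw [abs_mul, abs_mul]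
    _ ≤ (A * nm A B u) * (B * nm A B v) + (B * nm A B u) * (A * nm A B v) := by
        gcongr
    _ = 2 * (A * B) * nm A B u * nm A B v := by ring

theorem nm_sub (hA : 0 < A) (hB : 0 < B) (u v : ℝ × ℝ) :
    nm A B (u - v) ≤ nm A B u + nm A B v := by
  unfold nm
  refine max_le ?_ ?_
  · calc |(u - v).1| / A ≤ (|u.1| + |v.1|) / A := by
          gcongr
          exact abs_sub _ _
      _ = |u.1| / A + |v.1| / A := add_div _ _ _
      _ ≤ _ := add_le_add (le_max_left _ _) (le_max_left _ _)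
  · calc |(u - v).2| / B ≤ (|u.2| + |v.2|) / B := by
          gcongr
          exact abs_sub _ _
      _ = |u.2| / B + |v.2| / B := add_div _ _ _
      _ ≤ _ := add_le_add (le_max_right _ _) (le_max_right _ _)

theorem nm_mul (t : ℝ) (v : ℝ × ℝ) : nm A B (t * v.1, t * v.2) = |t| * nm A B v := by
  unfold nm
  simp only [abs_mul]
  rw [mul_max_of_nonneg _ _ (abs_nonneg t), mul_div_assoc, mul_div_assoc]

/-- points on a line parallel to `v` -/
theorem line (hA : 0 < A) (hB : 0 < B) (F : Finset (ℝ × ℝ)) {v : ℝ × ℝ} (hv : v ≠ 0)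
    (h1 : ∀ u ∈ F, nm A B u ≤ 1) (h2 : ∀ u ∈ F, ∀ u' ∈ F, det2 v (u - u') = 0)
    (h3 : ∀ u ∈ F, ∀ u' ∈ F, u ≠ u' → nm A B v ≤ nm A B (u - u')) :
    (F.card : ℝ) ≤ 2 / nm A B v + 1 := by
  have hm := nm_pos hA hB hv
  -- a coordinate in which the norm of `v` is attained
  obtain ⟨g, hg1, hg2, hg3⟩ : ∃ g : ℝ × ℝ → ℝ, (∀ u, |g u| ≤ nm A B u) ∧
      (∀ u u', g u - g u' = g (u - u')) ∧ ∀ t : ℝ, |g (t * v.1, t * v.2)| = |t| * nm A B v := by
    rcases le_total (|v.2| / B) (|v.1| / A) with h | h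
    · refine ⟨fun u => u.1 / A, fun u => ?_, fun u u' => ?_, fun t => ?_⟩
      · rw [abs_div, abs_of_pos hA]
        exact le_max_left _ _
      · change u.1 / A - u'.1 / A = (u.1 - u'.1) / A
        rw [sub_div]
      · have : nm A B v = |v.1| / A := max_eq_left h
        rw [this, abs_div, abs_of_pos hA, abs_mul, mul_div_assoc]
    · refine ⟨fun u => u.2 / B, fun u => ?_, fun u u' => ?_, fun t => ?_⟩
      · rw [abs_div, abs_of_pos hB]
        exact le_max_right _ _
      · change u.2 / B - u'.2 / B = (u.2 - u'.2) / B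
        rw [sub_div]
      · have : nm A B v = |v.2| / B := max_eq_right h
        rw [this, abs_div, abs_of_pos hB, abs_mul, mul_div_assoc]
  have key : ∀ u ∈ F, ∀ u' ∈ F, |g u - g u'| = nm A B (u - u') := by
    intro u hu u' hu'
    obtain ⟨t, ht⟩ := par hv (h2 u hu u' hu')
    rw [hg2, ht, hg3, nm_mul]
  have hinj : Set.InjOn g F := by
    intro u hu u' hu' h
    by_contra hne
    have h4 := key u hu u' hu'
    rw [h, sub_self, abs_zero] at h4
    have h5 := h3 u hu u' hu' hne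
    linarith
  classical
  rw [← Finset.card_image_of_injOn hinj]
  have h6 := sep (F.image g) (-1) 1 (nm A B v) hm (by norm_num) (by
    intro t ht
    obtain ⟨u, hu, rfl⟩ := Finset.mem_image.mp ht
    have := abs_le.mp ((hg1 u).trans (h1 u hu))
    exact this) (by
    intro t ht t' ht' hne
    obtain ⟨u, hu, rfl⟩ := Finset.mem_image.mp ht
    obtain ⟨u', hu', rfl⟩ := Finset.mem_image.mp ht'
    rw [key u hu u' hu']
    exact h3 u hu u' hu' (fun h => hne (by rw [h])))
  have h7 : (1 : ℝ) - (-1) = 2 := by norm_num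
  rwa [h7] at h6

end Lat2

open Lat2 in
theorem wLat2 : S_Lat2 := by
  classical
  intro L V A B W hV hL hW hind
  obtain ⟨u₁, hu₁, u₂, hu₂, hdet⟩ := hind
  -- `A, B > 0`
  have hA : 0 < A := by
    by_contra h
    have h1 := (hW u₁ hu₁).2.1
    have h2 := (hW u₂ hu₂).2.1
    have h3 : u₁.1 = 0 := abs_nonpos_iff.mp (by linarith)
    have h4 : u₂.1 = 0 := abs_nonpos_iff.mp (by linarith)
    apply hdet
    simp [det2, h3, h4]
  have hB : 0 < B := by
    by_contra h
    have h1 := (hW u₁ hu₁).2.2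
    have h2 := (hW u₂ hu₂).2.2
    have h3 : u₁.2 = 0 := abs_nonpos_iff.mp (by linarith)
    have h4 : u₂.2 = 0 := abs_nonpos_iff.mp (by linarith)
    apply hdet
    simp [det2, h3, h4]
  have hnm : ∀ u ∈ W, nm A B u ≤ 1 := by
    intro u hu
    have h := (hW u hu).2
    exact max_le ((div_le_one hA).mpr h.1) ((div_le_one hB).mpr h.2)
  -- the shortest difference
  have hne12 : u₁ ≠ u₂ := by
    rintro rfl
    apply hdet
    simp only [det2]
    ring
  obtain ⟨p, hp, hmin⟩ := Finset.exists_min_image ((W ×ˢ W).filter (fun p => p.1 ≠ p.2))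
    (fun p => nm A B (p.1 - p.2))
    ⟨(u₁, u₂), Finset.mem_filter.mpr ⟨Finset.mem_product.mpr ⟨hu₁, hu₂⟩, hne12⟩⟩
  rw [Finset.mem_filter, Finset.mem_product] at hp
  obtain ⟨⟨hp1, hp2⟩, hpne⟩ := hp
  set v : ℝ × ℝ := p.1 - p.2 with hvdef
  have hv0 : v ≠ 0 := sub_ne_zero.mpr hpne
  have hvL : v ∈ L := L.sub_mem (hW _ hp1).1 (hW _ hp2).1
  set m : ℝ := nm A B v with hm
  have hmpos : 0 < m := nm_pos hA hB hv0
  have hm2 : m ≤ 2 := by
    have := nm_sub hA hB p.1 p.2
    have h1 := hnm _ hp1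
    have h2 := hnm _ hp2
    linarith
  have hmin' : ∀ u ∈ W, ∀ u' ∈ W, u ≠ u' → m ≤ nm A B (u - u') := by
    intro u hu u' hu' hne
    exact hmin (u, u') (Finset.mem_filter.mpr ⟨Finset.mem_product.mpr ⟨hu, hu'⟩, hne⟩)
  -- the fibres
  have hfib : ∀ c ∈ W.image (det2 v), (W.filter (fun u => det2 v u = c)).card ≤ ⌊2 / m + 1⌋₊ := by
    intro c _
    refine Nat.le_floor ?_
    refine line hA hB _ hv0 (fun u hu => hnm u (Finset.mem_filter.mp hu).1) ?_ ?_
    · intro u hu u' hu'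
      rw [det2_sub, (Finset.mem_filter.mp hu).2, (Finset.mem_filter.mp hu').2, sub_self]
    · intro u hu u' hu' hne
      exact hmin' u (Finset.mem_filter.mp hu).1 u' (Finset.mem_filter.mp hu').1 hne
  -- the values
  have hval : ((W.image (det2 v)).card : ℝ) ≤ 4 * (A * B) * m / V + 1 := by
    have h1 := sep (W.image (det2 v)) (-(2 * (A * B) * m)) (2 * (A * B) * m) V hV
      (by have : 0 ≤ 2 * (A * B) * m := by positivity
          linarith) (by
      intro t ht
      obtain ⟨u, hu, rfl⟩ := Finset.mem_image.mp ht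
      have h2 := det_le hA hB v u
      have h3 : 2 * (A * B) * nm A B v * nm A B u ≤ 2 * (A * B) * m * 1 :=
        mul_le_mul_of_nonneg_left (hnm u hu) (by positivity)
      rw [mul_one] at h3
      exact abs_le.mp (h2.trans h3)) (by
      intro t ht t' ht' hne
      obtain ⟨u, hu, rfl⟩ := Finset.mem_image.mp ht
      obtain ⟨u', hu', rfl⟩ := Finset.mem_image.mp ht'
      rw [← det2_sub]
      refine hL v hvL (u - u') (L.sub_mem (hW u hu).1 (hW u' hu').1) ?_
      rw [det2_sub]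
      exact sub_ne_zero.mpr hne)
    have h2 : (2 * (A * B) * m - -(2 * (A * B) * m)) / V = 4 * (A * B) * m / V := by ring
    rwa [h2] at h1
  have hcard := Finset.card_le_mul_card_image W _ hfib
  -- a vector not parallel to `v`
  obtain ⟨u, hu, hdu⟩ : ∃ u ∈ W, det2 v u ≠ 0 := by
    by_contra hcon
    push Not at hcon
    have e1 := hcon u₁ hu₁
    have e2 := hcon u₂ hu₂
    have e3 := det2_id v u₁ u₂
    have e4 := det2_id' v u₁ u₂
    rw [e1, e2, mul_zero, mul_zero, sub_self] at e3 e4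
    have e5 := (mul_eq_zero.mp e3).resolve_right hdet
    have e6 := (mul_eq_zero.mp e4).resolve_right hdet
    exact hv0 (Prod.ext e5 e6)
  set x : ℝ := A * B / V with hx
  have hx0 : 0 < x := by positivity
  have hxm : 1 / m ≤ 2 * x := by
    have h1 := hL v hvL u (hW u hu).1 hdu
    have h2 := det_le hA hB v u
    have h3 : 2 * (A * B) * nm A B v * nm A B u ≤ 2 * (A * B) * m * 1 :=
      mul_le_mul_of_nonneg_left (hnm u hu) (by positivity)
    have h4 : V ≤ 2 * (A * B) * m := by linarith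
    rw [div_le_iff₀ hmpos, hx]
    have h5 : 2 * (A * B / V) * m = 2 * (A * B) * m / V := by ring
    rw [h5, le_div_iff₀ hV]
    linarith
  have hx1 : 1 ≤ 2 * x := by
    have h1 := hL u₁ (hW u₁ hu₁).1 u₂ (hW u₂ hu₂).1 hdet
    have h2 := det_le hA hB u₁ u₂
    have h3 : 2 * (A * B) * nm A B u₁ * nm A B u₂ ≤ 2 * (A * B) * 1 * 1 := by
      have := hnm _ hu₁
      have := hnm _ hu₂
      have := nm_nonneg (B := B) hA u₂
      gcongr
    have h4 : V ≤ 2 * (A * B) := by linarith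
    have h5 : 2 * x = 2 * (A * B) / V := by rw [hx]; ring
    rw [h5, le_div_iff₀ hV]
    linarith
  have h7 : ((⌊2 / m + 1⌋₊ : ℕ) : ℝ) ≤ 2 / m + 1 := Nat.floor_le (by positivity)
  have h8 : (W.card : ℝ) ≤ ((⌊2 / m + 1⌋₊ : ℕ) : ℝ) * ((W.image (det2 v)).card : ℝ) := by
    exact_mod_cast hcard
  have h9 : (W.card : ℝ) ≤ (2 / m + 1) * (4 * (A * B) * m / V + 1) := by
    refine h8.trans ?_
    refine mul_le_mul h7 hval (Nat.cast_nonneg _) (by positivity)
  have h10 : (2 / m + 1) * (4 * (A * B) * m / V + 1) = 8 * x + 2 * (1 / m) + 4 * x * m + 1 := by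
    rw [hx]
    field_simp
    ring
  have h11 : 4 * x * m ≤ 4 * x * 2 := mul_le_mul_of_nonneg_left hm2 (by positivity)
  have h12 : 22 * (A * B) / V = 22 * x := by rw [hx]; ring
  rw [h12]
  rw [h10] at h9
  linarith

end Pool.Agent.MP211W
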