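import Pool.Agent.Lib.MP_211f72_nt.W.SpecB
import Pool.Agent.Lib.MP_211f72_nt.Limsup

/-!
# MP_211f72_nt, W: the upper bound for the dimension of the limsup set (`LevelW`; compare `V/Level.lean`; helper50)
-/

namespace Pool.Agent.MP211W

namespace LevelW

open Filter Topology

theorem summable_two {a : ℝ} (ha : 0 < a) :
    Summable (fun k : ℕ => ((2 : ℝ) ^ (k + 1)) ^ (-a)) := by
  have h : (fun k : ℕ => ((2 : ℝ) ^ (k + 1)) ^ (-a)) =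
      fun k : ℕ => (2 : ℝ) ^ (-a) * ((2 : ℝ) ^ (-a)) ^ k := by
    funext k
    rw [← Real.rpow_natCast, ← Real.rpow_mul (by norm_num), ← Real.rpow_natCast (_ ^ _),
      ← Real.rpow_mul (by norm_num), ← Real.rpow_add (by norm_num)]
    congr 1
    push_cast
    ring
  rw [h]
  apply Summable.mul_left
  apply summable_geometric_of_lt_one (by positivity)
  exact Real.rpow_lt_one_of_one_lt_of_neg (by norm_num) (by linarith)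

/-- extension of a point by zero -/
theorem nrW_of_nr {n : ℕ} {Y lam ξ : ℝ} {x : Fin (n + 1) → ℤ}
    (h : Pool.Agent.MP211V.Nr n Y lam ξ x) :
    NrW n Y ((Y / 2) ^ (-lam)) ξ (fun j => if hj : j < n + 1 then x ⟨j, hj⟩ else 0) := by
  obtain ⟨h1, h2, h3⟩ := h
  have h0 : (if hj : 0 < n + 1 then x ⟨0, hj⟩ else 0) = x 0 := dif_pos (Nat.succ_pos n)
  refine ⟨?_, ?_, ?_⟩
  · show Y / 2 ≤ |((if hj : 0 < n + 1 then x ⟨0, hj⟩ else 0 : ℤ) : ℝ)|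
    rw [h0]
    exact h1
  · show |((if hj : 0 < n + 1 then x ⟨0, hj⟩ else 0 : ℤ) : ℝ)| ≤ Y
    rw [h0]
    exact h2
  · intro j hj
    have hj' : j < n + 1 := Nat.lt_succ_of_le hj
    show |((if hj : 0 < n + 1 then x ⟨0, hj⟩ else 0 : ℤ) : ℝ) * ξ ^ j -
      ((if hj : j < n + 1 then x ⟨j, hj⟩ else 0 : ℤ) : ℝ)| ≤ (Y / 2) ^ (-lam)
    rw [h0, dif_pos hj']
    exact h3 ⟨j, hj'⟩

theorem main (h1 : S_ParEx) (h2 : S_RedW) : S_LevelW := by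
  intro n lam hn hn5 hlam hQ
  obtain ⟨s₀, hs0, hs01, hpar⟩ := h1 n lam hn hn5 hlam
  have htend : Tendsto (fun s' : ℝ => ENNReal.ofReal s') (𝓝[>] (sW n lam))
      (𝓝 (ENNReal.ofReal (sW n lam))) :=
    (ENNReal.continuous_ofReal.tendsto _).mono_left nhdsWithin_le_nhds
  refine ge_of_tendsto htend ?_
  filter_upwards [Ioo_mem_nhdsGT hs0] with s' hs'
  obtain ⟨hss, hs'1⟩ := hs'
  obtain ⟨R, hP⟩ := hpar s' hss hs'1.le
  obtain ⟨ε₁, C₀, Y₁, hε1, hC0, hY1, H1⟩ := h2 n R lam s' hP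
  obtain ⟨-, -, -, -, -, hs'0, hs'le, -, -, -, hq, -⟩ := hP
  obtain ⟨ε₂, Y₂, hε2, hY2, H2⟩ := hQ s' C₀ hs'0 hs'le hC0 hq
  have hex : ∀ k : ℕ, ∃ T' : Finset (ℝ × ℝ), (∀ p ∈ T', 0 ≤ p.2) ∧
      ∑ p ∈ T', p.2 ^ s' ≤ ((2 : ℝ) ^ (k + 1)) ^ (-ε₁) + ((2 : ℝ) ^ (k + 1)) ^ (-ε₂) ∧
      (max Y₁ Y₂ ≤ (2 : ℝ) ^ (k + 1) → ∀ ξ : ℝ, 0 ≤ ξ → ξ ≤ 1 → ∀ x : Fin (n + 1) → ℤ,
        Pool.Agent.MP211V.Nr n ((2 : ℝ) ^ (k + 1)) lam ξ x → ∃ p ∈ T', |ξ - p.1| ≤ p.2) := by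
    intro k
    by_cases hk : max Y₁ Y₂ ≤ (2 : ℝ) ^ (k + 1)
    · obtain ⟨T, hT1, hT2, hT3⟩ := (H1 _ ((le_max_left _ _).trans hk)).union
        (H2 _ ((le_max_right _ _).trans hk))
      refine ⟨T, hT1, hT2, fun _ ξ h0 h1' x hx => hT3 ξ ?_⟩
      by_cases hE : ξ ∈ Exc n ((2 : ℝ) ^ (k + 1)) (((2 : ℝ) ^ (k + 1) / 2) ^ (-lam)) C₀
      · exact Or.inr hE
      · exact Or.inl ⟨⟨h0, h1', _, nrW_of_nr hx⟩, hE⟩
    · exact ⟨∅, by simp, by simp; positivity, fun h => absurd h hk⟩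
  choose T hT1 hT2 hT3 using hex
  obtain ⟨k₀, hk₀⟩ := pow_unbounded_of_one_lt (max Y₁ Y₂) (by norm_num : (1 : ℝ) < 2)
  refine MP_211f72_nt.limsup s' _ T hs'0 hT1 ?_ ?_
  · refine Summable.of_nonneg_of_le (fun k => Finset.sum_nonneg fun p hp =>
      Real.rpow_nonneg (hT1 k p hp) _) hT2 ?_
    exact (summable_two hε1).add (summable_two hε2)
  · rintro ξ ⟨h0, h1', h2'⟩ K
    obtain ⟨k, hk, x, hx⟩ := h2' (max K k₀)
    refine ⟨k, le_trans (le_max_left _ _) hk, ?_⟩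
    refine hT3 k ?_ ξ h0 h1' x hx
    have h3 : (2 : ℝ) ^ k₀ ≤ 2 ^ (k + 1) :=
      pow_le_pow_right₀ (by norm_num) (by have := le_trans (le_max_right K k₀) hk; omega)
    linarith

end LevelW

theorem wLevelW (h1 : S_ParEx) (h2 : S_RedW) : S_LevelW := LevelW.main h1 h2

end Pool.Agent.MP211W
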