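import Pool.Agent.Lib.MP_211f72_nt.W.SpecC
import Pool.Agent.Lib.MP_211f72_nt.Expo
import Pool.Agent.Lib.MP_211f72_nt.Avoid
import Pool.Agent.Lib.MP_211f72_nt.ContentZero

/-!
# MP_211f72_nt, third theorem: from children to the lower bound for the exact level set (`LowerW`)
-/

namespace Pool.Agent.MP211W

open MeasureTheory MP_211f72_nt

private theorem LowerW_top {n : ℕ} {lam : ℝ} (hn : 4 ≤ n) :
    0 < max (2 / (n : ℝ)) (3 * (1 - lam) / ((n : ℝ) - 1)) := by
  have hn' : (4 : ℝ) ≤ n := by exact_mod_cast hn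
  exact lt_max_of_lt_left (by positivity)

private theorem LowerW_pos {n : ℕ} {lam : ℝ} (hn : 4 ≤ n) (h : 0 < lam) : 0 < sW n lam := by
  unfold sW
  exact div_pos (LowerW_top hn) (by linarith)

private theorem LowerW_le {n : ℕ} {lam : ℝ} (hn : 4 ≤ n) (h : 0 < lam) : sW n lam ≤ 1 := by
  have hn' : (4 : ℝ) ≤ n := by exact_mod_cast hn
  unfold sW
  rw [div_le_one (by linarith)]
  refine max_le ?_ ?_
  · rw [div_le_iff₀ (by linarith)]
    nlinarith
  · rw [div_le_iff₀ (by linarith)]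
    nlinarith

private theorem LowerW_anti {n : ℕ} {lam lam' : ℝ} (hn : 4 ≤ n) (h : 0 < lam)
    (h' : lam < lam') : sW n lam' < sW n lam := by
  have hn' : (4 : ℝ) ≤ n := by exact_mod_cast hn
  have h1 : max (2 / (n : ℝ)) (3 * (1 - lam') / ((n : ℝ) - 1)) ≤
      max (2 / (n : ℝ)) (3 * (1 - lam) / ((n : ℝ) - 1)) := by
    refine max_le_max le_rfl ?_
    exact div_le_div_of_nonneg_right (by linarith) (by linarith)
  unfold sW
  refine lt_of_le_of_lt (div_le_div_of_nonneg_right h1 (by linarith)) ?_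
  exact div_lt_div_of_pos_left (LowerW_top hn) (by linarith) (by linarith)

theorem wLowerW (h1 : Pool.Agent.MP211V.S_ExpoN) : S_LowerW := by
  intro n lam hn hlam hup hk
  have hn0 : (0 : ℝ) < n := by
    have : 0 < n := by omega
    exact_mod_cast this
  have hl0 : 0 < lam := lt_trans (by positivity) hlam
  obtain ⟨_, e2, _, _⟩ := MP_211f72_nt.expo
  obtain ⟨_, g2, g3⟩ := h1
  obtain ⟨K, hK, hkids⟩ := hk
  have hs0 := LowerW_pos hn hl0
  have hs1 := LowerW_le hn hl0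
  by_contra hcon
  rw [not_le] at hcon
  set Z : Set ℝ := {ξ : ℝ | lambdaExp n ξ = (lam : EReal)} with hZ
  let N : ℕ → Set ℝ := fun k =>
    match k with
    | 0 => Z
    | (j + 1) => {ξ : ℝ | Approx n ξ (lam + 1 / ((j : ℝ) + 1))}
  have hN : ∀ k, ∃ t : ℝ, 0 < t ∧ t < sW n lam ∧ CZ t (N k) := by
    intro k
    cases k with
    | zero => exact MP_211f72_nt.contentZero Z (sW n lam) hs0 hs1 hcon
    | succ j =>
      refine MP_211f72_nt.contentZero _ (sW n lam) hs0 hs1 ?_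
      have hj : (0 : ℝ) < 1 / ((j : ℝ) + 1) := by positivity
      have hl1 : lam < lam + 1 / ((j : ℝ) + 1) := by linarith
      refine lt_of_le_of_lt (hup (lam + 1 / ((j : ℝ) + 1)) (hlam.trans hl1)) ?_
      exact (ENNReal.ofReal_lt_ofReal_iff hs0).mpr (LowerW_anti hn hl0 hl1)
  choose τ hτ0 hτs hcz using hN
  obtain ⟨ξ, _, _, hgd, hav⟩ := MP_211f72_nt.avoid K (sW n lam) hK hs0 hs1
    (Pool.Agent.MP211V.GdN n lam) hkids N τ (fun k => ⟨hτ0 k, hτs k⟩) hcz
  have hA : Approx n ξ lam := g2 n ξ lam hgd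
  have hB : ∀ k : ℕ, ¬ Approx n ξ (lam + 1 / (k + 1)) := fun k => hav (k + 1)
  exact hav 0 (e2 n ξ lam hA hB)

end Pool.Agent.MP211W
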