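import Pool.Agent.Lib.MP_211f72_nt.W.SpecC

/-!
# MP_211f72_nt, third theorem: Minkowski's theorem on linear forms (`MinkG`)
-/

namespace Pool.Agent.MP211W

open MeasureTheory

namespace MinkG

/-- the basis of the rows of a matrix with determinant not 0 -/
private noncomputable def bas {m : ℕ} (A : Matrix (Fin (m + 1)) (Fin (m + 1)) ℝ) (hA : A.det ≠ 0) :
    Module.Basis (Fin (m + 1)) ℝ (Fin (m + 1) → ℝ) :=
  basisOfLinearIndependentOfCardEqFinrank (b := A.row)
    (Matrix.linearIndependent_rows_of_det_ne_zero (A := A) hA) (by simp)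

private theorem bas_coe {m : ℕ} (A : Matrix (Fin (m + 1)) (Fin (m + 1)) ℝ) (hA : A.det ≠ 0) :
    ⇑(bas A hA) = A.row := by
  rw [bas, coe_basisOfLinearIndependentOfCardEqFinrank]

end MinkG

open MinkG in
/-- **MinkG.** -/
theorem wMinkG : S_MinkG := by
  intro N B r hN hr hB hle
  obtain ⟨m, rfl⟩ : ∃ m, N = m + 1 := ⟨N - 1, by omega⟩
  have hA : B.transpose.det ≠ 0 := by rwa [Matrix.det_transpose]
  have hvol : volume (Set.Icc (-r) r) = 2 ^ (m + 1) * ENNReal.ofReal (∏ i, r i) := by
    rw [Real.volume_Icc_pi]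
    have h2 : ∀ i, r i - (-r) i = 2 * r i := fun i => by rw [Pi.neg_apply]; ring
    have h0 : ∀ i, 0 ≤ 2 * r i := fun i => by
      have := hr i
      positivity
    rw [Finset.prod_congr rfl (fun i _ => by rw [h2 i]),
      ← ENNReal.ofReal_prod_of_nonneg (fun i _ => h0 i), Finset.prod_mul_distrib,
      Finset.prod_const, Finset.card_univ, Fintype.card_fin,
      ENNReal.ofReal_mul (by positivity), ENNReal.ofReal_pow (by norm_num)]
    simp
  have hfund := ZSpan.isAddFundamentalDomain' (bas B.transpose hA)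
    (volume : Measure (Fin (m + 1) → ℝ))
  have hdet : volume (ZSpan.fundamentalDomain (bas B.transpose hA)) =
      ENNReal.ofReal |B.det| := by
    rw [ZSpan.volume_fundamentalDomain, bas_coe]
    have : (Matrix.of (B.transpose).row) = B.transpose := rfl
    rw [this, Matrix.det_transpose]
  have : Countable (Submodule.span ℤ (Set.range (bas B.transpose hA))).toAddSubgroup := by
    change Countable (Submodule.span ℤ (Set.range (bas B.transpose hA)))
    infer_instance
  obtain ⟨x, hx0, hxs⟩ := exists_ne_zero_mem_lattice_of_measure_mul_two_pow_le_measure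
    (s := Set.Icc (-r) r) hfund
    (fun x hx => ⟨neg_le_neg hx.2, by
      have := neg_le_neg hx.1
      rwa [neg_neg] at this⟩) (convex_Icc _ _) isCompact_Icc (by
        rw [hdet, hvol, mul_comm]
        simp only [Module.finrank_fintype_fun_eq_card, Fintype.card_fin]
        gcongr)
  have hxm : (x : Fin (m + 1) → ℝ) ∈ Submodule.span ℤ (Set.range (bas B.transpose hA)) := x.2
  rw [Submodule.mem_span_range_iff_exists_fun] at hxm
  obtain ⟨c, hc⟩ := hxm
  have hval : ∀ i, (x : Fin (m + 1) → ℝ) i = ∑ j, B i j * (c j : ℝ) := by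
    intro i
    rw [← hc, Finset.sum_apply]
    refine Finset.sum_congr rfl fun j _ => ?_
    rw [Pi.smul_apply, bas_coe]
    simp only [Matrix.row, Matrix.transpose_apply, zsmul_eq_mul]
    ring
  refine ⟨c, ?_, ?_⟩
  · intro h
    apply hx0
    apply Subtype.ext
    rw [← hc, h]
    simp
  · intro i
    rw [← hval]
    exact abs_le.mpr ⟨hxs.1 i, hxs.2 i⟩

end Pool.Agent.MP211W
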