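import Pool.Agent.Lib.MP_211f72_nt.W.SpecA

/-!
# MP_211f72_nt, W: the roots of a quadratic polynomial with a near point (`S_Near1`)
-/

set_option autoImplicit false

namespace Pool.Agent.MP211W

open Polynomial NumberField
open Pool.Agent.MP211V (rp tc Hb Sl Mx)

namespace Near1

/-- basic facts -/
theorem basic {n : ℕ} {Y δ H ξ : ℝ} {q : Qd} {x : ℕ → ℤ} (hn : 2 ≤ n) (hδ : 0 < δ)
    (hY : 100 * (H ^ 2 * δ) ≤ Y) (hq : q.Good) (hH : (q.ht : ℝ) ≤ H) (hx : NrW n Y δ ξ x)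
    (hL : LamQ n q x) :
    |(q.a : ℝ)| ≤ H ∧ |(q.b : ℝ)| ≤ H ∧ 1 ≤ H ∧ 0 < Y ∧ H * δ ≤ Y / 100 ∧ |q.ev ξ| * Y ≤ 4 * H * δ := by
  have ha : |(q.a : ℝ)| ≤ H := by
    refine le_trans ?_ hH
    have h1 : |q.a| ≤ q.ht := le_max_left _ _
    exact_mod_cast h1
  have hb : |(q.b : ℝ)| ≤ H := by
    refine le_trans ?_ hH
    have h1 : |q.b| ≤ q.ht := (le_max_left _ _).trans (le_max_right _ _)
    exact_mod_cast h1
  have h1 : (1 : ℝ) ≤ |(q.a : ℝ)| := by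
    have h2 : 1 ≤ |q.a| := Int.one_le_abs hq.1
    exact_mod_cast h2
  have hH1 : 1 ≤ H := h1.trans ha
  have hY0 : 0 < Y := lt_of_lt_of_le (by positivity) hY
  have hHδ : H * δ ≤ Y / 100 := by
    have h2 : H * δ ≤ H ^ 2 * δ := by
      have h3 : H ≤ H ^ 2 := by nlinarith
      exact mul_le_mul_of_nonneg_right h3 hδ.le
    linarith
  refine ⟨ha, hb, hH1, hY0, hHδ, ?_⟩
  obtain ⟨hx1, hx2, hx3⟩ := hx
  have e1 := hx3 1 (by omega)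
  have e2 := hx3 2 (by omega)
  have e3 := hL 0 (by omega)
  have e4 : (q.c : ℝ) * (x 0 : ℝ) + (q.b : ℝ) * (x 1 : ℝ) + (q.a : ℝ) * (x 2 : ℝ) = 0 := by
    exact_mod_cast e3
  rw [pow_one] at e1
  have e5 : (x 0 : ℝ) * q.ev ξ = (q.a : ℝ) * ((x 0 : ℝ) * ξ ^ 2 - (x 2 : ℝ)) +
      (q.b : ℝ) * ((x 0 : ℝ) * ξ - (x 1 : ℝ)) := by
    unfold Qd.ev
    linear_combination e4
  have e6 : |(x 0 : ℝ) * q.ev ξ| ≤ H * δ + H * δ := by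
    rw [e5]
    refine (abs_add_le _ _).trans (add_le_add ?_ ?_)
    · rw [abs_mul]
      exact mul_le_mul ha e2 (abs_nonneg _) (by linarith)
    · rw [abs_mul]
      exact mul_le_mul hb e1 (abs_nonneg _) (by linarith)
  rw [abs_mul] at e6
  have e7 : Y / 2 * |q.ev ξ| ≤ |(x 0 : ℝ)| * |q.ev ξ| :=
    mul_le_mul_of_nonneg_right hx1 (abs_nonneg _)
  linarith

theorem disc_pos {n : ℕ} {Y δ H ξ : ℝ} {q : Qd} {x : ℕ → ℤ} (hn : 2 ≤ n) (hδ : 0 < δ)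
    (hY : 100 * (H ^ 2 * δ) ≤ Y) (hq : q.Good) (hH : (q.ht : ℝ) ≤ H) (hx : NrW n Y δ ξ x)
    (hL : LamQ n q x) : 0 < q.disc := by
  obtain ⟨ha, _, hH1, hY0, _, hev⟩ := basic hn hδ hY hq hH hx hL
  have h1 : (2 * (q.a : ℝ) * ξ + q.b) ^ 2 = (q.disc : ℝ) + 4 * (q.a : ℝ) * q.ev ξ := by
    unfold Qd.disc Qd.ev
    push_cast
    ring
  have h2 : |(q.a : ℝ) * q.ev ξ| * Y ≤ 4 * (H ^ 2 * δ) := by
    rw [abs_mul]
    calc |(q.a : ℝ)| * |q.ev ξ| * Y = |(q.a : ℝ)| * (|q.ev ξ| * Y) := by ring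
      _ ≤ H * (4 * H * δ) := mul_le_mul ha hev (by positivity) (by linarith)
      _ = _ := by ring
  have h3 : |(q.a : ℝ) * q.ev ξ| ≤ 4 / 100 := by
    have h4 : |(q.a : ℝ) * q.ev ξ| * Y ≤ 4 / 100 * Y := by linarith
    exact le_of_mul_le_mul_right h4 hY0
  have h5 : (-1 : ℝ) < (q.disc : ℝ) := by
    have h6 := (abs_le.1 h3).2
    nlinarith [sq_nonneg (2 * (q.a : ℝ) * ξ + q.b)]
  have h6 : -1 < q.disc := by exact_mod_cast h5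
  have h7 : q.disc ≠ 0 := fun h8 => hq.2.2 (by rw [h8]; exact ⟨0, by simp⟩)
  omega

theorem main {n : ℕ} {Y δ H Δ ξ : ℝ} {q : Qd} {x : ℕ → ℤ} (hn : 2 ≤ n) (hδ : 0 < δ)
    (hY : 100 * (H ^ 2 * δ) ≤ Y) (h : NQ n Y δ H Δ q ξ x) {θ₁ θ₂ : ℝ}
    (hev : ∀ t : ℝ, q.ev t = q.a * (t - θ₁) * (t - θ₂))
    (hs : |(q.a : ℝ) * (θ₁ - θ₂)| = Real.sqrt q.disc) (hle : |ξ - θ₁| ≤ |ξ - θ₂|) :
    |ξ - θ₁| ≤ 8 * H * δ / (Y * Real.sqrt q.disc) ∧ |θ₁| ≤ 2 ∧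
      Real.sqrt Δ * Y / 8 ≤ |(q.a : ℝ) * ((x 1 : ℝ) - θ₂ * (x 0 : ℝ))| ∧
      |(q.a : ℝ) * ((x 1 : ℝ) - θ₂ * (x 0 : ℝ))| ≤ 5 * (Real.sqrt Δ * Y) := by
  obtain ⟨hq, hH, _, hD1, hD2, hξ0, hξ1, hx, hL⟩ := h
  obtain ⟨ha, _, hH1, hY0, hHδ, hevb⟩ := basic hn hδ hY hq hH hx hL
  have hdisc := disc_pos hn hδ hY hq hH hx hL
  have hD : (1 : ℝ) ≤ (q.disc : ℝ) := by exact_mod_cast hdisc
  have hs1 : 1 ≤ Real.sqrt q.disc := by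
    rw [show (1 : ℝ) = Real.sqrt 1 by simp]
    exact Real.sqrt_le_sqrt hD
  set s := Real.sqrt q.disc with hsdef
  have hs0 : 0 < s := by linarith
  have h1 : s / 2 ≤ |(q.a : ℝ)| * |ξ - θ₂| := by
    have h2 : |θ₁ - θ₂| ≤ |ξ - θ₁| + |ξ - θ₂| := by
      have h3 : θ₁ - θ₂ = -(ξ - θ₁) + (ξ - θ₂) := by ring
      rw [h3]
      refine (abs_add_le _ _).trans ?_
      rw [abs_neg]
    rw [abs_mul] at hs
    have h4 : |(q.a : ℝ)| * |θ₁ - θ₂| ≤ |(q.a : ℝ)| * (2 * |ξ - θ₂|) :=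
      mul_le_mul_of_nonneg_left (by linarith) (abs_nonneg _)
    linarith
  have h2 : |ξ - θ₁| * (Y * s) ≤ 8 * H * δ := by
    have h3 : |q.ev ξ| = |ξ - θ₁| * (|(q.a : ℝ)| * |ξ - θ₂|) := by
      rw [hev, abs_mul, abs_mul]
      ring
    rw [h3] at hevb
    have h4 : |ξ - θ₁| * (s / 2) ≤ |ξ - θ₁| * (|(q.a : ℝ)| * |ξ - θ₂|) :=
      mul_le_mul_of_nonneg_left h1 (abs_nonneg _)
    have h5 := mul_le_mul_of_nonneg_right h4 hY0.le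
    nlinarith
  have h3 : |ξ - θ₁| ≤ 8 * H * δ / (Y * s) := by
    rw [le_div_iff₀ (by positivity)]
    exact h2
  have h4 : |ξ - θ₁| * Y ≤ 8 * H * δ := by
    have h5 : |ξ - θ₁| * Y ≤ |ξ - θ₁| * Y * s :=
      le_mul_of_one_le_right (by positivity) hs1
    nlinarith
  have h5 : |ξ - θ₁| ≤ 8 / 100 := by
    have h6 : |ξ - θ₁| * Y ≤ 8 / 100 * Y := by linarith
    exact le_of_mul_le_mul_right h6 hY0
  have h6 : |θ₁| ≤ 2 := by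
    rw [abs_le] at h5 ⊢
    constructor <;> linarith [h5.1, h5.2]
  refine ⟨h3, h6, ?_⟩
  obtain ⟨hx1, hx2, hx3⟩ := hx
  have e1 := hx3 1 (by omega)
  rw [pow_one] at e1
  have e2 : (q.a : ℝ) * ((x 1 : ℝ) - θ₂ * (x 0 : ℝ)) =
      (x 0 : ℝ) * ((q.a : ℝ) * (ξ - θ₂)) - (q.a : ℝ) * ((x 0 : ℝ) * ξ - (x 1 : ℝ)) := by ring
  have e3 : |(q.a : ℝ) * ((x 0 : ℝ) * ξ - (x 1 : ℝ))| ≤ Y / 100 := by
    rw [abs_mul]
    exact (mul_le_mul ha e1 (abs_nonneg _) (by linarith)).trans hHδ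
  have e4 : |(q.a : ℝ)| * |ξ - θ₂| ≤ 108 / 100 * s := by
    have h7 : |ξ - θ₂| ≤ |θ₁ - θ₂| + |ξ - θ₁| := by
      have h8 : ξ - θ₂ = (θ₁ - θ₂) + (ξ - θ₁) := by ring
      rw [h8]
      exact abs_add_le _ _
    have h9 : |(q.a : ℝ)| * |ξ - θ₂| ≤ |(q.a : ℝ)| * (|θ₁ - θ₂| + |ξ - θ₁|) :=
      mul_le_mul_of_nonneg_left h7 (abs_nonneg _)
    rw [abs_mul] at hs
    have h10 : |(q.a : ℝ)| * |ξ - θ₁| ≤ 8 / 100 := by
      have h11 : |(q.a : ℝ)| * |ξ - θ₁| * Y ≤ 8 / 100 * Y := by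
        calc |(q.a : ℝ)| * |ξ - θ₁| * Y = |(q.a : ℝ)| * (|ξ - θ₁| * Y) := by ring
          _ ≤ H * (8 * H * δ) := mul_le_mul ha h4 (by positivity) (by linarith)
          _ = 8 * (H ^ 2 * δ) := by ring
          _ ≤ _ := by linarith
      exact le_of_mul_le_mul_right h11 hY0
    nlinarith
  have e5 : |(x 0 : ℝ) * ((q.a : ℝ) * (ξ - θ₂))| = |(x 0 : ℝ)| * (|(q.a : ℝ)| * |ξ - θ₂|) := by
    rw [abs_mul, abs_mul]
  have hΔ0 : 0 < Δ := by linarith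
  have f1 : Real.sqrt Δ ≤ s := Real.sqrt_le_sqrt hD1
  have f2 : s ≤ 2 * Real.sqrt Δ := by
    rw [hsdef, show (2 : ℝ) * Real.sqrt Δ = Real.sqrt (4 * Δ) by
      rw [Real.sqrt_mul (by norm_num), show (4 : ℝ) = 2 ^ 2 by norm_num,
        Real.sqrt_sq (by norm_num)]]
    exact Real.sqrt_le_sqrt (by linarith)
  constructor
  · have g1 : |(x 0 : ℝ) * ((q.a : ℝ) * (ξ - θ₂))| - |(q.a : ℝ) * ((x 0 : ℝ) * ξ - (x 1 : ℝ))| ≤
        |(q.a : ℝ) * ((x 1 : ℝ) - θ₂ * (x 0 : ℝ))| := by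
      rw [e2]
      exact abs_sub_abs_le_abs_sub _ _
    have g2 : Y / 2 * (s / 2) ≤ |(x 0 : ℝ)| * (|(q.a : ℝ)| * |ξ - θ₂|) :=
      mul_le_mul hx1 h1 (by positivity) (abs_nonneg _)
    rw [e5] at g1
    have g3 : Real.sqrt Δ * Y ≤ s * Y := mul_le_mul_of_nonneg_right f1 hY0.le
    have g4 : Y ≤ s * Y := le_mul_of_one_le_left hY0.le hs1
    nlinarith
  · have g1 : |(q.a : ℝ) * ((x 1 : ℝ) - θ₂ * (x 0 : ℝ))| ≤
        |(x 0 : ℝ) * ((q.a : ℝ) * (ξ - θ₂))| + |(q.a : ℝ) * ((x 0 : ℝ) * ξ - (x 1 : ℝ))| := by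
      rw [e2]
      exact abs_sub _ _
    have g2 : |(x 0 : ℝ)| * (|(q.a : ℝ)| * |ξ - θ₂|) ≤ Y * (108 / 100 * s) :=
      mul_le_mul hx2 e4 (by positivity) hY0.le
    rw [e5] at g1
    have g3 : s * Y ≤ 2 * Real.sqrt Δ * Y := mul_le_mul_of_nonneg_right f2 hY0.le
    have g4 : Y ≤ s * Y := le_mul_of_one_le_left hY0.le hs1
    have g5 : 0 < Real.sqrt Δ := Real.sqrt_pos.2 hΔ0
    have g6 : 0 < Real.sqrt Δ * Y := by positivity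
    nlinarith

end Near1

open Near1 in
theorem wNear1 : S_Near1 := by
  refine ⟨fun n Y δ H ξ q x hn hδ hY hq hH _ _ hx hL => disc_pos hn hδ hY hq hH hx hL, ?_⟩
  intro n Y δ H Δ ξ q x hn hδ hY h
  have h' := h
  obtain ⟨hq, hH, _, hD1, hD2, hξ0, hξ1, hx, hL⟩ := h'
  have hdisc := disc_pos hn hδ hY hq hH hx hL
  have hD : (0 : ℝ) < (q.disc : ℝ) := by exact_mod_cast hdisc
  have ha : (q.a : ℝ) ≠ 0 := by exact_mod_cast hq.1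
  have hsq : Real.sqrt q.disc ^ 2 = (q.b : ℝ) ^ 2 - 4 * q.a * q.c := by
    rw [Real.sq_sqrt hD.le]
    unfold Qd.disc
    push_cast
    ring
  set s := Real.sqrt q.disc with hsdef
  have hs0 : 0 ≤ s := Real.sqrt_nonneg _
  have hev : ∀ t : ℝ, q.ev t = q.a * (t - (-q.b + s) / (2 * q.a)) * (t - (-q.b - s) / (2 * q.a)) := by
    intro t
    unfold Qd.ev
    field_simp
    linear_combination hsq
  have e1 : (q.a : ℝ) * ((-q.b + s) / (2 * q.a) - (-q.b - s) / (2 * q.a)) = s := by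
    field_simp
    ring
  rcases le_total |ξ - (-q.b + s) / (2 * q.a)| |ξ - (-q.b - s) / (2 * q.a)| with hle | hle
  · have hs : |(q.a : ℝ) * ((-q.b + s) / (2 * q.a) - (-q.b - s) / (2 * q.a))| = s := by
      rw [e1, abs_of_nonneg hs0]
    exact ⟨_, _, hev, hs, main hn hδ hY h hev hs hle⟩
  · have hs : |(q.a : ℝ) * ((-q.b - s) / (2 * q.a) - (-q.b + s) / (2 * q.a))| = s := by
      rw [show (q.a : ℝ) * ((-q.b - s) / (2 * q.a) - (-q.b + s) / (2 * q.a)) = -s by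
        rw [← neg_sub, mul_neg, e1], abs_neg, abs_of_nonneg hs0]
    have hev' : ∀ t : ℝ, q.ev t =
        q.a * (t - (-q.b - s) / (2 * q.a)) * (t - (-q.b + s) / (2 * q.a)) := fun t => by
      rw [hev t]; ring
    exact ⟨_, _, hev', hs, main hn hδ hY h hev' hs hle⟩

end Pool.Agent.MP211W
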