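import Pool.Agent.Lib.MP_211f72_nt.W.SpecA

/-!
# MP_211f72_nt, third theorem: near points, the bound for the norm
-/

set_option autoImplicit false

namespace Pool.Agent.MP211W

namespace Near2

theorem abs_a_le (q : Qd) : |(q.a : ℝ)| ≤ (q.ht : ℝ) := by
  have h : |q.a| ≤ q.ht := le_max_left _ _
  exact_mod_cast h

theorem abs_b_le (q : Qd) : |(q.b : ℝ)| ≤ (q.ht : ℝ) := by
  have h : |q.b| ≤ q.ht := (le_max_left _ _).trans (le_max_right _ _)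
  exact_mod_cast h

theorem abs_c_le (q : Qd) : |(q.c : ℝ)| ≤ (q.ht : ℝ) := by
  have h : |q.c| ≤ q.ht := (le_max_right _ _).trans (le_max_right _ _)
  exact_mod_cast h

theorem ht_ge_one (q : Qd) (h : q.a ≠ 0) : 1 ≤ (q.ht : ℝ) := by
  have h1 : 1 ≤ |q.a| := Int.one_le_abs h
  have h2 : |q.a| ≤ q.ht := le_max_left _ _
  exact_mod_cast h1.trans h2

/-- One of the four values is large. -/
theorem exists_large (q : Qd) : ∃ s t : ℝ, |s| ≤ 1 ∧ |t| ≤ 1 ∧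
    (q.ht : ℝ) ≤ |q.a * s ^ 2 + q.b * s * t + q.c * t ^ 2| := by
  by_contra hcon
  push Not at hcon
  have h1 := hcon 1 0 (by simp) (by simp)
  have h2 := hcon 0 1 (by simp) (by simp)
  have h3 := hcon 1 1 (by simp) (by simp)
  have h4 := hcon 1 (-1) (by simp) (by simp)
  have e1 : (q.a : ℝ) * 1 ^ 2 + q.b * 1 * 0 + q.c * 0 ^ 2 = q.a := by ring
  have e2 : (q.a : ℝ) * 0 ^ 2 + q.b * 0 * 1 + q.c * 1 ^ 2 = q.c := by ring
  have e3 : (q.a : ℝ) * 1 ^ 2 + q.b * 1 * 1 + q.c * 1 ^ 2 = q.a + q.b + q.c := by ring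
  have e4 : (q.a : ℝ) * 1 ^ 2 + q.b * 1 * (-1) + q.c * (-1) ^ 2 = q.a - q.b + q.c := by ring
  rw [e1] at h1
  rw [e2] at h2
  rw [e3] at h3
  rw [e4] at h4
  have h5 : |(q.b : ℝ)| < q.ht := by
    have h6 := abs_lt.mp h3
    have h7 := abs_lt.mp h4
    rw [abs_lt]
    constructor <;> linarith [h6.1, h6.2, h7.1, h7.2]
  have h1' : |q.a| < q.ht := by exact_mod_cast h1
  have h2' : |q.c| < q.ht := by exact_mod_cast h2
  have h5' : |q.b| < q.ht := by exact_mod_cast h5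
  have h6 : q.ht < q.ht := max_lt h1' (max_lt h5' h2')
  exact lt_irrefl _ h6

/-- The binomial expansion. -/
theorem binom_le (n : ℕ) (p θ s t E : ℝ) (hs : |s| ≤ 1) (ht : |t| ≤ 1)
    (h : ∀ i, i ≤ n → |p * θ ^ i| ≤ E) : |p * (s - t * θ) ^ n| ≤ 2 ^ n * E := by
  have hE : 0 ≤ E := (abs_nonneg _).trans (h 0 (Nat.zero_le _))
  have e1 : p * (s - t * θ) ^ n = ∑ i ∈ Finset.range (n + 1),
      (p * θ ^ i) * ((-t) ^ i * s ^ (n - i) * (n.choose i : ℝ)) := by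
    rw [show s - t * θ = (-t) * θ + s by ring, add_pow, Finset.mul_sum]
    refine Finset.sum_congr rfl fun i _ => ?_
    rw [mul_pow]
    ring
  rw [e1]
  refine (Finset.abs_sum_le_sum_abs _ _).trans ?_
  have h2 : ∀ i ∈ Finset.range (n + 1),
      |(p * θ ^ i) * ((-t) ^ i * s ^ (n - i) * (n.choose i : ℝ))| ≤ E * (n.choose i : ℝ) := by
    intro i hi
    rw [Finset.mem_range] at hi
    rw [abs_mul (p * θ ^ i), abs_mul ((-t) ^ i * s ^ (n - i)), abs_mul ((-t) ^ i), abs_pow,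
      abs_pow, abs_neg, Nat.abs_cast]
    have h3 : |t| ^ i ≤ 1 := pow_le_one₀ (abs_nonneg _) ht
    have h4 : |s| ^ (n - i) ≤ 1 := pow_le_one₀ (abs_nonneg _) hs
    have h5 : |t| ^ i * |s| ^ (n - i) ≤ 1 := mul_le_one₀ h3 (by positivity) h4
    have h6 := h i (by omega)
    calc |p * θ ^ i| * (|t| ^ i * |s| ^ (n - i) * (n.choose i : ℝ))
        ≤ E * (1 * (n.choose i : ℝ)) := by gcongr
      _ = E * (n.choose i : ℝ) := by rw [one_mul]
  refine (Finset.sum_le_sum h2).trans ?_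
  rw [← Finset.mul_sum, ← Nat.cast_sum, Nat.sum_range_choose]
  push_cast
  exact (mul_comm _ _).le

end Near2

open Near2

theorem wNear2 : S_Near2 := by
  intro n hn
  refine ⟨12 ^ n * 255, by positivity, ?_⟩
  intro Y δ H Δ ξ θ₁ θ₂ q x hδ hY hNQ hdisc hev hξθ hθ hψ
  obtain ⟨hgood, hH, hH2, hΔ, -, hξ0, hξ1, hNr, hLam⟩ := hNQ
  have hht := ht_ge_one q hgood.1
  have hH1 : 1 ≤ H := hht.trans hH
  have hH0 : 0 < H := by linarith
  have hY0 : 0 < Y := lt_of_lt_of_le (by positivity) hY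
  have ha : |(q.a : ℝ)| ≤ H := (abs_a_le q).trans hH
  have hb : |(q.b : ℝ)| ≤ H := (abs_b_le q).trans hH
  have hc : |(q.c : ℝ)| ≤ H := (abs_c_le q).trans hH
  -- the coefficients
  have hc' : (q.c : ℝ) = q.a * (θ₁ * θ₂) := by
    have := hev 0
    unfold Qd.ev at this
    linear_combination this
  have hb' : (q.b : ℝ) = -(q.a * (θ₁ + θ₂)) := by
    have := hev 1
    unfold Qd.ev at this
    linear_combination this - hc'
  -- the discriminant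
  have hD0 : 0 < Real.sqrt q.disc := Real.sqrt_pos.mpr (by exact_mod_cast hdisc)
  have hD3 : Real.sqrt q.disc ≤ 3 * H := by
    rw [Real.sqrt_le_iff]
    refine ⟨by positivity, ?_⟩
    have e1 : ((q.disc : ℤ) : ℝ) = (q.b : ℝ) ^ 2 - 4 * (q.a * q.c) := by
      unfold Qd.disc
      push_cast
      ring
    have e2 : (q.b : ℝ) ^ 2 ≤ H ^ 2 := by
      rw [← sq_abs]
      gcongr
    have e3 : -((q.a : ℝ) * q.c) ≤ H ^ 2 := by
      have e4 : |(q.a : ℝ) * q.c| ≤ H * H := by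
        rw [abs_mul]
        gcongr
      have e5 := neg_abs_le ((q.a : ℝ) * q.c)
      rw [pow_two]
      linarith
    rw [e1]
    have e6 : 0 < H ^ 2 := by positivity
    have e7 : (3 * H) ^ 2 = 9 * H ^ 2 := by ring
    rw [e7]
    linarith
  have hDΔ : Real.sqrt Δ ≤ Real.sqrt q.disc := Real.sqrt_le_sqrt hΔ
  generalize Real.sqrt q.disc = D at hD0 hD3 hξθ hDΔ
  -- consecutive coordinates
  have hdiff : ∀ i, i + 1 ≤ n → |(x (i + 1) : ℝ) - θ₁ * x i| ≤ 17 * H * δ / D := by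
    intro i hi
    have e1 : (x (i + 1) : ℝ) - θ₁ * x i = -((x 0 : ℝ) * ξ ^ (i + 1) - x (i + 1)) +
        (x 0 : ℝ) * ξ ^ i * (ξ - θ₁) + θ₁ * ((x 0 : ℝ) * ξ ^ i - x i) := by ring
    rw [e1]
    have h1 := hNr.2.2 (i + 1) hi
    have h2 := hNr.2.2 i (by omega)
    have h3 : |(x 0 : ℝ) * ξ ^ i| ≤ Y := by
      rw [abs_mul, abs_of_nonneg (pow_nonneg hξ0 i)]
      calc |(x 0 : ℝ)| * ξ ^ i ≤ Y * 1 := by
            gcongr
            · exact hNr.2.1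
            · exact pow_le_one₀ hξ0 hξ1
        _ = Y := mul_one Y
    have h4 : |(x 0 : ℝ) * ξ ^ i * (ξ - θ₁)| ≤ 8 * H * δ / D := by
      rw [abs_mul]
      calc |(x 0 : ℝ) * ξ ^ i| * |ξ - θ₁| ≤ Y * (8 * H * δ / (Y * D)) := by gcongr
        _ = 8 * H * δ / D := by
          field_simp
    have h5 : |θ₁ * ((x 0 : ℝ) * ξ ^ i - x i)| ≤ 2 * δ := by
      rw [abs_mul]
      gcongr
    have h6 : 3 * δ ≤ 9 * H * δ / D := by
      rw [le_div_iff₀ hD0]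
      have h7 := mul_le_mul_of_nonneg_left hD3 (by positivity : 0 ≤ 3 * δ)
      linarith
    have h8 : 17 * H * δ / D = 9 * H * δ / D + 8 * H * δ / D := by ring
    rw [h8]
    refine (abs_add_le _ _).trans ?_
    have h9 := abs_add_le (-((x 0 : ℝ) * ξ ^ (i + 1) - x (i + 1)))
      ((x 0 : ℝ) * ξ ^ i * (ξ - θ₁))
    rw [abs_neg] at h9
    linarith
  -- the powers
  have hpow : ∀ i, i + 1 ≤ n → (q.a : ℝ) * ((x 1 : ℝ) - θ₁ * x 0) * θ₂ ^ i =
      q.a * ((x (i + 1) : ℝ) - θ₁ * x i) := by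
    intro i
    induction i with
    | zero =>
      intro _
      simp
    | succ i ih =>
      intro hi
      have h1 := ih (by omega)
      have h2 : (q.c : ℝ) * x i + q.b * x (i + 1) + q.a * x (i + 2) = 0 := by
        exact_mod_cast hLam i (by omega)
      rw [pow_succ, ← mul_assoc, h1]
      linear_combination -h2 + (x i : ℝ) * hc' + (x (i + 1) : ℝ) * hb'
  have hE : ∀ i, i ≤ n → |(q.a : ℝ) * ((x 1 : ℝ) - θ₁ * x 0) * θ₂ ^ i| ≤
      51 * H ^ 2 * δ / D := by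
    intro i hi
    rcases Nat.lt_or_ge i n with hlt | hge
    · rw [hpow i hlt, abs_mul]
      calc |(q.a : ℝ)| * |(x (i + 1) : ℝ) - θ₁ * x i| ≤ H * (17 * H * δ / D) := by
            gcongr
            exact hdiff i hlt
        _ = 17 * H ^ 2 * δ / D := by ring
        _ ≤ 51 * H ^ 2 * δ / D := by
            gcongr
            norm_num
    · have hin : i = (n - 1) + 1 := by omega
      rw [hin, pow_succ, ← mul_assoc, hpow (n - 1) (by omega)]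
      have e1 : (q.a : ℝ) * ((x (n - 1 + 1) : ℝ) - θ₁ * x (n - 1)) * θ₂ =
          (-(q.b : ℝ) - q.a * θ₁) * ((x (n - 1 + 1) : ℝ) - θ₁ * x (n - 1)) := by
        rw [hb']
        ring
      rw [e1, abs_mul]
      have e2 : |-(q.b : ℝ) - q.a * θ₁| ≤ 3 * H := by
        refine (abs_sub _ _).trans ?_
        rw [abs_neg, abs_mul]
        have e3 : |(q.a : ℝ)| * |θ₁| ≤ H * 2 := by gcongr
        linarith
      calc |-(q.b : ℝ) - q.a * θ₁| * |(x (n - 1 + 1) : ℝ) - θ₁ * x (n - 1)|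
          ≤ 3 * H * (17 * H * δ / D) := by
            gcongr
            exact hdiff (n - 1) (by omega)
        _ = 51 * H ^ 2 * δ / D := by ring
  -- the four values
  obtain ⟨s, t, hs, ht, hlarge⟩ := exists_large q
  have hA : |(q.a : ℝ) * ((x 1 : ℝ) - θ₁ * x 0) * (s - t * θ₂) ^ n| ≤
      2 ^ n * (51 * H ^ 2 * δ / D) := binom_le n _ θ₂ s t _ hs ht hE
  have hB : |(q.a : ℝ) * ((x 1 : ℝ) - θ₂ * x 0) * (s - t * θ₁) ^ n| ≤
      5 * (D * Y) * 3 ^ n := by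
    rw [abs_mul, abs_pow]
    have e1 : |s - t * θ₁| ≤ 3 := by
      refine (abs_sub _ _).trans ?_
      rw [abs_mul]
      have e2 : |t| * |θ₁| ≤ 1 * 2 := by gcongr
      linarith
    have e3 : |(q.a : ℝ) * ((x 1 : ℝ) - θ₂ * x 0)| ≤ 5 * (D * Y) := hψ.trans (by gcongr)
    gcongr
  have hprod : |(q.a : ℝ) * ((x 1 : ℝ) - θ₂ * x 0)| * |(q.a : ℝ) * ((x 1 : ℝ) - θ₁ * x 0)| *
      |q.a * s ^ 2 + q.b * s * t + q.c * t ^ 2| ^ n ≤
      6 ^ n * 255 * ((Y * δ) * H ^ 2 * |(q.a : ℝ)| ^ n) := by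
    have e1 : (q.a : ℝ) * s ^ 2 + q.b * s * t + q.c * t ^ 2 =
        q.a * (s - t * θ₁) * (s - t * θ₂) := by
      rw [hb', hc']
      ring
    have e2 : |(q.a : ℝ) * ((x 1 : ℝ) - θ₂ * x 0)| * |(q.a : ℝ) * ((x 1 : ℝ) - θ₁ * x 0)| *
        |q.a * s ^ 2 + q.b * s * t + q.c * t ^ 2| ^ n =
        |(q.a : ℝ) * ((x 1 : ℝ) - θ₁ * x 0) * (s - t * θ₂) ^ n| *
        |(q.a : ℝ) * ((x 1 : ℝ) - θ₂ * x 0) * (s - t * θ₁) ^ n| * |(q.a : ℝ)| ^ n := by
      rw [e1]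
      simp only [abs_mul, abs_pow, mul_pow]
      ring
    rw [e2]
    calc _ ≤ (2 ^ n * (51 * H ^ 2 * δ / D)) * (5 * (D * Y) * 3 ^ n) * |(q.a : ℝ)| ^ n := by
          gcongr
      _ = (2 ^ n * 3 ^ n) * 255 * ((Y * δ) * H ^ 2 * |(q.a : ℝ)| ^ n) := by
          field_simp
          ring
      _ = 6 ^ n * 255 * ((Y * δ) * H ^ 2 * |(q.a : ℝ)| ^ n) := by
          rw [← mul_pow]
          norm_num
  have hHn : H ^ n ≤ 2 ^ n * |q.a * s ^ 2 + q.b * s * t + q.c * t ^ 2| ^ n := by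
    rw [← mul_pow]
    gcongr
    linarith
  calc |(q.a : ℝ) * ((x 1 : ℝ) - θ₂ * (x 0 : ℝ))| * |(q.a : ℝ) * ((x 1 : ℝ) - θ₁ * (x 0 : ℝ))| *
        H ^ n
      ≤ |(q.a : ℝ) * ((x 1 : ℝ) - θ₂ * (x 0 : ℝ))| * |(q.a : ℝ) * ((x 1 : ℝ) - θ₁ * (x 0 : ℝ))| *
        (2 ^ n * |q.a * s ^ 2 + q.b * s * t + q.c * t ^ 2| ^ n) := by gcongr
    _ = 2 ^ n * (|(q.a : ℝ) * ((x 1 : ℝ) - θ₂ * x 0)| * |(q.a : ℝ) * ((x 1 : ℝ) - θ₁ * x 0)| *
        |q.a * s ^ 2 + q.b * s * t + q.c * t ^ 2| ^ n) := by ring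
    _ ≤ 2 ^ n * (6 ^ n * 255 * ((Y * δ) * H ^ 2 * |(q.a : ℝ)| ^ n)) := by gcongr
    _ = (2 ^ n * 6 ^ n) * 255 * ((Y * δ) * H ^ 2 * |(q.a : ℝ)| ^ n) := by ring
    _ = 12 ^ n * 255 * ((Y * δ) * H ^ 2 * |(q.a : ℝ)| ^ n) := by
        rw [← mul_pow]
        norm_num

end Pool.Agent.MP211W
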