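import Pool.Agent.Lib.MP_211f72_nt.W.SpecA

/-!
# MP_211f72_nt, third theorem: `I τ(I) = (N I)` (`NmI`)
-/

namespace Pool.Agent.MP211W

open Polynomial NumberField

namespace NmI

variable {d : ℕ} {K : Type} [Field K] [NumberField K]

theorem tO_coe (Q : QF d K) (z : 𝓞 K) : ((Q.tO z : 𝓞 K) : K) = Q.τ z := rfl

theorem tO_tO (Q : QF d K) (z : 𝓞 K) : Q.tO (Q.tO z) = z := by
  apply NumberField.RingOfIntegers.ext
  rw [tO_coe, tO_coe, Q.tt]

theorem tO_natCast (Q : QF d K) (m : ℕ) : Q.tO (m : 𝓞 K) = m := map_natCast _ m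

theorem tI_mul (Q : QF d K) (I J : Ideal (𝓞 K)) : Q.tI (I * J) = Q.tI I * Q.tI J :=
  Ideal.map_mul _ _ _

theorem tI_span (Q : QF d K) (z : 𝓞 K) : Q.tI (Ideal.span {z}) = Ideal.span {Q.tO z} := by
  unfold QF.tI
  rw [Ideal.map_span, Set.image_singleton]

theorem mem_tI (Q : QF d K) (I : Ideal (𝓞 K)) (z : 𝓞 K) (h : z ∈ I) : Q.tO z ∈ Q.tI I :=
  Ideal.mem_map_of_mem _ h

theorem absNorm_tI (Q : QF d K) (I : Ideal (𝓞 K)) :
    Ideal.absNorm (Q.tI I) = Ideal.absNorm I := by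
  rw [Ideal.absNorm_apply, Ideal.absNorm_apply, Submodule.cardQuot_apply, Submodule.cardQuot_apply]
  have e : 𝓞 K ⧸ I ≃+* 𝓞 K ⧸ Q.tI I := Ideal.quotientEquiv I (Q.tI I) Q.tO rfl
  exact (Nat.card_congr e.toEquiv).symm

/-- a prime ideal containing a natural number contains a prime number -/
theorem exists_prime_mem (P : Ideal (𝓞 K)) (hP : P.IsPrime) (m : ℕ) (hm : m ≠ 0)
    (h : ((m : ℕ) : 𝓞 K) ∈ P) : ∃ p : ℕ, p.Prime ∧ ((p : ℕ) : 𝓞 K) ∈ P := by
  induction m using Nat.strong_induction_on with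
  | _ m ih =>
    have h1 : m ≠ 1 := by
      rintro rfl
      rw [Nat.cast_one] at h
      exact hP.ne_top ((Ideal.eq_top_iff_one _).mpr h)
    have h2 : m.minFac.Prime := Nat.minFac_prime h1
    obtain ⟨k, hk⟩ := Nat.minFac_dvd m
    have h3 : ((m.minFac : ℕ) : 𝓞 K) * ((k : ℕ) : 𝓞 K) ∈ P := by
      rw [← Nat.cast_mul, ← hk]; exact h
    rcases hP.mem_or_mem h3 with h4 | h4
    · exact ⟨_, h2, h4⟩
    · have hk0 : k ≠ 0 := by
        rintro rfl
        rw [mul_zero] at hk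
        exact hm hk
      refine ih k ?_ hk0 h4
      have h5 := h2.two_le
      calc k < 2 * k := by omega
        _ ≤ m.minFac * k := Nat.mul_le_mul_right k h5
        _ = m := hk.symm

/-- the prime case -/
theorem prime_case (Q : QF d K) (hd : Squarefree d) (h2 : 2 ≤ d) (h1 : S_QFb) (P : Ideal (𝓞 K))
    (hP : Prime P) : P * Q.tI P = Ideal.span {((Ideal.absNorm P : ℕ) : 𝓞 K)} := by
  have hnorm : ∀ m : ℕ, Ideal.absNorm (Ideal.span {((m : ℕ) : 𝓞 K)}) = m ^ 2 := by
    intro m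
    have h4 := (h1 d K Q hd h2).2.2.2.1 ((m : ℕ) : 𝓞 K)
    have h5 : (((m : ℕ) : 𝓞 K) : K) = (m : K) := by simp
    rw [h5, map_natCast, map_natCast, map_natCast] at h4
    have h6 : ((Ideal.absNorm (Ideal.span {((m : ℕ) : 𝓞 K)}) : ℕ) : ℝ) = ((m ^ 2 : ℕ) : ℝ) := by
      rw [h4, abs_of_nonneg (by positivity)]
      push_cast
      ring
    exact_mod_cast h6
  have hP0 : P ≠ ⊥ := hP.ne_zero
  have hPp : P.IsPrime := Ideal.isPrime_of_prime hP
  have hPm : P.IsMaximal := hPp.isMaximal hP0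
  have hN1 : Ideal.absNorm P ≠ 1 := by
    rw [Ne, Ideal.absNorm_eq_one_iff]
    exact hPp.ne_top
  have hN0 : Ideal.absNorm P ≠ 0 := Ideal.absNorm_ne_zero_iff_mem_nonZeroDivisors.mpr
    (mem_nonZeroDivisors_of_ne_zero hP0)
  obtain ⟨p, hp, hpP⟩ := exists_prime_mem P hPp _ hN0 (Ideal.absNorm_mem P)
  obtain ⟨P', hP'⟩ : P ∣ Ideal.span {((p : ℕ) : 𝓞 K)} := Ideal.dvd_span_singleton.mpr hpP
  have hp2 : 0 < p ^ 2 := pow_pos hp.pos 2
  have hmul : p ^ 2 = Ideal.absNorm P * Ideal.absNorm P' := by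
    rw [← hnorm p, hP', map_mul]
  obtain ⟨k, hk2, hk⟩ := (Nat.dvd_prime_pow hp).mp (⟨_, hmul⟩ : Ideal.absNorm P ∣ p ^ 2)
  have hk0 : k ≠ 0 := by
    rintro rfl
    rw [pow_zero] at hk
    exact hN1 hk
  have hps : Ideal.span {((p : ℕ) : 𝓞 K)} ≠ (0 : Ideal (𝓞 K)) := by
    rw [Ne, Ideal.zero_eq_bot, Ideal.span_singleton_eq_bot]
    exact Nat.cast_ne_zero.mpr hp.ne_zero
  have hτp : Q.tI (Ideal.span {((p : ℕ) : 𝓞 K)}) = Ideal.span {((p : ℕ) : 𝓞 K)} := by
    rw [tI_span, tO_natCast]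
  rcases Nat.lt_or_ge k 2 with hk3 | hk3
  · have hk1 : k = 1 := by omega
    subst hk1
    rw [pow_one] at hk
    have hN' : Ideal.absNorm P' = p := by
      rw [hk, sq] at hmul
      exact (Nat.eq_of_mul_eq_mul_left hp.pos hmul).symm
    have hP'p : P'.IsPrime := Ideal.isPrime_of_irreducible_absNorm (by rw [hN']; exact hp)
    have hP'0 : P' ≠ ⊥ := by
      rintro rfl
      rw [Ideal.absNorm_bot] at hN'
      exact hp.ne_zero hN'.symm
    have hP'm : P'.IsMaximal := hP'p.isMaximal hP'0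
    have hτPp : (Q.tI P).IsPrime := Ideal.map_isPrime_of_equiv Q.tO
    have hτP'p : (Q.tI P').IsPrime := Ideal.map_isPrime_of_equiv Q.tO
    rw [hk, hP']
    -- `τ(P)` contains `p`
    have h5 : P * P' ≤ Q.tI P := by
      rw [← hP', ← hτp, tI_span, tO_natCast]
      rw [Ideal.span_singleton_le_iff_mem]
      have := mem_tI Q P _ hpP
      rwa [tO_natCast] at this
    have h6 : P ≤ Q.tI P ∨ P' ≤ Q.tI P := (Ideal.IsPrime.mul_le hτPp).mp h5
    rcases h6 with h6 | h6
    · have h7 : P = Q.tI P := hPm.eq_of_le hτPp.ne_top h6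
      by_cases hPP : P = P'
      · rw [← h7, ← hPP]
      · exfalso
        have h8 : Q.tI P' = P' := by
          apply mul_left_cancel₀ hP0
          conv_lhs => rw [h7]
          rw [← tI_mul, ← hP', hτp]
        have h9 : ¬ P ≤ P' := fun h => hPP (hPm.eq_of_le hP'p.ne_top h)
        obtain ⟨z, hz, hz'⟩ := SetLike.not_le_iff_exists.mp h9
        have h10 := (h1 d K Q hd h2).2.2.2.2 z
        have h11 : z * Q.tO z = ((Algebra.norm ℤ z : ℤ) : 𝓞 K) := by
          apply NumberField.RingOfIntegers.ext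
          have e1 : ((z * Q.tO z : 𝓞 K) : K) = (z : K) * Q.τ z := rfl
          rw [e1, h10]
          simp
        have h12 : ((Algebra.norm ℤ z : ℤ) : 𝓞 K) ∈ P := by
          rw [← h11]; exact P.mul_mem_right _ hz
        -- the norm is divisible by `p`
        have h13 : (p : ℤ) ∣ Algebra.norm ℤ z := by
          by_contra hnd
          have hcop : IsCoprime (p : ℤ) (Algebra.norm ℤ z) :=
            (Nat.prime_iff_prime_int.mp hp).coprime_iff_not_dvd.mpr hnd
          obtain ⟨a, b, hab⟩ := hcop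
          apply hPp.ne_top
          rw [Ideal.eq_top_iff_one]
          have e2 : (1 : 𝓞 K) = (a : 𝓞 K) * ((p : ℕ) : 𝓞 K) +
              (b : 𝓞 K) * ((Algebra.norm ℤ z : ℤ) : 𝓞 K) := by
            have := congrArg (fun t : ℤ => (t : 𝓞 K)) hab
            push_cast at this
            exact this.symm
          rw [e2]
          exact P.add_mem (P.mul_mem_left _ hpP) (P.mul_mem_left _ h12)
        have hpP' : ((p : ℕ) : 𝓞 K) ∈ P' := by
          have : Ideal.span {((p : ℕ) : 𝓞 K)} ≤ P' := by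
            rw [hP']; exact Ideal.le_of_dvd (dvd_mul_left P' P)
          exact (Ideal.span_singleton_le_iff_mem _).mp this
        have h14 : z * Q.tO z ∈ P' := by
          rw [h11]
          obtain ⟨c, hc⟩ := h13
          rw [hc]
          push_cast
          exact P'.mul_mem_right _ hpP'
        rcases hP'p.mem_or_mem h14 with h15 | h15
        · exact hz' h15
        · have h16 := mem_tI Q P' _ h15
          rw [tO_tO, h8] at h16
          exact hz' h16
    · have h7 : P' = Q.tI P := hP'm.eq_of_le hτPp.ne_top h6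
      rw [← h7]
  · have hk4 : k = 2 := by omega
    subst hk4
    have h5 : Ideal.absNorm P' = 1 := by
      have : p ^ 2 * Ideal.absNorm P' = p ^ 2 * 1 := by rw [mul_one, ← hk, ← hmul, hk]
      exact Nat.eq_of_mul_eq_mul_left hp2 this
    rw [Ideal.absNorm_eq_one_iff] at h5
    rw [h5, ← Ideal.one_eq_top, mul_one] at hP'
    rw [← hP'] at hk ⊢
    rw [hτp, hk, Ideal.span_singleton_mul_span_singleton]
    congr 2
    push_cast
    ring

end NmI

/-- **NmI.** -/
theorem wNmI (h1 : S_QFb) : S_NmI := by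
  intro d K _ _ Q hd h2 I
  refine ⟨NmI.absNorm_tI Q I, ?_⟩
  induction I using UniqueFactorizationMonoid.induction_on_prime with
  | h₁ => intro h; exact absurd rfl h
  | h₂ x hx =>
    intro _
    rw [Ideal.isUnit_iff] at hx
    subst hx
    have h3 : Q.tI ⊤ = ⊤ := Ideal.map_top _
    rw [h3]
    simp
  | h₃ a P ha hP ih =>
    intro _
    have h4 := NmI.prime_case Q hd h2 h1 P hP
    have h5 := ih ha
    rw [NmI.tI_mul, map_mul]
    push_cast
    rw [← Ideal.span_singleton_mul_span_singleton, ← h4, ← h5]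
    ring

end Pool.Agent.MP211W
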