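import Pool.Agent.Lib.MP_211f72_nt.W.SpecA

/-!
# MP_211f72_nt, third theorem: counting pairs of vectors
-/

namespace Pool.Agent.MP211W

namespace PairC

/-- the linear map `u ↦ (det2 v u, u.1 / v.1)` -/
noncomputable def phi (v : ℝ × ℝ) : ℝ × ℝ →+ ℝ × ℝ where
  toFun u := (det2 v u, u.1 / v.1)
  map_zero' := by
    simp [det2]
  map_add' u u' := by
    simp only [det2, Prod.fst_add, Prod.snd_add, add_div, Prod.mk_add_mk]
    congr 1
    ring

theorem phi_apply (v u : ℝ × ℝ) : phi v u = (det2 v u, u.1 / v.1) := rfl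

theorem det_phi {v : ℝ × ℝ} (hv : v.1 ≠ 0) (u u' : ℝ × ℝ) :
    det2 (phi v u) (phi v u') = -det2 u u' := by
  rw [phi_apply, phi_apply]
  simp only [det2]
  field_simp
  ring

theorem phi_inj {v : ℝ × ℝ} (hv : v.1 ≠ 0) : Function.Injective (phi v) := by
  intro u u' h
  rw [phi_apply, phi_apply, Prod.mk.injEq] at h
  obtain ⟨h1, h2⟩ := h
  have h3 : u.1 = u'.1 := by
    rwa [div_left_inj' hv] at h2
  refine Prod.ext h3 ?_
  simp only [det2] at h1
  rw [h3] at h1
  have h4 : v.1 * u.2 = v.1 * u'.2 := by linarith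
  exact mul_left_cancel₀ hv h4

theorem sep_phi {L : AddSubgroup (ℝ × ℝ)} {V : ℝ} (hL : SepL L V) {v : ℝ × ℝ} (hv : v.1 ≠ 0) :
    SepL (L.map (phi v)) V := by
  rintro _ ⟨u, hu, rfl⟩ _ ⟨u', hu', rfl⟩ h
  rw [det_phi hv, abs_neg]
  rw [det_phi hv, neg_ne_zero] at h
  exact hL u hu u' hu' h

end PairC

open PairC in
theorem wPairC (h1 : S_Lat2) : S_PairC := by
  classical
  intro κ hκ
  refine ⟨1936 * κ, by positivity, ?_⟩
  intro L V R Z P hV hR hZ hL hP hcmp
  rcases P.eq_empty_or_nonempty with rfl | hne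
  · rw [Finset.card_empty, Nat.cast_zero]
    positivity
  obtain ⟨p₀, hp₀, hmin⟩ := Finset.exists_min_image P (fun p => |p.1.1|) hne
  set B₀ : ℝ := |p₀.1.1| with hB₀
  have hB₀pos : 0 < B₀ := abs_pos.mpr (hP p₀ hp₀).2.2.1
  -- the first components
  have hfst : ((P.image Prod.fst).card : ℝ) ≤ 44 * κ * R / V := by
    have h2 := h1 L V (2 * κ * B₀) (R / B₀) (P.image Prod.fst ∪ P.image Prod.snd) hV hL (by
      intro u hu
      rcases Finset.mem_union.mp hu with hu | hu
      · obtain ⟨p, hp, rfl⟩ := Finset.mem_image.mp hu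
        obtain ⟨hL1, hL2, hne1, hb1, hb2, hb3, hd, hdZ⟩ := hP p hp
        refine ⟨hL1, ?_, ?_⟩
        · have := hcmp p hp p₀ hp₀
          have h3 : 0 ≤ κ * B₀ := by positivity
          linarith
        · rw [le_div_iff₀ hB₀pos]
          rw [abs_mul] at hb2
          have := hmin p hp
          calc |p.1.2| * B₀ ≤ |p.1.2| * |p.1.1| := mul_le_mul_of_nonneg_left this (abs_nonneg _)
            _ = |p.1.1| * |p.1.2| := mul_comm _ _
            _ ≤ R := hb2
      · obtain ⟨p, hp, rfl⟩ := Finset.mem_image.mp hu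
        obtain ⟨hL1, hL2, hne1, hb1, hb2, hb3, hd, hdZ⟩ := hP p hp
        refine ⟨hL2, ?_, ?_⟩
        · have := hcmp p hp p₀ hp₀
          linarith
        · rw [le_div_iff₀ hB₀pos]
          rw [abs_mul] at hb3
          have := hmin p hp
          calc |p.2.2| * B₀ ≤ |p.2.2| * |p.1.1| := mul_le_mul_of_nonneg_left this (abs_nonneg _)
            _ = |p.1.1| * |p.2.2| := mul_comm _ _
            _ ≤ R := hb3)
      ⟨p₀.1, Finset.mem_union_left _ (Finset.mem_image_of_mem _ hp₀), p₀.2,
        Finset.mem_union_right _ (Finset.mem_image_of_mem _ hp₀), (hP p₀ hp₀).2.2.2.2.2.2.1⟩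
    have h3 : ((P.image Prod.fst).card : ℝ) ≤
        ((P.image Prod.fst ∪ P.image Prod.snd).card : ℝ) := by
      exact_mod_cast Finset.card_le_card Finset.subset_union_left
    refine (h3.trans h2).trans (le_of_eq ?_)
    field_simp
    ring
  -- the second components
  have hfib : ∀ v ∈ P.image Prod.fst, (P.filter (fun p => p.1 = v)).card ≤ ⌊44 * Z / V⌋₊ := by
    intro v hv
    refine Nat.le_floor ?_
    obtain ⟨q, hq, hqv⟩ := Finset.mem_image.mp hv
    obtain ⟨hL1, hL2, hne1, hb1, hb2, hb3, hd, hdZ⟩ := hP q hq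
    rw [hqv] at hL1 hne1 hb1 hb2 hb3 hd hdZ
    have h2 := h1 (L.map (phi v)) V Z 2
      (insert (phi v v) ((P.filter (fun p => p.1 = v)).image (fun p => phi v p.2))) hV
      (sep_phi hL hne1) (by
        intro u hu
        rcases Finset.mem_insert.mp hu with rfl | hu
        · refine ⟨⟨v, hL1, rfl⟩, ?_, ?_⟩
          · have : (phi v v).1 = 0 := by
              rw [phi_apply]
              simp only [det2]
              ring
            rw [this, abs_zero]
            exact hZ
          · have : (phi v v).2 = 1 := by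
              rw [phi_apply]
              exact div_self hne1
            rw [this, abs_one]
            norm_num
        · obtain ⟨p, hp, rfl⟩ := Finset.mem_image.mp hu
          obtain ⟨hpP, hpv⟩ := Finset.mem_filter.mp hp
          obtain ⟨hL1', hL2', hne1', hb1', hb2', hb3', hd', hdZ'⟩ := hP p hpP
          rw [hpv] at hdZ' hb1'
          refine ⟨⟨p.2, hL2', rfl⟩, hdZ', ?_⟩
          change |p.2.1 / v.1| ≤ 2
          rw [abs_div, div_le_iff₀ (abs_pos.mpr hne1)]
          exact hb1')
      ⟨phi v v, Finset.mem_insert_self _ _, phi v q.2,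
        Finset.mem_insert_of_mem (Finset.mem_image_of_mem _
          (Finset.mem_filter.mpr ⟨hq, hqv⟩)), by
        rw [det_phi hne1, neg_ne_zero]
        exact hd⟩
    have h3 : (P.filter (fun p => p.1 = v)).card ≤
        (insert (phi v v) ((P.filter (fun p => p.1 = v)).image (fun p => phi v p.2))).card := by
      refine le_trans ?_ (Finset.card_le_card (Finset.subset_insert _ _))
      rw [Finset.card_image_of_injOn]
      intro p hp p' hp' hpp
      have e1 := (Finset.mem_filter.mp hp).2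
      have e2 := (Finset.mem_filter.mp hp').2
      exact Prod.ext (e1.trans e2.symm) (phi_inj hne1 hpp)
    have h4 : ((P.filter (fun p => p.1 = v)).card : ℝ) ≤
        ((insert (phi v v) ((P.filter (fun p => p.1 = v)).image (fun p => phi v p.2))).card : ℝ) := by
      exact_mod_cast h3
    refine (h4.trans h2).trans (le_of_eq ?_)
    ring
  have hcard := Finset.card_le_mul_card_image P _ hfib
  have h5 : (P.card : ℝ) ≤ ((⌊44 * Z / V⌋₊ : ℕ) : ℝ) * ((P.image Prod.fst).card : ℝ) := by
    exact_mod_cast hcard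
  have h6 : ((⌊44 * Z / V⌋₊ : ℕ) : ℝ) ≤ 44 * Z / V := Nat.floor_le (by positivity)
  calc (P.card : ℝ) ≤ ((⌊44 * Z / V⌋₊ : ℕ) : ℝ) * ((P.image Prod.fst).card : ℝ) := h5
    _ ≤ (44 * Z / V) * (44 * κ * R / V) :=
        mul_le_mul h6 hfst (Nat.cast_nonneg _) (by positivity)
    _ = 1936 * κ * (R / V) * (Z / V) := by
        field_simp
        ring

end Pool.Agent.MP211W
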