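import Pool.Agent.Lib.MP_211f72_nt.W.SpecB

/-!
# MP_211f72_nt, third theorem: the parameters
-/

namespace Pool.Agent.MP211W

namespace ParEx

/-- `M < x` for the maximum in the definition of `sW` -/
theorem max_lt_of {n : ℕ} {lam x : ℝ} (h1 : 2 / (n : ℝ) < x)
    (h2 : 3 * (1 - lam) / ((n : ℝ) - 1) < x) :
    max (2 / (n : ℝ)) (3 * (1 - lam) / ((n : ℝ) - 1)) < x := max_lt h1 h2

theorem core (n R : ℕ) (lam : ℝ) (hn : 4 ≤ n) (hR1 : 1 ≤ R) (hRn : 2 * R ≤ n) (hl : 0 < lam)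
    (hRl : 1 < (R : ℝ) * lam)
    (ha : 2 / (n : ℝ) * ((R : ℝ) - 1 / 2) < 1 + lam)
    (hb : 3 * (1 - lam) * ((R : ℝ) - 1 / 2) < (1 + lam) * ((n : ℝ) - 1))
    (h3 : ∀ r : ℕ, 3 ≤ r → r ≤ R →
      ((r : ℝ) + 1) * (1 - ((r : ℝ) - 1) * lam) / ((n : ℝ) - 2 * r + 2) ≤
        3 * (1 - lam) / ((n : ℝ) - 1)) :
    ∃ s₀ : ℝ, sW n lam < s₀ ∧ s₀ ≤ 1 ∧ ∀ s : ℝ, sW n lam < s → s ≤ s₀ → ∃ R : ℕ, Par n R lam s := by
  have hN : (4 : ℝ) ≤ (n : ℝ) := by exact_mod_cast hn
  have hR : (1 : ℝ) ≤ (R : ℝ) := by exact_mod_cast hR1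
  have hN0 : (0 : ℝ) < (n : ℝ) := by linarith
  have hN1 : (0 : ℝ) < (n : ℝ) - 1 := by linarith
  have hN2 : (0 : ℝ) < (n : ℝ) - 2 := by linarith
  have hR2 : (0 : ℝ) < (R : ℝ) - 1 / 2 := by linarith
  have hl1 : (0 : ℝ) < 1 + lam := by linarith
  have hpos : 0 < sW n lam := by
    unfold sW
    refine div_pos (lt_of_lt_of_le ?_ (le_max_left _ _)) hl1
    positivity
  -- (i)
  have h1 : sW n lam < 1 := by
    unfold sW
    rw [div_lt_one hl1]
    refine max_lt ?_ ?_
    · rw [div_lt_iff₀ hN0]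
      nlinarith
    · rw [div_lt_iff₀ hN1]
      nlinarith
  -- (ii)
  have h2 : sW n lam < 1 / ((R : ℝ) - 1 / 2) := by
    unfold sW
    rw [div_lt_div_iff₀ hl1 hR2, one_mul, max_mul_of_nonneg _ _ hR2.le]
    refine max_lt ha ?_
    rw [div_mul_eq_mul_div, div_lt_iff₀ hN1]
    exact hb
  refine ⟨min 1 (1 / ((R : ℝ) - 1 / 2)), lt_min h1 h2, min_le_left _ _, fun s hs hs0 => ⟨R, ?_⟩⟩
  have hs1 : s ≤ 1 := hs0.trans (min_le_left _ _)
  have hs2 : s ≤ 1 / ((R : ℝ) - 1 / 2) := hs0.trans (min_le_right _ _)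
  have hM : max (2 / (n : ℝ)) (3 * (1 - lam) / ((n : ℝ) - 1)) < s * (1 + lam) := by
    unfold sW at hs
    rwa [div_lt_iff₀ hl1] at hs
  have hM1 : 2 / (n : ℝ) < s * (1 + lam) := (le_max_left _ _).trans_lt hM
  have hM2 : 3 * (1 - lam) / ((n : ℝ) - 1) < s * (1 + lam) := (le_max_right _ _).trans_lt hM
  refine ⟨hn, hR1, hRn, hl, hRl, hpos.trans hs, hs1, ?_, hM1, ?_, hM2, ?_⟩
  · rwa [le_div_iff₀ hR2] at hs2
  · rcases le_total lam 1 with h | h
    · refine lt_of_le_of_lt ?_ hM2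
      rw [div_le_div_iff₀ hN2 hN1]
      nlinarith
    · refine lt_of_le_of_lt ?_ hM1
      have e1 : 2 * (1 - lam) / ((n : ℝ) - 2) ≤ 0 :=
        div_nonpos_of_nonpos_of_nonneg (by linarith) hN2.le
      have e2 : 0 ≤ 2 / (n : ℝ) := by positivity
      linarith
  · intro r hr1 hr2
    exact (h3 r hr1 hr2).trans_lt hM2

end ParEx

theorem wParEx : S_ParEx := by
  intro n lam hn hn5 hlam
  have hN : (4 : ℝ) ≤ (n : ℝ) := by exact_mod_cast hn
  have hD : (0 : ℝ) < 5 * (n : ℝ) + 4 := by linarith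
  have hlam' : (n : ℝ) + 8 < lam * (5 * n + 4) := by
    rwa [div_lt_iff₀ hD] at hlam
  have hl : 0 < lam := by
    refine lt_trans ?_ hlam
    positivity
  obtain ⟨f, hf1, hf2⟩ : ∃ f : ℕ, (f : ℝ) * lam ≤ 1 ∧ 1 < ((f : ℝ) + 1) * lam := by
    refine ⟨⌊1 / lam⌋₊, ?_, ?_⟩
    · have := Nat.floor_le (a := 1 / lam) (by positivity)
      rwa [le_div_iff₀ hl] at this
    · have := Nat.lt_floor_add_one (1 / lam)
      rwa [div_lt_iff₀ hl] at this
  -- `f (n + 8) < 5 n + 4`
  have hf3 : (f : ℝ) * ((n : ℝ) + 8) < 5 * n + 4 := by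
    have h1 : (f : ℝ) * ((n : ℝ) + 8) * lam ≤ (n : ℝ) + 8 := by nlinarith
    by_contra h
    push Not at h
    nlinarith
  have hf4 : f * (n + 8) < 5 * n + 4 := by exact_mod_cast hf3
  have hf5 : f < 5 := by
    by_contra h
    push Not at h
    nlinarith
  have hfc : f = 0 ∨ f = 1 ∨ f = 2 ∨ f = 3 ∨ f = 4 := by omega
  rcases hfc with rfl | rfl | rfl | rfl | rfl
  · -- `R = 1`
    norm_num at hf2
    refine ParEx.core n 1 lam hn le_rfl (by omega) hl (by push_cast; linarith) ?_ ?_ ?_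
    · rw [div_mul_eq_mul_div, div_lt_iff₀ (by linarith)]
      push_cast
      nlinarith
    · push_cast
      nlinarith
    · intro r hr1 hr2
      omega
  · -- `R = 2`
    norm_num at hf1 hf2
    refine ParEx.core n 2 lam hn (by norm_num) (by omega) hl (by push_cast; linarith) ?_ ?_ ?_
    · rw [div_mul_eq_mul_div, div_lt_iff₀ (by linarith)]
      push_cast
      nlinarith
    · push_cast
      nlinarith
    · intro r hr1 hr2
      omega
  · -- `R = 3`
    have hn6 : 6 ≤ n := by omega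
    have hN6 : (6 : ℝ) ≤ (n : ℝ) := by exact_mod_cast hn6
    norm_num at hf1 hf2
    refine ParEx.core n 3 lam hn (by norm_num) (by omega) hl (by push_cast; linarith) ?_ ?_ ?_
    · rw [div_mul_eq_mul_div, div_lt_iff₀ (by linarith)]
      push_cast
      nlinarith
    · push_cast
      nlinarith
    · intro r hr1 hr2
      obtain rfl : r = 3 := by omega
      push_cast
      rw [div_le_div_iff₀ (by linarith) (by linarith)]
      nlinarith
  · -- `R = 4`
    have hn6 : 11 ≤ n := by omega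
    have hN6 : (11 : ℝ) ≤ (n : ℝ) := by exact_mod_cast hn6
    norm_num at hf1 hf2
    refine ParEx.core n 4 lam hn (by norm_num) (by omega) hl (by push_cast; linarith) ?_ ?_ ?_
    · rw [div_mul_eq_mul_div, div_lt_iff₀ (by linarith)]
      push_cast
      nlinarith
    · push_cast
      nlinarith
    · intro r hr1 hr2
      have hrc : r = 3 ∨ r = 4 := by omega
      rcases hrc with rfl | rfl
      · push_cast
        rw [div_le_div_iff₀ (by linarith) (by linarith)]
        nlinarith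
      · push_cast
        rw [div_le_div_iff₀ (by linarith) (by linarith)]
        nlinarith
  · -- `R = 5`
    have hn6 : 29 ≤ n := by omega
    have hN6 : (29 : ℝ) ≤ (n : ℝ) := by exact_mod_cast hn6
    norm_num at hf1 hf2
    refine ParEx.core n 5 lam hn (by norm_num) (by omega) hl (by push_cast; linarith) ?_ ?_ ?_
    · rw [div_mul_eq_mul_div, div_lt_iff₀ (by linarith)]
      push_cast
      nlinarith
    · push_cast
      nlinarith
    · intro r hr1 hr2
      have hrc : r = 3 ∨ r = 4 ∨ r = 5 := by omega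
      rcases hrc with rfl | rfl | rfl
      · push_cast
        rw [div_le_div_iff₀ (by linarith) (by linarith)]
        nlinarith
      · push_cast
        rw [div_le_div_iff₀ (by linarith) (by linarith)]
        nlinarith
      · push_cast
        rw [div_le_div_iff₀ (by linarith) (by linarith)]
        nlinarith

end Pool.Agent.MP211W
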