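import Pool.Agent.Lib.MP_211f72_nt.W.SpecC

/-!
# MP_211f72_nt, third theorem: PtQ (a point of the lattice of q near the curve at a root)
-/

namespace Pool.Agent.MP211W

namespace PtQ

/-- the rows of the triangular matrix -/
noncomputable def fB (a b c θ : ℝ) : ℕ → ℕ → ℝ
  | 0, j => if j = 0 then 1 else 0
  | 1, j => (if j = 0 then -θ else 0) + (if j = 1 then 1 else 0)
  | (i + 2), j => (if j = i then c else 0) + (if j = i + 1 then b else 0) + (if j = i + 2 then a else 0)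

theorem fB_lower (a b c θ : ℝ) (i j : ℕ) (h : i < j) : fB a b c θ i j = 0 := by
  rcases i with _ | _ | i
  · have h1 : j ≠ 0 := by omega
    simp only [fB]
    rw [if_neg h1]
  · have h1 : j ≠ 0 := by omega
    have h2 : j ≠ 1 := by omega
    simp only [fB]
    rw [if_neg h1, if_neg h2, add_zero]
  · have h1 : j ≠ i := by omega
    have h2 : j ≠ i + 1 := by omega
    have h3 : j ≠ i + 2 := by omega
    simp only [fB]
    rw [if_neg h1, if_neg h2, if_neg h3, add_zero, add_zero]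

theorem fB_d0 (a b c θ : ℝ) : fB a b c θ 0 0 = 1 := by
  simp only [fB]
  rw [if_pos trivial]

theorem fB_d1 (a b c θ : ℝ) : fB a b c θ 1 1 = 1 := by
  simp only [fB]
  rw [if_neg (by omega), if_pos trivial, zero_add]

theorem fB_d2 (a b c θ : ℝ) (i : ℕ) : fB a b c θ (i + 2) (i + 2) = a := by
  simp only [fB]
  rw [if_neg (by omega), if_neg (by omega), if_pos trivial, zero_add, zero_add]

theorem sum0 (a b c θ : ℝ) (m : ℕ) (X : ℕ → ℝ) :
    ∑ j ∈ Finset.range (m + 3), fB a b c θ 0 j * X j = X 0 := by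
  rw [Finset.sum_eq_single 0]
  · rw [fB_d0, one_mul]
  · intro j _ hj
    simp only [fB]
    rw [if_neg hj, zero_mul]
  · intro h
    exact absurd (Finset.mem_range.mpr (by omega)) h

theorem sumite (m i : ℕ) (hi : i < m) (y : ℝ) (X : ℕ → ℝ) :
    ∑ j ∈ Finset.range m, (if j = i then y else 0) * X j = y * X i := by
  rw [Finset.sum_eq_single i]
  · rw [if_pos rfl]
  · intro j _ hj
    rw [if_neg hj, zero_mul]
  · intro h
    exact absurd (Finset.mem_range.mpr hi) h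

theorem sum1 (a b c θ : ℝ) (m : ℕ) (X : ℕ → ℝ) :
    ∑ j ∈ Finset.range (m + 3), fB a b c θ 1 j * X j = X 1 - θ * X 0 := by
  have h : ∀ j ∈ Finset.range (m + 3), fB a b c θ 1 j * X j =
      (if j = 0 then -θ else 0) * X j + (if j = 1 then 1 else 0) * X j := by
    intro j _
    simp only [fB]
    rw [add_mul]
  rw [Finset.sum_congr rfl h, Finset.sum_add_distrib, sumite (m + 3) 0 (by omega),
    sumite (m + 3) 1 (by omega)]
  ring

theorem sum2 (a b c θ : ℝ) (m : ℕ) (X : ℕ → ℝ) (i : ℕ) (hi : i ≤ m) :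
    ∑ j ∈ Finset.range (m + 3), fB a b c θ (i + 2) j * X j =
      c * X i + b * X (i + 1) + a * X (i + 2) := by
  have h : ∀ j ∈ Finset.range (m + 3), fB a b c θ (i + 2) j * X j =
      (if j = i then c else 0) * X j + (if j = i + 1 then b else 0) * X j +
        (if j = i + 2 then a else 0) * X j := by
    intro j _
    simp only [fB]
    rw [add_mul, add_mul]
  rw [Finset.sum_congr rfl h, Finset.sum_add_distrib, Finset.sum_add_distrib,
    sumite (m + 3) i (by omega), sumite (m + 3) (i + 1) (by omega),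
    sumite (m + 3) (i + 2) (by omega)]

/-- the matrix -/
noncomputable def mB (a b c θ : ℝ) (m : ℕ) : Matrix (Fin (m + 3)) (Fin (m + 3)) ℝ :=
  Matrix.of fun i j => fB a b c θ i.val j.val

theorem mB_apply (a b c θ : ℝ) (m : ℕ) (i j : Fin (m + 3)) :
    mB a b c θ m i j = fB a b c θ i.val j.val := rfl

theorem det_mB (a b c θ : ℝ) (m : ℕ) : (mB a b c θ m).det = a ^ (m + 1) := by
  have h : (mB a b c θ m).BlockTriangular OrderDual.toDual := by
    intro i j hij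
    rw [mB_apply]
    exact fB_lower a b c θ _ _ (by
      have h2 : i < j := hij
      exact h2)
  rw [Matrix.det_of_isLowerTriangular _ h, Fin.prod_univ_succ, Fin.prod_univ_succ]
  have h0 : mB a b c θ m 0 0 = 1 := by
    rw [mB_apply]
    exact fB_d0 a b c θ
  have h1 : mB a b c θ m (Fin.succ 0) (Fin.succ 0) = 1 := by
    rw [mB_apply]
    exact fB_d1 a b c θ
  have h2 : ∀ i : Fin (m + 1), mB a b c θ m i.succ.succ i.succ.succ = a := by
    intro i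
    rw [mB_apply]
    have e : (i.succ.succ : Fin (m + 3)).val = i.val + 2 := by
      simp only [Fin.val_succ]
    rw [e]
    exact fB_d2 a b c θ i.val
  rw [h0, h1, one_mul, one_mul, Finset.prod_congr rfl fun i _ => h2 i, Finset.prod_const,
    Finset.card_univ, Fintype.card_fin]

/-- the bounds -/
noncomputable def fc (Y δ : ℝ) : ℕ → ℝ
  | 0 => Y
  | 1 => δ
  | (_ + 2) => 1 / 2

theorem fc_pos (Y δ : ℝ) (hY : 0 < Y) (hδ : 0 < δ) (i : ℕ) : 0 < fc Y δ i := by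
  rcases i with _ | _ | i
  · exact hY
  · exact hδ
  · simp only [fc]
    norm_num

theorem prod_fc (Y δ : ℝ) (m : ℕ) :
    ∏ i : Fin (m + 3), fc Y δ i.val = Y * (δ * (1 / 2) ^ (m + 1)) := by
  rw [Fin.prod_univ_succ, Fin.prod_univ_succ]
  have h0 : fc Y δ (0 : Fin (m + 3)).val = Y := rfl
  have h1 : fc Y δ (Fin.succ (0 : Fin (m + 2))).val = δ := rfl
  have h2 : ∀ i : Fin (m + 1), fc Y δ (i.succ.succ : Fin (m + 3)).val = 1 / 2 := by
    intro i
    have e : (i.succ.succ : Fin (m + 3)).val = i.val + 2 := by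
      simp only [Fin.val_succ]
    rw [e]
    rfl
  rw [h0, h1, Finset.prod_congr rfl fun i _ => h2 i, Finset.prod_const, Finset.card_univ,
    Fintype.card_fin]

/-- the roots and the coefficients -/
theorem coef (q : Qd) (θ₁ θ₂ : ℝ) (h : ∀ t : ℝ, q.ev t = q.a * (t - θ₁) * (t - θ₂)) :
    (q.c : ℝ) = q.a * θ₁ * θ₂ ∧ (q.b : ℝ) = -(q.a * (θ₁ + θ₂)) := by
  have h0 := h 0
  have h1 := h 1
  unfold Qd.ev at h0 h1
  constructor
  · linarith
  · linarith

theorem bound (q : Qd) (θ₁ θ₂ : ℝ) (hb : (q.b : ℝ) = -(q.a * (θ₁ + θ₂))) (h1 : |θ₁| ≤ 1) :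
    |(q.a : ℝ)| * max 1 |θ₂| ≤ 2 * (q.ht : ℝ) := by
  have ha : |(q.a : ℝ)| ≤ (q.ht : ℝ) := by
    have e : |q.a| ≤ q.ht := le_max_left _ _
    have e2 : ((|q.a| : ℤ) : ℝ) ≤ (q.ht : ℝ) := by exact_mod_cast e
    rwa [Int.cast_abs] at e2
  have hb2 : |(q.b : ℝ)| ≤ (q.ht : ℝ) := by
    have e : |q.b| ≤ q.ht := le_trans (le_max_left _ _) (le_max_right _ _)
    have e2 : ((|q.b| : ℤ) : ℝ) ≤ (q.ht : ℝ) := by exact_mod_cast e
    rwa [Int.cast_abs] at e2
  have hpos : 0 ≤ (q.ht : ℝ) := le_trans (abs_nonneg _) ha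
  rcases max_choice 1 |θ₂| with hm | hm
  · rw [hm, mul_one]
    linarith
  · rw [hm, ← abs_mul]
    have e : (q.a : ℝ) * θ₂ = -((q.b : ℝ) + q.a * θ₁) := by
      rw [hb]
      ring
    rw [e, abs_neg]
    have e1 : |(q.b : ℝ) + q.a * θ₁| ≤ |(q.b : ℝ)| + |(q.a : ℝ) * θ₁| := abs_add_le _ _
    have e2 : |(q.a : ℝ) * θ₁| ≤ |(q.a : ℝ)| := by
      rw [abs_mul]
      calc |(q.a : ℝ)| * |θ₁| ≤ |(q.a : ℝ)| * 1 := mul_le_mul_of_nonneg_left h1 (abs_nonneg _)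
        _ = |(q.a : ℝ)| := mul_one _
    linarith

end PtQ

theorem wPtQ (h1 : S_MinkG) : S_PtQ := by
  intro n q θ₁ θ₂ Y δ hn ha hev hθ hY hδ hnδ hht
  obtain ⟨m, rfl⟩ : ∃ m, n = m + 2 := ⟨n - 2, by omega⟩
  obtain ⟨hc, hb⟩ := PtQ.coef q θ₁ θ₂ hev
  have hbd := PtQ.bound q θ₁ θ₂ hb hθ
  have haR : (q.a : ℝ) ≠ 0 := by exact_mod_cast ha
  set M : ℝ := max 1 |θ₂| with hM
  have hM1 : 1 ≤ M := le_max_left _ _
  have hM2 : |θ₂| ≤ M := le_max_right _ _
  have hM0 : 0 < M := lt_of_lt_of_le one_pos hM1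
  set δ' : ℝ := δ / M ^ (m + 1) with hδ'
  have hMp : 0 < M ^ (m + 1) := pow_pos hM0 _
  have hδ'0 : 0 < δ' := div_pos hδ hMp
  have hδ'1 : δ' * M ^ (m + 1) = δ := div_mul_cancel₀ _ (ne_of_gt hMp)
  have hMp1 : 1 ≤ M ^ (m + 1) := one_le_pow₀ hM1
  have hδ'2 : δ' ≤ δ := by
    have e : δ' * 1 ≤ δ' * M ^ (m + 1) := mul_le_mul_of_nonneg_left hMp1 (le_of_lt hδ'0)
    rw [mul_one, hδ'1] at e
    exact e
  have hn1 : m + 2 - 1 = m + 1 := by omega
  rw [hn1] at hht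
  -- the determinant condition
  have hdet : |(PtQ.mB q.a q.b q.c θ₁ m).det| ≤
      ∏ i : Fin (m + 3), PtQ.fc Y δ' i.val := by
    rw [PtQ.det_mB, PtQ.prod_fc, abs_pow]
    have e1 : (2 * (|(q.a : ℝ)| * M)) ^ (m + 1) ≤ Y * δ := by
      refine le_trans (pow_le_pow_left₀ ?_ ?_ _) hht
      · have := abs_nonneg (q.a : ℝ)
        positivity
      · linarith
    have e2 : (2 * (|(q.a : ℝ)| * M)) ^ (m + 1) = |(q.a : ℝ)| ^ (m + 1) * (2 ^ (m + 1) * M ^ (m + 1)) := by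
      rw [mul_pow, mul_pow]
      ring
    rw [e2, ← hδ'1] at e1
    have hP : 0 < (2 : ℝ) ^ (m + 1) * M ^ (m + 1) := by positivity
    have e3 : |(q.a : ℝ)| ^ (m + 1) * (2 ^ (m + 1) * M ^ (m + 1)) ≤
        (Y * (δ' * (1 / 2) ^ (m + 1))) * (2 ^ (m + 1) * M ^ (m + 1)) := by
      refine le_trans e1 (le_of_eq ?_)
      have e4 : (1 / 2 : ℝ) ^ (m + 1) * 2 ^ (m + 1) = 1 := by
        rw [← mul_pow]
        norm_num
      calc Y * (δ' * M ^ (m + 1)) = Y * (δ' * M ^ (m + 1)) * 1 := by ring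
        _ = Y * (δ' * M ^ (m + 1)) * ((1 / 2 : ℝ) ^ (m + 1) * 2 ^ (m + 1)) := by rw [e4]
        _ = (Y * (δ' * (1 / 2) ^ (m + 1))) * (2 ^ (m + 1) * M ^ (m + 1)) := by ring
    exact le_of_mul_le_mul_right e3 hP
  have hdet0 : (PtQ.mB q.a q.b q.c θ₁ m).det ≠ 0 := by
    rw [PtQ.det_mB]
    exact pow_ne_zero _ haR
  obtain ⟨x, hx0, hx⟩ := h1 (m + 3) (PtQ.mB q.a q.b q.c θ₁ m) (fun i => PtQ.fc Y δ' i.val)
    (by omega) (fun i => PtQ.fc_pos Y δ' hY hδ'0 i.val) hdet0 hdet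
  -- the extension by zero
  set X : ℕ → ℤ := fun k => if h : k < m + 3 then x ⟨k, h⟩ else 0 with hX
  have hXx : ∀ j : Fin (m + 3), X j.val = x j := by
    intro j
    rw [hX]
    simp only
    rw [dif_pos j.isLt]
  have hsum : ∀ i : Fin (m + 3),
      ∑ j, PtQ.mB q.a q.b q.c θ₁ m i j * (x j : ℝ) =
        ∑ j ∈ Finset.range (m + 3), PtQ.fB q.a q.b q.c θ₁ i.val j * (X j : ℝ) := by
    intro i
    rw [← Fin.sum_univ_eq_sum_range (fun j => PtQ.fB q.a q.b q.c θ₁ i.val j * (X j : ℝ)) (m + 3)]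
    refine Finset.sum_congr rfl fun j _ => ?_
    rw [PtQ.mB_apply, hXx j]
  have hx00 : |(X 0 : ℝ)| ≤ Y := by
    have e := hx ⟨0, by omega⟩
    rw [hsum] at e
    simp only at e
    rw [PtQ.sum0 _ _ _ _ m (fun j => (X j : ℝ))] at e
    exact e
  have hx11 : |(X 1 : ℝ) - θ₁ * (X 0 : ℝ)| ≤ δ' := by
    have e := hx ⟨1, by omega⟩
    rw [hsum] at e
    simp only at e
    rw [PtQ.sum1 _ _ _ _ m (fun j => (X j : ℝ))] at e
    exact e
  have hx2 : ∀ i : ℕ, i ≤ m →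
      (q.c : ℝ) * (X i : ℝ) + q.b * (X (i + 1) : ℝ) + q.a * (X (i + 2) : ℝ) = 0 := by
    intro i hi
    have e := hx ⟨i + 2, by omega⟩
    rw [hsum] at e
    simp only at e
    rw [PtQ.sum2 _ _ _ _ m (fun j => (X j : ℝ)) i hi] at e
    have e1 : PtQ.fc Y δ' (i + 2) = 1 / 2 := rfl
    rw [e1] at e
    have e2 : |((q.c * X i + q.b * X (i + 1) + q.a * X (i + 2) : ℤ) : ℝ)| < 1 := by
      push_cast
      exact lt_of_le_of_lt e (by norm_num)
    have e3 : |q.c * X i + q.b * X (i + 1) + q.a * X (i + 2)| < 1 := by exact_mod_cast e2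
    have e4 : q.c * X i + q.b * X (i + 1) + q.a * X (i + 2) = 0 := Int.abs_lt_one_iff.mp e3
    exact_mod_cast e4
  -- the errors
  have herr : ∀ i : ℕ, i ≤ m + 1 →
      (X (i + 1) : ℝ) - θ₁ * (X i : ℝ) = θ₂ ^ i * ((X 1 : ℝ) - θ₁ * (X 0 : ℝ)) := by
    intro i
    induction i with
    | zero =>
      intro _
      rw [pow_zero, one_mul, zero_add]
    | succ i ih =>
      intro hi
      have e1 := ih (by omega)
      have e2 := hx2 i (by omega)
      rw [hc, hb] at e2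
      have e3 : (q.a : ℝ) * ((X (i + 2) : ℝ) - θ₁ * (X (i + 1) : ℝ)) =
          q.a * (θ₂ * ((X (i + 1) : ℝ) - θ₁ * (X i : ℝ))) := by
        linarith
      have e4 := mul_left_cancel₀ haR e3
      have e5 : i + 1 + 1 = i + 2 := rfl
      rw [e5, e4, e1, pow_succ]
      ring
  have herr2 : ∀ i : ℕ, i ≤ m + 1 → |(X (i + 1) : ℝ) - θ₁ * (X i : ℝ)| ≤ δ := by
    intro i hi
    rw [herr i hi, abs_mul, abs_pow, ← hδ'1, mul_comm]
    refine mul_le_mul hx11 ?_ (pow_nonneg (abs_nonneg _) _) (le_of_lt hδ'0)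
    calc |θ₂| ^ i ≤ M ^ i := pow_le_pow_left₀ (abs_nonneg _) hM2 _
      _ ≤ M ^ (m + 1) := pow_le_pow_right₀ hM1 hi
  have hfin : ∀ j : ℕ, j ≤ m + 2 → |(X 0 : ℝ) * θ₁ ^ j - (X j : ℝ)| ≤ j * δ := by
    intro j
    induction j with
    | zero =>
      intro _
      rw [pow_zero, mul_one, sub_self, abs_zero, Nat.cast_zero, zero_mul]
    | succ j ih =>
      intro hj
      have e1 := ih (by omega)
      have e2 := herr2 j (by omega)
      have e3 : (X 0 : ℝ) * θ₁ ^ (j + 1) - (X (j + 1) : ℝ) =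
          θ₁ * ((X 0 : ℝ) * θ₁ ^ j - (X j : ℝ)) - ((X (j + 1) : ℝ) - θ₁ * (X j : ℝ)) := by
        rw [pow_succ]
        ring
      rw [e3]
      have e4 : |θ₁ * ((X 0 : ℝ) * θ₁ ^ j - (X j : ℝ)) - ((X (j + 1) : ℝ) - θ₁ * (X j : ℝ))| ≤
          |θ₁ * ((X 0 : ℝ) * θ₁ ^ j - (X j : ℝ))| + |(X (j + 1) : ℝ) - θ₁ * (X j : ℝ)| :=
        abs_sub _ _
      have e5 : |θ₁ * ((X 0 : ℝ) * θ₁ ^ j - (X j : ℝ))| ≤ |(X 0 : ℝ) * θ₁ ^ j - (X j : ℝ)| := by
        rw [abs_mul]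
        calc |θ₁| * |(X 0 : ℝ) * θ₁ ^ j - (X j : ℝ)| ≤ 1 * |(X 0 : ℝ) * θ₁ ^ j - (X j : ℝ)| :=
              mul_le_mul_of_nonneg_right hθ (abs_nonneg _)
          _ = _ := one_mul _
      push_cast
      linarith
  have hfin2 : ∀ j : ℕ, j ≤ m + 2 →
      |(X 0 : ℝ) * θ₁ ^ j - (X j : ℝ)| ≤ ((m + 2 : ℕ) : ℝ) * δ := by
    intro j hj
    refine le_trans (hfin j hj) ?_
    refine mul_le_mul_of_nonneg_right ?_ (le_of_lt hδ)
    exact_mod_cast hj
  refine ⟨X, ?_, hx00, le_trans hx11 hδ'2, hfin2⟩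
  intro h0
  apply hx0
  funext j
  have hj : j.val ≤ m + 2 := by
    have := j.isLt
    omega
  have e := hfin2 j.val hj
  rw [h0, Int.cast_zero, zero_mul, zero_sub, abs_neg, hXx j] at e
  have e2 : |((x j : ℤ) : ℝ)| < 1 := lt_of_le_of_lt e hnδ
  have e3 : |x j| < 1 := by exact_mod_cast e2
  exact Int.abs_lt_one_iff.mp e3

end Pool.Agent.MP211W
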