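import Pool.Agent.Lib.MP_211f72_nt.W.SpecA

/-!
# MP_211f72_nt, third theorem, module QCov: cover of the exceptional set
-/

set_option autoImplicit false

namespace Pool.Agent.MP211W

open Polynomial NumberField

namespace QCov

/-! ## Covers -/

theorem cov_empty (s : ℝ) {B : ℝ} (hB : 0 ≤ B) : CovW s B ∅ :=
  ⟨∅, by simp, by simpa using hB, by simp⟩

theorem cov_image {α : Type} (s : ℝ) {ρ : ℝ} (hρ : 0 ≤ ρ) (S : Finset α) (f : α → ℝ) :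
    CovW s (S.card * ρ ^ s) {ξ | ∃ q ∈ S, |ξ - f q| ≤ ρ} := by
  classical
  refine ⟨S.image (fun q => (f q, ρ)), ?_, ?_, ?_⟩
  · intro p hp
    obtain ⟨q, _, rfl⟩ := Finset.mem_image.mp hp
    exact hρ
  · have h1 : ∑ p ∈ S.image (fun q => (f q, ρ)), p.2 ^ s =
        ∑ p ∈ S.image (fun q => (f q, ρ)), ρ ^ s := by
      refine Finset.sum_congr rfl fun p hp => ?_
      obtain ⟨q, _, rfl⟩ := Finset.mem_image.mp hp
      rfl
    rw [h1, Finset.sum_const, nsmul_eq_mul]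
    apply mul_le_mul_of_nonneg_right _ (Real.rpow_nonneg hρ s)
    exact_mod_cast Finset.card_image_le
  · rintro ξ ⟨q, hq, h⟩
    exact ⟨(f q, ρ), Finset.mem_image_of_mem _ hq, h⟩

theorem cov_biUnion {ι : Type} (s B : ℝ) (J : Finset ι) (E : ι → Set ℝ)
    (h : ∀ j ∈ J, CovW s B (E j)) : CovW s (J.card * B) {ξ | ∃ j ∈ J, ξ ∈ E j} := by
  classical
  induction J using Finset.induction_on with
  | empty =>
    refine (cov_empty s (B := (((∅ : Finset ι).card : ℕ) : ℝ) * B) (by simp)).mono le_rfl ?_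
    rintro ξ ⟨j, hj, _⟩
    simp at hj
  | insert j J hj ih =>
    have h1 := ih fun i hi => h i (Finset.mem_insert_of_mem hi)
    have h2 := h j (Finset.mem_insert_self j J)
    refine (h2.union h1).mono ?_ ?_
    · rw [Finset.card_insert_of_notMem hj]
      push_cast
      linarith
    · rintro ξ ⟨i, hi, hξ⟩
      rcases Finset.mem_insert.mp hi with rfl | hi
      · exact Or.inl hξ
      · exact Or.inr ⟨i, hi, hξ⟩

/-! ## Quadratic polynomials -/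

theorem fin_ht (N : ℤ) : {q : Qd | q.ht ≤ N}.Finite := by
  have h1 : ((Set.Icc (-N) N) ×ˢ ((Set.Icc (-N) N) ×ˢ (Set.Icc (-N) N)) :
      Set (ℤ × ℤ × ℤ)).Finite :=
    (Set.finite_Icc _ _).prod ((Set.finite_Icc _ _).prod (Set.finite_Icc _ _))
  refine (h1.image fun p : ℤ × ℤ × ℤ => (⟨p.1, p.2.1, p.2.2⟩ : Qd)).subset ?_
  intro q hq
  have h2 : q.ht ≤ N := hq
  have ha : |q.a| ≤ N := (le_max_left _ _).trans h2
  have hb : |q.b| ≤ N := ((le_max_left _ _).trans (le_max_right _ _)).trans h2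
  have hc : |q.c| ≤ N := ((le_max_right _ _).trans (le_max_right _ _)).trans h2
  exact ⟨(q.a, q.b, q.c), ⟨abs_le.mp ha, abs_le.mp hb, abs_le.mp hc⟩, rfl⟩

theorem fin_NQ (n : ℕ) (Y δ H Δ : ℝ) : {q : Qd | ∃ ξ x, NQ n Y δ H Δ q ξ x}.Finite := by
  refine (fin_ht ⌊H⌋).subset ?_
  rintro q ⟨ξ, x, h⟩
  exact Int.le_floor.mpr h.2.1

theorem one_le_ht {q : Qd} (h : q.Good) : 1 ≤ q.ht :=
  (Int.one_le_abs h.1).trans (le_max_left _ _)

theorem disc_le (q : Qd) : (q.disc : ℝ) ≤ 5 * (q.ht : ℝ) ^ 2 := by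
  have ha : |(q.a : ℝ)| ≤ (q.ht : ℝ) := by
    have : |q.a| ≤ q.ht := le_max_left _ _
    exact_mod_cast this
  have hb : |(q.b : ℝ)| ≤ (q.ht : ℝ) := by
    have : |q.b| ≤ q.ht := (le_max_left _ _).trans (le_max_right _ _)
    exact_mod_cast this
  have hc : |(q.c : ℝ)| ≤ (q.ht : ℝ) := by
    have : |q.c| ≤ q.ht := (le_max_right _ _).trans (le_max_right _ _)
    exact_mod_cast this
  have h0 : 0 ≤ (q.ht : ℝ) := (abs_nonneg _).trans ha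
  have h1 : (q.b : ℝ) ^ 2 ≤ (q.ht : ℝ) ^ 2 := sq_le_sq' (by have := (abs_le.mp hb).1; linarith)
    (abs_le.mp hb).2
  have h2 : |(q.a : ℝ) * (q.c : ℝ)| ≤ (q.ht : ℝ) * (q.ht : ℝ) := by
    rw [abs_mul]
    exact mul_le_mul ha hc (abs_nonneg _) h0
  have h3 := (abs_le.mp h2).1
  unfold Qd.disc
  push_cast
  nlinarith

/-- cover of the numbers with near points of one dyadic range -/
theorem cov_pair (h1 : S_Near1) {n : ℕ} (hn : 2 ≤ n) {s Y δ H Δ K : ℝ} (hδ : 0 < δ) (hY : 0 < Y)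
    (hH : 0 ≤ H) (hΔ : 0 < Δ) (h100 : 100 * (H ^ 2 * δ) ≤ Y)
    (hK : ∀ S : Finset Qd, (∀ q ∈ S, ∃ (ξ : ℝ) (x : ℕ → ℤ), NQ n Y δ H Δ q ξ x) →
      (S.card : ℝ) ≤ K) :
    CovW s (2 * K * (8 * H * δ / (Y * Real.sqrt Δ)) ^ s) {ξ | ∃ q x, NQ n Y δ H Δ q ξ x} := by
  classical
  obtain ⟨ρ, hρ⟩ : ∃ ρ, ρ = 8 * H * δ / (Y * Real.sqrt Δ) := ⟨_, rfl⟩
  have hsq : 0 < Real.sqrt Δ := Real.sqrt_pos.mpr hΔ
  have hρ0 : 0 ≤ ρ := by
    rw [hρ]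
    positivity
  rw [← hρ]
  obtain ⟨S, hS⟩ : ∃ S, S = (fin_NQ n Y δ H Δ).toFinset := ⟨_, rfl⟩
  have hmS : ∀ q, q ∈ S ↔ ∃ ξ x, NQ n Y δ H Δ q ξ x := by
    intro q
    rw [hS, Set.Finite.mem_toFinset]
    rfl
  have hex : ∀ q : Qd, ∃ θ : ℝ × ℝ, q ∈ S →
      ∀ t : ℝ, q.ev t = q.a * (t - θ.1) * (t - θ.2) := by
    intro q
    by_cases hq : q ∈ S
    · obtain ⟨ξ, x, hNQ⟩ := (hmS q).mp hq
      obtain ⟨θ₁, θ₂, h, _⟩ := h1.2 n Y δ H Δ ξ q x hn hδ h100 hNQ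
      exact ⟨(θ₁, θ₂), fun _ => h⟩
    · exact ⟨(0, 0), fun h => (hq h).elim⟩
  choose θ hθ using hex
  have c1 := cov_image s hρ0 S (fun q => (θ q).1)
  have c2 := cov_image s hρ0 S (fun q => (θ q).2)
  refine (c1.union c2).mono ?_ ?_
  · have h2 := hK S fun q hq => (hmS q).mp hq
    have h3 := mul_le_mul_of_nonneg_right h2 (Real.rpow_nonneg hρ0 s)
    linarith
  · rintro ξ ⟨q, x, hNQ⟩
    have hq : q ∈ S := (hmS q).mpr ⟨ξ, x, hNQ⟩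
    obtain ⟨θ₁, θ₂, h, _, hle, _⟩ := h1.2 n Y δ H Δ ξ q x hn hδ h100 hNQ
    have hle2 : |ξ - θ₁| ≤ ρ := by
      refine hle.trans ?_
      rw [hρ]
      have h4 : Real.sqrt Δ ≤ Real.sqrt q.disc := Real.sqrt_le_sqrt hNQ.2.2.2.1
      apply div_le_div_of_nonneg_left (by positivity) (by positivity)
      exact mul_le_mul_of_nonneg_left h4 hY.le
    have ha : (q.a : ℝ) ≠ 0 := by
      have := hNQ.1.1
      exact_mod_cast this
    have h5 : q.ev θ₁ = 0 := by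
      rw [h θ₁, sub_self, mul_zero, zero_mul]
    rw [hθ q hq θ₁, mul_assoc] at h5
    rcases mul_eq_zero.mp ((mul_eq_zero.mp h5).resolve_left ha) with h6 | h6
    · left
      refine ⟨q, hq, ?_⟩
      rw [← sub_eq_zero.mp h6]
      exact hle2
    · right
      refine ⟨q, hq, ?_⟩
      rw [← sub_eq_zero.mp h6]
      exact hle2

/-! ## Numbers -/

/-- the powers of `H` -/
theorem num_H {k : ℕ} {A H : ℝ} (hA : 0 < A) (hH : 1 ≤ H) (hAH : A ≤ H ^ (k + 3)) :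
    A / H ^ (k + 2) * H ^ 2 ≤ A ^ (3 / ((k : ℝ) + 3)) := by
  have hH0 : 0 < H := lt_of_lt_of_le one_pos hH
  have hk : (0 : ℝ) < (k : ℝ) + 3 := by positivity
  have e1 : A / H ^ (k + 2) * H ^ 2 = A / H ^ k := by
    rw [pow_add]
    field_simp
  rw [e1, div_le_iff₀ (by positivity)]
  have e2 : A ^ ((k : ℝ) / ((k : ℝ) + 3)) ≤ H ^ k := by
    have h1 : A ^ ((k : ℝ) / ((k : ℝ) + 3)) ≤ (H ^ (k + 3)) ^ ((k : ℝ) / ((k : ℝ) + 3)) :=
      Real.rpow_le_rpow hA.le hAH (by positivity)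
    refine h1.trans (le_of_eq ?_)
    rw [← Real.rpow_natCast H (k + 3), ← Real.rpow_mul hH0.le, ← Real.rpow_natCast H k]
    congr 1
    push_cast
    field_simp
  have e3 : A = A ^ (3 / ((k : ℝ) + 3)) * A ^ ((k : ℝ) / ((k : ℝ) + 3)) := by
    rw [← Real.rpow_add hA]
    have : 3 / ((k : ℝ) + 3) + (k : ℝ) / ((k : ℝ) + 3) = 1 := by
      field_simp
      ring
    rw [this, Real.rpow_one]
  calc A = A ^ (3 / ((k : ℝ) + 3)) * A ^ ((k : ℝ) / ((k : ℝ) + 3)) := e3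
    _ ≤ A ^ (3 / ((k : ℝ) + 3)) * H ^ k :=
        mul_le_mul_of_nonneg_left e2 (Real.rpow_nonneg hA.le _)

/-- the powers of `Y` -/
theorem num_Y {Y lam s m : ℝ} (hY : 0 < Y) :
    (Y * (Y / 2) ^ (-lam)) ^ (3 / m) * ((Y / 2) ^ (-lam) / Y) ^ s =
      (2 : ℝ) ^ (3 * lam / m + lam * s) * Y ^ (-(s * (1 + lam) - 3 * (1 - lam) / m)) := by
  have hδ : 0 < (Y / 2) ^ (-lam) := Real.rpow_pos_of_pos (by positivity) _
  have hlδ : Real.log ((Y / 2) ^ (-lam)) = -lam * (Real.log Y - Real.log 2) := by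
    rw [Real.log_rpow (by positivity), Real.log_div hY.ne' (by norm_num)]
  rw [Real.rpow_def_of_pos (mul_pos hY hδ), Real.rpow_def_of_pos (div_pos hδ hY),
    Real.rpow_def_of_pos (by norm_num : (0 : ℝ) < 2), Real.rpow_def_of_pos hY
      (-(s * (1 + lam) - 3 * (1 - lam) / m)), ← Real.exp_add,
    ← Real.exp_add, Real.log_mul hY.ne' hδ.ne', Real.log_div hδ.ne' hY.ne', hlδ]
  congr 1
  ring

/-- the estimate for one pair -/
theorem num_pair {k : ℕ} {Y lam s H Δ C e : ℝ} (hY : 0 < Y) (hs : 0 < s) (hs1 : s ≤ 1)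
    (hH : 1 ≤ H) (hΔ : 0 < Δ) (hΔH : Δ ≤ 5 * H ^ 2) (hC : 0 ≤ C)
    (hAH : Y * (Y / 2) ^ (-lam) ≤ H ^ (k + 3)) :
    2 * (C * Y ^ e * (Y * (Y / 2) ^ (-lam) / H ^ (k + 2)) * (H * Real.sqrt Δ)) *
      (8 * H * (Y / 2) ^ (-lam) / (Y * Real.sqrt Δ)) ^ s ≤
    48 * (2 : ℝ) ^ (3 * lam / ((k : ℝ) + 3) + lam * s) * C *
      Y ^ (e - (s * (1 + lam) - 3 * (1 - lam) / ((k : ℝ) + 3))) := by
  obtain ⟨δ, hδe⟩ : ∃ δ, δ = (Y / 2) ^ (-lam) := ⟨_, rfl⟩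
  have hδ : 0 < δ := by
    rw [hδe]
    exact Real.rpow_pos_of_pos (by positivity) _
  have hH0 : 0 < H := lt_of_lt_of_le one_pos hH
  have hsq : 0 < Real.sqrt Δ := Real.sqrt_pos.mpr hΔ
  have hsqH : Real.sqrt Δ ≤ 3 * H := by
    rw [Real.sqrt_le_left (by positivity)]
    nlinarith [sq_nonneg H]
  have hY1 := num_Y (lam := lam) (s := s) (m := (k : ℝ) + 3) hY
  rw [← hδe] at hAH hY1 ⊢
  obtain ⟨q, hq⟩ : ∃ q, q = Real.sqrt Δ := ⟨_, rfl⟩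
  rw [← hq] at hsq hsqH ⊢
  have hA : 0 < Y * δ := mul_pos hY hδ
  -- the radius
  have e1 : (8 * H * δ / (Y * q)) ^ s = 8 ^ s * H ^ s * (δ / Y) ^ s / q ^ s := by
    have : 8 * H * δ / (Y * q) = 8 * H * (δ / Y) / q := by
      field_simp
    rw [this, Real.div_rpow (by positivity) hsq.le, Real.mul_rpow (by positivity) (by positivity),
      Real.mul_rpow (by norm_num) hH0.le]
  have e2 : q / q ^ s ≤ 3 * H ^ (1 - s) := by
    have h1 : q / q ^ s = q ^ (1 - s) := by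
      rw [Real.rpow_sub hsq, Real.rpow_one]
    rw [h1]
    have h2 : q ^ (1 - s) ≤ (3 * H) ^ (1 - s) := Real.rpow_le_rpow hsq.le hsqH (by linarith)
    rw [Real.mul_rpow (by norm_num) hH0.le] at h2
    refine h2.trans (mul_le_mul_of_nonneg_right ?_ (Real.rpow_nonneg hH0.le _))
    calc (3 : ℝ) ^ (1 - s) ≤ 3 ^ (1 : ℝ) :=
          Real.rpow_le_rpow_of_exponent_le (by norm_num) (by linarith)
      _ = 3 := Real.rpow_one _
  have e3 : (8 : ℝ) ^ s ≤ 8 := by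
    calc (8 : ℝ) ^ s ≤ 8 ^ (1 : ℝ) := Real.rpow_le_rpow_of_exponent_le (by norm_num) hs1
      _ = 8 := Real.rpow_one _
  have e4 : H * H ^ s * H ^ (1 - s) = H ^ 2 := by
    have h1 : H * H ^ s * H ^ (1 - s) = H * (H ^ s * H ^ (1 - s)) := by ring
    rw [h1, ← Real.rpow_add hH0]
    have : s + (1 - s) = 1 := by ring
    rw [this, Real.rpow_one]
    ring
  have hHs : 0 ≤ H ^ s := Real.rpow_nonneg hH0.le _
  have hH1s : 0 ≤ H ^ (1 - s) := Real.rpow_nonneg hH0.le _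
  have hd : 0 ≤ (δ / Y) ^ s := Real.rpow_nonneg (by positivity) _
  have hYe : 0 ≤ Y ^ e := Real.rpow_nonneg hY.le _
  have h8 : 0 ≤ (8 : ℝ) ^ s := Real.rpow_nonneg (by norm_num) _
  have hHk : 0 < H ^ (k + 2) := by positivity
  calc 2 * (C * Y ^ e * (Y * δ / H ^ (k + 2)) * (H * q)) * (8 * H * δ / (Y * q)) ^ s
      = 2 * C * Y ^ e * (Y * δ / H ^ (k + 2)) * (δ / Y) ^ s * (8 ^ s * (H * H ^ s)) *
          (q / q ^ s) := by
        rw [e1]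
        ring
    _ ≤ 2 * C * Y ^ e * (Y * δ / H ^ (k + 2)) * (δ / Y) ^ s * (8 ^ s * (H * H ^ s)) *
          (3 * H ^ (1 - s)) := mul_le_mul_of_nonneg_left e2 (by positivity)
    _ = 6 * C * Y ^ e * (Y * δ / H ^ (k + 2)) * (δ / Y) ^ s * (H * H ^ s * H ^ (1 - s)) *
          8 ^ s := by ring
    _ ≤ 6 * C * Y ^ e * (Y * δ / H ^ (k + 2)) * (δ / Y) ^ s * (H * H ^ s * H ^ (1 - s)) *
          8 := mul_le_mul_of_nonneg_left e3 (by positivity)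
    _ = 48 * C * Y ^ e * (δ / Y) ^ s * (Y * δ / H ^ (k + 2) * H ^ 2) := by
        rw [e4]
        ring
    _ ≤ 48 * C * Y ^ e * (δ / Y) ^ s * (Y * δ) ^ (3 / ((k : ℝ) + 3)) :=
        mul_le_mul_of_nonneg_left (num_H hA hH hAH) (by positivity)
    _ = 48 * C * Y ^ e * ((Y * δ) ^ (3 / ((k : ℝ) + 3)) * (δ / Y) ^ s) := by ring
    _ = 48 * (2 : ℝ) ^ (3 * lam / ((k : ℝ) + 3) + lam * s) * C *
          (Y ^ e * Y ^ (-(s * (1 + lam) - 3 * (1 - lam) / ((k : ℝ) + 3)))) := by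
        rw [hY1]
        ring
    _ = _ := by
        rw [← Real.rpow_add hY]
        congr 2

/-- a power of two at most `Y` -/
theorem exp_le {u : ℕ} {Y : ℝ} (hY : 0 < Y) (h : (2 : ℝ) ^ u ≤ Y) :
    u ≤ ⌊2 * Real.log Y⌋₊ := by
  apply Nat.le_floor
  have h1 := Real.log_le_log (by positivity) h
  rw [Real.log_pow] at h1
  have h2 := Real.log_two_gt_d9
  have h3 : (0 : ℝ) ≤ u := Nat.cast_nonneg u
  nlinarith

/-- the number of pairs -/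
theorem card_le {Y η : ℝ} (hY : 1 ≤ Y) (hη : 0 < η) :
    ((((⌊2 * Real.log Y⌋₊ + 1) * (2 * ⌊2 * Real.log Y⌋₊ + 4) : ℕ)) : ℝ) ≤
      4 * (1 + 2 / η) ^ 2 * (Y ^ η) ^ 2 := by
  obtain ⟨M, hM⟩ : ∃ M, M = ⌊2 * Real.log Y⌋₊ := ⟨_, rfl⟩
  rw [← hM]
  have hlog : 0 ≤ Real.log Y := Real.log_nonneg hY
  have h1 : (M : ℝ) ≤ 2 * Real.log Y := by
    rw [hM]
    exact Nat.floor_le (by positivity)
  have h2 := Real.log_le_rpow_div (by linarith : 0 ≤ Y) hη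
  have h3 : 1 ≤ Y ^ η := Real.one_le_rpow hY hη.le
  have h4 : (M : ℝ) + 1 ≤ (1 + 2 / η) * Y ^ η := by
    have h5 : (1 + 2 / η) * Y ^ η = Y ^ η + 2 * (Y ^ η / η) := by ring
    rw [h5]
    linarith
  have h5 : ((M : ℝ) + 1) ^ 2 ≤ ((1 + 2 / η) * Y ^ η) ^ 2 :=
    pow_le_pow_left₀ (by positivity) h4 2
  have h6 : (0 : ℝ) ≤ M := Nat.cast_nonneg M
  push_cast
  nlinarith

end QCov

open _root_.Pool.Agent.MP211W.QCov

theorem wQCov (h1 : S_Near1) (h2 : S_ClassA) : S_QCov := by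
  classical
  intro n lam s C₀ hn hT hlam hs hs1 hC₀ hκ'
  obtain ⟨k, rfl⟩ : ∃ k, n = k + 4 := ⟨n - 4, by omega⟩
  have hcast : (((k + 4 : ℕ) : ℝ) - 1) = (k : ℝ) + 3 := by
    push_cast
    ring
  rw [hcast] at hκ'
  obtain ⟨κ, hκ⟩ : ∃ κ, κ = s * (1 + lam) - 3 * (1 - lam) / ((k : ℝ) + 3) := ⟨_, rfl⟩
  have hκ0 : 0 < κ := by
    rw [hκ]
    linarith
  obtain ⟨C, hC, hA⟩ := h2 (k + 4) (by omega) hT (κ / 4) (by positivity)
  obtain ⟨C₂, hC₂⟩ : ∃ C₂, C₂ = 48 * (2 : ℝ) ^ (3 * lam / ((k : ℝ) + 3) + lam * s) * C :=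
    ⟨_, rfl⟩
  have hC₂0 : 0 < C₂ := by
    rw [hC₂]
    have : 0 < (2 : ℝ) ^ (3 * lam / ((k : ℝ) + 3) + lam * s) :=
      Real.rpow_pos_of_pos (by norm_num) _
    positivity
  obtain ⟨C₄, hC₄⟩ : ∃ C₄, C₄ = 4 * (1 + 2 / (κ / 16)) ^ 2 * C₂ := ⟨_, rfl⟩
  -- large `Y`
  have t1 : Filter.Tendsto (fun Y : ℝ => (Y / 2) ^ (-lam)) Filter.atTop (nhds 0) :=
    (tendsto_rpow_neg_atTop hlam).comp (Filter.tendsto_id.atTop_div_const (by norm_num))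
  have t2 : Filter.Tendsto (fun Y : ℝ => Y ^ (κ / 8)) Filter.atTop Filter.atTop :=
    tendsto_rpow_atTop (by positivity)
  have hδ₀ : 0 < 1 / (100 * 2 ^ (k + 2) * C₀) := by positivity
  have ev1 := t1.eventually (Iio_mem_nhds hδ₀)
  have ev2 := t2.eventually (Filter.eventually_ge_atTop C₄)
  obtain ⟨Y₁, hY₁⟩ := Filter.eventually_atTop.mp (ev1.and ev2)
  refine ⟨κ / 2, max 2 Y₁, by positivity, le_max_left _ _, ?_⟩
  intro Y hYY
  have hY2 : 2 ≤ Y := (le_max_left _ _).trans hYY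
  obtain ⟨hδlt, hYbig⟩ := hY₁ Y ((le_max_right _ _).trans hYY)
  have hY0 : 0 < Y := by linarith
  obtain ⟨δ, hδ⟩ : ∃ δ, δ = (Y / 2) ^ (-lam) := ⟨_, rfl⟩
  have hδlt' : δ < 1 / (100 * 2 ^ (k + 2) * C₀) := by
    rw [hδ]
    exact hδlt
  rw [← hδ]
  have hδ0 : 0 < δ := by
    rw [hδ]
    exact Real.rpow_pos_of_pos (by positivity) _
  have hP : (0 : ℝ) < 2 ^ (k + 2) := by positivity
  have hδC : 100 * 2 ^ (k + 2) * C₀ * δ ≤ 1 := by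
    rw [lt_div_iff₀ (by positivity)] at hδlt'
    linarith
  have hP1 : (1 : ℝ) ≤ 2 ^ (k + 2) := one_le_pow₀ (by norm_num)
  have hPC : 1 ≤ 2 ^ (k + 2) * C₀ := by nlinarith
  have hδ1 : δ ≤ 1 := by
    have : δ ≤ 100 * 2 ^ (k + 2) * C₀ * δ := by
      apply le_mul_of_one_le_left hδ0.le
      linarith
    linarith
  obtain ⟨M, hM⟩ : ∃ M, M = ⌊2 * Real.log Y⌋₊ := ⟨_, rfl⟩
  -- bounds for `H`
  have hHb : ∀ H : ℝ, 1 ≤ H → H ^ (k + 2) ≤ 2 ^ (k + 2) * (C₀ * (Y * δ)) →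
      H ≤ Y ∧ 100 * (H ^ 2 * δ) ≤ Y := by
    intro H hH hHk
    have e1 : H ^ 2 ≤ H ^ (k + 2) := pow_le_pow_right₀ hH (by omega)
    have e2 : H ^ 2 ≤ 2 ^ (k + 2) * (C₀ * (Y * δ)) := e1.trans hHk
    have e3 : 2 ^ (k + 2) * (C₀ * (Y * δ)) * 100 ≤ Y := by
      have : 2 ^ (k + 2) * (C₀ * (Y * δ)) * 100 = (100 * 2 ^ (k + 2) * C₀ * δ) * Y := by ring
      rw [this]
      exact mul_le_of_le_one_left hY0.le hδC
    have e4 : 0 ≤ H ^ 2 := by positivity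
    constructor
    · nlinarith
    · have : H ^ 2 * δ ≤ H ^ 2 * 1 := mul_le_mul_of_nonneg_left hδ1 e4
      linarith
  -- the sets of the pairs
  let E : ℕ × ℕ → Set ℝ := fun p => {ξ | (Y * δ ≤ ((2 : ℝ) ^ p.1) ^ (k + 3) ∧
    ((2 : ℝ) ^ p.1) ^ (k + 2) ≤ 2 ^ (k + 2) * (C₀ * (Y * δ)) ∧
    (2 : ℝ) ^ p.2 ≤ 5 * ((2 : ℝ) ^ p.1) ^ 2) ∧
    ∃ q x, NQ (k + 4) Y δ ((2 : ℝ) ^ p.1) ((2 : ℝ) ^ p.2) q ξ x}
  have hcov : ∀ p ∈ Finset.range (M + 1) ×ˢ Finset.range (2 * M + 4),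
      CovW s (C₂ * Y ^ (κ / 4 - κ)) (E p) := by
    intro p _
    by_cases hp : (Y * δ ≤ ((2 : ℝ) ^ p.1) ^ (k + 3) ∧
        ((2 : ℝ) ^ p.1) ^ (k + 2) ≤ 2 ^ (k + 2) * (C₀ * (Y * δ)) ∧
        (2 : ℝ) ^ p.2 ≤ 5 * ((2 : ℝ) ^ p.1) ^ 2)
    · obtain ⟨p1, p2, p3⟩ := hp
      have hH : (1 : ℝ) ≤ 2 ^ p.1 := one_le_pow₀ (by norm_num)
      have hΔ : (0 : ℝ) < 2 ^ p.2 := by positivity
      obtain ⟨b1, b2⟩ := hHb _ hH p2
      have c1 := cov_pair (n := k + 4) (s := s) h1 (by omega) hδ0 hY0 (by linarith) hΔ b2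
        (fun S hS => hA Y δ ((2 : ℝ) ^ p.1) ((2 : ℝ) ^ p.2) S (by linarith) hH b1 hδ0 hδ1 b2 hS)
      refine c1.mono ?_ ?_
      · have c2 := num_pair (k := k) (Y := Y) (lam := lam) (s := s) (H := (2 : ℝ) ^ p.1)
          (Δ := (2 : ℝ) ^ p.2) (C := C) (e := κ / 4) hY0 hs hs1 hH hΔ p3 hC.le
          (by rw [← hδ]; exact p1)
        rw [← hδ, ← hκ, ← hC₂] at c2
        exact c2
      · rintro ξ ⟨_, h⟩
        exact h
    · refine (cov_empty s (B := C₂ * Y ^ (κ / 4 - κ)) ?_).mono le_rfl ?_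
      · have : 0 < Y ^ (κ / 4 - κ) := Real.rpow_pos_of_pos hY0 _
        positivity
      · rintro ξ ⟨h, _⟩
        exact (hp h).elim
  have hall := cov_biUnion s (C₂ * Y ^ (κ / 4 - κ))
    (Finset.range (M + 1) ×ˢ Finset.range (2 * M + 4)) E hcov
  refine hall.mono ?_ ?_
  · rw [Finset.card_product, Finset.card_range, Finset.card_range]
    have c1 := card_le (Y := Y) (η := κ / 16) (by linarith) (by positivity)
    rw [← hM] at c1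
    have c2 : (Y ^ (κ / 16)) ^ 2 = Y ^ (κ / 8) := by
      rw [← Real.rpow_natCast, ← Real.rpow_mul hY0.le]
      congr 1
      push_cast
      ring
    rw [c2] at c1
    have hy1 : 0 < Y ^ (κ / 4 - κ) := Real.rpow_pos_of_pos hY0 _
    have hy2 : 0 < Y ^ (κ / 8) := Real.rpow_pos_of_pos hY0 _
    calc (((M + 1) * (2 * M + 4) : ℕ) : ℝ) * (C₂ * Y ^ (κ / 4 - κ))
        ≤ 4 * (1 + 2 / (κ / 16)) ^ 2 * Y ^ (κ / 8) * (C₂ * Y ^ (κ / 4 - κ)) :=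
          mul_le_mul_of_nonneg_right c1 (by positivity)
      _ = C₄ * (Y ^ (κ / 8) * Y ^ (κ / 4 - κ)) := by
          rw [hC₄]
          ring
      _ ≤ Y ^ (κ / 8) * (Y ^ (κ / 8) * Y ^ (κ / 4 - κ)) :=
          mul_le_mul_of_nonneg_right hYbig (by positivity)
      _ = Y ^ (-(κ / 2)) := by
          rw [← Real.rpow_add hY0, ← Real.rpow_add hY0]
          congr 1
          ring
  · rintro ξ ⟨hξ0, hξ1, q, x, hgood, hNr, hLam, hq1, hq2⟩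
    have hht : 1 ≤ q.ht := one_le_ht hgood
    have hhtR : (1 : ℝ) ≤ (q.ht : ℝ) := by exact_mod_cast hht
    obtain ⟨u, hu1, hu2⟩ := exists_nat_pow_near hhtR (by norm_num : (1 : ℝ) < 2)
    have hq1' : Y * δ ≤ (q.ht : ℝ) ^ (k + 3) := hq1
    have hq2' : (q.ht : ℝ) ^ (k + 2) ≤ C₀ * (Y * δ) := hq2
    have hH1 : (q.ht : ℝ) ≤ 2 ^ (u + 1) := hu2.le
    have hH2 : (2 : ℝ) ^ (u + 1) ≤ 2 * (q.ht : ℝ) := by
      rw [pow_succ]
      linarith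
    have hH : (1 : ℝ) ≤ 2 ^ (u + 1) := one_le_pow₀ (by norm_num)
    have g1 : Y * δ ≤ ((2 : ℝ) ^ (u + 1)) ^ (k + 3) :=
      hq1'.trans (pow_le_pow_left₀ (by linarith) hH1 _)
    have g2 : ((2 : ℝ) ^ (u + 1)) ^ (k + 2) ≤ 2 ^ (k + 2) * (C₀ * (Y * δ)) := by
      refine (pow_le_pow_left₀ (by positivity) hH2 _).trans ?_
      rw [mul_pow]
      exact mul_le_mul_of_nonneg_left hq2' (by positivity)
    obtain ⟨b1, b2⟩ := hHb _ hH g2
    have hdisc := h1.1 (k + 4) Y δ ((2 : ℝ) ^ (u + 1)) ξ q x (by omega) hδ0 b2 hgood hH1 hξ0 hξ1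
      hNr hLam
    have hdR : (1 : ℝ) ≤ (q.disc : ℝ) := by
      have : 1 ≤ q.disc := hdisc
      exact_mod_cast this
    obtain ⟨v, hv1, hv2⟩ := exists_nat_pow_near hdR (by norm_num : (1 : ℝ) < 2)
    have hv3 : (q.disc : ℝ) ≤ 2 * 2 ^ v := by
      rw [pow_succ] at hv2
      linarith
    have g3 : (2 : ℝ) ^ v ≤ 5 * ((2 : ℝ) ^ (u + 1)) ^ 2 := by
      have d1 := disc_le q
      have d2 : (q.ht : ℝ) ^ 2 ≤ ((2 : ℝ) ^ (u + 1)) ^ 2 := pow_le_pow_left₀ (by linarith) hH1 2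
      linarith
    have hu3 : u + 1 ≤ M := by
      rw [hM]
      exact exp_le hY0 b1
    have hv4 : v < 2 * (u + 1) + 3 := by
      have d1 : (2 : ℝ) ^ v < 2 ^ (2 * (u + 1) + 3) := by
        have d2 : (2 : ℝ) ^ (2 * (u + 1) + 3) = 8 * ((2 : ℝ) ^ (u + 1)) ^ 2 := by
          rw [pow_add, mul_comm 2 (u + 1), pow_mul]
          ring
        rw [d2]
        have : (0 : ℝ) < ((2 : ℝ) ^ (u + 1)) ^ 2 := by positivity
        linarith
      exact (pow_lt_pow_iff_right₀ (by norm_num : (1 : ℝ) < 2)).mp d1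
    refine ⟨(u + 1, v), ?_, ⟨g1, g2, g3⟩, q, x, hgood, hH1, hH2, hv1, hv3, hξ0, hξ1, hNr, hLam⟩
    rw [Finset.mem_product, Finset.mem_range, Finset.mem_range]
    constructor
    · change u + 1 < M + 1
      omega
    · change v < 2 * M + 4
      omega

end Pool.Agent.MP211W
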