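import Pool.Agent.Lib.MP_211f72_nt.W.SpecA

/-!
# MP_211f72_nt, third theorem: basic facts on real quadratic fields (`QFb`)
-/

namespace Pool.Agent.MP211W

open Polynomial NumberField

namespace QFb

variable {d : ℕ} {K : Type} [Field K] [NumberField K]

theorem sd_ne (Q : QF d K) (h2 : 2 ≤ d) : Q.sd ≠ 0 := by
  intro h
  have h1 := Q.sq
  rw [h] at h1
  have h3 : ((d : ℕ) : K) = 0 := by rw [← h1]; ring
  have h4 : d = 0 := by exact_mod_cast h3
  omega

theorem rep (Q : QF d K) (h2 : 2 ≤ d) (z : K) : ∃ r s : ℚ, z = (r : K) + (s : K) * Q.sd := by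
  have hs := sd_ne Q h2
  have h1 : Q.τ (z + Q.τ z) = z + Q.τ z := by rw [map_add, Q.tt, add_comm]
  obtain ⟨r, hr⟩ := Q.fix _ h1
  have h3 : Q.τ ((z - Q.τ z) / Q.sd) = (z - Q.τ z) / Q.sd := by
    rw [map_div₀, map_sub, Q.tt, Q.ts]
    field_simp
    ring
  obtain ⟨s, hs'⟩ := Q.fix _ h3
  refine ⟨r / 2, s / 2, ?_⟩
  have h4 : z - Q.τ z = (s : K) * Q.sd := by
    rw [← hs']
    field_simp
  push_cast
  linear_combination (1 / 2 : K) * hr + (1 / 2 : K) * h4

/-- an integral rational number is an integer -/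
theorem int_of_rat (z : 𝓞 K) (r : ℚ) (h : (z : K) = (r : K)) : ∃ t : ℤ, (z : K) = (t : K) := by
  have h1 : IsIntegral ℤ (r : ℚ) := by
    have h2 : IsIntegral ℤ ((algebraMap ℚ K) r) := by
      have : (algebraMap ℚ K) r = (r : K) := by simp
      rw [this, ← h]
      exact z.isIntegral_coe
    exact (isIntegral_algebraMap_iff (algebraMap ℚ K).injective).mp h2
  obtain ⟨t, ht⟩ := IsIntegrallyClosed.isIntegral_iff.mp h1
  refine ⟨t, ?_⟩
  rw [h, ← ht]
  simp

theorem mulMat (Q : QF d K) (h2 : 2 ≤ d) (z : K) :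
    algebraMap ℚ K (Algebra.norm ℚ z) = z * Q.τ z := by
  have hs := sd_ne Q h2
  obtain ⟨r, s, hz⟩ := rep Q h2 z
  -- basis 1, sd
  have hli : LinearIndependent ℚ ![(1 : K), Q.sd] := by
    rw [LinearIndependent.pair_iff]
    intro a b hab
    have h3 : (a : K) + (b : K) * Q.sd = 0 := by
      have : a • (1 : K) + b • Q.sd = (a : K) + (b : K) * Q.sd := by
        rw [Algebra.smul_def, Algebra.smul_def]
        simp
      rw [← this]; exact hab
    have h4 := congrArg Q.τ h3
    rw [map_add, map_mul, Q.ts, map_zero, map_ratCast, map_ratCast] at h4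
    have h5 : (b : K) * Q.sd = 0 := by linear_combination (1 / 2 : K) * h3 - (1 / 2 : K) * h4
    have h6 : (b : K) = 0 := by
      rcases mul_eq_zero.mp h5 with h | h
      · exact h
      · exact absurd h hs
    have h7 : (a : K) = 0 := by linear_combination h3 - h5
    exact ⟨by exact_mod_cast h7, by exact_mod_cast h6⟩
  have hcard : Fintype.card (Fin 2) = Module.finrank ℚ K := by rw [Q.rank]; rfl
  let b := basisOfLinearIndependentOfCardEqFinrank hli hcard
  have hb : ⇑b = ![(1 : K), Q.sd] := coe_basisOfLinearIndependentOfCardEqFinrank hli hcard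
  have hb0 : b 0 = 1 := by rw [hb]; rfl
  have hb1 : b 1 = Q.sd := by rw [hb]; rfl
  have hM : Algebra.leftMulMatrix b z = !![r, (d : ℚ) * s; s, r] := by
    have c0 : z * b 0 = r • b 0 + s • b 1 := by
      rw [hb0, hb1, hz, Algebra.smul_def, Algebra.smul_def]
      simp
    have c1 : z * b 1 = ((d : ℚ) * s) • b 0 + r • b 1 := by
      rw [hb0, hb1, hz, Algebra.smul_def, Algebra.smul_def]
      have := Q.sq
      simp only [eq_ratCast]
      push_cast
      linear_combination (s : K) * this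
    ext i j
    rw [Algebra.leftMulMatrix_eq_repr_mul]
    fin_cases j
    · change (b.repr (z * b 0)) i = _
      rw [c0]
      fin_cases i <;> simp
    · change (b.repr (z * b 1)) i = _
      rw [c1]
      fin_cases i <;> simp
  rw [Algebra.norm_eq_matrix_det b, hM, Matrix.det_fin_two_of]
  rw [hz, map_add, map_mul, Q.ts, map_ratCast, map_ratCast]
  have := Q.sq
  simp only [eq_ratCast]
  push_cast
  linear_combination (s : K) ^ 2 * this

end QFb

/-- **QFb.** -/
theorem wQFb : S_QFb := by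
  intro d K _ _ Q hd h2
  have hs := QFb.sd_ne Q h2
  have hnorm : ∀ z : 𝓞 K, (z : K) * Q.τ z = ((Algebra.norm ℤ z : ℤ) : K) := by
    intro z
    rw [← QFb.mulMat Q h2]
    have := Algebra.coe_norm_int z
    rw [← this]
    simp
  have htr : ∀ z : 𝓞 K, ∃ t : ℤ, (z : K) + Q.τ z = (t : K) := by
    intro z
    have h1 : Q.τ ((z : K) + Q.τ z) = (z : K) + Q.τ z := by rw [map_add, Q.tt, add_comm]
    obtain ⟨r, hr⟩ := Q.fix _ h1
    have h3 : ((z + Q.tO z : 𝓞 K) : K) = (r : K) := hr
    obtain ⟨t, ht⟩ := QFb.int_of_rat _ r h3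
    exact ⟨t, ht⟩
  refine ⟨QFb.rep Q h2, htr, ?_, ?_, hnorm⟩
  · intro z
    obtain ⟨t, ht⟩ := htr z
    have h3 : Q.τ (((z : K) - Q.τ z) / Q.sd) = ((z : K) - Q.τ z) / Q.sd := by
      rw [map_div₀, map_sub, Q.tt, Q.ts]
      field_simp
      ring
    obtain ⟨r, hr⟩ := Q.fix _ h3
    have h4 : (z : K) - Q.τ z = (r : K) * Q.sd := by
      rw [← hr]; field_simp
    -- r^2 d is an integer
    set N : ℤ := Algebra.norm ℤ z with hN
    have h5 : (r : K) ^ 2 * (d : K) = ((t ^ 2 - 4 * N : ℤ) : K) := by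
      rw [← Q.sq]
      push_cast
      rw [← ht, ← hnorm z]
      have : ((r : K) * Q.sd) ^ 2 = ((z : K) - Q.τ z) ^ 2 := by rw [h4]
      linear_combination this
    have h6 : r ^ 2 * (d : ℚ) = ((t ^ 2 - 4 * N : ℤ) : ℚ) := by
      have : ((r ^ 2 * (d : ℚ) : ℚ) : K) = ((((t ^ 2 - 4 * N : ℤ) : ℚ) : ℚ) : K) := by
        push_cast
        push_cast at h5
        exact h5
      exact_mod_cast this
    -- r is an integer
    have h7 : r.den = 1 := by
      by_contra hden
      obtain ⟨p, hp, hpd⟩ := Nat.exists_prime_and_dvd hden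
      have h8 : (r.num : ℚ) ^ 2 * d = ((t ^ 2 - 4 * N : ℤ) : ℚ) * (r.den : ℚ) ^ 2 := by
        rw [← h6]
        have : r * (r.den : ℚ) = r.num := Rat.mul_den_eq_num r
        rw [← this]
        ring
      have h9 : r.num ^ 2 * (d : ℤ) = (t ^ 2 - 4 * N) * (r.den : ℤ) ^ 2 := by exact_mod_cast h8
      have h10 : ((p : ℤ) ^ 2) ∣ r.num ^ 2 * (d : ℤ) := by
        rw [h9]
        refine Dvd.dvd.mul_left ?_ _
        exact pow_dvd_pow_of_dvd (by exact_mod_cast hpd) 2
      have hcop : IsCoprime ((p : ℤ) ^ 2) (r.num ^ 2) := by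
        apply IsCoprime.pow
        have h11 : IsCoprime (r.den : ℤ) r.num := by
          have := r.reduced
          rw [Int.isCoprime_iff_gcd_eq_one, Int.gcd_comm]
          exact this
        obtain ⟨e, he⟩ := hpd
        have : ((r.den : ℕ) : ℤ) = (p : ℤ) * (e : ℤ) := by exact_mod_cast he
        rw [this] at h11
        exact h11.of_mul_left_left
      have h12 : ((p : ℤ) ^ 2) ∣ (d : ℤ) := hcop.dvd_of_dvd_mul_left h10
      have h13 : p ^ 2 ∣ d := by exact_mod_cast h12
      have h14 := hd p (by rw [← sq]; exact h13)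
      exact hp.one_lt.ne' (Nat.isUnit_iff.mp h14)
    refine ⟨r.num, ?_⟩
    rw [h4]
    have : (r : ℚ) = r.num := (Rat.den_eq_one_iff r).mp h7 |>.symm
    conv_lhs => rw [this]
    push_cast
    rfl
  · intro z
    rw [Ideal.absNorm_span_singleton]
    have h3 := congrArg Q.σ (hnorm z)
    rw [map_mul, map_intCast] at h3
    rw [h3, Nat.cast_natAbs]
    push_cast
    rfl

end Pool.Agent.MP211W
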