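import Pool.Agent.Lib.MP_211f72_nt.W.SpecA

/-!
# MP_211f72_nt, third theorem: the ideal of a quadratic polynomial (`QI`)
-/

namespace Pool.Agent.MP211W

open Polynomial NumberField

namespace QI

variable {d : ℕ} {K : Type} [Field K] [NumberField K]

theorem tI_span_pair (Q : QF d K) (z w : 𝓞 K) :
    Q.tI (Ideal.span {z, w}) = Ideal.span {Q.tO z, Q.tO w} := by
  unfold QF.tI
  rw [Ideal.map_span, Set.image_pair]

/-- a quadratic irrationality is not rational -/
theorem not_rat (q : Qd) (θ : K) (hq : q.Good)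
    (hθ : (q.a : K) * θ ^ 2 + (q.b : K) * θ + (q.c : K) = 0) (r : ℚ) : θ ≠ (r : K) := by
  rintro rfl
  have h1 : (q.a : ℚ) * r ^ 2 + q.b * r + q.c = 0 := by
    have : (((q.a : ℚ) * r ^ 2 + q.b * r + q.c : ℚ) : K) = ((0 : ℚ) : K) := by
      push_cast
      exact hθ
    exact_mod_cast this
  have h2 : IsSquare (q.disc : ℚ) := by
    refine ⟨2 * q.a * r + q.b, ?_⟩
    unfold Qd.disc
    push_cast
    linear_combination (-4 * (q.a : ℚ)) * h1
  exact hq.2.2 (Rat.isSquare_intCast_iff.mp h2)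

end QI

/-- **QI.** -/
theorem wQI (h1 : S_QFb) (h2 : S_NmI) : S_QI := by
  intro d K _ _ Q hd hd2 q θ hq hθ
  have ha : (q.a : K) ≠ 0 := by
    exact_mod_cast hq.1
  have hne : θ ≠ Q.τ θ := by
    intro h
    obtain ⟨r, hr⟩ := Q.fix θ h.symm
    exact QI.not_rat q θ hq hθ r hr
  have hθ' : (q.a : K) * (Q.τ θ) ^ 2 + (q.b : K) * Q.τ θ + (q.c : K) = 0 := by
    have := congrArg Q.τ hθ
    simpa using this
  have hsum : (q.a : K) * (θ + Q.τ θ) = -(q.b : K) := by
    have h3 : (θ - Q.τ θ) * ((q.a : K) * (θ + Q.τ θ) + (q.b : K)) = 0 := by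
      linear_combination hθ - hθ'
    rcases mul_eq_zero.mp h3 with h4 | h4
    · exact absurd (sub_eq_zero.mp h4) hne
    · linear_combination h4
  have hprod : (q.a : K) * (θ * Q.τ θ) = (q.c : K) := by
    linear_combination (-1 : K) * hθ + θ * hsum
  refine ⟨hne, hsum, hprod, ?_, ?_⟩
  · -- integrality of `aθ`
    have hint : IsIntegral ℤ ((q.a : K) * θ) := by
      refine ⟨X ^ 2 + (C q.b * X + C (q.a * q.c)), ?_, ?_⟩
      · apply Polynomial.monic_X_pow_add
        refine lt_of_le_of_lt (degree_add_le _ _) ?_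
        refine max_lt ?_ ?_
        · refine lt_of_le_of_lt (degree_C_mul_X_le _) ?_
          norm_num
        · refine lt_of_le_of_lt degree_C_le ?_
          norm_num
      · simp only [eval₂_add, eval₂_mul, eval₂_pow, eval₂_X, eval₂_C]
        simp only [eq_intCast]
        push_cast
        linear_combination (q.a : K) * hθ
    obtain ⟨w, hw⟩ : ∃ w : 𝓞 K, (w : K) = (q.a : K) * θ := ⟨⟨_, hint⟩, rfl⟩
    exact ⟨Ideal.span {((q.a : ℤ) : 𝓞 K), w}, w, hw, rfl⟩
  · rintro I ⟨w, hw, hI⟩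
    have haO : ((q.a : ℤ) : 𝓞 K) ≠ 0 := by
      exact_mod_cast hq.1
    have hI0 : I ≠ ⊥ := by
      intro h
      apply haO
      rw [← Ideal.mem_bot, ← h, hI]
      exact Ideal.subset_span (Set.mem_insert _ _)
    have hta : Q.tO ((q.a : ℤ) : 𝓞 K) = ((q.a : ℤ) : 𝓞 K) := map_intCast _ _
    -- relations in 𝓞 K
    have e1 : w + Q.tO w = -((q.b : ℤ) : 𝓞 K) := by
      apply NumberField.RingOfIntegers.ext
      have e : ((w + Q.tO w : 𝓞 K) : K) = (w : K) + Q.τ w := rfl
      have e' : ((-((q.b : ℤ) : 𝓞 K) : 𝓞 K) : K) = -(q.b : K) := by simp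
      rw [e, e', hw, map_mul, map_intCast]
      linear_combination hsum
    have e2 : w * Q.tO w = ((q.a : ℤ) : 𝓞 K) * ((q.c : ℤ) : 𝓞 K) := by
      apply NumberField.RingOfIntegers.ext
      have e : ((w * Q.tO w : 𝓞 K) : K) = (w : K) * Q.τ w := rfl
      have e' : ((((q.a : ℤ) : 𝓞 K) * ((q.c : ℤ) : 𝓞 K) : 𝓞 K) : K) = (q.a : K) * (q.c : K) := by
        simp
      rw [e, e', hw, map_mul, map_intCast]
      linear_combination (q.a : K) * hprod
    have hmul : I * Q.tI I = Ideal.span {((q.a : ℤ) : 𝓞 K)} := by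
      rw [hI, QI.tI_span_pair, hta]
      apply le_antisymm
      · rw [Ideal.span_mul_span', Ideal.span_le]
        rintro _ ⟨x, hx, y, hy, rfl⟩
        simp only [Set.mem_insert_iff, Set.mem_singleton_iff] at hx hy
        change x * y ∈ Ideal.span {((q.a : ℤ) : 𝓞 K)}
        rcases hx with rfl | rfl
        · exact Ideal.mul_mem_right _ _ (Ideal.mem_span_singleton_self _)
        · rcases hy with rfl | rfl
          · exact Ideal.mul_mem_left _ _ (Ideal.mem_span_singleton_self _)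
          · rw [e2]
            exact Ideal.mul_mem_right _ _ (Ideal.mem_span_singleton_self _)
      · rw [Ideal.span_singleton_le_iff_mem]
        set A : 𝓞 K := ((q.a : ℤ) : 𝓞 K) with hA
        have m1 : A ∈ Ideal.span {A, w} := Ideal.subset_span (Set.mem_insert _ _)
        have m2 : w ∈ Ideal.span {A, w} :=
          Ideal.subset_span (Set.mem_insert_of_mem _ (Set.mem_singleton _))
        have m3 : A ∈ Ideal.span {A, Q.tO w} := Ideal.subset_span (Set.mem_insert _ _)
        have m4 : Q.tO w ∈ Ideal.span {A, Q.tO w} :=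
          Ideal.subset_span (Set.mem_insert_of_mem _ (Set.mem_singleton _))
        -- Bezout for three integers
        obtain ⟨i, j, k, hijk⟩ : ∃ i j k : ℤ, i * q.a + j * q.b + k * q.c = 1 := by
          have hg1 : IsCoprime ((Int.gcd q.a q.b : ℕ) : ℤ) q.c := by
            rw [Int.isCoprime_iff_gcd_eq_one]
            have hdv : ∀ g : ℤ, g ∣ ((Int.gcd q.a q.b : ℕ) : ℤ) → g ∣ q.c → IsUnit g := by
              intro g hg hgc
              exact hq.2.1 g (hg.trans (Int.gcd_dvd_left _ _)) (hg.trans (Int.gcd_dvd_right _ _)) hgc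
            have := hdv ((Int.gcd ((Int.gcd q.a q.b : ℕ) : ℤ) q.c : ℕ) : ℤ)
              (Int.gcd_dvd_left _ _) (Int.gcd_dvd_right _ _)
            have h5 := Int.isUnit_iff_natAbs_eq.mp this
            simpa using h5
          obtain ⟨u, v, huv⟩ := hg1
          refine ⟨u * Int.gcdA q.a q.b, u * Int.gcdB q.a q.b, v, ?_⟩
          have h6 := Int.gcd_eq_gcd_ab q.a q.b
          rw [← huv, h6]
          ring
        have e3 : A = (i : 𝓞 K) * (A * A) - (j : 𝓞 K) * (A * Q.tO w + w * A) +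
            (k : 𝓞 K) * (w * Q.tO w) := by
          have h5 : ((i : ℤ) : 𝓞 K) * ((q.a : ℤ) : 𝓞 K) + ((j : ℤ) : 𝓞 K) * ((q.b : ℤ) : 𝓞 K) +
              ((k : ℤ) : 𝓞 K) * ((q.c : ℤ) : 𝓞 K) = 1 := by
            have := congrArg (fun t : ℤ => (t : 𝓞 K)) hijk
            push_cast at this
            exact this
          rw [e2]
          linear_combination (-A) * h5 + (((j : ℤ) : 𝓞 K) * A) * e1
        suffices h6 : (i : 𝓞 K) * (A * A) - (j : 𝓞 K) * (A * Q.tO w + w * A) +
            (k : 𝓞 K) * (w * Q.tO w) ∈ Ideal.span {A, w} * Ideal.span {A, Q.tO w} by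
          rw [← e3] at h6
          exact h6
        refine Ideal.add_mem _ (Ideal.sub_mem _ ?_ ?_) ?_
        · exact Ideal.mul_mem_left _ _ (Ideal.mul_mem_mul m1 m3)
        · exact Ideal.mul_mem_left _ _ (Ideal.add_mem _ (Ideal.mul_mem_mul m1 m4)
            (Ideal.mul_mem_mul m2 m3))
        · exact Ideal.mul_mem_left _ _ (Ideal.mul_mem_mul m2 m4)
    refine ⟨hI0, hmul, ?_⟩
    have h3 := congrArg Ideal.absNorm hmul
    rw [map_mul, (h2 d K Q hd hd2 I).1] at h3
    have h4 := (h1 d K Q hd hd2).2.2.2.1 ((q.a : ℤ) : 𝓞 K)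
    have h5 : ((((q.a : ℤ) : 𝓞 K) : 𝓞 K) : K) = (q.a : K) := by simp
    rw [h5, map_intCast, map_intCast, map_intCast, ← h3] at h4
    have h6 : ((Ideal.absNorm I * Ideal.absNorm I : ℕ) : ℝ) = ((q.a.natAbs * q.a.natAbs : ℕ) : ℝ) := by
      rw [h4, abs_mul]
      push_cast
      rw [Nat.cast_natAbs]
      push_cast
      ring
    have h7 : Ideal.absNorm I * Ideal.absNorm I = q.a.natAbs * q.a.natAbs := by exact_mod_cast h6
    exact Nat.mul_self_inj.mp h7

end Pool.Agent.MP211W
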