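import Pool.Agent.Lib.MP_211f72_nt.W.SpecB

/-!
# MP_211f72_nt, third theorem: bound for a resultant of polynomials of degrees `d`, `d - 1`
-/

set_option autoImplicit false

namespace Pool.Agent.MP211W

open Polynomial

namespace R2

/-- all entries are at most `h` -/
private theorem entA (m n : ℕ) (f g : ℝ[X]) (h : ℝ) (h0 : 0 ≤ h) (hf : ∀ k, |f.coeff k| ≤ h)
    (hg : ∀ k, |g.coeff k| ≤ h) (i j : Fin (m + n)) : |sylvester f g m n i j| ≤ h := by
  refine Fin.addCases (fun j₁ => ?_) (fun j₁ => ?_) j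
  · simp only [sylvester, Matrix.of_apply, Fin.addCases_left]
    split_ifs
    · exact hg _
    · rw [abs_zero]; exact h0
  · simp only [sylvester, Matrix.of_apply, Fin.addCases_right]
    split_ifs
    · exact hf _
    · rw [abs_zero]; exact h0

/-- the entries of row 0 -/
private theorem ent0 (m n : ℕ) (f g : ℝ[X]) (e₀ e₁ : ℝ) (hf : |f.coeff 0| ≤ e₀)
    (hg : |g.coeff 0| ≤ e₁) (i j : Fin (m + n)) (hi : (i : ℕ) = 0) :
    |sylvester f g m n i j| ≤ if (j : ℕ) = 0 then max e₀ e₁ else if (j : ℕ) = m then e₀ else 0 := by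
  refine Fin.addCases (fun j₁ => ?_) (fun j₁ => ?_) j
  · simp only [sylvester, Matrix.of_apply, Fin.addCases_left, Set.mem_Icc, hi, Fin.val_castAdd]
    by_cases h1 : (j₁ : ℕ) = 0
    · rw [if_pos h1, if_pos ⟨by omega, by omega⟩]
      exact (by simpa using hg : |g.coeff (0 - (j₁ : ℕ))| ≤ e₁).trans (le_max_right _ _)
    · have h2 : ¬ ((j₁ : ℕ) = m) := by
        have := j₁.isLt
        omega
      rw [if_neg h1, if_neg h2, if_neg (fun h => h1 (by omega)), abs_zero]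
  · simp only [sylvester, Matrix.of_apply, Fin.addCases_right, Set.mem_Icc, hi, Fin.val_natAdd]
    by_cases h1 : (j₁ : ℕ) = 0
    · rw [if_pos (⟨by omega, by omega⟩ : (j₁ : ℕ) ≤ 0 ∧ 0 ≤ (j₁ : ℕ) + m)]
      have h3 : |f.coeff (0 - (j₁ : ℕ))| ≤ e₀ := by simpa using hf
      by_cases h2 : m + (j₁ : ℕ) = 0
      · rw [if_pos h2]
        exact h3.trans (le_max_left _ _)
      · rw [if_neg h2, if_pos (by omega)]
        exact h3
    · rw [if_neg (by omega : ¬ m + (j₁ : ℕ) = 0), if_neg (by omega : ¬ m + (j₁ : ℕ) = m),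
        if_neg (fun h => h1 (by omega)), abs_zero]

/-- the entries of row 1 -/
private theorem ent1 (m n : ℕ) (f g : ℝ[X]) (e₁ e₂ : ℝ) (h0 : 0 ≤ e₁) (h12 : e₁ ≤ e₂)
    (hm : 0 < m) (hf0 : |f.coeff 0| ≤ e₁) (hf1 : |f.coeff 1| ≤ e₁)
    (hg0 : |g.coeff 0| ≤ e₁) (hg1 : |g.coeff 1| ≤ e₂) (i j : Fin (m + n)) (hi : (i : ℕ) = 1) :
    |sylvester f g m n i j| ≤ if (j : ℕ) = 0 then e₂ else e₁ := by
  refine Fin.addCases (fun j₁ => ?_) (fun j₁ => ?_) j
  · simp only [sylvester, Matrix.of_apply, Fin.addCases_left, Set.mem_Icc, hi, Fin.val_castAdd]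
    by_cases h1 : (j₁ : ℕ) ≤ 1 ∧ 1 ≤ (j₁ : ℕ) + n
    · rw [if_pos h1]
      have h2 : (j₁ : ℕ) = 0 ∨ (j₁ : ℕ) = 1 := by omega
      rcases h2 with h2 | h2
      · rw [if_pos h2, h2]
        simpa using hg1
      · rw [if_neg (by omega), h2]
        simpa using hg0
    · rw [if_neg h1, abs_zero]
      split_ifs
      · exact h0.trans h12
      · exact h0
  · simp only [sylvester, Matrix.of_apply, Fin.addCases_right, Set.mem_Icc, hi, Fin.val_natAdd]
    rw [if_neg (by omega : ¬ m + (j₁ : ℕ) = 0)]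
    by_cases h1 : (j₁ : ℕ) ≤ 1 ∧ 1 ≤ (j₁ : ℕ) + m
    · rw [if_pos h1]
      have h2 : (j₁ : ℕ) = 0 ∨ (j₁ : ℕ) = 1 := by omega
      rcases h2 with h2 | h2
      · rw [h2]
        simpa using hf1
      · rw [h2]
        simpa using hf0
    · rw [if_neg h1, abs_zero]
      exact h0

/-- one term of the expansion of the determinant -/
private theorem term {m n : ℕ} (hm : 0 < m) (hn : 2 ≤ m + n) (M : Matrix (Fin (m + n)) (Fin (m + n)) ℝ)
    {e₀ e₁ e₂ h : ℝ} (h0 : 0 ≤ e₀) (h01 : e₀ ≤ e₁) (h12 : e₁ ≤ e₂) (hh : 0 ≤ h)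
    (hA : ∀ i j, |M i j| ≤ h)
    (hM0 : ∀ i j : Fin (m + n), (i : ℕ) = 0 →
      |M i j| ≤ if (j : ℕ) = 0 then max e₀ e₁ else if (j : ℕ) = m then e₀ else 0)
    (hM1 : ∀ i j : Fin (m + n), (i : ℕ) = 1 → |M i j| ≤ if (j : ℕ) = 0 then e₂ else e₁)
    (σ : Equiv.Perm (Fin (m + n))) :
    |∏ i, M i (σ i)| ≤ h ^ (m + n - 2) * max (e₀ * e₂) (e₁ ^ 2) := by
  have he1 : 0 ≤ e₁ := h0.trans h01
  have he2 : 0 ≤ e₂ := he1.trans h12
  have hB : 0 ≤ max (e₀ * e₂) (e₁ ^ 2) := le_max_of_le_right (by positivity)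
  set r0 : Fin (m + n) := ⟨0, by omega⟩ with hr0
  set r1 : Fin (m + n) := ⟨1, by omega⟩ with hr1
  have n01 : r0 ≠ r1 := by simp [hr0, hr1, Fin.ext_iff]
  rw [Finset.abs_prod]
  set F : Fin (m + n) → ℝ := fun i => |M i (σ i)| with hF
  have m1 : r1 ∈ (Finset.univ : Finset (Fin (m + n))).erase r0 :=
    Finset.mem_erase.2 ⟨n01.symm, Finset.mem_univ _⟩
  have hsplit : ∏ i, F i = F r0 * F r1 *
      ∏ i ∈ ((Finset.univ : Finset (Fin (m + n))).erase r0).erase r1, F i := by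
    rw [← Finset.mul_prod_erase Finset.univ F (Finset.mem_univ r0),
      ← Finset.mul_prod_erase _ F m1]
    ring
  have hcard : (((Finset.univ : Finset (Fin (m + n))).erase r0).erase r1).card = m + n - 2 := by
    rw [Finset.card_erase_of_mem m1, Finset.card_erase_of_mem (Finset.mem_univ r0),
      Finset.card_univ, Fintype.card_fin]
    omega
  have hrest : ∏ i ∈ ((Finset.univ : Finset (Fin (m + n))).erase r0).erase r1, F i ≤
      h ^ (m + n - 2) := by
    rw [← hcard, ← Finset.prod_const]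
    exact Finset.prod_le_prod (fun i _ => abs_nonneg _) (fun i _ => hA i (σ i))
  have hfirst : F r0 * F r1 ≤ max (e₀ * e₂) (e₁ ^ 2) := by
    have b0 := hM0 r0 (σ r0) rfl
    have b1 := hM1 r1 (σ r1) rfl
    have hne : ((σ r0 : Fin (m + n)) : ℕ) ≠ ((σ r1 : Fin (m + n)) : ℕ) := fun h' =>
      n01 (σ.injective (Fin.ext h'))
    by_cases c0 : ((σ r0 : Fin (m + n)) : ℕ) = 0
    · rw [if_pos c0, max_eq_right h01] at b0
      rw [if_neg (by omega)] at b1
      calc F r0 * F r1 ≤ e₁ * e₁ := mul_le_mul b0 b1 (abs_nonneg _) he1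
        _ = e₁ ^ 2 := by ring
        _ ≤ _ := le_max_right _ _
    · rw [if_neg c0] at b0
      by_cases c1 : ((σ r0 : Fin (m + n)) : ℕ) = m
      · rw [if_pos c1] at b0
        have b2 : |M r1 (σ r1)| ≤ e₂ := by
          refine b1.trans ?_
          split_ifs
          · exact le_rfl
          · exact h12
        calc F r0 * F r1 ≤ e₀ * e₂ := mul_le_mul b0 b2 (abs_nonneg _) h0
          _ ≤ _ := le_max_left _ _
      · rw [if_neg c1] at b0
        have : F r0 = 0 := le_antisymm b0 (abs_nonneg _)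
        rw [this, zero_mul]
        exact hB
  rw [hsplit, mul_comm (h ^ (m + n - 2))]
  exact mul_le_mul hfirst hrest (Finset.prod_nonneg fun i _ => abs_nonneg _) hB

end R2

theorem wR2 : S_R2 := by
  intro d hd
  refine ⟨((d + (d - 1)).factorial : ℝ), by exact_mod_cast Nat.factorial_pos _, ?_⟩
  intro f g e₀ e₁ e₂ h h0 h01 h12 hh hco hf0 hf1 hg0 hg1
  have he1 : 0 ≤ e₁ := h0.trans h01
  have hdet : resultant f g d (d - 1) =
      ∑ σ : Equiv.Perm (Fin (d + (d - 1))), ((Equiv.Perm.sign σ : ℤ) : ℝ) *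
        ∏ i, sylvester f g d (d - 1) i (σ i) := by
    rw [resultant, ← Matrix.det_transpose, Matrix.det_apply']
    rfl
  rw [hdet]
  refine (Finset.abs_sum_le_sum_abs _ _).trans ?_
  have hterm : ∀ σ ∈ (Finset.univ : Finset (Equiv.Perm (Fin (d + (d - 1))))),
      |((Equiv.Perm.sign σ : ℤ) : ℝ) * ∏ i, sylvester f g d (d - 1) i (σ i)| ≤
        h ^ (2 * d - 3) * max (e₀ * e₂) (e₁ ^ 2) := by
    intro σ _
    rw [abs_mul]
    have hs : |((Equiv.Perm.sign σ : ℤ) : ℝ)| = 1 := by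
      rcases Int.units_eq_one_or (Equiv.Perm.sign σ) with hs | hs <;> rw [hs] <;> simp
    rw [hs, one_mul]
    have e : 2 * d - 3 = d + (d - 1) - 2 := by omega
    rw [e]
    exact R2.term (by omega) (by omega) (sylvester f g d (d - 1)) h0 h01 h12 hh
      (R2.entA d (d - 1) f g h hh (fun k => (hco k).1) (fun k => (hco k).2))
      (fun i j hi => R2.ent0 d (d - 1) f g e₀ e₁ hf0 hg0 i j hi)
      (fun i j hi => R2.ent1 d (d - 1) f g e₁ e₂ he1 h12 (by omega) (hf0.trans h01) hf1 hg0 hg1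
        i j hi) σ
  refine (Finset.sum_le_card_nsmul _ _ _ hterm).trans (le_of_eq ?_)
  rw [Finset.card_univ, Fintype.card_perm, Fintype.card_fin, nsmul_eq_mul]

end Pool.Agent.MP211W
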