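import Pool.Agent.Lib.MP_211f72_nt.W.SpecB

/-! # MP_211f72_nt, third theorem: everything except the set `Exc` has small cost (`RedW`) -/

namespace Pool.Agent.MP211W.RedW

open Polynomial Filter Topology
open Pool.Agent.MP211V (rp tc Hb Sl Mx)

/-! ### Covers -/

lemma covW_biUnion {ι : Type*} (I : Finset ι) (s B : ℝ) (E : ι → Set ℝ)
    (h : ∀ i ∈ I, CovW s B (E i)) : CovW s (I.card * B) {ξ | ∃ i ∈ I, ξ ∈ E i} := by
  classical
  induction I using Finset.induction_on with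
  | empty =>
    refine ⟨∅, by simp, by simp, ?_⟩
    rintro ξ ⟨i, hi, -⟩
    simp at hi
  | insert i I hi ih =>
    have h1 := ih (fun j hj => h j (Finset.mem_insert_of_mem hj))
    have h2 := (h i (Finset.mem_insert_self i I)).union h1
    refine h2.mono ?_ ?_
    · rw [Finset.card_insert_of_notMem hi]
      push_cast
      linarith
    · rintro ξ ⟨j, hj, hξ⟩
      rcases Finset.mem_insert.1 hj with rfl | hj
      · exact Or.inl hξ
      · exact Or.inr ⟨j, hj, hξ⟩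

/-- polynomial growth of the number of classes -/
lemma growth (K c : ℝ) (hK : 0 ≤ K) (hc : 0 < c) :
    ∀ᶠ Y : ℝ in atTop, K * (1 + Real.log Y) ^ 3 * Y ^ (-c) ≤ Y ^ (-(c / 2)) := by
  have h1 : ∀ᶠ Y : ℝ in atTop, 1 ≤ Y := eventually_ge_atTop 1
  have h2 : Tendsto (fun Y : ℝ => Y ^ (c / 4)) atTop atTop := tendsto_rpow_atTop (by positivity)
  have h3 : ∀ᶠ Y : ℝ in atTop, K * (1 + 1 / (c / 12)) ^ 3 ≤ Y ^ (c / 4) :=
    h2.eventually_ge_atTop _
  filter_upwards [h1, h3] with Y hY hY3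
  have hY0 : 0 < Y := by linarith
  have hl0 : 0 ≤ Real.log Y := Real.log_nonneg hY
  have hl : Real.log Y ≤ Y ^ (c / 12) / (c / 12) := Real.log_le_rpow_div hY0.le (by positivity)
  have hp1 : 1 ≤ Y ^ (c / 12) := Real.one_le_rpow hY (by positivity)
  have hb : 1 + Real.log Y ≤ (1 + 1 / (c / 12)) * Y ^ (c / 12) := by
    have : (1 + 1 / (c / 12)) * Y ^ (c / 12) = Y ^ (c / 12) + Y ^ (c / 12) / (c / 12) := by
      field_simp
    rw [this]; linarith
  have hb3 : (1 + Real.log Y) ^ 3 ≤ ((1 + 1 / (c / 12)) * Y ^ (c / 12)) ^ 3 :=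
    pow_le_pow_left₀ (by linarith) hb 3
  have e1 : (Y ^ (c / 12)) ^ 3 = Y ^ (c / 4) := by
    rw [← Real.rpow_natCast, ← Real.rpow_mul hY0.le]
    congr 1
    push_cast
    ring
  rw [mul_pow, e1] at hb3
  have hpc : 0 < Y ^ (-c) := Real.rpow_pos_of_pos hY0 _
  calc K * (1 + Real.log Y) ^ 3 * Y ^ (-c)
      ≤ K * ((1 + 1 / (c / 12)) ^ 3 * Y ^ (c / 4)) * Y ^ (-c) := by
        apply mul_le_mul_of_nonneg_right _ hpc.le
        exact mul_le_mul_of_nonneg_left hb3 hK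
    _ = (K * (1 + 1 / (c / 12)) ^ 3) * (Y ^ (c / 4) * Y ^ (-c)) := by ring
    _ ≤ Y ^ (c / 4) * (Y ^ (c / 4) * Y ^ (-c)) := by
        apply mul_le_mul_of_nonneg_right hY3
        positivity
    _ = Y ^ (-(c / 2)) := by
        rw [← Real.rpow_add hY0, ← Real.rpow_add hY0]
        congr 1
        ring

lemma log_two_le : Real.log 2 ≤ 1 := by
  have := Real.log_two_lt_d9
  linarith

lemma log_two_ge : 1 / 2 ≤ Real.log 2 := by
  have := Real.log_two_gt_d9
  linarith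

/-- the bound for the logarithm of `1 + 1/ω` -/
lemma log_om (v : ℤ) (b : ℝ) (hb : 0 ≤ b) (hv : (v : ℝ) ≤ b) :
    Real.log (1 + 1 / (2 : ℝ) ^ (-v)) ≤ 1 + b := by
  have h1 : (1 : ℝ) / (2 : ℝ) ^ (-v) = (2 : ℝ) ^ v := by
    rw [zpow_neg, one_div, inv_inv]
  rw [h1]
  have h2 : (2 : ℝ) ^ v ≤ (2 : ℝ) ^ b := by
    rw [← Real.rpow_intCast]
    exact Real.rpow_le_rpow_of_exponent_le (by norm_num) hv
  have h3 : (1 : ℝ) ≤ (2 : ℝ) ^ b := Real.one_le_rpow (by norm_num) hb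
  have h4 : 1 + (2 : ℝ) ^ v ≤ 2 * (2 : ℝ) ^ b := by linarith
  have h5 : (0 : ℝ) < 1 + (2 : ℝ) ^ v := by positivity
  have h6 := Real.log_le_log h5 h4
  rw [Real.log_mul (by norm_num) (by positivity), Real.log_rpow (by norm_num)] at h6
  have h7 := log_two_le
  have h8 : b * Real.log 2 ≤ b * 1 := mul_le_mul_of_nonneg_left h7 hb
  linarith

/-- the set of the numbers covered by the cheap families -/
def CS (R : ℕ) (s κ B Y : ℝ) : Set ℝ :=
  {ξ : ℝ | ∃ (d u : ℕ) (v : ℤ), 1 ≤ d ∧ d ≤ R ∧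
      (u : ℝ) ≤ 4 * Real.log Y ∧ -((R : ℤ) + 2) ≤ v ∧ (v : ℝ) ≤ B * Real.log Y + 1 ∧
      ((2 : ℝ) ^ u) ^ (d + 1) * ((2 : ℝ) ^ (-v)) ^ s ≤ Y ^ (-κ) ∧
      ξ ∈ SmallP d (2 ^ u) (2 ^ (-v))}

lemma cover (hC : S_Cost) (R : ℕ) (s κ B : ℝ) (hs : 0 < s) (hs1 : s ≤ 1)
    (hsR : s * ((R : ℝ) - 1 / 2) ≤ 1) (hκ : 0 < κ) (hB : 0 ≤ B) :
    ∃ Y₁ : ℝ, ∀ Y : ℝ, Y₁ ≤ Y → CovW s (Y ^ (-(κ / 2))) (CS R s κ B Y) := by
  classical
  have hex : ∀ d : ℕ, ∃ C : ℝ, 1 ≤ C ∧ (1 ≤ d → d ≤ R → ∀ h ω : ℝ, 1 ≤ h → 0 < ω →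
      CovW s (C * (1 + Real.log h + Real.log (1 + 1 / ω)) * (h ^ (d + 1) * ω ^ s))
        (SmallP d h ω)) := by
    intro d
    by_cases hd : 1 ≤ d ∧ d ≤ R
    · have hdR : (d : ℝ) ≤ R := by exact_mod_cast hd.2
      have h1 : s * ((d : ℝ) - 1 / 2) ≤ s * ((R : ℝ) - 1 / 2) :=
        mul_le_mul_of_nonneg_left (by linarith) hs.le
      obtain ⟨C, h1, h2⟩ := hC d s hd.1 hs hs1 (h1.trans hsR)
      exact ⟨C, h1, fun _ _ => h2⟩
    · exact ⟨1, le_rfl, fun h1 h2 => absurd ⟨h1, h2⟩ hd⟩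
  choose C hC1 hC2 using hex
  set CM : ℝ := ∑ d ∈ Finset.range (R + 1), C d with hCM
  have hCle : ∀ d, d ≤ R → C d ≤ CM := fun d hd =>
    Finset.single_le_sum (f := C) (fun i _ => by linarith [hC1 i]) (Finset.mem_range.2 (by omega))
  have hCM0 : 0 ≤ CM := (by linarith [hC1 0] : (0 : ℝ) ≤ C 0).trans (hCle 0 (Nat.zero_le _))
  set K : ℝ := ((R + 1) * (4 * (B + R + 4))) * (CM * (B + 7)) with hK
  have hK0 : 0 ≤ K := by positivity
  obtain ⟨Y₁, hY₁⟩ := eventually_atTop.1 (growth K κ hK0 hκ)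
  refine ⟨max Y₁ 1, fun Y hY => ?_⟩
  have hY1 : 1 ≤ Y := (le_max_right _ _).trans hY
  have hY0 : 0 < Y := by linarith
  have hg := hY₁ Y ((le_max_left _ _).trans hY)
  set L : ℝ := Real.log Y with hL
  have hL0 : 0 ≤ L := Real.log_nonneg hY1
  set I : Finset (ℕ × ℕ × ℤ) := (Finset.range (R + 1) ×ˢ (Finset.range (⌊4 * L⌋₊ + 1) ×ˢ
    Finset.Icc (-((R : ℤ) + 2)) ⌊B * L + 1⌋)).filter (fun i => 1 ≤ i.1 ∧
      ((2 : ℝ) ^ i.2.1) ^ (i.1 + 1) * ((2 : ℝ) ^ (-i.2.2)) ^ s ≤ Y ^ (-κ)) with hI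
  have hYκ : 0 < Y ^ (-κ) := Real.rpow_pos_of_pos hY0 _
  have hcov := covW_biUnion I s (CM * ((B + 7) * (1 + L)) * Y ^ (-κ))
    (fun i => SmallP i.1 (2 ^ i.2.1) (2 ^ (-i.2.2))) (by
      rintro ⟨d, u, v⟩ hi
      rw [hI, Finset.mem_filter] at hi
      obtain ⟨hi1, hd1, hcost⟩ := hi
      simp only [Finset.mem_product, Finset.mem_range, Finset.mem_Icc] at hi1 hd1 hcost
      obtain ⟨hdR, huL, hv1, hv2⟩ := hi1
      have hdR' : d ≤ R := by omega
      have hu : (u : ℝ) ≤ 4 * L := by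
        have : u ≤ ⌊4 * L⌋₊ := by omega
        exact (Nat.le_floor_iff (by positivity)).1 this
      have hv : (v : ℝ) ≤ B * L + 1 := Int.le_floor.1 hv2
      refine (hC2 d hd1 hdR' (2 ^ u) (2 ^ (-v)) (one_le_pow₀ (by norm_num)) (by positivity)).mono
        ?_ (Set.Subset.refl _)
      have e1 : Real.log ((2 : ℝ) ^ u) ≤ 4 * L := by
        rw [Real.log_pow]
        have h0 : (0 : ℝ) ≤ u := Nat.cast_nonneg u
        have h00 : (u : ℝ) * Real.log 2 ≤ u * 1 := mul_le_mul_of_nonneg_left log_two_le h0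
        linarith
      have e2 := log_om v (B * L + 1) (by positivity) hv
      have e3 : 1 + Real.log ((2 : ℝ) ^ u) + Real.log (1 + 1 / (2 : ℝ) ^ (-v)) ≤
          (B + 7) * (1 + L) := by
        have e0 : (B + 7) * (1 + L) = B + 7 + B * L + 7 * L := by ring
        rw [e0]
        linarith
      have e4 : 0 ≤ 1 + Real.log ((2 : ℝ) ^ u) + Real.log (1 + 1 / (2 : ℝ) ^ (-v)) := by
        have h1 : 0 ≤ Real.log ((2 : ℝ) ^ u) := Real.log_nonneg (one_le_pow₀ (by norm_num))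
        have h2 : 0 ≤ Real.log (1 + 1 / (2 : ℝ) ^ (-v)) := by
          apply Real.log_nonneg
          have : (0 : ℝ) ≤ 1 / (2 : ℝ) ^ (-v) := by positivity
          linarith
        linarith
      have e5 : C d * (1 + Real.log ((2 : ℝ) ^ u) + Real.log (1 + 1 / (2 : ℝ) ^ (-v))) ≤
          CM * ((B + 7) * (1 + L)) := mul_le_mul (hCle d hdR') e3 e4 hCM0
      exact mul_le_mul e5 hcost (by positivity) (by positivity))
  refine hcov.mono ?_ ?_
  · refine le_trans ?_ hg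
    have hc1 : (I.card : ℝ) ≤ (R + 1) * ((4 * L + 1) * (B * L + 1 + R + 3)) := by
      have h1 : I.card ≤ (R + 1) * ((⌊4 * L⌋₊ + 1) * (⌊B * L + 1⌋ + 1 - (-((R : ℤ) + 2))).toNat) := by
        refine (Finset.card_filter_le _ _).trans (le_of_eq ?_)
        rw [Finset.card_product, Finset.card_product, Finset.card_range, Finset.card_range,
          Int.card_Icc]
      have h2 : (((R + 1) * ((⌊4 * L⌋₊ + 1) *
          (⌊B * L + 1⌋ + 1 - (-((R : ℤ) + 2))).toNat) : ℕ) : ℝ) ≤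
          (R + 1) * ((4 * L + 1) * (B * L + 1 + R + 3)) := by
        push_cast
        have h3 : ((⌊4 * L⌋₊ : ℕ) : ℝ) ≤ 4 * L := Nat.floor_le (by positivity)
        have h4 : 0 ≤ ⌊B * L + 1⌋ := Int.floor_nonneg.2 (by positivity)
        have h5 : (((⌊B * L + 1⌋ + 1 - (-((R : ℤ) + 2))).toNat : ℕ) : ℝ) ≤ B * L + 1 + R + 3 := by
          have h6 : (((⌊B * L + 1⌋ + 1 - (-((R : ℤ) + 2))).toNat : ℕ) : ℤ) =
              ⌊B * L + 1⌋ + 1 - (-((R : ℤ) + 2)) := Int.toNat_of_nonneg (by omega)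
          have h7 : (((⌊B * L + 1⌋ + 1 - (-((R : ℤ) + 2))).toNat : ℕ) : ℝ) =
              ((⌊B * L + 1⌋ + 1 - (-((R : ℤ) + 2)) : ℤ) : ℝ) := by
            rw [← h6]
            push_cast
            rfl
          rw [h7]
          push_cast
          have h8 : (⌊B * L + 1⌋ : ℝ) ≤ B * L + 1 := Int.floor_le _
          linarith
        have h9 : (0 : ℝ) ≤ (((⌊B * L + 1⌋ + 1 - (-((R : ℤ) + 2))).toNat : ℕ) : ℝ) :=
          Nat.cast_nonneg _
        have h10 : (0 : ℝ) ≤ 4 * L + 1 := by positivity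
        refine mul_le_mul_of_nonneg_left ?_ (by positivity)
        exact mul_le_mul (by linarith) h5 h9 h10
      exact le_trans (by exact_mod_cast h1) h2
    have hc2 : (4 * L + 1) * (B * L + 1 + R + 3) ≤ (4 * (B + R + 4)) * (1 + L) ^ 2 := by
      have g1 : 4 * L + 1 ≤ 4 * (1 + L) := by linarith
      have g2 : B * L + 1 + R + 3 ≤ (B + R + 4) * (1 + L) := by
        have hR0 : (0 : ℝ) ≤ R := Nat.cast_nonneg R
        have hRL : (0 : ℝ) ≤ R * L := mul_nonneg hR0 hL0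
        have e0 : (B + R + 4) * (1 + L) = B + R + 4 + B * L + R * L + 4 * L := by ring
        rw [e0]
        linarith
      have hR0 : (0 : ℝ) ≤ R := Nat.cast_nonneg R
      calc (4 * L + 1) * (B * L + 1 + R + 3) ≤ (4 * (1 + L)) * ((B + R + 4) * (1 + L)) :=
            mul_le_mul g1 g2 (by positivity) (by positivity)
        _ = _ := by ring
    calc (I.card : ℝ) * (CM * ((B + 7) * (1 + L)) * Y ^ (-κ))
        ≤ ((R + 1) * ((4 * L + 1) * (B * L + 1 + R + 3))) *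
          (CM * ((B + 7) * (1 + L)) * Y ^ (-κ)) :=
          mul_le_mul_of_nonneg_right hc1 (by positivity)
      _ ≤ ((R + 1) * ((4 * (B + R + 4)) * (1 + L) ^ 2)) *
          (CM * ((B + 7) * (1 + L)) * Y ^ (-κ)) := by
          refine mul_le_mul_of_nonneg_right ?_ (by positivity)
          exact mul_le_mul_of_nonneg_left hc2 (by positivity)
      _ = K * (1 + L) ^ 3 * Y ^ (-κ) := by
          rw [hK]
          ring
  · rintro ξ ⟨d, u, v, hd1, hdR, hu, hv1, hv2, hcost, hξ⟩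
    refine ⟨(d, u, v), ?_, hξ⟩
    rw [hI, Finset.mem_filter]
    refine ⟨?_, hd1, hcost⟩
    simp only [Finset.mem_product, Finset.mem_range, Finset.mem_Icc]
    refine ⟨by omega, ?_, hv1, Int.le_floor.2 hv2⟩
    have : u ≤ ⌊4 * L⌋₊ := Nat.le_floor hu
    omega

/-! ### Polynomials -/

lemma rp_natDegree (P : ℤ[X]) : (rp P).natDegree = P.natDegree :=
  natDegree_map_eq_of_injective (RingHom.injective_int (Int.castRingHom ℝ)) P

lemma rp_coeff (P : ℤ[X]) (i : ℕ) : (rp P).coeff i = ((P.coeff i : ℤ) : ℝ) := by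
  simp [rp]

/-- bound for the values from the coefficients -/
lemma eval_bound (P : ℤ[X]) (n : ℕ) (h x : ℝ) (hn : P.natDegree ≤ n) (hh : Hb P h)
    (hx0 : 0 ≤ x) (hx1 : x ≤ 1) : |(rp P).eval x| ≤ (n + 1) * h := by
  have h0 : 0 ≤ h := (abs_nonneg _).trans (hh 0)
  rw [eval_eq_sum_range' (n := n + 1) (by rw [rp_natDegree]; omega)]
  refine (Finset.abs_sum_le_sum_abs _ _).trans ?_
  have : ∀ i ∈ Finset.range (n + 1), |(rp P).coeff i * x ^ i| ≤ h := by
    intro i _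
    rw [abs_mul, abs_pow, rp_coeff, abs_of_nonneg hx0]
    have h1 : x ^ i ≤ 1 := pow_le_one₀ hx0 hx1
    calc |((P.coeff i : ℤ) : ℝ)| * x ^ i ≤ h * 1 :=
          mul_le_mul (hh i) h1 (by positivity) h0
      _ = h := mul_one h
  refine (Finset.sum_le_sum this).trans ?_
  rw [Finset.sum_const, Finset.card_range, nsmul_eq_mul]
  push_cast
  linarith

/-- the value of the product -/
lemma eval_prod_abs {m : ℕ} (q : ℤ[X]) (F : Fin m → ℤ[X]) (hq : q = ∏ i, F i ∨ q = -∏ i, F i)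
    (x : ℝ) : |(rp q).eval x| = ∏ i, |(rp (F i)).eval x| := by
  have h1 : (rp (∏ i, F i)).eval x = ∏ i, (rp (F i)).eval x := by
    simp [rp, Polynomial.map_prod, Polynomial.eval_prod]
  rcases hq with h | h
  · rw [h, h1, Finset.abs_prod]
  · have h2 : (rp (-∏ i, F i)).eval x = -(rp (∏ i, F i)).eval x := by
      simp [rp]
    rw [h, h2, abs_neg, h1, Finset.abs_prod]

/-- a factor of the full degree is the only factor -/
lemma single {m : ℕ} (F : Fin m → ℤ[X]) (hF : ∀ i, 1 ≤ (F i).natDegree) (N : ℕ)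
    (hsum : ∑ i, (F i).natDegree ≤ N) (i : Fin m) (hi : N ≤ (F i).natDegree) :
    ∏ j, F j = F i := by
  have h2 : ∀ j, j = i := by
    intro j
    by_contra hj
    have h3 : (F i).natDegree + (F j).natDegree ≤ ∑ i, (F i).natDegree := by
      have h4 : ∑ x ∈ ({i, j} : Finset (Fin m)), (F x).natDegree ≤ ∑ i, (F i).natDegree :=
        Finset.sum_le_sum_of_subset (Finset.subset_univ _)
      rw [Finset.sum_pair (fun h => hj h.symm)] at h4
      exact h4
    have := hF j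
    omega
  have hu : (Finset.univ : Finset (Fin m)) = {i} := by
    ext j
    simp [h2 j]
  rw [hu, Finset.prod_singleton]

/-- the quadratic polynomial of the coefficients -/
def qd (q : ℤ[X]) : Qd := ⟨q.coeff 2, q.coeff 1, q.coeff 0⟩

lemma qd_good (q : ℤ[X]) (hq : q.IsPrimitive) (hirr : Irreducible q) (hdeg : q.natDegree = 2) :
    (qd q).Good := by
  have hq0 : q ≠ 0 := hirr.ne_zero
  have ha : q.coeff 2 ≠ 0 := by
    have h1 := leadingCoeff_ne_zero.2 hq0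
    rwa [leadingCoeff, hdeg] at h1
  have hdeg' : q.degree ≤ 2 := by
    rw [degree_eq_natDegree hq0, hdeg]
    exact le_rfl
  have hform := eq_quadratic_of_degree_le_two hdeg'
  refine ⟨ha, ?_, ?_⟩
  · intro g h2 h1 h0
    refine hq g ((C_dvd_iff_dvd_coeff g q).2 fun i => ?_)
    rcases (by omega : i = 0 ∨ i = 1 ∨ i = 2 ∨ 3 ≤ i) with rfl | rfl | rfl | hi
    · exact h0
    · exact h1
    · exact h2
    · rw [coeff_eq_zero_of_natDegree_lt (by omega)]
      exact dvd_zero g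
  · rintro ⟨k, hk⟩
    have hk' : q.coeff 1 ^ 2 - 4 * q.coeff 2 * q.coeff 0 = k * k := hk
    have hirrQ : Irreducible (q.map (Int.castRingHom ℚ)) :=
      (Polynomial.IsPrimitive.Int.irreducible_iff_irreducible_map_cast hq).1 hirr
    have haQ : (q.coeff 2 : ℚ) ≠ 0 := by exact_mod_cast ha
    have hkQ : (q.coeff 1 : ℚ) ^ 2 - 4 * q.coeff 2 * q.coeff 0 = k * k := by exact_mod_cast hk'
    have hroot : (q.map (Int.castRingHom ℚ)).IsRoot
        ((-(q.coeff 1 : ℚ) + k) / (2 * q.coeff 2)) := by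
      have e1 : q.map (Int.castRingHom ℚ) = C (q.coeff 2 : ℚ) * X ^ 2 + C (q.coeff 1 : ℚ) * X +
          C (q.coeff 0 : ℚ) := by
        conv_lhs => rw [hform]
        simp [Polynomial.map_add, Polynomial.map_mul]
      rw [IsRoot.def, e1]
      simp only [eval_add, eval_mul, eval_C, eval_pow, eval_X]
      field_simp
      linear_combination (-1 : ℚ) * hkQ
    have h3 := degree_eq_one_of_irreducible_of_root hirrQ hroot
    have h4 : (q.map (Int.castRingHom ℚ)).natDegree = 2 := by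
      rw [natDegree_map_eq_of_injective (RingHom.injective_int (Int.castRingHom ℚ)), hdeg]
    rw [degree_eq_natDegree hirrQ.ne_zero, h4] at h3
    norm_num at h3

lemma qd_ht (q : ℤ[X]) (H : ℝ) (hdeg : q.natDegree = 2) (hHb : Hb q H)
    (hj : ∃ j : ℕ, |((q.coeff j : ℤ) : ℝ)| = H) (hH : 1 ≤ H) : ((qd q).ht : ℝ) = H := by
  have h0 : ((qd q).ht : ℝ) = max |(q.coeff 2 : ℝ)| (max |(q.coeff 1 : ℝ)| |(q.coeff 0 : ℝ)|) := by
    unfold Qd.ht qd
    push_cast
    rfl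
  rw [h0]
  refine le_antisymm (max_le (hHb 2) (max_le (hHb 1) (hHb 0))) ?_
  obtain ⟨j, hj⟩ := hj
  rw [← hj]
  rcases (by omega : j = 0 ∨ j = 1 ∨ j = 2 ∨ 3 ≤ j) with rfl | rfl | rfl | hj3
  · exact (le_max_right _ _).trans (le_max_right _ _)
  · exact (le_max_left _ _).trans (le_max_right _ _)
  · exact le_max_left _ _
  · rw [coeff_eq_zero_of_natDegree_lt (by omega), Int.cast_zero, abs_zero] at hj
    linarith

lemma quad_case (n : ℕ) (Y δ C ξ H : ℝ) (x : ℕ → ℤ) (q : ℤ[X]) (hq : q.IsPrimitive)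
    (hirr : Irreducible q) (hdeg : q.natDegree = 2) (hann : Ann n 2 x q) (hHb : Hb q H)
    (hj : ∃ j : ℕ, |((q.coeff j : ℤ) : ℝ)| = H) (hH : 1 ≤ H)
    (hH2 : H ^ (n - 2) ≤ C * (Y * δ)) (h0 : 0 ≤ ξ) (h1 : ξ ≤ 1) (hx : NrW n Y δ ξ x)
    (hexc : ξ ∉ Exc n Y δ C) : H ^ (n - 1) < Y * δ := by
  by_contra hcon
  push Not at hcon
  apply hexc
  have hht := qd_ht q H hdeg hHb hj hH
  refine ⟨h0, h1, qd q, x, qd_good q hq hirr hdeg, hx, ?_, ?_, ?_⟩
  · intro i hi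
    have h2 := hann.2 i hi
    rw [Finset.sum_range_succ, Finset.sum_range_succ, Finset.sum_range_succ,
      Finset.sum_range_zero] at h2
    show q.coeff 0 * x i + q.coeff 1 * x (i + 1) + q.coeff 2 * x (i + 2) = 0
    rw [add_zero, zero_add] at h2
    exact h2
  · rw [hht]
    exact hcon
  · rw [hht]
    exact hH2

/-! ### Numbers -/

lemma exists_v (R : ℕ) (ρ : ℝ) (V : ℤ) (h1 : ρ ≤ 2 ^ (R + 2))
    (hV : -((R : ℤ) + 2) ≤ V) :
    ∃ v : ℤ, -((R : ℤ) + 2) ≤ v ∧ v ≤ V ∧ ρ ≤ (2 : ℝ) ^ (-v) ∧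
      (v = V ∨ (2 : ℝ) ^ (-v) ≤ 2 * ρ) := by
  by_cases hρ : ρ ≤ (2 : ℝ) ^ (-V)
  · exact ⟨V, hV, le_rfl, hρ, Or.inl rfl⟩
  · push Not at hρ
    have hρ0 : 0 < ρ := lt_trans (by positivity) hρ
    obtain ⟨k, hk1, hk2⟩ := exists_mem_Ioc_zpow hρ0 (one_lt_two (α := ℝ))
    have e : (2 : ℝ) ^ (-(-(k + 1))) = (2 : ℝ) ^ (k + 1) := by rw [neg_neg]
    refine ⟨-(k + 1), ?_, ?_, ?_, Or.inr ?_⟩
    · have h2 : (2 : ℝ) ^ k < (2 : ℝ) ^ ((R : ℤ) + 2) := by
        refine hk1.trans_le (h1.trans (le_of_eq ?_))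
        rw [← zpow_natCast]
        push_cast
        rfl
      have h3 := (zpow_lt_zpow_iff_right₀ (one_lt_two (α := ℝ))).1 h2
      omega
    · have h2 : (2 : ℝ) ^ (-V) < (2 : ℝ) ^ (k + 1) := hρ.trans_le hk2
      have h3 := (zpow_lt_zpow_iff_right₀ (one_lt_two (α := ℝ))).1 h2
      omega
    · rw [e]
      exact hk2
    · rw [e, zpow_add_one₀ (by norm_num)]
      linarith

lemma fin_ineq (m R D : ℕ) (d : Fin m → ℕ) (U W : Fin m → ℝ) (L ℓ KF K2 K3 E s κ lam : ℝ)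
    (hmR : m ≤ R) (hDR : D ≤ R) (hd : ∀ i, d i ≤ D) (hU : ∀ i, 0 ≤ U i)
    (hUs : ∑ i, U i ≤ KF + ℓ) (hE : ((D : ℝ) + 1) * ℓ ≤ E * L + K3)
    (hgap : E + 2 * R * κ ≤ s * (1 + lam)) (hW : (1 + lam) * L - K2 ≤ ∑ i, W i)
    (hi : ∀ i, -(κ * L) ≤ ((d i : ℝ) + 1) * U i - s * W i) (hs : 0 < s) (hs1 : s ≤ 1)
    (hL : 0 ≤ L) (hκ : 0 < κ) (hKF : 0 ≤ KF) (hK2 : 0 ≤ K2) :
    R * κ * L ≤ (R + 1) * KF + K3 + K2 := by
  have h1 : ∑ _i : Fin m, -(κ * L) ≤ ∑ i, (((d i : ℝ) + 1) * U i - s * W i) :=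
    Finset.sum_le_sum fun i _ => hi i
  rw [Finset.sum_const, Finset.card_univ, Fintype.card_fin, nsmul_eq_mul,
    Finset.sum_sub_distrib, ← Finset.mul_sum] at h1
  have h2 : ∑ i, ((d i : ℝ) + 1) * U i ≤ ((D : ℝ) + 1) * ∑ i, U i := by
    rw [Finset.mul_sum]
    refine Finset.sum_le_sum fun i _ => mul_le_mul_of_nonneg_right ?_ (hU i)
    have : (d i : ℝ) ≤ D := by exact_mod_cast hd i
    linarith
  have h3 : ((D : ℝ) + 1) * ∑ i, U i ≤ ((D : ℝ) + 1) * (KF + ℓ) :=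
    mul_le_mul_of_nonneg_left hUs (by positivity)
  have h4 : ((D : ℝ) + 1) * KF ≤ ((R : ℝ) + 1) * KF := by
    have : (D : ℝ) ≤ R := by exact_mod_cast hDR
    exact mul_le_mul_of_nonneg_right (by linarith) hKF
  have h5 : s * ((1 + lam) * L - K2) ≤ s * ∑ i, W i := mul_le_mul_of_nonneg_left hW hs.le
  have h6 : (m : ℝ) * (κ * L) ≤ R * (κ * L) := by
    have : (m : ℝ) ≤ R := by exact_mod_cast hmR
    exact mul_le_mul_of_nonneg_right this (by positivity)
  have h7 : (E + 2 * R * κ) * L ≤ s * (1 + lam) * L := mul_le_mul_of_nonneg_right hgap hL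
  have h8 : s * K2 ≤ 1 * K2 := mul_le_mul_of_nonneg_right hs1 hK2
  have e1 : (m : ℝ) * -(κ * L) = -((m : ℝ) * (κ * L)) := by ring
  have e2 : ((D : ℝ) + 1) * (KF + ℓ) = ((D : ℝ) + 1) * KF + ((D : ℝ) + 1) * ℓ := by ring
  have e3 : (E + 2 * R * κ) * L = E * L + 2 * (R * κ * L) := by ring
  have e4 : s * ((1 + lam) * L - K2) = s * (1 + lam) * L - s * K2 := by ring
  have e5 : (R : ℝ) * (κ * L) = R * κ * L := by ring
  rw [e1] at h1
  rw [e2] at h3
  rw [e3] at h7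
  rw [e4] at h5
  rw [e5] at h6
  linarith

/-- one factor -/
lemma factor (R : ℕ) (s κ L U0 Y ξ : ℝ) (F : ℤ[X]) (u : ℕ) (hR1 : (1 : ℝ) ≤ R) (hs : 0 < s)
    (hκ1 : κ ≤ 1) (hY0 : 0 < Y) (hL : L = Real.log Y) (hL1 : 0 ≤ L)
    (hLa : (R + 1) * U0 ≤ L) (hU1 : Real.log ((2 : ℝ) ^ u) ≤ U0 + L) (hU2 : U0 ≤ L)
    (hξ0 : 0 ≤ ξ) (hξ1 : ξ ≤ 1) (hirr : Irreducible F) (hd1 : 1 ≤ F.natDegree)
    (hdR : F.natDegree ≤ R) (hHb : Hb F (2 ^ u))
    (hj : ∃ j : ℕ, (2 : ℝ) ^ u ≤ 2 * |((F.coeff j : ℤ) : ℝ)|)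
    (hcon : ξ ∉ CS R s κ (2 * (R + 3) / s) Y) :
    ∃ W : ℝ, -(κ * L) ≤ ((F.natDegree : ℝ) + 1) * Real.log ((2 : ℝ) ^ u) - s * W ∧
      0 < |(rp F).eval ξ| ∧
      -W ≤ Real.log 2 + (Real.log |(rp F).eval ξ| - Real.log ((2 : ℝ) ^ u)) := by
  set B : ℝ := 2 * (R + 3) / s with hB
  have hB0 : 0 ≤ B := by positivity
  set V : ℤ := ⌊B * L + 1⌋ with hV
  have hV1 : (V : ℝ) ≤ B * L + 1 := Int.floor_le _
  have hV2 : B * L < V := by
    have := Int.lt_floor_add_one (B * L + 1)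
    linarith
  have hV0 : 0 ≤ V := Int.floor_nonneg.2 (by positivity)
  have hρ1 : |(rp F).eval ξ| / 2 ^ u ≤ 2 ^ (R + 2) := by
    rw [div_le_iff₀ (by positivity)]
    have e1 := eval_bound F R (2 ^ u) ξ hdR hHb hξ0 hξ1
    have e2 : ((R : ℝ) + 1) ≤ 2 ^ (R + 2) := by
      have e3 : R + 1 ≤ 2 ^ (R + 2) := by
        have := Nat.lt_two_pow_self (n := R + 2)
        omega
      exact_mod_cast e3
    exact e1.trans (mul_le_mul_of_nonneg_right e2 (by positivity))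
  obtain ⟨v, hv1, hv2, hv3, hv4⟩ := exists_v R (|(rp F).eval ξ| / 2 ^ u) V hρ1 (by omega)
  have hcost : -(κ * L) < ((F.natDegree : ℝ) + 1) * Real.log ((2 : ℝ) ^ u) -
      s * ((v : ℝ) * Real.log 2) := by
    have e1 : ¬ (((2 : ℝ) ^ u) ^ (F.natDegree + 1) * ((2 : ℝ) ^ (-v)) ^ s ≤
        Y ^ (-κ)) := by
      intro hc
      apply hcon
      refine ⟨F.natDegree, u, v, hd1, hdR, ?_, hv1, ?_, hc, ?_⟩
      · rw [Real.log_pow] at hU1
        have e3 := log_two_ge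
        have e4 : (0 : ℝ) ≤ u := Nat.cast_nonneg _
        have e5 : (u : ℝ) * (1 / 2) ≤ (u : ℝ) * Real.log 2 := mul_le_mul_of_nonneg_left e3 e4
        rw [← hL]
        linarith
      · have e2 : (v : ℝ) ≤ V := by exact_mod_cast hv2
        rw [← hL]
        exact e2.trans hV1
      · refine ⟨hξ0, hξ1, F, hirr, rfl, hHb, hj, ?_⟩
        rw [div_le_iff₀ (by positivity)] at hv3
        rw [mul_comm]
        exact hv3
    push Not at e1
    have e2 := Real.log_lt_log (Real.rpow_pos_of_pos hY0 _) e1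
    rw [Real.log_rpow hY0, Real.log_mul (by positivity)
      (Real.rpow_pos_of_pos (by positivity) _).ne', Real.log_pow,
      Real.log_rpow (by positivity), Real.log_zpow, ← hL] at e2
    push_cast at e2
    linarith
  have hvV : v ≠ V := by
    intro hi
    have e1 := hcost
    rw [hi] at e1
    have e2 : (R + 3) * L ≤ s * ((V : ℝ) * Real.log 2) := by
      have e3 : B * L * (1 / 2) ≤ (V : ℝ) * Real.log 2 := by
        have e4 := log_two_ge
        have e5 : (0 : ℝ) ≤ V := by exact_mod_cast hV0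
        exact mul_le_mul hV2.le e4 (by norm_num) e5
      have e6 : s * (B * L * (1 / 2)) = (R + 3) * L := by
        rw [hB]
        field_simp
      rw [← e6]
      exact mul_le_mul_of_nonneg_left e3 hs.le
    have e7 : ((F.natDegree : ℝ) + 1) * Real.log ((2 : ℝ) ^ u) ≤ (R + 1) * (U0 + L) := by
      have e8 : (F.natDegree : ℝ) ≤ R := by exact_mod_cast hdR
      have e9 : 0 ≤ Real.log ((2 : ℝ) ^ u) := Real.log_nonneg (one_le_pow₀ (by norm_num))
      exact mul_le_mul (by linarith) hU1 e9 (by positivity)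
    have e10 : κ * L ≤ 1 * L := mul_le_mul_of_nonneg_right hκ1 hL1
    have e11 : ((R : ℝ) + 1) * (U0 + L) = (R + 1) * U0 + R * L + L := by ring
    have e12 : ((R : ℝ) + 3) * L = R * L + 3 * L := by ring
    rw [e11] at e7
    rw [e12] at e2
    linarith
  have e2 : (2 : ℝ) ^ (-v) ≤ 2 * (|(rp F).eval ξ| / 2 ^ u) := hv4.resolve_left hvV
  have e3 : 0 < 2 * (|(rp F).eval ξ| / 2 ^ u) := lt_of_lt_of_le (by positivity) e2
  have e4 : 0 < |(rp F).eval ξ| := by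
    rcases (abs_nonneg ((rp F).eval ξ)).lt_or_eq with h | h
    · exact h
    · rw [← h] at e3
      simp at e3
  refine ⟨(v : ℝ) * Real.log 2, hcost.le, e4, ?_⟩
  have e5 := Real.log_le_log (by positivity) e2
  rw [Real.log_zpow, Real.log_mul (by norm_num) (by positivity),
    Real.log_div e4.ne' (by positivity)] at e5
  push_cast at e5
  linarith

/-- the inequality for the height -/
lemma height_log (n r R : ℕ) (lam Y H cS δ L : ℝ) (h2r : 2 * r ≤ n) (hr1 : 1 ≤ r) (hrR : r ≤ R)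
    (hlam : 0 < lam) (hY0 : 0 < Y) (hδ0 : 0 < δ) (hH0 : 0 < H) (hcS : 1 ≤ cS)
    (hL : L = Real.log Y) (hlδ : Real.log δ = -(lam * L) + lam * Real.log 2)
    (h : H ^ (n - 2 * r + 2) ≤ cS * (Y * δ ^ (r - 1))) :
    ((n : ℝ) - 2 * r + 2) * Real.log H ≤ (1 - ((r : ℝ) - 1) * lam) * L +
      (Real.log cS + R * lam * Real.log 2) := by
  have e1 := Real.log_le_log (by positivity) h
  rw [Real.log_pow, Real.log_mul (by positivity) (by positivity),
    Real.log_mul (by positivity) (by positivity), Real.log_pow, hlδ, ← hL] at e1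
  have e2 : ((n - 2 * r + 2 : ℕ) : ℝ) = (n : ℝ) - 2 * r + 2 := by
    rw [Nat.cast_add, Nat.cast_sub h2r]
    push_cast
    ring
  have e3 : ((r - 1 : ℕ) : ℝ) = (r : ℝ) - 1 := by
    rw [Nat.cast_sub hr1]
    push_cast
    ring
  rw [e2, e3] at e1
  have hrR' : (r : ℝ) ≤ R := by exact_mod_cast hrR
  have hl2 : 0 < Real.log 2 := Real.log_pos (by norm_num)
  have e4 : ((r : ℝ) - 1) * (lam * Real.log 2) ≤ R * (lam * Real.log 2) :=
    mul_le_mul_of_nonneg_right (by linarith) (by positivity)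
  linarith

/-- the inequality for the sum of the exponents -/
lemma sumW (m R : ℕ) (lam Y H cS δ L KF ξ : ℝ) (q : ℤ[X]) (F : Fin m → ℤ[X]) (U W : Fin m → ℝ)
    (hmR : m ≤ R) (hY0 : 0 < Y) (hδ0 : 0 < δ) (hH0 : 0 < H) (hcS : 1 ≤ cS)
    (hL : L = Real.log Y) (hlδ : Real.log δ = -(lam * L) + lam * Real.log 2)
    (hprod : q = ∏ i, F i ∨ q = -∏ i, F i) (hqξ : |(rp q).eval ξ| ≤ cS * (H * δ / Y))
    (hUs : Real.log H ≤ KF + ∑ i, U i) (h1 : ∀ i, 0 < |(rp (F i)).eval ξ|)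
    (h2 : ∀ i, -W i ≤ Real.log 2 + (Real.log |(rp (F i)).eval ξ| - U i)) :
    (1 + lam) * L - (R * Real.log 2 + Real.log cS + lam * Real.log 2 + KF) ≤ ∑ i, W i := by
  have hl2 : 0 < Real.log 2 := Real.log_pos (by norm_num)
  have e6 : ∑ i, -W i ≤ ∑ i, (Real.log 2 + (Real.log |(rp (F i)).eval ξ| - U i)) :=
    Finset.sum_le_sum fun i _ => h2 i
  rw [Finset.sum_neg_distrib, Finset.sum_add_distrib, Finset.sum_sub_distrib,
    Finset.sum_const, Finset.card_univ, Fintype.card_fin, nsmul_eq_mul,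
    ← Real.log_prod (fun i _ => (h1 i).ne'), ← eval_prod_abs q F hprod ξ] at e6
  have e7 : 0 < |(rp q).eval ξ| := by
    rw [eval_prod_abs q F hprod ξ]
    exact Finset.prod_pos fun i _ => h1 i
  have e8 := Real.log_le_log e7 hqξ
  rw [Real.log_mul (by positivity) (by positivity), Real.log_div (by positivity)
    (by positivity), Real.log_mul (by positivity) (by positivity), hlδ, ← hL] at e8
  have e9 : (m : ℝ) * Real.log 2 ≤ R * Real.log 2 := by
    have : (m : ℝ) ≤ R := by exact_mod_cast hmR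
    exact mul_le_mul_of_nonneg_right this hl2.le
  linarith

lemma scale (a N P ℓ L K : ℝ) (ha : 0 ≤ a) (hN : 1 ≤ N) (hK : 0 ≤ K)
    (h : N * ℓ ≤ P * L + K) : a * ℓ ≤ a * P / N * L + a * K := by
  have hN0 : 0 < N := by linarith
  have h1 : a / N * (N * ℓ) ≤ a / N * (P * L + K) := mul_le_mul_of_nonneg_left h (by positivity)
  have h2 : a / N * (N * ℓ) = a * ℓ := by
    field_simp
  have h3 : a / N * (P * L + K) = a * P / N * L + a * K / N := by
    field_simp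
  have h4 : a * K / N ≤ a * K := div_le_self (by positivity) hN
  rw [h2, h3] at h1
  linarith

lemma gap_ev (R : ℕ) (E S : ℝ) (h : E < S) : ∀ᶠ κ : ℝ in 𝓝[>] 0, E + 2 * R * κ ≤ S := by
  have h1 : Tendsto (fun κ : ℝ => E + 2 * R * κ) (𝓝 0) (𝓝 (E + 2 * R * 0)) :=
    (tendsto_const_nhds).add (tendsto_const_nhds.mul tendsto_id)
  rw [mul_zero, add_zero] at h1
  have h2 : ∀ᶠ κ : ℝ in 𝓝 0, E + 2 * R * κ ≤ S := (h1.eventually (gt_mem_nhds h)).mono
    fun κ hκ => le_of_lt hκ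
  exact h2.filter_mono nhdsWithin_le_nhds

lemma gaps (n R : ℕ) (lam s : ℝ) (h : Par n R lam s) : ∃ κ : ℝ, 0 < κ ∧ κ ≤ 1 ∧
    2 / (n : ℝ) + 2 * R * κ ≤ s * (1 + lam) ∧
    2 * (1 - lam) / ((n : ℝ) - 2) + 2 * R * κ ≤ s * (1 + lam) ∧
    3 * (1 - lam) / ((n : ℝ) - 1) + 2 * R * κ ≤ s * (1 + lam) ∧
    ∀ r : ℕ, 3 ≤ r → r ≤ R →
      ((r : ℝ) + 1) * (1 - ((r : ℝ) - 1) * lam) / ((n : ℝ) - 2 * r + 2) + 2 * R * κ ≤
        s * (1 + lam) := by
  obtain ⟨-, -, -, -, -, -, -, -, h1, h2, h3, h4⟩ := h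
  have e4 : ∀ᶠ κ : ℝ in 𝓝[>] 0, ∀ r ∈ Finset.range (R + 1), 3 ≤ r →
      ((r : ℝ) + 1) * (1 - ((r : ℝ) - 1) * lam) / ((n : ℝ) - 2 * r + 2) + 2 * R * κ ≤
        s * (1 + lam) := by
    rw [Filter.eventually_all_finset]
    intro r hr
    by_cases hr3 : 3 ≤ r
    · exact (gap_ev R _ _ (h4 r hr3 (by rw [Finset.mem_range] at hr; omega))).mono fun κ hκ _ => hκ
    · exact Filter.Eventually.of_forall fun κ h => absurd h hr3
  have e5 : ∀ᶠ κ : ℝ in 𝓝[>] 0, 0 < κ := self_mem_nhdsWithin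
  have e6 : ∀ᶠ κ : ℝ in 𝓝[>] 0, κ ≤ 1 := by
    have : ∀ᶠ κ : ℝ in 𝓝 0, κ ≤ 1 := (gt_mem_nhds (zero_lt_one)).mono fun κ hκ => le_of_lt hκ
    exact this.filter_mono nhdsWithin_le_nhds
  obtain ⟨κ, g1, g2, g3, g4, g5, g6⟩ := ((gap_ev R _ _ h1).and ((gap_ev R _ _ h2).and
    ((gap_ev R _ _ h3).and (e4.and (e5.and e6))))).exists
  exact ⟨κ, g5, g6, g1, g2, g3, fun r h3 hR => g4 r (Finset.mem_range.2 (by omega)) h3⟩

end Pool.Agent.MP211W.RedW

namespace Pool.Agent.MP211W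

open Polynomial Filter Topology RedW
open Pool.Agent.MP211V (rp tc Hb Sl Mx)

theorem wRedW (h1 : S_Str) (h2 : S_FacW) (h3 : S_Cost) : S_RedW := by
  classical
  intro n R lam s hPar
  obtain ⟨κ, hκ, hκ1, g1, g2, g3, g4⟩ := gaps n R lam s hPar
  obtain ⟨hn, hR, h2R, hlam, hRlam, hs, hs1, hsR, -, -, -, -⟩ := hPar
  have hn4 : (4 : ℝ) ≤ n := by exact_mod_cast hn
  have hR1 : (1 : ℝ) ≤ R := by exact_mod_cast hR
  have hl2 : 0 < Real.log 2 := Real.log_pos (by norm_num)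
  obtain ⟨cS, YS, hcS, hYS, hStr⟩ := h1 n R lam hn hR h2R hlam hRlam
  obtain ⟨cF, hcF, hFac⟩ := h2 R hR
  set B : ℝ := 2 * (R + 3) / s with hB
  have hB0 : 0 ≤ B := by positivity
  obtain ⟨Y₁, hcov⟩ := cover h3 R s κ B hs hs1 hsR hκ hB0
  set KF : ℝ := Real.log cF with hKF
  have hKF0 : 0 ≤ KF := Real.log_nonneg hcF
  have hlcS : 0 ≤ Real.log cS := Real.log_nonneg hcS
  set K1 : ℝ := Real.log cS + R * lam * Real.log 2 with hK1
  have hK10 : 0 ≤ K1 := by positivity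
  have hK1' : lam * Real.log 2 ≤ K1 := by
    have h00 : 0 ≤ lam * Real.log 2 := by positivity
    have h01 : 1 * (lam * Real.log 2) ≤ R * (lam * Real.log 2) :=
      mul_le_mul_of_nonneg_right hR1 h00
    have h02 : (R : ℝ) * lam * Real.log 2 = R * (lam * Real.log 2) := by ring
    rw [hK1, h02]
    linarith
  set K2 : ℝ := R * Real.log 2 + Real.log cS + lam * Real.log 2 + KF with hK2
  have hK20 : 0 ≤ K2 := by positivity
  set K3 : ℝ := (R + 3) * K1 with hK3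
  set L0 : ℝ := max ((R + 1) * (K1 + KF)) (((R + 1) * KF + K3 + K2) / (R * κ)) with hL0
  refine ⟨κ / 2, cS, max (max YS Y₁) (Real.exp (L0 + 1)), by positivity, hcS,
    hYS.trans ((le_max_left _ _).trans (le_max_left _ _)), fun Y hY => ?_⟩
  have hYS' : YS ≤ Y := ((le_max_left _ _).trans (le_max_left _ _)).trans hY
  have hY₁' : Y₁ ≤ Y := ((le_max_right _ _).trans (le_max_left _ _)).trans hY
  have hYe : Real.exp (L0 + 1) ≤ Y := (le_max_right _ _).trans hY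
  have hY2 : 2 ≤ Y := hYS.trans hYS'
  have hY0 : 0 < Y := by linarith
  refine (hcov Y hY₁').mono le_rfl ?_
  rintro ξ ⟨⟨hξ0, hξ1, x, hx⟩, hexc⟩
  by_contra hcon
  set L : ℝ := Real.log Y with hL
  have hLL : L0 + 1 ≤ L := by
    have := Real.log_le_log (Real.exp_pos _) hYe
    rwa [Real.log_exp] at this
  have hLa : (R + 1) * (K1 + KF) ≤ L := by
    have : (R + 1) * (K1 + KF) ≤ L0 := le_max_left _ _
    linarith
  have hLb : ((R + 1) * KF + K3 + K2) < R * κ * L := by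
    have h4 : ((R + 1) * KF + K3 + K2) / (R * κ) < L := by
      have : ((R + 1) * KF + K3 + K2) / (R * κ) ≤ L0 := le_max_right _ _
      linarith
    rw [div_lt_iff₀ (by positivity)] at h4
    linarith
  have hL1 : 0 ≤ L := Real.log_nonneg (by linarith)
  have hKL : K1 + KF ≤ L := by
    have h00 : 0 ≤ R * (K1 + KF) := by positivity
    have h01 : ((R : ℝ) + 1) * (K1 + KF) = R * (K1 + KF) + (K1 + KF) := by ring
    linarith
  set δ : ℝ := (Y / 2) ^ (-lam) with hδ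
  have hδ0 : 0 < δ := Real.rpow_pos_of_pos (by positivity) _
  have hlδ : Real.log δ = -(lam * L) + lam * Real.log 2 := by
    rw [hδ, Real.log_rpow (by positivity), Real.log_div (by positivity) (by norm_num)]
    ring
  obtain ⟨r, q, H, hr1, hrR, hprim, hdeg1, hann, hHb, hj, hH1, hHpow, hqξ⟩ :=
    hStr Y δ ξ x hYS' rfl hξ0 hξ1 hx
  set ℓ : ℝ := Real.log H with hℓ
  have hH0 : 0 < H := by linarith
  have hℓ0 : 0 ≤ ℓ := Real.log_nonneg hH1
  have hrR' : (r : ℝ) ≤ R := by exact_mod_cast hrR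
  have hr1' : (1 : ℝ) ≤ r := by exact_mod_cast hr1
  have h2r : 2 * r ≤ n := by omega
  have h2r' : 2 * (r : ℝ) ≤ n := by exact_mod_cast h2r
  -- the height
  have A1 : ((n : ℝ) - 2 * r + 2) * ℓ ≤ (1 - ((r : ℝ) - 1) * lam) * L + K1 :=
    height_log n r R lam Y H cS δ L h2r hr1 hrR hlam hY0 hδ0 hH0 hcS rfl hlδ hHpow
  have hℓL : ℓ ≤ L + K1 := by
    have e1 : 1 * ℓ ≤ ((n : ℝ) - 2 * r + 2) * ℓ := mul_le_mul_of_nonneg_right (by linarith) hℓ0
    have e2 : 0 ≤ ((r : ℝ) - 1) * lam * L := mul_nonneg (mul_nonneg (by linarith) hlam.le) hL1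
    linarith
  obtain ⟨m, F, u, hm1, hmR, hprod, hF, hsum, hup, hlow⟩ :=
    hFac q H hprim hdeg1 (hann.1.trans hrR) hHb hj
  have hU0 : ∀ i, 0 ≤ Real.log ((2 : ℝ) ^ u i) := fun i =>
    Real.log_nonneg (one_le_pow₀ (by norm_num))
  have hlogprod : Real.log (∏ i, (2 : ℝ) ^ u i) = ∑ i, Real.log ((2 : ℝ) ^ u i) :=
    Real.log_prod (fun i _ => by positivity)
  have hUs : ∑ i, Real.log ((2 : ℝ) ^ u i) ≤ KF + ℓ := by
    rw [← hlogprod]
    have := Real.log_le_log (Finset.prod_pos fun i _ => by positivity) hup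
    rw [Real.log_mul (by positivity) (by positivity)] at this
    exact this
  have hUs2 : ℓ ≤ KF + ∑ i, Real.log ((2 : ℝ) ^ u i) := by
    rw [← hlogprod]
    have := Real.log_le_log hH0 hlow
    rw [Real.log_mul (by positivity) (Finset.prod_pos fun i _ => by positivity).ne'] at this
    exact this
  have hUi : ∀ i, Real.log ((2 : ℝ) ^ u i) ≤ KF + ℓ := fun i =>
    (Finset.single_le_sum (f := fun i => Real.log ((2 : ℝ) ^ u i)) (fun i _ => hU0 i)
      (Finset.mem_univ i)).trans hUs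
  have hdr : ∀ i, (F i).natDegree ≤ r := fun i =>
    (Finset.single_le_sum (f := fun i => (F i).natDegree) (fun i _ => Nat.zero_le _)
      (Finset.mem_univ i)).trans (hsum.le.trans hann.1)
  -- the exponents
  have hW0 := fun i => factor R s κ L (KF + K1) Y ξ (F i) (u i) hR1 hs hκ1 hY0 rfl hL1
    (by rw [add_comm KF K1]; exact hLa) ((hUi i).trans (by linarith)) (by linarith) hξ0 hξ1
    (hF i).1 (hF i).2.1 ((hdr i).trans hrR) (hF i).2.2.1 (hF i).2.2.2 hcon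
  choose W hcost hpos hWi using hW0
  have hW : (1 + lam) * L - K2 ≤ ∑ i, W i :=
    sumW m R lam Y H cS δ L KF ξ q F (fun i => Real.log ((2 : ℝ) ^ u i)) W hmR hY0 hδ0 hH0 hcS rfl
      hlδ hprod hqξ hUs2 hpos hWi
  have hfin : ∀ (D : ℕ) (E : ℝ), D ≤ R → (∀ i, (F i).natDegree ≤ D) →
      ((D : ℝ) + 1) * ℓ ≤ E * L + K3 → E + 2 * R * κ ≤ s * (1 + lam) → False := by
    intro D E hDR hd hE hgap
    have := fin_ineq m R D (fun i => (F i).natDegree) (fun i => Real.log ((2 : ℝ) ^ u i))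
      W L ℓ KF K2 K3 E s κ lam hmR hDR hd hU0 hUs hE hgap hW hcost hs hs1 hL1 hκ hKF0 hK20
    linarith
  have hK3' : ∀ a K : ℝ, 0 ≤ a → a ≤ R + 3 → 0 ≤ K → K ≤ K1 → a * K ≤ K3 := by
    intro a K ha haR hK hKK
    exact mul_le_mul haR hKK hK (by positivity)
  rcases (by omega : r = 1 ∨ r = 2 ∨ 3 ≤ r) with hr | hr | hr
  · -- `r = 1`
    subst hr
    refine hfin 1 (2 / n) hR hdr ?_ g1
    have e1 : (n : ℝ) * ℓ ≤ 1 * L + K1 := by
      push_cast at A1
      linarith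
    have e2 := scale 2 n 1 ℓ L K1 (by norm_num) (by linarith) hK10 e1
    have e3 := hK3' 2 K1 (by norm_num) (by linarith) hK10 le_rfl
    rw [mul_one] at e2
    push_cast
    linarith
  · -- `r = 2`
    subst hr
    by_cases hall : ∀ i, (F i).natDegree ≤ 1
    · refine hfin 1 (2 * (1 - lam) / ((n : ℝ) - 2)) hR hall ?_ g2
      have e1 : ((n : ℝ) - 2) * ℓ ≤ (1 - lam) * L + K1 := by
        push_cast at A1
        linarith
      have e2 := scale 2 ((n : ℝ) - 2) (1 - lam) ℓ L K1 (by norm_num) (by linarith) hK10 e1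
      have e3 := hK3' 2 K1 (by norm_num) (by linarith) hK10 le_rfl
      push_cast
      linarith
    · push Not at hall
      obtain ⟨i, hi⟩ := hall
      have hFi : (F i).natDegree = 2 := by
        have := hdr i
        omega
      have hpr := single F (fun i => (hF i).2.1) 2 (hsum.le.trans hann.1) i (by omega)
      have hqF : q = F i ∨ q = -F i := by
        rw [← hpr]
        exact hprod
      have hirr : Irreducible q := by
        rcases hqF with h | h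
        · rw [h]
          exact (hF i).1
        · rw [h]
          exact (Associated.refl (F i)).neg_right.irreducible (hF i).1
      have hqdeg : q.natDegree = 2 := by
        rcases hqF with h | h
        · rw [h, hFi]
        · rw [h, natDegree_neg, hFi]
      have hH2 : H ^ (n - 2) ≤ cS * (Y * δ) := by
        have e1 := hHpow
        rw [show n - 2 * 2 + 2 = n - 2 by omega, show 2 - 1 = 1 by norm_num, pow_one] at e1
        exact e1
      have hlt := quad_case n Y δ cS ξ H x q hprim hirr hqdeg hann hHb hj hH1 hH2 hξ0 hξ1 hx hexc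
      refine hfin 2 (3 * (1 - lam) / ((n : ℝ) - 1)) hrR hdr ?_ g3
      have e1 := Real.log_lt_log (by positivity) hlt
      rw [Real.log_pow, Real.log_mul (by positivity) (by positivity), hlδ] at e1
      have e2 : ((n - 1 : ℕ) : ℝ) = (n : ℝ) - 1 := by
        rw [Nat.cast_sub (by omega)]
        push_cast
        ring
      rw [e2] at e1
      have e3 : ((n : ℝ) - 1) * ℓ ≤ (1 - lam) * L + lam * Real.log 2 := by linarith
      have e4 := scale 3 ((n : ℝ) - 1) (1 - lam) ℓ L (lam * Real.log 2) (by norm_num)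
        (by linarith) (by positivity) e3
      have e5 := hK3' 3 (lam * Real.log 2) (by norm_num) (by linarith) (by positivity) hK1'
      push_cast
      linarith
  · -- `3 ≤ r`
    refine hfin r _ hrR hdr ?_ (g4 r hr hrR)
    have e2 := scale ((r : ℝ) + 1) ((n : ℝ) - 2 * r + 2) (1 - ((r : ℝ) - 1) * lam) ℓ L K1
      (by positivity) (by linarith) hK10 A1
    have e3 := hK3' ((r : ℝ) + 1) K1 (by positivity) (by linarith) hK10 le_rfl
    linarith

end Pool.Agent.MP211W
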