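import Pool.Agent.Lib.MP_211f72_nt.W.SpecA

/-!
# MP_211f72_nt, third theorem: RelI, two data with the same ideal and the same class
-/

namespace Pool.Agent.MP211W

open Polynomial NumberField

namespace RelI

variable {K : Type} [Field K] [NumberField K]

omit [NumberField K] in
theorem coe_ne {z : 𝓞 K} (hz : z ≠ 0) : (z : K) ≠ 0 := fun h =>
  hz (RingOfIntegers.ext h)

/-- the ideal identity -/
theorem ideal_id {n : ℕ} {I I₀ b Ψ Ψ₀ A A₀ X Y : Ideal (𝓞 K)} (hb : b ≠ ⊥)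
    (hE : Ψ * I ^ n = A ^ n * b) (hE₀ : Ψ₀ * I₀ ^ n = A₀ ^ n * b) (hXY : X * I = Y * I₀) :
    Ψ₀ * X ^ n * A ^ n = Ψ * Y ^ n * A₀ ^ n := by
  have hb0 : b ≠ 0 := hb
  apply mul_right_cancel₀ hb0
  calc Ψ₀ * X ^ n * A ^ n * b = Ψ₀ * X ^ n * (A ^ n * b) := by ring
    _ = Ψ₀ * Ψ * (X * I) ^ n := by rw [← hE]; ring
    _ = Ψ * Y ^ n * (Ψ₀ * I₀ ^ n) := by rw [hXY]; ring
    _ = Ψ * Y ^ n * A₀ ^ n * b := by rw [hE₀]; ring

end RelI

open RelI in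
theorem wRelI (h1 : S_QFb) (h2 : S_QI) : S_RelI := by
  intro d K _ _ Q hd hd2 n q q₀ θ θ₀ ψ ψ₀ I I₀ b _ hD hD₀ hcl
  obtain ⟨hg, hθ, hI, hψ, hb, hE⟩ := hD
  obtain ⟨hg₀, hθ₀, hI₀, hψ₀, _, hE₀⟩ := hD₀
  obtain ⟨_, _, _, _, k1⟩ := h2 d K Q hd hd2 q θ hg hθ
  obtain ⟨_, _, _, _, k2⟩ := h2 d K Q hd hd2 q₀ θ₀ hg₀ hθ₀
  obtain ⟨hIb, -, hNI⟩ := k1 I hI
  obtain ⟨hIb₀, -, hNI₀⟩ := k2 I₀ hI₀
  obtain ⟨-, -, -, hN, -⟩ := h1 d K Q hd hd2
  obtain ⟨x, y, hx, hy, hxy⟩ := (clI_eq_iff I I₀ hIb hIb₀).1 hcl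
  obtain ⟨w, hw, hIw⟩ := hI
  have ha : (q.a : K) ≠ 0 := Int.cast_ne_zero.2 hg.1
  have ha₀ : (q₀.a : K) ≠ 0 := Int.cast_ne_zero.2 hg₀.1
  have haI : ((q.a : ℤ) : 𝓞 K) ∈ I := by
    rw [hIw]
    exact Ideal.subset_span (Set.mem_insert _ _)
  have hwI : w ∈ I := by
    rw [hIw]
    exact Ideal.subset_span (Set.mem_insert_of_mem _ rfl)
  have hmem : ∀ v ∈ I, ∃ z ∈ I₀, y * z = x * v := by
    intro v hv
    have h3 : x * v ∈ Ideal.span {y} * I₀ := by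
      rw [← hxy]
      exact Ideal.mul_mem_mul (Ideal.mem_span_singleton_self x) hv
    exact Ideal.mem_span_singleton_mul.1 h3
  obtain ⟨z, hz, hz'⟩ := hmem _ haI
  obtain ⟨z₂, hz₂, hz₂'⟩ := hmem _ hwI
  have hxK := coe_ne hx
  have hyK := coe_ne hy
  have ez : (y : K) * (z : K) = (x : K) * (q.a : K) := by
    have := congrArg (fun t : 𝓞 K => (t : K)) hz'
    simpa using this
  have ez₂ : (y : K) * (z₂ : K) = (x : K) * ((q.a : K) * θ) := by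
    have := congrArg (fun t : 𝓞 K => (t : K)) hz₂'
    rw [← hw]
    simpa using this
  -- the unit
  have hid := ideal_id hb hE hE₀ hxy
  rw [Ideal.span_singleton_pow, Ideal.span_singleton_pow, Ideal.span_singleton_pow,
    Ideal.span_singleton_pow, Ideal.span_singleton_mul_span_singleton,
    Ideal.span_singleton_mul_span_singleton, Ideal.span_singleton_mul_span_singleton,
    Ideal.span_singleton_mul_span_singleton, Ideal.span_singleton_eq_span_singleton] at hid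
  obtain ⟨u, hu⟩ := hid
  have hu' : (ψ₀ : K) * (x : K) ^ n * (q.a : K) ^ n * ((u : 𝓞 K) : K) =
      (ψ : K) * (y : K) ^ n * (q₀.a : K) ^ n := by
    have := congrArg (fun t : 𝓞 K => (t : K)) hu
    simpa using this
  refine ⟨(x : K) * (q.a : K) / ((y : K) * (q₀.a : K)), u,
    div_ne_zero (mul_ne_zero hxK ha) (mul_ne_zero hyK ha₀), ?_, ⟨z, hz, ?_⟩, ⟨z₂, hz₂, ?_⟩, ?_⟩
  · rw [div_pow, mul_pow, mul_pow]
    field_simp
    linear_combination (-1 : K) * hu'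
  · field_simp
    linear_combination ez
  · field_simp
    linear_combination ez₂
  · -- norms
    have hn1 := congrArg (fun J : Ideal (𝓞 K) => ((Ideal.absNorm J : ℕ) : ℝ)) hxy
    simp only [map_mul, Nat.cast_mul, hN, hNI, hNI₀, Nat.cast_natAbs, Int.cast_abs] at hn1
    have hσy : Q.σ (y : K) ≠ 0 := (map_ne_zero Q.σ).2 hyK
    have hτy : Q.σ (Q.τ (y : K)) ≠ 0 := (map_ne_zero Q.σ).2 ((map_ne_zero Q.τ).2 hyK)
    have haR : |(q.a : ℝ)| ≠ 0 := abs_ne_zero.2 (Int.cast_ne_zero.2 hg.1)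
    have haR₀ : |(q₀.a : ℝ)| ≠ 0 := abs_ne_zero.2 (Int.cast_ne_zero.2 hg₀.1)
    have hy1 : |Q.σ (y : K)| ≠ 0 := abs_ne_zero.2 hσy
    have hy2 : |Q.σ (Q.τ (y : K))| ≠ 0 := abs_ne_zero.2 hτy
    simp only [map_div₀, map_mul, map_intCast, abs_mul, abs_div] at hn1 ⊢
    field_simp
    linear_combination hn1

end Pool.Agent.MP211W
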