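import Pool.Agent.Lib.MP_211f72_nt.W.SpecB

/-!
# MP_211f72_nt, third theorem: the statement `S_Str` (the structure of a near point)
-/

namespace Pool.Agent.MP211W

open Polynomial NumberField
open Pool.Agent.MP211V (rp tc Hb Sl Mx)

/-- the large parameter -/
private theorem Str_Y (R : ℕ) (lam C : ℝ) (hC : 1 ≤ C) (h : 1 < R * lam) : ∃ Y₀ : ℝ, 2 ≤ Y₀ ∧
    ∀ Y : ℝ, Y₀ ≤ Y → C * (Y * ((Y / 2) ^ (-lam)) ^ R) < 1 := by
  have hp : 0 < R * lam - 1 := by linarith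
  have ht := tendsto_rpow_neg_atTop hp
  have hpos : 0 < 1 / (2 * C) := by positivity
  have hev := ht.eventually (gt_mem_nhds hpos)
  obtain ⟨Z, hZ⟩ := Filter.eventually_atTop.1 hev
  refine ⟨max 2 (2 * Z), le_max_left _ _, fun Y hY => ?_⟩
  have hY2 : 2 ≤ Y := (le_max_left _ _).trans hY
  have hYZ : Z ≤ Y / 2 := by
    have := (le_max_right 2 (2 * Z)).trans hY
    linarith
  have h1 := hZ (Y / 2) hYZ
  have hY0 : 0 < Y / 2 := by linarith
  have h2 : Y * ((Y / 2) ^ (-lam)) ^ R = 2 * (Y / 2) ^ (-(R * lam - 1)) := by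
    have e1 : -(R * lam - 1) = 1 + (-lam) * R := by ring
    rw [e1, Real.rpow_add hY0, Real.rpow_one, Real.rpow_mul hY0.le, Real.rpow_natCast]
    ring
  rw [h2]
  have h3 : C * (2 * (Y / 2) ^ (-(R * lam - 1))) < C * (2 * (1 / (2 * C))) := by
    have : 0 < C := by linarith
    gcongr
  have h4 : C * (2 * (1 / (2 * C))) = 1 := by
    have : C ≠ 0 := by linarith
    field_simp
  linarith

/-- dividing by the content -/
private theorem Str_prim {n r : ℕ} {x : ℕ → ℤ} {q : ℤ[X]} (hq : q ≠ 0) (h : Ann n r x q) :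
    Ann n r x q.primPart := by
  refine ⟨by rw [natDegree_primPart]; exact h.1, fun i hi => ?_⟩
  have h1 := h.2 i hi
  have hc : q.content ≠ 0 := fun h0 => hq (content_eq_zero_iff.1 h0)
  have h2 : ∀ j, q.coeff j = q.content * q.primPart.coeff j := by
    intro j
    conv_lhs => rw [q.eq_C_content_mul_primPart]
    rw [coeff_C_mul]
  have h3 : ∑ j ∈ Finset.range (r + 1), q.coeff j * x (i + j) =
      q.content * ∑ j ∈ Finset.range (r + 1), q.primPart.coeff j * x (i + j) := by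
    rw [Finset.mul_sum]
    refine Finset.sum_congr rfl fun j _ => ?_
    rw [h2 j, mul_assoc]
  rw [h3] at h1
  exact (mul_eq_zero.1 h1).resolve_left hc

/-- a recurrence of degree zero is zero -/
private theorem Str_deg {n r : ℕ} {x : ℕ → ℤ} {q : ℤ[X]} (h : Ann n r x q) (hr : r ≤ n)
    (hx : x 0 ≠ 0) (hd : q.natDegree = 0) : q = 0 := by
  have h1 := h.2 0 (by omega)
  rw [Finset.sum_eq_single 0] at h1
  · have h2 : q.coeff 0 = 0 := (mul_eq_zero.1 h1).resolve_right hx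
    rw [eq_C_of_natDegree_eq_zero hd, h2, C_0]
  · intro j _ hj
    rw [coeff_eq_zero_of_natDegree_lt (by omega), zero_mul]
  · intro h0
    exact absurd (Finset.mem_range.2 (by omega)) h0

/-- the value at `ξ` -/
private theorem Str_val {n r : ℕ} {Y δ ξ H : ℝ} {x : ℕ → ℤ} {q : ℤ[X]} (hY : 0 < Y)
    (hr : r ≤ n) (hx : NrW n Y δ ξ x) (h : Ann n r x q) (hH : Hb q H) :
    |(rp q).eval ξ| ≤ 2 * (r + 1) * (H * δ / Y) := by
  have h1 := h.2 0 (by omega)
  have h2 : ∑ j ∈ Finset.range (r + 1), ((q.coeff j : ℤ) : ℝ) * (x j : ℝ) = 0 := by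
    have h3 : ∑ j ∈ Finset.range (r + 1), q.coeff j * x j = 0 := by
      rw [← h1]
      refine Finset.sum_congr rfl fun j _ => ?_
      rw [zero_add]
    exact_mod_cast h3
  have h4 : (rp q).eval ξ = ∑ j ∈ Finset.range (r + 1), ((q.coeff j : ℤ) : ℝ) * ξ ^ j := by
    have h5 : (rp q).natDegree < r + 1 := by
      have := natDegree_map_le (f := Int.castRingHom ℝ) (p := q)
      unfold rp
      have := h.1
      omega
    rw [eval_eq_sum_range' h5]
    refine Finset.sum_congr rfl fun j _ => ?_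
    unfold rp
    rw [coeff_map]
    rfl
  have h6 : (x 0 : ℝ) * (rp q).eval ξ =
      ∑ j ∈ Finset.range (r + 1), ((q.coeff j : ℤ) : ℝ) * ((x 0 : ℝ) * ξ ^ j - (x j : ℝ)) := by
    have h7 : ∑ j ∈ Finset.range (r + 1), ((q.coeff j : ℤ) : ℝ) * ((x 0 : ℝ) * ξ ^ j - (x j : ℝ)) =
        (x 0 : ℝ) * ∑ j ∈ Finset.range (r + 1), ((q.coeff j : ℤ) : ℝ) * ξ ^ j -
          ∑ j ∈ Finset.range (r + 1), ((q.coeff j : ℤ) : ℝ) * (x j : ℝ) := by
      rw [Finset.mul_sum, ← Finset.sum_sub_distrib]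
      refine Finset.sum_congr rfl fun j _ => ?_
      ring
    rw [h7, h2, sub_zero, h4]
  have h8 : |(x 0 : ℝ)| * |(rp q).eval ξ| ≤ (r + 1) * (H * δ) := by
    rw [← abs_mul, h6]
    refine (Finset.abs_sum_le_sum_abs _ _).trans ?_
    have h9 : ∀ j ∈ Finset.range (r + 1),
        |((q.coeff j : ℤ) : ℝ) * ((x 0 : ℝ) * ξ ^ j - (x j : ℝ))| ≤ H * δ := by
      intro j hj
      rw [abs_mul]
      have hj' := Finset.mem_range.1 hj
      exact mul_le_mul (hH j) (hx.2.2 j (by omega)) (abs_nonneg _)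
        ((abs_nonneg _).trans (hH j))
    refine (Finset.sum_le_sum h9).trans ?_
    rw [Finset.sum_const, Finset.card_range, nsmul_eq_mul]
    push_cast
    exact le_refl _
  have h9 : Y / 2 * |(rp q).eval ξ| ≤ (r + 1) * (H * δ) :=
    (mul_le_mul_of_nonneg_right hx.1 (abs_nonneg _)).trans h8
  have h10 : 2 * (r + 1) * (H * δ / Y) = (r + 1) * (H * δ) / (Y / 2) := by
    field_simp
  rw [h10, le_div_iff₀ (by positivity)]
  linarith

theorem wStr (h1 : S_Hank) (h2 : S_HB) : S_Str := by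
  classical
  intro n R lam hn hR hRn hlam hRlam
  obtain ⟨CH, hCH, hHank⟩ := h1 R
  have hB : ∀ r, ∃ C : ℝ, 1 ≤ C ∧ (1 ≤ r → 2 * r ≤ n →
      ∀ (Y δ ξ : ℝ) (x : ℕ → ℤ) (q : ℤ[X]), 1 ≤ Y → 0 < δ → δ ≤ 1 → 0 ≤ ξ → ξ ≤ 1 →
      NrW n Y δ ξ x → q.IsPrimitive → Ann n r x q → (∀ p : ℤ[X], p ≠ 0 → ¬ Ann n (r - 1) x p) →
      ∀ j : ℕ, |((q.coeff j : ℤ) : ℝ)| ^ (n - 2 * r + 2) ≤ C * (Y * δ ^ (r - 1))) := by
    intro r
    by_cases hr : 1 ≤ r ∧ 2 * r ≤ n
    · obtain ⟨C, hC, h⟩ := h2 n r hr.1 hr.2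
      exact ⟨C, hC, fun _ _ => h⟩
    · exact ⟨1, le_refl _, fun a b => absurd ⟨a, b⟩ hr⟩
  choose CB hCB hHB using hB
  obtain ⟨Y₀, hY₀, hY⟩ := Str_Y R lam CH hCH hRlam
  have hsum : ∀ r ≤ R, CB r ≤ ∑ r ∈ Finset.range (R + 1), CB r := fun r hr =>
    Finset.single_le_sum (f := CB) (fun i _ => by linarith [hCB i])
      (Finset.mem_range.2 (by omega))
  have hsum0 : 1 ≤ ∑ r ∈ Finset.range (R + 1), CB r := (hCB 0).trans (hsum 0 (by omega))
  have hR0 : (0 : ℝ) ≤ R := Nat.cast_nonneg R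
  refine ⟨∑ r ∈ Finset.range (R + 1), CB r + 2 * (R + 1), Y₀, by linarith, hY₀, ?_⟩
  intro Y δ ξ x hYY hδ hξ0 hξ1 hx
  have hY2 : 2 ≤ Y := hY₀.trans hYY
  have hδ0 : 0 < δ := by
    rw [hδ]
    exact Real.rpow_pos_of_pos (by linarith) _
  have hδ1 : δ ≤ 1 := by
    rw [hδ]
    exact Real.rpow_le_one_of_one_le_of_nonpos (by linarith) (by linarith)
  have hx0 : x 0 ≠ 0 := by
    intro h0
    have := hx.1
    rw [h0, Int.cast_zero, abs_zero] at this
    linarith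
  have hex : ∃ r, ∃ q : ℤ[X], q ≠ 0 ∧ Ann n r x q := by
    obtain ⟨q, hq, ha⟩ := hHank n Y δ ξ x (by omega) (by linarith) hδ0 hδ1 hξ0 hξ1 hx
      (by rw [hδ]; exact hY Y hYY)
    exact ⟨R, q, hq, ha⟩
  have hrR : Nat.find hex ≤ R := by
    obtain ⟨q, hq, ha⟩ := hHank n Y δ ξ x (by omega) (by linarith) hδ0 hδ1 hξ0 hξ1 hx
      (by rw [hδ]; exact hY Y hYY)
    exact Nat.find_min' hex ⟨q, hq, ha⟩
  obtain ⟨q₀, hq₀, ha₀⟩ := Nat.find_spec hex
  have hmin : ∀ m < Nat.find hex, ∀ p : ℤ[X], p ≠ 0 → ¬ Ann n m x p := fun m hm p hp ha =>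
    Nat.find_min hex hm ⟨p, hp, ha⟩
  generalize Nat.find hex = r at hrR ha₀ hmin
  have hr1 : 1 ≤ r := by
    by_contra hr
    have hr0 : r = 0 := by omega
    apply hq₀
    have hd := ha₀.1
    exact Str_deg ha₀ (by omega) hx0 (by omega)
  have ha := Str_prim hq₀ ha₀
  have hpr : q₀.primPart.IsPrimitive := isPrimitive_primPart q₀
  generalize q₀.primPart = q at ha hpr
  have hq : q ≠ 0 := hpr.ne_zero
  have hqd : 1 ≤ q.natDegree := by
    by_contra hd
    exact hq (Str_deg ha (by omega) hx0 (by omega))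
  obtain ⟨j₀, hj₀, hmax⟩ := Finset.exists_max_image (Finset.range (r + 1))
    (fun j => |((q.coeff j : ℤ) : ℝ)|) ⟨0, Finset.mem_range.2 (by omega)⟩
  have hHb : Hb q |((q.coeff j₀ : ℤ) : ℝ)| := by
    intro i
    by_cases hi : i < r + 1
    · exact hmax i (Finset.mem_range.2 hi)
    · have hdr := ha.1
      rw [coeff_eq_zero_of_natDegree_lt (show q.natDegree < i by omega), Int.cast_zero, abs_zero]
      exact abs_nonneg _
  have hH1 : 1 ≤ |((q.coeff j₀ : ℤ) : ℝ)| := by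
    have h3 := hHb q.natDegree
    have h4 : q.coeff q.natDegree ≠ 0 := by
      rw [coeff_natDegree]
      exact leadingCoeff_ne_zero.2 hq
    have h5 : (1 : ℤ) ≤ |q.coeff q.natDegree| := Int.one_le_abs h4
    have h6 : (1 : ℝ) ≤ |((q.coeff q.natDegree : ℤ) : ℝ)| := by exact_mod_cast h5
    exact h6.trans h3
  refine ⟨r, q, _, hr1, hrR, hpr, hqd, ha, hHb, ⟨j₀, rfl⟩, hH1, ?_, ?_⟩
  · refine (hHB r hr1 (by omega) Y δ ξ x q (by linarith) hδ0 hδ1 hξ0 hξ1 hx hpr ha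
      (hmin (r - 1) (by omega)) j₀).trans ?_
    refine mul_le_mul_of_nonneg_right ?_ (by positivity)
    have := hsum r hrR
    linarith
  · refine (Str_val (by linarith) (by omega) hx ha hHb).trans ?_
    refine mul_le_mul_of_nonneg_right ?_ (by positivity)
    have h3 : (r : ℝ) ≤ R := by exact_mod_cast hrR
    linarith

end Pool.Agent.MP211W
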