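import Pool.Agent.Lib.MP_211f72_nt.W.SpecA

/-!
# MP_211f72_nt, third theorem: torsion in finite commutative groups
-/

set_option autoImplicit false

namespace Pool.Agent.MP211W

theorem wTorG : S_TorG := by
  intro G _ _
  refine ⟨fun a b => ?_, fun n g₀ => ?_⟩
  · have hs0 : ∀ h : G, ∃ g : G, (∃ g' : G, g' ^ a = h) → g ^ a = h := by
      intro h
      by_cases hh : ∃ g' : G, g' ^ a = h
      · obtain ⟨g', hg'⟩ := hh
        exact ⟨g', fun _ => hg'⟩
      · exact ⟨1, fun h' => absurd h' hh⟩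
    choose s hs using hs0
    have hs' : ∀ g : G, s (g ^ a) ^ a = g ^ a := fun g => hs (g ^ a) ⟨g, rfl⟩
    rw [← Nat.card_prod]
    have h1 : ∀ g : {g : G // g ^ (a * b) = 1}, (g.1 * (s (g.1 ^ a))⁻¹) ^ a = 1 := by
      intro g
      rw [mul_pow, inv_pow, hs', mul_inv_cancel]
    have h2 : ∀ g : {g : G // g ^ (a * b) = 1}, (g.1 ^ a) ^ b = 1 := by
      intro g
      rw [← pow_mul]
      exact g.2
    refine Nat.card_le_card_of_injective
      (fun g : {g : G // g ^ (a * b) = 1} =>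
        ((⟨g.1 * (s (g.1 ^ a))⁻¹, h1 g⟩ : {g : G // g ^ a = 1}),
          (⟨g.1 ^ a, h2 g⟩ : {g : G // g ^ b = 1}))) ?_
    intro g g' hgg
    have e1 : g.1 * (s (g.1 ^ a))⁻¹ = g'.1 * (s (g'.1 ^ a))⁻¹ :=
      congrArg (fun p => (p.1 : G)) hgg
    have e2 : g.1 ^ a = g'.1 ^ a := congrArg (fun p => (p.2 : G)) hgg
    rw [e2] at e1
    exact Subtype.ext (mul_right_cancel e1)
  · by_cases hh : ∃ g₁ : G, g₁ ^ n = g₀
    · obtain ⟨g₁, hg₁⟩ := hh
      have h1 : ∀ g : {g : G // g ^ n = g₀}, (g.1 * g₁⁻¹) ^ n = 1 := by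
        intro g
        rw [mul_pow, inv_pow, hg₁, g.2, mul_inv_cancel]
      refine Nat.card_le_card_of_injective
        (fun g : {g : G // g ^ n = g₀} => (⟨g.1 * g₁⁻¹, h1 g⟩ : {g : G // g ^ n = 1})) ?_
      intro g g' hgg
      have e1 : g.1 * g₁⁻¹ = g'.1 * g₁⁻¹ := congrArg Subtype.val hgg
      exact Subtype.ext (mul_right_cancel e1)
    · have : IsEmpty {g : G // g ^ n = g₀} := ⟨fun g => hh ⟨g.1, g.2⟩⟩
      rw [Nat.card_of_isEmpty]
      exact Nat.zero_le _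

end Pool.Agent.MP211W
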