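import Pool.Agent.Lib.MP_211f72_nt.W.SpecA
import Pool.Agent.Lib.MP_640417_ag.All.Divisor

/-!
# MP_211f72_nt, third theorem: the two-power torsion of the class groups on average
-/

set_option autoImplicit false

namespace Pool.Agent.MP211W

namespace Tors2

open Polynomial NumberField

/-- The bound for the torsion. -/
def Nk (k d : ℕ) : ℕ := (2 * (4 * d).divisors.card ^ 2) ^ k

theorem tb (h1 : S_Genus) (h2 : S_TorG) (k d : ℕ) (hd : Squarefree d) (hd2 : 2 ≤ d) :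
    TB (2 ^ k) d (Nk k d) := by
  intro K _ _ Q
  induction k with
  | zero =>
    have hsub : Subsingleton {c : ClassGroup (𝓞 K) // c ^ (2 ^ 0) = 1} := ⟨fun a b => by
      have ha : (a : ClassGroup (𝓞 K)) = 1 := by
        have := a.2
        simpa using this
      have hb : (b : ClassGroup (𝓞 K)) = 1 := by
        have := b.2
        simpa using this
      exact Subtype.ext (ha.trans hb.symm)⟩
    have h3 := Finite.card_le_one_iff_subsingleton.mpr hsub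
    have h4 : Nk 0 d = 1 := pow_zero _
    rw [h4]
    exact h3
  | succ k ih =>
    have h3 := (h2 (ClassGroup (𝓞 K))).1 (2 ^ k) 2
    rw [pow_succ 2 k]
    refine h3.trans ?_
    have h4 := h1 d K Q hd hd2
    calc _ ≤ Nk k d * (2 * (4 * d).divisors.card ^ 2) := Nat.mul_le_mul ih h4
      _ = Nk (k + 1) d := by
        unfold Nk
        exact (pow_succ _ _).symm

/-- The size of the bound. -/
theorem nk_le (k : ℕ) (ε : ℝ) (hε : 0 < ε) : ∃ C : ℝ, 0 < C ∧ ∀ d : ℕ, 1 ≤ d →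
    (Nk k d : ℝ) ≤ C * (d : ℝ) ^ (ε / 2) := by
  set η : ℝ := ε / (4 * ((k : ℝ) + 1)) with hη
  have hk : (0 : ℝ) < (k : ℝ) + 1 := by positivity
  have hη0 : 0 < η := by positivity
  obtain ⟨C₀, hC₀, hdiv⟩ := Pool.Agent.Lib.MP_640417_ag.All.divisor_bound η hη0
  refine ⟨(2 * (C₀ * (4 : ℝ) ^ η) ^ 2) ^ k, by positivity, fun d hd => ?_⟩
  have hd0 : (1 : ℝ) ≤ (d : ℝ) := by exact_mod_cast hd
  have h1 := hdiv (4 * d) (by omega)
  have h2 : (((4 * d : ℕ) : ℝ)) ^ η = (4 : ℝ) ^ η * (d : ℝ) ^ η := by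
    push_cast
    rw [Real.mul_rpow (by norm_num) (by positivity)]
  rw [h2] at h1
  have h3 : ((d : ℝ) ^ η) ^ (2 * k) ≤ (d : ℝ) ^ (ε / 2) := by
    rw [← Real.rpow_natCast, ← Real.rpow_mul (by positivity)]
    refine Real.rpow_le_rpow_of_exponent_le hd0 ?_
    push_cast
    rw [hη, div_mul_eq_mul_div, div_le_div_iff₀ (by positivity) (by norm_num)]
    nlinarith
  calc (Nk k d : ℝ) = (2 * ((4 * d).divisors.card : ℝ) ^ 2) ^ k := by
        unfold Nk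
        push_cast
        ring
    _ ≤ (2 * (C₀ * ((4 : ℝ) ^ η * (d : ℝ) ^ η)) ^ 2) ^ k := by gcongr
    _ = (2 * (C₀ * (4 : ℝ) ^ η) ^ 2) ^ k * ((d : ℝ) ^ η) ^ (2 * k) := by
        rw [pow_mul ((d : ℝ) ^ η) 2 k, ← mul_pow]
        congr 1
        ring
    _ ≤ (2 * (C₀ * (4 : ℝ) ^ η) ^ 2) ^ k * (d : ℝ) ^ (ε / 2) := by gcongr

theorem sum_inv_le (X : ℕ) : ∑ d ∈ Finset.Icc 1 X, ((d : ℝ))⁻¹ ≤ 1 + Real.log X := by
  have h := harmonic_le_one_add_log X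
  rw [harmonic_eq_sum_Icc] at h
  push_cast at h
  exact h

end Tors2

open Tors2

theorem wTors2 (h1 : S_Genus) (h2 : S_TorG) : S_Tors2 := by
  intro k ε hε
  obtain ⟨C, hC, hN⟩ := nk_le k ε hε
  refine ⟨C * (1 + 2 / ε), by positivity, fun X hX => ⟨Nk k, fun d hd hd2 _ => tb h1 h2 k d hd hd2, ?_⟩⟩
  have hX1 : (1 : ℝ) ≤ (X : ℝ) := by exact_mod_cast hX
  have h3 : ∀ d ∈ Finset.Icc 1 X, (Nk k d : ℝ) / (d : ℝ) ≤ C * (X : ℝ) ^ (ε / 2) * ((d : ℝ))⁻¹ := by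
    intro d hd
    rw [Finset.mem_Icc] at hd
    have hdX : (d : ℝ) ≤ (X : ℝ) := by exact_mod_cast hd.2
    rw [div_eq_mul_inv]
    have h4 : (d : ℝ) ^ (ε / 2) ≤ (X : ℝ) ^ (ε / 2) :=
      Real.rpow_le_rpow (by positivity) hdX (by positivity)
    have h5 := hN d hd.1
    gcongr
    exact h5.trans (by gcongr)
  refine (Finset.sum_le_sum h3).trans ?_
  rw [← Finset.mul_sum]
  have h6 := sum_inv_le X
  have h7 : Real.log X ≤ (X : ℝ) ^ (ε / 2) / (ε / 2) :=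
    Real.log_le_rpow_div (by positivity) (by positivity)
  have h8 : (1 : ℝ) ≤ (X : ℝ) ^ (ε / 2) := Real.one_le_rpow hX1 (by positivity)
  have h9 : ∑ d ∈ Finset.Icc 1 X, ((d : ℝ))⁻¹ ≤ (1 + 2 / ε) * (X : ℝ) ^ (ε / 2) := by
    have h10 : (X : ℝ) ^ (ε / 2) / (ε / 2) = 2 / ε * (X : ℝ) ^ (ε / 2) := by
      field_simp
    rw [h10] at h7
    linarith
  have h11 : (X : ℝ) ^ ε = (X : ℝ) ^ (ε / 2) * (X : ℝ) ^ (ε / 2) := by
    rw [← Real.rpow_add (by linarith)]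
    congr 1
    ring
  calc C * (X : ℝ) ^ (ε / 2) * ∑ d ∈ Finset.Icc 1 X, ((d : ℝ))⁻¹
      ≤ C * (X : ℝ) ^ (ε / 2) * ((1 + 2 / ε) * (X : ℝ) ^ (ε / 2)) := by gcongr
    _ = C * (1 + 2 / ε) * (X : ℝ) ^ ε := by
        rw [h11]
        ring

end Pool.Agent.MP211W
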