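import Pool.Agent.Lib.MP_211f72_nt.W.SpecA

/-!
# MP_211f72_nt, third theorem: units modulo `n`-th powers
-/

namespace Pool.Agent.MP211W

open NumberField NumberField.InfinitePlace NumberField.Units

namespace UnitN

theorem rank_le {K : Type} [Field K] [NumberField K] (h : Module.finrank ℚ K = 2) :
    rank K ≤ 1 := by
  have h1 := card_add_two_mul_card_eq_rank K
  have h2 := card_eq_nrRealPlaces_add_nrComplexPlaces K
  unfold rank
  rw [h2]
  omega

theorem tors {K : Type} [Field K] [NumberField K] (σ : K →+* ℝ) (ζ : (𝓞 K)ˣ)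
    (hζ : ζ ∈ torsion K) : ζ = 1 ∨ ζ = -1 := by
  have h1 : IsOfFinOrder ζ := hζ
  obtain ⟨m, hm, hm1⟩ := isOfFinOrder_iff_pow_eq_one.mp h1
  set x : ℝ := σ ((ζ : 𝓞 K) : K) with hx
  have h2 : x ^ m = 1 := by
    rw [hx, ← map_pow]
    have : (((ζ : 𝓞 K) : K)) ^ m = 1 := by
      have h3 : ((ζ ^ m : (𝓞 K)ˣ) : 𝓞 K) = 1 := by rw [hm1]; rfl
      rw [Units.val_pow_eq_pow_val] at h3
      have h4 := congrArg (fun z : 𝓞 K => (z : K)) h3
      simpa using h4
    rw [this, map_one]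
  have h3 : |x| = 1 := by
    have : |x| ^ m = 1 := by rw [← abs_pow, h2, abs_one]
    exact (pow_eq_one_iff_of_nonneg (abs_nonneg x) hm.ne').mp this
  have inj : ∀ a b : (𝓞 K)ˣ, σ ((a : 𝓞 K) : K) = σ ((b : 𝓞 K) : K) → a = b := by
    intro a b hab
    have h4 := σ.injective hab
    exact Units.ext (RingOfIntegers.ext h4)
  rcases eq_or_eq_neg_of_abs_eq h3 with h | h
  · left
    apply inj
    rw [← hx, h]
    simp
  · right
    apply inj
    rw [← hx, h]
    simp

end UnitN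

open UnitN in
theorem wUnitN : S_UnitN := by
  classical
  intro d K _ _ Q _ _ n hn
  have hn0 : (n : ℤ) ≠ 0 := by exact_mod_cast (by omega : n ≠ 0)
  have hnpos : (0 : ℤ) < n := by exact_mod_cast (by omega : 0 < n)
  let g : (𝓞 K)ˣ × (Fin (rank K) → Fin n) → (𝓞 K)ˣ := fun p =>
    p.1 * ∏ i, (fundSystem K i) ^ ((p.2 i : ℕ) : ℤ)
  refine ⟨(({1, -1} : Finset (𝓞 K)ˣ) ×ˢ Finset.univ).image g, ?_, fun u => ?_⟩
  · refine Finset.card_image_le.trans ?_
    rw [Finset.card_product, Finset.card_univ, Fintype.card_fun, Fintype.card_fin, Fintype.card_fin]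
    have h1 : ({1, -1} : Finset (𝓞 K)ˣ).card ≤ 2 := Finset.card_le_two
    have h2 : n ^ rank K ≤ n := by
      calc n ^ rank K ≤ n ^ 1 := Nat.pow_le_pow_right hn (rank_le Q.rank)
        _ = n := pow_one n
    exact Nat.mul_le_mul h1 h2
  · obtain ⟨⟨ζ, e⟩, he, -⟩ := exist_unique_eq_mul_prod K u
    have hζ : (ζ : (𝓞 K)ˣ) = 1 ∨ (ζ : (𝓞 K)ˣ) = -1 := tors Q.σ ζ ζ.2
    have hlt : ∀ i, (e i % n).toNat < n := by
      intro i
      have h1 := Int.emod_lt_of_pos (e i) hnpos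
      have h2 := Int.emod_nonneg (e i) hn0
      omega
    refine ⟨g (ζ, fun i => ⟨(e i % n).toNat, hlt i⟩), ?_, ∏ i, (fundSystem K i) ^ (e i / n), ?_⟩
    · refine Finset.mem_image_of_mem _ (Finset.mem_product.mpr ⟨?_, Finset.mem_univ _⟩)
      simp only [Finset.mem_insert, Finset.mem_singleton]
      exact hζ
    · rw [he]
      change (ζ : (𝓞 K)ˣ) * ∏ i, (fundSystem K i) ^ (e i) =
        (ζ : (𝓞 K)ˣ) * (∏ i, (fundSystem K i) ^ (((e i % n).toNat : ℕ) : ℤ)) * _
      rw [mul_assoc, ← Finset.prod_pow, ← Finset.prod_mul_distrib]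
      congr 1
      refine Finset.prod_congr rfl fun i _ => ?_
      rw [Int.toNat_of_nonneg (Int.emod_nonneg (e i) hn0), ← zpow_natCast, ← zpow_mul, ← zpow_add]
      congr 1
      have := Int.emod_add_mul_ediv (e i) n
      rw [mul_comm (e i / (n : ℤ)) (n : ℤ)]
      exact this.symm

end Pool.Agent.MP211W
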