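import Pool.Agent.Lib.MP_211f72_nt.W.SpecB
import Pool.Agent.Lib.MP_211f72_nt.Expo

/-!
# MP_211f72_nt, third theorem: upper bound for the level sets (`UpEqW`)
-/

namespace Pool.Agent.MP211W

open MeasureTheory Filter Topology

theorem UpEqW.continuousAt_sW (n : ℕ) (lam : ℝ) (h : 0 < 1 + lam) :
    ContinuousAt (fun l => sW n l) lam := by
  unfold sW
  refine ContinuousAt.div ?_ (by fun_prop) h.ne'
  exact (continuous_const.max
    (by fun_prop : Continuous fun l : ℝ => 3 * (1 - l) / ((n : ℝ) - 1))).continuousAt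

/-- **UpEqW.** -/
theorem wUpEqW : S_UpEqW := by
  intro n hn h1 lam hlam
  have hn0 : (0 : ℝ) < n := by
    have : 0 < n := by omega
    exact_mod_cast this
  have hl0 : 0 < lam := lt_trans (by positivity) hlam
  have hstep : ∀ mu : ℝ, ((n : ℝ) + 8) / (5 * n + 4) < mu → mu < lam →
      dimH {ξ : ℝ | MP_211f72_nt.lambdaExp n ξ = (lam : EReal)} ≤ ENNReal.ofReal (sW n mu) := by
    intro mu hmu1 hmu2
    refine le_trans (dimH_mono ?_) (h1 mu hmu1)
    intro ξ hξ
    exact MP_211f72_nt.expo.1 n ξ lam mu hξ hmu2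
  have hcont : Tendsto (fun l => ENNReal.ofReal (sW n l)) (𝓝[<] lam)
      (𝓝 (ENNReal.ofReal (sW n lam))) := by
    apply ENNReal.tendsto_ofReal
    exact (UpEqW.continuousAt_sW n lam (by linarith)).tendsto.mono_left nhdsWithin_le_nhds
  refine ge_of_tendsto hcont ?_
  have : ∀ᶠ l in 𝓝[<] lam, l ∈ Set.Ioo (((n : ℝ) + 8) / (5 * n + 4)) lam := Ioo_mem_nhdsLT hlam
  filter_upwards [this] with l hl
  exact hstep l hl.1 hl.2

end Pool.Agent.MP211W
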