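import Pool.Agent.Lib.MP_211f72_nt.W.SpecB
import Pool.Agent.Lib.MP_211f72_nt.V.UpperN

/-!
# MP_211f72_nt, third theorem: the upper bound for `{Approx n ξ λ}` (`UpperW`)
-/

namespace Pool.Agent.MP211W

open MeasureTheory Filter

theorem UpperW.continuousAt_sW (n : ℕ) (lam : ℝ) (h : 0 < 1 + lam) :
    ContinuousAt (fun l => sW n l) lam := by
  unfold sW
  refine ContinuousAt.div ?_ (by fun_prop) h.ne'
  exact (continuous_const.max
    (by fun_prop : Continuous fun l : ℝ => 3 * (1 - l) / ((n : ℝ) - 1))).continuousAt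

/-- **UpperW.** -/
theorem wUpperW (h1 : Pool.Agent.MP211V.S_ExpoN) (h2 : Pool.Agent.MP211V.S_Yc) : S_UpperW := by
  intro n hn hL lam hl1
  have hn0 : (0 : ℝ) < n := by
    have : (4 : ℝ) ≤ n := by exact_mod_cast hn
    linarith
  have hl00 : (0 : ℝ) < ((n : ℝ) + 8) / (5 * n + 4) := by positivity
  have hlam0 : 0 < lam := lt_trans hl00 hl1
  obtain ⟨hE1, _, _⟩ := h1
  have key : ∀ lam' : ℝ, ((n : ℝ) + 8) / (5 * n + 4) < lam' → lam' < lam →
      dimH {ξ : ℝ | MP_211f72_nt.Approx n ξ lam} ≤ ENNReal.ofReal (sW n lam') := by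
    intro lam' h3 h4
    have hlam'0 : 0 < lam' := lt_trans hl00 h3
    set E : Set ℝ := {ξ : ℝ | 0 ≤ ξ ∧ ξ ≤ 1 ∧ ∀ K : ℕ, ∃ k : ℕ, K ≤ k ∧
      ∃ x : Fin (n + 1) → ℤ, Pool.Agent.MP211V.Nr n (2 ^ (k + 1)) lam' ξ x} with hEd
    have hsub : {ξ : ℝ | MP_211f72_nt.Approx n ξ lam} ⊆
        Set.range ((↑) : ℚ → ℝ) ∪ ⋃ m : ℤ, (IsometryEquiv.addRight (m : ℝ)) '' E := by
      intro ξ hξ
      by_cases hirr : Irrational ξ
      · right
        rw [Set.mem_iUnion]
        refine ⟨⌊ξ⌋, ξ - ⌊ξ⌋, ⟨?_, ?_, ?_⟩, ?_⟩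
        · have := Int.floor_le ξ
          linarith
        · have := Int.lt_floor_add_one ξ
          linarith
        · exact Pool.Agent.MP211V.up_nr h2 n lam lam' ξ ⌊ξ⌋ hlam'0 h4
            (hE1 n ξ lam (by omega) hirr hlam0 hξ)
        · simp
      · left
        unfold Irrational at hirr
        exact not_not.1 hirr
    refine (dimH_mono hsub).trans ?_
    rw [dimH_union, dimH_iUnion, (Set.countable_range _).dimH_zero]
    refine max_le zero_le (iSup_le fun m => ?_)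
    rw [IsometryEquiv.dimH_image]
    exact hL lam' h3
  have hc : ContinuousAt (fun l : ℝ => ENNReal.ofReal (sW n l)) lam :=
    ENNReal.continuous_ofReal.continuousAt.comp (UpperW.continuousAt_sW n lam (by linarith))
  have hc2 : Tendsto (fun l : ℝ => ENNReal.ofReal (sW n l)) (nhdsWithin lam (Set.Iio lam))
      (nhds (ENNReal.ofReal (sW n lam))) := hc.tendsto.mono_left nhdsWithin_le_nhds
  refine ge_of_tendsto hc2 ?_
  have hI : Set.Ioo (((n : ℝ) + 8) / (5 * n + 4)) lam ∈ nhdsWithin lam (Set.Iio lam) :=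
    Ioo_mem_nhdsLT hl1
  filter_upwards [hI] with l hl
  exact key l hl.1 hl.2

end Pool.Agent.MP211W
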