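import Pool.Agent.Lib.MP_211f72_nt.V.Main
import Pool.Agent.Lib.MP_211f72_nt.W.ExQ
import Pool.Agent.Lib.MP_211f72_nt.W.QFb
import Pool.Agent.Lib.MP_211f72_nt.W.NmI
import Pool.Agent.Lib.MP_211f72_nt.W.DivI
import Pool.Agent.Lib.MP_211f72_nt.W.Genus
import Pool.Agent.Lib.MP_211f72_nt.W.TorG
import Pool.Agent.Lib.MP_211f72_nt.W.Tors2
import Pool.Agent.Lib.MP_211f72_nt.W.UnitN
import Pool.Agent.Lib.MP_211f72_nt.W.QI
import Pool.Agent.Lib.MP_211f72_nt.W.BI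
import Pool.Agent.Lib.MP_211f72_nt.W.RelI
import Pool.Agent.Lib.MP_211f72_nt.W.Lat2
import Pool.Agent.Lib.MP_211f72_nt.W.PairC
import Pool.Agent.Lib.MP_211f72_nt.W.Fiber
import Pool.Agent.Lib.MP_211f72_nt.W.Near1
import Pool.Agent.Lib.MP_211f72_nt.W.Near2
import Pool.Agent.Lib.MP_211f72_nt.W.DataQ
import Pool.Agent.Lib.MP_211f72_nt.W.ClassD
import Pool.Agent.Lib.MP_211f72_nt.W.ClassA
import Pool.Agent.Lib.MP_211f72_nt.W.QCov
import Pool.Agent.Lib.MP_211f72_nt.W.MinB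
import Pool.Agent.Lib.MP_211f72_nt.W.Hank
import Pool.Agent.Lib.MP_211f72_nt.W.GelH
import Pool.Agent.Lib.MP_211f72_nt.W.GelP
import Pool.Agent.Lib.MP_211f72_nt.W.HBk
import Pool.Agent.Lib.MP_211f72_nt.W.HB
import Pool.Agent.Lib.MP_211f72_nt.W.Str
import Pool.Agent.Lib.MP_211f72_nt.W.FacW
import Pool.Agent.Lib.MP_211f72_nt.W.R2
import Pool.Agent.Lib.MP_211f72_nt.W.DiscT
import Pool.Agent.Lib.MP_211f72_nt.W.CntT
import Pool.Agent.Lib.MP_211f72_nt.W.Cost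
import Pool.Agent.Lib.MP_211f72_nt.W.RedW
import Pool.Agent.Lib.MP_211f72_nt.W.ParEx
import Pool.Agent.Lib.MP_211f72_nt.W.LevelW
import Pool.Agent.Lib.MP_211f72_nt.W.UpperW
import Pool.Agent.Lib.MP_211f72_nt.W.UpEqW
import Pool.Agent.Lib.MP_211f72_nt.W.MinkG
import Pool.Agent.Lib.MP_211f72_nt.W.PtQ
import Pool.Agent.Lib.MP_211f72_nt.W.CntQ
import Pool.Agent.Lib.MP_211f72_nt.W.BadQ
import Pool.Agent.Lib.MP_211f72_nt.W.KidsQ
import Pool.Agent.Lib.MP_211f72_nt.W.KidsR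
import Pool.Agent.Lib.MP_211f72_nt.W.LowerW
import Pool.Agent.Lib.MP_211f72_nt.W.KidsW

/-!
# MP_211f72_nt, third theorem: assembly
-/

namespace Pool.Agent.MP211W

open Pool.Agent.MP211V (m_mar m_int vShift vMxEx vMxCard vFact vExpoN vYc)

theorem m_NmI : S_NmI := wNmI wQFb
theorem m_Genus : S_Genus := wGenus wQFb m_NmI wDivI
theorem m_Tors2 : S_Tors2 := wTors2 m_Genus wTorG
theorem m_QI : S_QI := wQI wQFb m_NmI
theorem m_BI : S_BI := wBI wQFb m_QI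
theorem m_RelI : S_RelI := wRelI wQFb m_QI
theorem m_PairC : S_PairC := wPairC wLat2
theorem m_Fiber : S_Fiber := wFiber wQFb m_QI m_RelI wUnitN m_PairC
theorem m_DataQ : S_DataQ := wDataQ wNear1 wNear2 m_QI m_BI
theorem m_ClassD : S_ClassD := wClassD wExQ wNear1 m_DataQ m_Fiber wDivI wTorG
theorem m_ClassA : S_ClassA := wClassA wNear1 m_ClassD
theorem m_QCov : S_QCov := wQCov wNear1 m_ClassA
theorem m_Hank : S_Hank := wHank wMinB
theorem m_HB : S_HB := wHB wGelH wHBk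
theorem m_Str : S_Str := wStr m_Hank m_HB
theorem m_FacW : S_FacW := wFacW wGelP vFact
theorem m_DiscT : S_DiscT := wDiscT wR2 m_mar vShift
theorem m_CntT : S_CntT := wCntT m_mar m_int vMxEx vMxCard
theorem m_Cost : S_Cost := wCost m_DiscT m_CntT vMxEx
theorem m_RedW : S_RedW := wRedW m_Str m_FacW m_Cost
theorem m_LevelW : S_LevelW := wLevelW wParEx m_RedW
theorem m_UpperW : S_UpperW := wUpperW vExpoN vYc
theorem m_PtQ : S_PtQ := wPtQ wMinkG
theorem m_BadQ : S_BadQ := wBadQ wCntQ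
theorem m_KidsQ : S_KidsQ := wKidsQ wMinkG m_PtQ m_BadQ
theorem m_KidsW : S_KidsW := wKidsW wKidsR m_KidsQ
theorem m_LowerW : S_LowerW := wLowerW vExpoN

/-- the threshold is positive -/
theorem lam_pos {n : ℕ} {lam : ℝ} (h : ((n : ℝ) + 8) / (5 * n + 4) < lam) : 0 < lam :=
  lt_of_le_of_lt (by positivity) h

/-- the upper bound, from an average bound for the torsion of the class groups -/
theorem upW (n : ℕ) (hn : 4 ≤ n) (h5 : n ≠ 5) (ht : TorsB n) : UpW n :=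
  m_UpperW n hn fun lam hlam => m_LevelW n lam hn h5 hlam
    fun s C₀ hs hs1 hC hk => m_QCov n lam s C₀ hn ht (lam_pos hlam) hs hs1 hC hk

/-- the level sets, from an average bound for the torsion of the class groups -/
theorem level (n : ℕ) (hn : 4 ≤ n) (h5 : n ≠ 5) (ht : TorsB n) (lam : ℝ)
    (h : ((n : ℝ) + 8) / (5 * n + 4) < lam) :
    dimH {ξ : ℝ | MP_211f72_nt.lambdaExp n ξ = (lam : EReal)} = ENNReal.ofReal (sW n lam) :=
  le_antisymm (wUpEqW n hn (upW n hn h5 ht) lam h)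
    (m_LowerW n lam hn h (upW n hn h5 ht) (m_KidsW n lam hn h))

/-- the theorem on powers of two -/
theorem main (k : ℕ) (hk : 2 ≤ k) (lam : ℝ)
    (h : ((2 : ℝ) ^ k + 8) / (5 * 2 ^ k + 4) < lam) :
    dimH {ξ : ℝ | MP_211f72_nt.lambdaExp (2 ^ k) ξ = (lam : EReal)} =
      ENNReal.ofReal (max (2 / (2 : ℝ) ^ k) (3 * (1 - lam) / ((2 : ℝ) ^ k - 1)) / (1 + lam)) := by
  have hn : 4 ≤ 2 ^ k := by
    calc 4 = 2 ^ 2 := by norm_num
      _ ≤ 2 ^ k := Nat.pow_le_pow_right (by norm_num) hk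
  have h5 : 2 ^ k ≠ 5 := by
    intro h5
    have h6 : 2 ∣ 2 ^ k := dvd_pow_self 2 (by omega)
    omega
  have h' : (((2 ^ k : ℕ) : ℝ) + 8) / (5 * ((2 ^ k : ℕ) : ℝ) + 4) < lam := by
    push_cast
    exact h
  have h7 := level (2 ^ k) hn h5 (m_Tors2 k) lam h'
  rw [h7]
  unfold sW
  push_cast
  rfl

end Pool.Agent.MP211W
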