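import Pool.Agent.Lib.MP_211f72_nt.W.SpecD

/-! # MP_211f72_nt, W: `S_Tors3` (average of the 3-torsion of the class groups of real quadratic fields) -/

namespace Pool.Agent.MP211W

open Polynomial NumberField
open MP_211f72_nt (Cub det Nor1 Nor2)

namespace Tors3

/-- the normal forms with discriminant between `1` and `Z` -/
private def AS (Z : ℕ) : Set Cub := {f | (Nor1 f ∨ Nor2 f) ∧ 0 < f.D ∧ f.D ≤ (Z : ℤ)}

private theorem count_fin (h2 : MP_211f72_nt.CountNF1) (h3 : MP_211f72_nt.CountNF2) :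
    ∃ C : ℝ, 0 < C ∧ ∀ Z : ℕ, 1 ≤ Z → ∀ S : Finset Cub, (∀ f ∈ S, f ∈ AS Z) →
      (S.card : ℝ) ≤ C * Z * (1 + Real.log Z) := by
  classical
  obtain ⟨C1, hC1, h2⟩ := h2
  obtain ⟨C2, hC2, h3⟩ := h3
  refine ⟨C1 + C2, by positivity, fun Z hZ S hS => ?_⟩
  have hZ' : (1 : ℝ) ≤ (Z : ℝ) := by exact_mod_cast hZ
  have habs : ∀ f ∈ S, |((f.D : ℤ) : ℝ)| ≤ (Z : ℝ) := by
    intro f hf
    obtain ⟨-, h4, h5⟩ := hS f hf
    rw [abs_of_pos (by exact_mod_cast h4)]
    exact_mod_cast h5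
  have e1 := h2 Z hZ' (S.filter fun f => Nor1 f) (by
    intro f hf
    rw [Finset.mem_filter] at hf
    exact ⟨hf.2, habs f hf.1⟩)
  have e2 := h3 Z hZ' (S.filter fun f => Nor2 f) (by
    intro f hf
    rw [Finset.mem_filter] at hf
    exact ⟨hf.2, ne_of_gt (hS f hf.1).2.1, habs f hf.1⟩)
  have e3 : S ⊆ (S.filter fun f => Nor1 f) ∪ (S.filter fun f => Nor2 f) := by
    intro f hf
    rw [Finset.mem_union, Finset.mem_filter, Finset.mem_filter]
    rcases (hS f hf).1 with h | h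
    · exact Or.inl ⟨hf, h⟩
    · exact Or.inr ⟨hf, h⟩
  have e4 : (S.card : ℝ) ≤ ((S.filter fun f => Nor1 f).card : ℝ) +
      ((S.filter fun f => Nor2 f).card : ℝ) := by
    exact_mod_cast (Finset.card_le_card e3).trans (Finset.card_union_le _ _)
  have hlog : 0 ≤ Real.log (Z : ℝ) := Real.log_nonneg hZ'
  have e5 : C2 * (Z : ℝ) ≤ C2 * Z * (1 + Real.log Z) := by
    have : 0 ≤ C2 * (Z : ℝ) := by positivity
    nlinarith
  calc (S.card : ℝ) ≤ _ := e4
    _ ≤ C1 * Z * (1 + Real.log Z) + C2 * Z := add_le_add e1 e2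
    _ ≤ C1 * Z * (1 + Real.log Z) + C2 * Z * (1 + Real.log Z) := by linarith
    _ = (C1 + C2) * Z * (1 + Real.log Z) := by ring

private theorem AS_finite (C : ℝ) (Z : ℕ) (h : ∀ S : Finset Cub, (∀ f ∈ S, f ∈ AS Z) →
    (S.card : ℝ) ≤ C * Z * (1 + Real.log Z)) : (AS Z).Finite := by
  by_contra hinf
  have hinf' : (AS Z).Infinite := hinf
  obtain ⟨n, hn⟩ := exists_nat_gt (C * Z * (1 + Real.log Z))
  obtain ⟨T, hT, hc⟩ := hinf'.exists_subset_card_eq n
  have := h T (fun f hf => hT hf)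
  rw [hc] at this
  linarith

/-- partial summation -/
private theorem abel (a : ℕ → ℝ) (M : ℕ) :
    ∑ m ∈ Finset.Icc 1 M, a m / (m : ℝ) = (∑ m ∈ Finset.Icc 1 M, a m) / ((M : ℝ) + 1) +
      ∑ m ∈ Finset.Icc 1 M, (∑ k ∈ Finset.Icc 1 m, a k) / ((m : ℝ) * ((m : ℝ) + 1)) := by
  induction M with
  | zero => simp
  | succ M ih =>
    rw [Finset.sum_Icc_succ_top (by omega), ih,
      Finset.sum_Icc_succ_top (b := M) (by omega)
        (fun m => (∑ k ∈ Finset.Icc 1 m, a k) / ((m : ℝ) * ((m : ℝ) + 1)))]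
    have e : ∑ m ∈ Finset.Icc 1 (M + 1), a m = ∑ m ∈ Finset.Icc 1 M, a m + a (M + 1) :=
      Finset.sum_Icc_succ_top (by omega) _
    rw [e]
    push_cast
    have h1 : (M : ℝ) + 1 ≠ 0 := by positivity
    have h2 : (M : ℝ) + 1 + 1 ≠ 0 := by positivity
    field_simp
    ring

private theorem sum_inv (M : ℕ) :
    ∑ m ∈ Finset.Icc 1 M, (1 : ℝ) / ((m : ℝ) + 1) ≤ 1 + Real.log M := by
  have h1 : ∑ m ∈ Finset.Icc 1 M, (1 : ℝ) / ((m : ℝ) + 1) ≤ ((harmonic M : ℚ) : ℝ) := by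
    have key : ∀ n : ℕ, ∑ m ∈ Finset.Icc 1 n, (1 : ℝ) / ((m : ℝ) + 1) ≤
        ((harmonic n : ℚ) : ℝ) := by
      intro n
      induction n with
      | zero => simp
      | succ n ih =>
        rw [Finset.sum_Icc_succ_top (by omega), harmonic_succ]
        push_cast
        refine add_le_add ih ?_
        rw [one_div]
        exact inv_anti₀ (by positivity) (by linarith)
    exact key M
  exact h1.trans (harmonic_le_one_add_log M)

/-- the weighted sum is at most the square of the logarithm -/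
private theorem wsum (a : ℕ → ℝ) (C : ℝ) (hC : 0 < C)
    (hB : ∀ m : ℕ, 1 ≤ m → ∑ k ∈ Finset.Icc 1 m, a k ≤ C * m * (1 + Real.log m)) (M : ℕ)
    (hM : 1 ≤ M) : ∑ m ∈ Finset.Icc 1 M, a m / (m : ℝ) ≤ 2 * C * (1 + Real.log M) ^ 2 := by
  have hM' : (1 : ℝ) ≤ (M : ℝ) := by exact_mod_cast hM
  have hL : 0 ≤ Real.log (M : ℝ) := Real.log_nonneg hM'
  set L := 1 + Real.log (M : ℝ) with hLd
  have hL1 : 1 ≤ L := by linarith
  rw [abel]
  have t1 : (∑ m ∈ Finset.Icc 1 M, a m) / ((M : ℝ) + 1) ≤ C * L := by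
    rw [div_le_iff₀ (by positivity)]
    refine (hB M hM).trans ?_
    have : 0 ≤ C * L := by positivity
    nlinarith
  have t2 : ∑ m ∈ Finset.Icc 1 M, (∑ k ∈ Finset.Icc 1 m, a k) / ((m : ℝ) * ((m : ℝ) + 1)) ≤
      C * L * ∑ m ∈ Finset.Icc 1 M, (1 : ℝ) / ((m : ℝ) + 1) := by
    rw [Finset.mul_sum]
    refine Finset.sum_le_sum fun m hm => ?_
    rw [Finset.mem_Icc] at hm
    have hm' : (1 : ℝ) ≤ (m : ℝ) := by exact_mod_cast hm.1
    have hlog : Real.log (m : ℝ) ≤ Real.log (M : ℝ) :=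
      Real.log_le_log (by linarith) (by exact_mod_cast hm.2)
    have h1 := hB m hm.1
    have h2 : C * m * (1 + Real.log m) ≤ C * m * L := by
      have : 0 ≤ C * (m : ℝ) := by positivity
      exact mul_le_mul_of_nonneg_left (by linarith) this
    rw [div_le_iff₀ (by positivity)]
    have e : C * L * (1 / ((m : ℝ) + 1)) * ((m : ℝ) * ((m : ℝ) + 1)) = C * m * L := by
      have : (m : ℝ) + 1 ≠ 0 := by positivity
      field_simp
    rw [e]
    exact h1.trans h2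
  have t3 := sum_inv M
  have t4 : C * L * ∑ m ∈ Finset.Icc 1 M, (1 : ℝ) / ((m : ℝ) + 1) ≤ C * L * L :=
    mul_le_mul_of_nonneg_left t3 (by positivity)
  have t5 : C * L ≤ C * L * L := by
    have : 0 ≤ C * L := by positivity
    nlinarith
  calc _ ≤ C * L + C * L * L := add_le_add t1 (t2.trans t4)
    _ ≤ C * L * L + C * L * L := by linarith
    _ = 2 * C * L ^ 2 := by ring

private theorem log_bound (ε : ℝ) (hε : 0 < ε) : ∃ C : ℝ, 0 < C ∧ ∀ X : ℕ, 1 ≤ X →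
    (1 + Real.log ((4 * X : ℕ) : ℝ)) ^ 2 ≤ C * (X : ℝ) ^ ε := by
  have hδ : 0 < ε / 2 := by linarith
  set K : ℝ := 1 + (4 : ℝ) ^ (ε / 2) / (ε / 2) with hK
  have hK0 : 0 < K := by
    have : (0 : ℝ) < (4 : ℝ) ^ (ε / 2) := Real.rpow_pos_of_pos (by norm_num) _
    positivity
  refine ⟨K ^ 2, by positivity, fun X hX => ?_⟩
  have hX' : (1 : ℝ) ≤ (X : ℝ) := by exact_mod_cast hX
  have h1 : Real.log ((4 * X : ℕ) : ℝ) ≤ ((4 * X : ℕ) : ℝ) ^ (ε / 2) / (ε / 2) :=
    Real.log_le_rpow_div (by positivity) hδ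
  have h2 : ((4 * X : ℕ) : ℝ) ^ (ε / 2) = (4 : ℝ) ^ (ε / 2) * (X : ℝ) ^ (ε / 2) := by
    push_cast
    rw [Real.mul_rpow (by norm_num) (by positivity)]
  have h3 : (1 : ℝ) ≤ (X : ℝ) ^ (ε / 2) := Real.one_le_rpow hX' hδ.le
  have h4 : 1 + Real.log ((4 * X : ℕ) : ℝ) ≤ K * (X : ℝ) ^ (ε / 2) := by
    rw [h2] at h1
    calc 1 + Real.log ((4 * X : ℕ) : ℝ) ≤ (X : ℝ) ^ (ε / 2) +
        (4 : ℝ) ^ (ε / 2) * (X : ℝ) ^ (ε / 2) / (ε / 2) := add_le_add h3 h1
      _ = K * (X : ℝ) ^ (ε / 2) := by rw [hK]; ring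
  have h5 : 0 ≤ 1 + Real.log ((4 * X : ℕ) : ℝ) := by
    have : 0 ≤ Real.log ((4 * X : ℕ) : ℝ) := Real.log_nonneg (by
      push_cast
      linarith)
    linarith
  calc (1 + Real.log ((4 * X : ℕ) : ℝ)) ^ 2 ≤ (K * (X : ℝ) ^ (ε / 2)) ^ 2 :=
        pow_le_pow_left₀ h5 h4 2
    _ = K ^ 2 * ((X : ℝ) ^ (ε / 2)) ^ 2 := by ring
    _ = K ^ 2 * (X : ℝ) ^ ε := by
        congr 1
        rw [← Real.rpow_natCast, ← Real.rpow_mul (by positivity)]
        norm_num

end Tors3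

open Tors3 in
theorem wTors3 (h1 : S_Cl3) (h2 : MP_211f72_nt.CountNF1) (h3 : MP_211f72_nt.CountNF2) :
    S_Tors3 := by
  classical
  obtain ⟨C, hC, hcount⟩ := count_fin h2 h3
  have hfin : ∀ Z : ℕ, 1 ≤ Z → (AS Z).Finite := fun Z hZ => AS_finite C Z (hcount Z hZ)
  -- the forms of discriminant `m`
  have hfin' : ∀ m : ℕ, {f : Cub | f ∈ AS m ∧ f.D = (m : ℤ)}.Finite := by
    intro m
    rcases Nat.eq_zero_or_pos m with rfl | hm
    · convert Set.finite_empty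
      ext f
      simp only [Set.mem_ofPred_eq, Set.mem_empty_iff_false, iff_false, not_and]
      rintro ⟨-, h4, -⟩ h5
      rw [h5] at h4
      simp at h4
    · exact (hfin m hm).subset fun f hf => hf.1
  set E : ℕ → Finset Cub := fun m => (hfin' m).toFinset with hE
  have memE : ∀ m f, f ∈ E m ↔ f ∈ AS m ∧ f.D = (m : ℤ) := by
    intro m f
    rw [hE]
    simp
  set a : ℕ → ℝ := fun m => ((E m).card : ℝ) with ha
  have hB : ∀ M : ℕ, 1 ≤ M → ∑ k ∈ Finset.Icc 1 M, a k ≤ C * M * (1 + Real.log M) := by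
    intro M hM
    have e1 : ∑ k ∈ Finset.Icc 1 M, (E k).card = ((Finset.Icc 1 M).biUnion E).card := by
      rw [Finset.card_biUnion]
      intro i _ j _ hij
      rw [Function.onFun, Finset.disjoint_left]
      intro f hf hf'
      rw [memE] at hf hf'
      apply hij
      have := hf.2.symm.trans hf'.2
      exact_mod_cast this
    have e2 : ∑ k ∈ Finset.Icc 1 M, a k = (((Finset.Icc 1 M).biUnion E).card : ℝ) := by
      rw [← e1]
      push_cast
      rfl
    rw [e2]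
    refine hcount M hM _ fun f hf => ?_
    rw [Finset.mem_biUnion] at hf
    obtain ⟨m, hm, hf⟩ := hf
    rw [memE] at hf
    rw [Finset.mem_Icc] at hm
    refine ⟨hf.1.1, hf.1.2.1, ?_⟩
    rw [hf.2]
    exact_mod_cast hm.2
  have hsum := wsum a C hC hB
  have ha0 : ∀ m, 0 ≤ a m := fun m => by
    rw [ha]
    positivity
  intro ε hε
  obtain ⟨K, hK, hlog⟩ := log_bound ε hε
  refine ⟨2 * (5 * (2 * C * K)), by positivity, fun X hX => ?_⟩
  refine ⟨fun d => 2 * (E d ∪ E (4 * d)).card, ?_, ?_⟩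
  · intro d hd hd2 _ F _ _ Q
    refine h1 d F Q hd hd2 _ fun f hf hD => ?_
    rw [Finset.mem_union, memE, memE]
    have hd0 : (0 : ℤ) < (d : ℤ) := by exact_mod_cast (show 0 < d by omega)
    rcases hD with hD | hD
    · left
      exact ⟨⟨hf, by rw [hD]; exact hd0, by rw [hD]⟩, hD⟩
    · right
      refine ⟨⟨hf, by rw [hD]; linarith, ?_⟩, ?_⟩
      · rw [hD]
        push_cast
        exact le_refl _
      · rw [hD]
        push_cast
        rfl
  · have s1 : ∑ d ∈ Finset.Icc 1 X, ((2 * (E d ∪ E (4 * d)).card : ℕ) : ℝ) / (d : ℝ) ≤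
        2 * (∑ d ∈ Finset.Icc 1 X, a d / (d : ℝ) +
          4 * ∑ d ∈ Finset.Icc 1 X, a (4 * d) / ((4 * d : ℕ) : ℝ)) := by
      rw [Finset.mul_sum, ← Finset.sum_add_distrib, Finset.mul_sum]
      refine Finset.sum_le_sum fun d hd => ?_
      rw [Finset.mem_Icc] at hd
      have hd' : (0 : ℝ) < (d : ℝ) := by exact_mod_cast (show 0 < d by omega)
      have h4 : (((E d ∪ E (4 * d)).card : ℕ) : ℝ) ≤ a d + a (4 * d) := by
        simp only [ha]
        exact_mod_cast Finset.card_union_le _ _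
      have h5 : 4 * (a (4 * d) / ((4 * d : ℕ) : ℝ)) = a (4 * d) / (d : ℝ) := by
        push_cast
        field_simp
      rw [h5, ← add_div]
      push_cast
      rw [mul_div_assoc]
      exact mul_le_mul_of_nonneg_left (div_le_div_of_nonneg_right h4 hd'.le) (by norm_num)
    have s2 : ∑ d ∈ Finset.Icc 1 X, a d / (d : ℝ) ≤
        ∑ m ∈ Finset.Icc 1 (4 * X), a m / (m : ℝ) := by
      refine Finset.sum_le_sum_of_subset_of_nonneg ?_ ?_
      · intro d hd
        rw [Finset.mem_Icc] at hd ⊢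
        omega
      · intro m _ _
        have := ha0 m
        positivity
    have s3 : ∑ d ∈ Finset.Icc 1 X, a (4 * d) / ((4 * d : ℕ) : ℝ) ≤
        ∑ m ∈ Finset.Icc 1 (4 * X), a m / (m : ℝ) := by
      have e : ∑ d ∈ Finset.Icc 1 X, a (4 * d) / ((4 * d : ℕ) : ℝ) =
          ∑ m ∈ (Finset.Icc 1 X).image (fun d => 4 * d), a m / (m : ℝ) := by
        rw [Finset.sum_image]
        intro x _ y _ hxy
        simp only at hxy
        omega
      rw [e]
      refine Finset.sum_le_sum_of_subset_of_nonneg ?_ ?_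
      · intro m hm
        rw [Finset.mem_image] at hm
        obtain ⟨d, hd, rfl⟩ := hm
        rw [Finset.mem_Icc] at hd ⊢
        omega
      · intro m _ _
        have := ha0 m
        positivity
    have s4 := hsum (4 * X) (by omega)
    have s5 := hlog X hX
    have s6 : 2 * C * (1 + Real.log ((4 * X : ℕ) : ℝ)) ^ 2 ≤ 2 * C * (K * (X : ℝ) ^ ε) :=
      mul_le_mul_of_nonneg_left s5 (by positivity)
    calc _ ≤ _ := s1
      _ ≤ 2 * (5 * (2 * C * (K * (X : ℝ) ^ ε))) := by linarith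
      _ = 2 * (5 * (2 * C * K)) * (X : ℝ) ^ ε := by ring

end Pool.Agent.MP211W
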