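import Pool.Agent.Lib.MP_211f72_nt.W.SpecD
import Pool.Agent.Lib.MP_640417_ag.All.Divisor

/-!
# MP_211f72_nt, third theorem: the torsion of order three times a power of two on average (helper51)
-/

set_option autoImplicit false

namespace Pool.Agent.MP211W

namespace Tors6

open Polynomial NumberField

/-- The bound for the torsion. -/
def Nk (k d : ℕ) : ℕ := (2 * (4 * d).divisors.card ^ 2) ^ k

theorem tb2 (h1 : S_Genus) (h2 : S_TorG) (k d : ℕ) (hd : Squarefree d) (hd2 : 2 ≤ d) :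
    TB (2 ^ k) d (Nk k d) := by
  intro K _ _ Q
  induction k with
  | zero =>
    have hsub : Subsingleton {c : ClassGroup (𝓞 K) // c ^ (2 ^ 0) = 1} := ⟨fun a b => by
      have ha : (a : ClassGroup (𝓞 K)) = 1 := by
        have := a.2
        simpa using this
      have hb : (b : ClassGroup (𝓞 K)) = 1 := by
        have := b.2
        simpa using this
      exact Subtype.ext (ha.trans hb.symm)⟩
    have h3 := Finite.card_le_one_iff_subsingleton.mpr hsub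
    have h4 : Nk 0 d = 1 := pow_zero _
    rw [h4]
    exact h3
  | succ k ih =>
    have h3 := (h2 (ClassGroup (𝓞 K))).1 (2 ^ k) 2
    rw [pow_succ 2 k]
    refine h3.trans ?_
    have h4 := h1 d K Q hd hd2
    calc _ ≤ Nk k d * (2 * (4 * d).divisors.card ^ 2) := Nat.mul_le_mul ih h4
      _ = Nk (k + 1) d := by
        unfold Nk
        exact (pow_succ _ _).symm

/-- The size of the bound. -/
theorem nk_le (k : ℕ) (ε : ℝ) (hε : 0 < ε) : ∃ C : ℝ, 0 < C ∧ ∀ d : ℕ, 1 ≤ d →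
    (Nk k d : ℝ) ≤ C * (d : ℝ) ^ (ε / 2) := by
  set η : ℝ := ε / (4 * ((k : ℝ) + 1)) with hη
  have hk : (0 : ℝ) < (k : ℝ) + 1 := by positivity
  have hη0 : 0 < η := by positivity
  obtain ⟨C₀, hC₀, hdiv⟩ := Pool.Agent.Lib.MP_640417_ag.All.divisor_bound η hη0
  refine ⟨(2 * (C₀ * (4 : ℝ) ^ η) ^ 2) ^ k, by positivity, fun d hd => ?_⟩
  have hd0 : (1 : ℝ) ≤ (d : ℝ) := by exact_mod_cast hd
  have h1 := hdiv (4 * d) (by omega)
  have h2 : (((4 * d : ℕ) : ℝ)) ^ η = (4 : ℝ) ^ η * (d : ℝ) ^ η := by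
    push_cast
    rw [Real.mul_rpow (by norm_num) (by positivity)]
  rw [h2] at h1
  have h3 : ((d : ℝ) ^ η) ^ (2 * k) ≤ (d : ℝ) ^ (ε / 2) := by
    rw [← Real.rpow_natCast, ← Real.rpow_mul (by positivity)]
    refine Real.rpow_le_rpow_of_exponent_le hd0 ?_
    push_cast
    rw [hη, div_mul_eq_mul_div, div_le_div_iff₀ (by positivity) (by norm_num)]
    nlinarith
  calc (Nk k d : ℝ) = (2 * ((4 * d).divisors.card : ℝ) ^ 2) ^ k := by
        unfold Nk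
        push_cast
        ring
    _ ≤ (2 * (C₀ * ((4 : ℝ) ^ η * (d : ℝ) ^ η)) ^ 2) ^ k := by gcongr
    _ = (2 * (C₀ * (4 : ℝ) ^ η) ^ 2) ^ k * ((d : ℝ) ^ η) ^ (2 * k) := by
        rw [pow_mul ((d : ℝ) ^ η) 2 k, ← mul_pow]
        congr 1
        ring
    _ ≤ (2 * (C₀ * (4 : ℝ) ^ η) ^ 2) ^ k * (d : ℝ) ^ (ε / 2) := by gcongr

end Tors6

open Tors6 NumberField

theorem wTors6 (h1 : S_Genus) (h2 : S_TorG) (h3 : S_Tors3) : S_Tors6 := by
  intro k ε hε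
  obtain ⟨C, hC, hN⟩ := nk_le k ε hε
  obtain ⟨C₃, hC₃, hT⟩ := h3 (ε / 2) (by positivity)
  refine ⟨C * C₃, by positivity, fun X hX => ?_⟩
  obtain ⟨N, hN3, hsum⟩ := hT X hX
  refine ⟨fun d => N d * Nk k d, fun d hd hd2 hdX => ?_, ?_⟩
  · intro K _ _ Q
    have h4 := (h2 (ClassGroup (𝓞 K))).1 3 (2 ^ k)
    have h5 := hN3 d hd hd2 hdX K Q
    have h6 := tb2 h1 h2 k d hd hd2 K Q
    exact h4.trans (Nat.mul_le_mul h5 h6)
  have hX1 : (1 : ℝ) ≤ (X : ℝ) := by exact_mod_cast hX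
  have h4 : ∀ d ∈ Finset.Icc 1 X, ((N d * Nk k d : ℕ) : ℝ) / (d : ℝ) ≤
      C * (X : ℝ) ^ (ε / 2) * ((N d : ℝ) / (d : ℝ)) := by
    intro d hd
    rw [Finset.mem_Icc] at hd
    have hdX : (d : ℝ) ≤ (X : ℝ) := by exact_mod_cast hd.2
    have h5 : (d : ℝ) ^ (ε / 2) ≤ (X : ℝ) ^ (ε / 2) :=
      Real.rpow_le_rpow (by positivity) hdX (by positivity)
    have h6 := hN d hd.1
    have h7 : (Nk k d : ℝ) ≤ C * (X : ℝ) ^ (ε / 2) := h6.trans (by gcongr)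
    push_cast
    calc (N d : ℝ) * (Nk k d : ℝ) / (d : ℝ) = (Nk k d : ℝ) * ((N d : ℝ) / (d : ℝ)) := by ring
      _ ≤ C * (X : ℝ) ^ (ε / 2) * ((N d : ℝ) / (d : ℝ)) := by gcongr
  refine (Finset.sum_le_sum h4).trans ?_
  rw [← Finset.mul_sum]
  have h8 : (X : ℝ) ^ ε = (X : ℝ) ^ (ε / 2) * (X : ℝ) ^ (ε / 2) := by
    rw [← Real.rpow_add (by linarith)]
    congr 1
    ring
  calc C * (X : ℝ) ^ (ε / 2) * ∑ d ∈ Finset.Icc 1 X, (N d : ℝ) / (d : ℝ)
      ≤ C * (X : ℝ) ^ (ε / 2) * (C₃ * (X : ℝ) ^ (ε / 2)) := by gcongr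
    _ = C * C₃ * (X : ℝ) ^ ε := by
        rw [h8]
        ring

end Pool.Agent.MP211W
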