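import Pool.Agent.Lib.MP_211f72_nt.MainThm
import Pool.Agent.Lib.MP_211f72_nt.W.Main
import Pool.Agent.Lib.MP_211f72_nt.W.IdB
import Pool.Agent.Lib.MP_211f72_nt.W.CubI
import Pool.Agent.Lib.MP_211f72_nt.W.Cl3
import Pool.Agent.Lib.MP_211f72_nt.W.Tors3
import Pool.Agent.Lib.MP_211f72_nt.W.Tors6

/-!
# MP_211f72_nt, third theorem: assembly for `n = 2^k` and `n = 3·2^k`
-/

namespace Pool.Agent.MP211W

theorem m_IdB : S_IdB := wIdB wQFb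
theorem m_CubI : S_CubI :=
  wCubI wQFb (MP_211f72_nt.existsNormal MP_211f72_nt.split MP_211f72_nt.reduce)
theorem m_Cl3 : S_Cl3 := wCl3 m_IdB m_CubI
theorem m_Tors3 : S_Tors3 := wTors3 m_Cl3 MP_211f72_nt.countNF1 MP_211f72_nt.countNF2
theorem m_Tors6 : S_Tors6 := wTors6 m_Genus wTorG m_Tors3

/-- the theorem for `n = 2^k ≥ 4` and `n = 3·2^k ≥ 6` -/
theorem mainD (n : ℕ) (hn : (∃ k : ℕ, 2 ≤ k ∧ n = 2 ^ k) ∨ (∃ k : ℕ, 1 ≤ k ∧ n = 3 * 2 ^ k))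
    (lam : ℝ) (h : ((n : ℝ) + 8) / (5 * n + 4) < lam) :
    dimH {ξ : ℝ | MP_211f72_nt.lambdaExp n ξ = (lam : EReal)} =
      ENNReal.ofReal (max (2 / (n : ℝ)) (3 * (1 - lam) / ((n : ℝ) - 1)) / (1 + lam)) := by
  have h4 : 4 ≤ n ∧ 2 ∣ n ∧ TorsB n := by
    rcases hn with ⟨k, hk, rfl⟩ | ⟨k, hk, rfl⟩
    · refine ⟨?_, dvd_pow_self 2 (by omega), m_Tors2 k⟩
      calc 4 = 2 ^ 2 := by norm_num
        _ ≤ 2 ^ k := Nat.pow_le_pow_right (by norm_num) hk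
    · refine ⟨?_, (dvd_pow_self 2 (by omega)).mul_left 3, m_Tors6 k⟩
      have : 2 ^ 1 ≤ 2 ^ k := Nat.pow_le_pow_right (by norm_num) hk
      omega
  exact level n h4.1 (by omega) h4.2.2 lam h

end Pool.Agent.MP211W
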