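import Pool.Agent.Lib.MP_211f72_nt.W.SpecE
import Pool.Agent.Lib.MP_211f72_nt.W.DivI

/-!
# MP_211f72_nt, third theorem: the primitive part of an ideal (`PrimD`)
-/

namespace Pool.Agent.MP211W

open Polynomial NumberField

namespace PrimD

variable {K : Type} [Field K] [NumberField K]

/-- the induction -/
theorem main (h2 : Module.finrank ℚ K = 2) : ∀ (n : ℕ) (b : Ideal (𝓞 K)), b ≠ ⊥ →
    Ideal.absNorm b = n → ∃ (e : ℕ) (b₀ : Ideal (𝓞 K)), 1 ≤ e ∧ b₀ ≠ ⊥ ∧ PrimI b₀ ∧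
      b = Ideal.span {((e : ℕ) : 𝓞 K)} * b₀ ∧ Ideal.absNorm b = e ^ 2 * Ideal.absNorm b₀ := by
  intro n
  induction n using Nat.strong_induction_on with
  | _ n ih =>
    intro b hb hn
    by_cases hP : PrimI b
    · refine ⟨1, b, le_rfl, hb, hP, ?_, ?_⟩
      · rw [Nat.cast_one, Ideal.span_singleton_one, ← Ideal.one_eq_top, one_mul]
      · rw [one_pow, one_mul]
    · have hex : ∃ p : ℕ, p.Prime ∧ Ideal.span {((p : ℕ) : 𝓞 K)} ∣ b := by
        by_contra hcon
        exact hP fun p hp hd => hcon ⟨p, hp, hd⟩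
      obtain ⟨p, hp, b₁, hb₁⟩ := hex
      have hb₁0 : b₁ ≠ ⊥ := by
        rintro rfl
        exact hb (by rw [hb₁, Ideal.mul_bot])
      have hN : Ideal.absNorm b = p ^ 2 * Ideal.absNorm b₁ := by
        rw [hb₁, map_mul, DivI.absNorm_nat h2]
      have hpos : 0 < Ideal.absNorm b₁ := by
        rcases Nat.eq_zero_or_pos (Ideal.absNorm b₁) with h | h
        · exact absurd (Ideal.absNorm_eq_zero_iff.1 h) hb₁0
        · exact h
      have hlt : Ideal.absNorm b₁ < n := by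
        rw [← hn, hN]
        have h4 : 2 ^ 2 ≤ p ^ 2 := Nat.pow_le_pow_left hp.two_le 2
        have h5 := Nat.mul_le_mul_right (Ideal.absNorm b₁) h4
        omega
      obtain ⟨e₁, b₀, he₁, hb₀, hb₀P, h3, h4⟩ := ih _ hlt b₁ hb₁0 rfl
      refine ⟨p * e₁, b₀, Nat.mul_pos hp.pos he₁, hb₀, hb₀P, ?_, ?_⟩
      · rw [hb₁]
        conv_lhs => rw [h3]
        rw [← mul_assoc, Ideal.span_singleton_mul_span_singleton, Nat.cast_mul]
      · rw [hN, h4]
        ring

end PrimD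

theorem wPrimD : S_PrimD := by
  intro K _ _ h2 b hb
  exact PrimD.main h2 _ b hb rfl

end Pool.Agent.MP211W
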