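import Pool.Agent.Lib.MP_211f72_nt.W.SpecE
import Pool.Agent.Lib.MP_211f72_nt.W.QCov

/-!
# MP_211f72_nt, third theorem, module QCovP: cover of the exceptional set (helper31)
-/

set_option autoImplicit false

namespace Pool.Agent.MP211W

open Polynomial NumberField

namespace QCovP

/-- the powers of `H` -/
theorem num_H {k : ℕ} {κ A H B : ℝ} (hA : 0 < A) (hH : 1 ≤ H) (hB : 1 ≤ B)
    (hκ1 : κ * ((k : ℝ) + 3) ≤ 3) (hκ0 : 0 ≤ κ)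
    (hHA : H ^ (k + 2) ≤ B * A) :
    (A / H ^ (k + 3)) ^ κ * H ^ 3 ≤ B ^ 3 * A ^ ((3 - κ) / ((k : ℝ) + 2)) := by
  have hH0 : 0 < H := lt_of_lt_of_le one_pos hH
  have hB0 : 0 < B := lt_of_lt_of_le one_pos hB
  have hk : (0 : ℝ) < (k : ℝ) + 2 := by positivity
  have hk0 : (0 : ℝ) ≤ (k : ℝ) := Nat.cast_nonneg k
  obtain ⟨g, hg⟩ : ∃ g, g = (3 - κ * ((k : ℝ) + 3)) / ((k : ℝ) + 2) := ⟨_, rfl⟩
  have hg0 : 0 ≤ g := by
    rw [hg]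
    apply div_nonneg _ hk.le
    linarith
  have hg3 : g ≤ 3 := by
    rw [hg, div_le_iff₀ hk]
    nlinarith
  have e1 : (A / H ^ (k + 3)) ^ κ * H ^ 3 = A ^ κ * (H ^ (k + 2)) ^ g := by
    rw [Real.div_rpow hA.le (by positivity), ← Real.rpow_natCast H (k + 3),
      ← Real.rpow_mul hH0.le, ← Real.rpow_natCast H (k + 2), ← Real.rpow_mul hH0.le,
      ← Real.rpow_natCast H 3, div_mul_eq_mul_div, mul_div_assoc, ← Real.rpow_sub hH0]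
    congr 2
    rw [hg]
    push_cast
    field_simp
  rw [e1]
  have e2 : (H ^ (k + 2)) ^ g ≤ (B * A) ^ g :=
    Real.rpow_le_rpow (by positivity) hHA hg0
  have e3 : B ^ g ≤ B ^ 3 := by
    rw [← Real.rpow_natCast B 3]
    apply Real.rpow_le_rpow_of_exponent_le hB
    push_cast
    exact hg3
  have hAκ : 0 ≤ A ^ κ := Real.rpow_nonneg hA.le _
  have hAg : 0 ≤ A ^ g := Real.rpow_nonneg hA.le _
  calc A ^ κ * (H ^ (k + 2)) ^ g ≤ A ^ κ * (B * A) ^ g := mul_le_mul_of_nonneg_left e2 hAκ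
    _ = A ^ κ * (B ^ g * A ^ g) := by rw [Real.mul_rpow hB0.le hA.le]
    _ = B ^ g * (A ^ κ * A ^ g) := by ring
    _ ≤ B ^ 3 * (A ^ κ * A ^ g) := mul_le_mul_of_nonneg_right e3 (by positivity)
    _ = B ^ 3 * A ^ ((3 - κ) / ((k : ℝ) + 2)) := by
        rw [← Real.rpow_add hA]
        congr 2
        rw [hg]
        field_simp
        ring

/-- the powers of `Y` -/
theorem num_Y {Y lam s g : ℝ} (hY : 0 < Y) :
    (Y * (Y / 2) ^ (-lam)) ^ g * ((Y / 2) ^ (-lam) / Y) ^ s =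
      (2 : ℝ) ^ (g * lam + lam * s) * Y ^ (-(s * (1 + lam) - g * (1 - lam))) := by
  have hδ : 0 < (Y / 2) ^ (-lam) := Real.rpow_pos_of_pos (by positivity) _
  have hlδ : Real.log ((Y / 2) ^ (-lam)) = -lam * (Real.log Y - Real.log 2) := by
    rw [Real.log_rpow (by positivity), Real.log_div hY.ne' (by norm_num)]
  rw [Real.rpow_def_of_pos (mul_pos hY hδ), Real.rpow_def_of_pos (div_pos hδ hY),
    Real.rpow_def_of_pos (by norm_num : (0 : ℝ) < 2), Real.rpow_def_of_pos hY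
      (-(s * (1 + lam) - g * (1 - lam))), ← Real.exp_add,
    ← Real.exp_add, Real.log_mul hY.ne' hδ.ne', Real.log_div hδ.ne' hY.ne', hlδ]
  congr 1
  ring

/-- the estimate for one pair -/
theorem num_pair {k : ℕ} {Y lam s κ H Δ C B e : ℝ} (hY : 0 < Y) (hs : 0 < s) (hs1 : s ≤ 1)
    (hH : 1 ≤ H) (hΔ : 0 < Δ) (hΔH : Δ ≤ 5 * H ^ 2) (hC : 0 ≤ C) (hB : 1 ≤ B)
    (hκ1 : κ * ((k : ℝ) + 3) ≤ 3) (hκ0 : 0 ≤ κ)
    (hHA : H ^ (k + 2) ≤ B * (Y * (Y / 2) ^ (-lam))) :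
    2 * (C * Y ^ e * (H ^ 2 * Real.sqrt Δ * (Y * (Y / 2) ^ (-lam) / H ^ (k + 3)) ^ κ)) *
      (8 * H * (Y / 2) ^ (-lam) / (Y * Real.sqrt Δ)) ^ s ≤
    48 * (2 : ℝ) ^ ((3 - κ) / ((k : ℝ) + 2) * lam + lam * s) * C * B ^ 3 *
      Y ^ (e - (s * (1 + lam) - (3 - κ) / ((k : ℝ) + 2) * (1 - lam))) := by
  obtain ⟨δ, hδe⟩ : ∃ δ, δ = (Y / 2) ^ (-lam) := ⟨_, rfl⟩
  have hδ : 0 < δ := by
    rw [hδe]
    exact Real.rpow_pos_of_pos (by positivity) _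
  have hH0 : 0 < H := lt_of_lt_of_le one_pos hH
  have hB0 : 0 < B := lt_of_lt_of_le one_pos hB
  have hsq : 0 < Real.sqrt Δ := Real.sqrt_pos.mpr hΔ
  have hsqH : Real.sqrt Δ ≤ 3 * H := by
    rw [Real.sqrt_le_left (by positivity)]
    nlinarith [sq_nonneg H]
  have hY1 := num_Y (lam := lam) (s := s) (g := (3 - κ) / ((k : ℝ) + 2)) hY
  rw [← hδe] at hHA hY1 ⊢
  obtain ⟨q, hq⟩ : ∃ q, q = Real.sqrt Δ := ⟨_, rfl⟩
  rw [← hq] at hsq hsqH ⊢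
  obtain ⟨g, hg⟩ : ∃ g, g = (3 - κ) / ((k : ℝ) + 2) := ⟨_, rfl⟩
  have hnH := num_H (A := Y * δ) (mul_pos hY hδ) hH hB hκ1 hκ0 hHA
  rw [← hg] at hY1 hnH ⊢
  have hA : 0 < Y * δ := mul_pos hY hδ
  -- the radius
  have e1 : (8 * H * δ / (Y * q)) ^ s = 8 ^ s * H ^ s * (δ / Y) ^ s / q ^ s := by
    have : 8 * H * δ / (Y * q) = 8 * H * (δ / Y) / q := by
      field_simp
    rw [this, Real.div_rpow (by positivity) hsq.le, Real.mul_rpow (by positivity) (by positivity),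
      Real.mul_rpow (by norm_num) hH0.le]
  have e2 : q / q ^ s ≤ 3 * H ^ (1 - s) := by
    have h1 : q / q ^ s = q ^ (1 - s) := by
      rw [Real.rpow_sub hsq, Real.rpow_one]
    rw [h1]
    have h2 : q ^ (1 - s) ≤ (3 * H) ^ (1 - s) := Real.rpow_le_rpow hsq.le hsqH (by linarith)
    rw [Real.mul_rpow (by norm_num) hH0.le] at h2
    refine h2.trans (mul_le_mul_of_nonneg_right ?_ (Real.rpow_nonneg hH0.le _))
    calc (3 : ℝ) ^ (1 - s) ≤ 3 ^ (1 : ℝ) :=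
          Real.rpow_le_rpow_of_exponent_le (by norm_num) (by linarith)
      _ = 3 := Real.rpow_one _
  have e3 : (8 : ℝ) ^ s ≤ 8 := by
    calc (8 : ℝ) ^ s ≤ 8 ^ (1 : ℝ) := Real.rpow_le_rpow_of_exponent_le (by norm_num) hs1
      _ = 8 := Real.rpow_one _
  have e4 : H ^ 2 * H ^ s * H ^ (1 - s) = H ^ 3 := by
    have h1 : H ^ 2 * H ^ s * H ^ (1 - s) = H ^ 2 * (H ^ s * H ^ (1 - s)) := by ring
    rw [h1, ← Real.rpow_add hH0]
    have : s + (1 - s) = 1 := by ring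
    rw [this, Real.rpow_one]
    ring
  obtain ⟨w, hw⟩ : ∃ w, w = (Y * δ / H ^ (k + 3)) ^ κ := ⟨_, rfl⟩
  have hw0 : 0 ≤ w := by
    rw [hw]
    exact Real.rpow_nonneg (by positivity) _
  rw [← hw] at hnH ⊢
  have hHs : 0 ≤ H ^ s := Real.rpow_nonneg hH0.le _
  have hH1s : 0 ≤ H ^ (1 - s) := Real.rpow_nonneg hH0.le _
  have hd : 0 ≤ (δ / Y) ^ s := Real.rpow_nonneg (by positivity) _
  have hYe : 0 ≤ Y ^ e := Real.rpow_nonneg hY.le _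
  have h8 : 0 ≤ (8 : ℝ) ^ s := Real.rpow_nonneg (by norm_num) _
  calc 2 * (C * Y ^ e * (H ^ 2 * q * w)) * (8 * H * δ / (Y * q)) ^ s
      = 2 * C * Y ^ e * w * (δ / Y) ^ s * (8 ^ s * (H ^ 2 * H ^ s)) *
          (q / q ^ s) := by
        rw [e1]
        ring
    _ ≤ 2 * C * Y ^ e * w * (δ / Y) ^ s * (8 ^ s * (H ^ 2 * H ^ s)) *
          (3 * H ^ (1 - s)) := mul_le_mul_of_nonneg_left e2 (by positivity)
    _ = 6 * C * Y ^ e * w * (δ / Y) ^ s * (H ^ 2 * H ^ s * H ^ (1 - s)) *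
          8 ^ s := by ring
    _ ≤ 6 * C * Y ^ e * w * (δ / Y) ^ s * (H ^ 2 * H ^ s * H ^ (1 - s)) *
          8 := mul_le_mul_of_nonneg_left e3 (by positivity)
    _ = 48 * C * Y ^ e * (δ / Y) ^ s * (w * H ^ 3) := by
        rw [e4]
        ring
    _ ≤ 48 * C * Y ^ e * (δ / Y) ^ s * (B ^ 3 * (Y * δ) ^ g) :=
        mul_le_mul_of_nonneg_left hnH (by positivity)
    _ = 48 * C * B ^ 3 * Y ^ e * ((Y * δ) ^ g * (δ / Y) ^ s) := by ring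
    _ = 48 * (2 : ℝ) ^ (g * lam + lam * s) * C * B ^ 3 *
          (Y ^ e * Y ^ (-(s * (1 + lam) - g * (1 - lam)))) := by
        rw [hY1]
        ring
    _ = _ := by
        rw [← Real.rpow_add hY]
        congr 2

end QCovP

open _root_.Pool.Agent.MP211W.QCov

theorem wQCovP (h1 : S_Near1) : S_QCovP := by
  classical
  intro n κ₀ lam s C₀ hn hκ0' hκ1' hcls hlam hs hs1 hC₀ hκ'
  obtain ⟨k, rfl⟩ : ∃ k, n = k + 4 := ⟨n - 4, by omega⟩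
  have hcast : (((k + 4 : ℕ) : ℝ) - 1) = (k : ℝ) + 3 := by
    push_cast
    ring
  have hcast2 : (((k + 4 : ℕ) : ℝ) - 2) = (k : ℝ) + 2 := by
    push_cast
    ring
  rw [hcast] at hκ1'
  rw [hcast2] at hκ'
  have hk0 : (0 : ℝ) ≤ (k : ℝ) := Nat.cast_nonneg k
  have hκ1 : κ₀ * ((k : ℝ) + 3) ≤ 3 := by
    rwa [le_div_iff₀ (by linarith)] at hκ1'
  obtain ⟨κ, hκ⟩ : ∃ κ, κ = s * (1 + lam) - (3 - κ₀) / ((k : ℝ) + 2) * (1 - lam) := ⟨_, rfl⟩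
  have hκ0 : 0 < κ := by
    rw [hκ, div_mul_eq_mul_div]
    linarith
  obtain ⟨C, hC, hA⟩ := hcls (κ / 4) (by positivity)
  obtain ⟨B₀, hB₀⟩ : ∃ B₀, B₀ = (2 : ℝ) ^ (k + 2) * C₀ := ⟨_, rfl⟩
  have hB1 : 1 ≤ B₀ := by
    rw [hB₀]
    have : (1 : ℝ) ≤ 2 ^ (k + 2) := one_le_pow₀ (by norm_num)
    nlinarith
  obtain ⟨C₂, hC₂⟩ : ∃ C₂, C₂ = 48 * (2 : ℝ) ^ ((3 - κ₀) / ((k : ℝ) + 2) * lam + lam * s) * C *
      B₀ ^ 3 := ⟨_, rfl⟩
  have hC₂0 : 0 < C₂ := by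
    rw [hC₂]
    have : 0 < (2 : ℝ) ^ ((3 - κ₀) / ((k : ℝ) + 2) * lam + lam * s) :=
      Real.rpow_pos_of_pos (by norm_num) _
    positivity
  obtain ⟨C₄, hC₄⟩ : ∃ C₄, C₄ = 4 * (1 + 2 / (κ / 16)) ^ 2 * C₂ := ⟨_, rfl⟩
  -- large `Y`
  have t1 : Filter.Tendsto (fun Y : ℝ => (Y / 2) ^ (-lam)) Filter.atTop (nhds 0) :=
    (tendsto_rpow_neg_atTop hlam).comp (Filter.tendsto_id.atTop_div_const (by norm_num))
  have t2 : Filter.Tendsto (fun Y : ℝ => Y ^ (κ / 8)) Filter.atTop Filter.atTop :=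
    tendsto_rpow_atTop (by positivity)
  have hδ₀ : 0 < 1 / (100 * 2 ^ (k + 2) * C₀) := by positivity
  have ev1 := t1.eventually (Iio_mem_nhds hδ₀)
  have ev2 := t2.eventually (Filter.eventually_ge_atTop C₄)
  obtain ⟨Y₁, hY₁⟩ := Filter.eventually_atTop.mp (ev1.and ev2)
  refine ⟨κ / 2, max 2 Y₁, by positivity, le_max_left _ _, ?_⟩
  intro Y hYY
  have hY2 : 2 ≤ Y := (le_max_left _ _).trans hYY
  obtain ⟨hδlt, hYbig⟩ := hY₁ Y ((le_max_right _ _).trans hYY)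
  have hY0 : 0 < Y := by linarith
  obtain ⟨δ, hδ⟩ : ∃ δ, δ = (Y / 2) ^ (-lam) := ⟨_, rfl⟩
  have hδlt' : δ < 1 / (100 * 2 ^ (k + 2) * C₀) := by
    rw [hδ]
    exact hδlt
  rw [← hδ]
  have hδ0 : 0 < δ := by
    rw [hδ]
    exact Real.rpow_pos_of_pos (by positivity) _
  have hP : (0 : ℝ) < 2 ^ (k + 2) := by positivity
  have hδC : 100 * 2 ^ (k + 2) * C₀ * δ ≤ 1 := by
    rw [lt_div_iff₀ (by positivity)] at hδlt'
    linarith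
  have hP1 : (1 : ℝ) ≤ 2 ^ (k + 2) := one_le_pow₀ (by norm_num)
  have hPC : 1 ≤ 2 ^ (k + 2) * C₀ := by nlinarith
  have hδ1 : δ ≤ 1 := by
    have : δ ≤ 100 * 2 ^ (k + 2) * C₀ * δ := by
      apply le_mul_of_one_le_left hδ0.le
      linarith
    linarith
  obtain ⟨M, hM⟩ : ∃ M, M = ⌊2 * Real.log Y⌋₊ := ⟨_, rfl⟩
  -- bounds for `H`
  have hHb : ∀ H : ℝ, 1 ≤ H → H ^ (k + 2) ≤ 2 ^ (k + 2) * (C₀ * (Y * δ)) →
      H ≤ Y ∧ 100 * (H ^ 2 * δ) ≤ Y := by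
    intro H hH hHk
    have e1 : H ^ 2 ≤ H ^ (k + 2) := pow_le_pow_right₀ hH (by omega)
    have e2 : H ^ 2 ≤ 2 ^ (k + 2) * (C₀ * (Y * δ)) := e1.trans hHk
    have e3 : 2 ^ (k + 2) * (C₀ * (Y * δ)) * 100 ≤ Y := by
      have : 2 ^ (k + 2) * (C₀ * (Y * δ)) * 100 = (100 * 2 ^ (k + 2) * C₀ * δ) * Y := by ring
      rw [this]
      exact mul_le_of_le_one_left hY0.le hδC
    have e4 : 0 ≤ H ^ 2 := by positivity
    constructor
    · nlinarith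
    · have : H ^ 2 * δ ≤ H ^ 2 * 1 := mul_le_mul_of_nonneg_left hδ1 e4
      linarith
  -- the sets of the pairs
  let E : ℕ × ℕ → Set ℝ := fun p => {ξ | (Y * δ ≤ ((2 : ℝ) ^ p.1) ^ (k + 3) ∧
    ((2 : ℝ) ^ p.1) ^ (k + 2) ≤ 2 ^ (k + 2) * (C₀ * (Y * δ)) ∧
    (2 : ℝ) ^ p.2 ≤ 5 * ((2 : ℝ) ^ p.1) ^ 2) ∧
    ∃ q x, NQ (k + 4) Y δ ((2 : ℝ) ^ p.1) ((2 : ℝ) ^ p.2) q ξ x}
  have hcov : ∀ p ∈ Finset.range (M + 1) ×ˢ Finset.range (2 * M + 4),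
      CovW s (C₂ * Y ^ (κ / 4 - κ)) (E p) := by
    intro p _
    by_cases hp : (Y * δ ≤ ((2 : ℝ) ^ p.1) ^ (k + 3) ∧
        ((2 : ℝ) ^ p.1) ^ (k + 2) ≤ 2 ^ (k + 2) * (C₀ * (Y * δ)) ∧
        (2 : ℝ) ^ p.2 ≤ 5 * ((2 : ℝ) ^ p.1) ^ 2)
    · obtain ⟨p1, p2, p3⟩ := hp
      have hH : (1 : ℝ) ≤ 2 ^ p.1 := one_le_pow₀ (by norm_num)
      have hΔ : (0 : ℝ) < 2 ^ p.2 := by positivity
      obtain ⟨b1, b2⟩ := hHb _ hH p2
      have c1 := cov_pair (n := k + 4) (s := s) h1 (by omega) hδ0 hY0 (by linarith) hΔ b2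
        (fun S hS => hA Y δ ((2 : ℝ) ^ p.1) ((2 : ℝ) ^ p.2) S (by linarith) hH b1 hδ0 hδ1 b2 p1 hS)
      refine c1.mono ?_ ?_
      · have c2 := QCovP.num_pair (k := k) (Y := Y) (lam := lam) (s := s) (κ := κ₀)
          (H := (2 : ℝ) ^ p.1) (Δ := (2 : ℝ) ^ p.2) (C := C) (B := B₀) (e := κ / 4) hY0 hs hs1 hH
          hΔ p3 hC.le hB1 hκ1 hκ0' (by rw [← hδ, hB₀, mul_assoc]; exact p2)
        rw [← hδ, ← hκ, ← hC₂] at c2
        exact c2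
      · rintro ξ ⟨_, h⟩
        exact h
    · refine (cov_empty s (B := C₂ * Y ^ (κ / 4 - κ)) ?_).mono le_rfl ?_
      · have : 0 < Y ^ (κ / 4 - κ) := Real.rpow_pos_of_pos hY0 _
        positivity
      · rintro ξ ⟨h, _⟩
        exact (hp h).elim
  have hall := cov_biUnion s (C₂ * Y ^ (κ / 4 - κ))
    (Finset.range (M + 1) ×ˢ Finset.range (2 * M + 4)) E hcov
  refine hall.mono ?_ ?_
  · rw [Finset.card_product, Finset.card_range, Finset.card_range]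
    have c1 := card_le (Y := Y) (η := κ / 16) (by linarith) (by positivity)
    rw [← hM] at c1
    have c2 : (Y ^ (κ / 16)) ^ 2 = Y ^ (κ / 8) := by
      rw [← Real.rpow_natCast, ← Real.rpow_mul hY0.le]
      congr 1
      push_cast
      ring
    rw [c2] at c1
    have hy1 : 0 < Y ^ (κ / 4 - κ) := Real.rpow_pos_of_pos hY0 _
    have hy2 : 0 < Y ^ (κ / 8) := Real.rpow_pos_of_pos hY0 _
    calc (((M + 1) * (2 * M + 4) : ℕ) : ℝ) * (C₂ * Y ^ (κ / 4 - κ))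
        ≤ 4 * (1 + 2 / (κ / 16)) ^ 2 * Y ^ (κ / 8) * (C₂ * Y ^ (κ / 4 - κ)) :=
          mul_le_mul_of_nonneg_right c1 (by positivity)
      _ = C₄ * (Y ^ (κ / 8) * Y ^ (κ / 4 - κ)) := by
          rw [hC₄]
          ring
      _ ≤ Y ^ (κ / 8) * (Y ^ (κ / 8) * Y ^ (κ / 4 - κ)) :=
          mul_le_mul_of_nonneg_right hYbig (by positivity)
      _ = Y ^ (-(κ / 2)) := by
          rw [← Real.rpow_add hY0, ← Real.rpow_add hY0]
          congr 1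
          ring
  · rintro ξ ⟨hξ0, hξ1, q, x, hgood, hNr, hLam, hq1, hq2⟩
    have hht : 1 ≤ q.ht := one_le_ht hgood
    have hhtR : (1 : ℝ) ≤ (q.ht : ℝ) := by exact_mod_cast hht
    obtain ⟨u, hu1, hu2⟩ := exists_nat_pow_near hhtR (by norm_num : (1 : ℝ) < 2)
    have hq1' : Y * δ ≤ (q.ht : ℝ) ^ (k + 3) := hq1
    have hq2' : (q.ht : ℝ) ^ (k + 2) ≤ C₀ * (Y * δ) := hq2
    have hH1 : (q.ht : ℝ) ≤ 2 ^ (u + 1) := hu2.le
    have hH2 : (2 : ℝ) ^ (u + 1) ≤ 2 * (q.ht : ℝ) := by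
      rw [pow_succ]
      linarith
    have hH : (1 : ℝ) ≤ 2 ^ (u + 1) := one_le_pow₀ (by norm_num)
    have g1 : Y * δ ≤ ((2 : ℝ) ^ (u + 1)) ^ (k + 3) :=
      hq1'.trans (pow_le_pow_left₀ (by linarith) hH1 _)
    have g2 : ((2 : ℝ) ^ (u + 1)) ^ (k + 2) ≤ 2 ^ (k + 2) * (C₀ * (Y * δ)) := by
      refine (pow_le_pow_left₀ (by positivity) hH2 _).trans ?_
      rw [mul_pow]
      exact mul_le_mul_of_nonneg_left hq2' (by positivity)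
    obtain ⟨b1, b2⟩ := hHb _ hH g2
    have hdisc := h1.1 (k + 4) Y δ ((2 : ℝ) ^ (u + 1)) ξ q x (by omega) hδ0 b2 hgood hH1 hξ0 hξ1
      hNr hLam
    have hdR : (1 : ℝ) ≤ (q.disc : ℝ) := by
      have : 1 ≤ q.disc := hdisc
      exact_mod_cast this
    obtain ⟨v, hv1, hv2⟩ := exists_nat_pow_near hdR (by norm_num : (1 : ℝ) < 2)
    have hv3 : (q.disc : ℝ) ≤ 2 * 2 ^ v := by
      rw [pow_succ] at hv2
      linarith
    have g3 : (2 : ℝ) ^ v ≤ 5 * ((2 : ℝ) ^ (u + 1)) ^ 2 := by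
      have d1 := disc_le q
      have d2 : (q.ht : ℝ) ^ 2 ≤ ((2 : ℝ) ^ (u + 1)) ^ 2 := pow_le_pow_left₀ (by linarith) hH1 2
      linarith
    have hu3 : u + 1 ≤ M := by
      rw [hM]
      exact exp_le hY0 b1
    have hv4 : v < 2 * (u + 1) + 3 := by
      have d1 : (2 : ℝ) ^ v < 2 ^ (2 * (u + 1) + 3) := by
        have d2 : (2 : ℝ) ^ (2 * (u + 1) + 3) = 8 * ((2 : ℝ) ^ (u + 1)) ^ 2 := by
          rw [pow_add, mul_comm 2 (u + 1), pow_mul]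
          ring
        rw [d2]
        have : (0 : ℝ) < ((2 : ℝ) ^ (u + 1)) ^ 2 := by positivity
        linarith
      exact (pow_lt_pow_iff_right₀ (by norm_num : (1 : ℝ) < 2)).mp d1
    refine ⟨(u + 1, v), ?_, ⟨g1, g2, g3⟩, q, x, hgood, hH1, hH2, hv1, hv3, hξ0, hξ1, hNr, hLam⟩
    rw [Finset.mem_product, Finset.mem_range, Finset.mem_range]
    constructor
    · change u + 1 < M + 1
      omega
    · change v < 2 * M + 4
      omega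

end Pool.Agent.MP211W
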