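import Pool.Agent.Lib.MP_211f72_nt.W.SpecE

/-!
# MP_211f72_nt, third theorem: most `d` have many small split primes (`S_SplitAvg` from `S_CharS`)
-/

namespace Pool.Agent.MP211W

namespace SplitAvg

open Classical in
/-- the odd primes up to `P` -/
noncomputable def Op (P : ℝ) : Finset ℕ :=
  (Finset.range (⌊P⌋₊ + 1)).filter fun p => p.Prime ∧ p ≠ 2

theorem mem_Op {P : ℝ} (hP : 0 ≤ P) {p : ℕ} : p ∈ Op P ↔ (p.Prime ∧ p ≠ 2 ∧ (p : ℝ) ≤ P) := by
  unfold Op
  rw [Finset.mem_filter, Finset.mem_range, Nat.lt_succ_iff, Nat.le_floor_iff hP]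
  tauto

theorem card_pi (P : ℝ) : Nat.primeCounting ⌊P⌋₊ ≤ (Op P).card + 1 := by
  classical
  unfold Nat.primeCounting Nat.primeCounting'
  rw [Nat.count_eq_card_filter_range]
  have h : (Finset.range (⌊P⌋₊ + 1)).filter Nat.Prime ⊆ insert 2 (Op P) := by
    intro p hp
    rw [Finset.mem_filter] at hp
    rw [Finset.mem_insert]
    by_cases h2 : p = 2
    · exact Or.inl h2
    · refine Or.inr ?_
      unfold Op
      rw [Finset.mem_filter]
      exact ⟨hp.1, hp.2, h2⟩
  exact (Finset.card_le_card h).trans (Finset.card_insert_le _ _)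

theorem one_le {P : ℝ} (hP : 3 ≤ P) : 1 ≤ (Op P).card := by
  rw [Finset.one_le_card]
  refine ⟨3, (mem_Op (by linarith)).2 ⟨Nat.prime_three, by norm_num, ?_⟩⟩
  norm_num
  exact hP

/-- Chebyshev's lower bound -/
theorem cheb {P : ℝ} (hP : 3 ≤ P) : P ≤ 20 * ((Op P).card * Real.log P) := by
  have h1 : (1 : ℝ) ≤ (Op P).card := by exact_mod_cast one_le hP
  have hl : 1 ≤ Real.log P := by
    have h2 : Real.exp 1 ≤ P := by
      have := Real.exp_one_lt_d9
      linarith
    have h3 := Real.log_le_log (Real.exp_pos 1) h2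
    rwa [Real.log_exp] at h3
  rcases le_or_gt P 20 with h | h
  · have h2 : 1 * 1 ≤ ((Op P).card : ℝ) * Real.log P := mul_le_mul h1 hl (by norm_num) (by linarith)
    linarith
  · have h2 := Chebyshev.pi_ge' (x := P) (by linarith)
    rw [div_le_iff₀ (by linarith)] at h2
    have h3 : (Nat.primeCounting ⌊P⌋₊ : ℝ) ≤ (Op P).card + 1 := by exact_mod_cast card_pi P
    have h4 : (Nat.primeCounting ⌊P⌋₊ : ℝ) * Real.log P ≤ 2 * ((Op P).card * Real.log P) := by
      have h5 : (Nat.primeCounting ⌊P⌋₊ : ℝ) * Real.log P ≤ (2 * (Op P).card) * Real.log P :=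
        mul_le_mul_of_nonneg_right (by linarith) (by linarith)
      linarith
    have h5 : Real.log (P + 2) ≤ (P + 2) / 4 + 0.39 := by
      have h6 := Real.log_le_sub_one_of_pos (show 0 < (P + 2) / 4 by linarith)
      rw [Real.log_div (by linarith) (by norm_num)] at h6
      have h7 : Real.log 4 ≤ 1.39 := by
        rw [show (4 : ℝ) = 2 ^ 2 by norm_num, Real.log_pow]
        have := Real.log_two_lt_d9
        norm_num
        linarith
      linarith
    have h6 : (P - 1) * 0.69 ≤ (P - 1) * Real.log 2 := by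
      have := Real.log_two_gt_d9
      exact mul_le_mul_of_nonneg_left (by linarith) (by linarith)
    linarith

end SplitAvg

open SplitAvg in
/-- **SplitAvg.**  Most `d` have many small split primes. -/
theorem wSplitAvg (h1 : S_CharS) : S_SplitAvg := by
  intro ε hε
  obtain ⟨c, hc⟩ : ∃ c : ℝ, c = ε / 40 := ⟨_, rfl⟩
  have hc0 : 0 < c := by rw [hc]; positivity
  obtain ⟨C, hC⟩ : ∃ C : ℝ, C = 10 + (20 + 16 / ε) / c := ⟨_, rfl⟩
  have he : 0 < 16 / ε := by positivity
  have hCc : C * c = 10 * c + (20 + 16 / ε) := by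
    rw [hC]
    field_simp
  have hC10 : 10 ≤ C := by
    rw [hC]
    have : 0 < (20 + 16 / ε) / c := by positivity
    linarith
  refine ⟨C, by linarith, ?_⟩
  intro D P S hD hP hPD hS
  have hP0 : (0 : ℝ) < P := by linarith
  have hD1 : (1 : ℝ) ≤ D := by exact_mod_cast hD
  have hD0 : (0 : ℝ) < D := by linarith
  rcases S.eq_empty_or_nonempty with rfl | ⟨d, hd⟩
  · rw [Finset.card_empty, Nat.cast_zero]
    have : 0 ≤ (D : ℝ) ^ (1 + ε) / P := by positivity
    exact mul_nonneg (by linarith) this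
  obtain ⟨E, hE⟩ : ∃ E : ℝ, E = (D : ℝ) ^ (ε / 2) := ⟨_, rfl⟩
  have hE1 : 1 ≤ E := by
    rw [hE]
    exact Real.one_le_rpow hD1 (by positivity)
  have hEE : (D : ℝ) ^ ε = E * E := by
    rw [hE, ← Real.rpow_add hD0]
    congr 1
    ring
  have hDE : (D : ℝ) ^ (1 + ε) = D * (E * E) := by
    rw [Real.rpow_add hD0, Real.rpow_one, hEE]
  have hlog : Real.log D ≤ (2 / ε) * E := by
    have h2 := Real.log_le_rpow_div hD0.le (show 0 < ε / 2 by positivity)
    rw [← hE] at h2
    calc Real.log D ≤ E / (ε / 2) := h2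
      _ = (2 / ε) * E := by field_simp
  have hPc : C * (E * E) < P := by
    have h2 := (hS d hd).2.2 ∅ (fun p hp => absurd hp (Finset.notMem_empty p))
    rw [hEE, Finset.card_empty, Nat.cast_zero, add_zero, mul_one] at h2
    exact h2
  have hEE1 : E ≤ E * E := le_mul_of_one_le_left (by linarith) hE1
  have hP3 : 3 ≤ P := by
    have h2 : 10 * 1 ≤ C * (E * E) := mul_le_mul hC10 (by linarith) (by norm_num) (by linarith)
    linarith
  have hPD' : P ≤ D := by
    have h2 : P * 1 ≤ P * P ^ 2 := mul_le_mul_of_nonneg_left (by nlinarith) hP0.le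
    calc P = P * 1 := by ring
      _ ≤ P * P ^ 2 := h2
      _ = P ^ 3 := by ring
      _ ≤ D := hPD
  obtain ⟨a, ha⟩ : ∃ a : ℝ, a = ((Op P).card : ℝ) := ⟨_, rfl⟩
  have ha1 : 1 ≤ a := by
    rw [ha]
    exact_mod_cast one_le hP3
  -- Chebyshev
  have hcP : c * P ≤ a * E := by
    have h2 := cheb hP3
    rw [← ha] at h2
    have h3 : Real.log P ≤ (2 / ε) * E := (Real.log_le_log hP0 hPD').trans hlog
    have h4 : a * Real.log P ≤ a * ((2 / ε) * E) := mul_le_mul_of_nonneg_left h3 (by linarith)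
    have h5 : P ≤ 20 * (a * ((2 / ε) * E)) := by linarith
    calc c * P ≤ c * (20 * (a * ((2 / ε) * E))) := mul_le_mul_of_nonneg_left h5 hc0.le
      _ = a * E := by
        rw [hc]
        field_simp
        ring
  have hcC : (C * c) * E ≤ a := by
    have h2 : ((C * c) * E) * E ≤ a * E := by
      calc ((C * c) * E) * E = c * (C * (E * E)) := by ring
        _ ≤ c * P := mul_le_mul_of_nonneg_left hPc.le hc0.le
        _ ≤ a * E := hcP
    exact le_of_mul_le_mul_right h2 (by linarith)
  have hS0 : (0 : ℝ) ≤ S.card := Nat.cast_nonneg _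
  have key := h1 D P (Op P) S hD hP (fun p hp => (mem_Op hP0.le).1 hp) (by
    rw [← ha]
    have h2 : Real.logb 2 (2 * D) ≤ 1 + 2 * Real.log D := by
      rw [Real.logb_mul (by norm_num) hD0.ne', Real.logb_self_eq_one (by norm_num)]
      have h3 : Real.logb 2 D ≤ 2 * Real.log D := by
        unfold Real.logb
        rw [div_le_iff₀ (Real.log_pos (by norm_num))]
        have h4 := Real.log_two_gt_d9
        have h5 : 0 ≤ Real.log D := Real.log_nonneg hD1
        nlinarith
      linarith
    have h3 : 4 * (1 + 2 * Real.log D) ≤ (4 + 16 / ε) * E := by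
      have h4 : 8 * Real.log D ≤ 8 * ((2 / ε) * E) := by linarith
      have h5 : 8 * ((2 / ε) * E) = (16 / ε) * E := by ring
      rw [h5] at h4
      linarith
    have h4 : (4 + 16 / ε) * E ≤ (C * c) * E := by
      refine mul_le_mul_of_nonneg_right ?_ (by linarith)
      rw [hCc]
      linarith
    linarith) (by
    intro d' hd'
    refine ⟨(hS d' hd').1, (hS d' hd').2.1, ?_⟩
    intro A₁ hA₁ hA₂
    have h2 := (hS d' hd').2.2 A₁ hA₂
    rw [hEE] at h2
    have h3 : (0 : ℝ) ≤ A₁.card := Nat.cast_nonneg _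
    have h4 : C * (E * E) * (A₁.card : ℝ) ≤ P := by
      have h5 : 0 ≤ C * (E * E) := mul_nonneg (by linarith) (by positivity)
      linarith
    have h5 : (C * c * (A₁.card : ℝ)) * (E * E) ≤ a * (E * E) := by
      calc (C * c * (A₁.card : ℝ)) * (E * E) = c * (C * (E * E) * (A₁.card : ℝ)) := by ring
        _ ≤ c * P := mul_le_mul_of_nonneg_left h4 hc0.le
        _ ≤ a * E := hcP
        _ ≤ a * (E * E) := mul_le_mul_of_nonneg_left hEE1 (by linarith)
    have h6 : C * c * (A₁.card : ℝ) ≤ a := le_of_mul_le_mul_right h5 (by positivity)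
    have h7 : 8 * (A₁.card : ℝ) ≤ C * c * (A₁.card : ℝ) := by
      refine mul_le_mul_of_nonneg_right ?_ h3
      rw [hCc]
      linarith
    have h8 : ((8 * A₁.card : ℕ) : ℝ) ≤ ((Op P).card : ℝ) := by
      push_cast
      rw [← ha]
      linarith
    exact_mod_cast h8)
  rw [← ha] at key
  have k1 : (S.card : ℝ) * a ≤ 4 * (D + a * P ^ 2) := by
    have h2 : ((S.card : ℝ) * a) * a ≤ (4 * (D + a * P ^ 2)) * a := by
      calc ((S.card : ℝ) * a) * a = (S.card : ℝ) * a ^ 2 := by ring
        _ ≤ 4 * (a * D + a ^ 2 * P ^ 2) := key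
        _ = (4 * (D + a * P ^ 2)) * a := by ring
    exact le_of_mul_le_mul_right h2 (by linarith)
  have k2 : ((S.card : ℝ) * P) * (c * a) ≤ (C * (D * (E * E))) * (c * a) := by
    have h2 : (S.card : ℝ) * a * P ≤ 4 * (D * P + a * D) := by
      calc (S.card : ℝ) * a * P ≤ 4 * (D + a * P ^ 2) * P := mul_le_mul_of_nonneg_right k1 hP0.le
        _ = 4 * (D * P + a * P ^ 3) := by ring
        _ ≤ 4 * (D * P + a * D) := by
          have := mul_le_mul_of_nonneg_left hPD (show 0 ≤ a by linarith)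
          linarith
    have h3 : D * (c * P) ≤ D * (a * E) := mul_le_mul_of_nonneg_left hcP hD0.le
    calc ((S.card : ℝ) * P) * (c * a) = c * ((S.card : ℝ) * a * P) := by ring
      _ ≤ c * (4 * (D * P + a * D)) := mul_le_mul_of_nonneg_left h2 hc0.le
      _ = 4 * (D * (c * P)) + 4 * c * (a * D) := by ring
      _ ≤ 4 * (D * (a * E)) + 4 * c * (a * D) := by linarith
      _ ≤ 4 * (D * (a * (E * E))) + 4 * c * (D * (a * (E * E))) := by
        have h4 : D * (a * E) ≤ D * (a * (E * E)) :=
          mul_le_mul_of_nonneg_left (mul_le_mul_of_nonneg_left hEE1 (by linarith)) hD0.le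
        have h5 : a * D ≤ D * (a * (E * E)) := by
          have h6 : a * 1 ≤ a * (E * E) := mul_le_mul_of_nonneg_left (by linarith) (by linarith)
          have h7 := mul_le_mul_of_nonneg_left h6 hD0.le
          linarith
        have h6 : 4 * c * (a * D) ≤ 4 * c * (D * (a * (E * E))) :=
          mul_le_mul_of_nonneg_left h5 (by linarith)
        linarith
      _ = (4 + 4 * c) * (D * (a * (E * E))) := by ring
      _ ≤ (C * c) * (D * (a * (E * E))) := by
        refine mul_le_mul_of_nonneg_right ?_ (by positivity)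
        rw [hCc]
        linarith
      _ = (C * (D * (E * E))) * (c * a) := by ring
  have k3 : (S.card : ℝ) * P ≤ C * (D * (E * E)) := le_of_mul_le_mul_right k2 (by positivity)
  rw [hDE, ← mul_div_assoc, le_div_iff₀ hP0]
  exact k3

end Pool.Agent.MP211W
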