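import Pool.Agent.Lib.MP_211f72_nt.W.SpecE
import Pool.Agent.Lib.MP_211f72_nt.W.NmI
import Pool.Agent.Lib.MP_211f72_nt.W.DivI

/-!
# MP_211f72_nt, third theorem: prime ideals of a split prime (`SplitP`)
-/

namespace Pool.Agent.MP211W

open Polynomial NumberField

namespace SplitP

variable {d : ℕ} {K : Type} [Field K] [NumberField K]

theorem exists_s (Q : QF d K) : ∃ s : 𝓞 K, s ^ 2 = ((d : ℕ) : 𝓞 K) ∧ Q.tO s = -s := by
  have h : IsIntegral ℤ Q.sd := by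
    refine IsIntegral.of_pow (n := 2) (by norm_num) ?_
    rw [Q.sq]
    exact isIntegral_natCast d
  obtain ⟨s, hs⟩ : ∃ s : 𝓞 K, (s : K) = Q.sd := ⟨⟨Q.sd, h⟩, rfl⟩
  refine ⟨s, ?_, ?_⟩
  · apply NumberField.RingOfIntegers.ext
    have h1 := Q.sq
    rw [← hs] at h1
    simpa using h1
  · apply NumberField.RingOfIntegers.ext
    have h1 := Q.ts
    rw [← hs] at h1
    rw [NmI.tO_coe, h1]
    simp

theorem exists_r {p : ℕ} (hp : p.Prime) (hsq : IsSquare ((d : ℕ) : ZMod p)) :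
    ∃ (r : ℕ) (k : ℤ), (d : ℤ) - (r : ℤ) ^ 2 = p * k := by
  haveI : NeZero p := ⟨hp.ne_zero⟩
  obtain ⟨c, hc⟩ := hsq
  refine ⟨c.val, ?_⟩
  have h1 : (((d : ℤ) - (c.val : ℤ) ^ 2 : ℤ) : ZMod p) = 0 := by
    push_cast
    rw [ZMod.natCast_zmod_val, hc]
    ring
  rw [ZMod.intCast_zmod_eq_zero_iff_dvd] at h1
  exact h1

/-- `p` and `m` generate the unit ideal if `p` does not divide `m` -/
theorem one_mem {p : ℕ} (hp : p.Prime) {m : ℕ} (hm : ¬ p ∣ m) (P : Ideal (𝓞 K))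
    (h1 : ((p : ℕ) : 𝓞 K) ∈ P) (h2 : ((m : ℕ) : 𝓞 K) ∈ P) : (1 : 𝓞 K) ∈ P := by
  have h3 : IsCoprime (p : ℤ) (m : ℤ) := by
    rw [Int.isCoprime_iff_gcd_eq_one, Int.gcd_natCast_natCast]
    exact (Nat.Prime.coprime_iff_not_dvd hp).mpr hm
  obtain ⟨u, v, huv⟩ := h3
  have h4 : ((u : ℤ) : 𝓞 K) * ((p : ℕ) : 𝓞 K) + ((v : ℤ) : 𝓞 K) * ((m : ℕ) : 𝓞 K) = 1 := by
    have h5 := congrArg (fun z : ℤ => (z : 𝓞 K)) huv
    push_cast at h5
    exact h5
  rw [← h4]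
  exact P.add_mem (P.mul_mem_left _ h1) (P.mul_mem_left _ h2)

end SplitP

open SplitP

/-- **SplitP.** -/
theorem wSplitP (_h1 : S_QFb) (h2 : S_NmI) : S_SplitP := by
  intro d K _ _ Q hd hd2 p hp hp2 hpd hsq
  obtain ⟨s, hs2, hts⟩ := exists_s Q
  obtain ⟨r, k, hk⟩ := exists_r hp hsq
  have hpr : ¬ p ∣ r := by
    intro h
    apply hpd
    have h3 : (p : ℤ) ∣ (d : ℤ) := by
      have h4 : (d : ℤ) = p * k + (r : ℤ) ^ 2 := by linarith
      rw [h4]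
      refine dvd_add (dvd_mul_right _ _) ?_
      exact dvd_pow (Int.natCast_dvd_natCast.mpr h) (by norm_num)
    exact Int.natCast_dvd_natCast.mp h3
  have hp2r : ¬ p ∣ 2 * r := by
    intro h
    rcases (Nat.Prime.dvd_mul hp).mp h with h | h
    · exact hp2 ((Nat.prime_dvd_prime_iff_eq hp Nat.prime_two).mp h)
    · exact hpr h
  have hkO : s ^ 2 - ((r : ℕ) : 𝓞 K) ^ 2 = ((p : ℕ) : 𝓞 K) * ((k : ℤ) : 𝓞 K) := by
    rw [hs2]
    have h5 := congrArg (fun z : ℤ => (z : 𝓞 K)) hk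
    push_cast at h5
    exact h5
  have hp0 : ((p : ℕ) : 𝓞 K) ≠ 0 := Nat.cast_ne_zero.mpr hp.ne_zero
  have hps0 : Ideal.span {((p : ℕ) : 𝓞 K)} ≠ ⊥ := by
    rw [Ne, Ideal.span_singleton_eq_bot]
    exact hp0
  -- the ideal and its conjugate
  obtain ⟨P, hP⟩ : ∃ P : Ideal (𝓞 K), P = Ideal.span {((p : ℕ) : 𝓞 K), s - ((r : ℕ) : 𝓞 K)} :=
    ⟨_, rfl⟩
  have hT : Q.tI P = Ideal.span {((p : ℕ) : 𝓞 K), -s - ((r : ℕ) : 𝓞 K)} := by
    rw [hP]
    unfold QF.tI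
    rw [Ideal.map_span, Set.image_pair, map_sub, hts, map_natCast, map_natCast]
  have hpP : ((p : ℕ) : 𝓞 K) ∈ P := by
    rw [hP]
    exact Ideal.subset_span (by simp)
  have hsP : s - ((r : ℕ) : 𝓞 K) ∈ P := by
    rw [hP]
    exact Ideal.subset_span (by simp)
  have hpT : ((p : ℕ) : 𝓞 K) ∈ Q.tI P := by
    rw [hT]
    exact Ideal.subset_span (by simp)
  have hsT : -s - ((r : ℕ) : 𝓞 K) ∈ Q.tI P := by
    rw [hT]
    exact Ideal.subset_span (by simp)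
  have hmul : P * Q.tI P = Ideal.span {((p : ℕ) : 𝓞 K)} := by
    apply le_antisymm
    · rw [Ideal.mul_le]
      intro x hx y hy
      rw [hP, Ideal.mem_span_pair] at hx
      rw [hT, Ideal.mem_span_pair] at hy
      obtain ⟨a, b, rfl⟩ := hx
      obtain ⟨a', b', rfl⟩ := hy
      rw [Ideal.mem_span_singleton]
      refine ⟨a * (a' * p + b' * (-s - r)) + b * a' * (s - r) - b * b' * k, ?_⟩
      have h6 : (s - ((r : ℕ) : 𝓞 K)) * (-s - ((r : ℕ) : 𝓞 K)) =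
          -(((p : ℕ) : 𝓞 K) * ((k : ℤ) : 𝓞 K)) := by
        rw [← hkO]
        ring
      linear_combination (b * b') * h6
    · rw [Ideal.span_singleton_le_iff_mem]
      have e1 : ((p : ℕ) : 𝓞 K) * ((p : ℕ) : 𝓞 K) ∈ P * Q.tI P := Ideal.mul_mem_mul hpP hpT
      have e2 : ((p : ℕ) : 𝓞 K) * (-s - ((r : ℕ) : 𝓞 K)) ∈ P * Q.tI P := Ideal.mul_mem_mul hpP hsT
      have e3 : (s - ((r : ℕ) : 𝓞 K)) * ((p : ℕ) : 𝓞 K) ∈ P * Q.tI P := Ideal.mul_mem_mul hsP hpT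
      have h3 : IsCoprime (p : ℤ) ((2 * r : ℕ) : ℤ) := by
        rw [Int.isCoprime_iff_gcd_eq_one, Int.gcd_natCast_natCast]
        exact (Nat.Prime.coprime_iff_not_dvd hp).mpr hp2r
      obtain ⟨u, v, huv⟩ := h3
      have h5 : ((u : ℤ) : 𝓞 K) * ((p : ℕ) : 𝓞 K) +
          ((v : ℤ) : 𝓞 K) * (2 * ((r : ℕ) : 𝓞 K)) = 1 := by
        have h6 := congrArg (fun z : ℤ => (z : 𝓞 K)) huv
        push_cast at h6
        exact h6
      have h7 : ((p : ℕ) : 𝓞 K) = ((u : ℤ) : 𝓞 K) * (((p : ℕ) : 𝓞 K) * ((p : ℕ) : 𝓞 K)) +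
          (-((v : ℤ) : 𝓞 K)) * (((p : ℕ) : 𝓞 K) * (-s - ((r : ℕ) : 𝓞 K)) +
            (s - ((r : ℕ) : 𝓞 K)) * ((p : ℕ) : 𝓞 K)) := by
        linear_combination (-((p : ℕ) : 𝓞 K)) * h5
      rw [h7]
      exact (P * Q.tI P).add_mem ((P * Q.tI P).mul_mem_left _ e1)
        ((P * Q.tI P).mul_mem_left _ ((P * Q.tI P).add_mem e2 e3))
  have hNT : Ideal.absNorm (Q.tI P) = Ideal.absNorm P := (h2 d K Q hd hd2 P).1
  have hN : Ideal.absNorm P = p := by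
    have h3 : Ideal.absNorm P * Ideal.absNorm P = p * p := by
      have h4 := congrArg Ideal.absNorm hmul
      rw [map_mul, hNT, DivI.absNorm_nat Q.rank, sq] at h4
      exact h4
    exact Nat.mul_self_inj.mp h3
  have hPp : P.IsPrime := Ideal.isPrime_of_irreducible_absNorm (by rw [hN]; exact hp)
  have hTp : (Q.tI P).IsPrime :=
    Ideal.isPrime_of_irreducible_absNorm (by rw [hNT, hN]; exact hp)
  have hP0 : P ≠ ⊥ := by
    intro h
    rw [h, Ideal.absNorm_bot] at hN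
    exact hp.ne_zero hN.symm
  have hT0 : Q.tI P ≠ ⊥ := by
    intro h
    rw [h, Ideal.absNorm_bot] at hNT
    rw [hN] at hNT
    exact hp.ne_zero hNT.symm
  have hne : Q.tI P ≠ P := by
    intro h
    have h3 : -s - ((r : ℕ) : 𝓞 K) ∈ P := by
      rw [← h]
      exact hsT
    have h4 : ((2 * r : ℕ) : 𝓞 K) ∈ P := by
      have h5 := P.neg_mem (P.add_mem h3 hsP)
      have h6 : -(-s - ((r : ℕ) : 𝓞 K) + (s - ((r : ℕ) : 𝓞 K))) = ((2 * r : ℕ) : 𝓞 K) := by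
        push_cast
        ring
      rw [h6] at h5
      exact h5
    exact hPp.ne_top ((Ideal.eq_top_iff_one _).mpr (one_mem hp hp2r P hpP h4))
  refine ⟨P, hPp, hN, hne, ?_⟩
  intro b j hb hprim hpb l hl hdvd
  by_cases hlp : l = p
  · subst hlp
    have h3 : Q.tI P ∣ b * P ^ j := by
      refine dvd_trans ?_ hdvd
      rw [← hmul]
      exact dvd_mul_left _ _
    have hTP : Prime (Q.tI P) := Ideal.prime_of_isPrime hT0 hTp
    rcases hTP.dvd_or_dvd h3 with h4 | h4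
    · apply hpb
      have h5 := map_dvd Ideal.absNorm h4
      rw [hNT, hN] at h5
      exact h5
    · have h5 := hTP.dvd_of_dvd_pow h4
      have h6 : P ≤ Q.tI P := Ideal.dvd_iff_le.mp h5
      have hPm : P.IsMaximal := hPp.isMaximal hP0
      exact hne (hPm.eq_of_le hTp.ne_top h6).symm
  · have hc : IsCoprime (Ideal.span {((l : ℕ) : 𝓞 K)}) P := by
      rw [Ideal.isCoprime_iff_sup_eq, Ideal.eq_top_iff_one]
      refine one_mem hp (m := l) ?_ _ (Ideal.mem_sup_right hpP)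
        (Ideal.mem_sup_left (Ideal.mem_span_singleton_self _))
      intro h
      exact hlp ((Nat.prime_dvd_prime_iff_eq hp hl).mp h).symm
    exact hprim l hl ((hc.pow_right (n := j)).dvd_of_dvd_mul_right hdvd)

end Pool.Agent.MP211W
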