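import Pool.Agent.Lib.MP_211f72_nt.W.MainD
import Pool.Agent.Lib.MP_211f72_nt.W.AsmE
import Pool.Agent.Lib.MP_211f72_nt.W.PrimD
import Pool.Agent.Lib.MP_211f72_nt.W.SplitP
import Pool.Agent.Lib.MP_211f72_nt.W.IdCnt
import Pool.Agent.Lib.MP_211f72_nt.W.DatR
import Pool.Agent.Lib.MP_211f72_nt.W.Coll
import Pool.Agent.Lib.MP_211f72_nt.W.Ampl
import Pool.Agent.Lib.MP_211f72_nt.W.CharS
import Pool.Agent.Lib.MP_211f72_nt.W.SplitAvg
import Pool.Agent.Lib.MP_211f72_nt.W.FiberP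
import Pool.Agent.Lib.MP_211f72_nt.W.DivC
import Pool.Agent.Lib.MP_211f72_nt.W.ClassP
import Pool.Agent.Lib.MP_211f72_nt.W.BlockS
import Pool.Agent.Lib.MP_211f72_nt.W.ClassQ
import Pool.Agent.Lib.MP_211f72_nt.W.QCovP

/-!
# MP_211f72_nt, third theorem: final assembly of the extension (part E)
-/

namespace Pool.Agent.MP211W

theorem m_SplitP : S_SplitP := wSplitP wQFb m_NmI
theorem m_IdCnt : S_IdCnt := wIdCnt wDivI
theorem m_DatR : S_DatR := wDatR wQFb m_IdB wMinkG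
theorem m_Coll : S_Coll := wColl wQFb m_NmI
theorem m_Ampl : S_Ampl := wAmpl wQFb m_NmI m_SplitP m_IdCnt m_DatR m_Coll
theorem m_SplitAvg : S_SplitAvg := wSplitAvg wCharS
theorem m_FiberP : S_FiberP := wFiberP m_Fiber
theorem m_ClassP : S_ClassP := wClassP wExQ wNear1 m_DataQ m_FiberP wPrimD wTorG
theorem m_BlockS : S_BlockS := wBlockS wNear1 m_ClassP wDivC m_Ampl m_SplitAvg
theorem m_ClassQ : S_ClassQ := wClassQ wNear1 m_BlockS
theorem m_ClassQ1 : S_ClassQ1 := wClassQ1 m_ClassA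
theorem m_QCovP : S_QCovP := wQCovP wNear1

theorem tors1 : TorsB 1 := m_Tors2 0
theorem tors2 : TorsB 2 := m_Tors2 1
theorem tors4 : TorsB 4 := m_Tors2 2
theorem tors6 : TorsB 6 := m_Tors6 1

/-- the theorem for the `n` divisible by 4 or 6 -/
theorem mainMult (n : ℕ) (hn : 4 ≤ n) (hd : 4 ∣ n ∨ 6 ∣ n) (lam : ℝ)
    (h : ((n : ℝ) + 8) / (5 * n + 4) < lam) :
    dimH {ξ : ℝ | MP_211f72_nt.lambdaExp n ξ = (lam : EReal)} =
      ENNReal.ofReal (max (2 / (n : ℝ)) (3 * (1 - lam) / ((n : ℝ) - 1)) / (1 + lam)) :=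
  level_mult m_RedW Pool.Agent.MP211V.vExpoN Pool.Agent.MP211V.vYc m_KidsW wParEx m_QCovP m_ClassQ m_ClassQ1 tors4 tors6 n hn hd lam h

/-- the theorem for large exponents, all `n ≥ 5` -/
theorem mainLarge (n l : ℕ) (hn : 5 ≤ n) (hl1 : 1 ≤ l) (hl3 : l ≤ 3) (hd : l ∣ n) (lam : ℝ)
    (h : ((n : ℝ) + 4 - l) / (3 * n - l) < lam) :
    dimH {ξ : ℝ | MP_211f72_nt.lambdaExp n ξ = (lam : EReal)} =
      ENNReal.ofReal (2 / ((n : ℝ) * (1 + lam))) := by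
  have hT : TorsB l := by
    have h3 : l = 1 ∨ l = 2 ∨ l = 3 := by omega
    rcases h3 with rfl | rfl | rfl
    · exact tors1
    · exact tors2
    · exact m_Tors3
  exact level_large m_RedW Pool.Agent.MP211V.vExpoN Pool.Agent.MP211V.vYc m_KidsW wParEx m_QCovP m_ClassQ n l hn hl1 hl3 hd hT lam h

end Pool.Agent.MP211W
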