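import Pool.Agent.Lib.MP_211f72_nt.W.SpecB

/-!
# MP_211f72_nt, third theorem: minors of the Hankel matrix of a near point (`MinB`)
-/

namespace Pool.Agent.MP211W

namespace MinB

private theorem bnd0 {n : ℕ} {Y δ ξ : ℝ} {x : ℕ → ℤ} (hY : 1 ≤ Y) (hd1 : δ ≤ 1) (h0 : 0 ≤ ξ)
    (h1 : ξ ≤ 1) (h : NrW n Y δ ξ x) (j : ℕ) (hj : j ≤ n) : |(x j : ℝ)| ≤ 2 * Y := by
  have h2 := abs_le.mp (h.2.2 j hj)
  have h3 : |(x 0 : ℝ) * ξ ^ j| ≤ Y := by
    rw [abs_mul, abs_of_nonneg (pow_nonneg h0 j)]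
    calc |(x 0 : ℝ)| * ξ ^ j ≤ Y * 1 :=
          mul_le_mul h.2.1 (pow_le_one₀ h0 h1) (pow_nonneg h0 j) (by linarith)
      _ = Y := mul_one Y
  have h4 := abs_le.mp h3
  rw [abs_le]
  constructor <;> linarith [h2.1, h2.2, h4.1, h4.2]

private theorem bnd1 {n : ℕ} {Y δ ξ : ℝ} {x : ℕ → ℤ} (h0 : 0 ≤ ξ)
    (h1 : ξ ≤ 1) (h : NrW n Y δ ξ x) (i l : ℕ) (hj : i + l ≤ n) :
    |(x (i + l) : ℝ) - ξ ^ l * (x i : ℝ)| ≤ 2 * δ := by
  have h2 := abs_le.mp (h.2.2 (i + l) hj)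
  have h3 : |ξ ^ l * ((x 0 : ℝ) * ξ ^ i - (x i : ℝ))| ≤ δ := by
    rw [abs_mul, abs_of_nonneg (pow_nonneg h0 l)]
    calc ξ ^ l * |(x 0 : ℝ) * ξ ^ i - (x i : ℝ)| ≤ 1 * δ :=
          mul_le_mul (pow_le_one₀ h0 h1) (h.2.2 i (by omega)) (abs_nonneg _) zero_le_one
      _ = δ := one_mul δ
  have h4 := abs_le.mp h3
  have h5 : (x (i + l) : ℝ) - ξ ^ l * (x i : ℝ) =
      ξ ^ l * ((x 0 : ℝ) * ξ ^ i - (x i : ℝ)) - ((x 0 : ℝ) * ξ ^ (i + l) - (x (i + l) : ℝ)) := by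
    rw [pow_add]
    ring
  rw [h5, abs_le]
  constructor <;> linarith [h2.1, h2.2, h4.1, h4.2]

end MinB

open MinB in
/-- **MinB.** -/
theorem wMinB : S_MinB := by
  intro r
  refine ⟨((r + 1).factorial : ℝ) * 2 ^ (r + 1), ?_, ?_⟩
  · have h1 : (1 : ℝ) ≤ ((r + 1).factorial : ℝ) := by
      exact_mod_cast Nat.succ_le_of_lt (Nat.factorial_pos _)
    have h2 : (1 : ℝ) ≤ 2 ^ (r + 1) := one_le_pow₀ (by norm_num)
    nlinarith
  intro n Y δ ξ x i hY hd0 hd1 h0 h1 h hi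
  set M : Matrix (Fin (r + 1)) (Fin (r + 1)) ℝ :=
    Matrix.of fun k l : Fin (r + 1) => ((x (i k + (l : ℕ)) : ℤ) : ℝ) with hM
  set B : Matrix (Fin (r + 1)) (Fin (r + 1)) ℝ :=
    Matrix.of fun l k : Fin (r + 1) => if l = 0 then ((x (i k) : ℤ) : ℝ) else
      ((x (i k + (l : ℕ)) : ℤ) : ℝ) - ξ ^ (l : ℕ) * ((x (i k) : ℤ) : ℝ) with hB
  have hdet : M.det = B.transpose.det := by
    rw [Matrix.det_transpose, ← Matrix.det_transpose M]
    refine Matrix.det_eq_of_forall_row_eq_smul_add_const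
      (fun l : Fin (r + 1) => if l = 0 then 0 else ξ ^ (l : ℕ)) 0 (if_pos rfl) ?_
    intro l k
    simp only [hM, hB, Matrix.transpose_apply, Matrix.of_apply, if_true]
    by_cases hl : l = 0
    · rw [if_pos hl, if_pos hl, hl]
      simp
    · rw [if_neg hl, if_neg hl]
      ring
  have hY0 : (0 : ℝ) ≤ 2 * Y := by linarith
  have hterm : ∀ σ : Equiv.Perm (Fin (r + 1)),
      |((Equiv.Perm.sign σ : ℤ) : ℝ) * ∏ k, B.transpose (σ k) k| ≤ 2 * Y * (2 * δ) ^ r := by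
    intro σ
    have hs : |((Equiv.Perm.sign σ : ℤ) : ℝ)| = 1 := by
      rcases Int.units_eq_one_or (Equiv.Perm.sign σ) with h2 | h2 <;> rw [h2] <;> simp
    rw [abs_mul, hs, one_mul, Finset.abs_prod, Fin.prod_univ_succ]
    refine mul_le_mul ?_ ?_ (Finset.prod_nonneg fun _ _ => abs_nonneg _) hY0
    · simp only [hB, Matrix.transpose_apply, Matrix.of_apply, if_true]
      exact bnd0 hY hd1 h0 h1 h _ (by have := hi (σ 0); omega)
    · calc ∏ k : Fin r, |B.transpose (σ k.succ) k.succ| ≤ ∏ _k : Fin r, (2 * δ) := by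
            refine Finset.prod_le_prod (fun _ _ => abs_nonneg _) ?_
            intro k _
            simp only [hB, Matrix.transpose_apply, Matrix.of_apply, if_neg (Fin.succ_ne_zero k)]
            refine bnd1 h0 h1 h _ _ ?_
            have h3 := hi (σ k.succ)
            have h4 : ((k.succ : Fin (r + 1)) : ℕ) ≤ r := by
              have := k.succ.isLt
              omega
            omega
        _ = (2 * δ) ^ r := by rw [Finset.prod_const, Finset.card_univ, Fintype.card_fin]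
  rw [hdet, Matrix.det_apply']
  calc |∑ σ : Equiv.Perm (Fin (r + 1)), ((Equiv.Perm.sign σ : ℤ) : ℝ) *
          ∏ k, B.transpose (σ k) k|
      ≤ ∑ σ : Equiv.Perm (Fin (r + 1)), |((Equiv.Perm.sign σ : ℤ) : ℝ) *
          ∏ k, B.transpose (σ k) k| := Finset.abs_sum_le_sum_abs _ _
    _ ≤ ∑ _σ : Equiv.Perm (Fin (r + 1)), 2 * Y * (2 * δ) ^ r :=
        Finset.sum_le_sum fun σ _ => hterm σ
    _ = ((r + 1).factorial : ℝ) * 2 ^ (r + 1) * (Y * δ ^ r) := by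
        rw [Finset.sum_const, Finset.card_univ, Fintype.card_perm, Fintype.card_fin,
          nsmul_eq_mul, mul_pow, pow_succ]
        ring

end Pool.Agent.MP211W
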