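import Pool.Agent.Lib.MP_211f72_nt.W.Defs

/-!
# MP_211f72_nt, third theorem: statements, part A (the class lemma)

Every statement `S_Xxx` is a `Prop`, proved in its own file (`theorem wXxx`), with the statements it uses as
hypotheses.  The complete proofs are in the docstrings.

`K` is always `ℚ(√d)`, `d ≥ 2` squarefree, with the structure `Q : QF d K` (`W/Defs.lean`): `sd = √d`,
`σ : K → ℝ` the real embedding with `σ(sd) = √d > 0`, `τ` the conjugation.  We write `z' = τ z`,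
`τ(I) = Q.tI I`.
-/

namespace Pool.Agent.MP211W

open Polynomial NumberField

/-! ## Part A1: real quadratic fields -/

/-- **ExQ.**  The field exists.

Proof.  `X² - d` is irreducible over `ℚ` (`d` is not a square).  `K = ℚ⟮√d⟯ ⊆ ℝ` (`IntermediateField.adjoin`;
`K` as a type), `σ` the inclusion; or `K = AdjoinRoot (X^2 - C d)`, or `QuadraticAlgebra ℚ d 0` (a field by its
instance, `Mathlib/Algebra/QuadraticAlgebra`), with `σ` given by the root `√d` and `τ` by the root `-sd`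
(`AdjoinRoot.lift`; both `τ ∘ τ` and the identity fix the generator).  Every element is `r + s·sd`, so `τ z = z`
gives `s·sd = 0`, `s = 0`. -/
def S_ExQ : Prop := ∀ d : ℕ, Squarefree d → 2 ≤ d →
  ∃ (K : Type) (_ : Field K) (_ : NumberField K), Nonempty (QF d K)

/-- **QFb.**  Basic facts.

Proof.  `sd` is not rational (`d` is squarefree, `≥ 2`; or: `τ sd = -sd ≠ sd`, while `τ` fixes `ℚ`), so `1, sd` is a
basis (rank 2): (1).  For `z` integral, `z + z'` and `z z'` are fixed by `τ`, hence rational, and integral (`z'` is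
integral), so they are integers `t`, `N` (`ℤ` is integrally closed): (2).  (3) `y = z - z'`, `τ y = -y`, so `y/sd` is
fixed by `τ`: `y = r·sd`, `r ∈ ℚ`; `r² d = y² = t² - 4N ∈ ℤ`, and `d` is squarefree, so `r ∈ ℤ` (if a prime `p` divides
the denominator of `r` then `p² ∣ d`).  (5) With `z = r + s·sd` the matrix of the multiplication by `z` in the basis
`1, sd` has determinant `r² - d s² = z z'` (`Algebra.norm_eq_matrix_det` or `Algebra.norm_apply`), so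
`Algebra.norm ℚ (z : K) = z z'`, and `Algebra.coe_norm_int`.  (4) from (5) and `Ideal.absNorm_span_singleton`. -/
def S_QFb : Prop := ∀ (d : ℕ) (K : Type) [Field K] [NumberField K] (Q : QF d K), Squarefree d → 2 ≤ d →
  (∀ z : K, ∃ r s : ℚ, z = (r : K) + (s : K) * Q.sd) ∧
  (∀ z : 𝓞 K, ∃ t : ℤ, (z : K) + Q.τ z = (t : K)) ∧
  (∀ z : 𝓞 K, ∃ k : ℤ, (z : K) - Q.τ z = (k : K) * Q.sd) ∧
  (∀ z : 𝓞 K, ((Ideal.absNorm (Ideal.span {z}) : ℕ) : ℝ) = |Q.σ z * Q.σ (Q.τ z)|) ∧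
  (∀ z : 𝓞 K, (z : K) * Q.τ z = ((Algebra.norm ℤ z : ℤ) : K))

/-- **NmI** (from `QFb`).  `I τ(I) = (N I)`, and `N(τ I) = N(I)`.

Proof.  The second assertion: `τ` is a ring isomorphism (`Ideal.quotientEquiv`; `absNorm` is the cardinality of the
quotient).  First: both sides are multiplicative in `I`, so it is enough to treat a nonzero prime ideal `P`
(`UniqueFactorizationMonoid.induction_on_prime`).  Let `p` be the prime number in `P` (`P ∩ ℤ = (p)`); `N((p)) = p²`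
(rank 2), `P ∣ (p)`, so `N(P) ∣ p²`, `N(P) ≠ 1`.
If `N(P) = p²` then `(p) = P P'` with `N(P') = 1`, so `P = (p) = τ(P)` and `P τ(P) = (p²)`.
If `N(P) = p` then `(p) = P P'` with `N(P') = p`, `P'` prime (`Ideal.isPrime_of_irreducible_absNorm` or similar).
`τ(P)` is prime and contains `p`, so `τ(P) = P` or `τ(P) = P'`; in the second case we are done.  Let `τ(P) = P`.
Applying `τ` to `(p) = P P'` and cancelling: `τ(P') = P'`.  If `P' ≠ P` there is `z ∈ P`, `z ∉ P'` (both are maximal).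
`z z' ∈ ℤ ∩ P = pℤ ⊆ P'`, so `z ∈ P'` or `z' ∈ P'`, i.e. `z ∈ τ(P') = P'`: contradiction.  So `P' = P = τ(P)`. -/
def S_NmI : Prop := ∀ (d : ℕ) (K : Type) [Field K] [NumberField K] (Q : QF d K), Squarefree d → 2 ≤ d →
  ∀ I : Ideal (𝓞 K), Ideal.absNorm (Q.tI I) = Ideal.absNorm I ∧
    (I ≠ ⊥ → I * Q.tI I = Ideal.span {((Ideal.absNorm I : ℕ) : 𝓞 K)})

/-- **DivI.**  The number of ideal divisors of `(m)` is at most `τ(m)²`.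

Proof.  Let `g(m)` be this number (finite: `(m) ≠ 0` has finitely many divisors).
(a) `g(m₁ m₂) ≤ g(m₁) g(m₂)`: every divisor of a product is a product of divisors
(`exists_dvd_and_dvd_of_dvd_mul`, ideals of a Dedekind domain form a decomposition monoid), and in general the
number of divisors of `I J` is at most the product of the numbers of divisors of `I` and of `J`.
(b) `g(p^k) ≤ (k+1)²` for a prime `p`: `N((p)) = p²` (`Module.finrank ℚ K = 2`, `Ideal.absNorm_span_singleton`,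
`Algebra.norm_algebraMap`), so `(p)` is a product of one or two prime ideals (each has norm `≥ 2` dividing `p²`):
`(p^k) = P₁^k P₂^k` or `P₁^k`, and the divisors of `P^k` are the `P^i`, `i ≤ k` (`dvd_prime_pow`): at most `(k+1)²`
divisors by the remark in (a).
(c) `Nat.recOnPosPrimePosCoprime` or induction over the factorisation: `g(m) ≤ ∏ (v_p(m)+1)² = τ(m)²`
(`Nat.Coprime.card_divisors_mul`, `Nat.divisors_prime_pow`). -/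
def S_DivI : Prop := ∀ (K : Type) [Field K] [NumberField K], Module.finrank ℚ K = 2 →
  ∀ m : ℕ, 1 ≤ m → {b : Ideal (𝓞 K) | b ∣ Ideal.span {((m : ℕ) : 𝓞 K)}}.Finite ∧
    {b : Ideal (𝓞 K) | b ∣ Ideal.span {((m : ℕ) : 𝓞 K)}}.ncard ≤ m.divisors.card ^ 2

/-- **Genus** (from `QFb`, `NmI`, `DivI`).  Bound for the 2-torsion of the class group.

Proof.  Let `c² = 1`, `c = [I]`, `I ≠ 0` an integral ideal (`clI_surj`), `I² = (μ)`, `μ ≠ 0` (`clI_eq_iff` for `I²`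
and the unit ideal gives `(x) I² = (y)`, so `x ∣ y`, `μ = y/x`).  Let `r = N(I) > 0` (an integer), `I τ(I) = (r)`
(`NmI`).  Multiply by `I`: `(μ) τ(I) = (r) I`.  Also `|μ μ'| = N(I)² = r²` (norms, `QFb` (4)), and `μμ' ∈ ℤ`: `μμ' = ±r²`.
Call `c` positive if this can be done with `μμ' = r²`.
(A) Let `c` be positive.  Put `κ = r + μ'` if `r + μ' ≠ 0`.  Then `J = (κ) I` is invariant: `τ(J) = (r + μ) τ(I)`, and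
`(r)(r+μ) τ(I) = (r+μ)(r)τ(I)`; from `(μ)τ(I) = (r)I` multiplied by `μ'`: `(r²)τ(I) = (r)(μ')I`, so `(r) τ(I) = (μ') I`
(cancel `(r)`), so `(r) τ(J) = (r+μ)(μ') I = (μ'r + r²) I = (r)(r+μ') I = (r) J`, and `τ(J) = J`.  If `r + μ' = 0` then `μ = -r`
and `(r)τ(I) = (r)I`: take `J = I`.  So `c = [J]` with `τ(J) = J`, `J` integral nonzero.  Let `B` be of minimal norm among
the nonzero integral ideals of class `c` with `τ(B) = B`.  Then `B` is not divisible by `(p)` for a prime number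
`p` (else `B = (p) B₁`, `τ(B₁) = B₁`, smaller norm).  Claim: `B ∣ (2 sd)`.  Every prime ideal `P ∣ B`, with `p ∈ P`: `τ(P) ∣ B`.
`P τ(P) = (N P)`, `N P = p` or `p²`.  If `τ(P) ≠ P` then `P τ(P) ∣ B` and `(p) ∣ B`: impossible.  So `τ(P) = P`,
`P² = (N P)`; `N P = p²` would give `P = (p) ∣ B`, so `N P = p`, `P² = (p)`, and `P² ∤ B`: `B` is a product of distinct
primes (`UniqueFactorizationMonoid`, `Squarefree`), and it is enough that `P ∣ (2 sd)`, i.e. `2 sd ∈ P`.  As `N(P) = p`, `𝓞/P`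
has `p` elements, so every `z` is congruent mod `P` to a rational integer `j` (the `p` residues `0, ..., p-1` are
different mod `P`), so `z' ≡ j ≡ z` mod `τ(P) = P`; for `z = sd`: `2 sd = sd - sd' ∈ P`.
As `(2 sd) ∣ (4 d)` (`(2sd)² = 4d`) the number of positive classes is at most the number of ideal divisors of `(4d)`,
`≤ τ(4d)²` (`DivI`).
(B) If `c₁, c₂` are not positive then `c₁ c₂` is positive: `I = I₁ I₂`, `μ = μ₁ μ₂`, `r = r₁ r₂` (`N` multiplicative),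
`μμ' = (-r₁²)(-r₂²) = r²`.  So fixing one such `c₁`, `c₂ ↦ c₁ c₂` injects the non positive classes into the positive
ones.  Total `≤ 2 τ(4d)²`. -/
def S_Genus : Prop := ∀ (d : ℕ) (K : Type) [Field K] [NumberField K] (_Q : QF d K), Squarefree d →
  2 ≤ d → Nat.card {c : ClassGroup (𝓞 K) // c ^ 2 = 1} ≤ 2 * (4 * d).divisors.card ^ 2

/-- **TorG.**  Torsion in finite commutative groups.

Proof.  (1) `g ↦ g^a` maps `{g^(ab) = 1}` to `{g^b = 1}` and its fibres have at most `#{g^a = 1}` elements by (2).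
(2) If `g₁^n = g₀ = g^n` then `g/g₁` is in `{g^n = 1}`. -/
def S_TorG : Prop := ∀ (G : Type) [CommGroup G] [Finite G],
  (∀ a b : ℕ, Nat.card {g : G // g ^ (a * b) = 1} ≤
    Nat.card {g : G // g ^ a = 1} * Nat.card {g : G // g ^ b = 1}) ∧
  (∀ (n : ℕ) (g₀ : G), Nat.card {g : G // g ^ n = g₀} ≤ Nat.card {g : G // g ^ n = 1})

/-- **Tors2** (from `Genus`, `TorG`).

Proof.  Induction on `k` (`TorG` (1)): `#{c^(2^k) = 1} ≤ (2 τ(4d)²)^k =: N(d)`.  `τ(m) ≤ C m^η` for all `η > 0`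
(`Pool.Agent.Lib.MP_640417_ag.All.divisor_bound` in `Pool/Agent/Lib/MP_640417_ag/All/Divisor.lean`), so
`N(d) ≤ C' d^(ε/2)` and `∑_{d ≤ X} N(d)/d ≤ C' X^(ε/2) (1 + log X) ≤ C'' X^ε` (`harmonic_le_one_add_log` or directly;
`log X ≤ (2/ε) X^(ε/2)`, `Real.log_le_rpow_div`). -/
def S_Tors2 : Prop := ∀ k : ℕ, TorsB (2 ^ k)

/-- **UnitN.**  Units modulo `n`-th powers.

Proof.  All embeddings of `K` are real (`K = ℚ(√d)`, `d > 0`: for `φ : K → ℂ`, `φ(sd)² = d > 0`, so `φ(sd)` is real, and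
every element is `r + s·sd` - this follows from `Q.rank`), there are two, so `Units.rank K = 1`, and the torsion units are
`±1` (they have real absolute value 1 under `σ`).  Dirichlet's theorem
(`NumberField.Units.exist_unique_eq_mul_prod`): `u = ± ε^e`, `e ∈ ℤ`.  With `e = n k + j`, `0 ≤ j < n`:
`u = (± ε^j)(ε^k)^n`.  `U = {± ε^j : 0 ≤ j < n}`.  (Elementary alternative: `u ↦ log |σ u|` maps the units onto a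
discrete subgroup of `ℝ`, since only finitely many algebraic integers have both conjugates bounded; a discrete
subgroup is cyclic, `AddSubgroup.cyclic_of_isolated_zero`; the kernel is `±1`.) -/
def S_UnitN : Prop := ∀ (d : ℕ) (K : Type) [Field K] [NumberField K] (_Q : QF d K), Squarefree d →
  2 ≤ d → ∀ n : ℕ, 1 ≤ n → ∃ U : Finset (𝓞 K)ˣ, U.card ≤ 2 * n ∧
    ∀ u : (𝓞 K)ˣ, ∃ u₀ ∈ U, ∃ w : (𝓞 K)ˣ, u = u₀ * w ^ n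

/-! ## Part A2: the ideals of a quadratic polynomial -/

/-- **QI** (from `QFb`, `NmI`).  The ideal `I = (a, aθ)`.

Proof.  `θ ≠ θ'` (otherwise `θ` is rational and `disc = (2aθ+b)²` is the square of a rational number, hence of an
integer).  `θ'` is a root of `aX²+bX+c` too (apply `τ`); subtracting, `a(θ+θ') + b = 0`, and then `aθθ' = -aθ² - bθ = c`.
`w = aθ` is integral: `w² + b w + a c = 0`.  So `I = (a, w)` exists (and is determined by `q, θ`); `I ≠ 0` as `a ≠ 0`.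
`I τ(I)` is generated by `a², a w', a w, w w' = a c` (`Ideal.span_pair_mul_span_pair` or `Ideal.span_mul_span`), all divisible
by `a` (in `𝓞 K`), so `I τ(I) ⊆ (a)`.  Conversely `a·a`, `a(w + w') = -a b`, `a c` are in `I τ(I)`, and `gcd(a,b,c) = 1`
gives integers with `ia + jb + kc = 1`, so `a = i a² - j(-ab) + k a c ∈ I τ(I)`.  Finally `N(I) N(τ I) = N((a)) = a²` and
`N(τ I) = N(I)` (`NmI`), so `N(I) = |a|`. -/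
def S_QI : Prop := ∀ (d : ℕ) (K : Type) [Field K] [NumberField K] (Q : QF d K), Squarefree d → 2 ≤ d →
  ∀ (q : Qd) (θ : K), q.Good → (q.a : K) * θ ^ 2 + (q.b : K) * θ + (q.c : K) = 0 →
  θ ≠ Q.τ θ ∧ (q.a : K) * (θ + Q.τ θ) = -(q.b : K) ∧ (q.a : K) * (θ * Q.τ θ) = (q.c : K) ∧
  (∃ I : Ideal (𝓞 K), IsQI q θ I) ∧
  ∀ I : Ideal (𝓞 K), IsQI q θ I → I ≠ ⊥ ∧ I * Q.tI I = Ideal.span {((q.a : ℤ) : 𝓞 K)} ∧
    Ideal.absNorm I = q.a.natAbs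

/-- **BI** (from `QFb`, `QI`).  The integral ideal `b = ψ (1,θ)^n` attached to a point of the lattice of `q`.

Proof.  `I` from `QI`, `w = aθ ∈ 𝓞 K`.  `ψ = a x_1 - w' x_0 ∈ 𝓞 K`; `ψ ≠ 0` since `x_0 ≠ 0` and `θ'` is not rational.
Claim: `ψ θ^i = a(x_{i+1} - θ' x_i)` for `0 ≤ i ≤ n-1`.  Induction: for `i + 1 ≤ n - 1`,
`aθ(x_{i+1} - θ'x_i) = aθ x_{i+1} - c x_i = aθ x_{i+1} + b x_{i+1} + a x_{i+2} = a(x_{i+2} - θ' x_{i+1})` (`aθθ' = c`, `LamQ`,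
`b = -a(θ+θ')`).  So `ψ θ^i = a x_{i+1} - w' x_i ∈ 𝓞 K`, and `ψ θ^n = θ·(a x_n - w' x_{n-1}) = w x_n - c x_{n-1} ∈ 𝓞 K`.
`I^n` is generated by the `a^(n-i) w^i = a^n θ^i`, `0 ≤ i ≤ n` (`Ideal.span_pair_pow` if present, or induction on `n`:
`span S * span T = span (S*T)`), so `(ψ) I^n` is generated by the `a^n (ψ θ^i)`, which are in `(a)^n`.  So
`(a)^n ∣ (ψ) I^n` (`Ideal.dvd_iff_le`), `(ψ) I^n = (a)^n b`, `b ≠ 0`.  Classes: `[I]^n = [b]` (`clI_mul`, principal ideals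
have class 1: `clI_eq_iff`).  Norms: `|N ψ| |a|^n = |a|^(2n) N(b)`, `|N ψ| = |σψ · σψ'|` (`QFb` (4)). -/
def S_BI : Prop := ∀ (d : ℕ) (K : Type) [Field K] [NumberField K] (Q : QF d K), Squarefree d → 2 ≤ d →
  ∀ (n : ℕ) (q : Qd) (θ : K) (x : ℕ → ℤ), 2 ≤ n → q.Good →
  (q.a : K) * θ ^ 2 + (q.b : K) * θ + (q.c : K) = 0 → LamQ n q x → x 0 ≠ 0 →
  ∃ (ψ : 𝓞 K) (I b : Ideal (𝓞 K)), (ψ : K) = (q.a : K) * ((x 1 : K) - Q.τ θ * (x 0 : K)) ∧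
    Dat n q θ ψ I b ∧ clI b = clI I ^ n ∧
    ((Ideal.absNorm b : ℕ) : ℝ) * |(q.a : ℝ)| ^ n = |Q.σ ψ * Q.σ (Q.τ ψ)|

/-- **RelI** (from `QFb`, `QI`).  Two data with the same ideal `b` and the same class of `I`.

Proof.  `clI_eq_iff`: `(x) I = (y) I₀`, `x, y ≠ 0`.  `β = x a/(y a₀)` (`a = q.a`, `a₀ = q₀.a`).
`x a ∈ (x) I = (y) I₀` so `x a = y z`, `z ∈ I₀`, `z = a₀ β`.  In the same way `x (aθ) = y z₂`, `z₂ = a₀ βθ ∈ I₀`.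
From `(ψ) I^n = (a)^n b` and `(ψ₀) I₀^n = (a₀)^n b`: `(ψ₀)(x)^n(a)^n b = (ψ₀)(x)^n(ψ) I^n = (ψ₀)(ψ)(y)^n I₀^n =
(ψ)(y)^n (a₀)^n b`; cancel `b ≠ 0`: `(ψ₀ x^n a^n) = (ψ y^n a₀^n)`, so `ψ y^n a₀^n = u ψ₀ x^n a^n` with a unit `u`
(`Ideal.span_singleton_eq_span_singleton`, associated elements), `ψ = u ψ₀ β^n`.
Norms of `(x) I = (y) I₀`: `|N x| |a| = |N y| |a₀|` (`QI`), and `|Nβ| = |N x| a²/(|N y| a₀²) = |a|/|a₀|`, where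
`|N z| = |σz σz'|` (`QFb` (4)). -/
def S_RelI : Prop := ∀ (d : ℕ) (K : Type) [Field K] [NumberField K] (Q : QF d K), Squarefree d → 2 ≤ d →
  ∀ (n : ℕ) (q q₀ : Qd) (θ θ₀ : K) (ψ ψ₀ : 𝓞 K) (I I₀ b : Ideal (𝓞 K)), 1 ≤ n →
  Dat n q θ ψ I b → Dat n q₀ θ₀ ψ₀ I₀ b → clI I = clI I₀ →
  ∃ (β : K) (u : (𝓞 K)ˣ), β ≠ 0 ∧ (ψ : K) = ((u : 𝓞 K) : K) * (ψ₀ : K) * β ^ n ∧
    (∃ z ∈ I₀, (z : K) = (q₀.a : K) * β) ∧ (∃ z ∈ I₀, (z : K) = (q₀.a : K) * β * θ) ∧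
    |Q.σ β * Q.σ (Q.τ β)| * |(q₀.a : ℝ)| = |(q.a : ℝ)|

/-! ## Part A3: lattices in the plane -/

/-- **Lat2.**  Number of points of a group of vectors in a box containing two independent ones.

Proof.  `A, B > 0` because of the two independent vectors.  Put `‖u‖ = max(|u.1|/A, |u.2|/B)`, so `‖u‖ ≤ 1` on `W`,
`|det2 u v| ≤ 2AB‖u‖‖v‖`.  `W` has at least two elements.  Choose a line containing at least two elements of `W`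
with the largest number `N ≥ 2` of elements of `W`.  These are `z_0 + r_i e`, `r_1 < ... < r_N`, with
`|r_N - r_1| ‖e‖ ≤ 2`, so some consecutive difference `v = z_{i+1} - z_i ∈ L`, `v ≠ 0`, has `‖v‖ ≤ 2/(N-1)`
(pigeonhole).  For `u ∈ W`: `|det2 v u| ≤ 4AB/(N-1)`, and two different values `det2 v u, det2 v u'` differ by
`det2 v (u-u')`, so by at least `V`: there are at most `8AB/((N-1)V) + 1` values.  The elements of `W` with a given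
value are on a line (parallel to `v`): at most `N` of them.  So `#W ≤ N(8AB/((N-1)V) + 1) ≤ 16AB/V + N`.
Some `u ∈ W` has `det2 v u ≠ 0` (two independent vectors are not both parallel to `v`), so `V ≤ 4AB/(N-1)`, and
`V ≤ 2AB` (the two independent vectors): `N ≤ 4AB/V + 1 ≤ 6AB/V`.  Total `22 AB/V`. -/
def S_Lat2 : Prop := ∀ (L : AddSubgroup (ℝ × ℝ)) (V A B : ℝ) (W : Finset (ℝ × ℝ)), 0 < V → SepL L V →
  (∀ u ∈ W, u ∈ L ∧ |u.1| ≤ A ∧ |u.2| ≤ B) → (∃ u ∈ W, ∃ v ∈ W, det2 u v ≠ 0) →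
  (W.card : ℝ) ≤ 22 * (A * B) / V

/-- **PairC** (from `Lat2`).  Counting pairs of vectors.

Proof.  `P ≠ ∅`.  Let `B₀ > 0` be the least `|p.1.1|`, `p ∈ P`.  `W = {p.1} ∪ {p.2}` (`p ∈ P`) is contained in the box
`|u.1| ≤ 2κB₀`, `|u.2| ≤ R/B₀` and contains independent vectors, so `#W ≤ 44κR/V`: at most that many first
components.  Fix `v = p.1`.  The linear map `φ(u) = (det2 v u, u.1/v.1)` has
`det2 (φ u) (φ u') = -det2 u u'` (compute), so `φ(L)` (`AddSubgroup.map`) has property `SepL` with the same `V`.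
`φ` of `{v} ∪ {p'.2 : p' ∈ P, p'.1 = v}` is in the box `|.| ≤ Z, |.| ≤ 2` (`φ(v) = (0,1)`), contains two independent
vectors, and `φ` is injective (`det2 ≠ 0`-preserving; `v.1 ≠ 0`): at most `44 Z/V` second components.  `C = 1936κ`. -/
def S_PairC : Prop := ∀ κ : ℝ, 1 ≤ κ → ∃ C : ℝ, 0 < C ∧
  ∀ (L : AddSubgroup (ℝ × ℝ)) (V R Z : ℝ) (P : Finset ((ℝ × ℝ) × (ℝ × ℝ))), 0 < V → 0 ≤ R → 0 ≤ Z →
  SepL L V →
  (∀ p ∈ P, p.1 ∈ L ∧ p.2 ∈ L ∧ p.1.1 ≠ 0 ∧ |p.2.1| ≤ 2 * |p.1.1| ∧ |p.1.1 * p.1.2| ≤ R ∧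
    |p.1.1 * p.2.2| ≤ R ∧ det2 p.1 p.2 ≠ 0 ∧ |det2 p.1 p.2| ≤ Z) →
  (∀ p ∈ P, ∀ p' ∈ P, |p.1.1| ≤ κ * |p'.1.1|) →
  (P.card : ℝ) ≤ C * (R / V) * (Z / V)

/-- **Fiber** (from `QFb`, `QI`, `RelI`, `UnitN`, `PairC`).  The number of `q` with given field, ideal `b` and class
of `I`.

Proof.  `S ≠ ∅`; fix `q₀ ∈ S` with its data `θ₀, ψ₀, I₀`, `a₀ = q₀.a`.
`L = {(σ v, σ v') : v ∈ K, a₀ v ∈ I₀}` (i.e. `∃ z ∈ I₀, z = a₀ v`) is a subgroup of `ℝ²`; `V = √d/|a₀|`.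
`SepL L V`: for `v, v₂` as above let `z = a₀ v`, `z₂ = a₀ v₂ ∈ I₀`; `z z₂' ∈ I₀ τ(I₀) = (a₀)` (`QI`), so
`z z₂' = a₀ y`, `y ∈ 𝓞 K`, i.e. `a₀ v v₂' = y`, and `y - y' = k sd`, `k ∈ ℤ` (`QFb` (3)).  The determinant is
`σ(v v₂' - v' v₂) = σ(y - y')/a₀ = k√d/a₀`.
For `q ∈ S` (data `θ, ψ, I`) let `β, u` be as in `RelI`.  By `UnitN`, `u = u₀ w^n`, `u₀ ∈ U`; replace `β` by `wβ` (`w` a unit
of `𝓞 K`): now `ψ = u₀ ψ₀ β^n`, still `a₀β, a₀βθ ∈ I₀`, and `|σβ σβ'| = |a|/|a₀|` (`|σw σw'| = 1`).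
So `S` is the union of the sets `S_u`, `u ∈ U`, `#U ≤ 2n`.  Fix `u` and let `P` be the set of the pairs
`((σβ, σβ'), (σ(βθ), σ((βθ)')))`, `q ∈ S_u`.  The pair determines `β` and `βθ` (`σ` is injective), so `θ`, so `q` up to sign
(`q` is primitive and proportional to the minimal polynomial of `θ`; or: `q₁, q₂` have the same root `θ`, which is
not rational, so `a₁ q₂ = a₂ q₁` as triples, and both are primitive): `#S_u ≤ 2 #P`.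
Check the hypotheses of `PairC` (`κ = 40`, `R = 3H/|a₀|`, `Z = √(2Δ)/|a₀|`): `|σ(βθ)| ≤ 2|σβ|`; `|σβ σβ'| = |a|/|a₀| ≤ H/|a₀|`;
`|σβ σ(βθ)'| = (|a|/|a₀|)|σθ'|` and `|a σθ'| = |b + aσθ| ≤ 3H`; the determinant is `σβ σβ' (σθ' - σθ)`, of absolute value
`(|a|/|a₀|)|σθ - σθ'| = √disc/|a₀|` (`(a(θ-θ'))² = (2aθ+b)² = disc`, as `a(θ+θ') = -b`), nonzero and `≤ √(2Δ)/|a₀|`.
`|σβ|^n = |σψ|/|σ(u ψ₀)|`, so for `q₁, q₂ ∈ S_u`: `|σβ₁|^n ≤ 40|σβ₂|^n ≤ (40|σβ₂|)^n`, `|σβ₁| ≤ 40|σβ₂|`.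
So `#P ≤ C(3H/√d)(√(2Δ)/√d)` and `#S ≤ 2n·2·#P`. -/
def S_Fiber : Prop := ∀ n : ℕ, 1 ≤ n → ∃ C : ℝ, 0 < C ∧
  ∀ (d : ℕ) (K : Type) [Field K] [NumberField K] (Q : QF d K), Squarefree d → 2 ≤ d →
  ∀ (b : Ideal (𝓞 K)) (c : ClassGroup (𝓞 K)) (H Δ lo : ℝ) (S : Finset Qd), 0 < H → 0 < Δ → 0 < lo →
  (∀ q ∈ S, (q.ht : ℝ) ≤ H ∧ 0 < q.disc ∧ (q.disc : ℝ) ≤ 2 * Δ ∧
    ∃ (θ : K) (ψ : 𝓞 K) (I : Ideal (𝓞 K)), Dat n q θ ψ I b ∧ clI I = c ∧ |Q.σ θ| ≤ 2 ∧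
      lo ≤ |Q.σ ψ| ∧ |Q.σ ψ| ≤ 40 * lo) →
  (S.card : ℝ) ≤ C * (H * Real.sqrt Δ / d)

/-! ## Part A4: near points -/

/-- **Near1.**  The roots of a quadratic polynomial with a near point.

Proof.  `ht q ≥ 1` (`a ≠ 0`), so `H ≥ 1`; `Y ≥ 100 H² δ`.  `LamQ` for `i = 0`:
`x_0 q(ξ) = b(x_0ξ - x_1) + a(x_0ξ² - x_2)`, so `|q(ξ)| ≤ 2Hδ/|x_0| ≤ 4Hδ/Y`.  `(2aξ+b)² = disc + 4a q(ξ)`, so
`disc ≥ -4|a||q(ξ)| ≥ -16H²δ/Y > -1`, `disc ≥ 0`, and `disc ≠ 0` (0 is a square): `disc > 0`: (1).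
(2) Let `θ₁, θ₂` be the roots `(-b ± √disc)/(2a)`, numbered with `|ξ-θ₁| ≤ |ξ-θ₂|`; `|a||θ₁-θ₂| = √disc`,
`|ξ-θ₂| ≥ |θ₁-θ₂|/2`, so `|ξ-θ₁| = |q(ξ)|/(|a||ξ-θ₂|) ≤ (4Hδ/Y)(2/√disc)`.  As `√disc ≥ 1` and `Hδ ≤ H²δ ≤ Y/100`:
`|ξ-θ₁| ≤ 8/100`, `|θ₁| ≤ 2`.  `|a||ξ-θ₂| ≥ √disc/2` and `≤ √disc + |a||ξ-θ₁| ≤ √disc + 8H²δ/Y ≤ 1.08√disc`.
`a(x_1 - θ₂x_0) = a x_0(ξ-θ₂) - a(x_0ξ-x_1)`, and `|a(x_0ξ-x_1)| ≤ Hδ ≤ Y/100`: so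
`|a(x_1-θ₂x_0)| ≥ (Y/2)√disc/2 - Y/100 ≥ Y√disc/8 ≥ Y√Δ/8` and `≤ 1.08Y√disc + Y/100 ≤ 1.1 Y√(2Δ) ≤ 5Y√Δ`. -/
def S_Near1 : Prop :=
  (∀ (n : ℕ) (Y δ H ξ : ℝ) (q : Qd) (x : ℕ → ℤ), 2 ≤ n → 0 < δ → 100 * (H ^ 2 * δ) ≤ Y → q.Good →
    (q.ht : ℝ) ≤ H → 0 ≤ ξ → ξ ≤ 1 → NrW n Y δ ξ x → LamQ n q x → 0 < q.disc) ∧
  (∀ (n : ℕ) (Y δ H Δ ξ : ℝ) (q : Qd) (x : ℕ → ℤ), 2 ≤ n → 0 < δ → 100 * (H ^ 2 * δ) ≤ Y →
    NQ n Y δ H Δ q ξ x →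
    ∃ θ₁ θ₂ : ℝ, (∀ t : ℝ, q.ev t = q.a * (t - θ₁) * (t - θ₂)) ∧
      |(q.a : ℝ) * (θ₁ - θ₂)| = Real.sqrt q.disc ∧
      |ξ - θ₁| ≤ 8 * H * δ / (Y * Real.sqrt q.disc) ∧ |θ₁| ≤ 2 ∧
      Real.sqrt Δ * Y / 8 ≤ |(q.a : ℝ) * ((x 1 : ℝ) - θ₂ * (x 0 : ℝ))| ∧
      |(q.a : ℝ) * ((x 1 : ℝ) - θ₂ * (x 0 : ℝ))| ≤ 5 * (Real.sqrt Δ * Y))

/-- **Near2.**  The bound for the norm.

Proof.  `ψ₁ = a(x_1 - θ₂x_0)`, `ψ₂ = a(x_1 - θ₁x_0)`.  `b = -a(θ₁+θ₂)`, `c = aθ₁θ₂` (compare `q.ev` at three points).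
For `0 ≤ i ≤ n-1`: `ψ₂θ₂^i = a(x_{i+1} - θ₁x_i)` (induction with `LamQ`:
`aθ₂(x_{i+1} - θ₁x_i) = aθ₂x_{i+1} - c x_i = aθ₂ x_{i+1} + b x_{i+1} + a x_{i+2} = a(x_{i+2} - θ₁x_{i+1})`), and
`ψ₂θ₂^n = aθ₂(x_n - θ₁x_{n-1})`, `|aθ₂| = |b + aθ₁| ≤ 3H`.  Moreover
`|x_{i+1} - θ₁x_i| ≤ |x_{i+1} - x_0ξ^(i+1)| + |x_0ξ^i||ξ-θ₁| + |θ₁||x_0ξ^i - x_i| ≤ 3δ + 8Hδ/√disc ≤ 17Hδ/√disc`
(`√disc ≤ 3H`, as `disc ≤ 5H²`).  So `|ψ₂θ₂^i| ≤ E := 51H²δ/√disc` for `0 ≤ i ≤ n`.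
Let `(s,t)` be one of `(1,0), (0,1), (1,1), (1,-1)`.  Binomial expansion: `|ψ₂(s-tθ₂)^n| ≤ 2^n E`; `|s-tθ₁| ≤ 3`, so
`|ψ₁(s-tθ₁)^n| ≤ 3^n·5√Δ Y`.  `a(s-tθ₁)(s-tθ₂) = as²+bst+ct² =: q(s,t)`.  So
`|ψ₁ψ₂| |q(s,t)|^n ≤ 6^n·255 H²δY |a|^n` (`√Δ ≤ √disc`).  One of the four values `a, c, a+b+c, a-b+c` is at least
`ht q ≥ H/2` in absolute value (`2b = (a+b+c) - (a-b+c)`).  So `|ψ₁ψ₂| H^n ≤ 12^n·255·(Yδ)H²|a|^n`. -/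
def S_Near2 : Prop := ∀ n : ℕ, 2 ≤ n → ∃ C : ℝ, 0 < C ∧
  ∀ (Y δ H Δ ξ θ₁ θ₂ : ℝ) (q : Qd) (x : ℕ → ℤ), 0 < δ → 100 * (H ^ 2 * δ) ≤ Y →
  NQ n Y δ H Δ q ξ x → 0 < q.disc → (∀ t : ℝ, q.ev t = q.a * (t - θ₁) * (t - θ₂)) →
  |ξ - θ₁| ≤ 8 * H * δ / (Y * Real.sqrt q.disc) → |θ₁| ≤ 2 →
  |(q.a : ℝ) * ((x 1 : ℝ) - θ₂ * (x 0 : ℝ))| ≤ 5 * (Real.sqrt Δ * Y) →
  |(q.a : ℝ) * ((x 1 : ℝ) - θ₂ * (x 0 : ℝ))| * |(q.a : ℝ) * ((x 1 : ℝ) - θ₁ * (x 0 : ℝ))| * H ^ n ≤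
    C * ((Y * δ) * H ^ 2 * |(q.a : ℝ)| ^ n)

/-- **DataQ** (from `Near1`, `Near2`, `QI`, `BI`).  The data of a quadratic polynomial with a near point.

Proof.  `θ_± = (-b ± f sd)/(2a) ∈ K` are roots of `q` (`(2aθ+b)² = f²d = disc`), and `σθ_±` are the two real roots
`θ₁, θ₂` of `Near1` in some order (`q.ev` has only these two zeros, and they are different).  Let `θ` be the one with
`σθ = θ₁`; then `σθ' = θ₂` (`τ(θ_+) = θ_-`).  `x_0 ≠ 0` (`|x_0| ≥ Y/2 > 0`).  `BI`: `ψ, I, b`; `σψ = a(x_1 - θ₂x_0)`,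
`σψ' = a(x_1 - θ₁x_0)`.  The bounds for `|σψ|` are those of `Near1`; and
`N(b)|a|^n H^n = |σψ σψ'| H^n ≤ C(Yδ)H²|a|^n` (`Near2`), divide by `|a|^n H²` (`H ≥ 1`). -/
def S_DataQ : Prop := ∀ n : ℕ, 2 ≤ n → ∃ C : ℝ, 0 < C ∧
  ∀ (d : ℕ) (K : Type) [Field K] [NumberField K] (Q : QF d K), Squarefree d → 2 ≤ d →
  ∀ (Y δ H Δ ξ : ℝ) (q : Qd) (x : ℕ → ℤ) (f : ℕ), 0 < δ → 100 * (H ^ 2 * δ) ≤ Y →
  NQ n Y δ H Δ q ξ x → q.disc = (f : ℤ) ^ 2 * (d : ℤ) →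
  ∃ (θ : K) (ψ : 𝓞 K) (I b : Ideal (𝓞 K)), Dat n q θ ψ I b ∧ clI b = clI I ^ n ∧ |Q.σ θ| ≤ 2 ∧
    Real.sqrt Δ * Y / 8 ≤ |Q.σ ψ| ∧ |Q.σ ψ| ≤ 5 * (Real.sqrt Δ * Y) ∧
    ((Ideal.absNorm b : ℕ) : ℝ) * H ^ (n - 2) ≤ C * (Y * δ)

/-! ## Part A5: counting quadratic polynomials with a near point -/

/-- **ClassD** (from `ExQ`, `Near1`, `DataQ`, `Fiber`, `DivI`, `TorG`).  The polynomials of one field.

Proof.  `ExQ`: `K, Q`.  `S ≠ ∅`, so `Δ > 0` (`0 < disc ≤ 2Δ`, `Near1` (1)).  For `q ∈ S` choose data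
`θ, ψ, I, b` (`DataQ`, constant `C₂`) and map `q ↦ (b, clI I)`.  Each fibre has at most `C₁ H√Δ/d` elements (`Fiber` with
`lo = √Δ Y/8`).  The image is contained in the set of the pairs `(b, c)`, `b ≠ 0`, `N(b) ≤ M := C₂ Yδ/H^(n-2)`,
`c^n = clI b`.  `N(b) = m` implies `b ∣ (m)` (`Ideal.absNorm_mem`), so there are at most `τ(m)²` such `b` (`DivI`), and for
each of them at most `N` classes `c` (`TorG` (2) and `TB`; `ClassGroup (𝓞 K)` is finite).  So the image has at most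
`N ∑_{1 ≤ m ≤ M} τ(m)² ≤ N·M·C_η² M^(2η)` elements (divisor bound `τ(m) ≤ C_η m^η`,
`Pool.Agent.Lib.MP_640417_ag.All.divisor_bound`; the sum is empty if `M < 1`), and `M ≤ C₂Y`; take `2η = ε`. -/
def S_ClassD : Prop := ∀ n : ℕ, 2 ≤ n → ∀ ε : ℝ, 0 < ε → ∃ C : ℝ, 0 < C ∧
  ∀ (d N : ℕ), Squarefree d → 2 ≤ d → TB n d N →
  ∀ (Y δ H Δ : ℝ) (S : Finset Qd), 1 ≤ Y → 1 ≤ H → 0 < δ → δ ≤ 1 → 100 * (H ^ 2 * δ) ≤ Y →
  (∀ q ∈ S, (∃ f : ℕ, q.disc = (f : ℤ) ^ 2 * (d : ℤ)) ∧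
    ∃ (ξ : ℝ) (x : ℕ → ℤ), NQ n Y δ H Δ q ξ x) →
  (S.card : ℝ) ≤ C * Y ^ ε * N * (Y * δ / H ^ (n - 2)) * (H * Real.sqrt Δ / d)

/-- **ClassA** (from `Near1`, `ClassD`).  All quadratic polynomials.

Proof.  Let `q ∈ S`: `disc > 0` (`Near1` (1)), not a square, `disc = f²d` with `d` squarefree (`Nat.sq_mul_squarefree`),
`d ≥ 2`, `d ≤ disc ≤ 2Δ`; and `Δ ≤ disc ≤ 5H² ≤ 5Y²`.  `X = ⌊2Δ⌋` (`≥ 1` if `S ≠ ∅`), `N` from `TorsB n` with `ε/4`.  `S` is the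
union of the `S_d`, and by `ClassD` (with `ε/2`)
`#S ≤ ∑_{d ≤ X} C Y^(ε/2) N(d)(Yδ/H^(n-2))H√Δ/d ≤ C C' Y^(ε/2)(10Y²)^(ε/4)(Yδ/H^(n-2))H√Δ`. -/
def S_ClassA : Prop := ∀ n : ℕ, 2 ≤ n → TorsB n → ∀ ε : ℝ, 0 < ε → ∃ C : ℝ, 0 < C ∧
  ∀ (Y δ H Δ : ℝ) (S : Finset Qd), 1 ≤ Y → 1 ≤ H → H ≤ Y → 0 < δ → δ ≤ 1 → 100 * (H ^ 2 * δ) ≤ Y →
  (∀ q ∈ S, ∃ (ξ : ℝ) (x : ℕ → ℤ), NQ n Y δ H Δ q ξ x) →
  (S.card : ℝ) ≤ C * Y ^ ε * (Y * δ / H ^ (n - 2)) * (H * Real.sqrt Δ)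

/-- **QCov** (from `Near1`, `ClassA`).  Cover of the exceptional set.

Proof.  `δ = (Y/2)^(-λ)`, `κ = s(1+λ) - 3(1-λ)/(n-1) > 0`, `Y` large.  Let `ξ ∈ Exc`, with `q, x`, `H' = ht q ≥ 1`,
`H'^(n-1) ≥ Yδ`, `H'^(n-2) ≤ C₀Yδ`.  Let `H = 2^u`, `H' ≤ H < 2H'`.  `H² ≤ H^(n-2)·1 ≤ 2^n C₀Yδ` (`n ≥ 4`, `H ≥ 1`), so
`100H²δ ≤ 100·2^n C₀ Yδ² ≤ Y` and `H ≤ Y` for large `Y`.  `disc > 0` (`Near1` (1)); let `Δ = 2^v ≤ disc < 2Δ`, `v ≥ 0`,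
`Δ ≤ 5H'² ≤ 5H²`.  So `NQ n Y δ H Δ q ξ x`.  Let `S(u,v)` be the finite set of the `q` with `NQ n Y δ H Δ q ξ x` for some
`ξ, x` (`ht q ≤ H`), for those `(u,v)` with `H^(n-1) ≥ Yδ`, `H^(n-2) ≤ 2^n C₀Yδ`, `Δ ≤ 5H²`: at most `C(1+log Y)²`
pairs.  `T(u,v)` = the pairs `(θ, ρ)`, `θ` a real root of some `q ∈ S(u,v)` (at most 2 roots), `ρ = 8Hδ/(Y√Δ)`.  By `Near1` (2)
`ξ` is covered (`√disc ≥ √Δ`).  By `ClassA` with `ε' = κ/4`: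
`∑_{T(u,v)} ρ^s ≤ 2C Y^(ε')(Yδ/H^(n-2)) H√Δ (8Hδ/(Y√Δ))^s ≤ C' Y^(ε')(Yδ)H^(4-n)(δ/Y)^s`
(`√Δ^(1-s) ≤ (3H)^(1-s)`), and `H^(4-n) ≤ (Yδ)^(-(n-4)/(n-1))`, so this is `≤ C' Y^(ε')(Yδ)^(3/(n-1))(δ/Y)^s
≤ C'' Y^(ε' - κ)` (`Yδ = 2^λ Y^(1-λ)`, `δ/Y = 2^λ Y^(-1-λ)`).  Total `≤ C'''(1+log Y)² Y^(-3κ/4) ≤ Y^(-κ/2)`. -/
def S_QCov : Prop := ∀ (n : ℕ) (lam s C₀ : ℝ), 4 ≤ n → TorsB n → 0 < lam → 0 < s → s ≤ 1 → 1 ≤ C₀ →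
  3 * (1 - lam) / ((n : ℝ) - 1) < s * (1 + lam) → ∃ ε Y₀ : ℝ, 0 < ε ∧ 2 ≤ Y₀ ∧
  ∀ Y : ℝ, Y₀ ≤ Y → CovW s (Y ^ (-ε)) (Exc n Y ((Y / 2) ^ (-lam)) C₀)

end Pool.Agent.MP211W
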