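import Pool.Agent.Lib.MP_211f72_nt.W.Defs

/-!
# MP_211f72_nt, third theorem: statements, part B (the upper bound)

Every statement `S_Xxx` is a `Prop`, proved in its own file (`theorem wXxx`), with the statements it uses as
hypotheses.  Statements of `Pool/Agent/Lib/MP_211f72_nt/V/Spec.lean` are written `V.S_Xxx`
(`Pool.Agent.MP211V.S_Xxx`); they are all proved, and may be used as hypotheses in the same way.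
The complete proofs are in the docstrings.
-/

namespace Pool.Agent.MP211W

open Polynomial NumberField
open Pool.Agent.MP211V (rp tc Hb Sl Mx)

/-! ## Part B1: the recurrence of a near point -/

/-- **MinB.**  Minors of the Hankel matrix of a near point.

Proof.  Subtract `ξ^l` times column 0 from column `l`, for `l = 1, ..., r` (the determinant does not change; or
write the matrix as a product with a unitriangular matrix).  New entries: `|x_{i_k}| ≤ |x_0| + δ ≤ 2Y` in column 0 and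
`|x_{i_k+l} - ξ^l x_{i_k}| ≤ |x_{i_k+l} - x_0ξ^(i_k+l)| + |ξ^l||x_0ξ^(i_k) - x_{i_k}| ≤ 2δ` in column `l ≥ 1`.  Expand
(`Matrix.det_apply`): `(r+1)!` products, each `≤ 2Y(2δ)^r`. -/
def S_MinB : Prop := ∀ r : ℕ, ∃ C : ℝ, 1 ≤ C ∧
  ∀ (n : ℕ) (Y δ ξ : ℝ) (x : ℕ → ℤ) (i : Fin (r + 1) → ℕ), 1 ≤ Y → 0 < δ → δ ≤ 1 → 0 ≤ ξ → ξ ≤ 1 →
  NrW n Y δ ξ x → (∀ k, i k + r ≤ n) →
  |(Matrix.of fun k l : Fin (r + 1) => ((x (i k + (l : ℕ)) : ℤ) : ℝ)).det| ≤ C * (Y * δ ^ r)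

/-- **Hank** (from `MinB`).

Proof.  Consider the vectors `c_l = (x_{i+l})_{0 ≤ i ≤ n-r} ∈ ℚ^(n-r+1)`, `l = 0, ..., r`.  If they are linearly independent
over `ℚ` then the matrix `(x_{i+l})_{i,l}` has rank `r+1`, so it has `r+1` linearly independent rows `i_0, ..., i_r`
(`Matrix.rank`, row rank = column rank; e.g. choose a maximal linearly independent subfamily of the rows,
`exists_linearIndependent`), and the minor of these rows is a nonzero integer, so it is at least 1 in absolute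
value, while it is `≤ C Y δ^r < 1` by `MinB` (same `C`).  So they are dependent: `∑_l q_l c_l = 0` with rational numbers `q_l`,
not all zero; multiply by a common denominator.  `q = ∑_l q_l X^l`. -/
def S_Hank : Prop := ∀ r : ℕ, ∃ C : ℝ, 1 ≤ C ∧
  ∀ (n : ℕ) (Y δ ξ : ℝ) (x : ℕ → ℤ), r ≤ n → 1 ≤ Y → 0 < δ → δ ≤ 1 → 0 ≤ ξ → ξ ≤ 1 →
  NrW n Y δ ξ x → C * (Y * δ ^ r) < 1 → ∃ q : ℤ[X], q ≠ 0 ∧ Ann n r x q

/-- **GelH.**  Gelfond's inequality for two factors.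

Proof.  In `Pool/Agent/Lib/MP_211f72_nt/V/Gel.lean` there are the ingredients: the Mahler measure is multiplicative,
`|P_j| ≤ (deg P choose j) M(P)` (`coeff_le`), and `M(P) ≤ ∑_k |P_k| ≤ (deg P + 1) max |P_k|` (`mm_le`,
`sum_coeff_le`).  So `|f_i||g_j| ≤ 4^n M(f)M(g) = 4^n M(fg) ≤ 4^n (2n+1) B`. -/
def S_GelH : Prop := ∀ n : ℕ, ∃ C : ℝ, 1 ≤ C ∧ ∀ (f g : ℤ[X]) (B : ℝ), f.natDegree ≤ n →
  g.natDegree ≤ n → Hb (f * g) B →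
  ∀ i j : ℕ, |((f.coeff i : ℤ) : ℝ)| * |((g.coeff j : ℤ) : ℝ)| ≤ C * B

/-- **GelP.**  The same for several factors, and the trivial converse.

Proof.  (1) As `GelH`: `∏ h_i ≤ ∏ 2^(d_i) M(F_i) ≤ 2^n M(∏ F_i) ≤ 2^n (n+1) B` (`m ≤ n` as all degrees are `≥ 1`).
(2) Let `‖P‖₁ = ∑_k |P_k|`, submultiplicative; `‖F_i‖₁ ≤ (d_i+1) h_i`, `∏ (d_i+1) ≤ 2^(∑ d_i) ≤ 2^n`.  (Induction over
`m`: a coefficient of `f g` is `∑_{k+l=j} f_k g_l`.) -/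
def S_GelP : Prop := ∀ n : ℕ, ∃ C : ℝ, 1 ≤ C ∧ ∀ (m : ℕ) (F : Fin m → ℤ[X]) (h : Fin m → ℝ) (B : ℝ),
  (∀ i, 1 ≤ (F i).natDegree) → ∑ i, (F i).natDegree ≤ n → (∀ i, 0 ≤ h i) →
  ((∀ i, ∃ j : ℕ, h i ≤ |(((F i).coeff j : ℤ) : ℝ)|) → Hb (∏ i, F i) B → ∏ i, h i ≤ C * B) ∧
  ((∀ i, Hb (F i) (h i)) → Hb (∏ i, F i) (C * ∏ i, h i))

/-- **HBk.**  The kernel of the transposed Hankel matrix.

Proof.  Over `ℚ`: let `V` be the space of the polynomials of degree `≤ n-r+1`, `dim V = n-r+2`, and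
`M : V → ℚ^r`, `(M p)_i = ∑_{j ≤ n-r+1} p_j x_{i+j}`, `0 ≤ i ≤ r-1`.  `M` is surjective: otherwise there is
`c ∈ ℚ^r`, `c ≠ 0`, with `∑_i c_i (M p)_i = 0` for all `p`, i.e. `∑_{i ≤ r-1} c_i x_{i+j} = 0` for all `j ≤ n-r+1`; after
multiplication by a common denominator this is a nonzero `p` with `Ann n (r-1) x p`, excluded.  So
`dim ker M = n-2r+2`.  For `g` of degree `≤ n-2r+1`, `q g` has degree `≤ n-r+1` and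
`(M(qg))_i = ∑_k g_k ∑_l q_l x_{i+k+l} = 0` (`i+k+r ≤ n`), so `q·{g : deg g ≤ n-2r+1} ⊆ ker M`, with equality because
both have dimension `n-2r+2` (`q ≠ 0`; `Submodule.eq_of_le_of_finrank_eq`).  Let `p` be as in the statement; it is in
`ker M`, so `p = q g` with `g ∈ ℚ[X]`, `deg g ≤ n-2r+1`.  As `q` is primitive, `g ∈ ℤ[X]` (Gauss:
`Polynomial.IsPrimitive.Int.dvd_iff_map_cast_dvd_map_cast` gives `q ∣ p` in `ℤ[X]`, and the quotient is the same `g`).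
(Another way to the same: work with `Fin (n-r+2) → ℚ` and `Matrix.rank`.) -/
def S_HBk : Prop := ∀ (n r : ℕ) (x : ℕ → ℤ) (q : ℤ[X]), 1 ≤ r → 2 * r ≤ n → q.IsPrimitive →
  Ann n r x q → (∀ p : ℤ[X], p ≠ 0 → ¬ Ann n (r - 1) x p) →
  ∀ p : ℤ[X], Ann n (n - r + 1) x p → ∃ g : ℤ[X], p = q * g ∧ g.natDegree ≤ n - 2 * r + 1

/-- **HB** (from `GelH`, `HBk`).  The height of the minimal recurrence.

Proof.  `N = n-r+2`, `K = n-2r+2 = N - r`.  Let `H = max_j |q_j| ≥ 1`; it is enough to bound `H^K`.  Let `P` be a large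
integer (`P ≥ H`, `Pδ ≥ 1`).  For `p ∈ {0, ..., P}^N` (polynomials of degree `≤ N-1 = n-r+1`) let `z_i = ∑_j p_j x_{i+j}`,
`0 ≤ i ≤ r-1`.  `|x_j| ≤ Y + δ ≤ 2Y`, so `|z_0| ≤ 2NPY`; `|x_{i+j} - ξ^i x_j| ≤ 2δ`, so `|z_i - ξ^i z_0| ≤ 2NPδ`.  So
`z_0` takes at most `4NPY + 1 ≤ 5NPY` values and, given `z_0`, `z_i` takes at most `4NPδ + 1 ≤ 5NPδ` values
(`1 ≤ i ≤ r-1`): at most `(5N)^r P^r Y δ^(r-1)` vectors `z`.  By the pigeonhole principle one of them is the image of at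
least `(P+1)^N/((5N)^r P^r Y δ^(r-1))` elements `p`; fix one of these, `p₀`; all `p - p₀` satisfy `Ann n (n-r+1) x (p-p₀)` and
have coefficients `≤ P` in absolute value.  By `HBk`, `p - p₀ = q g`, `g` of degree `≤ K-1`, and by `GelH` (constant `C₁`)
`|g_l| ≤ C₁P/H`: at most `(2C₁P/H + 1)^K ≤ (3C₁P/H)^K` polynomials `g` (`P ≥ H`).  So
`P^N ≤ (5N)^r P^r Y δ^(r-1) (3C₁P/H)^K`, and `N = r + K`: `H^K ≤ (5N)^r (3C₁)^K Y δ^(r-1)`. -/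
def S_HB : Prop := ∀ n r : ℕ, 1 ≤ r → 2 * r ≤ n → ∃ C : ℝ, 1 ≤ C ∧
  ∀ (Y δ ξ : ℝ) (x : ℕ → ℤ) (q : ℤ[X]), 1 ≤ Y → 0 < δ → δ ≤ 1 → 0 ≤ ξ → ξ ≤ 1 → NrW n Y δ ξ x →
  q.IsPrimitive → Ann n r x q → (∀ p : ℤ[X], p ≠ 0 → ¬ Ann n (r - 1) x p) →
  ∀ j : ℕ, |((q.coeff j : ℤ) : ℝ)| ^ (n - 2 * r + 2) ≤ C * (Y * δ ^ (r - 1))

/-- **Str** (from `Hank`, `HB`).  The structure of a near point.

Proof.  `δ ≤ 1`, `δ → 0`.  `Y δ^R = 2^(λR) Y^(1-λR) → 0`, so for `Y ≥ Y₀` `Hank` gives a nonzero `q` with `Ann n R x q`.  Let `r` be the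
least natural number for which there is a nonzero `q` with `Ann n r x q` (`Nat.find`), `r ≤ R`.  `r ≥ 1`: for `r = 0`, `q` is a
nonzero constant and `q x_0 = 0`, but `x_0 ≠ 0`.  Dividing `q` by its content (`Polynomial.primPart`) we may assume `q`
primitive.  If `q` has degree 0 then `q_0 x_0 = 0` (`i = 0`), impossible.  `H = max_j |q_j|`.  `HB` (its hypothesis holds by
minimality of `r`; take the maximum of the constants for `1 ≤ r ≤ R`).  Finally (`i = 0`)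
`x_0 q(ξ) = ∑_{j ≤ r} q_j (x_0ξ^j - x_j)`, so `|q(ξ)| ≤ (r+1)Hδ/|x_0| ≤ 2(R+1)Hδ/Y`. -/
def S_Str : Prop := ∀ (n R : ℕ) (lam : ℝ), 4 ≤ n → 1 ≤ R → 2 * R ≤ n → 0 < lam → 1 < R * lam →
  ∃ C Y₀ : ℝ, 1 ≤ C ∧ 2 ≤ Y₀ ∧
  ∀ (Y δ ξ : ℝ) (x : ℕ → ℤ), Y₀ ≤ Y → δ = (Y / 2) ^ (-lam) → 0 ≤ ξ → ξ ≤ 1 → NrW n Y δ ξ x →
  ∃ (r : ℕ) (q : ℤ[X]) (H : ℝ), 1 ≤ r ∧ r ≤ R ∧ q.IsPrimitive ∧ 1 ≤ q.natDegree ∧ Ann n r x q ∧
    Hb q H ∧ (∃ j : ℕ, |((q.coeff j : ℤ) : ℝ)| = H) ∧ 1 ≤ H ∧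
    H ^ (n - 2 * r + 2) ≤ C * (Y * δ ^ (r - 1)) ∧ |(rp q).eval ξ| ≤ C * (H * δ / Y)

/-- **FacW** (from `GelP`, `V.S_Fact`).  The factors of a primitive polynomial.

Proof.  `V.S_Fact`: `q = C k * ∏ F_i`, `F_i` irreducible of degree `≥ 1`; `k = ±1` (`k` divides the content).
`m ≤ ∑ deg F_i = deg q ≤ R`, `m ≥ 1`.  Let `H_i = max_j |coeff_j F_i| ≥ 1` and `u_i` minimal with `2^(u_i) ≥ H_i`, so
`2^(u_i) < 2H_i` or `u_i = 0`, in both cases `2^(u_i) ≤ 2H_i`.  By `GelP` (1): `∏ H_i ≤ C H`, so `∏ 2^(u_i) ≤ 2^R C H`; by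
`GelP` (2) `H ≤ C ∏ 2^(u_i)`. -/
def S_FacW : Prop := ∀ R : ℕ, 1 ≤ R → ∃ C : ℝ, 1 ≤ C ∧ ∀ (q : ℤ[X]) (H : ℝ), q.IsPrimitive →
  1 ≤ q.natDegree → q.natDegree ≤ R → Hb q H → (∃ j : ℕ, |((q.coeff j : ℤ) : ℝ)| = H) →
  ∃ (m : ℕ) (F : Fin m → ℤ[X]) (u : Fin m → ℕ), 1 ≤ m ∧ m ≤ R ∧
    (q = ∏ i, F i ∨ q = -∏ i, F i) ∧
    (∀ i, Irreducible (F i) ∧ 1 ≤ (F i).natDegree ∧ Hb (F i) (2 ^ u i) ∧
      ∃ j : ℕ, (2 : ℝ) ^ u i ≤ 2 * |(((F i).coeff j : ℤ) : ℝ)|) ∧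
    ∑ i, (F i).natDegree = q.natDegree ∧ ∏ i, (2 : ℝ) ^ u i ≤ C * H ∧ H ≤ C * ∏ i, (2 : ℝ) ^ u i

/-! ## Part B2: the cost of the small values of irreducible polynomials -/

/-- **R2.**  Bound for the resultant of polynomials of degrees `d`, `d-1` with small low coefficients.

Proof.  As `Pool/Agent/Lib/MP_211f72_nt/V/R3.lean` (which may be copied).  `resultant f g d (d-1)` is the determinant of
the Sylvester matrix of size `2d-1 ≥ 3`: every column is a shifted coefficient vector of `f` (`d-1` columns) or of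
`g` (`d` columns), the shifts being `0, 1, 2, ...`.  Expand (`(2d-1)!` products, one entry from each row, in different
columns).  Row 0: nonzero entries only in the first column of either block: `f_0` or `g_0`.  Row 1: in the first
columns `f_1`, `g_1`, in the second ones `f_0`, `g_0`.  If row 0 uses `f_0` then row 1 uses `f_0`, `g_1` or `g_0`, and the product
of the two entries is `≤ e₀e₂` (`e₀ ≤ e₁ ≤ e₂`).  If row 0 uses `g_0` then row 1 uses `f_1`, `f_0` or `g_0`: `≤ e₁²`.  The other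
`2d-3` entries are `≤ h`.  `C = (2d-1)!`. -/
def S_R2 : Prop := ∀ d : ℕ, 2 ≤ d → ∃ C : ℝ, 0 < C ∧ ∀ (f g : ℝ[X]) (e₀ e₁ e₂ h : ℝ),
  0 ≤ e₀ → e₀ ≤ e₁ → e₁ ≤ e₂ → 0 ≤ h → (∀ i : ℕ, |f.coeff i| ≤ h ∧ |g.coeff i| ≤ h) →
  |f.coeff 0| ≤ e₀ → |f.coeff 1| ≤ e₁ → |g.coeff 0| ≤ e₁ → |g.coeff 1| ≤ e₂ →
  |resultant f g d (d - 1)| ≤ C * (h ^ (2 * d - 3) * max (e₀ * e₂) (e₁ ^ 2))

/-- **DiscT** (from `R2`, `V.S_Mar`, `V.S_Shift`).  The length of an interval on which an irreducible polynomial is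
small.

Proof.  `P = rp F`, `P'` its derivative, `Res = resultant P P' d (d-1)`, the image of the integer
`resultant F F' d (d-1)` (`Polynomial.resultant_map_map`).  `Res ≠ 0`: `F` is irreducible over `ℚ` (Gauss), hence
separable, so coprime to its derivative, whose degree is `d-1` (see `V/R1.lean`: `Polynomial.resultant_ne_zero`).  So
`|Res| ≥ 1`.  Translate to `a`: `f = taylor a P`, `g = taylor a P' = f'` (`Polynomial.resultant_taylor`), so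
`g_0 = f_1`, `g_1 = 2f_2`, and `g_i = (i+1)f_{i+1}`.  `V.S_Mar` at `x = a`: `|f_0| ≤ C₀hω`, `|f_1| ≤ C₀hω/t`,
`|f_2| ≤ C₀hω/t²`.  All coefficients are `≤ C h` (`V.S_Shift` from 0, `|a| ≤ 3`).  `R2` with `e₀ = C₀hω`, `e₁ = C₀hω/t`,
`e₂ = 2C₀hω/t²` (`t ≤ 1`): `1 ≤ C h^(2d-3) h²(ω/t)²`, so `t² ≤ C h^(2d-1) ω²`. -/
def S_DiscT : Prop := ∀ d : ℕ, 2 ≤ d → ∃ C : ℝ, 1 ≤ C ∧ ∀ (h ω a b t : ℝ) (F : ℤ[X]), 1 ≤ h →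
  0 < ω → 0 < t → t ≤ 1 → t ≤ b - a → |a| ≤ 3 → Irreducible F → F.natDegree = d → Hb F h →
  Sl (rp F) (h * ω) a b → t ≤ C * (h ^ ((d : ℝ) - 1 / 2) * ω)

/-- **CntT** (from `V.S_Mar`, `V.S_Int`, `V.S_MxEx`, `V.S_MxCard`).  The number of long intervals.

Proof.  `c₁ > 0` small, depending only on `d` (fixed below).  Each `F` belongs to at most `2d` elements of `S`
(`V.S_MxCard`), so it is enough to count the `F`'s.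
(a) `ω ≥ c₁`: there are at most `(3h)^(d+1)` polynomials `F`, and `(ω/t)^(d/(d-1)) ≥ c₁^2` (`t ≤ 1`, `d/(d-1) ≤ 2`; `c₁ ≤ 1`).
(b) `ω < c₁`.  Let `p ∈ S`, `F`, `x = p.1`.  `V.S_Mar`: `|F(x)| ≤ C₀hω`, `|F'(x)| ≤ κh`, `κ := C₀ω/t` (`tc P x 1 = P'(x)`).
Heights: let `m = max_{1 ≤ j ≤ d} |F_j|`.  `|F_0| ≤ C₀hω + 2^(d+1) m`.  Some `|F_j| ≥ h/2`.  If `C₀c₁ ≤ 1/8` then
`m ≥ 2^(-d-3) h` (else `|F_0| < h/8 + h/4 < h/2` and all `|F_j| < h/2`).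
Fix `F_1, ..., F_d` (at most `(3h)^d` possibilities) and let `G = F - F_0`, `G' = F' ∈ ℤ[X]` of degree `d-1 ≥ 1`, with some
coefficient `≥ 2^(-d-3)h`.  By continuity of `G'`, `x` is in a nondegenerate interval on which `|G'| ≤ 2κh`, so in an
interval `J ∋ x` which is maximal for `|G'| ≤ 2κh` (`V.S_MxEx`); there are at most `2(d-1)` such `J` (`V.S_MxCard`).
Length of `J`: let `τ = min(|J|, 1)`; there is a subinterval of `J` of length `τ` containing `x`, whose left endpoint is in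
`[-3,3]`; `V.S_Int` for `F'` on it: `2^(-d-3)h τ^(d-1) ≤ C·2κh`, so `τ ≤ C₃κ^(1/(d-1))`.  If `κ` is so small that
`C₃κ^(1/(d-1)) < 1` then `|J| = τ ≤ C₃κ^(1/(d-1))`; if not, `κ ≥ c` and `ω/t ≥ c'`, so the trivial count
`(3h)^(d+1) ≤ C h^(d+1)(ω/t)^(d/(d-1))` suffices.  For `F, F̃` with the same `F_1, ..., F_d` and the same `J` (points
`x, x̃ ∈ J`): `|F_0 - F̃_0| ≤ |F(x)| + |F̃(x̃)| + |G(x) - G(x̃)| ≤ 2C₀hω + |J|·2κh ≤ C₄h(ω + κ^(d/(d-1)))`.  Moreover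
`V.S_Int` for `F` on `[p.1, p.1+t]`: `(h/2)t^d ≤ C hω`, i.e. `t^d ≤ 2Cω`, hence
`ω = (ω/t)^(d/(d-1)) (t^d/ω)^(1/(d-1)) ≤ C₅(ω/t)^(d/(d-1))`.  So the number of `F_0` is at most
`1 + C₆h(ω/t)^(d/(d-1))`.  Total `≤ (3h)^d·2(d-1)(1 + C₆h(ω/t)^(d/(d-1)))·2d`. -/
def S_CntT : Prop := ∀ d : ℕ, 2 ≤ d → ∃ C : ℝ, 1 ≤ C ∧ ∀ (h ω t : ℝ) (S : Finset (ℝ × ℝ)), 1 ≤ h →
  0 < ω → 0 < t → t ≤ 1 →
  (∀ p ∈ S, |p.1| ≤ 2 ∧ t ≤ p.2 - p.1 ∧ ∃ F : ℤ[X], F.natDegree = d ∧ Hb F h ∧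
    (∃ j : ℕ, h ≤ 2 * |((F.coeff j : ℤ) : ℝ)|) ∧ Mx (rp F) (h * ω) p.1 p.2) →
  (S.card : ℝ) ≤ C * (h ^ d + h ^ (d + 1) * (ω / t) ^ ((d : ℝ) / ((d : ℝ) - 1)))

/-- **Cost** (from `DiscT`, `CntT`, `V.S_MxEx`).  The cost of the small values of the irreducible polynomials of
degree `d`.

Proof.  If `ω ≥ c` (a constant `c > 0` depending on `d`, fixed below) take `T = {(1/2, 1)}`: cost 1 `≤ C h^(d+1)ω^s` for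
`C ≥ c^(-s)`.  Let `ω < c`.
`d = 1`: `F = aX + b`, `|aξ+b| ≤ hω ≤ h/8`, `h/2 ≤ max(|a|,|b|)`, `|b| ≤ |a| + h/8`, so `|a| ≥ 3h/8`; `|ξ + b/a| ≤ 3ω`.
`T = {(-b/a, 3ω)}`, at most `(3h)²` pairs: cost `≤ 9h²·3^s ω^s`.
`d ≥ 2`.  `|F'| ≤ C₁h` on `[-1,2]`.  For `ξ ∈ SmallP`, with `F`: `|F| ≤ 2hω` on `[ξ-η, ξ+η]`, `η = ω/C₁ ≤ 1`.  So (`V.S_MxEx`) there is
a maximal interval `[a',b'] ⊇ [ξ-η, ξ+η]` for `|F| ≤ h(2ω)`; `b'-a' ≥ t₀ := 2η`.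
If `b'-a' ≥ 1` for some `ξ, F`, then there is a subinterval of length 1 containing `ξ` (left endpoint in `[-1,1]`) and
`DiscT` (`t = 1`) gives `1 ≤ 2C₂h^(d-1/2)ω`; so `h^(d+1)ω^s ≥ h^(d+1)(2C₂h^(d-1/2))^(-s) ≥ (2C₂)^(-s)` as
`s(d-1/2) ≤ 1 ≤ d+1`, and `T = {(1/2,1)}` has cost `1 ≤ C h^(d+1)ω^s`.
Otherwise all these intervals have length `< 1`, so `|a'| ≤ 1`.  For `l ≥ 0` with `t = t₀2^l < 1` let `S_l` be the set of the pairs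
`(a',b')` with `t ≤ b'-a' < 2t`, `|a'| ≤ 1`, maximal for `|F| ≤ h(2ω)` for some irreducible `F` of degree `d`, with height
between `h/2` and `h`.  By `CntT` all its finite subsets have at most `C₃(h^d + h^(d+1)(2ω/t)^(d/(d-1)))` elements, so it is
finite with the same bound; and if it is nonempty then `t ≤ 2C₂h^(d-1/2)ω` (`DiscT`).  `T` = the pairs
`((a'+b')/2, (b'-a')/2)`; the radii are `≤ t`.  Cost of `S_l`: `C₃h^d t^s ≤ C₃h^d(2C₂h^(d-1/2)ω)^s ≤ C₄h^(d+1)ω^s`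
(`s(d-1/2) ≤ 1`) and `C₃h^(d+1)(2ω)^(d/(d-1)) t^(s-d/(d-1)) ≤ C₅h^(d+1)ω^s`, because `s - d/(d-1) < 0` and `t ≥ t₀ = 2ω/C₁`.
The number of `l` is `≤ 1 + log₂(1/t₀) ≤ C₆(1 + log(1+1/ω))`.  (`log h ≥ 0`.) -/
def S_Cost : Prop := ∀ (d : ℕ) (s : ℝ), 1 ≤ d → 0 < s → s ≤ 1 → s * ((d : ℝ) - 1 / 2) ≤ 1 →
  ∃ C : ℝ, 1 ≤ C ∧ ∀ h ω : ℝ, 1 ≤ h → 0 < ω →
  CovW s (C * (1 + Real.log h + Real.log (1 + 1 / ω)) * (h ^ (d + 1) * ω ^ s)) (SmallP d h ω)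

/-! ## Part B3: the covers -/

/-- **RedW** (from `Str`, `FacW`, `Cost`).  Everything except the set `Exc` has small cost.

Proof.  `δ = (Y/2)^(-λ)`, `Y` large, `C` denotes constants independent of `Y`.  `C₀` of the statement = the constant of `Str`
(as `(Yδ)`-bound for `r = 2`).  `κ > 0` small (fixed at the end), `B = (R+3)/s`, `V = ⌈B log₂ Y⌉`.
`T` = union, over `1 ≤ d ≤ R`, `0 ≤ u`, `2^u ≤ Y²`, and the integers `-R-2 ≤ v ≤ V` with `h^(d+1)ω^s ≤ Y^(-κ)` for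
`h = 2^u`, `ω = 2^(-v)`, of the families of `Cost` (for `d, s, h, ω`; `s(d-1/2) ≤ s(R-1/2) ≤ 1`).  Its cost is
`≤ C(1+log Y)³Y^(-κ) ≤ Y^(-κ/2)`.
Let `ξ ∈ [0,1]`, `x` near, `ξ ∉ Exc`.  `Str`: `r, q, H`; `H ≤ C Y`.  `FacW`: `F_i, u_i`, `m ≤ R`; `h_i = 2^(u_i)`, `∏ h_i ≤ C H ≤ Y²`.
`|F_i(ξ)| ≤ (d_i+1)h_i ≤ 2^(R+2) h_i` (`d_i ≤ R`), so let `v_i` be the largest integer `≤ V` with
`|F_i(ξ)| ≤ h_i 2^(-v_i)`, `v_i ≥ -R-2`, and `ω_i = 2^(-v_i)`: either `v_i = V`, or `ω_i ≤ 2|F_i(ξ)|/h_i`.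
`ξ ∈ SmallP d_i h_i ω_i`.  If `h_i^(d_i+1)ω_i^s ≤ Y^(-κ)` for some `i` then `ξ` is covered.  Suppose not.
If `v_i = V` for some `i` then `h_i^(d_i+1)ω_i^s ≤ (CY)^(R+1)Y^(-Bs) ≤ C Y^(-2) ≤ Y^(-κ)`: contradiction (`h_i ≤ ∏ h_i ≤ C H ≤ CY`).
So `∏ ω_i ≤ 2^m |q(ξ)|/∏ h_i ≤ C(Hδ/Y)/∏ h_i ≤ C δ/Y` (`H ≤ C∏ h_i`).  Let `D = max d_i`.
`∏ h_i^(d_i+1) ≤ (∏ h_i)^(D+1) ≤ (C H)^(D+1)`.  Multiplying the `m ≤ R` inequalities: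
`Y^(-Rκ) < C H^(D+1)(δ/Y)^s ≤ C' H^(D+1) Y^(-(1+λ)s)`.  (*)
`D ≤ deg q ≤ r`, and `H^(n-2r+2) ≤ C Yδ^(r-1) ≤ C'Y^(1-(r-1)λ)`.
`r = 1`: `D = 1`, `H ≤ C Y^(1/n)`: (*) gives `-Rκ < 2/n - (1+λ)s` up to constants, false for large `Y` if `κ` is small.
`r = 2`, `D = 1`: `H ≤ C Y^((1-λ)/(n-2))`: exponent `2(1-λ)/(n-2) - (1+λ)s < 0`, the same.
`r = 2`, `D = 2`: `q = ±F_0` is irreducible of degree 2.  Let `q̃ = (q_2, q_1, q_0) : Qd`.  `q̃.Good`: `q_2 ≠ 0`; primitive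
(`IsPrimitive`); `disc` is not a square (otherwise `q` has a rational root and is reducible over `ℚ`, hence over `ℤ`, Gauss).
`LamQ n q̃ x` is `Ann n 2 x q`, and `ht q̃ = H`.  `H^(n-2) ≤ C₀Yδ`, and `ξ ∉ Exc`, so `H^(n-1) < Yδ ≤ C Y^(1-λ)`: in (*)
the exponent is `3(1-λ)/(n-1) - (1+λ)s < 0`.
`3 ≤ r ≤ R`: `H^(D+1) ≤ H^(r+1) ≤ C Y^((r+1)(1-(r-1)λ)/(n-2r+2))` (`n-2r+2 ≥ 2`), exponent `< 0` by `Par`.
`κ > 0` is chosen with `2Rκ <` the minimum of the absolute values of these finitely many negative exponents. -/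
def S_RedW : Prop := ∀ (n R : ℕ) (lam s : ℝ), Par n R lam s → ∃ ε C₀ Y₀ : ℝ, 0 < ε ∧ 1 ≤ C₀ ∧ 2 ≤ Y₀ ∧
  ∀ Y : ℝ, Y₀ ≤ Y → CovW s (Y ^ (-ε))
    ({ξ : ℝ | 0 ≤ ξ ∧ ξ ≤ 1 ∧ ∃ x : ℕ → ℤ, NrW n Y ((Y / 2) ^ (-lam)) ξ x} \
      Exc n Y ((Y / 2) ^ (-lam)) C₀)

/-- **ParEx.**  The parameters.

Proof.  `λ₀ = (n+8)/(5n+4)`, `1/λ₀ = (5n+4)/(n+8) < 5`.  `R = ⌊1/λ⌋ + 1`: `Rλ > 1`, `(R-1)λ ≤ 1`, `R ≤ 5`.
`2R ≤ n`: `n = 4`: `1/λ < 2`, `R ≤ 2`; `n = 6, 7, 8, 9`: `1/λ < (5n+4)/(n+8) < 3`, `R ≤ 3`; `n ≥ 10`: `R ≤ 5`.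
All conditions of `Par` except `s ≤ 1`, `s(R-1/2) ≤ 1` are implied by `s > sW n λ` and the following
inequalities; those two hold for `s` close to `sW n λ` by the strict inequalities (i), (ii); `s₀` = the minimum of
`1` and `1/(R-1/2)`.
(i) `sW n λ < 1`: `2/(n(1+λ)) < 1`, `3(1-λ)/((n-1)(1+λ)) < 1`.
(ii) `(R-1/2) sW n λ < 1`: `R-1/2 ≤ 1/λ+1/2`, so it is enough that `(1/λ+1/2)·(2/n)/(1+λ) < 1` and
`(1/λ+1/2)·3(1-λ)/((n-1)(1+λ)) < 1`; both are decreasing in `λ` (the second where `λ ≤ 1`; for `λ ≥ 1` it is `≤ 0`), so it is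
enough to look at `λ₀`: `1/λ₀+1/2 = (11n+16)/(2(n+8))`, `1+λ₀ = (6n+12)/(5n+4)`, `(1-λ₀)/(1+λ₀) = 2(n-1)/(3(n+2))`:
first: `(11n+16)(5n+4) < 6n(n+8)(n+2)`, i.e. `0 < 6n³+5n²-28n-64`, true for `n ≥ 4`; second:
`(11n+16)/((n+8)(n+2)) < 1`, i.e. `n < n²`.
(iii) `2(1-λ)/(n-2) ≤ max(2/n, 3(1-λ)/(n-1))`: for `λ ≤ 1` because `2(n-1) ≤ 3(n-2)`, for `λ ≥ 1` it is `≤ 0`.
(iv) `3 ≤ r ≤ R`: `(r+1)(1-(r-1)λ)/(n-2r+2) < 3(1-λ)/(n-1)` (`(r-1)λ ≤ 1`, so `λ ≤ 1/2`).  `n - 2r + 2 > 0`.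
`r = 3`: `4(n-1)(1-2λ) < 3(n-4)(1-λ)` iff `n+8 < (5n+4)λ`.
`r = 4` (`n ≥ 8`): `5(n-1)(1-3λ) < 3(n-6)(1-λ)` iff `2n+13 < (12n+3)λ`; `(n+8)(12n+3) - (2n+13)(5n+4) = 2n²+26n-28 > 0`.
`r = 5` (`n ≥ 10`): `6(n-1)(1-4λ) < 3(n-8)(1-λ)` iff `3n+18 < 21nλ`; `21n(n+8) - (3n+18)(5n+4) = 6n²+66n-72 > 0`. -/
def S_ParEx : Prop := ∀ (n : ℕ) (lam : ℝ), 4 ≤ n → n ≠ 5 → ((n : ℝ) + 8) / (5 * n + 4) < lam →
  ∃ s₀ : ℝ, sW n lam < s₀ ∧ s₀ ≤ 1 ∧ ∀ s : ℝ, sW n lam < s → s ≤ s₀ → ∃ R : ℕ, Par n R lam s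

/-! ## Part B4: the upper bound -/

/-- **LevelW** (from `ParEx`, `RedW`, `MP_211f72_nt.Limsup`; `QCov` is the second hypothesis, see below).

Proof.  (Compare `V/Level.lean`.)  Let `sW n λ < s ≤ s₀` (`ParEx`), `R`; `RedW` gives `ε₁, C₀, Y₁`; the hypothesis gives
`ε₂, Y₂` for this `C₀` (`3(1-λ)/(n-1) < s(1+λ)` is part of `Par`).  For `k` with `Y = 2^(k+1) ≥ max(Y₁,Y₂)` let `T_k` be the union
of the two families (`CovW.union`), `T_k = ∅` for the other `k`; `∑_{T_k} r^s ≤ Y^(-ε₁) + Y^(-ε₂)`, summable (geometric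
series).  If `ξ` is in the set then for arbitrarily large `k` there is `x : Fin (n+1) → ℤ` with `Nr n (2^(k+1)) λ ξ x`; extend
`x` by 0 to `x̃ : ℕ → ℤ`: `NrW n Y ((Y/2)^(-λ)) ξ x̃`, so `ξ` is covered by `T_k`.  `Limsup`: the dimension is `≤ s`; let
`s → sW n λ`. -/
def S_LevelW : Prop := ∀ (n : ℕ) (lam : ℝ), 4 ≤ n → n ≠ 5 → ((n : ℝ) + 8) / (5 * n + 4) < lam →
  (∀ s C₀ : ℝ, 0 < s → s ≤ 1 → 1 ≤ C₀ → 3 * (1 - lam) / ((n : ℝ) - 1) < s * (1 + lam) →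
    ∃ ε Y₀ : ℝ, 0 < ε ∧ 2 ≤ Y₀ ∧
    ∀ Y : ℝ, Y₀ ≤ Y → CovW s (Y ^ (-ε)) (Exc n Y ((Y / 2) ^ (-lam)) C₀)) →
  dimH {ξ : ℝ | 0 ≤ ξ ∧ ξ ≤ 1 ∧ ∀ K : ℕ, ∃ k : ℕ, K ≤ k ∧ ∃ x : Fin (n + 1) → ℤ,
    Pool.Agent.MP211V.Nr n (2 ^ (k + 1)) lam ξ x} ≤ ENNReal.ofReal (sW n lam)

/-- the upper bound for all exponents beyond `λ₀ = (n+8)/(5n+4)` -/
def UpW (n : ℕ) : Prop := ∀ lam : ℝ, ((n : ℝ) + 8) / (5 * n + 4) < lam →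
  dimH {ξ : ℝ | MP_211f72_nt.Approx n ξ lam} ≤ ENNReal.ofReal (sW n lam)

/-- **UpperW** (from `V.S_ExpoN`, `V.S_Yc`).

Proof.  As `V/UpperN.lean` (which may be copied; only the range of `λ` and the function `sdim` change): let
`λ₀ < λ' < λ`.  `{Approx n ξ λ} ⊆ ℚ ∪ ⋃_{m ∈ ℤ} {ξ : ξ - m ∈ E_{λ'}}`, `E_{λ'}` the set of the hypothesis; so
`dimH {Approx n ξ λ} ≤ ofReal (sW n λ')`; let `λ' → λ` (`sW n` is continuous at `λ > 0`). -/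
def S_UpperW : Prop := ∀ n : ℕ, 4 ≤ n →
  (∀ lam : ℝ, ((n : ℝ) + 8) / (5 * n + 4) < lam →
    dimH {ξ : ℝ | 0 ≤ ξ ∧ ξ ≤ 1 ∧ ∀ K : ℕ, ∃ k : ℕ, K ≤ k ∧ ∃ x : Fin (n + 1) → ℤ,
      Pool.Agent.MP211V.Nr n (2 ^ (k + 1)) lam ξ x} ≤ ENNReal.ofReal (sW n lam)) →
  UpW n

/-- **UpEqW**: upper bound for the level sets (`MP_211f72_nt.Expo`, first part, and continuity).

Proof.  As `V/UpEqN.lean`: `{lambdaExp n ξ = λ} ⊆ {Approx n ξ λ'}` for all `λ' < λ`; let `λ' → λ`. -/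
def S_UpEqW : Prop := ∀ n : ℕ, 4 ≤ n → UpW n → ∀ lam : ℝ, ((n : ℝ) + 8) / (5 * n + 4) < lam →
  dimH {ξ : ℝ | MP_211f72_nt.lambdaExp n ξ = (lam : EReal)} ≤ ENNReal.ofReal (sW n lam)

end Pool.Agent.MP211W
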