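import Pool.Agent.Lib.MP_211f72_nt.W.SpecB

/-!
# MP_211f72_nt, third theorem: statements, part C (the lower bound) and assembly

Every statement `S_Xxx` is a `Prop`, proved in its own file (`theorem wXxx`), with the statements it uses as
hypotheses.  The complete proofs are in the docstrings.
-/

namespace Pool.Agent.MP211W

open Polynomial NumberField

/-! ## Part C1: quadratic numbers -/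

/-- **MinkG.**  Minkowski's theorem on linear forms.

Proof.  As `Pool/Agent/Lib/MP_211f72_nt/V/MinkN.lean` (which may be copied): the vectors `(B x)_i`, `x ∈ ℤ^N`, form the
lattice spanned by the columns of `B` (linearly independent, `det ≠ 0`), of covolume `|det B|`
(`ZSpan.isAddFundamentalDomain'`, `ZSpan.volume_fundamentalDomain`, `Matrix.det_transpose`); the box
`∏ [-c_i, c_i]` is compact, convex, symmetric, of volume `2^N ∏ c_i ≥ 2^N |det B|`: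
`MeasureTheory.exists_ne_zero_mem_lattice_of_measure_mul_two_pow_le_measure`. -/
def S_MinkG : Prop := ∀ (N : ℕ) (B : Matrix (Fin N) (Fin N) ℝ) (c : Fin N → ℝ), 1 ≤ N →
  (∀ i, 0 < c i) → B.det ≠ 0 → |B.det| ≤ ∏ i, c i →
  ∃ x : Fin N → ℤ, x ≠ 0 ∧ ∀ i, |∑ j, B i j * (x j : ℝ)| ≤ c i

/-- **PtQ** (from `MinkG`).  A point of the lattice of `q` near the curve at the root `θ₁`.

Proof.  `b = -a(θ₁+θ₂)`, `c = aθ₁θ₂`.  `M = max(1, |θ₂|)`, `δ' = δ/M^(n-1)`.  The `n+1` linear forms `x_0`,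
`x_1 - θ₁x_0`, `c x_i + b x_{i+1} + a x_{i+2}` (`0 ≤ i ≤ n-2`) have a triangular matrix of determinant `a^(n-1)`.
`MinkG` with the bounds `Y`, `δ'`, `1/2, ..., 1/2`: possible if `(2|a|)^(n-1) ≤ Yδ'`, i.e. `(2|a|M)^(n-1) ≤ Yδ`; and
`|a|M ≤ max(|a|, |aθ₂|) ≤ 2 ht q` as `|aθ₂| = |b + aθ₁| ≤ 2 ht q`.  So there is a nonzero integer point `x` (extend by 0) with
`|x_0| ≤ Y`, `|x_1 - θ₁x_0| ≤ δ'`, and the integers `c x_i + b x_{i+1} + a x_{i+2}` are `0`.  Then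
`a(x_{i+1} - θ₁x_i) = aθ₂(x_i - θ₁x_{i-1})`, so `|x_{i+1} - θ₁x_i| = |θ₂|^i|x_1-θ₁x_0| ≤ δ` for `0 ≤ i ≤ n-1`, and
`x_j - θ₁^j x_0 = ∑_{i<j} θ₁^(j-1-i)(x_{i+1}-θ₁x_i)`, at most `jδ ≤ nδ` (`|θ₁| ≤ 1`).  If `x_0 = 0` then
`|x_j| ≤ nδ < 1` for all `j`, so `x = 0`: contradiction. -/
def S_PtQ : Prop := ∀ (n : ℕ) (q : Qd) (θ₁ θ₂ Y δ : ℝ), 2 ≤ n → q.a ≠ 0 →
  (∀ t : ℝ, q.ev t = q.a * (t - θ₁) * (t - θ₂)) → |θ₁| ≤ 1 → 0 < Y → 0 < δ → n * δ < 1 →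
  (4 * (q.ht : ℝ)) ^ (n - 1) ≤ Y * δ →
  ∃ x : ℕ → ℤ, x 0 ≠ 0 ∧ |(x 0 : ℝ)| ≤ Y ∧ |(x 1 : ℝ) - θ₁ * (x 0 : ℝ)| ≤ δ ∧
    ∀ j : ℕ, j ≤ n → |(x 0 : ℝ) * θ₁ ^ j - (x j : ℝ)| ≤ n * δ

/-- **CntQ.**  Counting quadratic polynomials by their discriminant.

Proof.  (1) Given `b` (`≤ 3H` values) and `a ≠ 0`: `|b²-4ac| ≤ Z` leaves at most `1 + Z/(2|a|)` integers `c`.  Sum over
`1 ≤ |a| ≤ H`: `≤ 2H + Z(1+log H)`.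
(2) Given `b` and the value `D` of the discriminant, `D ≠ 0`, `|D| ≤ Z` (`≤ 3Z` values): `4ac = b² - D`.  If `b² ≠ D` then `a`
divides `b²-D ≠ 0`, `|b²-D| = |4ac| ≤ 4H²`, so there are at most `2 τ(|b²-D|) ≤ C_η(4H²)^η` pairs `(a,c)` (divisor bound,
`Pool.Agent.Lib.MP_640417_ag.All.divisor_bound` in `Pool/Agent/Lib/MP_640417_ag/All/Divisor.lean`; `η = ε/2`).  If
`b² = D` then `c = 0` and `a` is arbitrary (`≤ 3H` values); these pairs `(b, D)` are given by `b`, `b² ≤ Z`: at most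
`2√Z+1 ≤ 3Z` of them.  Total `≤ 3H·3Z·C H^ε + 9HZ`. -/
def S_CntQ : Prop := ∀ ε : ℝ, 0 < ε → ∃ C : ℝ, 0 < C ∧ ∀ (H Z : ℝ) (S : Finset Qd), 1 ≤ H → 1 ≤ Z →
  (∀ q ∈ S, q.a ≠ 0 ∧ (q.ht : ℝ) ≤ H ∧ q.disc ≠ 0 ∧ |(q.disc : ℝ)| ≤ Z) →
  (S.card : ℝ) ≤ C * (H ^ 2 + H * Z * (1 + Real.log H)) ∧ (S.card : ℝ) ≤ C * (H ^ (1 + ε) * Z)

/-- **BadQ** (from `CntQ`).  For most `ξ` the small values of the quadratic polynomials have a large derivative.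

Proof.  Let `ξ, q` be as in the set, `H` large.  `|c| ≤ 2H+1 ≤ 3H`, so `ht q ≤ 3H`.
(i) `a = 0`.  If `b = 0` then `|c| ≤ H^(-2) < 1`, `c = 0`, excluded.  `|bξ+c| ≤ H^(-2)`, `1 ≤ |b| ≤ H`, `|c| ≤ |b|+1`: measure
`≤ ∑_b (2|b|+3)·2H^(-2)/|b| ≤ C H^(-1)`.
(ii) `a ≠ 0`, `disc = 0`.  Then `q = κ(mX+n)²` with integers `κ ≠ 0`, `m ≥ 1`, `n` (`4ac = b²`, so `b` is even, `ac = (b/2)²`;
compare `Pool/Agent/Lib/MP_211f72_nt/Deg.lean`), `κm² = a`, so `m ≤ √H`, and `|mξ+n|² ≤ H^(-2)`, `|mξ+n| ≤ 1/H`: measure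
`≤ ∑_{m ≤ √H} (m+3)·2/(mH) ≤ 8/√H`.
(iii) `a ≠ 0`, `D = disc ≠ 0`, `|2aξ+b| ≤ H^(1-ε)`.  `(2aξ+b)² = D + 4a q(ξ)`, `|4a q(ξ)| ≤ η := 4|a|H^(-2) ≤ 4/H ≤ 1/2`.  So `D > 0`
(`D ≥ -1/2`) and `D ≤ H^(2-2ε) + 1/2 ≤ 2H^(2-2ε)`.  For given `q`: `√(D-η) ≤ |2aξ+b| ≤ √(D+η)`, and
`√(D+η) - √(D-η) ≤ 2η/√D` (`η ≤ D/2`), so `ξ` is in two intervals of length `≤ (2η/√D)/(2|a|) = 4H^(-2)/√D`.  For
`Z = 2^j ≤ 2H^(2-2ε)`, the `q` with `Z ≤ D < 2Z`: measure `≤ #q·8H^(-2)/√Z`.  If `Z ≤ H`, `CntQ` (2) with `ε = 1/4` (and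
heights `3H`, `2Z`): `≤ C H^(5/4)Z·H^(-2)/√Z ≤ C H^(-1/4)`.  If `Z > H`, `CntQ` (1):
`≤ C(H² + HZ(1+log 3H))H^(-2)/√Z ≤ C(H^(-1/2) + √2 H^(-ε)(1+log 3H))`.  There are `≤ C(1+log H)` values of `j`; the sum
tends to 0. -/
def S_BadQ : Prop := ∀ ε τ : ℝ, 0 < ε → ε < 1 → 0 < τ → ∃ H₀ : ℝ, ∀ H : ℝ, H₀ ≤ H →
  MeasureTheory.volume {ξ : ℝ | 0 ≤ ξ ∧ ξ ≤ 1 ∧ ∃ q : Qd, (q.a ≠ 0 ∨ q.b ≠ 0 ∨ q.c ≠ 0) ∧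
    |(q.a : ℝ)| ≤ H ∧ |(q.b : ℝ)| ≤ H ∧ |q.ev ξ| ≤ 1 / H ^ 2 ∧
    (q.a = 0 ∨ |2 * (q.a : ℝ) * ξ + (q.b : ℝ)| ≤ H ^ (1 - ε))} ≤ ENNReal.ofReal τ

/-- **KidsQ** (from `MinkG`, `PtQ`, `BadQ`).  Children around quadratic numbers.

Proof.  Follows `Pool/Agent/Lib/MP_211f72_nt/V/KidsN.lean` (lemmas `kidsN_half`, and the counting of cells in `vKidsN`,
which may be copied).  `0 < t < s = 3(1-λ)/((n-1)(1+λ))`.  Choose `λ₁ ∈ (λ, 1)` with `(n-1)(1+λ₁)t < 3(1-λ₁)` and then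
`ε ∈ (0, 1/2)` with `(n-1)(1+λ₁)t < (3-ε)(1-λ₁)`.  `H` large, `Y = (12H)^((n-1)/(1-λ₁))`, `δ = Y^(-λ₁)`, so
`Yδ = Y^(1-λ₁) = (12H)^(n-1)`.  Work in the middle half `[u',v']` of `[u,v]`; bad sets: the set of `BadQ` for `H, ε`, and
`{ξ ∈ [0,1] : |mξ - p| ≤ κ₁ for some 1 ≤ m < M, p ∈ ℤ}` with `κ₁ > 0` small (depending on `M`, `v-u`; measure
`≤ M(M+3)·2κ₁`); their total measure is `≤ τ = (v-u)/64`.  Let `ξ ∈ [u',v']` be good.  `MinkG` (`N = 3`; forms `aξ²+bξ+c`, `a`, `b`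
with bounds `H^(-2)`, `H`, `H`, determinant `±1`) gives `q ≠ 0` with `|a|, |b| ≤ H`, `|q(ξ)| ≤ H^(-2)`, so `|c| ≤ 3H`, and since `ξ` is
not bad, `a ≠ 0` and `|q'(ξ)| > H^(1-ε)`.  `disc = (2aξ+b)² - 4a q(ξ) ≥ H^(2-2ε) - 4/H > 0`; real roots `θ₁, θ₂`,
`|ξ-θ₁| ≤ |ξ-θ₂|`; `|q'(ξ)| = |a||(ξ-θ₁)+(ξ-θ₂)| ≤ 2|a||ξ-θ₂|`, `|ξ-θ₁| = |q(ξ)|/(|a||ξ-θ₂|) ≤ 2H^(-3+ε) =: w`.  So
`θ₁ ∈ [u,v] ⊆ [0,1]`.  `PtQ` for `Y, δ` (`(4 ht q)^(n-1) ≤ (12H)^(n-1) = Yδ`, `nδ < 1`): `x`, `x_0 ≠ 0`, `|x_0| ≤ Y`.  `|x_0| ≥ M`: otherwise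
`|x_1 - θ₁x_0| ≤ δ` and `|x_1 - ξx_0| ≤ δ + Mw < κ₁` for large `H`, against the goodness of `ξ` (`m = |x_0|`).
Cells `[u'+4wj, u'+4w(j+1)]`, `0 ≤ j < ⌊(v'-u')/(4w)⌋`, as in `KidsN`: at least `(v-u)/(16w)` of them contain a good `ξ_j` in
`[u'+4wj+w, u'+4wj+2w]`, and give `ζ_j = θ₁ ∈ [u'+4wj, u'+4wj+3w]`, so the `ζ_j` are `≥ w` apart.  Children `[ζ_j-ρ, ζ_j+ρ]`,
`ρ = Y^(-1-λ₁)`, `l = 2ρ`; `w > 2l` for large `H` since `(n-1)(1+λ₁)/(1-λ₁) > 3` (`n ≥ 5`).  For `|ξ'-ζ_j| ≤ ρ`, `ξ' ∈ [0,1]`: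
`|x_0ξ'^i - x_i| ≤ |x_0|·iρ + nδ ≤ 2nY^(-λ₁) ≤ Y^(-λ) ≤ |x_0|^(-λ)` for large `H`.  So `GdN n λ M` on the children.
`#C l^t ≥ ((v-u)/16w)·Y^(-(1+λ₁)t) ≥ c H^(3-ε-(n-1)(1+λ₁)t/(1-λ₁)) → ∞`.  Windows as in `KidsN`:
`count ≤ r/w + 1 ≤ (16r/(v-u)) #C + 1`, and `1 ≤ l^t #C ≤ r^t #C`. -/
def S_KidsQ : Prop := ∀ (n : ℕ) (lam : ℝ), 5 ≤ n → 0 < lam → lam < 1 →
  Pool.Agent.MP211V.KidsForN n (3 * (1 - lam) / (((n : ℝ) - 1) * (1 + lam))) lam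

/-- **KidsR** (from `MP_211f72_nt.Farey`).  Children around rational numbers.

Proof.  As `Pool/Agent/Lib/MP_211f72_nt/KidsPow.lean` (the case `n = 3`, which may be copied).  `s = 2/(n(1+λ))`, `t < s`, i.e.
`n(1+λ)t < 2`.  `Farey` for the middle half of `[u,v]`.  `ρ = N^(-n(1+λ))/n`, `l = 2ρ`, `C = {b/a - ρ : (a,b) ∈ P}`.  Points
`x_j = a^(n-j)b^j`: for `|ξ - b/a| ≤ ρ`, `ξ, b/a ∈ [0,1]`: `|a^nξ^j - a^(n-j)b^j| ≤ a^n·jρ ≤ N^n nρ = N^(-nλ) ≤ (a^n)^(-λ)`;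
`a^n ≥ (ηN)^n ≥ M` for large `N`.  Separation: distinct reduced fractions with denominators `≤ N` are `≥ 1/N²` apart,
`1/N² > 2l` for large `N` (`n(1+λ) > 2`).  `#C l^t ≥ (c(v-u)/2)N²(2/n)^t N^(-n(1+λ)t) → ∞`.  Windows:
`#{c ∈ C : p ≤ c ≤ p+r} ≤ rN² + 1`, `rN² ≤ (2/c)(r/(v-u)) #C`, and `1 ≤ l^t #C ≤ r^t #C`. -/
def S_KidsR : Prop := ∀ (n : ℕ) (lam : ℝ), 2 ≤ n → 1 / (n : ℝ) < lam →
  Pool.Agent.MP211V.KidsForN n (2 / ((n : ℝ) * (1 + lam))) lam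

/-! ## Part C2: assembly -/

/-- **LowerW** (from `V.S_ExpoN`, `MP_211f72_nt.ContentZero`, `MP_211f72_nt.Avoid`).

Proof.  As `Pool/Agent/Lib/MP_211f72_nt/V/LowerN.lean` (simpler, as there is no upper limit for `λ`).  `s = sW n λ ∈ (0,1)`.
Suppose `dimH Z < s`, `Z = {lambdaExp n ξ = λ}`.  `ContentZero` gives `τ_0` with `CZ τ_0 Z`.  `N_k = {Approx n ξ (λ + 1/(k+1))}`:
`dimH N_k ≤ ofReal (sW n (λ+1/(k+1))) < ofReal s` (`UpW n`; `sW n` is strictly decreasing on `λ > 0`: both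
`2/(n(1+λ))` and `3(1-λ)/((n-1)(1+λ))` are), so `CZ τ_k N_k` with `τ_k < s`.  `Avoid` (with `G M = GdN n λ M`) gives `ξ` with
`∀ M, GdN n λ M ξ`, so `Approx n ξ λ` (`ExpoN` (2)), and `¬ Approx n ξ (λ + 1/(k+1))` for all `k`, so `lambdaExp n ξ = λ`
(`MP_211f72_nt.Expo`, second part, proved in `Expo.lean`), but `ξ ∉ Z`: contradiction. -/
def S_LowerW : Prop := ∀ (n : ℕ) (lam : ℝ), 4 ≤ n → ((n : ℝ) + 8) / (5 * n + 4) < lam → UpW n →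
  Pool.Agent.MP211V.KidsForN n (sW n lam) lam →
  ENNReal.ofReal (sW n lam) ≤ dimH {ξ : ℝ | MP_211f72_nt.lambdaExp n ξ = (lam : EReal)}

/-- **KidsW** (from `KidsR`, `KidsQ`).

Proof.  `λ > (n+8)/(5n+4) > 1/n` (`n²+3n-4 > 0`).  If `3(1-λ)/(n-1) ≤ 2/n` then `sW n λ = (2/n)/(1+λ) = 2/(n(1+λ))`: `KidsR`.
Otherwise `λ < 1` and `n ≠ 4` (for `n = 4`: `λ > 1/2`, `3(1-λ)/3 < 1/2`), `sW n λ = 3(1-λ)/((n-1)(1+λ))`: `KidsQ`. -/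
def S_KidsW : Prop := ∀ (n : ℕ) (lam : ℝ), 4 ≤ n → ((n : ℝ) + 8) / (5 * n + 4) < lam →
  Pool.Agent.MP211V.KidsForN n (sW n lam) lam

end Pool.Agent.MP211W
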