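import Pool.Agent.Lib.MP_211f72_nt.W.SpecA

/-!
# MP_211f72_nt, third theorem: statements, part D (3-torsion of the class groups of real quadratic fields)

The average of the 3-torsion over the real quadratic fields is bounded by counting binary cubic forms
(Davenport-Heilbronn), with the tools of the first theorem (`MP_211f72_nt.Cub`, `ExistsNormal`,
`CountNF1`, `CountNF2`).  This gives the theorem also for `n = 3·2^k`.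

Every statement `S_Xxx` is a `Prop`, proved in its own file (`theorem wXxx`), with the statements it uses as
hypotheses.  The complete proofs are in the docstrings.  We write `z' = Q.tO z`.
-/

namespace Pool.Agent.MP211W

open Polynomial NumberField
open MP_211f72_nt (Cub det Nor1 Nor2)

/-- `rD` is the square root of the discriminant `D` of the field `ℚ(√d)` -/
def IsRD {d : ℕ} {K : Type} [Field K] [NumberField K] (Q : QF d K) (D : ℕ) (rD : 𝓞 K) : Prop :=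
  (D = d ∨ D = 4 * d) ∧ rD ^ 2 = ((D : ℕ) : 𝓞 K) ∧ Q.tO rD = -rD ∧
    ∀ z : 𝓞 K, ∃ k : ℤ, z - Q.tO z = ((k : ℤ) : 𝓞 K) * rD

/-- `α, β` is an oriented basis of the ideal `I` -/
def IdBas {d : ℕ} {K : Type} [Field K] [NumberField K] (Q : QF d K) (rD : 𝓞 K) (I : Ideal (𝓞 K))
    (α β : 𝓞 K) : Prop :=
  (∀ z : 𝓞 K, z ∈ I ↔ ∃ m n : ℤ, z = ((m : ℤ) : 𝓞 K) * α + ((n : ℤ) : 𝓞 K) * β) ∧
    α * Q.tO β - Q.tO α * β = ((Ideal.absNorm I : ℕ) : 𝓞 K) * rD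

/-- **IdB** (from `QFb`).  Integral basis, and bases of the ideals.

Proof.  `QFb`: for `z ∈ 𝓞 K`: `z + z' = t`, `z - z' = k·sd` with integers `t, k`, and `4 z z' = t² - k²d`, so
`t² ≡ k² d` mod 4.  If `d ≡ 1` mod 4 then `t ≡ k` mod 2 and `z = (t-k)/2 + k ω`, `ω = (1+sd)/2`
(integral: `ω² - ω - (d-1)/4 = 0`), `D = d`, `rD = ω - ω' = sd`.  If `d ≡ 2, 3` mod 4 then `t, k` are even (look at
`t² ≡ k²d` mod 4) and `z = t/2 + (k/2) sd`; `ω = sd`, `D = 4d`, `rD = 2 sd`.  (`d` is squarefree, so `d ≢ 0` mod 4.)  So `1, ω` is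
a `ℤ`-basis of `𝓞 K`, and `z = m + nω` has `z - z' = n rD`.
Let `I ≠ 0` and let `α, β` be a `ℤ`-basis of `I` (`Ideal.selfBasis` for the basis `b = (1, ω)`).  With `α = a₁ + a₂ω`,
`β = b₁ + b₂ω`: `|a₁b₂ - a₂b₁| = N(I)` (`Ideal.natAbs_det_basis_change`), and
`αβ' - α'β = (a₁b₂ - a₂b₁)(ω' - ω) = ± N(I) rD`.  If the sign is `-`, exchange `α` and `β`. -/
def S_IdB : Prop := ∀ (d : ℕ) (K : Type) [Field K] [NumberField K] (Q : QF d K), Squarefree d → 2 ≤ d →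
  ∃ (D : ℕ) (rD : 𝓞 K), IsRD Q D rD ∧
    ∀ I : Ideal (𝓞 K), I ≠ ⊥ → ∃ α β : 𝓞 K, IdBas Q rD I α β

/-- **CubI** (from `QFb`, `MP_211f72_nt.ExistsNormal`).  The cubic form of a class of order 3.

Proof.  `z_i = α^(3-i)β^i/μ ∈ 𝓞 K` (`i = 0, ..., 3`; `α^(3-i)β^i ∈ I³ = (μ)`), `F_i ∈ ℤ` with `z_i - z_i' = F_i rD` (`IsRD`),
`x = ⟨F_0, F_1, F_2, F_3⟩ : Cub`.  Let `N = N(I)`.  `N(μ) := μμ'` is an integer with `|μμ'| = N(I³) = N³` (`QFb` (4)), so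
`μμ' = εN³`, `ε = ±1`.
`D·h0 = rD²(F_0F_2 - F_1²) = (z_0-z_0')(z_2-z_2') - (z_1-z_1')² = -(z_0z_2' + z_0'z_2 - 2z_1z_1')` (`z_0z_2 = z_1²`), and
`μμ'(z_0z_2' + z_0'z_2 - 2z_1z_1') = αα'(α²β'² + α'²β² - 2αα'ββ') = αα'(αβ'-α'β)² = αα'N²D`.  So
`h0·εN³ = -αα'N²`, `h0·N = -ε αα'` (`ε² = 1`).  In the same way
`D·h1 = (z_0-z_0')(z_3-z_3') - (z_1-z_1')(z_2-z_2')`, `z_0z_3 = z_1z_2`, gives `h1·N = -ε(αβ' + α'β)` and `h2·N = -ε ββ'`.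
(Check: `μμ'(z_0z_3'+z_0'z_3-z_1z_2'-z_1'z_2) = (αβ'+α'β)(αβ'-α'β)²`.)  So `N·H(u,v) = -ε(uα+vβ)(uα'+vβ')` for all integers
`u, v`, and `N²·x.D = N²(h1² - 4h0h2) = (αβ'+α'β)² - 4αα'ββ' = (αβ'-α'β)² = N²D`: `x.D = D ≠ 0`.
Normal form: `ExistsNormal` gives `x = f.sub w z`, `det w z = 1`, `f` normal; by `Cub.sub_sub_inv`
`f = x.sub p r`, `p = (z.2, -w.2)`, `r = (-z.1, w.1)`, `det p r = 1`.  `f.D = x.D` (`Cub.sub_D`), and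
`f.H (u,v) = x.H (up+vr)` (`Cub.sub_h0`, `sub_h1`, `sub_h2`).  New basis `α̃ = p.1α + p.2β`, `β̃ = r.1α + r.2β`: again a
basis of `I` (unimodular change), `α̃β̃' - α̃'β̃ = det p r·(αβ'-α'β)`, and
`N·f.H(u,v) = -ε(uα̃+vβ̃)(uα̃'+vβ̃')`. -/
def S_CubI : Prop := ∀ (d : ℕ) (K : Type) [Field K] [NumberField K] (Q : QF d K), Squarefree d →
  2 ≤ d → ∀ (D : ℕ) (rD : 𝓞 K), IsRD Q D rD → ∀ (I : Ideal (𝓞 K)) (α β μ : 𝓞 K), I ≠ ⊥ →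
  IdBas Q rD I α β → I ^ 3 = Ideal.span {μ} →
  ∃ (f : Cub) (α₁ β₁ : 𝓞 K) (e : ℤ), (Nor1 f ∨ Nor2 f) ∧ f.D = (D : ℤ) ∧ (e = 1 ∨ e = -1) ∧
    IdBas Q rD I α₁ β₁ ∧ ∀ u v : ℤ, ((Ideal.absNorm I : ℕ) : 𝓞 K) * ((f.H (u, v) : ℤ) : 𝓞 K) =
      ((e : ℤ) : 𝓞 K) * ((((u : ℤ) : 𝓞 K) * α₁ + ((v : ℤ) : 𝓞 K) * β₁) *
        (((u : ℤ) : 𝓞 K) * Q.tO α₁ + ((v : ℤ) : 𝓞 K) * Q.tO β₁))

/-- **Cl3** (from `IdB`, `CubI`).  The 3-torsion of one class group.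

Proof.  `D, rD` from `IdB`.  For `c` with `c³ = 1`: `c = clI I` (`clI_surj`), `I³ = (μ)` (as in `Genus`: `clI (I^3) = 1` means
principal), a basis `α, β` (`IdB`), and `CubI` gives `f_c ∈ S`.  It is enough that the map `c ↦ f_c` is at most 2-to-1.
Let `c₀` be fixed, with `I₀`, basis `α₀, β₀`, and let `f_c = f_{c₀}`, `I`, `α, β`, be the data of `c`.  Then for all `u, v ∈ ℤ`
`e N(I₀)(uα+vβ)(uα'+vβ') = e₀ N(I)(uα₀+vβ₀)(uα₀'+vβ₀')`, i.e. (compare coefficients)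
`αα' = s α₀α₀'`, `αβ'+α'β = s(α₀β₀'+α₀'β₀)`, `ββ' = s β₀β₀'` in `K`, with `s = e e₀ N(I)/N(I₀) ≠ 0`.  `α, α₀ ≠ 0` (as `αβ'-α'β ≠ 0`).
So `β/α` and its conjugate are the roots of the same polynomial `αα'T² - (αβ'+α'β)T + ββ'` (up to the factor `s`) as
`β₀/α₀` and its conjugate: `β/α = β₀/α₀` or `β/α = β₀'/α₀'`.  (Directly: `(βα₀ - β₀α)(βα₀' - β₀'α) = β²α₀α₀' - αβ(α₀β₀'+α₀'β₀)
+ α²β₀β₀'`, and `s` times this is `β²αα' - αβ(αβ'+α'β) + α²ββ' = 0`.)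
First case: `(α₀) I = (α₀α, α₀β) = (αα₀, αβ₀) = (α) I₀` (`I` is generated by `α, β`), so `c = c₀`.  Second case:
`(α₀') I = (α) τ(I₀)`, so `c = clI (τ(I₀))` (`τ(I₀) = Q.tI I₀` is generated by `α₀', β₀'`).  So every fibre is contained in a set
of two elements: `#{c} ≤ 2 #S`. -/
def S_Cl3 : Prop := ∀ (d : ℕ) (K : Type) [Field K] [NumberField K] (_Q : QF d K), Squarefree d →
  2 ≤ d → ∀ S : Finset Cub,
  (∀ f : Cub, (Nor1 f ∨ Nor2 f) → (f.D = (d : ℤ) ∨ f.D = 4 * (d : ℤ)) → f ∈ S) →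
  Nat.card {c : ClassGroup (𝓞 K) // c ^ 3 = 1} ≤ 2 * S.card

/-- **Tors3** (from `Cl3`, `MP_211f72_nt.CountNF1`, `MP_211f72_nt.CountNF2`).

Proof.  For `Z ≥ 1` let `A(Z)` be the set of the `f : Cub` with `Nor1 f ∨ Nor2 f` and `0 < f.D ≤ Z`.  By `CountNF1`,
`CountNF2` every finite subset of `A(Z)` has at most `C Z(1+log Z)` elements, so `A(Z)` is finite with this bound.  For
`d ≥ 1` let `S_d` be the set of the `f ∈ A(4d)` with `f.D = d` or `f.D = 4d`, and `N(d) = 2 #S_d` (`Cl3`: `TB 3 d (N d)` for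
squarefree `d ≥ 2`).  Dyadic blocks: for `2^j ≤ d < 2^(j+1)`, each `f` is in at most two of the sets `S_d` (`d = f.D` or
`4d = f.D`), so `∑_{2^j ≤ d < 2^(j+1)} N(d)/d ≤ 2^(-j)·2·2·#A(2^(j+3)) ≤ C'(1+j)`.  Sum over `j ≤ log₂ X`:
`≤ C''(1+log X)² ≤ C''' X^ε`. -/
def S_Tors3 : Prop := TorsB 3

/-- **Tors6** (from `Genus`, `TorG`, `Tors3`).

Proof.  `TorsB 3` with `ε/2`: `N`, constant `C`.  `N'(d) = N(d)(2τ(4d)²)^k`.  `TB (3·2^k) d (N' d)`: `TorG` (1) with `a = 3`,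
`b = 2^k`, and (induction on `k`, `TorG` (1), `Genus`) `#{c^(2^k) = 1} ≤ (2τ(4d)²)^k`.  Divisor bound
(`Pool.Agent.Lib.MP_640417_ag.All.divisor_bound` in `Pool/Agent/Lib/MP_640417_ag/All/Divisor.lean`):
`(2τ(4d)²)^k ≤ C' d^(ε/2) ≤ C' X^(ε/2)` for `d ≤ X`.  So `∑_{d ≤ X} N'(d)/d ≤ C' X^(ε/2)·C X^(ε/2)`. -/
def S_Tors6 : Prop := ∀ k : ℕ, TorsB (3 * 2 ^ k)

end Pool.Agent.MP211W
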