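import Pool.Agent.Lib.MP_211f72_nt.W.SpecC
import Pool.Agent.Lib.MP_211f72_nt.W.SpecD

/-!
# MP_211f72_nt, third theorem: statements, part E (amplification)

Extension of the theorem from `n = 2^k, 3·2^k` to all `n` divisible by 4 or 6 (same formula, same range
`λ > (n+8)/(5n+4)`), and `dim = 2/(n(1+λ))` for every `n ≥ 5`, `l ∈ {1,2,3}`, `l ∣ n`,
`λ > (n+4-l)/(3n-l)`.

The bound for the torsion of the class group is replaced by a bound for the number of pairs `(b, c)`, `b` a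
primitive integral ideal of norm `≤ M`, `c` a class with `c^m = [b]` (`Ampl`, an Ellenberg-Venkatesh argument).

Every statement `S_Xxx` is a `Prop`, proved in its own file (`theorem wXxx`), with the statements it uses as
hypotheses.  The complete proofs are in the docstrings.  `K, Q, σ, τ, sd` as in part A; `z' = Q.τ z`,
`τ(I) = Q.tI I`, `N(I) = Ideal.absNorm I`.
-/

namespace Pool.Agent.MP211W

open Polynomial NumberField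

section
variable {K : Type} [Field K] [NumberField K]

/-- no prime number divides the ideal `b` -/
def PrimI (b : Ideal (𝓞 K)) : Prop := ∀ p : ℕ, p.Prime → ¬ (Ideal.span {((p : ℕ) : 𝓞 K)} ∣ b)

/-- `log |σ z| - log |σ z'|` -/
noncomputable def QF.h {d : ℕ} (Q : QF d K) (z : 𝓞 K) : ℝ :=
  Real.log |Q.σ (z : K)| - Real.log |Q.σ (Q.τ (z : K))|

/-- pairs `(b, c)`: primitive nonzero ideal `b` of norm `≤ M` and class `c` with `c^m = [b]` -/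
def IsPB (m : ℕ) (M : ℝ) (x : Ideal (𝓞 K) × ClassGroup (𝓞 K)) : Prop :=
  x.1 ≠ ⊥ ∧ PrimI x.1 ∧ ((Ideal.absNorm x.1 : ℕ) : ℝ) ≤ M ∧ clI x.1 = x.2 ^ m

end

/-- for the field `ℚ(√d)` there are at most `T` pairs as in `IsPB m M` -/
def PB (m d : ℕ) (M T : ℝ) : Prop := ∀ (K : Type) [Field K] [NumberField K], ∀ _Q : QF d K,
  ∀ B : Finset (Ideal (𝓞 K) × ClassGroup (𝓞 K)), (∀ x ∈ B, IsPB m M x) → (B.card : ℝ) ≤ T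

/-- `p ≤ P` is an odd prime number, not dividing `d`, and `d` is a square mod `p` -/
def SplN (d : ℕ) (P : ℝ) (p : ℕ) : Prop :=
  p.Prime ∧ p ≠ 2 ∧ (p : ℝ) ≤ P ∧ ¬ p ∣ d ∧ IsSquare ((d : ℕ) : ZMod p)

/-- bound for the number of quadratic polynomials with a near point, exponent `κ` -/
def ClsB (n : ℕ) (κ : ℝ) : Prop := ∀ ε : ℝ, 0 < ε → ∃ C : ℝ, 0 < C ∧
  ∀ (Y δ H Δ : ℝ) (S : Finset Qd), 1 ≤ Y → 1 ≤ H → H ≤ Y → 0 < δ → δ ≤ 1 → 100 * (H ^ 2 * δ) ≤ Y →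
  Y * δ ≤ H ^ (n - 1) → (∀ q ∈ S, ∃ (ξ : ℝ) (x : ℕ → ℤ), NQ n Y δ H Δ q ξ x) →
  (S.card : ℝ) ≤ C * Y ^ ε * (H ^ 2 * Real.sqrt Δ * (Y * δ / H ^ (n - 1)) ^ κ)

/-! ## Part E1: ideals -/

/-- **PrimD.**  Every nonzero ideal is `(e) b₀` with `b₀` primitive.

Proof.  Strong induction on `N(b) ≥ 1`.  If `b` is primitive take `e = 1`.  Otherwise `b = (p) b₁` with a prime number
`p`, `b₁ ≠ 0`, `N(b) = p² N(b₁)` (`N((p)) = p²`: `DivI.absNorm_nat` in `W/DivI.lean`; `N` is multiplicative), so `N(b₁) < N(b)`;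
`b₁ = (e₁) b₀`, `e = p e₁`. -/
def S_PrimD : Prop := ∀ (K : Type) [Field K] [NumberField K], Module.finrank ℚ K = 2 →
  ∀ b : Ideal (𝓞 K), b ≠ ⊥ → ∃ (e : ℕ) (b₀ : Ideal (𝓞 K)), 1 ≤ e ∧ b₀ ≠ ⊥ ∧ PrimI b₀ ∧
    b = Ideal.span {((e : ℕ) : 𝓞 K)} * b₀ ∧ Ideal.absNorm b = e ^ 2 * Ideal.absNorm b₀

/-- **SplitP** (from `QFb`, `NmI`).  The prime ideals of a split prime number.

Proof.  `sd` is integral (`sd² = d`); let `s ∈ 𝓞 K` be this element, `s² = d`, `τ s = -s`.  `r ∈ ℤ` with `r² ≡ d` mod `p`; `p ∤ r`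
(`p ∤ d`).  `𝔭 = (p, s - r)`, `τ(𝔭) = (p, -s - r) = (p, s + r)`.  `𝔭 τ(𝔭)` is generated by `p²`, `p(s+r)`, `p(s-r)`,
`s² - r² = d - r²`, all in `(p)`; and it contains `p(s+r) - p(s-r) = 2rp` and `p²`, with `gcd(p, 2r) = 1` (`p` odd), so it
contains `p`: `𝔭 τ(𝔭) = (p)`.  By `NmI`, `N(τ𝔭) = N(𝔭)`, and `N((p)) = p²` (`DivI.absNorm_nat`), so `N(𝔭) = p`, and `𝔭` is prime
(`Ideal.isPrime_of_irreducible_absNorm`).  `τ(𝔭) ≠ 𝔭`: otherwise `𝔭` contains `(s+r) - (s-r) = 2r` and `p`, so `1`.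
Now let `b ≠ 0` be primitive, `p ∤ N(b)`, and suppose `(ℓ) ∣ b 𝔭^j`, `ℓ` a prime number.  If `ℓ ≠ p`: `(ℓ)` and `𝔭` are coprime
(`ℓ` and `p ∈ 𝔭` generate `1`), so `(ℓ) ∣ b` (`IsCoprime.dvd_of_dvd_mul_right`, `IsCoprime.pow_right`): contradiction.
If `ℓ = p`: `τ(𝔭) ∣ (p) ∣ b 𝔭^j`; `τ(𝔭)` is prime (norm `p`) and does not divide `𝔭^j` (it would divide `𝔭`, and
both are maximal, so `τ𝔭 = 𝔭`), so `τ(𝔭) ∣ b` and `p = N(τ𝔭) ∣ N(b)` (`Ideal.absNorm_dvd_absNorm_of_le` or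
`map_dvd`): contradiction. -/
def S_SplitP : Prop := ∀ (d : ℕ) (K : Type) [Field K] [NumberField K] (Q : QF d K), Squarefree d →
  2 ≤ d → ∀ p : ℕ, p.Prime → p ≠ 2 → ¬ p ∣ d → IsSquare ((d : ℕ) : ZMod p) →
  ∃ P : Ideal (𝓞 K), P.IsPrime ∧ Ideal.absNorm P = p ∧ Q.tI P ≠ P ∧
    ∀ (b : Ideal (𝓞 K)) (j : ℕ), b ≠ ⊥ → PrimI b → ¬ p ∣ Ideal.absNorm b → PrimI (b * P ^ j)

/-- **IdCnt** (from `DivI`).  The number of ideals of norm at most `Z`.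

Proof.  `N(b) = k` implies `b ∣ (k)` (`Ideal.absNorm_mem`), so there are at most `τ(k)² ≤ C k^ε` such ideals (`DivI`;
`Pool.Agent.Lib.MP_640417_ag.All.divisor_bound` in `Pool/Agent/Lib/MP_640417_ag/All/Divisor.lean`).  Sum over
`k ≤ Z`.  (The same computation is in `W/ClassD.lean`, which may be copied.) -/
def S_IdCnt : Prop := ∀ ε : ℝ, 0 < ε → ∃ C : ℝ, 0 < C ∧ ∀ (K : Type) [Field K] [NumberField K],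
  Module.finrank ℚ K = 2 → ∀ (Z : ℝ) (S : Finset (Ideal (𝓞 K))), 1 ≤ Z →
  (∀ b ∈ S, b ≠ ⊥ ∧ ((Ideal.absNorm b : ℕ) : ℝ) ≤ Z) → (S.card : ℝ) ≤ C * Z ^ (1 + ε)

/-- **DatR** (from `QFb`, `IdB`, `MinkG`).  A short element of an ideal in a twisted box.

Proof.  `N := N(J) ≥ 1`, `W := 2√d`.  `IdB`: `D, rD`, `D ≤ 4d`, basis `α₁, β₁` of `J`, `α₁β₁' - α₁'β₁ = N rD`, `rD² = D`, so
`|σ(rD)| = √D ≤ 2√d = W`.  The matrix `B = [[σα₁, σβ₁], [σα₁', σβ₁']]` has determinant `σ(N rD)`, nonzero, `|det B| ≤ N W`.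
`MinkG` (`N = 2`) with the bounds `A₁ = e^(t/2)√(N W)`, `A₂ = e^(-t/2)√(N W)`, `A₁A₂ = N W`: `(u,v) ≠ 0`, and
`α = uα₁ + vβ₁ ∈ J`, `α ≠ 0` (the map `(u,v) ↦ (σα, σα')` is injective, `det B ≠ 0`), `|σα| ≤ A₁`, `|σα'| ≤ A₂`.
`(α) ⊆ J`, so `(α) = J r`, `r ≠ 0`, and `N(J)N(r) = |σα σα'| ≤ N W` (`QFb` (4)), `N(r) ≤ W`.
`|σα σα'| ≥ N` (`N(r) ≥ 1`), so `|σα| ≥ N/A₂ = A₁/W` and `|σα'| ≥ N/A₁ = A₂/W`.  `log A₁ - log A₂ = t`, so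
`h(α) = log|σα| - log|σα'|` is between `t - log W` and `t + log W`. -/
def S_DatR : Prop := ∀ (d : ℕ) (K : Type) [Field K] [NumberField K] (Q : QF d K), Squarefree d → 2 ≤ d →
  ∀ (J : Ideal (𝓞 K)) (t : ℝ), J ≠ ⊥ → ∃ (α : 𝓞 K) (r : Ideal (𝓞 K)), α ≠ 0 ∧ r ≠ ⊥ ∧
    Ideal.span {α} = J * r ∧ ((Ideal.absNorm r : ℕ) : ℝ) ≤ 2 * Real.sqrt d ∧
    |Q.h α - t| ≤ Real.log (2 * Real.sqrt d)

/-- **Coll** (from `QFb`, `NmI`).  Two triples with the same data are equal.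

Proof.  Write `B = b p^m`, `B₁ = b₁ p₁^m`.  Raise `(α) = I p r` to the power `m` and multiply by `(x)`:
`(x α^m) = (y) B r^m`; in the same way `(x₁ α₁^m) = (y₁) B₁ r^m`.  So `(y₁)(xα^m) B₁ r^m = (y₁)(y) B B₁ r^m r^m =
(y)(x₁α₁^m) B r^m`; cancel `r^m`: `(u) B₁ = (v) B`, `u = x α^m y₁`, `v = x₁ α₁^m y`, both nonzero.  Multiply by `τ(B₁)`,
`B₁τ(B₁) = (k)`, `k = N(B₁) ≥ 1`: `(u k) = (v) B τ(B₁)`.  So `v ∣ u k`, `u k = v g`, `g ∈ 𝓞 K`, `g ≠ 0`, and (cancel `(v)`)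
`(g) = B τ(B₁)`.  Norms: `|σg σg'| = N(B)N(B₁) ≤ (M P^m)²` (`QFb` (4); `N(τ B₁) = N(B₁)`).  `h` is additive on products of
nonzero elements and `h(k) = 0`, so `h(g) = h(u) - h(v) = (m h(α) - (h(y) - h(x))) - (m h(α₁) - (h(y₁) - h(x₁)))`,
`|h(g)| < m`.  So `|σg|² = |σg σg'| e^(h(g)) ≤ (M P^m)² e^m ≤ (2^m M P^m)²` (`e ≤ 4`) and the same for `|σg'|²`:
`|σg|, |σg'| ≤ 2^m M P^m`.  `QFb` (3): `g - g' = k₁ sd`, and `|k₁|√d ≤ 2·2^m M P^m < √d`, so `k₁ = 0`, `g = g'`.  So `g` is rational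
(`Q.fix`) and integral: `g = j ∈ ℤ`, `j ≠ 0`.  From `(j) = B τ(B₁)`, multiplied by `B₁`: `(j) B₁ = (k) B`, `j, k` nonzero
integers; we may take `j > 0`.
Claim: `(j) B₁ = (k) B` with `B, B₁` primitive, `j, k ≥ 1` implies `B = B₁`.  Induction on `j`: if `j = k = 1` we are done.
If some prime number `q` divides both, cancel it.  If a prime `q` divides `j` and not `k`: `(q) ∣ (k) B`, `(q)` coprime to
`(k)`, so `(q) ∣ B`: contradiction; in the same way for `k`.  (Or: divide by the gcd.) -/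
def S_Coll : Prop := ∀ (d : ℕ) (K : Type) [Field K] [NumberField K] (Q : QF d K), Squarefree d → 2 ≤ d →
  ∀ (m : ℕ) (M P : ℝ) (b b₁ p p₁ I I₁ r : Ideal (𝓞 K)) (x y x₁ y₁ α α₁ : 𝓞 K), 1 ≤ m →
  b ≠ ⊥ → b₁ ≠ ⊥ → p ≠ ⊥ → p₁ ≠ ⊥ → I ≠ ⊥ → I₁ ≠ ⊥ → r ≠ ⊥ →
  x ≠ 0 → y ≠ 0 → x₁ ≠ 0 → y₁ ≠ 0 → α ≠ 0 → α₁ ≠ 0 →
  PrimI (b * p ^ m) → PrimI (b₁ * p₁ ^ m) →
  ((Ideal.absNorm b : ℕ) : ℝ) ≤ M → ((Ideal.absNorm b₁ : ℕ) : ℝ) ≤ M →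
  ((Ideal.absNorm p : ℕ) : ℝ) ≤ P → ((Ideal.absNorm p₁ : ℕ) : ℝ) ≤ P →
  2 ^ (m + 1) * (M * P ^ m) < Real.sqrt d →
  Ideal.span {x} * I ^ m = Ideal.span {y} * b → Ideal.span {x₁} * I₁ ^ m = Ideal.span {y₁} * b₁ →
  Ideal.span {α} = I * p * r → Ideal.span {α₁} = I₁ * p₁ * r →
  |(m * Q.h α - (Q.h y - Q.h x)) - (m * Q.h α₁ - (Q.h y₁ - Q.h x₁))| < m →
  b * p ^ m = b₁ * p₁ ^ m

/-- **Ampl** (from `QFb`, `NmI`, `SplitP`, `IdCnt`, `DatR`, `Coll`).  Bound for the number of pairs.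

Proof.  We may assume `B ≠ ∅`, so `M ≥ 1` (`N(b) ≥ 1`).  For every class `c` fix an ideal `I_c ≠ 0` with `clI I_c = c`
(`clI_surj`), and for `(b,c) ∈ B` fix `x, y ≠ 0` with `(x) I_c^m = (y) b` (`clI_pow`, `clI_eq_iff`), and
`t = (h(y) - h(x))/m`.  For `p ∈ A` let `𝔭_p` be the ideal of `SplitP`; `𝔭_1 = 1` (the unit ideal).  Let `Z` be the set of the triples
`(b,c,p)`, `(b,c) ∈ B`, `p ∈ A ∪ {1}`, `p = 1` or `p ∤ N(b)`.  For a triple `b 𝔭_p^m` is primitive.  `DatR` for `J = I_c 𝔭_p` and `t`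
gives `α, r`; data of the triple: `(r, ⌊h(α) - t⌋)`.  The number of possible data is at most
`R := C₁ (2√d)^(1+ε)·(2 log(2√d) + 3)` (`IdCnt`).
Fibres: let `(b₁,c₁,p₁)` be fixed and `(b,c,p)` with the same data.  `Coll` (with `|⌊⌋|`-condition: the two numbers
`h(α) - t` have the same floor, so they differ by less than 1; multiply by `m`) gives `b 𝔭_p^m = b₁ 𝔭_{p₁}^m`.  If `p ≠ 1`,
`p ≠ p₁` then `𝔭_p ∣ b₁ 𝔭_{p₁}^m`, and `𝔭_p ∤ 𝔭_{p₁}^m` (norms), so `𝔭_p ∣ b₁` and `p ∣ N(b₁)`.  So `p` is `1`, `p₁` or one of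
the prime divisors of `N(b₁)`: at most `2 + log₂ M =: L` values.  Given `p`, `b` is determined (cancel `𝔭_p^m`), and `c` too:
`c·clI 𝔭_p·clI r = 1`.  So every fibre has at most `L` elements, and `#Z ≤ L R`.
On the other hand `#Z ≥ #B` and `#Z ≥ #B (1 + #A - log₂ M)`.  If `1 + #A ≤ 2L` then `#B(1+#A) ≤ 2L·#Z`; otherwise
`1 + #A - log₂M ≥ (1+#A)/2` and `#B(1+#A) ≤ 2 #Z`.  So in all cases `#B (1+#A) ≤ 2L²R`.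
`M < √d`, so `L ≤ 2 + log₂ d`; logarithms are `≤ C_ε d^(ε/4)` (`Real.log_le_rpow_div`). -/
def S_Ampl : Prop := ∀ m : ℕ, 1 ≤ m → ∀ ε : ℝ, 0 < ε → ∃ C : ℝ, 0 < C ∧
  ∀ (d : ℕ) (K : Type) [Field K] [NumberField K] (_Q : QF d K), Squarefree d → 2 ≤ d →
  ∀ (M P : ℝ) (A : Finset ℕ) (B : Finset (Ideal (𝓞 K) × ClassGroup (𝓞 K))), 1 ≤ P →
  2 ^ (m + 1) * (M * P ^ m) < Real.sqrt d → (∀ p ∈ A, SplN d P p) → (∀ x ∈ B, IsPB m M x) →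
  (B.card : ℝ) * (1 + (A.card : ℝ)) ≤ C * (d : ℝ) ^ (1 / 2 + ε)

/-! ## Part E2: split primes -/

/-- **CharS.**  The second moment.

Proof.  Let `χ_p(d)` be the Legendre symbol (`legendreSym`, or `quadraticChar (ZMod p)`), for the odd primes `p ∈ A`.
`f(d) = ∑_{p ∈ A} χ_p(d)`.  (a) For `p ≠ p'` in `A`: `|∑_{D ≤ d < 2D} χ_p(d)χ_{p'}(d)| ≤ p p' ≤ P²`: group the `d` by their residue
`a` mod `p`: `d = a + p j`, `j` in an interval of integers; the sum of `χ_{p'}(a + p j)` over a complete period of `j` mod `p'` is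
zero (`j ↦ a + pj` is a bijection of `ZMod p'`; `quadraticChar_sum_zero`), so the sum over `j` is at most `p'` in absolute value;
sum over the `p` values of `a`.  (b) For `p = p'` the sum is at most `D`.  So
`∑_{D ≤ d < 2D} f(d)² ≤ #A·D + (#A)² P²`.
For `d ∈ S`: `A` is the disjoint union of `A₊(d)` (`χ_p(d) = 1`, i.e. `p ∤ d` and `d` is a square mod `p`), `A₋(d)` and
`A₀(d)` (`p ∣ d`); `#A₀(d) ≤ log₂ d ≤ log₂(2D)` (the product of these primes divides `d`).  `f(d) = #A₊ - #A₋ =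
2#A₊ + #A₀ - #A`, so `-f(d) ≥ #A - 2#A₊(d) - log₂(2D) ≥ #A/2` by the hypotheses `4 #A₊(d) ≤ #A` - so `2#A₊ ≤ #A/4·...`:
precisely `8 #A₊(d) ≤ #A` and `4 log₂(2D) ≤ #A` give `-f(d) ≥ #A(1 - 1/4 - 1/4) = #A/2`.  So
`#S (#A/2)² ≤ #A·D + (#A)²P²`. -/
def S_CharS : Prop := ∀ (D : ℕ) (P : ℝ) (A S : Finset ℕ), 1 ≤ D → 1 ≤ P →
  (∀ p ∈ A, p.Prime ∧ p ≠ 2 ∧ (p : ℝ) ≤ P) → 4 * Real.logb 2 (2 * D) ≤ A.card →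
  (∀ d ∈ S, D ≤ d ∧ d < 2 * D ∧ ∀ A₁ : Finset ℕ, A₁ ⊆ A → (∀ p ∈ A₁, SplN d P p) →
    8 * A₁.card ≤ A.card) →
  (S.card : ℝ) * (A.card : ℝ) ^ 2 ≤ 4 * ((A.card : ℝ) * D + (A.card : ℝ) ^ 2 * P ^ 2)

/-- **SplitAvg** (from `CharS`).  Most `d` have many small split primes.

Proof.  `A` = all odd primes `≤ P`.  Chebyshev (`Chebyshev.psi_ge`, `Chebyshev.psi_le_primeCounting_mul_log` in
`Mathlib/NumberTheory/Chebyshev.lean`): for `P ≥ 3`, `#A ≥ c P/log P ≥ c₁ P D^(-ε/2)` (`log P ≤ log D ≤ (2/ε)D^(ε/2)`; small `P`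
by `#A ≥ 1`).  `#A ≤ P`.
If `S = ∅` there is nothing to prove.  For `d ∈ S` (take `A₁ = ∅`): `C D^ε < P`; so, `C` being large, `P ≥ 3`, and
`#A ≥ c₁ P D^(-ε/2) ≥ c₁ C D^(ε/2) ≥ 4 log₂(2D)`.  For `A₁ ⊆ A` with `SplN`: `#A₁ ≤ P/(C D^ε) ≤ c₁ P D^(-ε/2)/8 ≤ #A/8`
(`C ≥ 8/c₁`).  `CharS`: `#S ≤ 4(D/#A + P²) ≤ 4(D^(1+ε/2)/(c₁P) + P²)`, and `P² ≤ D/P` (`P³ ≤ D`).  So
`#S ≤ C D^(1+ε)/P`. -/
def S_SplitAvg : Prop := ∀ ε : ℝ, 0 < ε → ∃ C : ℝ, 0 < C ∧ ∀ (D : ℕ) (P : ℝ) (S : Finset ℕ), 1 ≤ D →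
  1 ≤ P → P ^ 3 ≤ D →
  (∀ d ∈ S, D ≤ d ∧ d < 2 * D ∧ ∀ A : Finset ℕ, (∀ p ∈ A, SplN d P p) →
    C * (D : ℝ) ^ ε * (1 + (A.card : ℝ)) < P) →
  (S.card : ℝ) ≤ C * ((D : ℝ) ^ (1 + ε) / P)

/-! ## Part E3: the polynomials of one field -/

/-- **FiberP** (from `Fiber`).  The number of `q` with given field, primitive ideal `b₀`, class of `I`, and `e` between
`E` and `2E`.

Proof.  `L = (2E)!`, a common multiple of all `1 ≤ e ≤ 2E`.  For `q ∈ S` with `θ, ψ, I, e` let `ψ₁ = (L/e) ψ`; then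
`(ψ₁) I^n = (L/e)(a)^n (e) b₀ = (a)^n (L) b₀`, so `Dat n q θ ψ₁ I ((L) b₀)`.  `|σψ₁| = (L/e)|σψ|` is between `lo₁ := lo L/(2E)` and
`40 lo L/E = 80 lo₁`.  Split `S` into the `q` with `|σψ₁| ≤ 40 lo₁` and those with `|σψ₁| > 40 lo₁` (choose `ψ, e` for
every `q` first); for the latter `2 lo₁ ≤ |σψ₁| ≤ 40 (2 lo₁)`.  `Fiber` for `b = (L) b₀` and both ranges; the constant is
`2C`. -/
def S_FiberP : Prop := ∀ n : ℕ, 1 ≤ n → ∃ C : ℝ, 0 < C ∧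
  ∀ (d : ℕ) (K : Type) [Field K] [NumberField K] (Q : QF d K), Squarefree d → 2 ≤ d →
  ∀ (b₀ : Ideal (𝓞 K)) (c : ClassGroup (𝓞 K)) (H Δ lo : ℝ) (E : ℕ) (S : Finset Qd), 0 < H → 0 < Δ →
  0 < lo → 1 ≤ E →
  (∀ q ∈ S, (q.ht : ℝ) ≤ H ∧ 0 < q.disc ∧ (q.disc : ℝ) ≤ 2 * Δ ∧
    ∃ (θ : K) (ψ : 𝓞 K) (I : Ideal (𝓞 K)) (e : ℕ), E ≤ e ∧ e ≤ 2 * E ∧
      Dat n q θ ψ I (Ideal.span {((e : ℕ) : 𝓞 K)} * b₀) ∧ clI I = c ∧ |Q.σ θ| ≤ 2 ∧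
      lo ≤ |Q.σ ψ| ∧ |Q.σ ψ| ≤ 40 * lo) →
  (S.card : ℝ) ≤ C * (H * Real.sqrt Δ / d)

/-- **DivC.**  The divisor bound for the number of polynomials of one field.

Proof.  `0 < disc = f²d ≤ 2Δ`, so `1 ≤ f ≤ √(2Δ/d)`: at most `√(2Δ/d)` values (none if this is `< 1`).  `|b| ≤ H`: at most
`2H + 1 ≤ 3H` values.  Given `f, b`: `4ac = b² - f²d ≠ 0` (`f²d` is not a square, as `q` is good), so `ac = k` is determined,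
`k ≠ 0`, `|k| ≤ H²`, and `a ∣ k`: at most `2τ(|k|) ≤ C H^ε` pairs `(a,c)` (divisor bound,
`Pool.Agent.Lib.MP_640417_ag.All.divisor_bound` in `Pool/Agent/Lib/MP_640417_ag/All/Divisor.lean`, exponent `ε/2`). -/
def S_DivC : Prop := ∀ ε : ℝ, 0 < ε → ∃ C : ℝ, 0 < C ∧ ∀ (d : ℕ) (H Δ : ℝ) (S : Finset Qd), 2 ≤ d →
  1 ≤ H → (∀ q ∈ S, q.Good ∧ (q.ht : ℝ) ≤ H ∧ 0 < q.disc ∧ (q.disc : ℝ) ≤ 2 * Δ ∧
    ∃ f : ℕ, q.disc = (f : ℤ) ^ 2 * (d : ℤ)) →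
  (S.card : ℝ) ≤ C * (H ^ (1 + ε) * Real.sqrt (Δ / d))

/-- **ClassP** (from `ExQ`, `Near1`, `DataQ`, `FiberP`, `PrimD`, `TorG`).  The polynomials of one field.

Proof.  Compare `W/ClassD.lean`, which may be copied.  `ExQ`: `K, Q`.  `S ≠ ∅`, `Δ > 0`.  For `q ∈ S`: data `θ, ψ, I, b` (`DataQ`,
constant `C₂`; `N(b) ≤ M := C₂ Yδ/H^(n-2) ≤ C₂ Y`, `clI b = clI I ^ n`), and `b = (e) b₀` (`PrimD`), `e²N(b₀) = N(b)`.  Let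
`2^j ≤ e < 2^(j+1)`; `2^j ≤ e ≤ √M`, so `j ≤ log₂(1 + C₂Y)` — at most `C(1+log Y)` values.  `c = clI I`, `c₁ = c^l`: `clI b₀ = clI b`
(`(e)` is principal: `clI_mul`, `clI_eq_iff`) `= c^n = c₁^m`.  So `(b₀, c₁)` is one of the pairs of `IsPB m M`; let `B` be the (finite)
set of the pairs that occur, `#B ≤ T`.  Given `c₁` there are at most `N` classes `c` with `c^l = c₁` (`TorG` (2), `TB l d N`).  So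
the triples `(j, b₀, c)` take at most `C(1+log Y)·T·N` values, and for each of them there are at most `C₁ H√Δ/d`
polynomials `q` (`FiberP`, `E = 2^j`, `lo = √Δ Y/8`). -/
def S_ClassP : Prop := ∀ n l m : ℕ, 2 ≤ n → n = l * m → ∃ C : ℝ, 1 ≤ C ∧
  ∀ (d N : ℕ) (T : ℝ), Squarefree d → 2 ≤ d → TB l d N →
  ∀ (Y δ H Δ : ℝ) (S : Finset Qd), 1 ≤ Y → 1 ≤ H → 0 < δ → δ ≤ 1 → 100 * (H ^ 2 * δ) ≤ Y →
  PB m d (C * (Y * δ / H ^ (n - 2))) T →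
  (∀ q ∈ S, (∃ f : ℕ, q.disc = (f : ℤ) ^ 2 * (d : ℤ)) ∧
    ∃ (ξ : ℝ) (x : ℕ → ℤ), NQ n Y δ H Δ q ξ x) →
  (S.card : ℝ) ≤ C * (1 + Real.log Y) * N * T * (H * Real.sqrt Δ / d)

/-! ## Part E4: all polynomials -/

/-- **BlockS** (from `Near1`, `ClassP`, `DivC`, `Ampl`, `SplitAvg`).  The polynomials of the fields with
`D ≤ d < 2D`.

Proof.  `C` denotes constants depending on `n, l, m, ε`.  `D ≤ disc ≤ 2Δ ≤ 10H²` (`S ≠ ∅`; `Δ ≤ disc ≤ 5 ht² ≤ 5H²`, see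
`ClassA.disc_le` in `W/ClassA.lean`), so `D ≤ 10Y²`.  `C₂` = constant of `ClassP`, `M := C₂ Yδ/H^(n-2)`,
`M ≤ C₂ H` (`Yδ ≤ H^(n-1)`), `w := Yδ/H^(n-1) = M/(C₂H) ≤ 1`.  For squarefree `d` with `D ≤ d < 2D` let `S_d` be the set of
the `q ∈ S` whose discriminant is `f²d`.  `disc > 0` (`Near1` (1)).  `DivC`: `#S_d ≤ C H^(1+ε)√(Δ/D)`.
We need `#S ≤ C Y^(..) H√Δ·H w^κ`, `κ ≤ 1/m ≤ 1/2`.
(1) `2^(m+2) M ≥ √D`.  There are at most `D` fields: `#S ≤ D·C H^(1+ε)√Δ/√D ≤ C H^(1+ε)√Δ·2^(m+2)M ≤ C H^(1+ε)√Δ·H w`,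
and `w ≤ w^κ`.
(2) `2^(m+2) M < √D`.  `M < 1`: then `PB m d M 0` (norms are `≥ 1`), and `ClassP` gives `S_d = ∅` for all `d`.  Let `M ≥ 1` and
`P = (√D/(2^(m+2)M))^(1/m) ≥ 1`; `2^(m+1) M P^m = √D/2 < √d`.  `P³ ≤ D^(3/(2m)) ≤ D` as `m ≥ 2`.  `C₃` = constant of `SplitAvg`;
let `𝓔` be the set of the squarefree `d`, `D ≤ d < 2D`, with `C₃D^ε(1+#A) < P` for all finite `A` with `SplN d P` on `A`.
`#𝓔 ≤ C₃D^(1+ε)/P`.  The polynomials of the fields `d ∈ 𝓔`: at most `C₃(D^(1+ε)/P)·C H^(1+ε)√Δ/√D ≤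
C Y^(3ε) H√Δ·√D/P`.  For `d ∉ 𝓔` there is `A` with `1+#A ≥ P/(C₃D^ε)`, and `Ampl` gives
`PB m d M T` with `T = C₄ d^(1/2+ε)·C₃D^ε/P ≤ C Y^(4ε)√D/P` (`d ≤ 2D ≤ 20Y²`).  `ClassP`:
`#S_d ≤ C(1+log Y) N(d)·C Y^(4ε)(√D/P)·H√Δ/d`; the sum over `d` with `∑_{d ≤ 2D} N(d)/d ≤ C (2D)^ε ≤ C Y^(2ε)` (`TorsB l`, `X = 2D`) is
`≤ C Y^(7ε) H√Δ·√D/P`.
Finally `√D/P = (2^(m+2)M)^(1/m)√D^(1-1/m) ≤ C M^(1/m)H^(1-1/m) = C H (M/H)^(1/m) ≤ C H w^(1/m) ≤ C H w^κ` (`w ≤ 1`,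
`κ ≤ 1/m`).  Use this with `ε/8` in place of `ε`. -/
def S_BlockS : Prop := ∀ (n l m : ℕ) (κ : ℝ), 4 ≤ n → n = l * m → 2 ≤ m → 0 ≤ κ → κ ≤ 1 / m →
  TorsB l → ∀ ε : ℝ, 0 < ε → ∃ C : ℝ, 0 < C ∧
  ∀ (D : ℕ) (Y δ H Δ : ℝ) (S : Finset Qd), 1 ≤ D → 1 ≤ Y → 1 ≤ H → H ≤ Y → 0 < δ → δ ≤ 1 →
  100 * (H ^ 2 * δ) ≤ Y → Y * δ ≤ H ^ (n - 1) →
  (∀ q ∈ S, (∃ d f : ℕ, Squarefree d ∧ 2 ≤ d ∧ D ≤ d ∧ d < 2 * D ∧ q.disc = (f : ℤ) ^ 2 * (d : ℤ)) ∧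
    ∃ (ξ : ℝ) (x : ℕ → ℤ), NQ n Y δ H Δ q ξ x) →
  (S.card : ℝ) ≤ C * Y ^ ε * (H ^ 2 * Real.sqrt Δ * (Y * δ / H ^ (n - 1)) ^ κ)

/-- **ClassQ** (from `Near1`, `BlockS`).  All quadratic polynomials.

Proof.  As in `W/ClassA.lean`: for `q ∈ S`, `disc > 0` is not a square, `disc = f²d`, `d ≥ 2` squarefree (`ClassA.sqf`),
`d ≤ disc ≤ 2Δ ≤ 10H² ≤ 10Y²`.  Let `D = 2^i ≤ d < 2^(i+1)`: at most `C(1+log Y)` values of `i`, `≤ C Y^(ε/2)`.  `BlockS` with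
`ε/2`. -/
def S_ClassQ : Prop := ∀ (n l m : ℕ) (κ : ℝ), 4 ≤ n → n = l * m → 2 ≤ m → 0 ≤ κ → κ ≤ 1 / m →
  TorsB l → ClsB n κ

/-- **ClassQ1** (from `ClassA`).  The case `m = 1`.

Proof.  `ClassA`: `#S ≤ C Y^ε (Yδ/H^(n-2)) H√Δ = C Y^ε H²√Δ·w`, `w = Yδ/H^(n-1) ≤ 1`, `w ≤ w^κ` (`κ ≤ 1`, `w > 0`). -/
def S_ClassQ1 : Prop := ∀ (n : ℕ) (κ : ℝ), 4 ≤ n → 0 ≤ κ → κ ≤ 1 → TorsB n → ClsB n κ

/-- **QCovP** (from `Near1`).  Cover of the exceptional set.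

Proof.  As `W/QCov.lean` (which may be copied; the lemmas `QCov.cov_pair`, `QCov.cov_biUnion`, `QCov.exp_le`, `QCov.card_le`
can be used directly); only the estimate for one pair `(H, Δ)` changes.  `a := Yδ = 2^λ Y^(1-λ)`.  The range of `Exc` gives, for the
dyadic `H ≥ ht q`: `a ≤ H^(n-1)` and `H^(n-2) ≤ 2^(n-2)C₀ a`.  The cost of one pair is, by `ClsB` with `ε₁`,
`≤ 2C Y^(ε₁) H²√Δ (a/H^(n-1))^κ (8Hδ/(Y√Δ))^s`.  `√Δ^(1-s) ≤ (3H)^(1-s)` (`Δ ≤ 5H²`), so this is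
`≤ 48 C Y^(ε₁) H³ (a/H^(n-1))^κ (δ/Y)^s`, and `H³ (a/H^(n-1))^κ = a^κ H^(3-κ(n-1))`, `3 - κ(n-1) ≥ 0`,
`H ≤ C a^(1/(n-2))`: `≤ C' a^(κ + (3-κ(n-1))/(n-2)) = C' a^((3-κ)/(n-2))` (`κ(n-2) + 3 - κ(n-1) = 3 - κ`).  So the cost of one pair is
`≤ C'' Y^(ε₁) a^((3-κ)/(n-2)) (δ/Y)^s ≤ C''' Y^(ε₁ + (1-λ)(3-κ)/(n-2) - s(1+λ))`.  Take `ε₁` = a quarter of
`s(1+λ) - (1-λ)(3-κ)/(n-2) > 0`. -/
def S_QCovP : Prop := ∀ (n : ℕ) (κ lam s C₀ : ℝ), 4 ≤ n → 0 ≤ κ → κ ≤ 3 / ((n : ℝ) - 1) → ClsB n κ →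
  0 < lam → 0 < s → s ≤ 1 → 1 ≤ C₀ → (3 - κ) * (1 - lam) / ((n : ℝ) - 2) < s * (1 + lam) →
  ∃ ε Y₀ : ℝ, 0 < ε ∧ 2 ≤ Y₀ ∧
  ∀ Y : ℝ, Y₀ ≤ Y → CovW s (Y ^ (-ε)) (Exc n Y ((Y / 2) ^ (-lam)) C₀)

end Pool.Agent.MP211W
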