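import Pool.Agent.Lib.MP_211f72_nt.W.SpecE
import Pool.Agent.Lib.MP_211f72_nt.W.LevelW
import Pool.Agent.Lib.MP_211f72_nt.W.UpperW
import Pool.Agent.Lib.MP_211f72_nt.W.UpEqW
import Pool.Agent.Lib.MP_211f72_nt.W.LowerW

/-!
# MP_211f72_nt, third theorem: the last steps with an arbitrary threshold `L` for the exponent

Variants of `LevelW`, `UpperW`, `UpEqW`, `LowerW` (where the threshold is `(n+8)/(5n+4)`), and the parameters for
`n = 5`.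
-/

namespace Pool.Agent.MP211W

open MeasureTheory Filter Topology MP_211f72_nt

/-- the upper bound for all exponents beyond `L` -/
def UpL (n : ℕ) (L : ℝ) : Prop := ∀ lam : ℝ, L < lam →
  dimH {ξ : ℝ | MP_211f72_nt.Approx n ξ lam} ≤ ENNReal.ofReal (sW n lam)

/-- the parameters exist for `s` close to `sW n lam` -/
def ParL (n : ℕ) (lam : ℝ) : Prop := ∃ s₀ : ℝ, sW n lam < s₀ ∧ s₀ ≤ 1 ∧
  ∀ s : ℝ, sW n lam < s → s ≤ s₀ → ∃ R : ℕ, Par n R lam s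

/-- the exceptional set has small covers for `s > sW n lam` -/
def ExcL (n : ℕ) (lam : ℝ) : Prop := ∀ s C₀ : ℝ, 0 < s → s ≤ 1 → 1 ≤ C₀ → sW n lam < s →
  ∃ ε Y₀ : ℝ, 0 < ε ∧ 2 ≤ Y₀ ∧
  ∀ Y : ℝ, Y₀ ≤ Y → CovW s (Y ^ (-ε)) (Exc n Y ((Y / 2) ^ (-lam)) C₀)

namespace ThreshL

theorem level (h2 : S_RedW) (n : ℕ) (lam : ℝ) (hp : ParL n lam) (hQ : ExcL n lam) :
    dimH {ξ : ℝ | 0 ≤ ξ ∧ ξ ≤ 1 ∧ ∀ K : ℕ, ∃ k : ℕ, K ≤ k ∧ ∃ x : Fin (n + 1) → ℤ,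
      Pool.Agent.MP211V.Nr n (2 ^ (k + 1)) lam ξ x} ≤ ENNReal.ofReal (sW n lam) := by
  obtain ⟨s₀, hs0, hs01, hpar⟩ := hp
  have htend : Tendsto (fun s' : ℝ => ENNReal.ofReal s') (𝓝[>] (sW n lam))
      (𝓝 (ENNReal.ofReal (sW n lam))) :=
    (ENNReal.continuous_ofReal.tendsto _).mono_left nhdsWithin_le_nhds
  refine ge_of_tendsto htend ?_
  filter_upwards [Ioo_mem_nhdsGT hs0] with s' hs'
  obtain ⟨hss, hs'1⟩ := hs'
  obtain ⟨R, hP⟩ := hpar s' hss hs'1.le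
  obtain ⟨ε₁, C₀, Y₁, hε1, hC0, hY1, H1⟩ := h2 n R lam s' hP
  obtain ⟨-, -, -, -, -, hs'0, hs'le, -, -, -, hq, -⟩ := hP
  obtain ⟨ε₂, Y₂, hε2, hY2, H2⟩ := hQ s' C₀ hs'0 hs'le hC0 hss
  have hex : ∀ k : ℕ, ∃ T' : Finset (ℝ × ℝ), (∀ p ∈ T', 0 ≤ p.2) ∧
      ∑ p ∈ T', p.2 ^ s' ≤ ((2 : ℝ) ^ (k + 1)) ^ (-ε₁) + ((2 : ℝ) ^ (k + 1)) ^ (-ε₂) ∧
      (max Y₁ Y₂ ≤ (2 : ℝ) ^ (k + 1) → ∀ ξ : ℝ, 0 ≤ ξ → ξ ≤ 1 → ∀ x : Fin (n + 1) → ℤ,
        Pool.Agent.MP211V.Nr n ((2 : ℝ) ^ (k + 1)) lam ξ x → ∃ p ∈ T', |ξ - p.1| ≤ p.2) := by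
    intro k
    by_cases hk : max Y₁ Y₂ ≤ (2 : ℝ) ^ (k + 1)
    · obtain ⟨T, hT1, hT2, hT3⟩ := (H1 _ ((le_max_left _ _).trans hk)).union
        (H2 _ ((le_max_right _ _).trans hk))
      refine ⟨T, hT1, hT2, fun _ ξ h0 h1' x hx => hT3 ξ ?_⟩
      by_cases hE : ξ ∈ Exc n ((2 : ℝ) ^ (k + 1)) (((2 : ℝ) ^ (k + 1) / 2) ^ (-lam)) C₀
      · exact Or.inr hE
      · exact Or.inl ⟨⟨h0, h1', _, LevelW.nrW_of_nr hx⟩, hE⟩
    · exact ⟨∅, by simp, by simp; positivity, fun h => absurd h hk⟩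
  choose T hT1 hT2 hT3 using hex
  obtain ⟨k₀, hk₀⟩ := pow_unbounded_of_one_lt (max Y₁ Y₂) (by norm_num : (1 : ℝ) < 2)
  refine MP_211f72_nt.limsup s' _ T hs'0 hT1 ?_ ?_
  · refine Summable.of_nonneg_of_le (fun k => Finset.sum_nonneg fun p hp =>
      Real.rpow_nonneg (hT1 k p hp) _) hT2 ?_
    exact (LevelW.summable_two hε1).add (LevelW.summable_two hε2)
  · rintro ξ ⟨h0, h1', h2'⟩ K
    obtain ⟨k, hk, x, hx⟩ := h2' (max K k₀)
    refine ⟨k, le_trans (le_max_left _ _) hk, ?_⟩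
    refine hT3 k ?_ ξ h0 h1' x hx
    have h3 : (2 : ℝ) ^ k₀ ≤ 2 ^ (k + 1) :=
      pow_le_pow_right₀ (by norm_num) (by have := le_trans (le_max_right K k₀) hk; omega)
    linarith

theorem upper (h1 : Pool.Agent.MP211V.S_ExpoN) (h2 : Pool.Agent.MP211V.S_Yc) (n : ℕ) (hn : 4 ≤ n)
    (L : ℝ) (hL0 : 0 ≤ L)
    (hL : ∀ lam : ℝ, L < lam →
      dimH {ξ : ℝ | 0 ≤ ξ ∧ ξ ≤ 1 ∧ ∀ K : ℕ, ∃ k : ℕ, K ≤ k ∧ ∃ x : Fin (n + 1) → ℤ,
        Pool.Agent.MP211V.Nr n (2 ^ (k + 1)) lam ξ x} ≤ ENNReal.ofReal (sW n lam)) :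
    UpL n L := by
  intro lam hl1
  have hlam0 : 0 < lam := lt_of_le_of_lt hL0 hl1
  obtain ⟨hE1, _, _⟩ := h1
  have key : ∀ lam' : ℝ, L < lam' → lam' < lam →
      dimH {ξ : ℝ | MP_211f72_nt.Approx n ξ lam} ≤ ENNReal.ofReal (sW n lam') := by
    intro lam' h3 h4
    have hlam'0 : 0 < lam' := lt_of_le_of_lt hL0 h3
    set E : Set ℝ := {ξ : ℝ | 0 ≤ ξ ∧ ξ ≤ 1 ∧ ∀ K : ℕ, ∃ k : ℕ, K ≤ k ∧
      ∃ x : Fin (n + 1) → ℤ, Pool.Agent.MP211V.Nr n (2 ^ (k + 1)) lam' ξ x} with hEd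
    have hsub : {ξ : ℝ | MP_211f72_nt.Approx n ξ lam} ⊆
        Set.range ((↑) : ℚ → ℝ) ∪ ⋃ m : ℤ, (IsometryEquiv.addRight (m : ℝ)) '' E := by
      intro ξ hξ
      by_cases hirr : Irrational ξ
      · right
        rw [Set.mem_iUnion]
        refine ⟨⌊ξ⌋, ξ - ⌊ξ⌋, ⟨?_, ?_, ?_⟩, ?_⟩
        · have := Int.floor_le ξ
          linarith
        · have := Int.lt_floor_add_one ξ
          linarith
        · exact Pool.Agent.MP211V.up_nr h2 n lam lam' ξ ⌊ξ⌋ hlam'0 h4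
            (hE1 n ξ lam (by omega) hirr hlam0 hξ)
        · simp
      · left
        unfold Irrational at hirr
        exact not_not.1 hirr
    refine (dimH_mono hsub).trans ?_
    rw [dimH_union, dimH_iUnion, (Set.countable_range _).dimH_zero]
    refine max_le zero_le (iSup_le fun m => ?_)
    rw [IsometryEquiv.dimH_image]
    exact hL lam' h3
  have hc : ContinuousAt (fun l : ℝ => ENNReal.ofReal (sW n l)) lam :=
    ENNReal.continuous_ofReal.continuousAt.comp (UpperW.continuousAt_sW n lam (by linarith))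
  have hc2 : Tendsto (fun l : ℝ => ENNReal.ofReal (sW n l)) (nhdsWithin lam (Set.Iio lam))
      (nhds (ENNReal.ofReal (sW n lam))) := hc.tendsto.mono_left nhdsWithin_le_nhds
  refine ge_of_tendsto hc2 ?_
  have hI : Set.Ioo L lam ∈ nhdsWithin lam (Set.Iio lam) := Ioo_mem_nhdsLT hl1
  filter_upwards [hI] with l hl
  exact key l hl.1 hl.2

theorem upEq (n : ℕ) (L : ℝ) (hL0 : 0 ≤ L) (h1 : UpL n L) (lam : ℝ) (hlam : L < lam) :
    dimH {ξ : ℝ | MP_211f72_nt.lambdaExp n ξ = (lam : EReal)} ≤ ENNReal.ofReal (sW n lam) := by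
  have hl0 : 0 < lam := lt_of_le_of_lt hL0 hlam
  have hstep : ∀ mu : ℝ, L < mu → mu < lam →
      dimH {ξ : ℝ | MP_211f72_nt.lambdaExp n ξ = (lam : EReal)} ≤ ENNReal.ofReal (sW n mu) := by
    intro mu hmu1 hmu2
    refine le_trans (dimH_mono ?_) (h1 mu hmu1)
    intro ξ hξ
    exact MP_211f72_nt.expo.1 n ξ lam mu hξ hmu2
  have hcont : Tendsto (fun l => ENNReal.ofReal (sW n l)) (𝓝[<] lam)
      (𝓝 (ENNReal.ofReal (sW n lam))) := by
    apply ENNReal.tendsto_ofReal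
    exact (UpEqW.continuousAt_sW n lam (by linarith)).tendsto.mono_left nhdsWithin_le_nhds
  refine ge_of_tendsto hcont ?_
  have : ∀ᶠ l in 𝓝[<] lam, l ∈ Set.Ioo L lam := Ioo_mem_nhdsLT hlam
  filter_upwards [this] with l hl
  exact hstep l hl.1 hl.2

theorem top {n : ℕ} {lam : ℝ} (hn : 4 ≤ n) :
    0 < max (2 / (n : ℝ)) (3 * (1 - lam) / ((n : ℝ) - 1)) := by
  have hn' : (4 : ℝ) ≤ n := by exact_mod_cast hn
  exact lt_max_of_lt_left (by positivity)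

theorem pos {n : ℕ} {lam : ℝ} (hn : 4 ≤ n) (h : 0 < lam) : 0 < sW n lam := by
  unfold sW
  exact div_pos (top hn) (by linarith)

theorem le {n : ℕ} {lam : ℝ} (hn : 4 ≤ n) (h : 0 < lam) : sW n lam ≤ 1 := by
  have hn' : (4 : ℝ) ≤ n := by exact_mod_cast hn
  unfold sW
  rw [div_le_one (by linarith)]
  refine max_le ?_ ?_
  · rw [div_le_iff₀ (by linarith)]
    nlinarith
  · rw [div_le_iff₀ (by linarith)]
    nlinarith

theorem anti {n : ℕ} {lam lam' : ℝ} (hn : 4 ≤ n) (h : 0 < lam)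
    (h' : lam < lam') : sW n lam' < sW n lam := by
  have hn' : (4 : ℝ) ≤ n := by exact_mod_cast hn
  have h1 : max (2 / (n : ℝ)) (3 * (1 - lam') / ((n : ℝ) - 1)) ≤
      max (2 / (n : ℝ)) (3 * (1 - lam) / ((n : ℝ) - 1)) := by
    refine max_le_max le_rfl ?_
    exact div_le_div_of_nonneg_right (by linarith) (by linarith)
  unfold sW
  refine lt_of_le_of_lt (div_le_div_of_nonneg_right h1 (by linarith)) ?_
  exact div_lt_div_of_pos_left (top hn) (by linarith) (by linarith)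

theorem lower (h1 : Pool.Agent.MP211V.S_ExpoN) (n : ℕ) (L lam : ℝ) (hn : 4 ≤ n) (hL0 : 0 ≤ L)
    (hlam : L < lam) (hup : UpL n L) (hk : Pool.Agent.MP211V.KidsForN n (sW n lam) lam) :
    ENNReal.ofReal (sW n lam) ≤ dimH {ξ : ℝ | MP_211f72_nt.lambdaExp n ξ = (lam : EReal)} := by
  have hl0 : 0 < lam := lt_of_le_of_lt hL0 hlam
  obtain ⟨_, e2, _, _⟩ := MP_211f72_nt.expo
  obtain ⟨_, g2, g3⟩ := h1
  obtain ⟨K, hK, hkids⟩ := hk
  have hs0 := pos (n := n) hn hl0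
  have hs1 := le (n := n) hn hl0
  by_contra hcon
  rw [not_le] at hcon
  set Z : Set ℝ := {ξ : ℝ | lambdaExp n ξ = (lam : EReal)} with hZ
  let N : ℕ → Set ℝ := fun k =>
    match k with
    | 0 => Z
    | (j + 1) => {ξ : ℝ | Approx n ξ (lam + 1 / ((j : ℝ) + 1))}
  have hN : ∀ k, ∃ t : ℝ, 0 < t ∧ t < sW n lam ∧ CZ t (N k) := by
    intro k
    cases k with
    | zero => exact MP_211f72_nt.contentZero Z (sW n lam) hs0 hs1 hcon
    | succ j =>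
      refine MP_211f72_nt.contentZero _ (sW n lam) hs0 hs1 ?_
      have hj : (0 : ℝ) < 1 / ((j : ℝ) + 1) := by positivity
      have hl1 : lam < lam + 1 / ((j : ℝ) + 1) := by linarith
      refine lt_of_le_of_lt (hup (lam + 1 / ((j : ℝ) + 1)) (hlam.trans hl1)) ?_
      exact (ENNReal.ofReal_lt_ofReal_iff hs0).mpr (anti hn hl0 hl1)
  choose τ hτ0 hτs hcz using hN
  obtain ⟨ξ, _, _, hgd, hav⟩ := MP_211f72_nt.avoid K (sW n lam) hK hs0 hs1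
    (Pool.Agent.MP211V.GdN n lam) hkids N τ (fun k => ⟨hτ0 k, hτs k⟩) hcz
  have hA : Approx n ξ lam := g2 n ξ lam hgd
  have hB : ∀ k : ℕ, ¬ Approx n ξ (lam + 1 / (k + 1)) := fun k => hav (k + 1)
  exact hav 0 (e2 n ξ lam hA hB)

/-- the parameters for `n = 5` -/
theorem par5 (lam : ℝ) (h : 1 / 2 < lam) : ParL 5 lam := by
  have h1 : sW 5 lam < 1 / 2 := by
    unfold sW
    rw [div_lt_iff₀ (by linarith)]
    push_cast
    refine max_lt ?_ ?_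
    · linarith
    · rw [div_lt_iff₀ (by norm_num)]
      linarith
  refine ⟨1 / 2, h1, by norm_num, ?_⟩
  intro s hs hs2
  have hs0 : 0 < s := lt_trans (pos (by norm_num) (by linarith)) hs
  have hs' : max (2 / ((5 : ℕ) : ℝ)) (3 * (1 - lam) / (((5 : ℕ) : ℝ) - 1)) < s * (1 + lam) := by
    unfold sW at hs
    rwa [div_lt_iff₀ (by linarith)] at hs
  refine ⟨2, by norm_num, by norm_num, by norm_num, by linarith, ?_, hs0, by linarith, ?_, ?_, ?_, ?_, ?_⟩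
  · push_cast
    linarith
  · push_cast
    nlinarith
  · exact lt_of_le_of_lt (le_max_left _ _) hs'
  · refine lt_of_le_of_lt ?_ hs'
    by_cases hl : lam ≤ 1
    · refine le_trans ?_ (le_max_right _ _)
      push_cast
      rw [div_le_div_iff₀ (by norm_num) (by norm_num)]
      nlinarith
    · push Not at hl
      refine le_trans ?_ (le_max_left _ _)
      push_cast
      rw [div_le_div_iff₀ (by norm_num) (by norm_num)]
      nlinarith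
  · exact lt_of_le_of_lt (le_max_right _ _) hs'
  · intro r hr1 hr2
    omega

end ThreshL

/-- the level sets, from covers of the exceptional sets -/
theorem levelL (h2 : S_RedW) (h3 : Pool.Agent.MP211V.S_ExpoN) (h4 : Pool.Agent.MP211V.S_Yc)
    (hK : S_KidsW) (n : ℕ) (hn : 4 ≤ n) (L : ℝ) (hL : ((n : ℝ) + 8) / (5 * n + 4) ≤ L)
    (hp : ∀ lam : ℝ, L < lam → ParL n lam) (hQ : ∀ lam : ℝ, L < lam → ExcL n lam) (lam : ℝ)
    (hlam : L < lam) :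
    dimH {ξ : ℝ | MP_211f72_nt.lambdaExp n ξ = (lam : EReal)} = ENNReal.ofReal (sW n lam) := by
  have hL0 : 0 ≤ L := le_trans (by positivity) hL
  have hup : UpL n L := ThreshL.upper h3 h4 n hn L hL0 fun mu hmu =>
    ThreshL.level h2 n mu (hp mu hmu) (hQ mu hmu)
  exact le_antisymm (ThreshL.upEq n L hL0 hup lam hlam)
    (ThreshL.lower h3 n L lam hn hL0 hlam hup (hK n lam hn (lt_of_le_of_lt hL hlam)))

end Pool.Agent.MP211W
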